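import Pool.Agent.H906R3.CY.Defs
import Pool.Agent.H906R3.K6.A1
import Pool.Agent.H906R3.K6.A2a

/-!
# Strip representation for functions of linear growth
-/

namespace H906C
open MeasureTheory Filter Topology

theorem b1_pi_sq : (Real.pi / 3) ^ 2 ≤ 2 := by
  have h1 := Real.pi_lt_four
  have h2 := Real.pi_pos
  nlinarith

/-- lower bound for the denominator -/
theorem b1_den (e : ℝ) (he0 : 0 < e) (he : e ≤ 1 / 4) (z : ℂ) (hz : |z.im| ≤ Real.pi / 3) :
    (1 + e ^ 2 * z.re ^ 2) / 2 ≤ ‖1 + (e : ℂ) ^ 2 * z ^ 2‖ := by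
  have h1 : (1 + (e : ℂ) ^ 2 * z ^ 2).re = 1 + e ^ 2 * (z.re ^ 2 - z.im ^ 2) := by
    have h2 : (e : ℂ) ^ 2 = ((e ^ 2 : ℝ) : ℂ) := by push_cast; ring
    rw [h2, Complex.add_re, Complex.re_ofReal_mul, Complex.one_re, pow_two z, Complex.mul_re]
    ring
  have h3 := Complex.re_le_norm (1 + (e : ℂ) ^ 2 * z ^ 2)
  rw [h1] at h3
  have h4 : z.im ^ 2 ≤ 2 := by
    have h5 : z.im ^ 2 = |z.im| ^ 2 := (sq_abs _).symm
    rw [h5]
    exact (pow_le_pow_left₀ (abs_nonneg _) hz 2).trans b1_pi_sq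
  have h6 : e ^ 2 ≤ 1 / 16 := by nlinarith
  have h7 : e ^ 2 * z.im ^ 2 ≤ 1 / 8 := by
    have := mul_le_mul h6 h4 (sq_nonneg _) (by norm_num)
    linarith
  have h8 : 0 ≤ e ^ 2 * z.re ^ 2 := by positivity
  nlinarith

theorem b1_den_ne (e : ℝ) (he0 : 0 < e) (he : e ≤ 1 / 4) (z : ℂ) (hz : |z.im| ≤ Real.pi / 3) :
    1 + (e : ℂ) ^ 2 * z ^ 2 ≠ 0 := by
  intro h
  have h1 := b1_den e he0 he z hz
  rw [h, norm_zero] at h1
  have : 0 ≤ e ^ 2 * z.re ^ 2 := by positivity
  linarith

theorem b1_exp_integrable : Integrable (fun l : ℝ => Real.exp (-(|l| / 2))) := by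
  have h := H906K.a2a_exp_integrable.comp_mul_left' (R := (1 / 3 : ℝ)) (by norm_num)
  refine h.congr (Eventually.of_forall fun l => ?_)
  simp only
  congr 1
  rw [abs_mul, abs_of_pos (by norm_num : (0 : ℝ) < 1 / 3)]
  ring

theorem b1_kk_lin_integrable (l : ℝ) :
    Integrable (fun u : ℝ => H906K.kk (l - u) * (1 + |u|)) := by
  have hpi := Real.pi_pos
  have h1 : Integrable (fun v : ℝ => (3 / (2 * Real.pi) * (1 + |l|)) * Real.exp (-(|v| / 2))) :=
    b1_exp_integrable.const_mul _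
  have h2 : Integrable (fun u : ℝ => (3 / (2 * Real.pi) * (1 + |l|)) *
      Real.exp (-(|l - u| / 2))) := h1.comp_sub_left l
  refine h2.mono' ?_ (Eventually.of_forall fun u => ?_)
  · refine Continuous.aestronglyMeasurable ?_
    exact (H906K.kk_cont.comp (by fun_prop)).mul (by fun_prop)
  · have h3 := H906K.kk_pos (l - u)
    have h4 := H906K.kk_le (l - u)
    rw [Real.norm_eq_abs, abs_of_nonneg (by positivity)]
    have h5 : 1 + |u| ≤ (1 + |l|) * Real.exp |l - u| := by
      have h6 : |u| ≤ |l| + |l - u| := by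
        have := abs_sub_abs_le_abs_sub u l
        rw [abs_sub_comm] at this
        linarith
      have h7 := Real.add_one_le_exp |l - u|
      have h8 := abs_nonneg l
      have h9 := abs_nonneg (l - u)
      nlinarith
    calc H906K.kk (l - u) * (1 + |u|)
        ≤ (3 / (2 * Real.pi) * Real.exp (-(3 * |l - u| / 2))) *
          ((1 + |l|) * Real.exp |l - u|) :=
          mul_le_mul h4 h5 (by positivity) (by positivity)
      _ = (3 / (2 * Real.pi) * (1 + |l|)) *
          (Real.exp (-(3 * |l - u| / 2)) * Real.exp |l - u|) := by ring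
      _ = (3 / (2 * Real.pi) * (1 + |l|)) * Real.exp (-(|l - u| / 2)) := by
          rw [← Real.exp_add]
          congr 2
          ring

theorem strip_rep_lin (f : ℂ → ℂ) (K : ℝ)
    (hf : ∀ z : ℂ, |z.im| ≤ Real.pi / 3 → DifferentiableAt ℂ f z)
    (hb : ∀ z : ℂ, |z.im| ≤ Real.pi / 3 → ‖f z‖ ≤ K * (1 + |z.re|)) (l : ℝ) :
    f l = ∫ u : ℝ, (H906K.kk (l - u) : ℂ) * (f (u + Real.pi / 3 * Complex.I)
      + f (u - Real.pi / 3 * Complex.I)) := by
  have hpi := Real.pi_pos
  have hK : 0 ≤ K := by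
    have h1 := hb 0 (by simp; positivity)
    simp only [Complex.zero_re, abs_zero, add_zero, mul_one] at h1
    exact (norm_nonneg _).trans h1
  set e : ℕ → ℝ := fun n => 1 / ((n : ℝ) + 4) with he
  have he0 : ∀ n, 0 < e n := fun n => by simp only [he]; positivity
  have he4 : ∀ n, e n ≤ 1 / 4 := fun n => by
    simp only [he]
    exact one_div_le_one_div_of_le (by norm_num) (by linarith [Nat.cast_nonneg (α := ℝ) n])
  have helim : Tendsto e atTop (𝓝 0) := by
    simp only [he, one_div]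
    exact (tendsto_natCast_atTop_atTop.atTop_add tendsto_const_nhds).inv_tendsto_atTop
  set g : ℕ → ℂ → ℂ := fun n z => f z / (1 + (e n : ℂ) ^ 2 * z ^ 2) with hg
  -- bound
  have hgb : ∀ n z, |z.im| ≤ Real.pi / 3 → ‖g n z‖ ≤ K * (1 + |z.re|) * 2 / (1 + e n ^ 2 * z.re ^ 2)
      := by
    intro n z hz
    have h1 := b1_den (e n) (he0 n) (he4 n) z hz
    have h2 : 0 < (1 + e n ^ 2 * z.re ^ 2) / 2 := by positivity
    simp only [hg]
    rw [norm_div]
    calc ‖f z‖ / ‖1 + (e n : ℂ) ^ 2 * z ^ 2‖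
        ≤ (K * (1 + |z.re|)) / ((1 + e n ^ 2 * z.re ^ 2) / 2) :=
          div_le_div₀ (by positivity) (hb z hz) h2 h1
      _ = K * (1 + |z.re|) * 2 / (1 + e n ^ 2 * z.re ^ 2) := by
          field_simp
  have hgb1 : ∀ n z, |z.im| ≤ Real.pi / 3 → ‖g n z‖ ≤ K * 2 * (1 + 1 / e n) := by
    intro n z hz
    refine (hgb n z hz).trans ?_
    have h0 := he0 n
    rw [div_le_iff₀ (by positivity)]
    have h1 : (1 + |z.re|) ≤ (1 + 1 / e n) * (1 + e n ^ 2 * z.re ^ 2) := by
      have h2 : z.re ^ 2 = |z.re| ^ 2 := (sq_abs _).symm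
      rw [h2]
      have h3 := abs_nonneg z.re
      have h4 : (1 + 1 / e n) * (1 + e n ^ 2 * |z.re| ^ 2) =
          1 + e n ^ 2 * |z.re| ^ 2 + 1 / e n + e n * |z.re| ^ 2 := by
        field_simp
        ring
      rw [h4]
      have h5 : |z.re| ≤ 1 / e n + e n * |z.re| ^ 2 := by
        have h6 : 1 / e n + e n * |z.re| ^ 2 - |z.re| =
            (1 - e n * |z.re| + e n ^ 2 * |z.re| ^ 2) / e n := by
          field_simp
          ring
        have h7 : 0 ≤ (1 - e n * |z.re| + e n ^ 2 * |z.re| ^ 2) / e n := by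
          apply div_nonneg _ h0.le
          nlinarith [sq_nonneg (e n * |z.re| - 1 / 2)]
        linarith
      have h8 : 0 ≤ e n ^ 2 * |z.re| ^ 2 := by positivity
      linarith
    calc K * (1 + |z.re|) * 2 = (K * 2) * (1 + |z.re|) := by ring
      _ ≤ (K * 2) * ((1 + 1 / e n) * (1 + e n ^ 2 * z.re ^ 2)) :=
          mul_le_mul_of_nonneg_left h1 (by positivity)
      _ = _ := by ring
  have hgb2 : ∀ n z, |z.im| ≤ Real.pi / 3 → ‖g n z‖ ≤ K * 2 * (1 + |z.re|) := by
    intro n z hz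
    refine (hgb n z hz).trans ?_
    have h0 := he0 n
    rw [div_le_iff₀ (by positivity)]
    have h1 : 0 ≤ e n ^ 2 * z.re ^ 2 := by positivity
    have h2 : 0 ≤ K * 2 * (1 + |z.re|) := by positivity
    nlinarith
  have hgd : ∀ n z, |z.im| ≤ Real.pi / 3 → DifferentiableAt ℂ (g n) z := by
    intro n z hz
    simp only [hg]
    refine (hf z hz).div ?_ (b1_den_ne (e n) (he0 n) (he4 n) z hz)
    fun_prop
  have hglim : ∀ z, Tendsto (fun n => g n z) atTop (𝓝 (f z)) := by
    intro z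
    have h1 : Tendsto (fun n => (1 : ℂ) + (e n : ℂ) ^ 2 * z ^ 2) atTop
        (𝓝 (1 + ((0 : ℝ) : ℂ) ^ 2 * z ^ 2)) :=
      tendsto_const_nhds.add ((((Complex.continuous_ofReal.tendsto 0).comp helim).pow 2).mul_const _)
    have h2 : Tendsto (fun n => f z / ((1 : ℂ) + (e n : ℂ) ^ 2 * z ^ 2)) atTop
        (𝓝 (f z / (1 + ((0 : ℝ) : ℂ) ^ 2 * z ^ 2))) :=
      Tendsto.div (tendsto_const_nhds (x := f z)) h1 (by simp)
    have h3 : f z / (1 + ((0 : ℝ) : ℂ) ^ 2 * z ^ 2) = f z := by simp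
    rw [h3] at h2
    exact h2
  have him : ∀ u : ℝ, |((u : ℂ) + Real.pi / 3 * Complex.I).im| ≤ Real.pi / 3 := by
    intro u
    have : ((u : ℂ) + Real.pi / 3 * Complex.I).im = Real.pi / 3 := by
      have h : (Real.pi : ℂ) / 3 = ((Real.pi / 3 : ℝ) : ℂ) := by push_cast; ring
      rw [h, Complex.add_im, Complex.ofReal_im, Complex.im_ofReal_mul, Complex.I_im]
      ring
    rw [this, abs_of_pos (by positivity)]
  have him' : ∀ u : ℝ, |((u : ℂ) - Real.pi / 3 * Complex.I).im| ≤ Real.pi / 3 := by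
    intro u
    have : ((u : ℂ) - Real.pi / 3 * Complex.I).im = -(Real.pi / 3) := by
      have h : (Real.pi : ℂ) / 3 = ((Real.pi / 3 : ℝ) : ℂ) := by push_cast; ring
      rw [h, Complex.sub_im, Complex.ofReal_im, Complex.im_ofReal_mul, Complex.I_im]
      ring
    rw [this, abs_neg, abs_of_pos (by positivity)]
  have hre : ∀ u : ℝ, ((u : ℂ) + Real.pi / 3 * Complex.I).re = u := by
    intro u
    have h : (Real.pi : ℂ) / 3 = ((Real.pi / 3 : ℝ) : ℂ) := by push_cast; ring
    rw [h, Complex.add_re, Complex.ofReal_re, Complex.re_ofReal_mul, Complex.I_re]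
    ring
  have hre' : ∀ u : ℝ, ((u : ℂ) - Real.pi / 3 * Complex.I).re = u := by
    intro u
    have h : (Real.pi : ℂ) / 3 = ((Real.pi / 3 : ℝ) : ℂ) := by push_cast; ring
    rw [h, Complex.sub_re, Complex.ofReal_re, Complex.re_ofReal_mul, Complex.I_re]
    ring
  have hrep : ∀ n, g n l = ∫ u : ℝ, (H906K.kk (l - u) : ℂ) * (g n (u + Real.pi / 3 * Complex.I)
      + g n (u - Real.pi / 3 * Complex.I)) := fun n =>
    H906K.strip_rep (g n) _ (hgd n) (hgb1 n) l
  have hlim : Tendsto (fun n => ∫ u : ℝ, (H906K.kk (l - u) : ℂ) *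
      (g n (u + Real.pi / 3 * Complex.I) + g n (u - Real.pi / 3 * Complex.I))) atTop
      (𝓝 (∫ u : ℝ, (H906K.kk (l - u) : ℂ) * (f (u + Real.pi / 3 * Complex.I)
        + f (u - Real.pi / 3 * Complex.I)))) := by
    refine tendsto_integral_of_dominated_convergence
      (fun u => (K * 2 * 2) * (H906K.kk (l - u) * (1 + |u|))) ?_ ?_ ?_ ?_
    · intro n
      refine Continuous.aestronglyMeasurable ?_
      refine Continuous.mul ?_ (Continuous.add ?_ ?_)
      · exact Complex.continuous_ofReal.comp (H906K.kk_cont.comp (by fun_prop))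
      · rw [continuous_iff_continuousAt]
        intro u
        exact ContinuousAt.comp (f := fun u : ℝ => (u : ℂ) + Real.pi / 3 * Complex.I)
          (hgd n _ (him u)).continuousAt (by fun_prop)
      · rw [continuous_iff_continuousAt]
        intro u
        exact ContinuousAt.comp (f := fun u : ℝ => (u : ℂ) - Real.pi / 3 * Complex.I)
          (hgd n _ (him' u)).continuousAt (by fun_prop)
    · exact (b1_kk_lin_integrable l).const_mul _
    · intro n
      refine Eventually.of_forall fun u => ?_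
      have h1 := hgb2 n _ (him u)
      have h2 := hgb2 n _ (him' u)
      rw [hre] at h1
      rw [hre'] at h2
      have h3 := H906K.kk_pos (l - u)
      rw [norm_mul, Complex.norm_real, Real.norm_eq_abs, abs_of_pos h3]
      have h4 := norm_add_le (g n ((u : ℂ) + Real.pi / 3 * Complex.I))
        (g n ((u : ℂ) - Real.pi / 3 * Complex.I))
      calc H906K.kk (l - u) * ‖g n ((u : ℂ) + Real.pi / 3 * Complex.I) +
            g n ((u : ℂ) - Real.pi / 3 * Complex.I)‖
          ≤ H906K.kk (l - u) * (K * 2 * (1 + |u|) + K * 2 * (1 + |u|)) :=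
            mul_le_mul_of_nonneg_left (h4.trans (add_le_add h1 h2)) h3.le
        _ = (K * 2 * 2) * (H906K.kk (l - u) * (1 + |u|)) := by ring
    · refine Eventually.of_forall fun u => ?_
      exact ((hglim _).add (hglim _)).const_mul _
  have hlim' : Tendsto (fun n => g n l) atTop (𝓝 (∫ u : ℝ, (H906K.kk (l - u) : ℂ) *
      (f (u + Real.pi / 3 * Complex.I) + f (u - Real.pi / 3 * Complex.I)))) :=
    hlim.congr (fun n => (hrep n).symm)
  exact tendsto_nhds_unique (hglim l) hlim'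

end H906C
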