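import Pool.Agent.H906R3.CY.Defs

/-! B2: the function `P`. -/

namespace H906C

open Filter Topology

theorem b2_half (z : ℂ) : 4 * Complex.cosh (z / 2) ^ 2 = 2 * (1 + Complex.cosh z) := by
  have h1 := Complex.cosh_two_mul (z / 2)
  have h2 := Complex.cosh_sq (z / 2)
  have h3 : 2 * (z / 2) = z := by ring
  rw [h3] at h1
  rw [h1]
  linear_combination 2 * h2

theorem b2_re (z : ℂ) : (Complex.cosh z).re = Real.cosh z.re * Real.cos z.im := by
  have h : Complex.cosh z = Complex.cosh ((z.re : ℂ) + (z.im : ℂ) * Complex.I) := by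
    rw [Complex.re_add_im]
  rw [h, Complex.cosh_add, Complex.cosh_mul_I, Complex.sinh_mul_I, ← Complex.ofReal_cosh,
    ← Complex.ofReal_cos, ← Complex.ofReal_sinh, ← Complex.ofReal_sin]
  simp only [Complex.add_re, Complex.add_im, Complex.mul_re, Complex.mul_im, Complex.ofReal_re,
    Complex.ofReal_im, Complex.I_re, Complex.I_im]
  ring

theorem b2_im (z : ℂ) : (Complex.cosh z).im = Real.sinh z.re * Real.sin z.im := by
  have h : Complex.cosh z = Complex.cosh ((z.re : ℂ) + (z.im : ℂ) * Complex.I) := by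
    rw [Complex.re_add_im]
  rw [h, Complex.cosh_add, Complex.cosh_mul_I, Complex.sinh_mul_I, ← Complex.ofReal_cosh,
    ← Complex.ofReal_cos, ← Complex.ofReal_sinh, ← Complex.ofReal_sin]
  simp only [Complex.add_re, Complex.add_im, Complex.mul_re, Complex.mul_im, Complex.ofReal_re,
    Complex.ofReal_im, Complex.I_re, Complex.I_im]
  ring

theorem b2_nonneg (z : ℂ) : 0 ≤ Real.cosh z.re + Real.cos z.im := by
  have h1 := Real.one_le_cosh z.re
  have h2 := Real.neg_one_le_cos z.im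
  linarith

theorem b2_norm (z : ℂ) : ‖1 + Complex.cosh z‖ = Real.cosh z.re + Real.cos z.im := by
  have h1 : ‖1 + Complex.cosh z‖ ^ 2 = (Real.cosh z.re + Real.cos z.im) ^ 2 := by
    rw [Complex.sq_norm, Complex.normSq_apply, Complex.add_re, Complex.add_im, Complex.one_re,
      Complex.one_im, b2_re, b2_im]
    have h2 := Real.cosh_sq z.re
    have h3 := Real.sin_sq_add_cos_sq z.im
    have h4 : Real.sinh z.re ^ 2 = Real.cosh z.re ^ 2 - 1 := by linarith
    have h5 : Real.sin z.im ^ 2 = 1 - Real.cos z.im ^ 2 := by linarith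
    have h6 : (Real.sinh z.re * Real.sin z.im) * (Real.sinh z.re * Real.sin z.im) =
        (Real.cosh z.re ^ 2 - 1) * (1 - Real.cos z.im ^ 2) := by
      rw [← h4, ← h5]
      ring
    rw [zero_add, h6]
    ring
  have h2 := b2_nonneg z
  nlinarith [norm_nonneg (1 + Complex.cosh z), sq_nonneg (‖1 + Complex.cosh z‖ -
    (Real.cosh z.re + Real.cos z.im)), abs_eq_abs.mp (sq_eq_sq_iff_abs_eq_abs _ _ |>.mp h1)]

theorem b2_cos (z : ℂ) (hz : |z.im| < Real.pi) : -1 < Real.cos z.im := by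
  have h1 : Real.cos z.im = Real.cos |z.im| := (Real.cos_abs _).symm
  rw [h1, ← Real.cos_pi]
  exact Real.cos_lt_cos_of_nonneg_of_le_pi (abs_nonneg _) le_rfl hz

theorem b2_ne (z : ℂ) (hz : |z.im| < Real.pi) : 1 + Complex.cosh z ≠ 0 := by
  rw [← norm_pos_iff, b2_norm]
  have h1 := Real.one_le_cosh z.re
  have h2 := b2_cos z hz
  linarith

theorem b2_Pc (z : ℂ) : Pc z = 1 - 3 / (2 * (1 + Complex.cosh z)) := by
  unfold Pc
  rw [b2_half]

theorem Pc_an (z : ℂ) (hz : |z.im| < Real.pi) : DifferentiableAt ℂ Pc z := by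
  have h1 : Pc = fun z => 1 - 3 / (2 * (1 + Complex.cosh z)) := funext b2_Pc
  rw [h1]
  have h2 : 2 * (1 + Complex.cosh z) ≠ 0 := mul_ne_zero two_ne_zero (b2_ne z hz)
  exact (differentiableAt_const _).sub ((differentiableAt_const _).div
    ((differentiableAt_const _).mul ((differentiableAt_const _).add
      Complex.differentiable_cosh.differentiableAt)) h2)

theorem b2_cosh_le (u : ℝ) : 1 + Real.cosh u ≤ 2 * Real.exp |u| := by
  have h1 : Real.cosh u = Real.cosh |u| := (Real.cosh_abs u).symm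
  rw [h1, Real.cosh_eq]
  have h2 : 1 ≤ Real.exp |u| := Real.one_le_exp (abs_nonneg u)
  have h3 : Real.exp (-|u|) ≤ 1 := Real.exp_le_one_iff.mpr (by linarith [abs_nonneg u])
  linarith

theorem b2_exp_le (u : ℝ) : Real.exp |u| ≤ 2 * Real.cosh u := by
  have h1 : Real.cosh u = Real.cosh |u| := (Real.cosh_abs u).symm
  rw [h1, Real.cosh_eq]
  have h3 : 0 < Real.exp (-|u|) := Real.exp_pos _
  linarith

theorem Pc_le (z : ℂ) (hz : |z.im| ≤ Real.pi / 3) :
    ‖Pc z‖ ≤ 1 - Real.exp (-|z.re|) / 4 := by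
  have hpi := Real.pi_pos
  have hcos : 1 / 2 ≤ Real.cos z.im := by
    rw [← Real.cos_abs, ← Real.cos_pi_div_three]
    exact Real.cos_le_cos_of_nonneg_of_le_pi (abs_nonneg _) (by linarith) hz
  have hcos1 := Real.cos_le_one z.im
  have hc := Real.one_le_cosh z.re
  set c := Real.cosh z.re with hcdef
  set t := Real.cos z.im with htdef
  have hw := b2_norm z
  have hct : 0 < c + t := by linarith
  have hne : 1 + Complex.cosh z ≠ 0 := by
    rw [← norm_pos_iff, hw]
    exact hct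
  have hP : Pc z = (Complex.cosh z - 1 / 2) / (1 + Complex.cosh z) := by
    rw [b2_Pc]
    field_simp
    ring
  have hnum : ‖Complex.cosh z - 1 / 2‖ ^ 2 = (c + t) ^ 2 - 3 * (4 * c * t + 1) / 4 := by
    have h1 : ‖1 + Complex.cosh z‖ ^ 2 = (c + t) ^ 2 := by rw [hw]
    rw [Complex.sq_norm, Complex.normSq_apply, Complex.add_re, Complex.add_im, Complex.one_re,
      Complex.one_im, b2_re] at h1
    rw [Complex.sq_norm, Complex.normSq_apply, Complex.sub_re, Complex.sub_im, b2_re]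
    have h2 : ((1 : ℂ) / 2).re = 1 / 2 := by norm_num
    have h3 : ((1 : ℂ) / 2).im = 0 := by norm_num
    rw [h2, h3]
    rw [← hcdef, ← htdef] at h1 ⊢
    nlinarith
  have hPn : ‖Pc z‖ * (c + t) = ‖Complex.cosh z - 1 / 2‖ := by
    rw [hP, norm_div, hw, div_mul_cancel₀ _ hct.ne']
  have hsq : ‖Pc z‖ ^ 2 * (c + t) ^ 2 = (c + t) ^ 2 - 3 * (4 * c * t + 1) / 4 := by
    rw [← hnum, ← hPn]
    ring
  have hPnn : 0 ≤ ‖Pc z‖ := norm_nonneg _
  -- lower bound for 1 - |P|^2
  have h1 : 9 / (8 * (1 + c)) ≤ 1 - ‖Pc z‖ ^ 2 := by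
    have h2 : (1 - ‖Pc z‖ ^ 2) * (c + t) ^ 2 = 3 * (4 * c * t + 1) / 4 := by linarith
    have h3 : 9 / (8 * (1 + c)) * (c + t) ^ 2 ≤ 3 * (4 * c * t + 1) / 4 := by
      rw [div_mul_eq_mul_div, div_le_iff₀ (by positivity)]
      have h4 : (c + t) ^ 2 ≤ (c + 1) ^ 2 := by
        apply pow_le_pow_left₀ hct.le
        linarith
      have h5 : 2 * c + 1 ≤ 4 * c * t + 1 := by nlinarith
      nlinarith
    have h6 : 9 / (8 * (1 + c)) * (c + t) ^ 2 ≤ (1 - ‖Pc z‖ ^ 2) * (c + t) ^ 2 := by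
      rw [h2]
      exact h3
    exact le_of_mul_le_mul_right h6 (by positivity)
  have h1pos : 0 < 9 / (8 * (1 + c)) := by positivity
  have hP1 : ‖Pc z‖ ≤ 1 := by nlinarith
  have h2 : Real.exp (-|z.re|) / 4 ≤ 9 / (16 * (1 + c)) := by
    have h3 := b2_cosh_le z.re
    rw [← hcdef] at h3
    rw [div_le_div_iff₀ (by norm_num) (by positivity)]
    have h4 : Real.exp (-|z.re|) * Real.exp |z.re| = 1 := by
      rw [← Real.exp_add]
      simp
    have h5 : Real.exp (-|z.re|) * (1 + c) ≤ 2 := by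
      have h6 := mul_le_mul_of_nonneg_left h3 (Real.exp_pos (-|z.re|)).le
      nlinarith
    nlinarith
  have h3 : 9 / (8 * (1 + c)) = 2 * (9 / (16 * (1 + c))) := by
    field_simp
    norm_num
  nlinarith

theorem Pc_bdd : ∃ K : ℝ, ∀ z : ℂ, |z.im| ≤ 5 * Real.pi / 6 →
    ‖Pc z - 1‖ ≤ K * Real.exp (-|z.re|) := by
  have hpi := Real.pi_pos
  have h3 : Real.sqrt 3 < 2 := by
    rw [Real.sqrt_lt' (by norm_num)]
    norm_num
  refine ⟨3 / (1 - Real.sqrt 3 / 2), fun z hz => ?_⟩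
  have hcos : -(Real.sqrt 3 / 2) ≤ Real.cos z.im := by
    have h1 : Real.cos (5 * Real.pi / 6) = -(Real.sqrt 3 / 2) := by
      have h2 : 5 * Real.pi / 6 = Real.pi - Real.pi / 6 := by ring
      rw [h2, Real.cos_pi_sub, Real.cos_pi_div_six]
    rw [← Real.cos_abs, ← h1]
    exact Real.cos_le_cos_of_nonneg_of_le_pi (abs_nonneg _) (by linarith) hz
  have hc := Real.one_le_cosh z.re
  have he := b2_exp_le z.re
  set κ := 1 - Real.sqrt 3 / 2 with hκ
  have hκpos : 0 < κ := by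
    rw [hκ]
    linarith
  have hκ1 : κ ≤ 1 := by
    rw [hκ]
    have := Real.sqrt_nonneg 3
    linarith
  have hlow : κ * Real.exp |z.re| / 2 ≤ Real.cosh z.re + Real.cos z.im := by
    have h1 : κ * Real.exp |z.re| / 2 ≤ κ * Real.cosh z.re := by
      have := mul_le_mul_of_nonneg_left he hκpos.le
      linarith
    have h2 : κ * Real.cosh z.re ≤ Real.cosh z.re - Real.sqrt 3 / 2 := by
      have h4 : κ * Real.cosh z.re = Real.cosh z.re - Real.sqrt 3 / 2 * Real.cosh z.re := by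
        rw [hκ]; ring
      rw [h4]
      have := Real.sqrt_nonneg 3
      nlinarith
    linarith
  have hpos : 0 < Real.cosh z.re + Real.cos z.im := lt_of_lt_of_le (by positivity) hlow
  have h1 : ‖Pc z - 1‖ = 3 / (2 * (Real.cosh z.re + Real.cos z.im)) := by
    have h2 : Pc z - 1 = -(3 / (2 * (1 + Complex.cosh z))) := by
      rw [b2_Pc]; ring
    rw [h2, norm_neg, norm_div, norm_mul, b2_norm]
    simp
  rw [h1, div_le_iff₀ (by positivity)]
  have h4 : Real.exp (-|z.re|) * Real.exp |z.re| = 1 := by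
    rw [← Real.exp_add]
    simp
  have h5 : Real.exp (-|z.re|) * (κ * Real.exp |z.re| / 2) ≤
      Real.exp (-|z.re|) * (Real.cosh z.re + Real.cos z.im) :=
    mul_le_mul_of_nonneg_left hlow (Real.exp_pos _).le
  have h6 : Real.exp (-|z.re|) * (κ * Real.exp |z.re| / 2) = κ / 2 := by
    calc Real.exp (-|z.re|) * (κ * Real.exp |z.re| / 2) =
        κ / 2 * (Real.exp (-|z.re|) * Real.exp |z.re|) := by ring
      _ = κ / 2 := by rw [h4, mul_one]
  rw [h6] at h5
  have h7 : 3 / κ * (κ / 2) ≤ 3 / κ * (Real.exp (-|z.re|) *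
      (Real.cosh z.re + Real.cos z.im)) := mul_le_mul_of_nonneg_left h5 (by positivity)
  have h8 : 3 / κ * (κ / 2) = 3 / 2 := by field_simp
  nlinarith

theorem Pc_conj (z : ℂ) : Pc (starRingEnd ℂ z) = starRingEnd ℂ (Pc z) := by
  rw [b2_Pc, b2_Pc, Complex.cosh_conj]
  simp only [map_sub, map_div₀, map_mul, map_add, map_one, map_ofNat]

theorem Pc_exp (z : ℂ) (hz : |z.im| < Real.pi) :
    Pc z = (1 - Complex.exp z + Complex.exp z ^ 2) / (1 + Complex.exp z) ^ 2 := by
  have hne := b2_ne z hz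
  have hexp : Complex.exp z ≠ 0 := Complex.exp_ne_zero z
  have h1 : (1 + Complex.cosh z) * (2 * Complex.exp z) = (1 + Complex.exp z) ^ 2 := by
    rw [Complex.cosh, Complex.exp_neg]
    field_simp
    ring
  have h2 : (1 + Complex.exp z) ^ 2 ≠ 0 := by
    rw [← h1]
    exact mul_ne_zero hne (mul_ne_zero two_ne_zero hexp)
  rw [b2_Pc, eq_div_iff h2]
  rw [← h1]
  have h3 : (1 - 3 / (2 * (1 + Complex.cosh z))) * ((1 + Complex.cosh z) * (2 * Complex.exp z)) =
      (1 + Complex.cosh z) * (2 * Complex.exp z) - 3 * Complex.exp z := by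
    field_simp
  rw [h3, h1]
  ring

end H906C
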