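import Pool.Agent.H906R3.CY.Defs
import Pool.Agent.H906R3.CY.B2

namespace H906C
open Polynomial MeasureTheory Filter Topology

/-! ## B3: the function `s` -/

theorem sc_an {N : ℕ} {p : ℕ → ℝ} {t V : ℂ[X]} (h : Spec N p t V) (z : ℂ)
    (hz : |z.im| < Real.pi) : DifferentiableAt ℂ (sc N p) z := by
  have h1 : DifferentiableAt ℂ (fun z => (1 : ℂ) - ∑ j ∈ Finset.range (N + 1), (p j : ℂ) * Pc z ^ j)
      z := by
    refine (differentiableAt_const _).sub (DifferentiableAt.fun_sum fun j _ => ?_)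
    exact ((Pc_an z hz).pow j).const_mul _
  exact h1

theorem b3_nonneg {N : ℕ} {p : ℕ → ℝ} {t V : ℂ[X]} (h : Spec N p t V) (z : ℂ) (b : ℝ)
    (hb : ‖Pc z‖ ≤ b) (hb1 : b ≤ 1) :
    ‖∑ j ∈ Finset.range (N + 1), (p j : ℂ) * Pc z ^ j‖ ≤ b := by
  refine (norm_sum_le _ _).trans ?_
  have h1 : ∀ j ∈ Finset.range (N + 1), ‖(p j : ℂ) * Pc z ^ j‖ ≤ p j * b := by
    intro j _
    rw [norm_mul, norm_pow, Complex.norm_real, Real.norm_of_nonneg (h.nonneg j)]
    by_cases hj : p j = 0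
    · rw [hj, zero_mul, zero_mul]
    · have h2 := (h.supp j hj).1
      refine mul_le_mul_of_nonneg_left ?_ (h.nonneg j)
      calc ‖Pc z‖ ^ j ≤ ‖Pc z‖ ^ 1 :=
            pow_le_pow_of_le_one (norm_nonneg _) (hb.trans hb1) h2
        _ ≤ b := by rw [pow_one]; exact hb
  refine (Finset.sum_le_sum h1).trans ?_
  rw [← Finset.sum_mul, h.sum, one_mul]

theorem sc_re {N : ℕ} {p : ℕ → ℝ} {t V : ℂ[X]} (h : Spec N p t V) (z : ℂ)
    (hz : |z.im| ≤ Real.pi / 3) :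
    Real.exp (-|z.re|) / 4 ≤ (sc N p z).re ∧ ‖sc N p z‖ ≤ 2 := by
  have h0 : 0 < Real.exp (-|z.re|) := Real.exp_pos _
  have h1 := b3_nonneg h z (1 - Real.exp (-|z.re|) / 4) (Pc_le z hz) (by linarith)
  have h2 : |(∑ j ∈ Finset.range (N + 1), (p j : ℂ) * Pc z ^ j).re| ≤
      ‖∑ j ∈ Finset.range (N + 1), (p j : ℂ) * Pc z ^ j‖ := Complex.abs_re_le_norm _
  constructor
  · unfold sc
    rw [Complex.sub_re, Complex.one_re]
    have h3 := le_abs_self (∑ j ∈ Finset.range (N + 1), (p j : ℂ) * Pc z ^ j).re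
    linarith
  · unfold sc
    refine (norm_sub_le _ _).trans ?_
    rw [norm_one]
    linarith

theorem b3_pow (P : ℂ) (M : ℝ) (h1 : 1 ≤ M) (hP : ‖P‖ ≤ M) :
    ∀ j : ℕ, ‖P ^ j - 1‖ ≤ j * M ^ j * ‖P - 1‖
  | 0 => by simp
  | j + 1 => by
    have ih := b3_pow P M h1 hP j
    have e : P ^ (j + 1) - 1 = P ^ j * (P - 1) + (P ^ j - 1) := by ring
    have hM : 0 ≤ M := by linarith
    rw [e]
    refine (norm_add_le _ _).trans ?_
    rw [norm_mul, norm_pow]
    have h2 : ‖P‖ ^ j ≤ M ^ j := pow_le_pow_left₀ (norm_nonneg _) hP j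
    have h3 : ‖P‖ ^ j * ‖P - 1‖ ≤ M ^ j * ‖P - 1‖ :=
      mul_le_mul_of_nonneg_right h2 (norm_nonneg _)
    have h4 : M ^ j ≤ M ^ (j + 1) := pow_le_pow_right₀ h1 (Nat.le_succ j)
    have h5 : ((j : ℝ) + 1) * M ^ j * ‖P - 1‖ ≤ ((j : ℝ) + 1) * M ^ (j + 1) * ‖P - 1‖ :=
      mul_le_mul_of_nonneg_right (mul_le_mul_of_nonneg_left h4 (by positivity)) (norm_nonneg _)
    push_cast
    calc ‖P‖ ^ j * ‖P - 1‖ + ‖P ^ j - 1‖ ≤ M ^ j * ‖P - 1‖ + j * M ^ j * ‖P - 1‖ :=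
          add_le_add h3 ih
      _ = ((j : ℝ) + 1) * M ^ j * ‖P - 1‖ := by ring
      _ ≤ _ := h5

theorem sc_lim {N : ℕ} {p : ℕ → ℝ} {t V : ℂ[X]} (h : Spec N p t V) : ∃ K : ℝ, ∀ z : ℂ,
    |z.im| ≤ 5 * Real.pi / 6 → ‖sc N p z‖ ≤ K * Real.exp (-|z.re|) := by
  obtain ⟨K, hK⟩ := Pc_bdd
  have hK0 : 0 ≤ K := by
    have h1 := hK 0 (by rw [Complex.zero_im, abs_zero]; positivity)
    have h2 := (norm_nonneg _).trans h1
    simpa using h2
  refine ⟨N * (1 + K) ^ N * K, fun z hz => ?_⟩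
  have h1 := hK z hz
  have hE : Real.exp (-|z.re|) ≤ 1 := Real.exp_le_one_iff.2 (neg_nonpos.2 (abs_nonneg _))
  have hE0 : 0 < Real.exp (-|z.re|) := Real.exp_pos _
  have h2 : ‖Pc z‖ ≤ 1 + K := by
    have h3 : Pc z = 1 + (Pc z - 1) := by ring
    rw [h3]
    refine (norm_add_le _ _).trans ?_
    rw [norm_one]
    have : K * Real.exp (-|z.re|) ≤ K * 1 := mul_le_mul_of_nonneg_left hE hK0
    linarith
  have hM : 1 ≤ 1 + K := by linarith
  have h3 : sc N p z = -∑ j ∈ Finset.range (N + 1), (p j : ℂ) * (Pc z ^ j - 1) := by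
    unfold sc
    have h4 : (∑ j ∈ Finset.range (N + 1), (p j : ℂ)) = 1 := by
      rw [← Complex.ofReal_sum, h.sum, Complex.ofReal_one]
    have h5 : ∑ j ∈ Finset.range (N + 1), (p j : ℂ) * (Pc z ^ j - 1) =
        (∑ j ∈ Finset.range (N + 1), (p j : ℂ) * Pc z ^ j) -
          ∑ j ∈ Finset.range (N + 1), (p j : ℂ) := by
      rw [← Finset.sum_sub_distrib]
      exact Finset.sum_congr rfl fun j _ => by ring
    rw [h5, h4]
    ring
  rw [h3, norm_neg]
  refine (norm_sum_le _ _).trans ?_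
  have h6 : ∀ j ∈ Finset.range (N + 1), ‖(p j : ℂ) * (Pc z ^ j - 1)‖ ≤
      p j * (N * (1 + K) ^ N * K * Real.exp (-|z.re|)) := by
    intro j hj
    rw [norm_mul, Complex.norm_real, Real.norm_of_nonneg (h.nonneg j)]
    refine mul_le_mul_of_nonneg_left ?_ (h.nonneg j)
    have hj' : j ≤ N := Nat.lt_succ_iff.1 (Finset.mem_range.1 hj)
    have h7 := b3_pow (Pc z) (1 + K) hM h2 j
    have h8 : (j : ℝ) * (1 + K) ^ j ≤ N * (1 + K) ^ N :=
      mul_le_mul (Nat.cast_le.2 hj') (pow_le_pow_right₀ hM hj') (by positivity) (by positivity)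
    calc ‖Pc z ^ j - 1‖ ≤ j * (1 + K) ^ j * ‖Pc z - 1‖ := h7
      _ ≤ (N * (1 + K) ^ N) * (K * Real.exp (-|z.re|)) :=
        mul_le_mul h8 h1 (norm_nonneg _) (by positivity)
      _ = _ := by ring
  refine (Finset.sum_le_sum h6).trans ?_
  rw [← Finset.sum_mul, h.sum, one_mul]

theorem sc_conj {N : ℕ} {p : ℕ → ℝ} (z : ℂ) :
    sc N p (starRingEnd ℂ z) = starRingEnd ℂ (sc N p z) := by
  unfold sc
  rw [map_sub, map_one, map_sum, Pc_conj]
  congr 1
  refine Finset.sum_congr rfl fun j _ => ?_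
  rw [map_mul, map_pow, Complex.conj_ofReal]

theorem sc_ofReal {N : ℕ} {p : ℕ → ℝ} (u : ℝ) : sc N p u = (sr N p u : ℂ) := by
  unfold sc sr Pc
  push_cast
  rfl

theorem b3_ne {z : ℂ} (hz : |z.im| < Real.pi) : 1 + Complex.exp z ≠ 0 := by
  intro h
  have h1 : Complex.exp z = -1 := by linear_combination h
  have hre := congrArg Complex.re h1
  have him := congrArg Complex.im h1
  rw [Complex.exp_re] at hre
  rw [Complex.exp_im] at him
  simp only [Complex.neg_re, Complex.one_re, Complex.neg_im, Complex.one_im, neg_zero] at hre him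
  have h2 : Real.sin z.im = 0 := by
    rcases mul_eq_zero.1 him with h' | h'
    · exact absurd h' (Real.exp_pos _).ne'
    · exact h'
  rw [abs_lt] at hz
  have h3 := (Real.sin_eq_zero_iff_of_lt_of_lt hz.1 hz.2).1 h2
  rw [h3, Real.cos_zero, mul_one] at hre
  have := Real.exp_pos z.re
  linarith

theorem sc_eq_t {N : ℕ} {p : ℕ → ℝ} {t V : ℂ[X]} (h : Spec N p t V) (z : ℂ)
    (hz : |z.im| < Real.pi) :
    t.eval (Complex.exp z) = (1 + Complex.exp z) ^ N * sc N p z := by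
  rw [h.t_eq]
  unfold sc
  rw [mul_sub, mul_one, Finset.mul_sum]
  congr 1
  refine Finset.sum_congr rfl fun j _ => ?_
  by_cases hj : p j = 0
  · rw [hj]
    simp
  · have h2 := (h.supp j hj).2
    have hne := b3_ne hz
    rw [Pc_exp z hz, div_pow, ← pow_mul]
    have e : (1 + Complex.exp z) ^ N =
        (1 + Complex.exp z) ^ (2 * j) * (1 + Complex.exp z) ^ (N - 2 * j) := by
      rw [← pow_add]
      congr 1
      omega
    rw [e]
    have hne' : (1 + Complex.exp z) ^ (2 * j) ≠ 0 := pow_ne_zero _ hne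
    field_simp

end H906C
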