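import Pool.Agent.H906R3.CY.Defs
import Pool.Agent.H906R3.K6.G2
import Pool.Agent.H906R3.CY.B3

/-! Functional relations for `sc` and `hh`. -/

namespace H906C
open Polynomial MeasureTheory Filter Topology


theorem b4_tanh {z : ℂ} (h1 : Complex.exp (z / 2) ^ 3 + 1 ≠ 0) : Complex.tanh (3 * z / 4) =
    (Complex.exp (z / 2) ^ 3 - 1) / (Complex.exp (z / 2) ^ 3 + 1) := by
  have hq : Complex.exp (z / 2) ^ 3 = Complex.exp (3 * z / 4) * Complex.exp (3 * z / 4) := by
    rw [← Complex.exp_nat_mul, ← Complex.exp_add]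
    congr 1
    push_cast
    ring
  have hinv : Complex.exp (3 * z / 4) * Complex.exp (-(3 * z / 4)) = 1 := by
    rw [← Complex.exp_add]; simp
  rw [Complex.tanh_eq_sinh_div_cosh, Complex.sinh, Complex.cosh]
  have he := Complex.exp_ne_zero (3 * z / 4)
  have hc0 : (Complex.exp (3 * z / 4) + Complex.exp (-(3 * z / 4))) / 2 ≠ 0 := by
    intro h0
    apply h1
    rw [hq]
    linear_combination (2 * Complex.exp (3 * z / 4)) * h0 - hinv
  rw [div_eq_div_iff hc0 h1, hq]
  linear_combination (-Complex.exp (3 * z / 4)) * hinv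

theorem rel_h {N : ℕ} {p : ℕ → ℝ} {t V : ℂ[X]} (h : Spec N p t V) (z : ℂ)
    (hz : |z.im| < 2 * Real.pi / 3) :
    sc N p (z + Real.pi / 3 * Complex.I) * sc N p (z - Real.pi / 3 * Complex.I)
      = 1 + (Complex.tanh (3 * z / 4)) ^ N * hh N V z := by
  have hpi := Real.pi_pos
  have hz2 := abs_lt.1 hz
  obtain ⟨h1, h2, h3, h4⟩ := H906K.g2_ne hz
  have hp : Complex.exp (z / 2) ^ 2 = Complex.exp z := by
    rw [← Complex.exp_nat_mul]
    congr 1
    push_cast
    ring
  have hd := h.two (-Complex.exp z)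
  have e1 : H906K.om * (-Complex.exp z) = Complex.exp (z - Real.pi / 3 * Complex.I) := by
    rw [H906K.g2_exp_sub]; ring
  have e2 : H906K.om ^ 2 * (-Complex.exp z) = Complex.exp (z + Real.pi / 3 * Complex.I) := by
    rw [H906K.g2_exp_add]; ring
  rw [e1, e2] at hd
  rw [sc_eq_t h (z - Real.pi / 3 * Complex.I) (by
    rw [H906K.g2_im_sub, abs_lt]; constructor <;> linarith),
    sc_eq_t h (z + Real.pi / 3 * Complex.I) (by
    rw [H906K.g2_im_add, abs_lt]; constructor <;> linarith)] at hd
  rw [H906K.g2_exp_add, H906K.g2_exp_sub] at hd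
  have f3 : 1 + -H906K.om * Complex.exp z = 1 - H906K.om * Complex.exp z := by ring
  have f4 : 1 + -H906K.om ^ 2 * Complex.exp z = 1 - H906K.om ^ 2 * Complex.exp z := by ring
  have f1 : 1 + -Complex.exp z = 1 - Complex.exp z := by ring
  rw [f3, f4, f1] at hd
  have h3' := pow_ne_zero N h3
  have h4' := pow_ne_zero N h4
  -- the factor of `hh`
  have key : Complex.tanh (3 * z / 4) ^ N *
      ((Complex.exp (z / 2) + 1) / (Complex.exp z + Complex.exp (z / 2) + 1)) ^ (2 * N)
      = (1 - Complex.exp z) ^ N /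
        ((1 - H906K.om * Complex.exp z) ^ N * (1 - H906K.om ^ 2 * Complex.exp z) ^ N) := by
    rw [b4_tanh h1, pow_mul, ← mul_pow, ← mul_pow, ← div_pow, H906K.g2_den]
    have hden : 1 + Complex.exp z + Complex.exp z ^ 2 ≠ 0 := by
      rw [← H906K.g2_den]
      exact mul_ne_zero h3 h4
    have : (Complex.exp (z / 2) ^ 3 - 1) / (Complex.exp (z / 2) ^ 3 + 1) *
        ((Complex.exp (z / 2) + 1) / (Complex.exp z + Complex.exp (z / 2) + 1)) ^ 2
        = -((1 - Complex.exp z) / (1 + Complex.exp z + Complex.exp z ^ 2)) := by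
      rw [← hp] at hden ⊢
      generalize Complex.exp (z / 2) = P at *
      rw [div_pow, div_mul_div_comm, neg_div', div_eq_div_iff (mul_ne_zero h1 (pow_ne_zero 2 h2)) hden]
      ring
    rw [this, Even.neg_pow h.even]
  unfold hh
  have hfin : Complex.tanh (3 * z / 4) ^ N * (V.eval (-Complex.exp z) *
      ((Complex.exp (z / 2) + 1) / (Complex.exp z + Complex.exp (z / 2) + 1)) ^ (2 * N))
      = V.eval (-Complex.exp z) * ((1 - Complex.exp z) ^ N /
        ((1 - H906K.om * Complex.exp z) ^ N * (1 - H906K.om ^ 2 * Complex.exp z) ^ N)) := by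
    rw [← key]; ring
  rw [hfin]
  rw [mul_pow] at hd
  generalize (1 - H906K.om * Complex.exp z) ^ N = A at *
  generalize (1 - H906K.om ^ 2 * Complex.exp z) ^ N = B at *
  generalize (1 - Complex.exp z) ^ N = C' at *
  generalize sc N p (z + Real.pi / 3 * Complex.I) = s1 at *
  generalize sc N p (z - Real.pi / 3 * Complex.I) = s2 at *
  generalize V.eval (-Complex.exp z) = v at *
  field_simp
  linear_combination hd

theorem b4_den {z : ℂ} (hz : |z.im| < 4 * Real.pi / 3) :
    Complex.exp z + Complex.exp (z / 2) + 1 ≠ 0 := by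
  intro h
  have hp : Complex.exp (z / 2) ^ 2 = Complex.exp z := by
    rw [← Complex.exp_nat_mul]
    congr 1
    push_cast
    ring
  have h1 : Complex.exp (3 * (z / 2)) = 1 := by
    have : Complex.exp (3 * (z / 2)) = Complex.exp (z / 2) ^ 3 := by
      rw [← Complex.exp_nat_mul]; norm_num
    rw [this]
    rw [← hp] at h
    linear_combination (Complex.exp (z / 2) - 1) * h
  have him : (z / 2).im = z.im / 2 := by
    have : z / 2 = z / ((2 : ℝ) : ℂ) := by push_cast; ring
    rw [this, Complex.div_ofReal_im]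
  have h2 := H906K.g2_strip (z := z / 2) (by
    rw [him, abs_div, abs_of_pos (show (0 : ℝ) < 2 by norm_num)]; linarith) h1
  have h3 : z = 0 := by linear_combination 2 * h2
  rw [h3] at h
  norm_num at h

theorem hh_an (N : ℕ) (V : ℂ[X]) (z : ℂ) (hz : |z.im| < 4 * Real.pi / 3) :
    DifferentiableAt ℂ (hh N V) z := by
  have hden := b4_den hz
  have hexp : DifferentiableAt ℂ (fun z : ℂ => Complex.exp (z / 2)) z := by fun_prop
  have hV : DifferentiableAt ℂ (fun z : ℂ => V.eval (-Complex.exp z)) z := by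
    have h1 : DifferentiableAt ℂ (fun z : ℂ => -Complex.exp z) z := by fun_prop
    exact (V.differentiable.differentiableAt).comp z h1
  unfold hh
  exact hV.mul (((hexp.add_const 1).div ((Complex.differentiableAt_exp.add hexp).add_const 1)
    hden).pow (2 * N))

/-- `tanh` product -/
theorem b4_tanh_prod {z : ℂ} (hz : |z.im| < Real.pi / 3) :
    Complex.tanh (3 * (z + Real.pi / 3 * Complex.I) / 4) *
      Complex.tanh (3 * (z - Real.pi / 3 * Complex.I) / 4) = 1 := by
  have e1 : 3 * (z + Real.pi / 3 * Complex.I) / 4 = 3 * z / 4 + Real.pi / 4 * Complex.I := by ring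
  have e2 : 3 * (z - Real.pi / 3 * Complex.I) / 4 = 3 * z / 4 - Real.pi / 4 * Complex.I := by ring
  rw [e1, e2]
  set w : ℂ := 3 * z / 4 with hw
  have hs : Complex.sin (Real.pi / 4) ^ 2 = 1 / 2 := by
    have : (Real.pi / 4 : ℂ) = ((Real.pi / 4 : ℝ) : ℂ) := by push_cast; ring
    rw [this, ← Complex.ofReal_sin, Real.sin_pi_div_four]
    rw [← Complex.ofReal_pow, div_pow, Real.sq_sqrt (by norm_num)]
    norm_num
  have hc : Complex.cos (Real.pi / 4) ^ 2 = 1 / 2 := by
    have : (Real.pi / 4 : ℂ) = ((Real.pi / 4 : ℝ) : ℂ) := by push_cast; ring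
    rw [this, ← Complex.ofReal_cos, Real.cos_pi_div_four]
    rw [← Complex.ofReal_pow, div_pow, Real.sq_sqrt (by norm_num)]
    norm_num
  have hcosh : Complex.cosh (w + Real.pi / 4 * Complex.I) *
      Complex.cosh (w - Real.pi / 4 * Complex.I) = Complex.sinh w ^ 2 + 1 / 2 := by
    rw [Complex.cosh_add, Complex.cosh_sub, Complex.cosh_mul_I, Complex.sinh_mul_I]
    have h1 := Complex.cosh_sq w
    have hI : Complex.I ^ 2 = -1 := Complex.I_sq
    linear_combination (Complex.cos (Real.pi / 4) ^ 2) * h1 + (Complex.sinh w ^ 2 + 1) * hc +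
      (Complex.sinh w ^ 2) * hs - (Complex.sinh w ^ 2 * Complex.sin (Real.pi / 4) ^ 2) * hI
  have hsinh : Complex.sinh (w + Real.pi / 4 * Complex.I) *
      Complex.sinh (w - Real.pi / 4 * Complex.I) = Complex.sinh w ^ 2 + 1 / 2 := by
    rw [Complex.sinh_add, Complex.sinh_sub, Complex.cosh_mul_I, Complex.sinh_mul_I]
    have h1 := Complex.cosh_sq w
    have hI : Complex.I ^ 2 = -1 := Complex.I_sq
    linear_combination (Complex.sin (Real.pi / 4) ^ 2) * h1 + (Complex.sinh w ^ 2) * hc +
      (Complex.sinh w ^ 2 + 1) * hs - (Complex.cosh w ^ 2 * Complex.sin (Real.pi / 4) ^ 2) * hI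
  have hne : Complex.sinh w ^ 2 + 1 / 2 ≠ 0 := by
    intro h0
    have h1 : Complex.cosh (2 * w) = 0 := by
      rw [Complex.cosh_two_mul]
      have h1 := Complex.cosh_sq w
      linear_combination h1 + 2 * h0
    apply H906K.g2_strip' hz
    have h2 : Complex.exp (2 * w) + Complex.exp (-(2 * w)) = 0 := by
      rw [Complex.cosh] at h1
      linear_combination 2 * h1
    have h3 : Complex.exp (2 * w) * Complex.exp (-(2 * w)) = 1 := by
      rw [← Complex.exp_add]; simp
    have h4 : Complex.exp (3 * z) = Complex.exp (2 * w) * Complex.exp (2 * w) := by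
      rw [← Complex.exp_add, hw]
      congr 1
      ring
    rw [h4]
    linear_combination Complex.exp (2 * w) * h2 - h3
  rw [Complex.tanh_eq_sinh_div_cosh, Complex.tanh_eq_sinh_div_cosh, div_mul_div_comm, hsinh,
    hcosh, div_self hne]

/-- the third relation for `sc` -/
theorem b4_three {N : ℕ} {p : ℕ → ℝ} {t V : ℂ[X]} (h : Spec N p t V) (z : ℂ)
    (hz : |z.im| < Real.pi / 3) :
    sc N p z * sc N p (z + Real.pi / 3 * Complex.I + Real.pi / 3 * Complex.I)
        * sc N p (z - Real.pi / 3 * Complex.I - Real.pi / 3 * Complex.I)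
      = sc N p z + sc N p (z + Real.pi / 3 * Complex.I + Real.pi / 3 * Complex.I)
        + sc N p (z - Real.pi / 3 * Complex.I - Real.pi / 3 * Complex.I) := by
  have hpi := Real.pi_pos
  have hz2 := abs_lt.1 hz
  obtain ⟨h1, h2, h3⟩ := H906K.g2_ne' hz
  have hd := h.three (Complex.exp z)
  have e1 : H906K.om * Complex.exp z
      = Complex.exp (z + Real.pi / 3 * Complex.I + Real.pi / 3 * Complex.I) := by
    rw [H906K.g2_exp_add, H906K.g2_exp_add]
    linear_combination (-H906K.om * Complex.exp z) * H906K.g2_om3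
  have e2 : H906K.om ^ 2 * Complex.exp z
      = Complex.exp (z - Real.pi / 3 * Complex.I - Real.pi / 3 * Complex.I) := by
    rw [H906K.g2_exp_sub, H906K.g2_exp_sub]
    ring
  have s1 := sc_eq_t h (z + Real.pi / 3 * Complex.I + Real.pi / 3 * Complex.I) (by
    rw [H906K.g2_im_add, H906K.g2_im_add, abs_lt]; constructor <;> linarith)
  have s2 := sc_eq_t h (z - Real.pi / 3 * Complex.I - Real.pi / 3 * Complex.I) (by
    rw [H906K.g2_im_sub, H906K.g2_im_sub, abs_lt]; constructor <;> linarith)
  have s0 := sc_eq_t h z (by rw [abs_lt]; constructor <;> linarith)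
  rw [← e1] at s1
  rw [← e2] at s2
  rw [s1, s2, s0] at hd
  rw [mul_pow, mul_pow, mul_pow] at hd
  have h1' := pow_ne_zero N h1
  have h2' := pow_ne_zero N h2
  have h3' := pow_ne_zero N h3
  generalize (1 + Complex.exp z) ^ N = A at *
  generalize (1 + H906K.om * Complex.exp z) ^ N = B at *
  generalize (1 + H906K.om ^ 2 * Complex.exp z) ^ N = C' at *
  have hABC : A * B * C' ≠ 0 := mul_ne_zero (mul_ne_zero h1' h2') h3'
  apply mul_left_cancel₀ hABC
  linear_combination hd

theorem b4_rel {N : ℕ} {p : ℕ → ℝ} {t V : ℂ[X]} (h : Spec N p t V) (z : ℂ)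
    (hz : |z.im| < Real.pi / 3) :
    hh N V (z + Real.pi / 3 * Complex.I) * hh N V (z - Real.pi / 3 * Complex.I)
      = 1 + sc N p z ^ 2 := by
  have hpi := Real.pi_pos
  have hz2 := abs_lt.1 hz
  have hp := rel_h h (z + Real.pi / 3 * Complex.I) (by
    rw [H906K.g2_im_add, abs_lt]; constructor <;> linarith)
  have hm := rel_h h (z - Real.pi / 3 * Complex.I) (by
    rw [H906K.g2_im_sub, abs_lt]; constructor <;> linarith)
  rw [add_sub_cancel_right] at hp
  rw [sub_add_cancel] at hm
  have he := b4_three h z hz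
  have htanh := b4_tanh_prod hz
  have hT : Complex.tanh (3 * (z + Real.pi / 3 * Complex.I) / 4) ^ N *
      Complex.tanh (3 * (z - Real.pi / 3 * Complex.I) / 4) ^ N = 1 := by
    rw [← mul_pow, htanh, one_pow]
  generalize Complex.tanh (3 * (z + Real.pi / 3 * Complex.I) / 4) ^ N = a at *
  generalize Complex.tanh (3 * (z - Real.pi / 3 * Complex.I) / 4) ^ N = b at *
  generalize sc N p (z + Real.pi / 3 * Complex.I + Real.pi / 3 * Complex.I) = s1 at *
  generalize sc N p (z - Real.pi / 3 * Complex.I - Real.pi / 3 * Complex.I) = s2 at *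
  generalize sc N p z = s at *
  generalize hh N V (z + Real.pi / 3 * Complex.I) = H1 at *
  generalize hh N V (z - Real.pi / 3 * Complex.I) = H2 at *
  have hp' : a * H1 = s1 * s - 1 := by linear_combination -hp
  have hm' : b * H2 = s * s2 - 1 := by linear_combination -hm
  have : H1 * H2 = (a * H1) * (b * H2) := by linear_combination (-(H1 * H2)) * hT
  rw [this, hp', hm']
  linear_combination s * he

theorem rel_hh {N : ℕ} {p : ℕ → ℝ} {t V : ℂ[X]} (h : Spec N p t V) (z : ℂ)
    (hz : |z.im| ≤ Real.pi / 3) :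
    hh N V (z + Real.pi / 3 * Complex.I) * hh N V (z - Real.pi / 3 * Complex.I)
      = 1 + sc N p z ^ 2 := by
  have hpi := Real.pi_pos
  have hz2 := abs_le.1 hz
  -- the path `r ↦ re z + i r im z`
  set g : ℝ → ℂ := fun r => (z.re : ℂ) + ((r * z.im : ℝ) : ℂ) * Complex.I with hg
  have hgim : ∀ r, (g r).im = r * z.im := by intro r; simp [hg]
  have hg1 : g 1 = z := by
    apply Complex.ext <;> simp [hg]
  have hgc : Continuous g := by
    simp only [hg]
    fun_prop
  have hc1 : ContinuousAt (fun r => hh N V (g r + Real.pi / 3 * Complex.I)) 1 := by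
    have h1 : ContinuousAt (hh N V) (g 1 + Real.pi / 3 * Complex.I) := by
      apply (hh_an N V _ _).continuousAt
      rw [H906K.g2_im_add, hg1, abs_lt]
      constructor <;> linarith
    have h2 : ContinuousAt (fun r => g r + Real.pi / 3 * Complex.I) 1 := by fun_prop
    exact ContinuousAt.comp (f := fun r => g r + Real.pi / 3 * Complex.I) h1 h2
  have hc2 : ContinuousAt (fun r => hh N V (g r - Real.pi / 3 * Complex.I)) 1 := by
    have h1 : ContinuousAt (hh N V) (g 1 - Real.pi / 3 * Complex.I) := by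
      apply (hh_an N V _ _).continuousAt
      rw [H906K.g2_im_sub, hg1, abs_lt]
      constructor <;> linarith
    have h2 : ContinuousAt (fun r => g r - Real.pi / 3 * Complex.I) 1 := by fun_prop
    exact ContinuousAt.comp (f := fun r => g r - Real.pi / 3 * Complex.I) h1 h2
  have hc3 : ContinuousAt (fun r => sc N p (g r)) 1 := by
    have h1 : ContinuousAt (sc N p) (g 1) := by
      apply (sc_an h _ _).continuousAt
      rw [hg1, abs_lt]
      constructor <;> linarith
    exact ContinuousAt.comp (f := g) h1 hgc.continuousAt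
  have hL : Tendsto (fun r => hh N V (g r + Real.pi / 3 * Complex.I) *
      hh N V (g r - Real.pi / 3 * Complex.I)) (𝓝[<] (1 : ℝ))
      (𝓝 (hh N V (z + Real.pi / 3 * Complex.I) * hh N V (z - Real.pi / 3 * Complex.I))) := by
    have := (hc1.tendsto.mul hc2.tendsto).mono_left (nhdsWithin_le_nhds (s := Set.Iio (1 : ℝ)))
    rw [hg1] at this
    exact this
  have hR : Tendsto (fun r => 1 + sc N p (g r) ^ 2) (𝓝[<] (1 : ℝ))
      (𝓝 (1 + sc N p z ^ 2)) := by
    have := ((hc3.tendsto.pow 2).const_add 1).mono_left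
      (nhdsWithin_le_nhds (s := Set.Iio (1 : ℝ)))
    rw [hg1] at this
    exact this
  refine tendsto_nhds_unique hL (hR.congr' ?_)
  have hmem : Set.Ioo (0 : ℝ) 1 ∈ 𝓝[<] (1 : ℝ) := Ioo_mem_nhdsLT (by norm_num)
  filter_upwards [hmem] with r hr
  symm
  apply b4_rel h
  rw [hgim, abs_mul, abs_of_pos hr.1]
  have h1 : r * |z.im| ≤ r * (Real.pi / 3) := mul_le_mul_of_nonneg_left hz hr.1.le
  nlinarith [hr.2]

end H906C
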