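import Pool.Agent.H906R3.CY.Defs
import Pool.Agent.H906R3.CY.B5
import Pool.Agent.H906R3.K6.A1
import Pool.Agent.H906R3.K6.A2b

/-! B6: the representation of `h`. -/

namespace H906C
open MeasureTheory Filter Topology Polynomial
open H906K (kk Nice strip_rep kk_conv_nice kk_conv_top u2_exp_int)

/-- a differentiable function which is real on the real line -/
theorem b6_real {F : ℂ → ℂ} {u : ℝ} (hd : DifferentiableAt ℂ F u) (him : ∀ v : ℝ, (F v).im = 0) :
    HasDerivAt (fun v : ℝ => (F v).re) (deriv F u).re u ∧ deriv F u = ((deriv F u).re : ℂ) := by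
  have h1 : HasDerivAt F (deriv F u) (u : ℂ) := hd.hasDerivAt
  have h2 : HasDerivAt (fun v : ℝ => (F v).re) (deriv F u).re u := h1.real_of_complex
  refine ⟨h2, ?_⟩
  have h3 : HasDerivAt (fun v : ℝ => F v) (deriv F u) u := h1.comp_ofReal
  have h4 : HasDerivAt (fun v : ℝ => (((F v).re : ℝ) : ℂ)) ((deriv F u).re : ℂ) u := h2.ofReal_comp
  have h5 : (fun v : ℝ => (((F v).re : ℝ) : ℂ)) = fun v : ℝ => F v := by
    funext v
    apply Complex.ext
    · simp
    · simp [him v]
  rw [h5] at h4
  exact h3.unique h4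

/-- exponential bound for the logarithmic derivative -/
theorem b6_bound (H : ℂ → ℂ) (K : ℝ)
    (ha : ∀ z : ℂ, |z.im| < 4 * Real.pi / 3 → DifferentiableAt ℂ H z)
    (hne : ∀ z : ℂ, |z.im| ≤ 2 * Real.pi / 3 → H z ≠ 0)
    (hK : ∀ z : ℂ, |z.im| ≤ Real.pi / 2 → 1 ≤ |z.re| → ‖H z - 1‖ ≤ K * Real.exp (-|z.re|)) :
    ∃ C : ℝ, 0 ≤ C ∧ ∀ z : ℂ, |z.im| ≤ Real.pi / 3 → ‖deriv H z / H z‖ ≤ C * Real.exp (-|z.re|) := by
  have hpi := Real.pi_pos
  have hpi3 := Real.pi_gt_three
  have hopen : IsOpen {z : ℂ | |z.im| < 4 * Real.pi / 3} :=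
    isOpen_lt (continuous_abs.comp Complex.continuous_im) continuous_const
  have hHd : DifferentiableOn ℂ H {z : ℂ | |z.im| < 4 * Real.pi / 3} :=
    fun z hz => (ha z hz).differentiableWithinAt
  have hHd' : DifferentiableOn ℂ (deriv H) {z : ℂ | |z.im| < 4 * Real.pi / 3} := hHd.deriv hopen
  have hK0 : 0 ≤ K := by
    have h1 := hK 1 (by simp; positivity) (by simp)
    have h2 := (norm_nonneg _).trans h1
    by_contra hcon
    push Not at hcon
    have := mul_neg_of_neg_of_pos hcon (Real.exp_pos (-|(1 : ℂ).re|))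
    linarith
  -- Cauchy estimate
  have hC : ∀ z : ℂ, |z.im| ≤ Real.pi / 3 → 2 ≤ |z.re| →
      ‖deriv H z‖ ≤ 4 * K * Real.exp (-|z.re|) := by
    intro z hz hz2
    have hsub : ∀ w : ℂ, dist w z ≤ 1 / 2 → |w.im| ≤ Real.pi / 2 ∧ |z.re| - 1 / 2 ≤ |w.re| := by
      intro w hw
      rw [Complex.dist_eq] at hw
      have h1 : |(w - z).im| ≤ 1 / 2 := (Complex.abs_im_le_norm _).trans hw
      have h2 : |(w - z).re| ≤ 1 / 2 := (Complex.abs_re_le_norm _).trans hw
      rw [Complex.sub_im] at h1
      rw [Complex.sub_re] at h2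
      constructor
      · have := abs_sub_abs_le_abs_sub w.im z.im
        linarith
      · have := abs_sub_abs_le_abs_sub z.re w.re
        rw [abs_sub_comm] at this
        linarith
    have hd : DiffContOnCl ℂ (fun w => H w - 1) (Metric.ball z (1 / 2)) := by
      apply DifferentiableOn.diffContOnCl
      rw [closure_ball z (by norm_num)]
      intro w hw
      have h1 := (hsub w (Metric.mem_closedBall.1 hw)).1
      exact ((ha w (by linarith)).sub_const 1).differentiableWithinAt
    have h3 := Complex.norm_deriv_le_of_forall_mem_sphere_norm_le (c := z) (R := 1 / 2)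
      (C := K * Real.exp (-(|z.re| - 1 / 2))) (by norm_num) hd (fun w hw => by
        obtain ⟨h1, h2⟩ := hsub w (Metric.mem_sphere.1 hw).le
        refine (hK w h1 (by linarith)).trans ?_
        gcongr)
    have h4 : deriv (fun w => H w - 1) z = deriv H z := by
      rw [deriv_sub_const]
    rw [h4] at h3
    refine h3.trans ?_
    have h5 : Real.exp (-(|z.re| - 1 / 2)) ≤ 2 * Real.exp (-|z.re|) := by
      have h6 : Real.exp (-(|z.re| - 1 / 2)) = Real.exp (1 / 2) * Real.exp (-|z.re|) := by
        rw [← Real.exp_add]; congr 1; ring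
      rw [h6]
      have h7 : Real.exp (1 / 2) ≤ 2 := by
        have h8 : Real.exp (1 / 2) ^ 2 = Real.exp 1 := by
          rw [← Real.exp_nat_mul]; norm_num
        have h9 := Real.exp_one_lt_d9
        nlinarith [Real.exp_pos (1 / 2 : ℝ)]
      gcongr
    rw [div_le_iff₀ (by norm_num)]
    calc K * Real.exp (-(|z.re| - 1 / 2)) ≤ K * (2 * Real.exp (-|z.re|)) := by gcongr
      _ = _ := by ring
  -- radius
  obtain ⟨R, hR2, hR⟩ : ∃ R : ℝ, 2 ≤ R ∧ K * Real.exp (-R) ≤ 1 / 2 := by
    refine ⟨max 2 (2 * K), le_max_left _ _, ?_⟩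
    have h1 : 2 * K ≤ max 2 (2 * K) := le_max_right _ _
    have h2 : Real.exp (-(max 2 (2 * K))) ≤ (max 2 (2 * K))⁻¹ := by
      rw [Real.exp_neg]
      have : max 2 (2 * K) ≤ Real.exp (max 2 (2 * K)) := by
        have := Real.add_one_le_exp (max 2 (2 * K))
        linarith
      have h0 : (0 : ℝ) < max 2 (2 * K) := lt_of_lt_of_le (by norm_num) (le_max_left _ _)
      gcongr
    have h0 : (0 : ℝ) < max 2 (2 * K) := lt_of_lt_of_le (by norm_num) (le_max_left _ _)
    calc K * Real.exp (-(max 2 (2 * K))) ≤ K * (max 2 (2 * K))⁻¹ := by gcongr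
      _ ≤ 1 / 2 := by
        rw [← div_eq_mul_inv, div_le_iff₀ h0]
        linarith
  have hfar : ∀ z : ℂ, |z.im| ≤ Real.pi / 3 → R ≤ |z.re| →
      ‖deriv H z / H z‖ ≤ 8 * K * Real.exp (-|z.re|) := by
    intro z hz hz2
    have h1 := hC z hz (hR2.trans hz2)
    have h2 := hK z (by linarith) (by linarith)
    have h3 : ‖H z - 1‖ ≤ 1 / 2 := by
      refine h2.trans (le_trans ?_ hR)
      gcongr
    have h4 : 1 / 2 ≤ ‖H z‖ := by
      have h5 : ‖(1 : ℂ)‖ ≤ ‖H z‖ + ‖H z - 1‖ := by
        calc ‖(1 : ℂ)‖ = ‖H z - (H z - 1)‖ := by congr 1; ring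
          _ ≤ _ := norm_sub_le _ _
      rw [norm_one] at h5
      linarith
    rw [norm_div, div_le_iff₀ (by linarith)]
    have h6 : 0 ≤ K * Real.exp (-|z.re|) := by positivity
    nlinarith
  -- compact part
  have hcomp : IsCompact (Set.Icc (-R) R ×ℂ Set.Icc (-(Real.pi / 3)) (Real.pi / 3)) :=
    isCompact_Icc.reProdIm isCompact_Icc
  have hcont : ContinuousOn (fun z => deriv H z / H z)
      (Set.Icc (-R) R ×ℂ Set.Icc (-(Real.pi / 3)) (Real.pi / 3)) := by
    intro z hz
    rw [Complex.mem_reProdIm] at hz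
    have him : |z.im| ≤ Real.pi / 3 := abs_le.2 hz.2
    have h1 : z ∈ {z : ℂ | |z.im| < 4 * Real.pi / 3} := by
      change |z.im| < 4 * Real.pi / 3
      linarith
    exact ((hHd'.differentiableAt (hopen.mem_nhds h1)).continuousAt.div
      (ha z h1).continuousAt (hne z (by linarith))).continuousWithinAt
  obtain ⟨M, hM⟩ := hcomp.exists_bound_of_continuousOn hcont
  refine ⟨|M| * Real.exp R + 8 * K, by positivity, fun z hz => ?_⟩
  rcases le_total R |z.re| with h | h
  · refine (hfar z hz h).trans ?_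
    gcongr
    have : 0 ≤ |M| * Real.exp R := by positivity
    linarith
  · have h1 : z ∈ Set.Icc (-R) R ×ℂ Set.Icc (-(Real.pi / 3)) (Real.pi / 3) :=
      Complex.mem_reProdIm.2 ⟨abs_le.1 h, abs_le.1 hz⟩
    refine (hM z h1).trans ((le_abs_self M).trans ?_)
    have h2 : 1 ≤ Real.exp R * Real.exp (-|z.re|) := by
      rw [← Real.exp_add]
      exact Real.one_le_exp (by linarith)
    have h3 : 0 ≤ 8 * K * Real.exp (-|z.re|) := by positivity
    have h4 : |M| * 1 ≤ |M| * (Real.exp R * Real.exp (-|z.re|)) := by gcongr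
    nlinarith

theorem hh_rep {N : ℕ} {p : ℕ → ℝ} {t V : ℂ[X]} (h : Spec N p t V) (u : ℝ) :
    -(hh N V u).re = Real.exp (bb (sr N p) u) := by
  have hpi := Real.pi_pos
  obtain ⟨K, hK⟩ := hh_lim h
  set H : ℂ → ℂ := fun z => -hh N V z with hH
  have ha : ∀ z : ℂ, |z.im| < 4 * Real.pi / 3 → DifferentiableAt ℂ H z :=
    fun z hz => (hh_an N V z hz).neg
  have hne : ∀ z : ℂ, |z.im| ≤ 2 * Real.pi / 3 → H z ≠ 0 :=
    fun z hz => neg_ne_zero.2 (hh_ne h z hz)
  have hK' : ∀ z : ℂ, |z.im| ≤ Real.pi / 2 → 1 ≤ |z.re| →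
      ‖H z - 1‖ ≤ K * Real.exp (-|z.re|) := by
    intro z h1 h2
    have h3 : ‖H z - 1‖ = ‖hh N V z + 1‖ := by
      rw [← norm_neg, hH]
      congr 1
      ring
    rw [h3]
    exact hK z h1 h2
  have hre : ∀ v : ℝ, (H v).im = 0 ∧ 0 < (H v).re := by
    intro v
    obtain ⟨h1, h2⟩ := hh_real h v
    simp only [hH, Complex.neg_im, Complex.neg_re]
    exact ⟨by rw [h1, neg_zero], by linarith⟩
  have hrelH : ∀ z : ℂ, |z.im| ≤ Real.pi / 3 →
      H (z + Real.pi / 3 * Complex.I) * H (z - Real.pi / 3 * Complex.I) = 1 + sc N p z ^ 2 := by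
    intro z hz
    rw [← rel_hh h z hz, hH]
    ring
  obtain ⟨C, hC0, hC⟩ := b6_bound H K ha hne hK'
  set s : ℝ → ℝ := sr N p with hs
  -- the function s
  have hsca : ∀ v : ℝ, DifferentiableAt ℂ (sc N p) (v : ℂ) := fun v => sc_an h v (by simp; positivity)
  have hscim : ∀ v : ℝ, (sc N p v).im = 0 := fun v => by rw [sc_ofReal]; simp
  have hsder : ∀ v : ℝ, HasDerivAt s (deriv (sc N p) v).re v := by
    intro v
    have h1 := (b6_real (hsca v) hscim).1
    have h2 : (fun v : ℝ => (sc N p v).re) = s := by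
      funext v
      rw [sc_ofReal, Complex.ofReal_re]
    rwa [h2] at h1
  have hsopen : IsOpen {z : ℂ | |z.im| < Real.pi} :=
    isOpen_lt (continuous_abs.comp Complex.continuous_im) continuous_const
  have hsd : DifferentiableOn ℂ (deriv (sc N p)) {z : ℂ | |z.im| < Real.pi} :=
    DifferentiableOn.deriv (fun z hz => (sc_an h z hz).differentiableWithinAt) hsopen
  have hs'c : Continuous fun v : ℝ => (deriv (sc N p) v).re := by
    rw [continuous_iff_continuousAt]
    intro v
    have h1 : (v : ℂ) ∈ {z : ℂ | |z.im| < Real.pi} := by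
      change |(v : ℂ).im| < Real.pi
      simp; positivity
    have h2 : ContinuousAt (deriv (sc N p)) (v : ℂ) :=
      (hsd.differentiableAt (hsopen.mem_nhds h1)).continuousAt
    have h3 : ContinuousAt (fun v : ℝ => deriv (sc N p) (v : ℂ)) v :=
      ContinuousAt.comp (f := fun v : ℝ => (v : ℂ)) h2 Complex.continuous_ofReal.continuousAt
    exact Complex.continuous_re.continuousAt.comp h3
  have hsc : Continuous s := by
    rw [continuous_iff_continuousAt]
    exact fun v => (hsder v).continuousAt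
  have hpos : ∀ v, 0 < 1 + s v ^ 2 := fun v => by positivity
  have hLd : ∀ v : ℝ, HasDerivAt (LL s) (2 * s v * (deriv (sc N p) v).re / (1 + s v ^ 2)) v := by
    intro v
    have e2 : HasDerivAt (fun v => 1 + s v ^ 2) (2 * s v * (deriv (sc N p) v).re) v := by
      have := ((hsder v).fun_pow 2).const_add 1
      simpa using this
    exact e2.log (hpos v).ne'
  have hLd' : ∀ v, deriv (LL s) v = 2 * s v * (deriv (sc N p) v).re / (1 + s v ^ 2) :=
    fun v => (hLd v).deriv
  -- the functional equation, differentiated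
  have hrel : ∀ v : ℝ, deriv H (v + Real.pi / 3 * Complex.I) / H (v + Real.pi / 3 * Complex.I) +
      deriv H (v - Real.pi / 3 * Complex.I) / H (v - Real.pi / 3 * Complex.I) =
      ((deriv (LL s) v : ℝ) : ℂ) := by
    intro v
    set p1 : ℂ := v + Real.pi / 3 * Complex.I with hp
    set m : ℂ := v - Real.pi / 3 * Complex.I with hm
    have hpim : p1.im = Real.pi / 3 := by simp [hp]
    have hmim : m.im = -(Real.pi / 3) := by simp [hm]
    have hpa : |p1.im| ≤ 2 * Real.pi / 3 := by
      rw [hpim, abs_of_pos (by positivity)]; linarith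
    have hma : |m.im| ≤ 2 * Real.pi / 3 := by
      rw [hmim, abs_neg, abs_of_pos (by positivity)]; linarith
    have d1 : HasDerivAt (fun z : ℂ => H (z + Real.pi / 3 * Complex.I)) (deriv H p1) (v : ℂ) := by
      have := (ha p1 (by linarith)).hasDerivAt
      have h2 : HasDerivAt (fun z : ℂ => z + Real.pi / 3 * Complex.I) 1 (v : ℂ) :=
        (hasDerivAt_id _).add_const _
      have h3 := HasDerivAt.comp (h₂ := H) (h := fun z : ℂ => z + Real.pi / 3 * Complex.I) (v : ℂ) this h2
      rw [mul_one] at h3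
      exact h3
    have d2 : HasDerivAt (fun z : ℂ => H (z - Real.pi / 3 * Complex.I)) (deriv H m) (v : ℂ) := by
      have := (ha m (by linarith)).hasDerivAt
      have h2 : HasDerivAt (fun z : ℂ => z - Real.pi / 3 * Complex.I) 1 (v : ℂ) :=
        (hasDerivAt_id _).sub_const _
      have h3 := HasDerivAt.comp (h₂ := H) (h := fun z : ℂ => z - Real.pi / 3 * Complex.I) (v : ℂ) this h2
      rw [mul_one] at h3
      exact h3
    have d3 := d1.mul d2
    have d4 : HasDerivAt (fun z : ℂ => 1 + sc N p z ^ 2) (2 * sc N p v * deriv (sc N p) v) (v : ℂ) := by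
      have := ((hsca v).hasDerivAt.fun_pow 2).const_add 1
      simpa using this
    have hev : (fun z : ℂ => H (z + Real.pi / 3 * Complex.I) * H (z - Real.pi / 3 * Complex.I))
        =ᶠ[𝓝 (v : ℂ)] fun z => 1 + sc N p z ^ 2 := by
      have hU : {z : ℂ | |z.im| < Real.pi / 3} ∈ 𝓝 (v : ℂ) := by
        apply (isOpen_lt (continuous_abs.comp Complex.continuous_im) continuous_const).mem_nhds
        simp; positivity
      filter_upwards [hU] with z hz
      exact hrelH z (le_of_lt hz)
    have d5 : HasDerivAt (fun z : ℂ => 1 + sc N p z ^ 2)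
        (deriv H p1 * H m + H p1 * deriv H m) (v : ℂ) :=
      HasDerivAt.congr_of_eventuallyEq d3 hev.symm
    have d6 := d5.unique d4
    have hval : H p1 * H m = 1 + sc N p v ^ 2 := hev.eq_of_nhds
    have r2 := (b6_real (hsca v) hscim).2
    have hp0 := hne p1 hpa
    have hm0 := hne m hma
    rw [div_add_div _ _ hp0 hm0, d6, hval, hLd' v, sc_ofReal, r2]
    push_cast
    rfl
  -- LL is nice
  have hLc : Continuous (LL s) := by
    rw [continuous_iff_continuousAt]
    exact fun v => (hLd v).continuousAt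
  have hL'c : Continuous (deriv (LL s)) := by
    have : deriv (LL s) = fun v => 2 * s v * (deriv (sc N p) v).re / (1 + s v ^ 2) := funext hLd'
    rw [this]
    exact ((continuous_const.mul hsc).mul hs'c).div (continuous_const.add (hsc.pow 2))
      (fun v => (hpos v).ne')
  have hL'i : Integrable (deriv (LL s)) := by
    refine (u2_exp_int.const_mul (2 * C)).mono' hL'c.aestronglyMeasurable
      (Eventually.of_forall fun v => ?_)
    have h1 := hC (v + Real.pi / 3 * Complex.I) (by
      simp; rw [abs_of_pos (by positivity)])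
    have h2 := hC (v - Real.pi / 3 * Complex.I) (by
      simp; rw [abs_of_pos (by positivity)])
    have e1 : ((v : ℂ) + Real.pi / 3 * Complex.I).re = v := by simp
    have e2 : ((v : ℂ) - Real.pi / 3 * Complex.I).re = v := by simp
    rw [e1] at h1
    rw [e2] at h2
    have h3 : ‖deriv (LL s) v‖ = ‖((deriv (LL s) v : ℝ) : ℂ)‖ := by
      rw [Complex.norm_real]
    rw [h3, ← hrel v]
    refine (norm_add_le _ _).trans ?_
    linarith
  have nL : Nice (LL s) := ⟨fun v => (hLd v).differentiableAt, hL'c, hL'i⟩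
  have hs2 : ∀ v, |s v| ≤ 2 := by
    intro v
    have h1 := (sc_re h (v : ℂ) (by simp; positivity)).2
    rw [sc_ofReal, Complex.norm_real] at h1
    exact h1
  have bL : ∀ v, |LL s v| ≤ Real.log 5 := by
    intro v
    have h4 : s v ^ 2 ≤ 4 := by
      rw [← sq_abs (s v)]
      have := pow_le_pow_left₀ (abs_nonneg _) (hs2 v) 2
      linarith
    have h5 : 0 ≤ Real.log (1 + s v ^ 2) := Real.log_nonneg (by nlinarith [sq_nonneg (s v)])
    rw [LL, abs_of_nonneg h5]
    exact Real.log_le_log (hpos v) (by linarith)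
  -- the representation
  have hHd : DifferentiableOn ℂ H {z : ℂ | |z.im| < 4 * Real.pi / 3} :=
    fun z hz => (ha z hz).differentiableWithinAt
  have hopen : IsOpen {z : ℂ | |z.im| < 4 * Real.pi / 3} :=
    isOpen_lt (continuous_abs.comp Complex.continuous_im) continuous_const
  have hHd' : DifferentiableOn ℂ (deriv H) {z : ℂ | |z.im| < 4 * Real.pi / 3} := hHd.deriv hopen
  have hf : ∀ z : ℂ, |z.im| ≤ Real.pi / 3 → DifferentiableAt ℂ (fun z => deriv H z / H z) z := by
    intro z hz
    have hz' : z ∈ {z : ℂ | |z.im| < 4 * Real.pi / 3} := lt_of_le_of_lt hz (by linarith)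
    exact (hHd'.differentiableAt (hopen.mem_nhds hz')).div (ha z hz') (hne z (by linarith))
  have hfb : ∀ z : ℂ, |z.im| ≤ Real.pi / 3 → ‖(fun z => deriv H z / H z) z‖ ≤ C := by
    intro z hz
    refine (hC z hz).trans ?_
    have : Real.exp (-|z.re|) ≤ 1 := Real.exp_le_one_iff.2 (by simp)
    nlinarith
  have hrep : ∀ l : ℝ, deriv H l / H l = ((deriv (bb s) l : ℝ) : ℂ) := by
    intro l
    have h1 : deriv H l / H l = ∫ v : ℝ, (kk (l - v) : ℂ) * (deriv H (v + Real.pi / 3 * Complex.I) /
        H (v + Real.pi / 3 * Complex.I) + deriv H (v - Real.pi / 3 * Complex.I) /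
        H (v - Real.pi / 3 * Complex.I)) :=
      strip_rep (fun z => deriv H z / H z) C hf hfb l
    rw [h1]
    have h2 : ∀ v : ℝ, (kk (l - v) : ℂ) * (deriv H (v + Real.pi / 3 * Complex.I) /
        H (v + Real.pi / 3 * Complex.I) + deriv H (v - Real.pi / 3 * Complex.I) /
        H (v - Real.pi / 3 * Complex.I)) = ((kk (l - v) * deriv (LL s) v : ℝ) : ℂ) := by
      intro v
      rw [hrel v]
      push_cast
      rfl
    simp_rw [h2]
    rw [integral_complex_ofReal]
    have h3 := (kk_conv_nice (LL s) _ nL bL).2 l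
    congr 1
    exact h3.symm
  -- the difference of the logarithms is constant
  have hbd : ∀ l : ℝ, DifferentiableAt ℝ (bb s) l := (kk_conv_nice (LL s) _ nL bL).1.1
  have hHr : ∀ l : ℝ, HasDerivAt (fun v : ℝ => (H v).re) (deriv H l).re l ∧
      deriv H l = ((deriv H l).re : ℂ) := by
    intro l
    exact b6_real (ha l (by simp; positivity)) (fun v => (hre v).1)
  have hD : ∀ l : ℝ, HasDerivAt (fun v : ℝ => Real.log (H v).re - bb s v) 0 l := by
    intro l
    have e1 := (hHr l).1.log (hre l).2.ne'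
    have e2 := e1.sub (hbd l).hasDerivAt
    have e3 : (deriv H l).re / (H l).re = deriv (bb s) l := by
      have h4 := hrep l
      have h5 : H l = ((H l).re : ℂ) := by
        apply Complex.ext
        · simp
        · simp [(hre l).1]
      rw [(hHr l).2, h5] at h4
      exact_mod_cast h4
    rw [e3, sub_self] at e2
    exact e2
  have hconst : ∀ a b : ℝ, Real.log (H a).re - bb s a = Real.log (H b).re - bb s b :=
    fun a b => is_const_of_deriv_eq_zero (fun l => (hD l).differentiableAt) (fun l => (hD l).deriv) a b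
  -- the limit at infinity
  have hexp0 : ∀ B : ℝ, Tendsto (fun v : ℝ => B * Real.exp (-|v|)) atTop (𝓝 0) := by
    intro B
    have h1 : Tendsto (fun v : ℝ => Real.exp (-|v|)) atTop (𝓝 0) :=
      Real.tendsto_exp_neg_atTop_nhds_zero.comp tendsto_abs_atTop_atTop
    simpa using h1.const_mul B
  have c4 : Tendsto (fun v : ℝ => (H v).re) atTop (𝓝 1) := by
    have h1 : Tendsto (fun v : ℝ => (H v).re - 1) atTop (𝓝 0) := by
      refine squeeze_zero_norm' ?_ (hexp0 K)
      filter_upwards [eventually_ge_atTop (1 : ℝ)] with v hv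
      have h2 := hK' (v : ℂ) (by simp; positivity) (by
        simp
        rw [abs_of_pos (by linarith)]
        exact hv)
      rw [Complex.ofReal_re] at h2
      refine le_trans ?_ h2
      have h3 : (H v).re - 1 = (H v - 1).re := by simp
      rw [h3, Real.norm_eq_abs]
      exact Complex.abs_re_le_norm _
    simpa using h1.add_const 1
  have l1 : Tendsto (fun v : ℝ => Real.log (H v).re) atTop (𝓝 0) := by
    have := (Real.continuousAt_log one_ne_zero).tendsto.comp c4
    rwa [Real.log_one] at this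
  obtain ⟨K2, hK2⟩ := sc_lim h
  have hs0 : Tendsto s atTop (𝓝 0) := by
    refine squeeze_zero_norm' (Eventually.of_forall fun v => ?_) (hexp0 K2)
    have h2 := hK2 (v : ℂ) (by simp; positivity)
    rw [sc_ofReal, Complex.norm_real, Complex.ofReal_re] at h2
    exact h2
  have l2 : Tendsto (LL s) atTop (𝓝 0) := by
    have h3 : Tendsto (fun v => 1 + s v ^ 2) atTop (𝓝 1) := by
      have := (hs0.pow 2).const_add 1
      simpa using this
    have := (Real.continuousAt_log one_ne_zero).tendsto.comp h3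
    rwa [Real.log_one] at this
  have l3 : Tendsto (bb s) atTop (𝓝 0) := by
    have := kk_conv_top (LL s) _ _ hLc bL l2
    rwa [zero_div] at this
  have l5 : Tendsto (fun v : ℝ => Real.log (H v).re - bb s v) atTop (𝓝 0) := by
    have := l1.sub l3
    rwa [sub_zero] at this
  have l6 : Real.log (H u).re - bb s u = 0 := by
    have h7 : (fun v : ℝ => Real.log (H v).re - bb s v) = fun _ => Real.log (H u).re - bb s u :=
      funext fun v => hconst v u
    rw [h7] at l5
    exact tendsto_nhds_unique tendsto_const_nhds l5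
  have l7 : Real.log (H u).re = bb s u := by linarith
  have l8 : -(hh N V u).re = (H u).re := by simp [hH]
  rw [l8, ← l7, Real.exp_log (hre u).2]

end H906C
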