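import Pool.Agent.H906R3.CY.Defs
import Pool.Agent.H906R3.CY.B1
import Pool.Agent.H906R3.CY.B3
import Pool.Agent.H906R3.CY.B4
import Pool.Agent.H906R3.CY.B5
import Pool.Agent.H906R3.CY.B6

namespace H906C
open Pool.Agent.H863R2.Cyl
open Pool.Agent.H863R2.Cyl.Sem1Aux (Inc RH Cons)
open Pool.Agent.H988R2.Perc (Word)
open Polynomial MeasureTheory Filter Topology


theorem b7_conj (u : ℝ) : starRingEnd ℂ ((u : ℂ) + Real.pi / 3 * Complex.I) =
    (u : ℂ) - Real.pi / 3 * Complex.I := by
  rw [map_add, map_mul, Complex.conj_I, Complex.conj_ofReal, map_div₀, Complex.conj_ofReal]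
  have : (starRingEnd ℂ) (3 : ℂ) = 3 := Complex.conj_ofNat 3
  rw [this]
  ring

theorem b7_im (u : ℝ) : ((u : ℂ) + Real.pi / 3 * Complex.I).im = Real.pi / 3 := by
  have : ((u : ℂ) + Real.pi / 3 * Complex.I) = (u : ℂ) + ((Real.pi / 3 : ℝ) : ℂ) * Complex.I := by
    push_cast
    ring
  rw [this]
  simp

theorem b7_sq {N : ℕ} {p : ℕ → ℝ} {t V : ℂ[X]} (h : Spec N p t V) (u : ℝ) :
    ‖sc N p (u + Real.pi / 3 * Complex.I)‖ ^ 2 = 1 - yy N (sr N p) u := by
  have hpi := Real.pi_pos
  have h1 := rel_h h (u : ℂ) (by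
    rw [Complex.ofReal_im, abs_zero]
    positivity)
  rw [← b7_conj, sc_conj, Complex.mul_conj, Complex.normSq_eq_norm_sq] at h1
  have h2 : hh N V u = ((-Real.exp (bb (sr N p) u) : ℝ) : ℂ) := by
    have h3 := (hh_real h u).1
    have h4 := hh_rep h u
    apply Complex.ext
    · rw [Complex.ofReal_re]
      linarith
    · rw [Complex.ofReal_im]
      exact h3
  have h5 : Complex.tanh (3 * (u : ℂ) / 4) = ((Real.tanh (3 * u / 4) : ℝ) : ℂ) := by
    push_cast
    rfl
  rw [h2, h5] at h1
  have h6 : ((‖sc N p (u + Real.pi / 3 * Complex.I)‖ ^ 2 : ℝ) : ℂ) =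
      ((1 - yy N (sr N p) u : ℝ) : ℂ) := by
    rw [h1]
    unfold yy
    push_cast
    ring
  exact Complex.ofReal_injective h6

theorem s_rep {N : ℕ} {p : ℕ → ℝ} {t V : ℂ[X]} (h : Spec N p t V) :
    (∀ u : ℝ, ‖sc N p (u + Real.pi / 3 * Complex.I)‖ ^ 2 = 1 - yy N (sr N p) u) ∧
    ∀ l : ℝ, Real.log (sr N p l) = ∫ u : ℝ, H906K.kk (l - u) * l1 N (sr N p) u := by
  refine ⟨b7_sq h, ?_⟩
  intro l
  have hpi := Real.pi_pos
  have hpi4 := Real.pi_lt_four
  have hre : ∀ z : ℂ, |z.im| ≤ Real.pi / 3 → 0 < (sc N p z).re := fun z hz =>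
    lt_of_lt_of_le (by positivity) (sc_re h z hz).1
  have hslit : ∀ z : ℂ, |z.im| ≤ Real.pi / 3 → sc N p z ∈ Complex.slitPlane := fun z hz =>
    Or.inl (hre z hz)
  have key := strip_rep_lin (fun z => Complex.log (sc N p z)) 7
    (fun z hz => (sc_an h z (by linarith)).clog (hslit z hz)) (by
      intro z hz
      obtain ⟨h1, h2⟩ := sc_re h z hz
      have h3 : Real.exp (-|z.re|) / 4 ≤ ‖sc N p z‖ := h1.trans ((le_abs_self _).trans (Complex.abs_re_le_norm _))
      have hpos : 0 < ‖sc N p z‖ := lt_of_lt_of_le (by positivity) h3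
      have h4 : Real.log ‖sc N p z‖ ≤ 2 := by
        have := Real.log_le_sub_one_of_pos hpos
        linarith
      have h5 : -|z.re| - 3 ≤ Real.log ‖sc N p z‖ := by
        have h6 := Real.log_le_log (by positivity) h3
        rw [Real.log_div (by positivity) (by norm_num), Real.log_exp] at h6
        have h7 : Real.log 4 ≤ 3 := by
          have := Real.log_le_sub_one_of_pos (show (0:ℝ) < 4 by norm_num)
          linarith
        linarith
      have h8 : ‖Complex.log (sc N p z)‖ ≤ |(Complex.log (sc N p z)).re| + |(Complex.log (sc N p z)).im| :=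
        Complex.norm_le_abs_re_add_abs_im _
      rw [Complex.log_re, Complex.log_im] at h8
      have h9 := Complex.abs_arg_le_pi (sc N p z)
      have h10 : |Real.log ‖sc N p z‖| ≤ |z.re| + 3 := by
        rw [abs_le]
        constructor
        · linarith
        · have := abs_nonneg z.re
          linarith
      have := abs_nonneg z.re
      show ‖Complex.log (sc N p z)‖ ≤ _
      linarith) l
  have e1 : ∀ u : ℝ, ((H906K.kk (l - u) : ℝ) : ℂ) * (Complex.log (sc N p (u + Real.pi / 3 * Complex.I))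
      + Complex.log (sc N p (u - Real.pi / 3 * Complex.I))) =
      ((H906K.kk (l - u) * l1 N (sr N p) u : ℝ) : ℂ) := by
    intro u
    have hz : |((u : ℂ) + Real.pi / 3 * Complex.I).im| ≤ Real.pi / 3 := by
      rw [b7_im, abs_of_pos (by positivity)]
    have hp := hre _ hz
    have hne : sc N p (u + Real.pi / 3 * Complex.I) ≠ 0 := by
      intro h0
      rw [h0] at hp
      simp at hp
    have h1 : (sc N p (u + Real.pi / 3 * Complex.I)).arg ≠ Real.pi := by
      intro h0
      rw [Complex.arg_eq_pi_iff] at h0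
      linarith [h0.1]
    rw [← b7_conj, sc_conj, Complex.log_conj _ h1, Complex.add_conj, Complex.log_re]
    unfold l1
    rw [← b7_sq h u, Real.log_pow]
    push_cast
    ring
  have e2 : sc N p (l : ℂ) = (sr N p l : ℂ) := sc_ofReal l
  have hsr : 0 < sr N p l := by
    have := hre (l : ℂ) (by rw [Complex.ofReal_im, abs_zero]; positivity)
    rw [e2, Complex.ofReal_re] at this
    exact this
  simp only [e1] at key
  rw [integral_complex_ofReal] at key
  rw [e2, ← Complex.ofReal_log hsr.le] at key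
  exact Complex.ofReal_injective key

end H906C
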