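import Pool.Agent.H906R3.CY.Defs2

/-!
# G11: qualitative properties of `srw`
-/

namespace H906C
open Filter Topology

/-- `P(u) = 1 - 3 / (4 cosh² (u/2))` on the real line -/
noncomputable def g11P (u : ℝ) : ℝ := 1 - 3 / (4 * Real.cosh (u / 2) ^ 2)

lemma g11_cosh_sq_ge (u : ℝ) : 1 ≤ Real.cosh (u / 2) ^ 2 := by
  have h := Real.one_le_cosh (u / 2)
  nlinarith

lemma g11P_nonneg (u : ℝ) : 0 ≤ g11P u := by
  unfold g11P
  have h := g11_cosh_sq_ge u
  have h1 : 3 / (4 * Real.cosh (u / 2) ^ 2) ≤ 1 := by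
    rw [div_le_one (by positivity)]
    linarith
  linarith

lemma g11P_lt_one (u : ℝ) : g11P u < 1 := by
  unfold g11P
  have h := g11_cosh_sq_ge u
  have h1 : 0 < 3 / (4 * Real.cosh (u / 2) ^ 2) := by positivity
  linarith

lemma g11P_neg (u : ℝ) : g11P (-u) = g11P u := by
  unfold g11P
  rw [neg_div, Real.cosh_neg]

lemma g11P_mono {u v : ℝ} (hu : 0 ≤ u) (huv : u ≤ v) : g11P u ≤ g11P v := by
  unfold g11P
  have h1 := g11_cosh_sq_ge u
  have h2 : Real.cosh (u / 2) ≤ Real.cosh (v / 2) := by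
    rw [Real.cosh_le_cosh, abs_of_nonneg (by linarith), abs_of_nonneg (by linarith)]
    linarith
  have h3 : Real.cosh (u / 2) ^ 2 ≤ Real.cosh (v / 2) ^ 2 :=
    pow_le_pow_left₀ (Real.cosh_pos _).le h2 2
  have h4 : 3 / (4 * Real.cosh (v / 2) ^ 2) ≤ 3 / (4 * Real.cosh (u / 2) ^ 2) := by
    apply div_le_div_of_nonneg_left (by norm_num) (by positivity)
    linarith
  linarith

lemma g11P_contDiff : ContDiff ℝ 1 g11P := by
  unfold g11P
  refine contDiff_const.sub (contDiff_const.div ?_ ?_)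
  · refine contDiff_const.mul (ContDiff.pow ?_ 2)
    exact Real.contDiff_cosh.comp (contDiff_id.div_const 2)
  · intro u
    have h := g11_cosh_sq_ge u
    positivity

lemma g11_exp_le (u : ℝ) : Real.exp |u| ≤ 4 * Real.cosh (u / 2) ^ 2 := by
  have h2 : Real.exp (|u| / 2) ≤ 2 * Real.cosh (u / 2) := by
    rw [← Real.cosh_abs (u / 2), abs_div, abs_of_pos (by norm_num : (0 : ℝ) < 2), Real.cosh_eq]
    have := Real.exp_pos (-(|u| / 2))
    linarith
  have h3 : Real.exp |u| = Real.exp (|u| / 2) ^ 2 := by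
    rw [← Real.exp_nat_mul]
    congr 1
    push_cast
    ring
  rw [h3]
  have h4 : Real.exp (|u| / 2) ^ 2 ≤ (2 * Real.cosh (u / 2)) ^ 2 :=
    pow_le_pow_left₀ (Real.exp_pos _).le h2 2
  calc Real.exp (|u| / 2) ^ 2 ≤ (2 * Real.cosh (u / 2)) ^ 2 := h4
    _ = 4 * Real.cosh (u / 2) ^ 2 := by ring

lemma g11_inv_le (u : ℝ) : 3 / (4 * Real.cosh (u / 2) ^ 2) ≤ 3 * Real.exp (-|u|) := by
  have h := g11_cosh_sq_ge u
  have h1 := g11_exp_le u
  rw [Real.exp_neg, div_eq_mul_inv]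
  have h2 := Real.exp_pos |u|
  have h3 : (4 * Real.cosh (u / 2) ^ 2)⁻¹ ≤ (Real.exp |u|)⁻¹ := inv_anti₀ h2 h1
  linarith

lemma g11P_tendsto : Tendsto g11P atTop (𝓝 1) := by
  have h1 : Tendsto (fun u : ℝ => 4 * Real.cosh (u / 2) ^ 2) atTop atTop := by
    refine tendsto_atTop_mono (f := fun u : ℝ => Real.exp u) ?_ Real.tendsto_exp_atTop
    intro u
    exact (Real.exp_le_exp.mpr (le_abs_self u)).trans (g11_exp_le u)
  have h2 : Tendsto (fun u : ℝ => 3 / (4 * Real.cosh (u / 2) ^ 2)) atTop (𝓝 0) :=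
    h1.const_div_atTop 3
  have h3 := (tendsto_const_nhds (x := (1 : ℝ))).sub h2
  rw [sub_zero] at h3
  exact h3

lemma g11P_hasDeriv (u : ℝ) :
    HasDerivAt g11P (3 / (4 * Real.cosh (u / 2) ^ 2) *
      (Real.sinh (u / 2) / Real.cosh (u / 2))) u := by
  have hc := Real.cosh_pos (u / 2)
  have h0 : HasDerivAt (fun x : ℝ => x / 2) (1 / 2) u := (hasDerivAt_id u).div_const 2
  have h1 : HasDerivAt (fun x : ℝ => Real.cosh (x / 2)) (Real.sinh (u / 2) * (1 / 2)) u :=
    h0.cosh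
  have h2 : HasDerivAt (fun x : ℝ => 4 * Real.cosh (x / 2) ^ 2)
      (4 * ((2 : ℕ) * Real.cosh (u / 2) ^ (2 - 1) * (Real.sinh (u / 2) * (1 / 2)))) u :=
    (h1.pow 2).const_mul 4
  have h3 := ((hasDerivAt_const u (3 : ℝ)).div h2 (by positivity)).const_sub 1
  have h4 : HasDerivAt g11P (-((0 * (4 * Real.cosh (u / 2) ^ 2) - 3 *
      (4 * ((2 : ℕ) * Real.cosh (u / 2) ^ (2 - 1) * (Real.sinh (u / 2) * (1 / 2))))) /
      (4 * Real.cosh (u / 2) ^ 2) ^ 2)) u := h3
  convert h4 using 1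
  field_simp
  push_cast
  ring

lemma g11P_deriv_le (u : ℝ) :
    |3 / (4 * Real.cosh (u / 2) ^ 2) * (Real.sinh (u / 2) / Real.cosh (u / 2))| ≤
      3 * Real.exp (-|u|) := by
  have hc := Real.cosh_pos (u / 2)
  rw [abs_mul, abs_of_pos (by positivity : 0 < 3 / (4 * Real.cosh (u / 2) ^ 2))]
  have h1 : |Real.sinh (u / 2) / Real.cosh (u / 2)| ≤ 1 := by
    rw [← Real.tanh_eq_sinh_div_cosh]
    exact (Real.abs_tanh_lt_one _).le
  calc 3 / (4 * Real.cosh (u / 2) ^ 2) * |Real.sinh (u / 2) / Real.cosh (u / 2)|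
      ≤ 3 / (4 * Real.cosh (u / 2) ^ 2) * 1 :=
        mul_le_mul_of_nonneg_left h1 (by positivity)
    _ ≤ _ := by rw [mul_one]; exact g11_inv_le u

theorem srw_props {N : ℕ} {w : ℝ} {p : ℕ → ℝ} (w0 : 0 < w) (w2 : w < 2) (w1 : w ≠ 1)
    (nonneg : ∀ j, 0 ≤ p j)
    (supp : ∀ j, p j ≠ 0 → 1 ≤ j ∧ 2 * j ≤ N) (sum : ∑ j ∈ Finset.range (N + 1), p j = 1) :
    (∀ u, srw N w p (-u) = srw N w p u) ∧
    (∀ u, (w < 1 → w ≤ srw N w p u ∧ srw N w p u ≤ 1) ∧
      (1 < w → 1 ≤ srw N w p u ∧ srw N w p u ≤ w)) ∧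
    ContDiff ℝ 1 (srw N w p) ∧
    ((w < 1 → AntitoneOn (srw N w p) (Set.Ici 0)) ∧ (1 < w → MonotoneOn (srw N w p) (Set.Ici 0))) ∧
    Tendsto (srw N w p) atTop (𝓝 w) ∧
    ∃ K, ∀ u, |srw N w p u - w| ≤ K * Real.exp (-|u|) ∧
      |deriv (srw N w p) u| ≤ K * Real.exp (-|u|) := by
  have hsr : ∀ u, srw N w p u = 1 - (1 - w) * ∑ j ∈ Finset.range (N + 1), p j * g11P u ^ j :=
    fun u => rfl
  have hsr' : srw N w p = fun u => 1 - (1 - w) * ∑ j ∈ Finset.range (N + 1), p j * g11P u ^ j :=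
    funext hsr
  have hH0 : ∀ u, 0 ≤ ∑ j ∈ Finset.range (N + 1), p j * g11P u ^ j := fun u =>
    Finset.sum_nonneg fun j _ => mul_nonneg (nonneg j) (pow_nonneg (g11P_nonneg u) j)
  have hH1 : ∀ u, ∑ j ∈ Finset.range (N + 1), p j * g11P u ^ j ≤ 1 := by
    intro u
    rw [← sum]
    refine Finset.sum_le_sum fun j _ => ?_
    exact mul_le_of_le_one_right (nonneg j) (pow_le_one₀ (g11P_nonneg u) (g11P_lt_one u).le)
  have hHm : ∀ u ∈ Set.Ici (0 : ℝ), ∀ v ∈ Set.Ici (0 : ℝ), u ≤ v →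
      ∑ j ∈ Finset.range (N + 1), p j * g11P u ^ j ≤
        ∑ j ∈ Finset.range (N + 1), p j * g11P v ^ j := by
    intro u hu v _ huv
    exact Finset.sum_le_sum fun j _ => mul_le_mul_of_nonneg_left
      (pow_le_pow_left₀ (g11P_nonneg u) (g11P_mono hu huv) j) (nonneg j)
  refine ⟨?_, ?_, ?_, ?_, ?_, ?_⟩
  · intro u
    rw [hsr, hsr, g11P_neg]
  · intro u
    rw [hsr]
    have h0 := hH0 u
    have h1 := hH1 u
    constructor
    · intro hw
      constructor <;> nlinarith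
    · intro hw
      constructor <;> nlinarith
  · rw [hsr']
    exact contDiff_const.sub (contDiff_const.mul
      (ContDiff.sum fun j _ => contDiff_const.mul (g11P_contDiff.pow j)))
  · constructor
    · intro hw u hu v hv huv
      rw [hsr, hsr]
      have := hHm u hu v hv huv
      nlinarith
    · intro hw u hu v hv huv
      rw [hsr, hsr]
      have := hHm u hu v hv huv
      nlinarith
  · rw [hsr']
    have h1 : Tendsto (fun u => ∑ j ∈ Finset.range (N + 1), p j * g11P u ^ j) atTop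
        (𝓝 (∑ j ∈ Finset.range (N + 1), p j * (1 : ℝ) ^ j)) :=
      tendsto_finsetSum _ fun j _ => (g11P_tendsto.pow j).const_mul (p j)
    have h2 : ∑ j ∈ Finset.range (N + 1), p j * (1 : ℝ) ^ j = 1 := by
      simp only [one_pow, mul_one]
      exact sum
    rw [h2] at h1
    have h3 := (tendsto_const_nhds (x := (1 : ℝ))).sub (h1.const_mul (1 - w))
    have h4 : (1 : ℝ) - (1 - w) * 1 = w := by ring
    rw [h4] at h3
    exact h3
  · refine ⟨|1 - w| * (3 * N), fun u => ⟨?_, ?_⟩⟩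
    · have h1 : srw N w p u - w =
          (1 - w) * ∑ j ∈ Finset.range (N + 1), p j * (1 - g11P u ^ j) := by
        rw [hsr]
        simp only [mul_sub, mul_one, Finset.sum_sub_distrib, sum]
        ring
      rw [h1, abs_mul, mul_assoc]
      refine mul_le_mul_of_nonneg_left ?_ (abs_nonneg _)
      have h2 : ∀ j, 0 ≤ 1 - g11P u ^ j := fun j =>
        sub_nonneg.mpr (pow_le_one₀ (g11P_nonneg u) (g11P_lt_one u).le)
      rw [abs_of_nonneg (Finset.sum_nonneg fun j _ => mul_nonneg (nonneg j) (h2 j))]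
      have h3 : ∀ j ∈ Finset.range (N + 1), p j * (1 - g11P u ^ j) ≤
          p j * (3 * N * Real.exp (-|u|)) := by
        intro j hj
        refine mul_le_mul_of_nonneg_left ?_ (nonneg j)
        have h4 : 1 + (j : ℝ) * (g11P u - 1) ≤ g11P u ^ j := by
          have := one_add_mul_le_pow (a := g11P u - 1) (by linarith [g11P_nonneg u]) j
          simpa using this
        have h5 : 1 - g11P u ≤ 3 * Real.exp (-|u|) := by
          have := g11_inv_le u
          unfold g11P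
          linarith
        have h6 : (j : ℝ) ≤ N := by
          have := Finset.mem_range.mp hj
          exact_mod_cast Nat.lt_succ_iff.mp this
        have h7 : 0 ≤ 1 - g11P u := by linarith [g11P_lt_one u]
        have h8 : (j : ℝ) * (1 - g11P u) ≤ N * (3 * Real.exp (-|u|)) :=
          mul_le_mul h6 h5 h7 (Nat.cast_nonneg N)
        linarith
      refine (Finset.sum_le_sum h3).trans ?_
      rw [← Finset.sum_mul, sum, one_mul]
    · set d : ℝ := 3 / (4 * Real.cosh (u / 2) ^ 2) * (Real.sinh (u / 2) / Real.cosh (u / 2)) with hd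
      have hD : HasDerivAt (srw N w p) (-((1 - w) * ∑ j ∈ Finset.range (N + 1),
          p j * ((j : ℝ) * g11P u ^ (j - 1) * d))) u := by
        rw [hsr']
        have h1 : HasDerivAt (fun u => ∑ j ∈ Finset.range (N + 1), p j * g11P u ^ j)
            (∑ j ∈ Finset.range (N + 1), p j * ((j : ℝ) * g11P u ^ (j - 1) * d)) u :=
          HasDerivAt.fun_sum fun j _ => ((g11P_hasDeriv u).pow j).const_mul (p j)
        exact (h1.const_mul (1 - w)).const_sub 1
      rw [hD.deriv, abs_neg, abs_mul, mul_assoc]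
      refine mul_le_mul_of_nonneg_left ?_ (abs_nonneg _)
      refine (Finset.abs_sum_le_sum_abs _ _).trans ?_
      have h3 : ∀ j ∈ Finset.range (N + 1), |p j * ((j : ℝ) * g11P u ^ (j - 1) * d)| ≤
          p j * (3 * N * Real.exp (-|u|)) := by
        intro j hj
        rw [abs_mul, abs_of_nonneg (nonneg j)]
        refine mul_le_mul_of_nonneg_left ?_ (nonneg j)
        have h6 : (j : ℝ) ≤ N := by
          have := Finset.mem_range.mp hj
          exact_mod_cast Nat.lt_succ_iff.mp this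
        rw [abs_mul, abs_mul, Nat.abs_cast, abs_of_nonneg (pow_nonneg (g11P_nonneg u) _)]
        have h4 : g11P u ^ (j - 1) ≤ 1 := pow_le_one₀ (g11P_nonneg u) (g11P_lt_one u).le
        have h5 := g11P_deriv_le u
        have h7 : (j : ℝ) * g11P u ^ (j - 1) ≤ N :=
          (mul_le_of_le_one_right (Nat.cast_nonneg j) h4).trans h6
        have h8 : (j : ℝ) * g11P u ^ (j - 1) * |d| ≤ N * (3 * Real.exp (-|u|)) :=
          mul_le_mul h7 h5 (abs_nonneg _) (Nat.cast_nonneg N)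
        linarith
      refine (Finset.sum_le_sum h3).trans ?_
      rw [← Finset.sum_mul, sum, one_mul]

end H906C
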