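import Pool.Agent.H906R3.CY.Defs
import Pool.Agent.H906R3.CY.G11

/-!
# B8: qualitative properties of `sr`
-/

namespace H906C
open Filter Topology

/-- `P(u) = 1 - 3 / (4 cosh² (u/2))` on the real line -/
noncomputable def b8P (u : ℝ) : ℝ := 1 - 3 / (4 * Real.cosh (u / 2) ^ 2)

lemma b8_cosh_sq_ge (u : ℝ) : 1 ≤ Real.cosh (u / 2) ^ 2 := by
  have h := Real.one_le_cosh (u / 2)
  nlinarith

lemma b8P_nonneg (u : ℝ) : 0 ≤ b8P u := by
  unfold b8P
  have h := b8_cosh_sq_ge u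
  have h1 : 3 / (4 * Real.cosh (u / 2) ^ 2) ≤ 1 := by
    rw [div_le_one (by positivity)]
    linarith
  linarith

lemma b8P_lt_one (u : ℝ) : b8P u < 1 := by
  unfold b8P
  have h := b8_cosh_sq_ge u
  have h1 : 0 < 3 / (4 * Real.cosh (u / 2) ^ 2) := by positivity
  linarith

lemma b8P_neg (u : ℝ) : b8P (-u) = b8P u := by
  unfold b8P
  rw [neg_div, Real.cosh_neg]

lemma b8P_mono {u v : ℝ} (hu : 0 ≤ u) (huv : u ≤ v) : b8P u ≤ b8P v := by
  unfold b8P
  have h1 := b8_cosh_sq_ge u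
  have h2 : Real.cosh (u / 2) ≤ Real.cosh (v / 2) := by
    rw [Real.cosh_le_cosh, abs_of_nonneg (by linarith), abs_of_nonneg (by linarith)]
    linarith
  have h3 : Real.cosh (u / 2) ^ 2 ≤ Real.cosh (v / 2) ^ 2 :=
    pow_le_pow_left₀ (Real.cosh_pos _).le h2 2
  have h4 : 3 / (4 * Real.cosh (v / 2) ^ 2) ≤ 3 / (4 * Real.cosh (u / 2) ^ 2) := by
    apply div_le_div_of_nonneg_left (by norm_num) (by positivity)
    linarith
  linarith

lemma b8P_contDiff : ContDiff ℝ 1 b8P := by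
  unfold b8P
  refine contDiff_const.sub (contDiff_const.div ?_ ?_)
  · refine contDiff_const.mul (ContDiff.pow ?_ 2)
    exact Real.contDiff_cosh.comp (contDiff_id.div_const 2)
  · intro u
    have h := b8_cosh_sq_ge u
    positivity

lemma b8P_tendsto : Tendsto b8P atTop (𝓝 1) := by
  have h1 : Tendsto (fun u : ℝ => 4 * Real.cosh (u / 2) ^ 2) atTop atTop := by
    refine tendsto_atTop_mono (f := fun u : ℝ => Real.exp u) ?_ Real.tendsto_exp_atTop
    intro u
    have h2 : Real.exp (u / 2) ≤ 2 * Real.cosh (u / 2) := by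
      rw [Real.cosh_eq]
      have := Real.exp_pos (-(u / 2))
      linarith
    have h3 : Real.exp u = Real.exp (u / 2) ^ 2 := by
      rw [← Real.exp_nat_mul]
      congr 1
      push_cast
      ring
    rw [h3]
    have h4 : Real.exp (u / 2) ^ 2 ≤ (2 * Real.cosh (u / 2)) ^ 2 :=
      pow_le_pow_left₀ (Real.exp_pos _).le h2 2
    calc Real.exp (u / 2) ^ 2 ≤ (2 * Real.cosh (u / 2)) ^ 2 := h4
      _ = 4 * Real.cosh (u / 2) ^ 2 := by ring
  have h2 : Tendsto (fun u : ℝ => 3 / (4 * Real.cosh (u / 2) ^ 2)) atTop (𝓝 0) :=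
    h1.const_div_atTop 3
  have h3 := (tendsto_const_nhds (x := (1 : ℝ))).sub h2
  rw [sub_zero] at h3
  exact h3

theorem b8_dec {N : ℕ} {p : ℕ → ℝ} (nonneg : ∀ j, 0 ≤ p j)
    (supp : ∀ j, p j ≠ 0 → 1 ≤ j ∧ 2 * j ≤ N) (sum : ∑ j ∈ Finset.range (N + 1), p j = 1) :
    ∃ K, ∀ u, sr N p u ≤ K * Real.exp (-|u|) ∧ |deriv (sr N p) u| ≤ K * Real.exp (-|u|) := by
  obtain ⟨-, -, hcd, -, -, K, hK⟩ := srw_props (w := 1 / 2) (by norm_num) (by norm_num)
    (by norm_num) nonneg supp sum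
  have h1 : sr N p = fun u => 2 * srw N (1 / 2) p u - 1 := by
    funext u
    unfold sr srw
    ring
  refine ⟨2 * K, fun u => ?_⟩
  obtain ⟨h2, h3⟩ := hK u
  have h4 : deriv (sr N p) u = 2 * deriv (srw N (1 / 2) p) u := by
    rw [h1, deriv_sub_const, deriv_const_mul _ ((hcd.differentiable (by norm_num)) u)]
  constructor
  · have h5 := (le_abs_self _).trans h2
    rw [h1]
    simp only
    linarith
  · rw [h4, abs_mul, abs_of_pos (show (0 : ℝ) < 2 by norm_num)]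
    linarith

theorem sr_props {N : ℕ} {p : ℕ → ℝ} (hN : 2 ≤ N) (nonneg : ∀ j, 0 ≤ p j)
    (supp : ∀ j, p j ≠ 0 → 1 ≤ j ∧ 2 * j ≤ N) (sum : ∑ j ∈ Finset.range (N + 1), p j = 1) :
    (∀ u, sr N p (-u) = sr N p u) ∧ (∀ u, 0 < sr N p u) ∧ (∀ u, sr N p u ≤ 1) ∧
    ContDiff ℝ 1 (sr N p) ∧ AntitoneOn (sr N p) (Set.Ici 0) ∧ Tendsto (sr N p) atTop (𝓝 0) ∧
    ∃ K, ∀ u, sr N p u ≤ K * Real.exp (-|u|) ∧ |deriv (sr N p) u| ≤ K * Real.exp (-|u|) := by
  have hsr : ∀ u, sr N p u = 1 - ∑ j ∈ Finset.range (N + 1), p j * b8P u ^ j := fun u => rfl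
  refine ⟨?_, ?_, ?_, ?_, ?_, ?_, b8_dec nonneg supp sum⟩
  · intro u
    rw [hsr, hsr, b8P_neg]
  · intro u
    rw [hsr]
    have h1 : ∑ j ∈ Finset.range (N + 1), p j * b8P u ^ j ≤
        ∑ j ∈ Finset.range (N + 1), p j * b8P u := by
      apply Finset.sum_le_sum
      intro j _
      by_cases hj : p j = 0
      · rw [hj]; simp
      · have hj1 := (supp j hj).1
        apply mul_le_mul_of_nonneg_left _ (nonneg j)
        calc b8P u ^ j ≤ b8P u ^ 1 :=
              pow_le_pow_of_le_one (b8P_nonneg u) (b8P_lt_one u).le hj1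
          _ = b8P u := pow_one _
    rw [← Finset.sum_mul, sum, one_mul] at h1
    have := b8P_lt_one u
    linarith
  · intro u
    rw [hsr]
    have h1 : 0 ≤ ∑ j ∈ Finset.range (N + 1), p j * b8P u ^ j :=
      Finset.sum_nonneg fun j _ => mul_nonneg (nonneg j) (pow_nonneg (b8P_nonneg u) j)
    linarith
  · have h : sr N p = fun u => 1 - ∑ j ∈ Finset.range (N + 1), p j * b8P u ^ j := funext hsr
    rw [h]
    exact contDiff_const.sub (ContDiff.sum fun j _ => contDiff_const.mul (b8P_contDiff.pow j))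
  · intro u hu v hv huv
    rw [hsr, hsr]
    have h1 : ∑ j ∈ Finset.range (N + 1), p j * b8P u ^ j ≤
        ∑ j ∈ Finset.range (N + 1), p j * b8P v ^ j :=
      Finset.sum_le_sum fun j _ => mul_le_mul_of_nonneg_left
        (pow_le_pow_left₀ (b8P_nonneg u) (b8P_mono hu huv) j) (nonneg j)
    linarith
  · have h : sr N p = fun u => 1 - ∑ j ∈ Finset.range (N + 1), p j * b8P u ^ j := funext hsr
    rw [h]
    have h1 : Tendsto (fun u => ∑ j ∈ Finset.range (N + 1), p j * b8P u ^ j) atTop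
        (𝓝 (∑ j ∈ Finset.range (N + 1), p j * (1 : ℝ) ^ j)) :=
      tendsto_finsetSum _ fun j _ => (b8P_tendsto.pow j).const_mul (p j)
    have h2 : ∑ j ∈ Finset.range (N + 1), p j * (1 : ℝ) ^ j = 1 := by
      simp only [one_pow, mul_one]
      exact sum
    rw [h2] at h1
    have h3 := (tendsto_const_nhds (x := (1 : ℝ))).sub h1
    rw [sub_self] at h3
    exact h3

end H906C
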