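import Pool.Agent.H906R3.CY.Defs
import Pool.Agent.H906R3.CY.B3
import Pool.Agent.H906R3.CY.B7
import Pool.Agent.H906R3.CY.B8

/-!
# B9: the system
-/

namespace H906C

open Polynomial Filter Topology

theorem tba_of_spec {N : ℕ} {p : ℕ → ℝ} {t V : ℂ[X]} (h : Spec N p t V) :
    TBA N (sr N p) := by
  obtain ⟨h1, h2, h3, h4, h5, h6, h7⟩ := sr_props h.two_le h.nonneg h.supp h.sum
  obtain ⟨h8, h9⟩ := s_rep h
  refine ⟨h.even, h.two_le, h1, h2, h3, h4, h5, h6, h7, fun u => ?_, h9⟩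
  rw [← h8 u]
  have hre : ((u : ℂ) + Real.pi / 3 * Complex.I).re = u := by simp
  have him : ((u : ℂ) + Real.pi / 3 * Complex.I).im = Real.pi / 3 := by
    have e1 : ((Real.pi : ℂ) / 3) = ((Real.pi / 3 : ℝ) : ℂ) := by push_cast; rfl
    rw [e1]
    simp
  have hpi : |((u : ℂ) + Real.pi / 3 * Complex.I).im| ≤ Real.pi / 3 := by
    rw [him, abs_of_nonneg (by positivity)]
  have h10 := (sc_re h _ hpi).1
  rw [hre] at h10
  have h11 := Complex.re_le_norm (sc N p ((u : ℂ) + Real.pi / 3 * Complex.I))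
  have h12 : 0 ≤ Real.exp (-|u|) / 4 := by positivity
  have h13 : (Real.exp (-|u|) / 4) ^ 2 ≤ ‖sc N p ((u : ℂ) + Real.pi / 3 * Complex.I)‖ ^ 2 :=
    pow_le_pow_left₀ h12 (h10.trans h11) 2
  have h14 : Real.exp (-(2 * |u|)) = Real.exp (-|u|) ^ 2 := by
    rw [← Real.exp_nat_mul]
    congr 1
    push_cast
    ring
  rw [h14]
  calc Real.exp (-|u|) ^ 2 / 16 = (Real.exp (-|u|) / 4) ^ 2 := by ring
    _ ≤ _ := h13

end H906C
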