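import Pool.Agent.H906R3.CY.Defs

/-!
# The dilogarithm constants
-/

open MeasureTheory Set Filter Topology

namespace H906C

theorem c1_hasSum_alt : HasSum (fun n : ℕ => (-1 : ℝ) ^ n / (n : ℝ) ^ 2) (-(Real.pi ^ 2 / 12)) := by
  have h := hasSum_zeta_two
  have he : HasSum (fun m : ℕ => (1 : ℝ) / ((2 * m : ℕ) : ℝ) ^ 2) (1 / 4 * (Real.pi ^ 2 / 6)) := by
    have h1 := h.mul_left (1 / 4 : ℝ)
    have e : (fun m : ℕ => (1 : ℝ) / ((2 * m : ℕ) : ℝ) ^ 2) = fun m : ℕ => 1 / 4 * (1 / (m : ℝ) ^ 2) := by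
      funext m
      push_cast
      ring
    rw [e]
    exact h1
  have ho : Summable (fun m : ℕ => (1 : ℝ) / ((2 * m + 1 : ℕ) : ℝ) ^ 2) :=
    h.summable.comp_injective (i := fun m : ℕ => 2 * m + 1) (fun a b hab => by
      simp only at hab
      omega)
  have hov : ∑' m : ℕ, (1 : ℝ) / ((2 * m + 1 : ℕ) : ℝ) ^ 2 = Real.pi ^ 2 / 8 := by
    have h2 := (HasSum.even_add_odd (f := fun n : ℕ => (1 : ℝ) / (n : ℝ) ^ 2) he ho.hasSum).unique h
    linarith
  have ho' : HasSum (fun m : ℕ => (1 : ℝ) / ((2 * m + 1 : ℕ) : ℝ) ^ 2) (Real.pi ^ 2 / 8) := by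
    rw [← hov]
    exact ho.hasSum
  have h3 : HasSum (fun n : ℕ => (-1 : ℝ) ^ n / (n : ℝ) ^ 2) (1 / 4 * (Real.pi ^ 2 / 6) + -(Real.pi ^ 2 / 8)) := by
    refine HasSum.even_add_odd ?_ ?_
    · have e : (fun m : ℕ => (-1 : ℝ) ^ (2 * m) / ((2 * m : ℕ) : ℝ) ^ 2) =
          fun m : ℕ => (1 : ℝ) / ((2 * m : ℕ) : ℝ) ^ 2 := by
        funext m
        rw [pow_mul]
        simp
      rw [e]
      exact he
    · have e : (fun m : ℕ => (-1 : ℝ) ^ (2 * m + 1) / ((2 * m + 1 : ℕ) : ℝ) ^ 2) =
          fun m : ℕ => -((1 : ℝ) / ((2 * m + 1 : ℕ) : ℝ) ^ 2) := by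
        funext m
        rw [pow_succ, pow_mul]
        norm_num
        ring
      rw [e]
      exact ho'.neg
  have h4 : 1 / 4 * (Real.pi ^ 2 / 6) + -(Real.pi ^ 2 / 8) = -(Real.pi ^ 2 / 12) := by ring
  rwa [h4] at h3

/-! ### integrability -/

theorem c1_int_F : IntervalIntegrable (fun t : ℝ => Real.log (1 - t) / t) volume 0 1 := by
  have hlog : IntervalIntegrable (fun t : ℝ => Real.log (1 - t)) volume 0 1 := by
    have h := (intervalIntegral.intervalIntegrable_log' (a := 1) (b := 0)).comp_sub_left 1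
    simpa using h
  have hb : IntervalIntegrable (fun t : ℝ => 2 + 2 * |Real.log (1 - t)|) volume 0 1 :=
    (intervalIntegrable_const).add (hlog.abs.const_mul 2)
  refine hb.mono_fun ?_ ?_
  · exact ((Real.measurable_log.comp (measurable_const.sub measurable_id)).div measurable_id).aestronglyMeasurable
  · rw [uIoc_of_le (zero_le_one : (0:ℝ) ≤ 1)]
    have hne : ∀ᵐ t ∂(volume.restrict (Ioc (0:ℝ) 1)), t ≠ 1 := by
      refine ae_restrict_of_ae ?_
      exact (measure_eq_zero_iff_ae_notMem.1 (measure_singleton (1:ℝ))).mono (fun t ht => by simpa using ht)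
    filter_upwards [hne, ae_restrict_mem measurableSet_Ioc] with t h1 ht
    have ht1 : t < 1 := lt_of_le_of_ne ht.2 h1
    have ht0 : 0 < t := ht.1
    have hneg : Real.log (1 - t) ≤ 0 := Real.log_nonpos (by linarith) (by linarith)
    rw [Real.norm_eq_abs, Real.norm_eq_abs, abs_div, abs_of_pos ht0,
      abs_of_nonneg (by positivity : (0:ℝ) ≤ 2 + 2 * |Real.log (1 - t)|), div_le_iff₀ ht0]
    rcases le_total t (1/2) with h | h
    · -- -log(1-t) ≤ t/(1-t) ≤ 2 t
      have h2 : 1 - (1 - t)⁻¹ ≤ Real.log (1 - t) := by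
        have := Real.one_sub_inv_le_log_of_pos (by linarith : 0 < 1 - t)
        exact this
      have h3 : (1 - t)⁻¹ ≤ 1 + 2 * t := by
        rw [inv_le_iff_one_le_mul₀ (by linarith)]
        nlinarith
      rw [abs_of_nonpos hneg]
      nlinarith [mul_nonneg ht0.le (neg_nonneg.2 hneg)]
    · have : |Real.log (1 - t)| ≤ 2 * |Real.log (1 - t)| * t := by
        nlinarith [abs_nonneg (Real.log (1 - t))]
      nlinarith

theorem c1_cont_G : Continuous (fun t : ℝ => 2 * t * Real.log t / (1 + t ^ 2)) := by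
  have h : Continuous (fun t : ℝ => 2 * (t * Real.log t) / (1 + t ^ 2)) := by
    refine Continuous.div (continuous_const.mul Real.continuous_mul_log) (by fun_prop) ?_
    intro t
    positivity
  refine h.congr fun t => by ring

/-! ### the values -/

theorem Fd_one : Fd 1 = -(Real.pi ^ 2 / 6) := by
  unfold Fd
  rw [intervalIntegral.integral_of_le zero_le_one]
  set F : ℕ → ℝ → ℝ := fun n t => -(t ^ n / (n + 1)) with hF
  have hval : ∀ n : ℕ, ∫ t in Ioc (0:ℝ) 1, F n t = -(1 / ((n:ℝ) + 1) ^ 2) := by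
    intro n
    rw [← intervalIntegral.integral_of_le zero_le_one]
    simp only [hF]
    rw [intervalIntegral.integral_neg, intervalIntegral.integral_div, integral_pow]
    have : ((n:ℝ) + 1) ≠ 0 := by positivity
    field_simp
    simp
  have hnorm : ∀ n : ℕ, ∫ t in Ioc (0:ℝ) 1, ‖F n t‖ = 1 / ((n:ℝ) + 1) ^ 2 := by
    intro n
    have h1 : ∫ t in Ioc (0:ℝ) 1, ‖F n t‖ = ∫ t in Ioc (0:ℝ) 1, -(F n t) := by
      refine setIntegral_congr_fun measurableSet_Ioc fun t ht => ?_
      simp only [hF]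
      rw [Real.norm_eq_abs, abs_neg, neg_neg, abs_of_nonneg]
      have := ht.1.le
      positivity
    rw [h1, integral_neg, hval, neg_neg]
  have hsum0 : Summable (fun n : ℕ => 1 / ((n:ℝ) + 1) ^ 2) := by
    have := (summable_nat_add_iff 1).2 (hasSum_zeta_two.summable)
    refine this.congr fun n => ?_
    push_cast
    rfl
  have hint : ∀ n : ℕ, Integrable (F n) (volume.restrict (Ioc (0:ℝ) 1)) := by
    intro n
    have hc : Continuous (F n) := by simp only [hF]; fun_prop
    exact (hc.integrableOn_Icc (a := 0) (b := 1)).mono_set Ioc_subset_Icc_self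
  have hs := hasSum_integral_of_summable_integral_norm hint (by simpa only [hnorm] using hsum0)
  have hae : ∫ t in Ioc (0:ℝ) 1, (∑' n, F n t) = ∫ t in Ioc (0:ℝ) 1, Real.log (1 - t) / t := by
    rw [integral_Ioc_eq_integral_Ioo, integral_Ioc_eq_integral_Ioo]
    refine setIntegral_congr_fun measurableSet_Ioo fun t ht => ?_
    have h1 := Real.hasSum_pow_div_log_of_abs_lt_one (x := t) (by rw [abs_of_pos ht.1]; exact ht.2)
    have h2 : HasSum (fun n : ℕ => F n t) (Real.log (1 - t) / t) := by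
      have h3 := (h1.div_const t).neg
      have h4 : -(-Real.log (1 - t) / t) = Real.log (1 - t) / t := by ring
      rw [h4] at h3
      have h5 : (fun n : ℕ => F n t) = fun n : ℕ => -(t ^ (n + 1) / ((n:ℝ) + 1) / t) := by
        funext n
        have h6 : ((n:ℝ) + 1) ≠ 0 := by positivity
        have h7 : t ≠ 0 := ht.1.ne'
        simp only [hF]
        field_simp
        ring
      rw [h5]
      exact h3
    exact h2.tsum_eq
  rw [← hae]
  simp only [hval] at hs
  refine hs.unique ?_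
  have h5 : HasSum (fun n : ℕ => 1 / ((n:ℝ) + 1) ^ 2) (Real.pi ^ 2 / 6) := by
    have := (hasSum_nat_add_iff' 1).2 hasSum_zeta_two
    simpa using this
  exact h5.neg

theorem c1_int_pow_log (k : ℕ) :
    ∫ t in (0:ℝ)..1, t ^ (2 * k + 1) * Real.log t = -(1 / (2 * (k:ℝ) + 2) ^ 2) := by
  have hc : Continuous (fun t : ℝ => t ^ (2 * k + 1) * Real.log t) := by
    have : Continuous (fun t : ℝ => t ^ (2 * k) * (t * Real.log t)) :=
      (continuous_pow _).mul Real.continuous_mul_log
    refine this.congr fun t => by ring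
  have hk : (2 * (k:ℝ) + 2) ≠ 0 := by positivity
  have h := intervalIntegral.integral_eq_sub_of_hasDerivAt_of_le (a := 0) (b := 1)
    (f := fun t : ℝ => t ^ (2 * k + 1) * (t * Real.log t) / (2 * (k:ℝ) + 2)
      - t ^ (2 * k + 2) / (2 * (k:ℝ) + 2) ^ 2)
    (f' := fun t : ℝ => t ^ (2 * k + 1) * Real.log t) zero_le_one ?_ ?_ (hc.intervalIntegrable _ _)
  · rw [h]
    simp
  · refine Continuous.continuousOn ?_
    exact (((continuous_pow _).mul Real.continuous_mul_log).div_const _).sub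
      ((continuous_pow _).div_const _)
  · intro t ht
    have ht0 : t ≠ 0 := ht.1.ne'
    have h1 := (Real.hasDerivAt_log ht0).fun_mul (hasDerivAt_pow (2 * k + 2) t)
    have h2 := ((h1.div_const (2 * (k:ℝ) + 2)).sub
      ((hasDerivAt_pow (2 * k + 2) t).div_const ((2 * (k:ℝ) + 2) ^ 2)))
    refine (h2.congr_of_eventuallyEq ?_).congr_deriv ?_
    · refine Eventually.of_forall fun u => ?_
      simp only [Pi.sub_apply]
      ring
    · have e1 : t⁻¹ * t ^ (2 * k + 2) = t ^ (2 * k + 1) := by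
        rw [pow_succ t (2 * k + 1)]
        field_simp
      have e2 : (2 * k + 2 - 1) = 2 * k + 1 := by omega
      rw [e1, e2]
      push_cast
      field_simp
      ring

theorem Gd_one : Gd 1 = -(Real.pi ^ 2 / 24) := by
  unfold Gd
  rw [intervalIntegral.integral_of_le zero_le_one]
  set F : ℕ → ℝ → ℝ := fun n t => (-1) ^ n * (2 * (t ^ (2 * n + 1) * Real.log t)) with hF
  have hc : ∀ k : ℕ, Continuous (fun t : ℝ => t ^ (2 * k + 1) * Real.log t) := by
    intro k
    have : Continuous (fun t : ℝ => t ^ (2 * k) * (t * Real.log t)) :=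
      (continuous_pow _).mul Real.continuous_mul_log
    refine this.congr fun t => by ring
  have hval : ∀ n : ℕ, ∫ t in Ioc (0:ℝ) 1, F n t = (-1) ^ n * (2 * -(1 / (2 * (n:ℝ) + 2) ^ 2)) := by
    intro n
    rw [← intervalIntegral.integral_of_le zero_le_one]
    simp only [hF]
    rw [intervalIntegral.integral_const_mul, intervalIntegral.integral_const_mul, c1_int_pow_log]
  have hnorm : ∀ n : ℕ, ∫ t in Ioc (0:ℝ) 1, ‖F n t‖ = 2 * (1 / (2 * (n:ℝ) + 2) ^ 2) := by
    intro n
    have h1 : ∫ t in Ioc (0:ℝ) 1, ‖F n t‖ = ∫ t in Ioc (0:ℝ) 1, -(2 * (t ^ (2 * n + 1) * Real.log t)) := by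
      refine setIntegral_congr_fun measurableSet_Ioc fun t ht => ?_
      simp only [hF]
      have h2 : Real.log t ≤ 0 := Real.log_nonpos ht.1.le ht.2
      have h3 : 0 ≤ t ^ (2 * n + 1) := pow_nonneg ht.1.le _
      have h4 : 2 * (t ^ (2 * n + 1) * Real.log t) ≤ 0 := by nlinarith
      rw [norm_mul, norm_pow, norm_neg, norm_one, one_pow, one_mul, Real.norm_eq_abs, abs_of_nonpos h4]
    rw [h1, integral_neg, ← intervalIntegral.integral_of_le zero_le_one,
      intervalIntegral.integral_const_mul, c1_int_pow_log]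
    ring
  have hsumq : Summable (fun n : ℕ => 1 / ((n:ℝ) + 1) ^ 2) := by
    have := (summable_nat_add_iff 1).2 (hasSum_zeta_two.summable)
    refine this.congr fun n => ?_
    push_cast
    rfl
  have hsum0 : Summable (fun n : ℕ => 2 * (1 / (2 * (n:ℝ) + 2) ^ 2)) := by
    refine (hsumq.mul_left (1/2)).congr fun n => ?_
    have : ((n:ℝ) + 1) ≠ 0 := by positivity
    have h2 : (2 * (n:ℝ) + 2) = 2 * ((n:ℝ) + 1) := by ring
    rw [h2]
    field_simp
  have hint : ∀ n : ℕ, Integrable (F n) (volume.restrict (Ioc (0:ℝ) 1)) := by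
    intro n
    have hcc : Continuous (F n) := continuous_const.mul (continuous_const.mul (hc n))
    exact (hcc.integrableOn_Icc (a := 0) (b := 1)).mono_set Ioc_subset_Icc_self
  have hs := hasSum_integral_of_summable_integral_norm hint (by simpa only [hnorm] using hsum0)
  have hae : ∫ t in Ioc (0:ℝ) 1, (∑' n, F n t) =
      ∫ t in Ioc (0:ℝ) 1, 2 * t * Real.log t / (1 + t ^ 2) := by
    rw [integral_Ioc_eq_integral_Ioo, integral_Ioc_eq_integral_Ioo]
    refine setIntegral_congr_fun measurableSet_Ioo fun t ht => ?_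
    have hlt : |-(t ^ 2)| < 1 := by
      rw [abs_neg, abs_of_nonneg (by positivity)]
      nlinarith [ht.1, ht.2]
    have h1 := (hasSum_geometric_of_abs_lt_one hlt).mul_left (2 * t * Real.log t)
    have h2 : HasSum (fun n : ℕ => F n t) (2 * t * Real.log t / (1 + t ^ 2)) := by
      have h4 : 2 * t * Real.log t * (1 - -(t ^ 2))⁻¹ = 2 * t * Real.log t / (1 + t ^ 2) := by
        rw [sub_neg_eq_add, div_eq_mul_inv]
      rw [h4] at h1
      have h5 : (fun n : ℕ => F n t) = fun n : ℕ => 2 * t * Real.log t * (-t ^ 2) ^ n := by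
        funext n
        simp only [hF]
        rw [neg_pow (t ^ 2) n, ← pow_mul, pow_succ t (2 * n)]
        ring
      rw [h5]
      exact h1
    exact h2.tsum_eq
  rw [← hae]
  simp only [hval] at hs
  refine hs.unique ?_
  have h5 : HasSum (fun n : ℕ => (-1 : ℝ) ^ (n + 1) / ((n:ℝ) + 1) ^ 2) (-(Real.pi ^ 2 / 12)) := by
    have := (hasSum_nat_add_iff' 1).2 c1_hasSum_alt
    simpa using this
  have h6 := h5.mul_left (1/2 : ℝ)
  have h7 : (1/2 : ℝ) * -(Real.pi ^ 2 / 12) = -(Real.pi ^ 2 / 24) := by ring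
  rw [h7] at h6
  have h8 : (fun n : ℕ => (-1 : ℝ) ^ n * (2 * -(1 / (2 * (n:ℝ) + 2) ^ 2))) =
      fun n : ℕ => 1 / 2 * ((-1 : ℝ) ^ (n + 1) / ((n:ℝ) + 1) ^ 2) := by
    funext n
    have : ((n:ℝ) + 1) ≠ 0 := by positivity
    have h2 : (2 * (n:ℝ) + 2) = 2 * ((n:ℝ) + 1) := by ring
    rw [h2]
    field_simp
    ring
  rw [h8]
  exact h6

theorem Fd_cont : ContinuousOn Fd (Set.Icc 0 1) := by
  have h := intervalIntegral.continuousOn_primitive_interval' c1_int_F
    (left_mem_uIcc (a := (0:ℝ)) (b := 1))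
  rw [uIcc_of_le zero_le_one] at h
  exact h

theorem Gd_deriv_all (r : ℝ) : HasDerivAt Gd (2 * r * Real.log r / (1 + r ^ 2)) r :=
  intervalIntegral.integral_hasDerivAt_right (c1_cont_G.intervalIntegrable _ _)
    c1_cont_G.stronglyMeasurable.stronglyMeasurableAtFilter c1_cont_G.continuousAt

theorem Gd_cont : ContinuousOn Gd (Set.Icc 0 1) :=
  fun r _ => (Gd_deriv_all r).continuousAt.continuousWithinAt

theorem Fd_deriv (r : ℝ) (h0 : 0 < r) (h1 : r < 1) :
    HasDerivAt Fd (Real.log (1 - r) / r) r := by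
  refine intervalIntegral.integral_hasDerivAt_right (c1_int_F.mono_set ?_) ?_ ?_
  · rw [uIcc_of_le h0.le, uIcc_of_le zero_le_one]
    exact Icc_subset_Icc le_rfl h1.le
  · refine (Measurable.stronglyMeasurable ?_).stronglyMeasurableAtFilter
    exact (Real.measurable_log.comp (measurable_const.sub measurable_id)).div measurable_id
  · refine ContinuousAt.div (ContinuousAt.log (by fun_prop) (by linarith)) continuousAt_id h0.ne'

set_option linter.unusedVariables false in
theorem Gd_deriv (r : ℝ) (h0 : 0 < r) :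
    HasDerivAt Gd (2 * r * Real.log r / (1 + r ^ 2)) r := Gd_deriv_all r

end H906C
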