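import Pool.Agent.H906R3.CY.Defs2
import Pool.Agent.H906R3.K6.A2a
import Pool.Agent.H906R3.K6.A2b

/-!
# Basic properties of `log (1 + (w³-3w) s + s²)` and of its convolution with the kernel
-/

namespace H906C
open MeasureTheory Filter Topology

/-- the constant `w³ - 3w` -/
noncomputable def e2a_c (w : ℝ) : ℝ := w ^ 3 - 3 * w

theorem e2a_c_lt {w : ℝ} (w0 : 0 < w) (w2 : w < 2) (w1 : w ≠ 1) :
    -2 < e2a_c w ∧ e2a_c w < 2 := by
  unfold e2a_c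
  have h1 : 0 < (w - 1) ^ 2 := by
    have : w - 1 ≠ 0 := sub_ne_zero.2 w1
    positivity
  have h2 : 0 < (w + 1) ^ 2 := by positivity
  constructor
  · nlinarith [mul_pos h1 (by linarith : 0 < w + 2)]
  · nlinarith [mul_pos h2 (by linarith : 0 < 2 - w)]

theorem e2a_m_pos {w : ℝ} (w0 : 0 < w) (w2 : w < 2) (w1 : w ≠ 1) :
    0 < 1 - (w ^ 3 - 3 * w) ^ 2 / 4 := by
  have h := e2a_c_lt w0 w2 w1
  unfold e2a_c at h
  nlinarith [h.1, h.2]

theorem e2a_Q {w : ℝ} (t : ℝ) :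
    1 - (w ^ 3 - 3 * w) ^ 2 / 4 ≤ 1 + (w ^ 3 - 3 * w) * t + t ^ 2 := by
  nlinarith [sq_nonneg ((w ^ 3 - 3 * w) / 2 + t)]

theorem e2a_s {N : ℕ} {w : ℝ} {s : ℝ → ℝ} (h : TBAW N w s) (u : ℝ) :
    0 < s u ∧ s u ≤ 2 ∧ |s u - w| ≤ 1 := by
  have w0 := h.w0
  have w2 := h.w2
  rcases lt_or_gt_of_ne h.w1 with hw | hw
  · have h1 := (h.bet u).1 hw
    refine ⟨by linarith, by linarith, ?_⟩
    rw [abs_le]
    constructor <;> linarith
  · have h1 := (h.bet u).2 hw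
    refine ⟨by linarith, by linarith, ?_⟩
    rw [abs_le]
    constructor <;> linarith

theorem e2a_Qpos {N : ℕ} {w : ℝ} {s : ℝ → ℝ} (h : TBAW N w s) (u : ℝ) :
    0 < 1 + (w ^ 3 - 3 * w) * s u + s u ^ 2 :=
  lt_of_lt_of_le (e2a_m_pos h.w0 h.w2 h.w1) (e2a_Q (s u))

theorem e2a_Q9 {N : ℕ} {w : ℝ} {s : ℝ → ℝ} (h : TBAW N w s) (u : ℝ) :
    1 + (w ^ 3 - 3 * w) * s u + s u ^ 2 ≤ 9 := by
  have h1 := e2a_c_lt h.w0 h.w2 h.w1
  unfold e2a_c at h1
  obtain ⟨h2, h3, -⟩ := e2a_s h u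
  nlinarith [mul_le_mul_of_nonneg_right h1.2.le h2.le]

theorem e2a_hasDeriv_s {N : ℕ} {w : ℝ} {s : ℝ → ℝ} (h : TBAW N w s) (u : ℝ) :
    HasDerivAt s (deriv s u) u :=
  ((h.diff.differentiable (by norm_num)) u).hasDerivAt

theorem e2a_hasDeriv {N : ℕ} {w : ℝ} {s : ℝ → ℝ} (h : TBAW N w s) (u : ℝ) :
    HasDerivAt (LW w s) (((w ^ 3 - 3 * w) + 2 * s u) * deriv s u
      / (1 + (w ^ 3 - 3 * w) * s u + s u ^ 2)) u := by
  have h1 := e2a_hasDeriv_s h u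
  have h2 : HasDerivAt (fun u => 1 + (w ^ 3 - 3 * w) * s u + s u ^ 2)
      (((w ^ 3 - 3 * w) + 2 * s u) * deriv s u) u := by
    have h3 := ((h1.const_mul (w ^ 3 - 3 * w)).const_add 1).add (h1.pow 2)
    refine h3.congr_deriv ?_
    push_cast
    ring
  exact h2.log (e2a_Qpos h u).ne'

theorem e2a_cont {N : ℕ} {w : ℝ} {s : ℝ → ℝ} (h : TBAW N w s) : ContDiff ℝ 1 (LW w s) := by
  unfold LW
  exact ((contDiff_const.add (contDiff_const.mul h.diff)).add (h.diff.pow 2)).log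
    (fun u => (e2a_Qpos h u).ne')

theorem e2a_le {N : ℕ} {w : ℝ} {s : ℝ → ℝ} (h : TBAW N w s) (u : ℝ) :
    LW w s u ≤ Real.log 9 := by
  unfold LW
  exact Real.log_le_log (e2a_Qpos h u) (e2a_Q9 h u)

theorem e2a_ge {N : ℕ} {w : ℝ} {s : ℝ → ℝ} (h : TBAW N w s) (u : ℝ) :
    Real.log (1 - (w ^ 3 - 3 * w) ^ 2 / 4) ≤ LW w s u := by
  unfold LW
  exact Real.log_le_log (e2a_m_pos h.w0 h.w2 h.w1) (e2a_Q (s u))

theorem e2a_abs_L {N : ℕ} {w : ℝ} {s : ℝ → ℝ} (h : TBAW N w s) (u : ℝ) :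
    |LW w s u| ≤ Real.log 9 - Real.log (1 - (w ^ 3 - 3 * w) ^ 2 / 4) := by
  have h1 := e2a_le h u
  have h2 := e2a_ge h u
  have h3 : 0 ≤ Real.log 9 := Real.log_nonneg (by norm_num)
  have h4 : Real.log (1 - (w ^ 3 - 3 * w) ^ 2 / 4) ≤ 0 :=
    Real.log_nonpos (e2a_m_pos h.w0 h.w2 h.w1).le (by nlinarith [sq_nonneg (w ^ 3 - 3 * w)])
  rw [abs_le]
  constructor <;> linarith

theorem e2a_even {N : ℕ} {w : ℝ} {s : ℝ → ℝ} (h : TBAW N w s) (u : ℝ) :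
    LW w s (-u) = LW w s u := by
  unfold LW
  rw [h.sym]

theorem e2a_odd {N : ℕ} {w : ℝ} {s : ℝ → ℝ} (h : TBAW N w s) (u : ℝ) :
    deriv (LW w s) (-u) = -deriv (LW w s) u := by
  have h1 : deriv (fun x => LW w s (-x)) u = -deriv (LW w s) (-u) := deriv_comp_neg _ _
  have h2 : (fun x => LW w s (-x)) = LW w s := funext (e2a_even h)
  rw [h2] at h1
  linarith

theorem e2a_abs {N : ℕ} {w : ℝ} {s : ℝ → ℝ} (h : TBAW N w s) (u : ℝ) :
    |deriv (LW w s) u| ≤ 6 / (1 - (w ^ 3 - 3 * w) ^ 2 / 4) * |deriv s u| := by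
  rw [(e2a_hasDeriv h u).deriv]
  have hc := e2a_c_lt h.w0 h.w2 h.w1
  unfold e2a_c at hc
  obtain ⟨h2, h3, -⟩ := e2a_s h u
  have hm := e2a_m_pos h.w0 h.w2 h.w1
  have hQ := e2a_Qpos h u
  have h1 : |(w ^ 3 - 3 * w) + 2 * s u| ≤ 6 := by
    rw [abs_le]
    constructor <;> linarith
  rw [abs_div, abs_mul, abs_of_pos hQ]
  calc |(w ^ 3 - 3 * w) + 2 * s u| * |deriv s u| / (1 + (w ^ 3 - 3 * w) * s u + s u ^ 2)
      ≤ 6 * |deriv s u| / (1 - (w ^ 3 - 3 * w) ^ 2 / 4) := by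
        gcongr
        exact e2a_Q (s u)
    _ = 6 / (1 - (w ^ 3 - 3 * w) ^ 2 / 4) * |deriv s u| := by ring

theorem e2a_cont_deriv {N : ℕ} {w : ℝ} {s : ℝ → ℝ} (h : TBAW N w s) :
    Continuous (deriv (LW w s)) :=
  (e2a_cont h).continuous_deriv (le_refl 1)

theorem e2a_exp_integrable (a : ℝ) (ha : 0 < a) :
    Integrable (fun l : ℝ => Real.exp (-(a * |l|))) := by
  rw [← integrableOn_univ, ← Set.Iic_union_Ioi (a := (0 : ℝ))]
  refine IntegrableOn.union ?_ ?_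
  · refine (integrableOn_exp_mul_Iic (a := a) ha 0).congr_fun ?_ measurableSet_Iic
    intro x hx
    simp only [Set.mem_Iic] at hx
    simp only
    congr 1
    rw [abs_of_nonpos hx]; ring
  · refine (exp_neg_integrableOn_Ioi 0 (b := a) ha).congr_fun ?_ measurableSet_Ioi
    intro x hx
    simp only [Set.mem_Ioi] at hx
    simp only
    congr 1
    rw [abs_of_pos hx]; ring

theorem e2a_dec {N : ℕ} {w : ℝ} {s : ℝ → ℝ} (h : TBAW N w s) :
    ∃ K, ∀ u, |deriv (LW w s) u| ≤ K * Real.exp (-|u|) := by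
  obtain ⟨K, hK⟩ := h.dec
  have hm := e2a_m_pos h.w0 h.w2 h.w1
  refine ⟨6 / (1 - (w ^ 3 - 3 * w) ^ 2 / 4) * K, fun u => (e2a_abs h u).trans ?_⟩
  rw [mul_assoc]
  exact mul_le_mul_of_nonneg_left (hK u).2 (by positivity)

theorem e2a_int_all {N : ℕ} {w : ℝ} {s : ℝ → ℝ} (h : TBAW N w s) :
    Integrable (deriv (LW w s)) := by
  obtain ⟨K, hK⟩ := e2a_dec h
  have h1 : Integrable (fun u : ℝ => K * Real.exp (-|u|)) := by
    have := (e2a_exp_integrable 1 one_pos).const_mul K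
    simpa using this
  refine h1.mono' (e2a_cont_deriv h).aestronglyMeasurable ?_
  exact Eventually.of_forall fun u => by
    rw [Real.norm_eq_abs]
    exact hK u

theorem e2a_int_s {N : ℕ} {w : ℝ} {s : ℝ → ℝ} (h : TBAW N w s) :
    IntegrableOn (deriv s) (Set.Ioi 0) ∧ ∫ u in Set.Ioi (0 : ℝ), |deriv s u| ≤ 1 := by
  have h0 := (e2a_s h 0).2.2
  rw [abs_le] at h0
  rcases lt_or_gt_of_ne h.w1 with hw | hw
  · have hneg : ∀ x ∈ Set.Ioi (0 : ℝ), deriv s x ≤ 0 := by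
      intro x hx
      have h1 : derivWithin s (Set.Ici 0) x ≤ 0 := (h.mono.1 hw).derivWithin_nonpos
      rwa [derivWithin_of_mem_nhds (Ici_mem_nhds hx)] at h1
    refine ⟨integrableOn_Ioi_deriv_of_nonpos (h.diff.continuous.continuousWithinAt)
      (fun x _ => e2a_hasDeriv_s h x) hneg h.top, ?_⟩
    have h1 : ∫ u in Set.Ioi (0 : ℝ), deriv s u = w - s 0 :=
      integral_Ioi_of_hasDerivAt_of_nonpos (h.diff.continuous.continuousWithinAt)
        (fun x _ => e2a_hasDeriv_s h x) hneg h.top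
    have h2 : ∫ u in Set.Ioi (0 : ℝ), |deriv s u| = ∫ u in Set.Ioi (0 : ℝ), -deriv s u :=
      setIntegral_congr_fun measurableSet_Ioi fun u hu => abs_of_nonpos (hneg u hu)
    rw [h2, integral_neg, h1]
    linarith
  · have hpos : ∀ x ∈ Set.Ioi (0 : ℝ), 0 ≤ deriv s x := by
      intro x hx
      have h1 : 0 ≤ derivWithin s (Set.Ici 0) x := (h.mono.2 hw).derivWithin_nonneg
      rwa [derivWithin_of_mem_nhds (Ici_mem_nhds hx)] at h1
    refine ⟨integrableOn_Ioi_deriv_of_nonneg (h.diff.continuous.continuousWithinAt)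
      (fun x _ => e2a_hasDeriv_s h x) hpos h.top, ?_⟩
    have h1 : ∫ u in Set.Ioi (0 : ℝ), deriv s u = w - s 0 :=
      integral_Ioi_of_hasDerivAt_of_nonneg (h.diff.continuous.continuousWithinAt)
        (fun x _ => e2a_hasDeriv_s h x) hpos h.top
    have h2 : ∫ u in Set.Ioi (0 : ℝ), |deriv s u| = ∫ u in Set.Ioi (0 : ℝ), deriv s u :=
      setIntegral_congr_fun measurableSet_Ioi fun u hu => abs_of_nonneg (hpos u hu)
    rw [h2, h1]
    linarith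

theorem e2a_le_one {N : ℕ} {w : ℝ} {s : ℝ → ℝ} (h : TBAW N w s) :
    ∫ u in Set.Ioi (0 : ℝ), |deriv (LW w s) u| ≤ 6 / (1 - (w ^ 3 - 3 * w) ^ 2 / 4) := by
  obtain ⟨h1, h2⟩ := e2a_int_s h
  have hm := e2a_m_pos h.w0 h.w2 h.w1
  have h3 : ∫ u in Set.Ioi (0 : ℝ), |deriv (LW w s) u|
      ≤ ∫ u in Set.Ioi (0 : ℝ), 6 / (1 - (w ^ 3 - 3 * w) ^ 2 / 4) * |deriv s u| :=
    setIntegral_mono_on (e2a_int_all h).integrableOn.norm (h1.norm.const_mul _)
      measurableSet_Ioi (fun u _ => e2a_abs h u)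
  rw [integral_const_mul] at h3
  refine h3.trans ?_
  calc 6 / (1 - (w ^ 3 - 3 * w) ^ 2 / 4) * ∫ u in Set.Ioi (0 : ℝ), |deriv s u|
      ≤ 6 / (1 - (w ^ 3 - 3 * w) ^ 2 / 4) * 1 :=
        mul_le_mul_of_nonneg_left h2 (by positivity)
    _ = _ := mul_one _

theorem e2a_top {N : ℕ} {w : ℝ} {s : ℝ → ℝ} (h : TBAW N w s) :
    Tendsto (LW w s) atTop (𝓝 (2 * Real.log |1 - w ^ 2|)) := by
  have hQw : 1 + (w ^ 3 - 3 * w) * w + w ^ 2 ≠ 0 :=
    (lt_of_lt_of_le (e2a_m_pos h.w0 h.w2 h.w1) (e2a_Q w)).ne'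
  have h2 : Tendsto (fun u => Real.log (1 + (w ^ 3 - 3 * w) * s u + s u ^ 2)) atTop
      (𝓝 (Real.log (1 + (w ^ 3 - 3 * w) * w + w ^ 2))) :=
    (((h.top.const_mul (w ^ 3 - 3 * w)).const_add 1).add (h.top.pow 2)).log hQw
  have h3 : Real.log (1 + (w ^ 3 - 3 * w) * w + w ^ 2) = 2 * Real.log |1 - w ^ 2| := by
    have h4 : 1 + (w ^ 3 - 3 * w) * w + w ^ 2 = |1 - w ^ 2| ^ 2 := by
      rw [sq_abs]
      ring
    rw [h4, Real.log_pow]
    norm_num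
  rw [h3] at h2
  exact h2

theorem LW_props {N : ℕ} {w : ℝ} {s : ℝ → ℝ} (h : TBAW N w s) :
    ContDiff ℝ 1 (LW w s) ∧ (∀ u, LW w s u ≤ Real.log 9) ∧ (∃ K, ∀ u, |LW w s u| ≤ K) ∧
    (∀ u, LW w s (-u) = LW w s u) ∧
    (∀ u, deriv (LW w s) (-u) = -deriv (LW w s) u) ∧
    (∀ u, deriv (LW w s) u = ((w ^ 3 - 3 * w) + 2 * s u) * deriv s u
      / (1 + (w ^ 3 - 3 * w) * s u + s u ^ 2)) ∧
    Integrable (deriv (LW w s)) ∧
    ∫ u in Set.Ioi (0 : ℝ), |deriv (LW w s) u| ≤ 6 / (1 - (w ^ 3 - 3 * w) ^ 2 / 4) ∧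
    Tendsto (LW w s) atTop (𝓝 (2 * Real.log |1 - w ^ 2|)) ∧
    ∃ K, ∀ u, |deriv (LW w s) u| ≤ K * Real.exp (-|u|) :=
  ⟨e2a_cont h, e2a_le h, ⟨_, e2a_abs_L h⟩, e2a_even h, e2a_odd h,
    fun u => (e2a_hasDeriv h u).deriv, e2a_int_all h, e2a_le_one h, e2a_top h, e2a_dec h⟩

theorem e2a_nice {N : ℕ} {w : ℝ} {s : ℝ → ℝ} (h : TBAW N w s) : H906K.Nice (LW w s) :=
  ⟨(e2a_cont h).differentiable (by norm_num), e2a_cont_deriv h, e2a_int_all h⟩

theorem e2a_bw_le {N : ℕ} {w : ℝ} {s : ℝ → ℝ} (h : TBAW N w s) (u : ℝ) :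
    bw w s u ≤ Real.log 3 := by
  have hc : Continuous (LW w s) := (e2a_cont h).continuous
  have h1 : Integrable (fun v : ℝ => H906K.kk (u - v) * LW w s v) := by
    refine ((H906K.a2a_integrable_shift u).mul_const
      (Real.log 9 - Real.log (1 - (w ^ 3 - 3 * w) ^ 2 / 4))).mono'
      ((H906K.kk_cont.comp (continuous_const.sub continuous_id)).mul hc).aestronglyMeasurable ?_
    refine Eventually.of_forall fun v => ?_
    rw [norm_mul, Real.norm_eq_abs, Real.norm_eq_abs, abs_of_pos (H906K.kk_pos _)]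
    exact mul_le_mul_of_nonneg_left (e2a_abs_L h v) (H906K.kk_pos _).le
  have h2 : bw w s u ≤ ∫ v : ℝ, H906K.kk (u - v) * Real.log 9 :=
    integral_mono h1 ((H906K.a2a_integrable_shift u).mul_const _)
      fun v => mul_le_mul_of_nonneg_left (e2a_le h v) (H906K.kk_pos _).le
  rw [integral_mul_const, H906K.a2a_integral_shift] at h2
  have h3 : Real.log 9 = 2 * Real.log 3 := by
    rw [show (9 : ℝ) = 3 ^ 2 by norm_num, Real.log_pow]
    norm_num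
  rw [h3] at h2
  linarith

theorem e2a_conv_dec (f : ℝ → ℝ) (K : ℝ)
    (hK : ∀ u, |f u| ≤ K * Real.exp (-|u|)) :
    ∃ K', ∀ u, |∫ v : ℝ, H906K.kk (u - v) * f v| ≤ K' * Real.exp (-|u|) := by
  have hK0 : 0 ≤ K := by
    have := (abs_nonneg _).trans (hK 0)
    simpa using this
  refine ⟨K * ∫ x : ℝ, 3 / (2 * Real.pi) * Real.exp (-(1 / 2 * |x|)), fun u => ?_⟩
  have hE := (e2a_exp_integrable (1 / 2) (by norm_num)).const_mul (3 / (2 * Real.pi))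
  have hb : ∀ v, ‖H906K.kk (u - v) * f v‖ ≤
      K * Real.exp (-|u|) * (3 / (2 * Real.pi) * Real.exp (-(1 / 2 * |u - v|))) := by
    intro v
    rw [norm_mul, Real.norm_eq_abs, Real.norm_eq_abs, abs_of_pos (H906K.kk_pos _)]
    have h1 := H906K.kk_le (u - v)
    have h2 := hK v
    have h3 : |u| ≤ |u - v| + |v| := by
      have := abs_add_le (u - v) v
      simpa using this
    have hpi := Real.pi_pos
    calc H906K.kk (u - v) * |f v|
        ≤ (3 / (2 * Real.pi) * Real.exp (-(3 * |u - v| / 2))) * (K * Real.exp (-|v|)) :=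
          mul_le_mul h1 h2 (abs_nonneg _) (by positivity)
      _ = K * (3 / (2 * Real.pi)) * Real.exp (-(3 * |u - v| / 2) + -|v|) := by
          rw [Real.exp_add]; ring
      _ ≤ K * (3 / (2 * Real.pi)) * Real.exp (-|u| + -(1 / 2 * |u - v|)) := by
          refine mul_le_mul_of_nonneg_left (Real.exp_le_exp.2 ?_) (by positivity)
          linarith
      _ = K * Real.exp (-|u|) * (3 / (2 * Real.pi) * Real.exp (-(1 / 2 * |u - v|))) := by
          rw [Real.exp_add]; ring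
  have h1 := norm_integral_le_of_norm_le (f := fun v => H906K.kk (u - v) * f v)
    ((hE.comp_sub_left u).const_mul (K * Real.exp (-|u|))) (Eventually.of_forall hb)
  rw [Real.norm_eq_abs, integral_const_mul] at h1
  have h2 : ∫ v : ℝ, 3 / (2 * Real.pi) * Real.exp (-(1 / 2 * |u - v|))
      = ∫ x : ℝ, 3 / (2 * Real.pi) * Real.exp (-(1 / 2 * |x|)) :=
    integral_sub_left_eq_self (fun x : ℝ => 3 / (2 * Real.pi) * Real.exp (-(1 / 2 * |x|))) volume u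
  rw [h2] at h1
  refine h1.trans (le_of_eq ?_)
  ring

theorem bw_props {N : ℕ} {w : ℝ} {s : ℝ → ℝ} (h : TBAW N w s) :
    ContDiff ℝ 1 (bw w s) ∧ (∀ u, bw w s u ≤ Real.log 3) ∧
    (∀ u, bw w s (-u) = bw w s u) ∧
    (∀ u, deriv (bw w s) u = ∫ v : ℝ, H906K.kk (u - v) * deriv (LW w s) v) ∧
    Tendsto (bw w s) atTop (𝓝 (Real.log |1 - w ^ 2|)) ∧
    (∃ K, ∀ u, |deriv (bw w s) u| ≤ K * Real.exp (-|u|)) := by
  have hL := e2a_abs_L h
  have hc : Continuous (LW w s) := (e2a_cont h).continuous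
  obtain ⟨hn, hd⟩ := H906K.kk_conv_nice (LW w s) _ (e2a_nice h) hL
  refine ⟨?_, e2a_bw_le h, ?_, hd, ?_, ?_⟩
  · exact contDiff_one_iff_deriv.2 ⟨hn.1, hn.2.1⟩
  · intro u
    unfold bw
    rw [← integral_neg_eq_self (fun v => H906K.kk (-u - v) * LW w s v)]
    congr 1
    ext v
    rw [e2a_even h, ← H906K.kk_even]
    congr 2
    ring
  · have h3 := H906K.kk_conv_top (LW w s) _ _ hc hL (e2a_top h)
    have h4 : 2 * Real.log |1 - w ^ 2| / 2 = Real.log |1 - w ^ 2| := by ring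
    rw [h4] at h3
    exact h3
  · obtain ⟨K, hK⟩ := e2a_dec h
    obtain ⟨K', hK'⟩ := e2a_conv_dec (deriv (LW w s)) K hK
    refine ⟨K', fun u => ?_⟩
    have h5 : deriv (bw w s) u = ∫ v : ℝ, H906K.kk (u - v) * deriv (LW w s) v := hd u
    rw [h5]
    exact hK' u

end H906C
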