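import Pool.Agent.H906R3.CY.Defs
import Pool.Agent.H906R3.K6.A2a
import Pool.Agent.H906R3.K6.A2b
import Pool.Agent.H906R3.CY.E2a

/-!
# Basic properties of `log (1 + s²)` and of its convolution with the kernel
-/

namespace H906C
open MeasureTheory Filter Topology

theorem c2a_hasDeriv_s {N : ℕ} {s : ℝ → ℝ} (h : TBA N s) (u : ℝ) :
    HasDerivAt s (deriv s u) u :=
  ((h.diff.differentiable (by norm_num)) u).hasDerivAt

theorem c2a_hasDeriv {N : ℕ} {s : ℝ → ℝ} (h : TBA N s) (u : ℝ) :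
    HasDerivAt (LL s) (2 * s u * deriv s u / (1 + s u ^ 2)) u := by
  have h1 := c2a_hasDeriv_s h u
  have h2 : HasDerivAt (fun u => 1 + s u ^ 2) (2 * s u * deriv s u) u := by
    have h3 := (h1.pow 2).const_add 1
    refine h3.congr_deriv ?_
    simp
  have h4 : (1 : ℝ) + s u ^ 2 ≠ 0 := by positivity
  exact h2.log h4

theorem c2a_cont {N : ℕ} {s : ℝ → ℝ} (h : TBA N s) : ContDiff ℝ 1 (LL s) := by
  unfold LL
  exact (contDiff_const.add (h.diff.pow 2)).log (fun u => by positivity)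

theorem c2a_bd {N : ℕ} {s : ℝ → ℝ} (h : TBA N s) (u : ℝ) :
    0 ≤ LL s u ∧ LL s u ≤ Real.log 2 := by
  have h1 := h.pos u
  have h2 := h.le u
  unfold LL
  constructor
  · exact Real.log_nonneg (by nlinarith)
  · exact Real.log_le_log (by positivity) (by nlinarith)

theorem c2a_even {N : ℕ} {s : ℝ → ℝ} (h : TBA N s) (u : ℝ) : LL s (-u) = LL s u := by
  unfold LL
  rw [h.sym]

theorem c2a_odd {N : ℕ} {s : ℝ → ℝ} (h : TBA N s) (u : ℝ) :
    deriv (LL s) (-u) = -deriv (LL s) u := by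
  have h1 : deriv (fun x => LL s (-x)) u = -deriv (LL s) (-u) := deriv_comp_neg _ _
  have h2 : (fun x => LL s (-x)) = LL s := funext (c2a_even h)
  rw [h2] at h1
  linarith

theorem c2a_nonpos {N : ℕ} {s : ℝ → ℝ} (h : TBA N s) (u : ℝ) (hu : 0 < u) :
    deriv s u ≤ 0 := by
  have h1 : derivWithin s (Set.Ici 0) u ≤ 0 := h.anti.derivWithin_nonpos
  rwa [derivWithin_of_mem_nhds (Ici_mem_nhds hu)] at h1

theorem c2a_int_s {N : ℕ} {s : ℝ → ℝ} (h : TBA N s) :
    IntegrableOn (deriv s) (Set.Ioi 0) :=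
  integrableOn_Ioi_deriv_of_nonpos (h.diff.continuous.continuousWithinAt)
    (fun x _ => c2a_hasDeriv_s h x) (fun x hx => c2a_nonpos h x hx) h.top

theorem c2a_val_s {N : ℕ} {s : ℝ → ℝ} (h : TBA N s) :
    ∫ u in Set.Ioi (0 : ℝ), deriv s u = 0 - s 0 :=
  integral_Ioi_of_hasDerivAt_of_nonpos (h.diff.continuous.continuousWithinAt)
    (fun x _ => c2a_hasDeriv_s h x) (fun x hx => c2a_nonpos h x hx) h.top

theorem c2a_abs {N : ℕ} {s : ℝ → ℝ} (h : TBA N s) (u : ℝ) :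
    |deriv (LL s) u| ≤ |deriv s u| := by
  rw [(c2a_hasDeriv h u).deriv]
  have h1 := h.pos u
  have h2 : 2 * s u * deriv s u / (1 + s u ^ 2) = (2 * s u / (1 + s u ^ 2)) * deriv s u := by ring
  rw [h2, abs_mul]
  have h3 : |2 * s u / (1 + s u ^ 2)| ≤ 1 := by
    rw [abs_of_nonneg (by positivity), div_le_one (by positivity)]
    nlinarith [sq_nonneg (s u - 1)]
  calc |2 * s u / (1 + s u ^ 2)| * |deriv s u| ≤ 1 * |deriv s u| :=
        mul_le_mul_of_nonneg_right h3 (abs_nonneg _)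
    _ = |deriv s u| := one_mul _

theorem c2a_cont_deriv {N : ℕ} {s : ℝ → ℝ} (h : TBA N s) : Continuous (deriv (LL s)) :=
  (c2a_cont h).continuous_deriv (le_refl 1)

theorem c2a_int_L {N : ℕ} {s : ℝ → ℝ} (h : TBA N s) :
    IntegrableOn (deriv (LL s)) (Set.Ioi 0) := by
  refine Integrable.mono (c2a_int_s h) (c2a_cont_deriv h).aestronglyMeasurable ?_
  exact Filter.Eventually.of_forall fun u => by
    simpa only [Real.norm_eq_abs] using c2a_abs h u

theorem c2a_int_all {N : ℕ} {s : ℝ → ℝ} (h : TBA N s) : Integrable (deriv (LL s)) := by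
  have h1 := c2a_int_L h
  have h2 : IntegrableOn (deriv (LL s)) (Set.Iic 0) := by
    have h3 : IntegrableOn (fun u => deriv (LL s) (-u)) (Set.Iic 0) := by
      have h4 : IntegrableOn (deriv (LL s)) (Set.Ici 0) := by
        rwa [integrableOn_Ici_iff_integrableOn_Ioi]
      have := h4.comp_neg
      simpa using this
    have h5 : (fun u => deriv (LL s) (-u)) = fun u => -deriv (LL s) u := funext (c2a_odd h)
    rw [h5] at h3
    have := h3.neg
    refine this.congr_fun (fun u _ => ?_) measurableSet_Iic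
    simp
  have h3 : IntegrableOn (deriv (LL s)) (Set.Iic 0 ∪ Set.Ioi 0) := h2.union h1
  rwa [Set.Iic_union_Ioi, integrableOn_univ] at h3

theorem c2a_le_one {N : ℕ} {s : ℝ → ℝ} (h : TBA N s) :
    ∫ u in Set.Ioi (0 : ℝ), |deriv (LL s) u| ≤ 1 := by
  have h1 : ∫ u in Set.Ioi (0 : ℝ), |deriv (LL s) u| ≤ ∫ u in Set.Ioi (0 : ℝ), -deriv s u := by
    refine setIntegral_mono_on (c2a_int_L h).norm (c2a_int_s h).neg measurableSet_Ioi ?_
    intro u hu
    have h2 := c2a_abs h u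
    rw [abs_of_nonpos (c2a_nonpos h u hu)] at h2
    simpa using h2
  rw [integral_neg, c2a_val_s h] at h1
  have h2 := h.le 0
  linarith

theorem c2a_dec {N : ℕ} {s : ℝ → ℝ} (h : TBA N s) :
    ∃ K, ∀ u, |deriv (LL s) u| ≤ K * Real.exp (-(2 * |u|)) := by
  obtain ⟨K, hK⟩ := h.dec
  refine ⟨2 * K * K, fun u => ?_⟩
  rw [(c2a_hasDeriv h u).deriv]
  obtain ⟨h1, h2⟩ := hK u
  have h3 := h.pos u
  have hK0 : 0 ≤ K := by
    have h4 := Real.exp_pos (-|u|)
    by_contra hc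
    push Not at hc
    nlinarith
  rw [abs_div, abs_mul, abs_mul, abs_of_pos h3, abs_of_pos (show (0 : ℝ) < 2 by norm_num),
    abs_of_pos (show (0 : ℝ) < 1 + s u ^ 2 by positivity), div_le_iff₀ (by positivity)]
  have h5 : Real.exp (-(2 * |u|)) = Real.exp (-|u|) * Real.exp (-|u|) := by
    rw [← Real.exp_add]; congr 1; ring
  rw [h5]
  have h6 : s u * |deriv s u| ≤ (K * Real.exp (-|u|)) * (K * Real.exp (-|u|)) :=
    mul_le_mul h1 h2 (abs_nonneg _) (by positivity)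
  have h7 : 0 ≤ 2 * K * K * (Real.exp (-|u|) * Real.exp (-|u|)) := by positivity
  nlinarith [mul_nonneg h7 (sq_nonneg (s u))]

theorem LL_props {N : ℕ} {s : ℝ → ℝ} (h : TBA N s) :
    ContDiff ℝ 1 (LL s) ∧ (∀ u, 0 ≤ LL s u ∧ LL s u ≤ Real.log 2) ∧
    (∀ u, deriv (LL s) (-u) = -deriv (LL s) u) ∧
    (∀ u, deriv (LL s) u = 2 * s u * deriv s u / (1 + s u ^ 2)) ∧
    (∀ u, 0 < u → deriv s u ≤ 0) ∧
    IntegrableOn (deriv s) (Set.Ioi 0) ∧ IntegrableOn (deriv (LL s)) (Set.Ioi 0) ∧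
    Integrable (deriv (LL s)) ∧
    ∫ u in Set.Ioi (0 : ℝ), |deriv (LL s) u| ≤ 1 ∧
    ∃ K, ∀ u, |deriv (LL s) u| ≤ K * Real.exp (-(2 * |u|)) :=
  ⟨c2a_cont h, c2a_bd h, c2a_odd h, fun u => (c2a_hasDeriv h u).deriv, c2a_nonpos h,
    c2a_int_s h, c2a_int_L h, c2a_int_all h, c2a_le_one h, c2a_dec h⟩

theorem c2a_nice {N : ℕ} {s : ℝ → ℝ} (h : TBA N s) : H906K.Nice (LL s) :=
  ⟨(c2a_cont h).differentiable (by norm_num), c2a_cont_deriv h, c2a_int_all h⟩

theorem c2a_abs_L {N : ℕ} {s : ℝ → ℝ} (h : TBA N s) (u : ℝ) : |LL s u| ≤ Real.log 2 := by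
  rw [abs_of_nonneg (c2a_bd h u).1]
  exact (c2a_bd h u).2

theorem bb_props {N : ℕ} {s : ℝ → ℝ} (h : TBA N s) :
    ContDiff ℝ 1 (bb s) ∧ (∀ u, 0 ≤ bb s u ∧ bb s u ≤ Real.log 2 / 2) ∧
    (∀ u, bb s (-u) = bb s u) ∧
    (∀ u, deriv (bb s) u = ∫ v : ℝ, H906K.kk (u - v) * deriv (LL s) v) ∧
    Tendsto (bb s) atTop (𝓝 0) ∧ (∃ K, ∀ u, |deriv (bb s) u| ≤ K * Real.exp (-|u|)) := by
  have hL := c2a_abs_L h
  have hc : Continuous (LL s) := (c2a_cont h).continuous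
  obtain ⟨hn, hd⟩ := H906K.kk_conv_nice (LL s) (Real.log 2) (c2a_nice h) hL
  refine ⟨?_, ?_, ?_, hd, ?_, ?_⟩
  · exact contDiff_one_iff_deriv.2 ⟨hn.1, hn.2.1⟩
  · intro u
    constructor
    · exact integral_nonneg fun v => mul_nonneg (H906K.kk_pos _).le (c2a_bd h v).1
    · exact (le_abs_self _).trans (H906K.kk_conv_le (LL s) (Real.log 2) hc hL u)
  · intro u
    unfold bb
    rw [← integral_neg_eq_self (fun v => H906K.kk (-u - v) * LL s v)]
    congr 1
    ext v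
    rw [c2a_even h, ← H906K.kk_even]
    congr 2
    ring
  · have h1 : Tendsto (LL s) atTop (𝓝 0) := by
      have h2 : Tendsto (fun u => Real.log (1 + s u ^ 2)) atTop (𝓝 (Real.log (1 + 0 ^ 2))) :=
        ((h.top.pow 2).const_add 1).log (by norm_num)
      have h4 : (LL s) = fun u => Real.log (1 + s u ^ 2) := rfl
      rw [h4]
      simpa using h2
    have h3 := H906K.kk_conv_top (LL s) (Real.log 2) 0 hc hL h1
    rw [zero_div] at h3
    exact h3
  · obtain ⟨K, hK⟩ := c2a_dec h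
    have hK0 : 0 ≤ K := by
      have := (abs_nonneg _).trans (hK 0)
      simpa using this
    obtain ⟨K', hK'⟩ := e2a_conv_dec (deriv (LL s)) K (fun u => (hK u).trans
      (mul_le_mul_of_nonneg_left (Real.exp_le_exp.2 (by linarith [abs_nonneg u])) hK0))
    refine ⟨K', fun u => ?_⟩
    have h5 : deriv (bb s) u = ∫ v : ℝ, H906K.kk (u - v) * deriv (LL s) v := hd u
    rw [h5]
    exact hK' u

end H906C

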