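import Pool.Agent.H906R3.CY.Defs
import Pool.Agent.H906R3.K6.A2a
import Pool.Agent.H906R3.CY.C2a

set_option autoImplicit false

open MeasureTheory Filter Topology

namespace H906C

theorem c2b_tanh_eq (x : ℝ) : Real.tanh x = 1 - 2 / (Real.exp (2 * x) + 1) := by
  have h1 : Real.exp (2 * x) = Real.exp x * Real.exp x := by rw [← Real.exp_add]; ring_nf
  have h2 : Real.exp (-x) = (Real.exp x)⁻¹ := Real.exp_neg x
  have h3 := Real.exp_pos x
  rw [Real.tanh_eq_sinh_div_cosh, Real.sinh_eq, Real.cosh_eq, h1, h2]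
  field_simp
  ring

theorem c2b_tanh_tendsto : Tendsto (fun u : ℝ => Real.tanh (3 * u / 4)) atTop (𝓝 1) := by
  have h1 : Tendsto (fun u : ℝ => Real.exp (2 * (3 * u / 4)) + 1) atTop atTop := by
    apply tendsto_atTop_add_const_right
    apply Real.tendsto_exp_atTop.comp
    have : (fun u : ℝ => 2 * (3 * u / 4)) = fun u : ℝ => (3 / 2) * u := by
      funext u; ring
    rw [this]
    exact tendsto_id.const_mul_atTop (by norm_num)
  have h2 := h1.const_div_atTop 2
  have h3 := h2.const_sub 1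
  rw [sub_zero] at h3
  refine h3.congr fun u => ?_
  rw [c2b_tanh_eq]

theorem c2b_tanh_cont : Continuous (fun u : ℝ => Real.tanh (3 * u / 4)) := by
  have : (fun u : ℝ => Real.tanh (3 * u / 4)) = fun u => 1 - 2 / (Real.exp (2 * (3 * u / 4)) + 1) := by
    funext u; rw [c2b_tanh_eq]
  rw [this]
  refine continuous_const.sub (continuous_const.div (by fun_prop) fun u => ?_)
  positivity

theorem c2b_tanh_nonneg {u : ℝ} (hu : 0 ≤ u) : 0 ≤ Real.tanh (3 * u / 4) := by
  rw [Real.tanh_eq_sinh_div_cosh]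
  have h1 : 0 ≤ Real.sinh (3 * u / 4) := Real.sinh_nonneg_iff.2 (by linarith)
  have h2 := Real.cosh_pos (3 * u / 4)
  positivity

theorem c2b_tanh_pos {u : ℝ} (hu : 0 < u) : 0 < Real.tanh (3 * u / 4) := by
  rw [Real.tanh_eq_sinh_div_cosh]
  have h1 : 0 < Real.sinh (3 * u / 4) := Real.sinh_pos_iff.2 (by linarith)
  have h2 := Real.cosh_pos (3 * u / 4)
  positivity

theorem c2b_T_nonneg {N : ℕ} (hN : Even N) (u : ℝ) : 0 ≤ Real.tanh (3 * u / 4) ^ N :=
  hN.pow_nonneg _

theorem c2b_T_even {N : ℕ} (hN : Even N) (u : ℝ) :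
    Real.tanh (3 * (-u) / 4) ^ N = Real.tanh (3 * u / 4) ^ N := by
  have : 3 * (-u) / 4 = -(3 * u / 4) := by ring
  rw [this, Real.tanh_neg, hN.neg_pow]

theorem c2b_T_deriv (N : ℕ) (hN : 1 ≤ N) (u : ℝ) (hu : 0 < u) :
    HasDerivAt (fun u : ℝ => Real.tanh (3 * u / 4) ^ N)
      (Real.tanh (3 * u / 4) ^ N * ((3 / 2 * N) / Real.sinh (3 * u / 2))) u := by
  have hc := Real.cosh_pos (3 * u / 4)
  have hs : 0 < Real.sinh (3 * u / 4) := Real.sinh_pos_iff.2 (by linarith)
  have h0 : HasDerivAt (fun u : ℝ => 3 * u / 4) (3 / 4) u := by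
    simpa using ((hasDerivAt_id u).const_mul 3).div_const 4
  have h1 : HasDerivAt (fun u : ℝ => Real.sinh (3 * u / 4)) (Real.cosh (3 * u / 4) * (3 / 4)) u :=
    (Real.hasDerivAt_sinh _).comp u h0
  have h2 : HasDerivAt (fun u : ℝ => Real.cosh (3 * u / 4)) (Real.sinh (3 * u / 4) * (3 / 4)) u :=
    (Real.hasDerivAt_cosh _).comp u h0
  have h3 := (h1.div h2 hc.ne').pow N
  have e1 : (fun u : ℝ => Real.tanh (3 * u / 4) ^ N) =
      (fun u : ℝ => Real.sinh (3 * u / 4) / Real.cosh (3 * u / 4)) ^ N := by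
    funext v
    rw [Pi.pow_apply, Real.tanh_eq_sinh_div_cosh]
  rw [e1]
  refine h3.congr_deriv ?_
  have hsh : Real.sinh (3 * u / 2) = 2 * Real.sinh (3 * u / 4) * Real.cosh (3 * u / 4) := by
    rw [← Real.sinh_two_mul]; ring_nf
  have hsq : Real.cosh (3 * u / 4) ^ 2 - Real.sinh (3 * u / 4) ^ 2 = 1 :=
    Real.cosh_sq_sub_sinh_sq _
  rw [hsh, Real.tanh_eq_sinh_div_cosh]
  obtain ⟨M, rfl⟩ : ∃ M, N = M + 1 := ⟨N - 1, by omega⟩
  simp only [Pi.div_apply, Nat.add_sub_cancel]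
  set S := Real.sinh (3 * u / 4) with hS
  set C := Real.cosh (3 * u / 4) with hC
  have hsq' : C * (3 / 4) * C - S * (S * (3 / 4)) = 3 / 4 := by linear_combination (3 / 4) * hsq
  have hc0 : C ≠ 0 := hc.ne'
  have hs0 : S ≠ 0 := hs.ne'
  rw [hsq', pow_succ (S / C) M]
  have e2 : S / C * (3 / 2 * ((M + 1 : ℕ) : ℝ) / (2 * S * C)) = ((M + 1 : ℕ) : ℝ) * (3 / 4 / C ^ 2) := by
    field_simp
    ring
  rw [mul_assoc ((S / C) ^ M) (S / C), e2]
  ring

theorem yy_props {N : ℕ} {s : ℝ → ℝ} (h : TBA N s) :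
    (∀ u, 0 ≤ yy N s u ∧ yy N s u < 1) ∧ (∀ u, 0 < u → 0 < yy N s u) ∧ yy N s 0 = 0 ∧
    (∀ u, yy N s (-u) = yy N s u) ∧ Continuous (yy N s) ∧ Tendsto (yy N s) atTop (𝓝 1) ∧
    (∀ u, 0 < u → HasDerivAt (yy N s)
      (yy N s u * ((3 / 2 * N) / Real.sinh (3 * u / 2) + deriv (bb s) u)) u) := by
  obtain ⟨hb1, hb2, hb3, -, hb5, -⟩ := bb_props h
  have hN2 := h.two_le
  refine ⟨fun u => ⟨?_, ?_⟩, fun u hu => ?_, ?_, fun u => ?_, ?_, ?_, fun u hu => ?_⟩
  · rw [yy]
    exact mul_nonneg (c2b_T_nonneg h.evenN u) (Real.exp_pos _).le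
  · have h1 := h.low u
    have h2 : 0 < Real.exp (-(2 * |u|)) / 16 := by positivity
    linarith
  · rw [yy]
    exact mul_pos (pow_pos (c2b_tanh_pos hu) _) (Real.exp_pos _)
  · rw [yy, mul_zero, zero_div, Real.tanh_zero, zero_pow (by omega), zero_mul]
  · rw [yy, yy, c2b_T_even h.evenN, hb3]
  · have : yy N s = fun u => Real.tanh (3 * u / 4) ^ N * Real.exp (bb s u) := rfl
    rw [this]
    exact (c2b_tanh_cont.pow N).mul (Real.continuous_exp.comp hb1.continuous)
  · have : yy N s = fun u => Real.tanh (3 * u / 4) ^ N * Real.exp (bb s u) := rfl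
    rw [this]
    have h1 := c2b_tanh_tendsto.pow N
    have h2 := (Real.continuous_exp.tendsto 0).comp hb5
    have h3 := h1.mul h2
    simpa using h3
  · have : yy N s = fun u => Real.tanh (3 * u / 4) ^ N * Real.exp (bb s u) := rfl
    rw [this]
    have h1 := c2b_T_deriv N (by omega) u hu
    have h2 : HasDerivAt (bb s) (deriv (bb s) u) u :=
      (hb1.differentiable (by norm_num) u).hasDerivAt
    have h3 := h1.mul h2.exp
    refine h3.congr_deriv ?_
    ring

theorem l1_props {N : ℕ} {s : ℝ → ℝ} (h : TBA N s) :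
    Continuous (l1 N s) ∧ (∀ u, l1 N s (-u) = l1 N s u) ∧
    (∀ u, l1 N s u ≤ 0) ∧ (∀ u, |l1 N s u| ≤ 6 * (1 + |u|) * Real.tanh (3 * u / 4) ^ N) := by
  obtain ⟨hy1, -, -, hy4, hy5, -, -⟩ := yy_props h
  obtain ⟨-, hb2, -, -, -, -⟩ := bb_props h
  have hle : ∀ u, l1 N s u ≤ 0 := fun u => by
    rw [l1]
    exact Real.log_nonpos (by linarith [(hy1 u).2]) (by linarith [(hy1 u).1])
  refine ⟨?_, fun u => ?_, hle, fun u => ?_⟩
  · have : l1 N s = fun u => Real.log (1 - yy N s u) := rfl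
    rw [this]
    refine (continuous_const.sub hy5).log fun u hu => ?_
    have e : (1 : ℝ) - yy N s u = 0 := hu
    have := (hy1 u).2
    linarith
  · rw [l1, l1, hy4]
  · rw [abs_of_nonpos (hle u)]
    set T := Real.tanh (3 * u / 4) ^ N with hT
    have hT0 : 0 ≤ T := c2b_T_nonneg h.evenN u
    have hpos : 0 < 1 - yy N s u := by linarith [(hy1 u).2]
    have hu0 := abs_nonneg u
    have he : Real.exp (bb s u) ≤ 1.4143 := by
      have h1 : Real.exp (bb s u) ≤ Real.exp (Real.log 2 / 2) := Real.exp_le_exp.2 (hb2 u).2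
      have h2 : Real.exp (Real.log 2 / 2) ^ 2 = 2 := by
        rw [← Real.exp_nat_mul]
        have : ((2 : ℕ) : ℝ) * (Real.log 2 / 2) = Real.log 2 := by push_cast; ring
        rw [this, Real.exp_log (by norm_num)]
      have h3 : Real.exp (Real.log 2 / 2) ≤ 1.4143 := by
        have h4 := Real.exp_pos (Real.log 2 / 2)
        by_contra hcon
        push Not at hcon
        nlinarith
      linarith
    have hy : yy N s u ≤ 1.4143 * T := by
      rw [yy, ← hT, mul_comm]
      exact mul_le_mul_of_nonneg_right he hT0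
    by_cases hc : T ≤ 1 / 2
    · have h1 : yy N s u ≤ 0.70715 := by linarith
      have h2 : -l1 N s u ≤ yy N s u / (1 - yy N s u) := by
        rw [l1, ← Real.log_inv]
        have h3 := Real.log_le_sub_one_of_pos (inv_pos.2 hpos)
        refine h3.trans (le_of_eq ?_)
        field_simp
        ring
      have h3 : yy N s u / (1 - yy N s u) ≤ 6 * T := by
        rw [div_le_iff₀ hpos]
        nlinarith [(hy1 u).1]
      have h4 : 6 * T ≤ 6 * (1 + |u|) * T := by nlinarith
      linarith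
    · push Not at hc
      have h1 := h.low u
      have h2 : Real.log (Real.exp (-(2 * |u|)) / 16) ≤ l1 N s u := by
        rw [l1]
        exact Real.log_le_log (by positivity) h1
      rw [Real.log_div (Real.exp_pos _).ne' (by norm_num), Real.log_exp] at h2
      have h3 : Real.log 16 = 4 * Real.log 2 := by
        rw [show (16 : ℝ) = 2 ^ 4 by norm_num, Real.log_pow]; norm_num
      have h4 := Real.log_two_lt_d9
      nlinarith

end H906C
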