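import Pool.Agent.H906R3.CY.C4a
import Pool.Agent.H906R3.CY.C2a
import Pool.Agent.H906R3.CY.C2b

/-! C4: the identity `dbl`; the proof is `H906C.dbl_of` in `CY/C4a.lean`
(hypotheses `LL_props`, `bb_props`, `l1_props` discharged here). -/

namespace H906C

open MeasureTheory Filter Topology

theorem dbl {N : ℕ} {s : ℝ → ℝ} (h : TBA N s) :
    ∫ u in Set.Ioi (0 : ℝ), l1 N s u * deriv (bb s) u
      = (∫ u in Set.Ioi (0 : ℝ), Real.log (s u) * deriv (LL s) u) + Dl1 N s := by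
  obtain ⟨a1, a2, a3, a4, a5, a6, a7, a8, a9, -⟩ := LL_props h
  obtain ⟨b1, b2, b3, b4, b5, K, hK⟩ := bb_props h
  have hK0 : 0 ≤ K := by
    have := (abs_nonneg _).trans (hK 0)
    simpa using this
  refine dbl_of h ⟨a1, a2, a3, a4, a5, a6, a7, a8, a9⟩ ⟨b1, b2, b3, b4, b5, K, fun u => ?_⟩
    (l1_props h)
  refine (hK u).trans ?_
  have h1 : Real.exp (-|u|) ≤ 1 := Real.exp_le_one_iff.2 (by linarith [abs_nonneg u])
  nlinarith

end H906C
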