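import Pool.Agent.H906R3.CY.Defs
import Pool.Agent.H906R3.K6.A2a

/-! C4 (helper56): the double integral; `dbl_of` takes the facts on `LL`, `bb`, `l1` as
hypotheses. -/

set_option autoImplicit false

namespace H906C

open MeasureTheory Set Filter Topology
open H906K (kk kk_pos kk_even kk_cont kk_le)

theorem c4_exp_int (v : ℝ) : Integrable (fun u : ℝ => Real.exp (-(|v - u| / 2))) := by
  have h0 : Integrable (fun l : ℝ => Real.exp (-(|l| / 2))) := by
    rw [← integrableOn_univ, ← Set.Iic_union_Ioi (a := (0 : ℝ))]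
    refine IntegrableOn.union ?_ ?_
    · refine (integrableOn_exp_mul_Iic (a := 1 / 2) (by norm_num) 0).congr_fun ?_ measurableSet_Iic
      intro x hx
      simp only [Set.mem_Iic] at hx
      simp only
      congr 1
      rw [abs_of_nonpos hx]; ring
    · refine (exp_neg_integrableOn_Ioi 0 (b := 1 / 2) (by norm_num)).congr_fun ?_ measurableSet_Ioi
      intro x hx
      simp only [Set.mem_Ioi] at hx
      simp only
      congr 1
      rw [abs_of_pos hx]; ring
  exact h0.comp_sub_left v

/-- `kk (v - u) f u` is integrable in `u` if `f` grows at most linearly -/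
theorem c4_conv_int (f : ℝ → ℝ) (C : ℝ) (hf : Continuous f) (hC : ∀ u, |f u| ≤ C * (1 + |u|))
    (v : ℝ) : Integrable (fun u : ℝ => kk (v - u) * f u) := by
  have hC0 : 0 ≤ C := by
    have := (abs_nonneg _).trans (hC 0)
    simpa using this
  refine ((c4_exp_int v).const_mul (3 / (2 * Real.pi) * (C * (1 + |v|)))).mono'
    ((kk_cont.comp (continuous_const.sub continuous_id)).mul hf).aestronglyMeasurable ?_
  refine Eventually.of_forall fun u => ?_
  rw [norm_mul, Real.norm_eq_abs, Real.norm_eq_abs, abs_of_pos (kk_pos _)]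
  have h1 := kk_le (v - u)
  have h2 := hC u
  have hpi := Real.pi_pos
  have h3 : 1 + |u| ≤ (1 + |v|) * Real.exp |v - u| := by
    have e1 : |u| ≤ |v| + |v - u| := by
      have : u = v - (v - u) := by ring
      calc |u| = |v - (v - u)| := by rw [← this]
        _ ≤ |v| + |v - u| := abs_sub _ _
    have e2 : 1 + |v - u| ≤ Real.exp |v - u| := by
      have := Real.add_one_le_exp |v - u|
      linarith
    have e3 := abs_nonneg v
    have e4 := abs_nonneg (v - u)
    nlinarith
  have h4 : Real.exp (-(3 * |v - u| / 2)) * Real.exp |v - u| = Real.exp (-(|v - u| / 2)) := by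
    rw [← Real.exp_add]; congr 1; ring
  calc kk (v - u) * |f u|
      ≤ (3 / (2 * Real.pi) * Real.exp (-(3 * |v - u| / 2))) * (C * (1 + |u|)) :=
        mul_le_mul h1 h2 (abs_nonneg _) (by positivity)
    _ ≤ (3 / (2 * Real.pi) * Real.exp (-(3 * |v - u| / 2))) * (C * ((1 + |v|) * Real.exp |v - u|)) := by
        gcongr
    _ = 3 / (2 * Real.pi) * (C * (1 + |v|)) *
        (Real.exp (-(3 * |v - u| / 2)) * Real.exp |v - u|) := by ring
    _ = 3 / (2 * Real.pi) * (C * (1 + |v|)) * Real.exp (-(|v - u| / 2)) := by rw [h4]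

/-- an even function that is integrable on the half line is integrable -/
theorem c4_even_int (G : ℝ → ℝ) (hG : ∀ v, G (-v) = G v) (h : IntegrableOn G (Ioi 0)) :
    Integrable G := by
  have h1 : IntegrableOn G (Iio 0) := by
    have h2 := (Measure.measurePreserving_neg (volume : Measure ℝ)).integrableOn_comp_preimage
      (MeasurableEquiv.neg ℝ).measurableEmbedding (f := G) (s := Ioi 0)
    have h3 : IntegrableOn (G ∘ Neg.neg) (Neg.neg ⁻¹' Ioi (0 : ℝ)) := h2.mpr h
    have h4 : (Neg.neg ⁻¹' Ioi (0 : ℝ)) = Iio 0 := by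
      ext x; simp
    have h5 : G ∘ Neg.neg = G := funext fun v => hG v
    rwa [h4, h5] at h3
  have h2 : IntegrableOn G (Iic 0) := by
    rwa [integrableOn_Iic_iff_integrableOn_Iio]
  rw [← integrableOn_univ, ← Set.Iic_union_Ioi (a := (0 : ℝ))]
  exact h2.union h

/-- splitting at zero -/
theorem c4_split (G : ℝ → ℝ) (h : Integrable G) :
    ∫ v, G v = (∫ v in Ioi (0 : ℝ), G v) + ∫ v in Iio (0 : ℝ), G v := by
  rw [← integral_add_compl (measurableSet_Ioi (a := (0 : ℝ))) h, compl_Ioi,
    integral_Iic_eq_integral_Iio]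

theorem c4_neg (G : ℝ → ℝ) : ∫ v in Iio (0 : ℝ), G v = ∫ v in Ioi (0 : ℝ), G (-v) := by
  rw [integral_comp_neg_Ioi, neg_zero, integral_Iic_eq_integral_Iio]

theorem dbl_of {N : ℕ} {s : ℝ → ℝ} (h : TBA N s)
    (LL_props : ContDiff ℝ 1 (LL s) ∧ (∀ u, 0 ≤ LL s u ∧ LL s u ≤ Real.log 2) ∧
    (∀ u, deriv (LL s) (-u) = -deriv (LL s) u) ∧
    (∀ u, deriv (LL s) u = 2 * s u * deriv s u / (1 + s u ^ 2)) ∧
    (∀ u, 0 < u → deriv s u ≤ 0) ∧
    IntegrableOn (deriv s) (Set.Ioi 0) ∧ IntegrableOn (deriv (LL s)) (Set.Ioi 0) ∧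
    Integrable (deriv (LL s)) ∧
    ∫ u in Set.Ioi (0 : ℝ), |deriv (LL s) u| ≤ 1)
    (bb_props : ContDiff ℝ 1 (bb s) ∧ (∀ u, 0 ≤ bb s u ∧ bb s u ≤ Real.log 2 / 2) ∧
    (∀ u, bb s (-u) = bb s u) ∧
    (∀ u, deriv (bb s) u = ∫ v : ℝ, H906K.kk (u - v) * deriv (LL s) v) ∧
    Tendsto (bb s) atTop (𝓝 0) ∧ (∃ K, ∀ u, |deriv (bb s) u| ≤ K))
    (l1_props : Continuous (l1 N s) ∧ (∀ u, l1 N s (-u) = l1 N s u) ∧
    (∀ u, l1 N s u ≤ 0) ∧ (∀ u, |l1 N s u| ≤ 6 * (1 + |u|) * Real.tanh (3 * u / 4) ^ N)) :
    ∫ u in Set.Ioi (0 : ℝ), l1 N s u * deriv (bb s) u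
      = (∫ u in Set.Ioi (0 : ℝ), Real.log (s u) * deriv (LL s) u) + Dl1 N s := by
  obtain ⟨hLc, -, hLodd, hLd, -, hsi, -, hLi, -⟩ := LL_props
  obtain ⟨-, -, -, hbd, -, -⟩ := bb_props
  obtain ⟨hfc, hfe, hf0, hfb⟩ := l1_props
  obtain ⟨f, hf⟩ : ∃ f : ℝ → ℝ, f = l1 N s := ⟨_, rfl⟩
  obtain ⟨g, hg⟩ : ∃ g : ℝ → ℝ, g = deriv (LL s) := ⟨_, rfl⟩
  have hgc : Continuous g := by rw [hg]; exact hLc.continuous_deriv le_rfl
  have hgi : Integrable g := by rw [hg]; exact hLi
  have hgo : ∀ v, g (-v) = -g v := by rw [hg]; exact hLodd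
  rw [← hf] at hfc hfe hf0 hfb
  have hfb' : ∀ u, |f u| ≤ 6 * (1 + |u|) := by
    intro u
    refine (hfb u).trans ?_
    have h1 : Real.tanh (3 * u / 4) ^ N ≤ 1 := by
      have h2 : |Real.tanh (3 * u / 4)| ≤ 1 := (Real.abs_tanh_lt_one _).le
      calc Real.tanh (3 * u / 4) ^ N ≤ |Real.tanh (3 * u / 4) ^ N| := le_abs_self _
        _ = |Real.tanh (3 * u / 4)| ^ N := abs_pow _ _
        _ ≤ 1 := pow_le_one₀ (abs_nonneg _) h2
    have h2 : 0 ≤ 6 * (1 + |u|) := by positivity
    calc 6 * (1 + |u|) * Real.tanh (3 * u / 4) ^ N ≤ 6 * (1 + |u|) * 1 :=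
          mul_le_mul_of_nonneg_left h1 h2
      _ = 6 * (1 + |u|) := mul_one _
  have hci : ∀ v, Integrable (fun u : ℝ => kk (v - u) * f u) := fun v =>
    c4_conv_int f 6 hfc hfb' v
  have hlog : ∀ v, Real.log (s v) = ∫ u, kk (v - u) * f u := by
    intro v; rw [hf]; exact h.eq v
  -- the integrand
  obtain ⟨F, hF⟩ : ∃ F : ℝ → ℝ → ℝ, ∀ u v, F u v = f u * (kk (u - v) * g v) :=
    ⟨_, fun _ _ => rfl⟩
  have hks : ∀ u v, kk (u - v) = kk (v - u) := fun u v => by
    rw [← kk_even (v - u)]; congr 1; ring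
  have hFv : ∀ u v, F u v = (kk (v - u) * f u) * g v := fun u v => by rw [hF, hks]; ring
  have hint : Integrable (Function.uncurry F) (volume.prod volume) := by
    have hcont : Continuous (Function.uncurry F) := by
      have : Function.uncurry F = fun q : ℝ × ℝ => f q.1 * (kk (q.1 - q.2) * g q.2) := by
        funext q; exact hF q.1 q.2
      rw [this]
      exact (hfc.comp continuous_fst).mul ((kk_cont.comp (continuous_fst.sub continuous_snd)).mul
        (hgc.comp continuous_snd))
    rw [integrable_prod_iff' hcont.aestronglyMeasurable]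
    constructor
    · refine Eventually.of_forall fun v => ?_
      have : (fun u => Function.uncurry F (u, v)) = fun u => (kk (v - u) * f u) * g v :=
        funext fun u => hFv u v
      rw [this]
      exact (hci v).mul_const _
    · have e1 : (fun v => ∫ u, ‖Function.uncurry F (u, v)‖) = fun v => -Real.log (s v) * |g v| := by
        funext v
        have e2 : (fun u => ‖Function.uncurry F (u, v)‖) =
            fun u => -(kk (v - u) * f u) * |g v| := by
          funext u
          change ‖F u v‖ = _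
          rw [hFv, norm_mul, Real.norm_eq_abs, Real.norm_eq_abs, abs_of_nonpos
            (mul_nonpos_of_nonneg_of_nonpos (kk_pos _).le (hf0 u))]
        rw [e2, integral_mul_const, integral_neg, ← hlog]
      rw [e1]
      apply c4_even_int
      · intro v
        rw [h.sym, hgo, abs_neg]
      · have hbd2 : ∀ v, |(-Real.log (s v) * |g v|)| ≤ 2 * |deriv s v| := by
          intro v
          have p1 := h.pos v
          have p2 := h.le v
          have p3 : 0 ≤ -Real.log (s v) := by
            have := Real.log_nonpos p1.le p2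
            linarith
          have p4 : -Real.log (s v) * s v ≤ 1 := by
            have q1 := Real.one_sub_inv_le_log_of_pos p1
            have q2 : -Real.log (s v) ≤ (s v)⁻¹ - 1 := by linarith
            calc -Real.log (s v) * s v ≤ ((s v)⁻¹ - 1) * s v :=
                  mul_le_mul_of_nonneg_right q2 p1.le
              _ = 1 - s v := by field_simp
              _ ≤ 1 := by linarith
          have p5 : |g v| ≤ 2 * s v * |deriv s v| := by
            rw [hg, hLd, abs_div, abs_mul, abs_mul, abs_of_pos (by norm_num : (0:ℝ) < 2),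
              abs_of_pos p1, abs_of_pos (by positivity : 0 < 1 + s v ^ 2)]
            apply div_le_self (by positivity)
            nlinarith [sq_nonneg (s v)]
          rw [abs_mul, abs_of_nonneg p3, abs_abs]
          calc -Real.log (s v) * |g v| ≤ -Real.log (s v) * (2 * s v * |deriv s v|) :=
                mul_le_mul_of_nonneg_left p5 p3
            _ = (-Real.log (s v) * s v) * (2 * |deriv s v|) := by ring
            _ ≤ 1 * (2 * |deriv s v|) := mul_le_mul_of_nonneg_right p4 (by positivity)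
            _ = 2 * |deriv s v| := one_mul _
        have hsc : Continuous s := h.diff.continuous
        refine Integrable.mono' ((hsi.norm).const_mul 2) ?_ ?_
        · refine Continuous.aestronglyMeasurable ?_
          exact ((hsc.log fun v => (h.pos v).ne').neg).mul hgc.abs
        · exact Eventually.of_forall fun v => hbd2 v
  -- integrability on rectangles
  have hST : ∀ S T : Set ℝ, Integrable (Function.uncurry F)
      ((volume.restrict S).prod (volume.restrict T)) := by
    intro S T
    rw [Measure.prod_restrict]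
    exact hint.restrict
  have hswap : ∀ S T : Set ℝ, ∫ u in S, ∫ v in T, F u v = ∫ v in T, ∫ u in S, F u v :=
    fun S T => integral_integral_swap (hST S T)
  have hli : ∀ S T : Set ℝ, IntegrableOn (fun u => ∫ v in T, F u v) S := fun S T =>
    (hST S T).integral_prod_left
  have hri : ∀ S T : Set ℝ, IntegrableOn (fun v => ∫ u in S, F u v) T := fun S T =>
    (hST S T).integral_prod_right
  obtain ⟨I1, hI1⟩ : ∃ x : ℝ, x = ∫ u in Ioi (0 : ℝ), ∫ v in Ioi (0 : ℝ), F u v := ⟨_, rfl⟩
  obtain ⟨I2, hI2⟩ : ∃ x : ℝ, x = ∫ u in Ioi (0 : ℝ), ∫ v in Iio (0 : ℝ), F u v := ⟨_, rfl⟩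
  -- left side
  have hgk : ∀ u, Integrable (fun v => kk (u - v) * g v) := by
    intro u
    have hk1 : ∀ l, kk l ≤ 3 / (2 * Real.pi) := by
      intro l
      refine (kk_le l).trans ?_
      have h1 : Real.exp (-(3 * |l| / 2)) ≤ 1 := by
        rw [Real.exp_le_one_iff]
        have := abs_nonneg l
        linarith
      have hpi := Real.pi_pos
      calc 3 / (2 * Real.pi) * Real.exp (-(3 * |l| / 2)) ≤ 3 / (2 * Real.pi) * 1 :=
            mul_le_mul_of_nonneg_left h1 (by positivity)
        _ = _ := mul_one _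
    refine Integrable.bdd_mul (c := 3 / (2 * Real.pi)) hgi
      (kk_cont.comp (continuous_const.sub continuous_id)).aestronglyMeasurable ?_
    refine Eventually.of_forall fun v => ?_
    rw [Real.norm_eq_abs, abs_of_pos (kk_pos _)]
    exact hk1 _
  have hA : ∫ u in Ioi (0 : ℝ), l1 N s u * deriv (bb s) u = I1 + I2 := by
    rw [hI1, hI2, ← integral_add (hli _ _) (hli _ _)]
    refine integral_congr_ae (Eventually.of_forall fun u => ?_)
    simp only
    rw [hbd, ← hg, ← hf, c4_split _ (hgk u), mul_add, ← integral_const_mul, ← integral_const_mul]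
    simp only [hF]
  have hB : ∫ u in Ioi (0 : ℝ), Real.log (s u) * deriv (LL s) u =
      I1 + ∫ v in Ioi (0 : ℝ), ∫ u in Iio (0 : ℝ), F u v := by
    rw [hI1, hswap, ← integral_add (hri _ _) (hri _ _)]
    refine integral_congr_ae (Eventually.of_forall fun v => ?_)
    simp only
    rw [hlog, ← hg, c4_split _ (hci v), add_mul, ← integral_mul_const, ← integral_mul_const]
    simp only [hFv]
  have hC : ∫ v in Ioi (0 : ℝ), ∫ u in Iio (0 : ℝ), F u v = -I2 := by
    rw [← hswap, hI2, c4_neg, ← integral_neg]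
    refine integral_congr_ae (Eventually.of_forall fun u => ?_)
    simp only
    rw [c4_neg, ← integral_neg]
    refine integral_congr_ae (Eventually.of_forall fun v => ?_)
    simp only
    rw [hF, hF, hfe, hgo]
    have : kk (-u - v) = kk (u - -v) := by
      rw [← kk_even (u - -v)]; congr 1; ring
    rw [this]; ring
  have hD : Dl1 N s = 2 * I2 := by
    unfold Dl1
    rw [hI2, ← hf, ← hg]
    congr 1
    refine integral_congr_ae (Eventually.of_forall fun u => ?_)
    simp only
    rw [← integral_const_mul]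
    simp only [hF]
  rw [hA, hB, hC, hD]
  ring

end H906C
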