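import Pool.Agent.H906R3.CY.Defs
import Pool.Agent.H906R3.CY.C1
import Pool.Agent.H906R3.CY.C2a

set_option autoImplicit false

open MeasureTheory Filter Topology

namespace H906C

/-- the second integral, with the integrability of the integrand -/
theorem c5_main {N : ℕ} {s : ℝ → ℝ} (h : TBA N s) :
    IntegrableOn (fun u => Real.log (s u) * deriv (LL s) u) (Set.Ioi 0) ∧
    ∫ u in Set.Ioi (0 : ℝ), Real.log (s u) * deriv (LL s) u = -Gd (s 0) := by
  obtain ⟨-, -, -, hL4, hL5, -⟩ := LL_props h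
  have hsc : Continuous s := h.diff.continuous
  have hmem : ∀ u, s u ∈ Set.Icc (0 : ℝ) 1 := fun u => ⟨(h.pos u).le, h.le u⟩
  have hcont : Continuous (fun u => Gd (s u)) := Gd_cont.comp_continuous hsc hmem
  have hd : ∀ u ∈ Set.Ioi (0 : ℝ),
      HasDerivAt (fun u => Gd (s u)) (Real.log (s u) * deriv (LL s) u) u := by
    intro u _
    have h1 := Gd_deriv (s u) (h.pos u)
    have h2 : HasDerivAt s (deriv s u) u := (h.diff.differentiable (by norm_num) u).hasDerivAt
    refine (h1.comp u h2).congr_deriv ?_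
    rw [hL4]
    ring
  have hpos : ∀ u ∈ Set.Ioi (0 : ℝ), 0 ≤ Real.log (s u) * deriv (LL s) u := by
    intro u hu
    refine mul_nonneg_of_nonpos_of_nonpos (Real.log_nonpos (h.pos u).le (h.le u)) ?_
    rw [hL4]
    have h1 := hL5 u hu
    have h2 := h.pos u
    have h3 : 0 < 1 + s u ^ 2 := by positivity
    rw [div_le_iff₀ h3, zero_mul]
    have : 2 * s u * deriv s u ≤ 2 * s u * 0 := mul_le_mul_of_nonneg_left h1 (by positivity)
    linarith
  have hlim : Tendsto (fun u => Gd (s u)) atTop (𝓝 (Gd 0)) := by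
    have h1 : ContinuousWithinAt Gd (Set.Icc 0 1) 0 := Gd_cont 0 ⟨le_refl _, zero_le_one⟩
    have h2 : Tendsto s atTop (𝓝[Set.Icc 0 1] 0) :=
      tendsto_nhdsWithin_iff.2 ⟨h.top, Eventually.of_forall hmem⟩
    exact h1.tendsto.comp h2
  have h0 : Gd 0 = 0 := by rw [Gd, intervalIntegral.integral_same]
  refine ⟨integrableOn_Ioi_deriv_of_nonneg hcont.continuousWithinAt hd hpos hlim, ?_⟩
  rw [integral_Ioi_of_hasDerivAt_of_nonneg hcont.continuousWithinAt hd hpos hlim, h0, zero_sub]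

theorem int_G {N : ℕ} {s : ℝ → ℝ} (h : TBA N s) :
    ∫ u in Set.Ioi (0 : ℝ), Real.log (s u) * deriv (LL s) u = -Gd (s 0) := (c5_main h).2

end H906C
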