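import Pool.Agent.H906R3.CY.Defs
import Pool.Agent.H906R3.K6.A2a
import Pool.Agent.H906R3.CY.C2a
import Pool.Agent.H906R3.CY.C2b

/-!
# C6: bounds for the cross term and for `s(0)`
-/

set_option autoImplicit false

namespace H906C

open MeasureTheory Filter Topology


/-- the bound -/
noncomputable def c6_g (N : ℕ) (u : ℝ) : ℝ :=
  H906K.kk u * (6 * (1 + u) * Real.tanh (3 * u / 4) ^ N)

theorem c6_tanh_le (x : ℝ) : |Real.tanh x| ≤ 1 := (Real.abs_tanh_lt_one x).le

theorem c6_kk_anti {x y : ℝ} (hx : 0 ≤ x) (hxy : x ≤ y) : H906K.kk y ≤ H906K.kk x := by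
  unfold H906K.kk
  have hpi := Real.pi_pos
  have h1 : Real.cosh (3 * x / 2) ≤ Real.cosh (3 * y / 2) := by
    rw [Real.cosh_le_cosh, abs_of_nonneg (by positivity), abs_of_nonneg (by linarith)]
    linarith
  have h2 := Real.cosh_pos (3 * x / 2)
  exact div_le_div_of_nonneg_left (by norm_num) (by positivity)
    (mul_le_mul_of_nonneg_left h1 (by positivity))

theorem c6_kk_abs (u : ℝ) : H906K.kk |u| = H906K.kk u := by
  rcases abs_choice u with h | h
  · rw [h]
  · rw [h, H906K.kk_even]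

theorem c6_g_abs_le (N : ℕ) (u : ℝ) :
    |c6_g N (|u|)| ≤ 9 / Real.pi * Real.exp (-(1 / 2) * |u|) := by
  have hpi := Real.pi_pos
  have h0 := abs_nonneg u
  unfold c6_g
  rw [abs_mul, abs_of_pos (H906K.kk_pos _), abs_mul, abs_mul, abs_pow,
    abs_of_pos (show (0 : ℝ) < 6 by norm_num), abs_of_nonneg (show 0 ≤ 1 + |u| by linarith)]
  have h1 : |Real.tanh (3 * |u| / 4)| ^ N ≤ 1 := pow_le_one₀ (abs_nonneg _) (c6_tanh_le _)
  have h2 := H906K.kk_le |u|
  rw [abs_abs] at h2
  have h3 : 1 + |u| ≤ Real.exp |u| := by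
    have := Real.add_one_le_exp |u|
    linarith
  calc H906K.kk |u| * (6 * (1 + |u|) * |Real.tanh (3 * |u| / 4)| ^ N)
      ≤ (3 / (2 * Real.pi) * Real.exp (-(3 * |u| / 2))) * (6 * Real.exp |u| * 1) := by
        refine mul_le_mul h2 ?_ (by positivity) (by positivity)
        refine mul_le_mul ?_ h1 (by positivity) (by positivity)
        linarith
    _ = 9 / Real.pi * (Real.exp (-(3 * |u| / 2)) * Real.exp |u|) := by
        field_simp
        ring
    _ = 9 / Real.pi * Real.exp (-(1 / 2) * |u|) := by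
        rw [← Real.exp_add]
        congr 2
        ring

theorem c6_exp_integrable : Integrable (fun u : ℝ => Real.exp (-(1 / 2) * |u|)) := by
  have h := H906K.a2a_exp_integrable.comp_mul_left' (g := fun l : ℝ => Real.exp (-(3 * |l| / 2)))
    (R := 1 / 3) (by norm_num)
  refine h.congr (Eventually.of_forall fun u => ?_)
  simp only
  congr 1
  rw [abs_mul, abs_of_pos (show (0 : ℝ) < 1 / 3 by norm_num)]
  ring

theorem c6_g_cont (N : ℕ) : Continuous (c6_g N) := by
  unfold c6_g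
  have h1 : Continuous fun u : ℝ => Real.tanh (3 * u / 4) := by
    simp only [Real.tanh_eq_sinh_div_cosh]
    exact Continuous.div (by fun_prop) (by fun_prop) fun x => (Real.cosh_pos _).ne'
  exact H906K.kk_cont.mul ((by fun_prop : Continuous fun u : ℝ => 6 * (1 + u)).mul (h1.pow N))

theorem c6_int_abs (N : ℕ) : Integrable (fun u : ℝ => c6_g N |u|) := by
  refine (c6_exp_integrable.const_mul (9 / Real.pi)).mono'
    ((c6_g_cont N).comp continuous_abs).aestronglyMeasurable (Eventually.of_forall fun u => ?_)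
  rw [Real.norm_eq_abs]
  exact c6_g_abs_le N u

theorem c6_int (N : ℕ) : IntegrableOn (c6_g N) (Set.Ioi 0) := by
  refine (c6_int_abs N).integrableOn.congr_fun (s := Set.Ioi 0) (fun u hu => ?_) measurableSet_Ioi
  simp only
  rw [abs_of_pos hu]

theorem c6_half {f : ℝ → ℝ} (hf : ∀ u, f (-u) = f u) :
    ∫ v in Set.Iio (0 : ℝ), f v = ∫ v in Set.Ioi (0 : ℝ), f v := by
  rw [← integral_Iic_eq_integral_Iio]
  have h := integral_comp_neg_Ioi (0 : ℝ) f
  rw [neg_zero] at h
  rw [← h]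
  simp only [hf]

theorem c6_inner {N : ℕ} {s : ℝ → ℝ} (h : TBA N s) {u : ℝ} (hu : 0 < u) :
    |∫ v in Set.Iio (0 : ℝ), H906K.kk (u - v) * deriv (LL s) v| ≤ H906K.kk u := by
  obtain ⟨-, -, hodd, -, -, -, -, hint, h1, -⟩ := LL_props h
  have hi : IntegrableOn (fun v => H906K.kk u * |deriv (LL s) v|) (Set.Iio 0) :=
    (hint.abs.const_mul _).integrableOn
  have h2 := norm_integral_le_of_norm_le (μ := volume.restrict (Set.Iio (0 : ℝ)))
    (f := fun v => H906K.kk (u - v) * deriv (LL s) v) hi (by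
      refine (ae_restrict_iff' measurableSet_Iio).2 (Eventually.of_forall fun v hv => ?_)
      rw [norm_mul, Real.norm_eq_abs, Real.norm_eq_abs, abs_of_pos (H906K.kk_pos _)]
      have hv' : v < 0 := hv
      exact mul_le_mul_of_nonneg_right (c6_kk_anti hu.le (by linarith)) (abs_nonneg _))
  rw [Real.norm_eq_abs] at h2
  refine h2.trans ?_
  rw [integral_const_mul, c6_half (f := fun v => |deriv (LL s) v|) (fun u => by
    rw [hodd, abs_neg])]
  calc H906K.kk u * ∫ v in Set.Ioi (0 : ℝ), |deriv (LL s) v| ≤ H906K.kk u * 1 :=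
        mul_le_mul_of_nonneg_left h1 (H906K.kk_pos u).le
    _ = H906K.kk u := mul_one _

theorem Dl1_le {N : ℕ} {s : ℝ → ℝ} (h : TBA N s) :
    |Dl1 N s| ≤ 2 * ∫ u in Set.Ioi (0 : ℝ),
      H906K.kk u * (6 * (1 + u) * Real.tanh (3 * u / 4) ^ N) := by
  obtain ⟨-, -, -, hl⟩ := l1_props h
  have h2 := norm_integral_le_of_norm_le (μ := volume.restrict (Set.Ioi (0 : ℝ)))
    (f := fun u => l1 N s u * (∫ v in Set.Iio (0 : ℝ), H906K.kk (u - v) * deriv (LL s) v))
    (c6_int N) (by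
      refine (ae_restrict_iff' measurableSet_Ioi).2 (Eventually.of_forall fun u hu => ?_)
      have hu' : 0 < u := hu
      rw [norm_mul, Real.norm_eq_abs, Real.norm_eq_abs, mul_comm]
      have h3 := hl u
      rw [abs_of_pos hu'] at h3
      exact mul_le_mul (c6_inner h hu') h3 (abs_nonneg _) (H906K.kk_pos u).le)
  unfold Dl1
  rw [abs_mul, abs_of_pos (show (0 : ℝ) < 2 by norm_num)]
  rw [Real.norm_eq_abs] at h2
  exact mul_le_mul_of_nonneg_left h2 (by norm_num)

theorem s0_ge {N : ℕ} {s : ℝ → ℝ} (h : TBA N s) :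
    |Real.log (s 0)| ≤ 2 * ∫ u in Set.Ioi (0 : ℝ),
      H906K.kk u * (6 * (1 + u) * Real.tanh (3 * u / 4) ^ N) := by
  obtain ⟨-, -, -, hl⟩ := l1_props h
  have h1 : 2 * ∫ u in Set.Ioi (0 : ℝ), H906K.kk u * (6 * (1 + u) * Real.tanh (3 * u / 4) ^ N) =
      ∫ u : ℝ, c6_g N |u| := (integral_comp_abs (f := c6_g N)).symm
  rw [h1, h.eq 0, ← Real.norm_eq_abs]
  refine norm_integral_le_of_norm_le (c6_int_abs N) (Eventually.of_forall fun u => ?_)
  rw [norm_mul, Real.norm_eq_abs, Real.norm_eq_abs, abs_of_pos (H906K.kk_pos _), zero_sub,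
    H906K.kk_even]
  unfold c6_g
  rw [c6_kk_abs]
  refine mul_le_mul_of_nonneg_left ?_ (H906K.kk_pos u).le
  have h2 : Real.tanh (3 * |u| / 4) ^ N = Real.tanh (3 * u / 4) ^ N := by
    rcases abs_choice u with h' | h'
    · rw [h']
    · rw [h', show 3 * -u / 4 = -(3 * u / 4) by ring, Real.tanh_neg, h.evenN.neg_pow]
  rw [h2]
  exact hl u

end H906C
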