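import Pool.Agent.H906R3.K6.A2a

/-!
# One-arm rate on even cylinders, C7: limits of the error integrals
-/

namespace H906C

open MeasureTheory Filter Topology

theorem c7_tanh (y : ℝ) : Real.tanh y = (Real.exp (2 * y) - 1) / (Real.exp (2 * y) + 1) := by
  have h1 := Real.exp_pos y
  have h3 : Real.exp (2 * y) = Real.exp y * Real.exp y := by rw [← Real.exp_add]; ring_nf
  rw [Real.tanh_eq_sinh_div_cosh, Real.sinh_eq, Real.cosh_eq, Real.exp_neg, h3]
  field_simp

theorem c7_tanh_cont : Continuous Real.tanh := by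
  have : Real.tanh = fun x => Real.sinh x / Real.cosh x := by
    funext x
    exact Real.tanh_eq_sinh_div_cosh x
  rw [this]
  exact Real.continuous_sinh.div Real.continuous_cosh (fun x => (Real.cosh_pos x).ne')

theorem c7_tanh_range {y : ℝ} (hy : 0 < y) : 0 ≤ Real.tanh y ∧ Real.tanh y < 1 := by
  have h1 : 1 < Real.exp (2 * y) := Real.one_lt_exp_iff.mpr (by linarith)
  rw [c7_tanh]
  constructor
  · exact div_nonneg (by linarith) (by linarith)
  · rw [div_lt_one (by linarith)]
    linarith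

/-- `N T^N (1-T) ≤ T` -/
theorem c7_pow {T : ℝ} (h0 : 0 ≤ T) (h1 : T < 1) (N : ℕ) : (N : ℝ) * T ^ N * (1 - T) ≤ T := by
  have key : ∀ N : ℕ, (N : ℝ) * T ^ N * (1 - T) ≤ T * (1 - T ^ N) := by
    intro N
    induction N with
    | zero => simp
    | succ n ih =>
      have h2 : T * ((n : ℝ) * T ^ n * (1 - T)) ≤ T * (T * (1 - T ^ n)) :=
        mul_le_mul_of_nonneg_left ih h0
      have h3 : T ^ (n + 1) ≤ T := by
        have : T ^ n ≤ 1 := pow_le_one₀ h0 h1.le
        calc T ^ (n + 1) = T ^ n * T := pow_succ _ _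
          _ ≤ 1 * T := mul_le_mul_of_nonneg_right this h0
          _ = T := one_mul _
      have h4 : T ^ (n + 1) * (1 - T) ≤ T * (1 - T) :=
        mul_le_mul_of_nonneg_right h3 (by linarith)
      push_cast
      have e1 : ((n : ℝ) + 1) * T ^ (n + 1) * (1 - T) =
          T * ((n : ℝ) * T ^ n * (1 - T)) + T ^ (n + 1) * (1 - T) := by
        rw [pow_succ]; ring
      have e2 : T * (T * (1 - T ^ n)) = T * T - T * T ^ (n + 1) := by rw [pow_succ]; ring
      rw [e1]
      nlinarith
  refine (key N).trans ?_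
  have : 0 ≤ T ^ N := pow_nonneg h0 N
  nlinarith

/-- the integrand of `err2` -/
noncomputable def c7f (N : ℕ) (u : ℝ) : ℝ :=
  (1 + u) * Real.tanh (3 * u / 4) ^ N * ((3 / 2 * N) / Real.sinh (3 * u / 2))
      * (1 - Real.tanh (3 * u / 2))

theorem c7_bound (N : ℕ) {u : ℝ} (hu : 0 < u) : ‖c7f N u‖ ≤ 3 * Real.exp (-2 * u) := by
  set b : ℝ := Real.exp (3 * u / 2) with hb
  have hb1 : 1 < b := Real.one_lt_exp_iff.mpr (by linarith)
  have hT : Real.tanh (3 * u / 4) = (b - 1) / (b + 1) := by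
    rw [c7_tanh, hb]
    ring_nf
  have hT2 : 1 - Real.tanh (3 * u / 2) = 2 / (b ^ 2 + 1) := by
    have h3 : Real.exp (2 * (3 * u / 2)) = b ^ 2 := by
      rw [hb, sq, ← Real.exp_add]
      ring_nf
    rw [c7_tanh, h3]
    field_simp
    ring
  have hs : Real.sinh (3 * u / 2) = (b ^ 2 - 1) / (2 * b) := by
    rw [Real.sinh_eq, Real.exp_neg, ← hb]
    field_simp
  obtain ⟨hr0, hr1⟩ := c7_tanh_range (y := 3 * u / 4) (by linarith)
  set T : ℝ := Real.tanh (3 * u / 4) with hTdef
  have hNT := c7_pow hr0 hr1 N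
  have h1T : 1 - T = 2 / (b + 1) := by
    rw [hT]
    field_simp
    ring
  have hNT2 : (N : ℝ) * T ^ N ≤ (b - 1) / 2 := by
    rw [h1T] at hNT
    rw [hT] at hNT ⊢
    have h5 : (N : ℝ) * ((b - 1) / (b + 1)) ^ N * (2 / (b + 1)) * ((b + 1) / 2) ≤
        (b - 1) / (b + 1) * ((b + 1) / 2) := mul_le_mul_of_nonneg_right hNT (by positivity)
    have h6 : (N : ℝ) * ((b - 1) / (b + 1)) ^ N * (2 / (b + 1)) * ((b + 1) / 2) =
        (N : ℝ) * ((b - 1) / (b + 1)) ^ N := by field_simp
    have h7 : (b - 1) / (b + 1) * ((b + 1) / 2) = (b - 1) / 2 := by field_simp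
    rw [h6, h7] at h5
    exact h5
  have hb2 : 0 < b ^ 2 - 1 := by nlinarith
  have hNTn : 0 ≤ (N : ℝ) * T ^ N := by positivity
  -- the main formula
  have hf : c7f N u = 3 / 2 * (1 + u) * ((N : ℝ) * T ^ N) * (2 * b / (b ^ 2 - 1)) *
      (2 / (b ^ 2 + 1)) := by
    unfold c7f
    rw [hT2, hs, ← hTdef]
    field_simp
  have hf0 : 0 ≤ c7f N u := by
    rw [hf]
    positivity
  have hexp3 : Real.exp (-(3 * u)) = 1 / b ^ 2 := by
    rw [hb, ← Real.exp_nat_mul, one_div, ← Real.exp_neg]
    congr 1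
    push_cast
    ring
  have h8 : (1 + u) * Real.exp (-(3 * u)) ≤ Real.exp (-2 * u) := by
    have h9 : 1 + u ≤ Real.exp u := by linarith [Real.add_one_le_exp u]
    calc (1 + u) * Real.exp (-(3 * u)) ≤ Real.exp u * Real.exp (-(3 * u)) :=
          mul_le_mul_of_nonneg_right h9 (Real.exp_pos _).le
      _ = Real.exp (-2 * u) := by rw [← Real.exp_add]; ring_nf
  rw [Real.norm_of_nonneg hf0, hf]
  calc 3 / 2 * (1 + u) * ((N : ℝ) * T ^ N) * (2 * b / (b ^ 2 - 1)) * (2 / (b ^ 2 + 1))
      ≤ 3 / 2 * (1 + u) * ((b - 1) / 2) * (2 * b / (b ^ 2 - 1)) * (2 / (b ^ 2 + 1)) := by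
        gcongr
    _ = 3 * ((1 + u) * (b / ((b + 1) * (b ^ 2 + 1)))) := by
        have h10 : b ^ 2 - 1 = (b - 1) * (b + 1) := by ring
        have h11 : b - 1 ≠ 0 := by linarith
        rw [h10]
        field_simp
    _ ≤ 3 * ((1 + u) * (1 / b ^ 2)) := by
        have h12 : b / ((b + 1) * (b ^ 2 + 1)) ≤ 1 / b ^ 2 := by
          rw [div_le_div_iff₀ (by positivity) (by positivity)]
          nlinarith [sq_nonneg b]
        gcongr
    _ = 3 * ((1 + u) * Real.exp (-(3 * u))) := by rw [hexp3]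
    _ ≤ 3 * Real.exp (-2 * u) := by linarith

theorem c7_meas (N : ℕ) : Measurable (c7f N) := by
  unfold c7f
  have h1 : Measurable Real.tanh := c7_tanh_cont.measurable
  have h2 : Measurable Real.sinh := Real.continuous_sinh.measurable
  exact (((measurable_const.add measurable_id).mul
    ((h1.comp ((measurable_const.mul measurable_id).div_const 4)).pow_const N)).mul
    (measurable_const.div (h2.comp ((measurable_const.mul measurable_id).div_const 2)))).mul
    (measurable_const.sub (h1.comp ((measurable_const.mul measurable_id).div_const 2)))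

theorem c7_int (N : ℕ) : IntegrableOn (c7f N) (Set.Ioi 0) := by
  have h1 : IntegrableOn (fun u : ℝ => 3 * Real.exp (-2 * u)) (Set.Ioi 0) :=
    (exp_neg_integrableOn_Ioi 0 two_pos).const_mul 3
  refine Integrable.mono' h1 (c7_meas N).aestronglyMeasurable ?_
  rw [ae_restrict_iff' measurableSet_Ioi]
  exact Eventually.of_forall fun u hu => c7_bound N hu

theorem err2_int (N : ℕ) (_hN : 2 ≤ N) : IntegrableOn (fun u : ℝ =>
    (1 + u) * Real.tanh (3 * u / 4) ^ N * ((3 / 2 * N) / Real.sinh (3 * u / 2))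
      * (1 - Real.tanh (3 * u / 2))) (Set.Ioi 0) := c7_int N

theorem err2 : Tendsto (fun N : ℕ => ∫ u in Set.Ioi (0 : ℝ),
    (1 + u) * Real.tanh (3 * u / 4) ^ N * ((3 / 2 * N) / Real.sinh (3 * u / 2))
      * (1 - Real.tanh (3 * u / 2))) atTop (𝓝 0) := by
  have h1 : IntegrableOn (fun u : ℝ => 3 * Real.exp (-2 * u)) (Set.Ioi 0) :=
    (exp_neg_integrableOn_Ioi 0 two_pos).const_mul 3
  have h2 := tendsto_integral_of_dominated_convergence (μ := volume.restrict (Set.Ioi (0 : ℝ)))
    (F := c7f) (f := fun _ => (0 : ℝ)) (fun u : ℝ => 3 * Real.exp (-2 * u))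
    (fun N => (c7_meas N).aestronglyMeasurable) h1
    (fun N => by
      rw [ae_restrict_iff' measurableSet_Ioi]
      exact Eventually.of_forall fun u hu => c7_bound N hu)
    (by
      rw [ae_restrict_iff' measurableSet_Ioi]
      refine Eventually.of_forall fun u hu => ?_
      have hu' : 0 < u := hu
      obtain ⟨hr0, hr1⟩ := c7_tanh_range (y := 3 * u / 4) (by linarith)
      have h3 := tendsto_self_mul_const_pow_of_lt_one hr0 hr1
      have h4 : Tendsto (fun N : ℕ => (3 / 2 * (1 + u) / Real.sinh (3 * u / 2) *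
          (1 - Real.tanh (3 * u / 2))) * ((N : ℝ) * Real.tanh (3 * u / 4) ^ N)) atTop
          (𝓝 ((3 / 2 * (1 + u) / Real.sinh (3 * u / 2) *
          (1 - Real.tanh (3 * u / 2))) * 0)) := h3.const_mul _
      rw [mul_zero] at h4
      refine h4.congr fun N => ?_
      unfold c7f
      ring)
  rw [integral_zero] at h2
  exact h2

theorem err1 : Tendsto (fun N : ℕ => ∫ u in Set.Ioi (0 : ℝ),
    H906K.kk u * (6 * (1 + u) * Real.tanh (3 * u / 4) ^ N)) atTop (𝓝 0) := by
  have h1 : IntegrableOn (fun u : ℝ => 9 / Real.pi * Real.exp (-(1 / 2) * u)) (Set.Ioi 0) :=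
    (exp_neg_integrableOn_Ioi 0 (by norm_num : (0 : ℝ) < 1 / 2)).const_mul _
  have hm : Measurable Real.tanh := c7_tanh_cont.measurable
  have h2 := tendsto_integral_of_dominated_convergence (μ := volume.restrict (Set.Ioi (0 : ℝ)))
    (F := fun (N : ℕ) (u : ℝ) => H906K.kk u * (6 * (1 + u) * Real.tanh (3 * u / 4) ^ N))
    (f := fun _ => (0 : ℝ)) (fun u : ℝ => 9 / Real.pi * Real.exp (-(1 / 2) * u))
    (fun N => (H906K.kk_cont.measurable.mul ((measurable_const.mul
      (measurable_const.add measurable_id)).mul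
      ((hm.comp ((measurable_const.mul measurable_id).div_const 4)).pow_const N))
      ).aestronglyMeasurable) h1
    (fun N => by
      rw [ae_restrict_iff' measurableSet_Ioi]
      refine Eventually.of_forall fun u hu => ?_
      have hu' : 0 < u := hu
      obtain ⟨hr0, hr1⟩ := c7_tanh_range (y := 3 * u / 4) (by linarith)
      have hk := H906K.kk_pos u
      have hkl := H906K.kk_le u
      rw [abs_of_pos hu'] at hkl
      have hpi := Real.pi_pos
      have hp : Real.tanh (3 * u / 4) ^ N ≤ 1 := pow_le_one₀ hr0 hr1.le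
      have hp0 : 0 ≤ Real.tanh (3 * u / 4) ^ N := pow_nonneg hr0 N
      rw [Real.norm_of_nonneg (by positivity)]
      have h9 : 1 + u ≤ Real.exp u := by linarith [Real.add_one_le_exp u]
      calc H906K.kk u * (6 * (1 + u) * Real.tanh (3 * u / 4) ^ N)
          ≤ (3 / (2 * Real.pi) * Real.exp (-(3 * u / 2))) * (6 * Real.exp u * 1) := by
            gcongr
        _ = 9 / Real.pi * (Real.exp (-(3 * u / 2)) * Real.exp u) := by
            field_simp
            ring
        _ = 9 / Real.pi * Real.exp (-(1 / 2) * u) := by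
            rw [← Real.exp_add]
            ring_nf)
    (by
      rw [ae_restrict_iff' measurableSet_Ioi]
      refine Eventually.of_forall fun u hu => ?_
      have hu' : 0 < u := hu
      obtain ⟨hr0, hr1⟩ := c7_tanh_range (y := 3 * u / 4) (by linarith)
      have h3 := tendsto_pow_atTop_nhds_zero_of_lt_one hr0 hr1
      have h4 : Tendsto (fun N : ℕ => (H906K.kk u * (6 * (1 + u))) *
          Real.tanh (3 * u / 4) ^ N) atTop (𝓝 ((H906K.kk u * (6 * (1 + u))) * 0)) :=
        h3.const_mul _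
      rw [mul_zero] at h4
      refine h4.congr fun N => ?_
      ring)
  rw [integral_zero] at h2
  exact h2

end H906C
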