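import Pool.Agent.H906R3.CY.Defs
import Pool.Agent.H906R3.K6.A2a

/-!
# C8, first part: the asymptotics, from the statements of C1 - C7 as hypotheses
-/

namespace H906C
open MeasureTheory Filter Topology

theorem c8_log {N : ℕ} {s : ℝ → ℝ} (h : TBA N s) (hl1 : ∀ u, l1 N s (-u) = l1 N s u) :
    Real.log (s 0) = 2 * ∫ u in Set.Ioi (0 : ℝ), H906K.kk u * l1 N s u := by
  rw [h.eq 0]
  have e : (fun u : ℝ => H906K.kk (0 - u) * l1 N s u) =
      fun u : ℝ => (fun x => H906K.kk x * l1 N s x) |u| := by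
    funext u
    have e0 : (0 : ℝ) - u = -u := by ring
    rw [e0, H906K.kk_even]
    rcases abs_choice u with h1 | h1
    · simp only [h1]
    · simp only [h1, H906K.kk_even, hl1]
  rw [e]
  exact integral_comp_abs (f := fun x => H906K.kk x * l1 N s x)

theorem c8_tanh (x : ℝ) : Real.tanh x = Real.sinh x / Real.cosh x :=
  Real.tanh_eq_sinh_div_cosh x

theorem c8_tanh_lt (x : ℝ) : Real.tanh x < 1 := by
  rw [c8_tanh, div_lt_one (Real.cosh_pos x)]
  exact Real.sinh_lt_cosh x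

theorem c8_tanh_nonneg {x : ℝ} (hx : 0 ≤ x) : 0 ≤ Real.tanh x := by
  rw [c8_tanh]
  exact div_nonneg (Real.sinh_nonneg_iff.mpr hx) (Real.cosh_pos x).le

theorem c8_id {N : ℕ} {s : ℝ → ℝ} (h : TBA N s)
    (hl1e : ∀ u, l1 N s (-u) = l1 N s u)
    (hl1b : ∀ u, |l1 N s u| ≤ 6 * (1 + |u|) * Real.tanh (3 * u / 4) ^ N)
    (hF1 : IntegrableOn (fun u => l1 N s u * ((3 / 2 * N) / Real.sinh (3 * u / 2))) (Set.Ioi 0))
    (hE : IntegrableOn (fun u : ℝ =>
      (1 + u) * Real.tanh (3 * u / 4) ^ N * ((3 / 2 * N) / Real.sinh (3 * u / 2))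
        * (1 - Real.tanh (3 * u / 2))) (Set.Ioi 0)) :
    |Real.pi * (N * Real.log (s 0)) -
      ∫ u in Set.Ioi (0 : ℝ), l1 N s u * ((3 / 2 * N) / Real.sinh (3 * u / 2))| ≤
      6 * ∫ u in Set.Ioi (0 : ℝ),
        (1 + u) * Real.tanh (3 * u / 4) ^ N * ((3 / 2 * N) / Real.sinh (3 * u / 2))
          * (1 - Real.tanh (3 * u / 2)) := by
  have hN : (0 : ℝ) ≤ N := Nat.cast_nonneg N
  have hpi := Real.pi_pos
  have hcont : Continuous (fun u : ℝ => 1 - Real.tanh (3 * u / 2)) := by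
    have e : (fun u : ℝ => 1 - Real.tanh (3 * u / 2)) =
        fun u : ℝ => 1 - Real.sinh (3 * u / 2) / Real.cosh (3 * u / 2) := by
      funext u
      rw [c8_tanh]
    rw [e]
    refine continuous_const.sub (Continuous.div ?_ ?_ fun u => (Real.cosh_pos _).ne')
    · exact Real.continuous_sinh.comp (by fun_prop)
    · exact Real.continuous_cosh.comp (by fun_prop)
  have hbd : ∀ u ∈ Set.Ioi (0 : ℝ), ‖l1 N s u * ((3 / 2 * N) / Real.sinh (3 * u / 2)) *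
      (1 - Real.tanh (3 * u / 2))‖ ≤
      6 * ((1 + u) * Real.tanh (3 * u / 4) ^ N * ((3 / 2 * N) / Real.sinh (3 * u / 2))
        * (1 - Real.tanh (3 * u / 2))) := by
    intro u hu
    have hu0 : (0 : ℝ) < u := hu
    have hs : 0 < Real.sinh (3 * u / 2) := Real.sinh_pos_iff.mpr (by positivity)
    have ht : 0 ≤ 1 - Real.tanh (3 * u / 2) := by
      have := c8_tanh_lt (3 * u / 2)
      linarith
    have hq : 0 ≤ (3 / 2 * (N : ℝ)) / Real.sinh (3 * u / 2) := by positivity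
    have hb := hl1b u
    rw [abs_of_pos hu0] at hb
    rw [Real.norm_eq_abs, abs_mul, abs_mul, abs_of_nonneg ht, abs_of_nonneg hq]
    calc |l1 N s u| * ((3 / 2 * N) / Real.sinh (3 * u / 2)) * (1 - Real.tanh (3 * u / 2))
        ≤ (6 * (1 + u) * Real.tanh (3 * u / 4) ^ N) * ((3 / 2 * N) / Real.sinh (3 * u / 2)) *
          (1 - Real.tanh (3 * u / 2)) := by gcongr
      _ = _ := by ring
  have hae : ∀ᵐ u ∂(volume.restrict (Set.Ioi (0 : ℝ))),
      ‖l1 N s u * ((3 / 2 * N) / Real.sinh (3 * u / 2)) * (1 - Real.tanh (3 * u / 2))‖ ≤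
      6 * ((1 + u) * Real.tanh (3 * u / 4) ^ N * ((3 / 2 * N) / Real.sinh (3 * u / 2))
        * (1 - Real.tanh (3 * u / 2))) :=
    (ae_restrict_iff' measurableSet_Ioi).mpr (Eventually.of_forall hbd)
  have hE6 := hE.const_mul 6
  have hR : IntegrableOn (fun u => l1 N s u * ((3 / 2 * N) / Real.sinh (3 * u / 2)) *
      (1 - Real.tanh (3 * u / 2))) (Set.Ioi 0) :=
    Integrable.mono' hE6 (hF1.aestronglyMeasurable.mul hcont.aestronglyMeasurable) hae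
  have hid : Real.pi * (N * Real.log (s 0)) =
      (∫ u in Set.Ioi (0 : ℝ), l1 N s u * ((3 / 2 * N) / Real.sinh (3 * u / 2))) -
      ∫ u in Set.Ioi (0 : ℝ), l1 N s u * ((3 / 2 * N) / Real.sinh (3 * u / 2)) *
      (1 - Real.tanh (3 * u / 2)) := by
    rw [c8_log h hl1e, ← integral_sub hF1 hR]
    have e1 : Real.pi * (N * (2 * ∫ u in Set.Ioi (0 : ℝ), H906K.kk u * l1 N s u)) =
        ∫ u in Set.Ioi (0 : ℝ), (2 * Real.pi * N) * (H906K.kk u * l1 N s u) := by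
      rw [integral_const_mul]
      ring
    rw [e1]
    refine setIntegral_congr_fun measurableSet_Ioi ?_
    intro u hu
    have hu0 : (0 : ℝ) < u := hu
    have hs : 0 < Real.sinh (3 * u / 2) := Real.sinh_pos_iff.mpr (by positivity)
    have hc := Real.cosh_pos (3 * u / 2)
    simp only
    unfold H906K.kk
    rw [c8_tanh]
    field_simp
    ring
  rw [hid, sub_sub_cancel_left, abs_neg, ← Real.norm_eq_abs, ← integral_const_mul]
  exact norm_integral_le_of_norm_le hE6 hae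

/-- the asymptotics, from the statements of C1 - C7 -/
theorem c8_of (Gd_one : Gd 1 = -(Real.pi ^ 2 / 24)) (Gd_cont : ContinuousOn Gd (Set.Icc 0 1))
    (l1_props : ∀ {N : ℕ} {s : ℝ → ℝ}, TBA N s →
      Continuous (l1 N s) ∧ (∀ u, l1 N s (-u) = l1 N s u) ∧
      (∀ u, l1 N s u ≤ 0) ∧ (∀ u, |l1 N s u| ≤ 6 * (1 + |u|) * Real.tanh (3 * u / 4) ^ N))
    (int_F : ∀ {N : ℕ} {s : ℝ → ℝ}, TBA N s →
      IntegrableOn (fun u => l1 N s u * ((3 / 2 * N) / Real.sinh (3 * u / 2))) (Set.Ioi 0) ∧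
      IntegrableOn (fun u => l1 N s u * deriv (bb s) u) (Set.Ioi 0) ∧
      ∫ u in Set.Ioi (0 : ℝ), l1 N s u * ((3 / 2 * N) / Real.sinh (3 * u / 2))
        = -(Real.pi ^ 2 / 6) - ∫ u in Set.Ioi (0 : ℝ), l1 N s u * deriv (bb s) u)
    (dbl : ∀ {N : ℕ} {s : ℝ → ℝ}, TBA N s →
      ∫ u in Set.Ioi (0 : ℝ), l1 N s u * deriv (bb s) u
        = (∫ u in Set.Ioi (0 : ℝ), Real.log (s u) * deriv (LL s) u) + Dl1 N s)
    (int_G : ∀ {N : ℕ} {s : ℝ → ℝ}, TBA N s →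
      ∫ u in Set.Ioi (0 : ℝ), Real.log (s u) * deriv (LL s) u = -Gd (s 0))
    (Dl1_le : ∀ {N : ℕ} {s : ℝ → ℝ}, TBA N s → |Dl1 N s| ≤ 2 * ∫ u in Set.Ioi (0 : ℝ),
      H906K.kk u * (6 * (1 + u) * Real.tanh (3 * u / 4) ^ N))
    (s0_ge : ∀ {N : ℕ} {s : ℝ → ℝ}, TBA N s → |Real.log (s 0)| ≤ 2 * ∫ u in Set.Ioi (0 : ℝ),
      H906K.kk u * (6 * (1 + u) * Real.tanh (3 * u / 4) ^ N))
    (err1 : Tendsto (fun N : ℕ => ∫ u in Set.Ioi (0 : ℝ),
      H906K.kk u * (6 * (1 + u) * Real.tanh (3 * u / 4) ^ N)) atTop (𝓝 0))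
    (err2 : Tendsto (fun N : ℕ => ∫ u in Set.Ioi (0 : ℝ),
      (1 + u) * Real.tanh (3 * u / 4) ^ N * ((3 / 2 * N) / Real.sinh (3 * u / 2))
        * (1 - Real.tanh (3 * u / 2))) atTop (𝓝 0))
    (err2_int : ∀ (N : ℕ), 2 ≤ N → IntegrableOn (fun u : ℝ =>
      (1 + u) * Real.tanh (3 * u / 4) ^ N * ((3 / 2 * N) / Real.sinh (3 * u / 2))
        * (1 - Real.tanh (3 * u / 2))) (Set.Ioi 0))
    (s : ℕ → ℝ → ℝ) (h : ∀ k, TBA (2 * k + 2) (s k)) :
    Tendsto (fun k : ℕ => (2 * k + 2 : ℝ) * Real.log (s k 0)) atTop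
      (𝓝 (-(5 * Real.pi / 24))) := by
  have hpi := Real.pi_pos
  have hN : Tendsto (fun k : ℕ => 2 * k + 2) atTop atTop :=
    tendsto_atTop_mono (fun k => (by omega : k ≤ 2 * k + 2)) tendsto_id
  have e1 : Tendsto (fun k : ℕ => 2 * ∫ u in Set.Ioi (0 : ℝ),
      H906K.kk u * (6 * (1 + u) * Real.tanh (3 * u / 4) ^ (2 * k + 2))) atTop (𝓝 0) := by
    have := (err1.comp hN).const_mul 2
    simpa [Function.comp_def] using this
  have e2 : Tendsto (fun k : ℕ => 6 * ∫ u in Set.Ioi (0 : ℝ),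
      (1 + u) * Real.tanh (3 * u / 4) ^ (2 * k + 2) *
        ((3 / 2 * ((2 * k + 2 : ℕ) : ℝ)) / Real.sinh (3 * u / 2))
        * (1 - Real.tanh (3 * u / 2))) atTop (𝓝 0) := by
    have h3 := (err2.comp hN).const_mul 6
    rw [mul_zero] at h3
    exact h3
  have hD : Tendsto (fun k => Dl1 (2 * k + 2) (s k)) atTop (𝓝 0) :=
    squeeze_zero_norm (fun k => Dl1_le (h k)) e1
  have hlog : Tendsto (fun k => Real.log (s k 0)) atTop (𝓝 0) :=
    squeeze_zero_norm (fun k => s0_ge (h k)) e1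
  have hs : Tendsto (fun k => s k 0) atTop (𝓝 1) := by
    have h1 := (Real.continuous_exp.tendsto 0).comp hlog
    rw [Real.exp_zero] at h1
    refine h1.congr fun k => ?_
    exact Real.exp_log ((h k).pos 0)
  have hG : Tendsto (fun k => Gd (s k 0)) atTop (𝓝 (Gd 1)) := by
    have h1 : Tendsto Gd (𝓝[Set.Icc 0 1] 1) (𝓝 (Gd 1)) := Gd_cont 1 (by simp)
    refine h1.comp (tendsto_nhdsWithin_iff.mpr ⟨hs, Eventually.of_forall fun k => ?_⟩)
    exact ⟨((h k).pos 0).le, (h k).le 0⟩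
  -- the difference
  have hdiff : Tendsto (fun k : ℕ => Real.pi * (((2 * k + 2 : ℕ) : ℝ) * Real.log (s k 0)) -
      ∫ u in Set.Ioi (0 : ℝ), l1 (2 * k + 2) (s k) u *
        ((3 / 2 * ((2 * k + 2 : ℕ) : ℝ)) / Real.sinh (3 * u / 2))) atTop (𝓝 0) := by
    refine squeeze_zero_norm (fun k => ?_) e2
    exact c8_id (h k) (l1_props (h k)).2.1 (l1_props (h k)).2.2.2 (int_F (h k)).1
      (err2_int (2 * k + 2) (by omega))
  have hI : ∀ k : ℕ, ∫ u in Set.Ioi (0 : ℝ), l1 (2 * k + 2) (s k) u *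
      ((3 / 2 * ((2 * k + 2 : ℕ) : ℝ)) / Real.sinh (3 * u / 2)) =
      -(Real.pi ^ 2 / 6) + Gd (s k 0) - Dl1 (2 * k + 2) (s k) := by
    intro k
    rw [(int_F (h k)).2.2, dbl (h k), int_G (h k)]
    ring
  have hIlim : Tendsto (fun k : ℕ => -(Real.pi ^ 2 / 6) + Gd (s k 0) - Dl1 (2 * k + 2) (s k)) atTop
      (𝓝 (-(Real.pi ^ 2 / 6) + Gd 1 - 0)) := (hG.const_add _).sub hD
  have hsum := hdiff.add hIlim
  have hfin := hsum.const_mul (1 / Real.pi)
  have hval : 1 / Real.pi * (0 + (-(Real.pi ^ 2 / 6) + Gd 1 - 0)) = -(5 * Real.pi / 24) := by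
    rw [Gd_one]
    field_simp
    ring
  rw [hval] at hfin
  refine hfin.congr fun k => ?_
  rw [hI]
  push_cast
  field_simp
  ring

end H906C
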