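/- REMARK (helper179): the proof is in Pool/Agent/H906R3/CY/C8a.lean (module Pool.Agent.H906R3.CY.C8a,
theorem c8_of, with the statements of C1 C2b C3 C4 C5 C6 C7 as hypotheses; landed or being landed).
The file C8.lean below compiles against the Stubs; helper179 lands it automatically as soon as
C1 C2b C3 C4 C5 C6 C7 are on main. -/
import Pool.Agent.H906R3.CY.C8a
import Pool.Agent.H906R3.CY.C1
import Pool.Agent.H906R3.CY.C2b
import Pool.Agent.H906R3.CY.C3
import Pool.Agent.H906R3.CY.C4
import Pool.Agent.H906R3.CY.C5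
import Pool.Agent.H906R3.CY.C6
import Pool.Agent.H906R3.CY.C7

/-!
# C8: the asymptotics
-/

namespace H906C
open MeasureTheory Filter Topology

theorem tba_asymp (s : ℕ → ℝ → ℝ) (h : ∀ k, TBA (2 * k + 2) (s k)) :
    Tendsto (fun k : ℕ => (2 * k + 2 : ℝ) * Real.log (s k 0)) atTop
      (𝓝 (-(5 * Real.pi / 24))) :=
  c8_of Gd_one Gd_cont l1_props int_F dbl int_G Dl1_le s0_ge err1 err2 err2_int s h

end H906C
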