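import Pool.Agent.H906R3.CY.Defs

/-! W1b: basic facts on `Fc` for words of even length -/

namespace H906C
open Pool.Agent.H863R2.Cyl
open Pool.Agent.H863R2.Cyl.Sem1Aux (Inc RH Cons)
open Pool.Agent.H863R2.Cyl.Sem1Aux
open Pool.Agent.H988R2.Perc (Word)

theorem w1b_lsum {m : ℕ} (he : Even (m + 1)) (σ : Wd (m + 1)) : lsum σ.1 = 0 := by
  have h1 := σ.2.1
  have h2 := σ.2.2
  rw [lsum_count]
  unfold Ok at h2
  rw [h2, h1]
  obtain ⟨k, hk⟩ := he
  omega

theorem ht_per {m : ℕ} (he : Even (m + 1)) (σ : Wd (m + 1)) (H : ℤ → ℤ) (hH : Inc (sg σ.1) H)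
    (x : ℤ) : H (x + (m + 1)) = H x := by
  have hlen : (σ.1.length : ℤ) = m + 1 := by rw [σ.2.1]; push_cast; ring
  have hK : Inc (sg σ.1) (fun x => H (x + (m + 1))) := by
    intro y
    have h1 := hH (y + (m + 1))
    have h2 := sg_per σ.1 y 1
    rw [hlen, one_mul] at h2
    rw [h2] at h1
    show H (y + 1 + (m + 1)) = H (y + (m + 1)) + sg σ.1 y
    rw [← h1]
    congr 1
    ring
  have h0 : H (0 + (m + 1)) = H 0 := by
    have h1 := ht_take hH 0 σ.1.length le_rfl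
    rw [List.take_length, w1b_lsum he σ, zero_mul, add_zero, hlen] at h1
    exact h1
  exact Inc.unique hK hH 0 h0 x

theorem w1b_per_k {m : ℕ} (he : Even (m + 1)) (σ : Wd (m + 1)) (H : ℤ → ℤ)
    (hH : Inc (sg σ.1) H) (x k : ℤ) : H (x + k * (m + 1)) = H x := by
  have hp : Function.Periodic H ((m : ℤ) + 1) := fun y => ht_per he σ H hH y
  have h := hp.int_mul k
  have h2 := h x
  simpa using h2

theorem w1b_emod {m : ℕ} (he : Even (m + 1)) (σ : Wd (m + 1)) (H : ℤ → ℤ)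
    (hH : Inc (sg σ.1) H) (x : ℤ) : H (x % (m + 1)) = H x := by
  have h := w1b_per_k he σ H hH x (-(x / (m + 1)))
  rw [← h]
  congr 1
  have h2 := Int.emod_add_mul_ediv x (m + 1)
  linarith

theorem Fc_iff_min {m : ℕ} (he : Even (m + 1)) (σ : Wd (m + 1)) (H : ℤ → ℤ)
    (hH : Inc (sg σ.1) H) (b : ℤ) : Fc σ b ↔ ∀ x, H b ≤ H x := by
  unfold Fc
  rw [Rw_iff hH]
  constructor
  · rintro ⟨_, h2⟩ x
    have h3 := w1b_per_k he σ H hH (b + (x - b) % (m + 1)) ((x - b) / (m + 1))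
    have h4 := Int.emod_add_mul_ediv (x - b) (m + 1)
    have e : b + (x - b) % (m + 1) + (x - b) / (m + 1) * (m + 1) = x := by linarith
    rw [e] at h3
    rw [h3]
    have h5 := Int.emod_nonneg (x - b) (show ((m : ℤ) + 1) ≠ 0 by omega)
    have h6 := Int.emod_lt_of_pos (x - b) (show (0 : ℤ) < (m : ℤ) + 1 by omega)
    exact h2 _ (Or.inl ⟨by omega, by omega⟩)
  · intro h
    exact ⟨(ht_per he σ H hH b).symm, fun l _ => h l⟩

theorem Fc_nonempty {m : ℕ} (he : Even (m + 1)) (σ : Wd (m + 1)) : ∃ b : ℤ, Fc σ b := by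
  obtain ⟨H, hH, _⟩ := exists_ht (sg σ.1)
  obtain ⟨b, hb, hmin⟩ := Finset.exists_min_image (Finset.range (m + 1)) (fun r : ℕ => H r)
    ⟨0, Finset.mem_range.mpr (Nat.succ_pos m)⟩
  refine ⟨b, (Fc_iff_min he σ H hH b).mpr fun x => ?_⟩
  have h1 := w1b_emod he σ H hH x
  have h5 := Int.emod_nonneg x (show ((m : ℤ) + 1) ≠ 0 by omega)
  have h6 := Int.emod_lt_of_pos x (show (0 : ℤ) < (m : ℤ) + 1 by omega)
  have h2 := hmin (x % (m + 1)).toNat (Finset.mem_range.mpr (by omega))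
  have h7 : (((x % (m + 1)).toNat : ℕ) : ℤ) = x % (m + 1) := Int.toNat_of_nonneg h5
  rw [h7, h1] at h2
  exact h2

theorem Fc_per {m : ℕ} (he : Even (m + 1)) (σ : Wd (m + 1)) (b k : ℤ) :
    Fc σ (b + k * (m + 1)) ↔ Fc σ b := by
  obtain ⟨H, hH, _⟩ := exists_ht (sg σ.1)
  rw [Fc_iff_min he σ H hH, Fc_iff_min he σ H hH, w1b_per_k he σ H hH]

theorem w1b_Fc_emod {m : ℕ} (he : Even (m + 1)) (σ : Wd (m + 1)) (b : ℤ) :
    Fc σ (b % (m + 1)) ↔ Fc σ b := by
  obtain ⟨H, hH, _⟩ := exists_ht (sg σ.1)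
  rw [Fc_iff_min he σ H hH, Fc_iff_min he σ H hH, w1b_emod he σ H hH]

theorem w1b_sg (w : Word) (j : ℤ) : sg w j = 1 ∨ sg w j = -1 := by
  unfold sg
  split_ifs
  · exact Or.inl rfl
  · exact Or.inr rfl

theorem w1b_par {w : Word} {H : ℤ → ℤ} (hH : Inc (sg w) H) (x : ℤ) :
    (H x - x) % 2 = H 0 % 2 := by
  have hstep : ∀ y, (H (y + 1) - (y + 1)) % 2 = (H y - y) % 2 := by
    intro y
    have h1 := hH y
    rcases w1b_sg w y with h2 | h2 <;> rw [h2] at h1 <;> omega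
  induction x using Int.induction_on with
  | zero => simp
  | succ k ih => rw [hstep]; exact ih
  | pred k ih =>
    have := hstep (-(k : ℤ) - 1)
    rw [sub_add_cancel] at this
    rw [← this]
    exact ih

theorem Fc_parity {m : ℕ} (he : Even (m + 1)) (σ : Wd (m + 1)) {b b' : ℤ} (h : Fc σ b)
    (h' : Fc σ b') : Even (b - b') := by
  obtain ⟨H, hH, _⟩ := exists_ht (sg σ.1)
  have h1 := (Fc_iff_min he σ H hH b).mp h b'
  have h2 := (Fc_iff_min he σ H hH b').mp h' b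
  have h3 := w1b_par hH b
  have h4 := w1b_par hH b'
  rw [Int.even_iff]
  omega

theorem Fc_Rw {m : ℕ} (he : Even (m + 1)) (σ : Wd (m + 1)) {b b' : ℤ} (h : Fc σ b)
    (h' : Fc σ b') : Rw σ.1 b b' := by
  obtain ⟨H, hH, _⟩ := exists_ht (sg σ.1)
  have h1 := (Fc_iff_min he σ H hH b).mp h
  have h2 := (Fc_iff_min he σ H hH b').mp h'
  rw [Rw_iff hH]
  exact ⟨le_antisymm (h1 b') (h2 b), fun l _ => h1 l⟩

theorem w1b_rotate_ok {m : ℕ} (σ : Wd (m + 1)) (n : ℕ) :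
    (σ.1.rotate n).length = m + 1 ∧ Ok (σ.1.rotate n) := by
  have h1 := σ.2.1
  have h2 := σ.2.2
  refine ⟨by rw [List.length_rotate, h1], ?_⟩
  unfold Ok at h2 ⊢
  rw [List.length_rotate, (List.rotate_perm σ.1 n).count_eq, h2]

theorem w1b_rot_val {m : ℕ} (σ : Wd (m + 1)) : (rot m σ).1 = rotr σ.1 :=
  Pool.Agent.H863R2.Cyl.rot_val m σ

theorem w1b_rotInv_val {m : ℕ} (σ : Wd (m + 1)) : (rotInv m σ).1 = rotl σ.1 :=
  Pool.Agent.H863R2.Cyl.rotInv_val m σ

theorem Fc_rot {m : ℕ} (he : Even (m + 1)) (σ : Wd (m + 1)) (b : ℤ) :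
    Fc (rot m σ) (b + 1) ↔ Fc σ b := by
  have hne : σ.1 ≠ [] := by
    intro h
    have := σ.2.1
    rw [h] at this
    simp at this
  unfold Fc
  rw [w1b_rot_val]
  have h := Rw_rotr σ.1 hne b (b + (m + 1))
  rw [← h]
  have e : b + 1 + ((m : ℤ) + 1) = b + (m + 1) + 1 := by ring
  rw [e]

theorem Fc_rotInv {m : ℕ} (he : Even (m + 1)) (σ : Wd (m + 1)) (b : ℤ) :
    Fc (rotInv m σ) b ↔ Fc σ (b + 1) := by
  unfold Fc
  rw [w1b_rotInv_val]
  have h := Rw_translate (rotl σ.1) σ.1 1 (fun j => by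
    unfold rotl
    rw [sg_rotate]
    rfl) b (b + (m + 1))
  rw [← h]
  have e : b + 1 + ((m : ℤ) + 1) = b + (m + 1) + 1 := by ring
  rw [e]

theorem nF_pos {m : ℕ} (he : Even (m + 1)) (σ : Wd (m + 1)) :
    1 ≤ nF σ ∧ 2 * nF σ ≤ m + 1 := by
  classical
  have hval : ∀ b : Fin (m + 1), Fc σ (((b + 1 : Fin (m + 1)).val : ℕ) : ℤ) ↔
      Fc σ ((b.val : ℤ) + 1) := by
    intro b
    have h1 : (b + 1 : Fin (m + 1)).val = (b.val + 1) % (m + 1) := by
      rw [Fin.val_add, Fin.val_one', Nat.add_mod_mod]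
    rw [h1]
    have h2 : (((b.val + 1) % (m + 1) : ℕ) : ℤ) = ((b.val : ℤ) + 1) % ((m : ℤ) + 1) := by
      push_cast
      rfl
    rw [h2, w1b_Fc_emod he σ]
  unfold nF
  constructor
  · obtain ⟨b, hb⟩ := Fc_nonempty he σ
    have h5 := Int.emod_nonneg b (show ((m : ℤ) + 1) ≠ 0 by omega)
    have h6 := Int.emod_lt_of_pos b (show (0 : ℤ) < (m : ℤ) + 1 by omega)
    have h7 : (((b % (m + 1)).toNat : ℕ) : ℤ) = b % (m + 1) := Int.toNat_of_nonneg h5
    apply Finset.card_pos.mpr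
    refine ⟨⟨(b % (m + 1)).toNat, by omega⟩, ?_⟩
    rw [Finset.mem_filter]
    refine ⟨Finset.mem_univ _, ?_⟩
    show Fc σ (((b % (m + 1)).toNat : ℕ) : ℤ)
    rw [h7, w1b_Fc_emod he σ]
    exact hb
  · set S := Finset.univ.filter fun b : Fin (m + 1) => Fc σ (b.val : ℤ) with hS
    have hdisj : Disjoint S (S.image (fun b => b + 1)) := by
      rw [Finset.disjoint_left]
      intro a ha ha'
      obtain ⟨b, hb, hba⟩ := Finset.mem_image.mp ha'
      rw [hS, Finset.mem_filter] at ha hb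
      have h1 := ha.2
      rw [← hba, hval b] at h1
      have h2 := Fc_parity he σ h1 hb.2
      rw [Int.even_iff] at h2
      omega
    have hcard : (S.image (fun b => b + 1)).card = S.card :=
      Finset.card_image_of_injective _ (add_left_injective 1)
    have h3 : (S ∪ S.image (fun b => b + 1)).card ≤ m + 1 := by
      have := Finset.card_le_univ (S ∪ S.image (fun b => b + 1))
      rwa [Fintype.card_fin] at this
    rw [Finset.card_union_of_disjoint hdisj, hcard] at h3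
    omega

end H906C
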