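import Pool.Agent.H906R3.CY.Defs
import Pool.Agent.H906R3.CY.W1b

/-!
# Column sums of the transfer matrix on words
-/

namespace H906C
open Pool.Agent.H863R2.Cyl
open Pool.Agent.H863R2.Cyl.Sem1Aux (Inc RH Cons)
open Pool.Agent.H988R2.Perc (Word)


theorem col_cl {m : ℕ} (c : Fin (m + 1) → Bool) (j : Fin (m + 1)) : cl c (j.val : ℤ) = c j := by
  unfold cl
  have h : ((j.val : ℤ) % (m + 1 : ℤ)).toNat = j.val := by
    have h1 : (j.val : ℤ) % (m + 1 : ℤ) = (j.val : ℤ) := by
      apply Int.emod_eq_of_lt (by positivity)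
      have := j.isLt
      exact_mod_cast this
    rw [h1, Int.toNat_natCast]
  rw [h]
  congr 1
  apply Fin.ext
  exact Nat.mod_eq_of_lt j.isLt

theorem col_cl_per {m : ℕ} (c : Fin (m + 1) → Bool) (b k : ℤ) :
    cl c (b + k * (m + 1)) = cl c b := by
  unfold cl
  rw [Int.add_mul_emod_self_right]

theorem col_rep (m : ℕ) (b : ℤ) : ∃ (j : Fin (m + 1)) (k : ℤ), b = (j.val : ℤ) + k * (m + 1) := by
  have hpos : (0 : ℤ) < (m : ℤ) + 1 := by positivity
  have h0 : 0 ≤ b % ((m : ℤ) + 1) := Int.emod_nonneg _ hpos.ne'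
  have h1 : b % ((m : ℤ) + 1) < (m : ℤ) + 1 := Int.emod_lt_of_pos _ hpos
  refine ⟨⟨(b % ((m : ℤ) + 1)).toNat, ?_⟩, b / ((m : ℤ) + 1), ?_⟩
  · have : ((b % ((m : ℤ) + 1)).toNat : ℤ) < (m : ℤ) + 1 := by
      rw [Int.toNat_of_nonneg h0]; exact h1
    exact_mod_cast this
  · show b = ((b % ((m : ℤ) + 1)).toNat : ℤ) + b / ((m : ℤ) + 1) * (m + 1)
    rw [Int.toNat_of_nonneg h0]
    have := Int.emod_add_mul_ediv b ((m : ℤ) + 1)
    linarith

theorem col_cond {m : ℕ} (he : Even (m + 1)) (c : Fin (m + 1) → Bool) (σ : Wd (m + 1)) :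
    (∀ b : ℤ, Fc σ b → (cl c (b - 1) = false ∧ cl c b = true)) ↔
      ∀ j : Fin (m + 1), (Fc σ (j.val : ℤ) → c j = true) ∧
        (Fc σ ((j.val : ℤ) + 1) → c j = false) := by
  constructor
  · intro h j
    constructor
    · intro hj
      have := (h _ hj).2
      rwa [col_cl] at this
    · intro hj
      have := (h _ hj).1
      rw [add_sub_cancel_right, col_cl] at this
      exact this
  · intro h b hb
    constructor
    · obtain ⟨j, k, hjk⟩ := col_rep m (b - 1)
      have h1 : Fc σ ((j.val : ℤ) + 1) := by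
        rw [← Fc_per he σ _ k]
        have : (j.val : ℤ) + 1 + k * (m + 1) = b := by linarith
        rw [this]; exact hb
      rw [hjk, col_cl_per, col_cl]
      exact (h j).2 h1
    · obtain ⟨j, k, hjk⟩ := col_rep m b
      have h1 : Fc σ (j.val : ℤ) := by
        rw [← Fc_per he σ _ k, ← hjk]; exact hb
      rw [hjk, col_cl_per, col_cl]
      exact (h j).1 h1

open Classical in
theorem col_card {m : ℕ} (he : Even (m + 1)) (σ : Wd (m + 1)) :
    (Finset.univ.filter fun j : Fin (m + 1) => Fc σ ((j.val : ℤ) + 1)).card = nF σ := by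
  unfold nF
  rw [Finset.card_filter, Finset.card_filter]
  rw [← Equiv.sum_comp (finRotate (m + 1)) (fun j : Fin (m + 1) =>
    if Fc σ (j.val : ℤ) then 1 else 0)]
  refine Finset.sum_congr rfl fun j _ => ?_
  have h : Fc σ ((j.val : ℤ) + 1) ↔ Fc σ ((finRotate (m + 1) j).val : ℤ) := by
    by_cases hj : j = Fin.last m
    · subst hj
      rw [finRotate_last]
      have := Fc_per he σ 0 1
      simp only [Fin.val_last, Fin.val_zero]
      rw [show (((0 : ℕ) : ℤ)) = 0 from rfl]
      rw [← this]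
      have e : (0 : ℤ) + 1 * (m + 1) = (m : ℤ) + 1 := by ring
      rw [e]
    · have h1 : (finRotate (m + 1) j).val = j.val + 1 := coe_finRotate_of_ne_last hj
      rw [h1]
      push_cast
      exact Iff.rfl
  by_cases h1 : Fc σ ((j.val : ℤ) + 1)
  · rw [if_pos h1, if_pos (h.mp h1)]
  · rw [if_neg h1, if_neg (fun h2 => h1 (h.mpr h2))]

open Classical in
theorem col_prod {R : Type*} [CommRing R] {m : ℕ} (he : Even (m + 1)) (q x : R)
    (hq : q ^ 2 + q + 1 = 0) (σ : Wd (m + 1)) :
    ∏ j : Fin (m + 1), ∑ v : Bool, (if ((Fc σ (j.val : ℤ) → v = true) ∧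
        (Fc σ ((j.val : ℤ) + 1) → v = false)) then wt q v x else 0) =
      (1 - x + x ^ 2) ^ nF σ * (1 + x) ^ (m + 1 - 2 * nF σ) := by
  have hdis : ∀ j : Fin (m + 1), ¬ (Fc σ (j.val : ℤ) ∧ Fc σ ((j.val : ℤ) + 1)) := by
    rintro j ⟨h1, h2⟩
    have := Fc_parity he σ h2 h1
    rw [add_sub_cancel_left] at this
    exact Int.not_even_one this
  have hg : ∀ j : Fin (m + 1), ∑ v : Bool, (if ((Fc σ (j.val : ℤ) → v = true) ∧
        (Fc σ ((j.val : ℤ) + 1) → v = false)) then wt q v x else 0) =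
      (if Fc σ (j.val : ℤ) then wt q true x else 1) *
        (if Fc σ ((j.val : ℤ) + 1) then wt q false x else 1) *
        (if (Fc σ (j.val : ℤ) ∨ Fc σ ((j.val : ℤ) + 1)) then 1 else (1 + x)) := by
    intro j
    rw [Fintype.sum_bool]
    by_cases h1 : Fc σ (j.val : ℤ)
    · have h2 : ¬ Fc σ ((j.val : ℤ) + 1) := fun h => hdis j ⟨h1, h⟩
      simp [h1, h2]
    · by_cases h2 : Fc σ ((j.val : ℤ) + 1)
      · simp [h1, h2]
      · simp only [h1, h2, false_implies, and_self, if_true, or_self, if_false, one_mul]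
        unfold wt
        simp only [if_true, Bool.false_eq_true, if_false]
        linear_combination (-(1 + x)) * hq
  rw [Finset.prod_congr rfl (fun j _ => hg j), Finset.prod_mul_distrib, Finset.prod_mul_distrib]
  have p1 : ∏ j : Fin (m + 1), (if Fc σ (j.val : ℤ) then wt q true x else 1) =
      (wt q true x) ^ nF σ := by
    rw [Finset.prod_ite, Finset.prod_const, Finset.prod_const_one, mul_one]
    rfl
  have p2 : ∏ j : Fin (m + 1), (if Fc σ ((j.val : ℤ) + 1) then wt q false x else 1) =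
      (wt q false x) ^ nF σ := by
    rw [Finset.prod_ite, Finset.prod_const, Finset.prod_const_one, mul_one, col_card he]
  have p3 : ∏ j : Fin (m + 1), (if (Fc σ (j.val : ℤ) ∨ Fc σ ((j.val : ℤ) + 1)) then 1
      else (1 + x)) = (1 + x) ^ (m + 1 - 2 * nF σ) := by
    rw [Finset.prod_ite, Finset.prod_const_one, one_mul, Finset.prod_const]
    congr 1
    rw [Finset.filter_not, Finset.card_sdiff_of_subset (Finset.filter_subset _ _),
      Finset.card_univ, Fintype.card_fin, Finset.filter_or, Finset.card_union_of_disjoint,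
      col_card he]
    · have : (Finset.univ.filter fun b : Fin (m + 1) => Fc σ (b.val : ℤ)).card = nF σ := rfl
      rw [this, two_mul]
    · rw [Finset.disjoint_filter]
      intro j _ h1 h2
      exact hdis j ⟨h1, h2⟩
  rw [p1, p2, p3, ← mul_pow]
  congr 2
  unfold wt
  simp only [if_true, Bool.false_eq_true, if_false]
  linear_combination (q - 1 + x * (q ^ 2 - q + 1 - 1) + x ^ 2 * (q - 1) + x) * hq

theorem TW_col {R : Type*} [CommRing R] {m : ℕ} (he : Even (m + 1)) (q x : R)
    (hq : q ^ 2 + q + 1 = 0) (σ : Wd (m + 1)) :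
    ∑ τ, TW m q x 0 τ σ = (1 + x) ^ (m + 1)
      - (1 - x + x ^ 2) ^ nF σ * (1 + x) ^ (m + 1 - 2 * nF σ) := by
  classical
  unfold TW
  rw [Finset.sum_comm]
  have h1 : ∀ c : Fin (m + 1) → Bool, (∑ τ, if Tc m c σ = τ then
      (∏ j, wt q (c j) x) * (0 : R) ^ kT m c σ else 0) =
      (∏ j, wt q (c j) x) - (∏ j : Fin (m + 1), if ((Fc σ (j.val : ℤ) → c j = true) ∧
        (Fc σ ((j.val : ℤ) + 1) → c j = false)) then wt q (c j) x else 0) := by
    intro c
    rw [Finset.sum_ite_eq Finset.univ (Tc m c σ), if_pos (Finset.mem_univ _),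
      Finset.prod_ite_zero]
    unfold kT
    by_cases h : ∀ b : ℤ, Fc σ b → (cl c (b - 1) = false ∧ cl c b = true)
    · rw [if_pos h, if_pos (fun j _ => (col_cond he c σ).mp h j)]
      rw [pow_one, mul_zero, sub_self]
    · rw [if_neg h, if_neg (fun h2 => h ((col_cond he c σ).mpr (fun j => h2 j (Finset.mem_univ j))))]
      rw [pow_zero, mul_one, sub_zero]
  rw [Finset.sum_congr rfl (fun c _ => h1 c), Finset.sum_sub_distrib]
  congr 1
  · have := Finset.prod_univ_sum (fun _ : Fin (m + 1) => (Finset.univ : Finset Bool))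
      (fun _ v => wt q v x)
    rw [Fintype.piFinset_univ] at this
    rw [← this, Finset.prod_const, Finset.card_univ, Fintype.card_fin, Fintype.sum_bool]
    congr 1
    unfold wt
    simp only [if_true, Bool.false_eq_true, if_false]
    linear_combination (-(1 + x)) * hq
  · have := Finset.prod_univ_sum (fun _ : Fin (m + 1) => (Finset.univ : Finset Bool))
      (fun j v => if ((Fc σ (j.val : ℤ) → v = true) ∧
        (Fc σ ((j.val : ℤ) + 1) → v = false)) then wt q v x else 0)
    rw [Fintype.piFinset_univ] at this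
    rw [← this]
    exact col_prod he q x hq σ

end H906C
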