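import Mathlib

/-!
# The one-arm event on cylinders of even circumference

Tiles: row `t` contains the tiles `j : Fin (2k+2)`; the tile `(t,j)` has the corners (faces)
`(j,t), (j+1,t), (j,t+1), (j+1,t+1)`. The state `false` joins `(j,t)` to `(j+1,t+1)`, the state
`true` joins `(j+1,t)` to `(j,t+1)`. The faces `(a,s)` with `a+s` even are the sites of the square
lattice (rotated by 45 degrees), the others those of the dual lattice; with independent fair states
this is critical bond percolation on the cylinder.
-/

namespace H906C

/-- the links of a configuration of tiles -/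
inductive Link {k M : ℕ} (c : Fin M → Fin (2 * k + 2) → Bool) :
    Fin (2 * k + 2) × ℕ → Fin (2 * k + 2) × ℕ → Prop
  | up (t : Fin M) (j : Fin (2 * k + 2)) : c t j = false → Link c (j, t.val) (j + 1, t.val + 1)
  | down (t : Fin M) (j : Fin (2 * k + 2)) : c t j = true → Link c (j + 1, t.val) (j, t.val + 1)

/-- a site of the bottom level is joined to a site of the top level -/
def Crosses {k M : ℕ} (c : Fin M → Fin (2 * k + 2) → Bool) : Prop :=
  ∃ a b : Fin (2 * k + 2), Even a.val ∧ Relation.EqvGen (Link c) (a, 0) (b, M)

open Classical in
/-- the probability of an open crossing of the cylinder with `2k+2` tiles per row and `M` rows -/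
noncomputable def crossProb (k M : ℕ) : ℝ :=
  ((Finset.univ.filter fun c : Fin M → Fin (2 * k + 2) → Bool => Crosses c).card : ℝ)
    / 2 ^ ((2 * k + 2) * M)

end H906C
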