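import Pool.Agent.H863R2.Cyl.Sem3
import Pool.Agent.H906R3.K6.Defs
import Pool.Agent.H906R3.CY.Model

/-!
# One-arm rate on even cylinders: definitions
-/

namespace H906C
open Pool.Agent.H863R2.Cyl
open Pool.Agent.H863R2.Cyl.Sem1Aux (Inc RH Cons)
open Pool.Agent.H988R2.Perc (Word)

/-! ## 1. words -/

/-- the lifted face `b` is connected to its translate (equivalently: it has minimal height) -/
def Fc {m : ℕ} (σ : Wd (m + 1)) (b : ℤ) : Prop := Rw σ.1 b (b + (m + 1))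

open Classical in
/-- joining the strands `i`, `i+1` closes a loop around the cylinder -/
noncomputable def kE (m i : ℕ) (σ : Wd (m + 1)) : ℕ :=
  if ∀ b : ℤ, Fc σ b ↔ ((m : ℤ) + 1) ∣ b - (i + 1) then 1 else 0

open Classical in
/-- the row `c` closes a loop around the cylinder -/
noncomputable def kT (m : ℕ) (c : Fin (m + 1) → Bool) (σ : Wd (m + 1)) : ℕ :=
  if ∀ b : ℤ, Fc σ b → (cl c (b - 1) = false ∧ cl c b = true) then 1 else 0

/-- number of closings along a word -/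
noncomputable def kW (m : ℕ) (c : Fin (m + 1) → Bool) (k : ℕ) : ℕ → Wd (m + 1) → ℕ
  | 0, _ => 0
  | (j + 1), σ => kW m c k j σ +
      if c (ix m (k + j + 1)) = true then kE m (k + j) (word m c k j σ) else 0

/-- the word `(true false)^(k+1)` -/
def sig0 (k : ℕ) : Wd (2 * k + 1 + 1) :=
  ⟨(List.replicate (k + 1) [true, false]).flatten, by
    refine ⟨?_, ?_⟩
    · simp; ring
    · unfold Ok
      simp [List.count_flatten]
      omega⟩

/-- the word `(false true)^(k+1)` -/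
def sig1 (k : ℕ) : Wd (2 * k + 1 + 1) :=
  ⟨(List.replicate (k + 1) [false, true]).flatten, by
    refine ⟨?_, ?_⟩
    · simp; ring
    · unfold Ok
      simp [List.count_flatten]
      omega⟩

open Classical in
/-- the number of faces of minimal height -/
noncomputable def nF {m : ℕ} (σ : Wd (m + 1)) : ℕ :=
  (Finset.univ.filter fun b : Fin (m + 1) => Fc σ (b.val : ℤ)).card

open Classical in
/-- the killed transfer matrix: rows = new pattern -/
noncomputable def AA (m : ℕ) : Matrix (Wd (m + 1)) (Wd (m + 1)) ℝ :=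
  fun τ σ => ∑ c : Fin (m + 1) → Bool, if Tc m c σ = τ ∧ kT m c σ = 0 then 1 else 0

section ring
variable {R : Type*} [CommRing R]

open Classical in
/-- row transfer matrix on words, spectral parameter `x`, weight `w` per closing -/
noncomputable def TW (m : ℕ) (q x w : R) : Matrix (Wd (m + 1)) (Wd (m + 1)) R :=
  fun τ σ => ∑ c : Fin (m + 1) → Bool,
    if Tc m c σ = τ then (∏ j, wt q (c j) x) * w ^ kT m c σ else 0

/-- the (lifted) strands `i < j` are joined by an arc opening at `i` and closing at `j` -/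
def Arc (w : Word) (i j : ℤ) : Prop :=
  i < j ∧ Sh w i (j + 1) = 0 ∧ ∀ l, i < l → l ≤ j → 0 < Sh w i l

/-- weight of an arc of length `l` with opening spin `a` and closing spin `b` -/
def aw (q : R) (ζ : Rˣ) (l : ℕ) (a b : Bool) : R :=
  if a = b then 0 else if a = true then (((ζ⁻¹) ^ l : Rˣ) : R) else -q ^ 2 * ((ζ ^ l : Rˣ) : R)

open Classical in
/-- the map from words to spins -/
noncomputable def ThW (m : ℕ) (q : R) (ζ : Rˣ) : Matrix (Fin (m + 1) → Bool) (Wd (m + 1)) R :=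
  fun s σ => ∏ i ∈ Finset.range (m + 1), ∏ l ∈ Finset.range (m + 1),
    if Arc σ.1 i (i + l) then aw q ζ l (s (ix m i)) (s (ix m (i + l))) else 1

end ring

/-! ## 2. output of the algebraic part -/

open Polynomial in
/-- what the algebraic part provides: `p j` = mass of the patterns with `j` minimal faces -/
structure Spec (N : ℕ) (p : ℕ → ℝ) (t V : ℂ[X]) : Prop where
  even : Even N
  two_le : 2 ≤ N
  nonneg : ∀ j, 0 ≤ p j
  supp : ∀ j, p j ≠ 0 → 1 ≤ j ∧ 2 * j ≤ N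
  sum : ∑ j ∈ Finset.range (N + 1), p j = 1
  t_eq : ∀ x : ℂ, t.eval x = (1 + x) ^ N
    - ∑ j ∈ Finset.range (N + 1), (p j : ℂ) * ((1 - x + x ^ 2) ^ j * (1 + x) ^ (N - 2 * j))
  three : ∀ x : ℂ, t.eval (H906K.om * x) * t.eval (H906K.om ^ 2 * x) * t.eval x
    = ((1 + H906K.om * x) * (1 + H906K.om ^ 2 * x)) ^ N * t.eval x
      + ((1 + H906K.om ^ 2 * x) * (1 + x)) ^ N * t.eval (H906K.om * x)
      + ((1 + x) * (1 + H906K.om * x)) ^ N * t.eval (H906K.om ^ 2 * x)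
  two : ∀ x : ℂ, t.eval (H906K.om * x) * t.eval (H906K.om ^ 2 * x)
    = ((1 + H906K.om * x) * (1 + H906K.om ^ 2 * x)) ^ N + (1 + x) ^ N * V.eval x

/-! ## 3. complex functions -/

/-- `P(z) = 1 - 3 / (4 cosh² (z/2))` -/
noncomputable def Pc (z : ℂ) : ℂ := 1 - 3 / (4 * Complex.cosh (z / 2) ^ 2)

/-- `s(z) = 1 - ∑ p_j P(z)^j = t(e^z) / (1+e^z)^N` -/
noncomputable def sc (N : ℕ) (p : ℕ → ℝ) (z : ℂ) : ℂ :=
  1 - ∑ j ∈ Finset.range (N + 1), (p j : ℂ) * Pc z ^ j

/-- `h(z) = V(-e^z) ((e^{z/2}+1)/(e^z+e^{z/2}+1))^{2N}` -/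
noncomputable def hh (N : ℕ) (V : Polynomial ℂ) (z : ℂ) : ℂ :=
  V.eval (-Complex.exp z) *
    ((Complex.exp (z / 2) + 1) / (Complex.exp z + Complex.exp (z / 2) + 1)) ^ (2 * N)

/-! ## 4. real functions -/

/-- `s` on the real line -/
noncomputable def sr (N : ℕ) (p : ℕ → ℝ) (u : ℝ) : ℝ :=
  1 - ∑ j ∈ Finset.range (N + 1), p j * (1 - 3 / (4 * Real.cosh (u / 2) ^ 2)) ^ j

/-- `log (1 + s²)` -/
noncomputable def LL (s : ℝ → ℝ) (u : ℝ) : ℝ := Real.log (1 + s u ^ 2)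

/-- `kk * log (1 + s²)` -/
noncomputable def bb (s : ℝ → ℝ) (l : ℝ) : ℝ := ∫ u : ℝ, H906K.kk (l - u) * LL s u

/-- `tanh(3u/4)^N exp (kk * log (1+s²))` -/
noncomputable def yy (N : ℕ) (s : ℝ → ℝ) (u : ℝ) : ℝ :=
  Real.tanh (3 * u / 4) ^ N * Real.exp (bb s u)

/-- `log (1 - y)` -/
noncomputable def l1 (N : ℕ) (s : ℝ → ℝ) (u : ℝ) : ℝ := Real.log (1 - yy N s u)

/-- the integral equation and the qualitative properties of `s` -/
structure TBA (N : ℕ) (s : ℝ → ℝ) : Prop where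
  evenN : Even N
  two_le : 2 ≤ N
  sym : ∀ u, s (-u) = s u
  pos : ∀ u, 0 < s u
  le : ∀ u, s u ≤ 1
  diff : ContDiff ℝ 1 s
  anti : AntitoneOn s (Set.Ici 0)
  top : Filter.Tendsto s Filter.atTop (nhds 0)
  dec : ∃ K, ∀ u, s u ≤ K * Real.exp (-|u|) ∧ |deriv s u| ≤ K * Real.exp (-|u|)
  low : ∀ u, Real.exp (-(2 * |u|)) / 16 ≤ 1 - yy N s u
  eq : ∀ l, Real.log (s l) = ∫ u : ℝ, H906K.kk (l - u) * l1 N s u

/-- antiderivative of `log(1-r)/r` -/
noncomputable def Fd (r : ℝ) : ℝ := ∫ t in (0 : ℝ)..r, Real.log (1 - t) / t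

/-- antiderivative of `2 r log r / (1+r²)` -/
noncomputable def Gd (r : ℝ) : ℝ := ∫ t in (0 : ℝ)..r, 2 * t * Real.log t / (1 + t ^ 2)

/-- the cross term -/
noncomputable def Dl1 (N : ℕ) (s : ℝ → ℝ) : ℝ :=
  2 * ∫ u in Set.Ioi (0 : ℝ), l1 N s u *
    (∫ v in Set.Iio (0 : ℝ), H906K.kk (u - v) * deriv (LL s) v)

end H906C
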