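import Pool.Agent.H906R3.CY.Model

/-!
# The number of interface loops around the cylinder

`(b,t) : ℤ × ℕ` are the faces of the universal cover of the cylinder. A face `(b,t)` belongs to the
cluster surrounding the cylinder at level `t` if it is connected to its translate by the rows below
`t` (the sites of the bottom level are wired). The row `t` closes a loop of the interface around the
cylinder if no such face is joined to the level `t+1`; `loops c` is the number of such rows.
-/

namespace H906C

/-- the tile of the cylinder below the lifted tile `j` -/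
def tileIx (k : ℕ) (j : ℤ) : Fin (2 * k + 2) :=
  ⟨(j % (2 * k + 2 : ℤ)).toNat, by
    have h1 := Int.emod_nonneg j (show (2 * k + 2 : ℤ) ≠ 0 by omega)
    have h2 := Int.emod_lt_of_pos j (show (0 : ℤ) < 2 * k + 2 by omega)
    omega⟩

/-- the connections of the universal cover by the rows below `t` and the wiring of the bottom -/
inductive LinkZ {k M : ℕ} (c : Fin M → Fin (2 * k + 2) → Bool) (t : ℕ) :
    ℤ × ℕ → ℤ × ℕ → Prop
  | bot (a b : ℤ) : Even a → Even b → LinkZ c t (a, 0) (b, 0)
  | up (i : Fin M) (j : ℤ) : i.val < t → c i (tileIx k j) = false →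
      LinkZ c t (j, i.val) (j + 1, i.val + 1)
  | down (i : Fin M) (j : ℤ) : i.val < t → c i (tileIx k j) = true →
      LinkZ c t (j + 1, i.val) (j, i.val + 1)

/-- the face `(b,t)` belongs to the cluster around the cylinder at level `t` -/
def Around {k M : ℕ} (c : Fin M → Fin (2 * k + 2) → Bool) (t : ℕ) (b : ℤ) : Prop :=
  Relation.EqvGen (LinkZ c t) (b, t) (b + (2 * k + 2), t)

/-- no face of the cluster around the cylinder at level `t` is joined to the level `t+1` -/
def Cut {k M : ℕ} (c : Fin M → Fin (2 * k + 2) → Bool) (t : Fin M) : Prop :=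
  ∀ b : ℤ, Around c t.val b → c t (tileIx k (b - 1)) = false ∧ c t (tileIx k b) = true

open Classical in
/-- the number of interface loops around the cylinder -/
noncomputable def loops {k M : ℕ} (c : Fin M → Fin (2 * k + 2) → Bool) : ℕ :=
  (Finset.univ.filter fun t : Fin M => Cut c t).card

/-- the generating function `E[w ^ loops]` -/
noncomputable def genLoops (k M : ℕ) (w : ℝ) : ℝ :=
  (∑ c : Fin M → Fin (2 * k + 2) → Bool, w ^ loops c) / 2 ^ ((2 * k + 2) * M)

end H906C
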