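import Pool.Agent.H906R3.CY.Defs
import Pool.Agent.H906R3.CY.Model2

/-!
# General weight `w` per loop: definitions
-/

namespace H906C
open Pool.Agent.H863R2.Cyl
open Pool.Agent.H988R2.Perc (Word)

open Classical in
/-- the weighted transfer matrix at `x = 1` -/
noncomputable def AW (m : ℕ) (w : ℝ) : Matrix (Wd (m + 1)) (Wd (m + 1)) ℝ :=
  fun τ σ => ∑ c : Fin (m + 1) → Bool, if Tc m c σ = τ then w ^ kT m c σ else 0

open Polynomial in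
/-- what the algebraic part provides for the weight `w` -/
structure SpecW (N : ℕ) (w : ℝ) (p : ℕ → ℝ) (t V : ℂ[X]) : Prop where
  even : Even N
  two_le : 2 ≤ N
  w0 : 0 < w
  w2 : w < 2
  w1 : w ≠ 1
  nonneg : ∀ j, 0 ≤ p j
  supp : ∀ j, p j ≠ 0 → 1 ≤ j ∧ 2 * j ≤ N
  sum : ∑ j ∈ Finset.range (N + 1), p j = 1
  t_eq : ∀ x : ℂ, t.eval x = (1 + x) ^ N - (1 - (w : ℂ))
    * ∑ j ∈ Finset.range (N + 1), (p j : ℂ) * ((1 - x + x ^ 2) ^ j * (1 + x) ^ (N - 2 * j))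
  three : ∀ x : ℂ, t.eval (H906K.om * x) * t.eval (H906K.om ^ 2 * x) * t.eval x
    = ((1 + H906K.om * x) * (1 + H906K.om ^ 2 * x)) ^ N * t.eval x
      + ((1 + H906K.om ^ 2 * x) * (1 + x)) ^ N * t.eval (H906K.om * x)
      + ((1 + x) * (1 + H906K.om * x)) ^ N * t.eval (H906K.om ^ 2 * x)
      + ((w : ℂ) ^ 3 - 3 * w) * (1 + x ^ 3) ^ N
  two : ∀ x : ℂ, t.eval (H906K.om * x) * t.eval (H906K.om ^ 2 * x)
    = ((1 + H906K.om * x) * (1 + H906K.om ^ 2 * x)) ^ N + (1 + x) ^ N * V.eval x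

/-- `s(z) = 1 - (1-w) ∑ p_j P(z)^j = t(e^z) / (1+e^z)^N` -/
noncomputable def scw (N : ℕ) (w : ℝ) (p : ℕ → ℝ) (z : ℂ) : ℂ :=
  1 - (1 - (w : ℂ)) * ∑ j ∈ Finset.range (N + 1), (p j : ℂ) * Pc z ^ j

/-- `s` on the real line -/
noncomputable def srw (N : ℕ) (w : ℝ) (p : ℕ → ℝ) (u : ℝ) : ℝ :=
  1 - (1 - w) * ∑ j ∈ Finset.range (N + 1), p j * (1 - 3 / (4 * Real.cosh (u / 2) ^ 2)) ^ j

/-- `log (1 + (w³-3w) s + s²)` -/
noncomputable def LW (w : ℝ) (s : ℝ → ℝ) (u : ℝ) : ℝ :=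
  Real.log (1 + (w ^ 3 - 3 * w) * s u + s u ^ 2)

/-- `kk * LW` -/
noncomputable def bw (w : ℝ) (s : ℝ → ℝ) (l : ℝ) : ℝ := ∫ u : ℝ, H906K.kk (l - u) * LW w s u

/-- `± tanh(3u/4)^N exp (kk * LW)` -/
noncomputable def YW (N : ℕ) (w : ℝ) (s : ℝ → ℝ) (u : ℝ) : ℝ :=
  (if w < 1 then -1 else 1) * (Real.tanh (3 * u / 4) ^ N * Real.exp (bw w s u))

/-- `log (1 + Y)` -/
noncomputable def lw (N : ℕ) (w : ℝ) (s : ℝ → ℝ) (u : ℝ) : ℝ := Real.log (1 + YW N w s u)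

/-- the integral equation and the qualitative properties of `s` -/
structure TBAW (N : ℕ) (w : ℝ) (s : ℝ → ℝ) : Prop where
  evenN : Even N
  two_le : 2 ≤ N
  w0 : 0 < w
  w2 : w < 2
  w1 : w ≠ 1
  sym : ∀ u, s (-u) = s u
  bet : ∀ u, (w < 1 → w ≤ s u ∧ s u ≤ 1) ∧ (1 < w → 1 ≤ s u ∧ s u ≤ w)
  diff : ContDiff ℝ 1 s
  mono : (w < 1 → AntitoneOn s (Set.Ici 0)) ∧ (1 < w → MonotoneOn s (Set.Ici 0))
  top : Filter.Tendsto s Filter.atTop (nhds w)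
  dec : ∃ K, ∀ u, |s u - w| ≤ K * Real.exp (-|u|) ∧ |deriv s u| ≤ K * Real.exp (-|u|)
  low : ∀ u, (min w (2 - w)) ^ 2 ≤ 1 + YW N w s u
  eq : ∀ l, Real.log (s l) = ∫ u : ℝ, H906K.kk (l - u) * lw N w s u

/-- antiderivative of `log(1+r)/r` -/
noncomputable def Fw (r : ℝ) : ℝ := ∫ t in (0 : ℝ)..r, Real.log (1 + t) / t

/-- antiderivative of `log r (c + 2r) / (1 + c r + r²)`, `c = w³-3w`, vanishing at `w` -/
noncomputable def Gw (w r : ℝ) : ℝ := ∫ t in w..r,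
  Real.log t * ((w ^ 3 - 3 * w) + 2 * t) / (1 + (w ^ 3 - 3 * w) * t + t ^ 2)

/-- the cross term -/
noncomputable def DW (N : ℕ) (w : ℝ) (s : ℝ → ℝ) : ℝ :=
  2 * ∫ u in Set.Ioi (0 : ℝ), lw N w s u *
    (∫ v in Set.Iio (0 : ℝ), H906K.kk (u - v) * deriv (LW w s) v)

end H906C
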