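import Pool.Agent.H906R3.CY.Defs2

/-!
# Derivatives and continuity of the dilogarithm functions
-/

open MeasureTheory Set Filter Topology

namespace H906C

/-- `log (1+t) / t`, continuously extended -/
noncomputable def e1_phi (t : ℝ) : ℝ := dslope (fun t : ℝ => Real.log (1 + t)) 0 t

theorem e1_phi_ne {t : ℝ} (ht : t ≠ 0) : e1_phi t = Real.log (1 + t) / t := by
  unfold e1_phi
  rw [dslope_of_ne _ ht, slope_def_field]
  simp

theorem e1_phi_cont : ContinuousOn e1_phi (Ioi (-1)) := by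
  unfold e1_phi
  refine (continuousOn_dslope (Ioi_mem_nhds (by norm_num))).2 ⟨?_, ?_⟩
  · intro t ht
    refine ContinuousAt.continuousWithinAt ?_
    refine ContinuousAt.log (by fun_prop) ?_
    have : (-1 : ℝ) < t := ht
    linarith
  · refine DifferentiableAt.log (by fun_prop) (by norm_num)

theorem e1_Fw_eq (r : ℝ) : Fw r = ∫ t in (0 : ℝ)..r, e1_phi t := by
  unfold Fw
  refine intervalIntegral.integral_congr_ae ?_
  have hne : ∀ᵐ t : ℝ, t ≠ 0 :=
    (measure_eq_zero_iff_ae_notMem.1 (measure_singleton (0 : ℝ))).mono (fun t ht => by simpa using ht)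
  filter_upwards [hne] with t ht _
  exact (e1_phi_ne ht).symm

theorem e1_Fw_hasDeriv (r : ℝ) (h0 : -1 < r) : HasDerivAt Fw (e1_phi r) r := by
  have e : Fw = fun r => ∫ t in (0 : ℝ)..r, e1_phi t := by
    funext r
    exact e1_Fw_eq r
  rw [e]
  have hnh : Ioi (-1 : ℝ) ∈ 𝓝 r := Ioi_mem_nhds h0
  refine intervalIntegral.integral_hasDerivAt_right ?_ ?_ ?_
  · refine (e1_phi_cont.mono ?_).intervalIntegrable
    intro x hx
    have hx' : min 0 r ≤ x := hx.1
    have : (-1 : ℝ) < min 0 r := lt_min (by norm_num) h0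
    exact lt_of_lt_of_le this hx'
  · exact e1_phi_cont.stronglyMeasurableAtFilter isOpen_Ioi r h0
  · exact e1_phi_cont.continuousAt hnh

theorem Fw_deriv (r : ℝ) (h0 : -1 < r) (h1 : r ≠ 0) :
    HasDerivAt Fw (Real.log (1 + r) / r) r := by
  rw [← e1_phi_ne h1]
  exact e1_Fw_hasDeriv r h0

theorem Fw_cont : ContinuousOn Fw (Set.Ioi (-1)) := fun r hr =>
  (e1_Fw_hasDeriv r hr).continuousAt.continuousWithinAt

theorem e1_den {w t : ℝ} (w0 : 0 < w) (w1 : w ≠ 1) (ht : 0 < t) :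
    0 < 1 + (w ^ 3 - 3 * w) * t + t ^ 2 := by
  have h1 : 0 < (w - 1) ^ 2 := by
    have : w - 1 ≠ 0 := sub_ne_zero.mpr w1
    positivity
  have h2 : 0 < (w - 1) ^ 2 * (w + 2) * t := by positivity
  nlinarith [sq_nonneg (1 - t)]

theorem Gw_deriv (w r : ℝ) (w0 : 0 < w) (w2 : w < 2) (w1 : w ≠ 1) (hr : 0 < r) :
    HasDerivAt (Gw w) (Real.log r * ((w ^ 3 - 3 * w) + 2 * r)
      / (1 + (w ^ 3 - 3 * w) * r + r ^ 2)) r := by
  have hc : ContinuousOn (fun t : ℝ => Real.log t * ((w ^ 3 - 3 * w) + 2 * t)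
      / (1 + (w ^ 3 - 3 * w) * t + t ^ 2)) (Ioi 0) := by
    refine ContinuousOn.div ?_ (by fun_prop) ?_
    · refine ContinuousOn.mul ?_ (by fun_prop)
      exact Real.continuousOn_log.mono (fun x hx => ne_of_gt hx)
    · intro t ht
      exact (e1_den w0 w1 ht).ne'
  have e : Gw w = fun r => ∫ t in w..r, Real.log t * ((w ^ 3 - 3 * w) + 2 * t)
      / (1 + (w ^ 3 - 3 * w) * t + t ^ 2) := rfl
  rw [e]
  refine intervalIntegral.integral_hasDerivAt_right
    (f := fun t : ℝ => Real.log t * ((w ^ 3 - 3 * w) + 2 * t)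
      / (1 + (w ^ 3 - 3 * w) * t + t ^ 2)) ?_ ?_ ?_
  · refine (hc.mono ?_).intervalIntegrable
    intro x hx
    have hx' : min w r ≤ x := hx.1
    exact lt_of_lt_of_le (lt_min w0 hr) hx'
  · exact hc.stronglyMeasurableAtFilter isOpen_Ioi r hr
  · exact hc.continuousAt (Ioi_mem_nhds hr)

end H906C
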