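import Pool.Agent.H906R3.CY.Defs2
import Pool.Agent.H906R3.CY.E1

/-!
# E1b: the dilogarithm identity
-/

namespace H906C

open Filter Topology MeasureTheory

theorem e1b_Q_eq (w t : ℝ) : 1 + (w ^ 3 - 3 * w) * t + t ^ 2 =
    (t + (w ^ 3 - 3 * w) / 2) ^ 2 + (4 - w ^ 2) * (w ^ 2 - 1) ^ 2 / 4 := by ring

theorem e1b_Q_pos {w : ℝ} (w0 : 0 < w) (w2 : w < 2) (w1 : w ≠ 1) (t : ℝ) :
    0 < 1 + (w ^ 3 - 3 * w) * t + t ^ 2 := by
  rw [e1b_Q_eq]
  have h1 : 0 < 4 - w ^ 2 := by nlinarith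
  have h2 : w ^ 2 - 1 ≠ 0 := by
    intro h
    have h3 : (w - 1) * (w + 1) = 0 := by linarith
    rcases mul_eq_zero.1 h3 with h4 | h4
    · exact w1 (by linarith)
    · linarith
  have h3 : 0 < (w ^ 2 - 1) ^ 2 := by positivity
  have h4 : 0 < (4 - w ^ 2) * (w ^ 2 - 1) ^ 2 := mul_pos h1 h3
  have h5 := sq_nonneg (t + (w ^ 3 - 3 * w) / 2)
  linarith

/-- the integrand -/
noncomputable def e1b_f (w t : ℝ) : ℝ :=
  Real.log t * ((w ^ 3 - 3 * w) + 2 * t) / (1 + (w ^ 3 - 3 * w) * t + t ^ 2)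

/-- its derivative in the parameter -/
noncomputable def e1b_g (w t : ℝ) : ℝ :=
  Real.log t * ((3 * w ^ 2 - 3) * (1 - t ^ 2)) / (1 + (w ^ 3 - 3 * w) * t + t ^ 2) ^ 2

/-- a moving end point -/
theorem e1b_move (f : ℝ → ℝ → ℝ) (x : ℝ)
    (hc : ContinuousAt (fun p : ℝ × ℝ => f p.1 p.2) (x, x))
    (hi : ∀ᶠ w in 𝓝 x, IntervalIntegrable (f w) volume w x) :
    HasDerivAt (fun w => ∫ t in w..x, f w t) (-f x x) x := by
  rw [hasDerivAt_iff_isLittleO, Asymptotics.isLittleO_iff]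
  intro ε hε
  obtain ⟨δ, hδ, h1⟩ := Metric.continuousAt_iff.1 hc ε hε
  filter_upwards [hi, Metric.ball_mem_nhds x hδ] with w hw hwδ
  have h2 : (∫ t in w..x, f w t) - (∫ t in x..x, f x t) - (w - x) • (-f x x) =
      ∫ t in w..x, (f w t - f x x) := by
    rw [intervalIntegral.integral_sub hw intervalIntegrable_const, intervalIntegral.integral_const,
      intervalIntegral.integral_same]
    simp only [smul_eq_mul]
    ring
  rw [h2]
  have h3 : ‖∫ t in w..x, (f w t - f x x)‖ ≤ ε * |x - w| := by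
    apply intervalIntegral.norm_integral_le_of_norm_le_const
    intro t ht
    have h4 : |t - x| ≤ |w - x| := by
      rw [Set.mem_uIoc] at ht
      rcases ht with ⟨h5, h6⟩ | ⟨h5, h6⟩
      · rw [abs_of_nonpos (by linarith), abs_of_nonpos (by linarith)]
        linarith
      · rw [abs_of_nonneg (by linarith), abs_of_nonneg (by linarith)]
        linarith
    have h5 : |w - x| < δ := by
      have := Metric.mem_ball.1 hwδ
      rwa [Real.dist_eq] at this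
    have h6 : dist ((w, t) : ℝ × ℝ) (x, x) < δ := by
      rw [Prod.dist_eq, max_lt_iff, Real.dist_eq, Real.dist_eq]
      exact ⟨h5, lt_of_le_of_lt h4 h5⟩
    have h7 := h1 h6
    rw [Real.dist_eq] at h7
    exact le_of_lt h7
  rw [Real.norm_eq_abs (w - x), abs_sub_comm]
  exact h3

theorem e1b_cont_f {S : Set (ℝ × ℝ)}
    (hS : ∀ p ∈ S, 0 < p.2 ∧ 1 + (p.1 ^ 3 - 3 * p.1) * p.2 + p.2 ^ 2 ≠ 0) :
    ContinuousOn (fun p : ℝ × ℝ => e1b_f p.1 p.2) S := by
  have h1 : ContinuousOn (fun p : ℝ × ℝ => Real.log p.2) S :=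
    ContinuousOn.log continuousOn_snd fun p hp => (hS p hp).1.ne'
  exact ((h1.mul (by fun_prop)).div (by fun_prop) fun p hp => (hS p hp).2)

theorem e1b_cont_g {S : Set (ℝ × ℝ)}
    (hS : ∀ p ∈ S, 0 < p.2 ∧ 1 + (p.1 ^ 3 - 3 * p.1) * p.2 + p.2 ^ 2 ≠ 0) :
    ContinuousOn (fun p : ℝ × ℝ => e1b_g p.1 p.2) S := by
  have h1 : ContinuousOn (fun p : ℝ × ℝ => Real.log p.2) S :=
    ContinuousOn.log continuousOn_snd fun p hp => (hS p hp).1.ne'
  exact ((h1.mul (by fun_prop)).div (by fun_prop) fun p hp => pow_ne_zero 2 (hS p hp).2)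

theorem e1b_int {w a b : ℝ} (w0 : 0 < w) (w2 : w < 2) (w1 : w ≠ 1) (ha : 0 < a) (hb : 0 < b) :
    IntervalIntegrable (e1b_f w) volume a b := by
  apply ContinuousOn.intervalIntegrable
  have h1 := e1b_cont_f (S := ({w} : Set ℝ) ×ˢ Set.Ioi (0 : ℝ)) (by
    rintro ⟨p, q⟩ ⟨hp, hq⟩
    rw [Set.mem_singleton_iff] at hp
    subst hp
    exact ⟨hq, (e1b_Q_pos w0 w2 w1 q).ne'⟩)
  have h2 : ContinuousOn (fun t : ℝ => ((w, t) : ℝ × ℝ)) (Set.uIcc a b) := by fun_prop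
  refine h1.comp h2 fun t ht => ⟨rfl, ?_⟩
  have h3 : min a b ≤ t := ht.1
  exact lt_of_lt_of_le (lt_min ha hb) h3

/-- the derivative in the parameter -/
theorem e1b_hasDeriv {w : ℝ} (w0 : 0 < w) (w2 : w < 2) (w1 : w ≠ 1) (t : ℝ) :
    HasDerivAt (fun x => e1b_f x t) (e1b_g w t) w := by
  have hQ := (e1b_Q_pos w0 w2 w1 t).ne'
  have h1 : HasDerivAt (fun x : ℝ => Real.log t * ((x ^ 3 - 3 * x) + 2 * t))
      (Real.log t * (3 * w ^ 2 - 3)) w := by
    have := ((((hasDerivAt_id w).pow 3).sub ((hasDerivAt_id w).const_mul 3)).add_const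
      (2 * t)).const_mul (Real.log t)
    simpa using this
  have h2 : HasDerivAt (fun x : ℝ => 1 + (x ^ 3 - 3 * x) * t + t ^ 2)
      ((3 * w ^ 2 - 3) * t) w := by
    have := (((((hasDerivAt_id w).pow 3).sub ((hasDerivAt_id w).const_mul 3)).mul_const
      t).const_add 1).add_const (t ^ 2)
    simpa using this
  have h3 := h1.div h2 hQ
  have h4 : e1b_g w t = (Real.log t * (3 * w ^ 2 - 3) * (1 + (w ^ 3 - 3 * w) * t + t ^ 2) -
      Real.log t * ((w ^ 3 - 3 * w) + 2 * t) * ((3 * w ^ 2 - 3) * t)) /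
      (1 + (w ^ 3 - 3 * w) * t + t ^ 2) ^ 2 := by
    unfold e1b_g
    congr 1
    ring
  rw [h4]
  exact h3

theorem e1b_param {w : ℝ} (w0 : 0 < w) (w2 : w < 2) (w1 : w ≠ 1) :
    IntervalIntegrable (e1b_g w) volume w 1 ∧
      HasDerivAt (fun x => ∫ t in w..1, e1b_f x t) (∫ t in w..1, e1b_g w t) w := by
  have hU : IsOpen ({x : ℝ | 0 < x} ∩ {x : ℝ | x < 2} ∩ {x : ℝ | x ≠ 1}) :=
    ((isOpen_lt continuous_const continuous_id).inter
      (isOpen_lt continuous_id continuous_const)).inter isOpen_ne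
  have hw : ({x : ℝ | 0 < x} ∩ {x : ℝ | x < 2} ∩ {x : ℝ | x ≠ 1}) ∈ 𝓝 w :=
    hU.mem_nhds ⟨⟨w0, w2⟩, w1⟩
  obtain ⟨δ, hδ, hsub⟩ := Metric.nhds_basis_closedBall.mem_iff.1 hw
  have hS : ∀ p ∈ Metric.closedBall w δ ×ˢ Set.uIcc w 1,
      0 < p.2 ∧ 1 + (p.1 ^ 3 - 3 * p.1) * p.2 + p.2 ^ 2 ≠ 0 := by
    rintro ⟨p, q⟩ ⟨hp, hq⟩
    obtain ⟨⟨h1, h2⟩, h3⟩ := hsub hp
    have h4 : min w 1 ≤ q := hq.1
    exact ⟨lt_of_lt_of_le (lt_min w0 one_pos) h4, (e1b_Q_pos h1 h2 h3 q).ne'⟩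
  have hK : IsCompact (Metric.closedBall w δ ×ˢ Set.uIcc w 1) :=
    (isCompact_closedBall w δ).prod isCompact_uIcc
  obtain ⟨M, hM⟩ := hK.exists_bound_of_continuousOn (e1b_cont_g hS)
  have hfx : ∀ x ∈ Metric.closedBall w δ, ContinuousOn (e1b_f x) (Set.uIcc w 1) := by
    intro x hx
    have h2 : ContinuousOn (fun t : ℝ => ((x, t) : ℝ × ℝ)) (Set.uIcc w 1) := by fun_prop
    exact (e1b_cont_f hS).comp h2 fun t ht => ⟨hx, ht⟩
  have hgx : ContinuousOn (e1b_g w) (Set.uIcc w 1) := by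
    have h2 : ContinuousOn (fun t : ℝ => ((w, t) : ℝ × ℝ)) (Set.uIcc w 1) := by fun_prop
    exact (e1b_cont_g hS).comp h2 fun t ht => ⟨Metric.mem_closedBall_self hδ.le, ht⟩
  refine intervalIntegral.hasDerivAt_integral_of_dominated_loc_of_deriv_le (bound := fun _ => M)
    (Metric.closedBall_mem_nhds w hδ) ?_ ?_ ?_ ?_ ?_ ?_
  · filter_upwards [Metric.closedBall_mem_nhds w hδ] with x hx
    exact ((hfx x hx).mono Set.uIoc_subset_uIcc).aestronglyMeasurable measurableSet_uIoc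
  · exact (hfx w (Metric.mem_closedBall_self hδ.le)).intervalIntegrable
  · exact (hgx.mono Set.uIoc_subset_uIcc).aestronglyMeasurable measurableSet_uIoc
  · exact Eventually.of_forall fun t ht x hx => hM (x, t) ⟨hx, Set.uIoc_subset_uIcc ht⟩
  · exact intervalIntegrable_const
  · refine Eventually.of_forall fun t _ x hx => ?_
    obtain ⟨⟨h1, h2⟩, h3⟩ := hsub hx
    exact e1b_hasDeriv h1 h2 h3 t

theorem e1b_arccos {w : ℝ} (w0 : 0 < w) (w2 : w < 2) :
    Real.cos (Real.arccos (w / 2)) = w / 2 ∧ 0 < Real.arccos (w / 2) ∧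
      Real.arccos (w / 2) < Real.pi / 2 ∧ 0 < Real.sin (Real.arccos (w / 2)) := by
  have h1 := Real.cos_arccos (x := w / 2) (by linarith) (by linarith)
  have h2 : 0 < Real.arccos (w / 2) := Real.arccos_pos.2 (by linarith)
  have h3 : Real.arccos (w / 2) < Real.pi / 2 := Real.arccos_lt_pi_div_two.2 (by linarith)
  have h4 := Real.pi_pos
  exact ⟨h1, h2, h3, Real.sin_pos_of_pos_of_lt_pi h2 (by linarith)⟩

theorem e1b_sq_ne {w : ℝ} (w0 : 0 < w) (w1 : w ≠ 1) : w ^ 2 - 1 ≠ 0 := by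
  intro h
  have h3 : (w - 1) * (w + 1) = 0 := by linarith
  rcases mul_eq_zero.1 h3 with h4 | h4
  · exact w1 (by linarith)
  · linarith

/-- the antiderivative -/
theorem e1b_anti {w t S : ℝ} (w0 : 0 < w) (w2 : w < 2) (w1 : w ≠ 1) (ht : 0 < t) (hS : S ≠ 0)
    (hS2 : S ^ 2 = (4 - w ^ 2) * (w ^ 2 - 1) ^ 2 / 4) :
    HasDerivAt (fun t => (3 * w ^ 2 - 3) * (t * Real.log t / (1 + (w ^ 3 - 3 * w) * t + t ^ 2) -
      Real.arctan ((t + (w ^ 3 - 3 * w) / 2) / S) / S)) (e1b_g w t) t := by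
  have hQ := (e1b_Q_pos w0 w2 w1 t).ne'
  have h1 : HasDerivAt (fun t : ℝ => t * Real.log t) (Real.log t + 1) t := by
    have := (hasDerivAt_id t).mul (Real.hasDerivAt_log ht.ne')
    simp only [id] at this
    rw [mul_inv_cancel₀ ht.ne', one_mul] at this
    exact this
  have h2 : HasDerivAt (fun t : ℝ => 1 + (w ^ 3 - 3 * w) * t + t ^ 2)
      ((w ^ 3 - 3 * w) + 2 * t) t := by
    have e1 : HasDerivAt (fun t : ℝ => 1 + (w ^ 3 - 3 * w) * t) (w ^ 3 - 3 * w) t := by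
      simpa using ((hasDerivAt_id t).const_mul (w ^ 3 - 3 * w)).const_add 1
    have e2 : HasDerivAt (fun t : ℝ => t ^ 2) (2 * t) t := by
      simpa using hasDerivAt_pow 2 t
    exact e1.add e2
  have h3 := h1.div h2 hQ
  have h4 : HasDerivAt (fun t : ℝ => (t + (w ^ 3 - 3 * w) / 2) / S) (1 / S) t :=
    ((hasDerivAt_id t).add_const ((w ^ 3 - 3 * w) / 2)).div_const S
  have h5 := (h4.arctan).div_const S
  have h6 := (h3.sub h5).const_mul (3 * w ^ 2 - 3)
  have h7 : e1b_g w t = (3 * w ^ 2 - 3) * (((Real.log t + 1) *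
      (1 + (w ^ 3 - 3 * w) * t + t ^ 2) - t * Real.log t * ((w ^ 3 - 3 * w) + 2 * t)) /
      (1 + (w ^ 3 - 3 * w) * t + t ^ 2) ^ 2 -
      1 / (1 + ((t + (w ^ 3 - 3 * w) / 2) / S) ^ 2) * (1 / S) / S) := by
    have h8 : 1 / (1 + ((t + (w ^ 3 - 3 * w) / 2) / S) ^ 2) * (1 / S) / S =
        1 / (1 + (w ^ 3 - 3 * w) * t + t ^ 2) := by
      rw [e1b_Q_eq, ← hS2]
      have h9 : S ^ 2 + (t + (w ^ 3 - 3 * w) / 2) ^ 2 ≠ 0 := by
        have := sq_nonneg (t + (w ^ 3 - 3 * w) / 2)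
        have : 0 < S ^ 2 := by positivity
        positivity
      have h10 : (t + (w ^ 3 - 3 * w) / 2) ^ 2 + S ^ 2 ≠ 0 := by rwa [add_comm]
      rw [div_pow, one_add_div (pow_ne_zero 2 hS)]
      field_simp
      ring
    rw [h8]
    unfold e1b_g
    field_simp
    ring
  rw [h7]
  exact h6

/-- the value of the integral of the derivative -/
theorem e1b_val {w : ℝ} (w0 : 0 < w) (w2 : w < 2) (w1 : w ≠ 1)
    (hi : IntervalIntegrable (e1b_g w) volume w 1) :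
    ∫ t in w..1, e1b_g w t = -(3 * w * Real.log w) / (w ^ 2 - 1) +
      3 * Real.arccos (w / 2) / (2 * Real.sin (Real.arccos (w / 2))) := by
  obtain ⟨h1, h2, h3, h4⟩ := e1b_arccos w0 w2
  have hd := e1b_sq_ne w0 w1
  obtain ⟨φ, hφ⟩ : ∃ φ, φ = Real.arccos (w / 2) := ⟨_, rfl⟩
  rw [← hφ] at h1 h2 h3 h4 ⊢
  have hπ := Real.pi_pos
  have hS : Real.sin φ * (w ^ 2 - 1) ≠ 0 := mul_ne_zero h4.ne' hd
  have hs2 : Real.sin φ ^ 2 = (4 - w ^ 2) / 4 := by
    rw [Real.sin_sq, h1]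
    ring
  have hS2 : (Real.sin φ * (w ^ 2 - 1)) ^ 2 = (4 - w ^ 2) * (w ^ 2 - 1) ^ 2 / 4 := by
    rw [mul_pow, hs2]
    ring
  have h5 := intervalIntegral.integral_eq_sub_of_hasDerivAt (a := w) (b := 1)
    (fun t ht => e1b_anti w0 w2 w1 (lt_of_lt_of_le (lt_min w0 one_pos) ht.1) hS hS2) hi
  rw [h5]
  have h6 : Real.arctan ((w + (w ^ 3 - 3 * w) / 2) / (Real.sin φ * (w ^ 2 - 1))) =
      Real.pi / 2 - φ := by
    have e1 : (w + (w ^ 3 - 3 * w) / 2) / (Real.sin φ * (w ^ 2 - 1)) =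
        Real.tan (Real.pi / 2 - φ) := by
      rw [Real.tan_pi_div_two_sub, Real.tan_eq_sin_div_cos, h1]
      field_simp
      ring
    rw [e1, Real.arctan_tan (by linarith) (by linarith)]
  have h7 : Real.arctan ((1 + (w ^ 3 - 3 * w) / 2) / (Real.sin φ * (w ^ 2 - 1))) =
      Real.pi / 2 - 3 * φ / 2 := by
    have e2 : Real.cos (2 * (3 * φ / 2)) = (w ^ 3 - 3 * w) / 2 := by
      rw [show 2 * (3 * φ / 2) = 3 * φ by ring, Real.cos_three_mul, h1]
      ring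
    have e3 : Real.sin (2 * (3 * φ / 2)) = Real.sin φ * (w ^ 2 - 1) := by
      rw [show 2 * (3 * φ / 2) = 3 * φ by ring, Real.sin_three_mul]
      have : Real.sin φ ^ 3 = Real.sin φ * ((4 - w ^ 2) / 4) := by
        rw [← hs2]; ring
      rw [this]
      ring
    have e4 : (1 + (w ^ 3 - 3 * w) / 2) / (Real.sin φ * (w ^ 2 - 1)) =
        Real.tan (Real.pi / 2 - 3 * φ / 2) := by
      rw [Real.tan_pi_div_two_sub, Real.tan_eq_sin_div_cos, ← e2, ← e3, Real.cos_two_mul,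
        Real.sin_two_mul]
      rw [← e3, Real.sin_two_mul] at hS
      have e5 : Real.sin (3 * φ / 2) ≠ 0 := by
        intro h; apply hS; rw [h]; ring
      have e6 : Real.cos (3 * φ / 2) ≠ 0 := by
        intro h; apply hS; rw [h]; ring
      field_simp
      ring
    rw [e4, Real.arctan_tan (by linarith) (by linarith)]
  rw [h6, h7, Real.log_one]
  have h8 : 1 + (w ^ 3 - 3 * w) * w + w ^ 2 = (w ^ 2 - 1) ^ 2 := by ring
  rw [h8]
  have h9 := h4.ne'
  field_simp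
  ring

theorem e1b_total {w : ℝ} (w0 : 0 < w) (w2 : w < 2) (w1 : w ≠ 1) :
    HasDerivAt (fun x => Fw (x ^ 2 - 1) + Gw x 1 -
      (Real.pi ^ 2 / 6 - 3 / 2 * Real.arccos (x / 2) ^ 2)) 0 w := by
  obtain ⟨h1, h2, h3, h4⟩ := e1b_arccos w0 w2
  have hd := e1b_sq_ne w0 w1
  have hU : IsOpen ({x : ℝ | 0 < x} ∩ {x : ℝ | x < 2} ∩ {x : ℝ | x ≠ 1}) :=
    ((isOpen_lt continuous_const continuous_id).inter
      (isOpen_lt continuous_id continuous_const)).inter isOpen_ne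
  have hw : ({x : ℝ | 0 < x} ∩ {x : ℝ | x < 2} ∩ {x : ℝ | x ≠ 1}) ∈ 𝓝 w :=
    hU.mem_nhds ⟨⟨w0, w2⟩, w1⟩
  -- the integral
  have hm : HasDerivAt (fun x => ∫ t in x..w, e1b_f x t) (-e1b_f w w) w := by
    apply e1b_move
    · have hc := e1b_cont_f (S := ({x : ℝ | 0 < x} ∩ {x : ℝ | x < 2} ∩ {x : ℝ | x ≠ 1}) ×ˢ
        Set.Ioi (0 : ℝ)) (by
          rintro ⟨p, q⟩ ⟨⟨⟨hp1, hp2⟩, hp3⟩, hq⟩
          exact ⟨hq, (e1b_Q_pos hp1 hp2 hp3 q).ne'⟩)
      exact hc.continuousAt (prod_mem_nhds hw (Ioi_mem_nhds w0))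
    · filter_upwards [hw] with x hx
      exact e1b_int hx.1.1 hx.1.2 hx.2 hx.1.1 w0
  obtain ⟨hi, hp⟩ := e1b_param w0 w2 w1
  have hG : HasDerivAt (fun x => Gw x 1) (-e1b_f w w + ∫ t in w..1, e1b_g w t) w := by
    refine (hm.add hp).congr_of_eventuallyEq ?_
    filter_upwards [hw] with x hx
    have := intervalIntegral.integral_add_adjacent_intervals
      (e1b_int hx.1.1 hx.1.2 hx.2 hx.1.1 w0) (e1b_int hx.1.1 hx.1.2 hx.2 w0 one_pos)
    show Gw x 1 = (∫ t in x..w, e1b_f x t) + ∫ t in w..1, e1b_f x t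
    rw [this]
    rfl
  have hF : HasDerivAt (fun x => Fw (x ^ 2 - 1))
      (Real.log (1 + (w ^ 2 - 1)) / (w ^ 2 - 1) * (2 * w)) w := by
    have e1 : HasDerivAt (fun x : ℝ => x ^ 2 - 1) (2 * w) w := by
      have := ((hasDerivAt_id w).pow 2).sub_const 1
      simpa using this
    have e2 := Fw_deriv (w ^ 2 - 1) (by nlinarith [sq_nonneg w]) hd
    exact HasDerivAt.comp w e2 e1
  have hR : HasDerivAt (fun x => Real.pi ^ 2 / 6 - 3 / 2 * Real.arccos (x / 2) ^ 2)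
      (3 * Real.arccos (w / 2) / (2 * Real.sin (Real.arccos (w / 2)))) w := by
    have e1 : HasDerivAt (fun x : ℝ => x / 2) (1 / 2) w := (hasDerivAt_id w).div_const 2
    have e2 := Real.hasDerivAt_arccos (x := w / 2) (by linarith) (by linarith)
    have e3 : HasDerivAt (fun x : ℝ => Real.arccos (x / 2))
        (-(1 / √(1 - (w / 2) ^ 2)) * (1 / 2)) w :=
      HasDerivAt.comp (h₂ := Real.arccos) (h := fun x : ℝ => x / 2) w e2 e1
    have e4 := ((e3.pow 2).const_mul (3 / 2)).const_sub (Real.pi ^ 2 / 6)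
    refine e4.congr_deriv ?_
    rw [← Real.sin_arccos]
    have e5 := h4.ne'
    field_simp
    try ring
  refine ((hF.add hG).sub hR).congr_deriv ?_
  rw [e1b_val w0 w2 w1 hi]
  have e1 : Real.log (1 + (w ^ 2 - 1)) = 2 * Real.log w := by
    rw [show 1 + (w ^ 2 - 1) = w ^ 2 by ring, Real.log_pow]
    push_cast
    ring
  have e2 : e1b_f w w = w * Real.log w / (w ^ 2 - 1) := by
    unfold e1b_f
    rw [show 1 + (w ^ 3 - 3 * w) * w + w ^ 2 = (w ^ 2 - 1) ^ 2 by ring,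
      show w ^ 3 - 3 * w + 2 * w = w * (w ^ 2 - 1) by ring]
    field_simp
  rw [e1, e2]
  field_simp
  ring

theorem e1b_cont_one : ContinuousAt (fun x => Fw (x ^ 2 - 1) + Gw x 1 -
      (Real.pi ^ 2 / 6 - 3 / 2 * Real.arccos (x / 2) ^ 2)) 1 := by
  have h1 : ContinuousAt (fun x : ℝ => Fw (x ^ 2 - 1)) 1 := by
    have e1 : ContinuousAt Fw ((1 : ℝ) ^ 2 - 1) :=
      Fw_cont.continuousAt (Ioi_mem_nhds (by norm_num))
    exact ContinuousAt.comp (f := fun x : ℝ => x ^ 2 - 1) e1 (by fun_prop)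
  have h2 : ContinuousAt (fun x : ℝ => Real.pi ^ 2 / 6 - 3 / 2 * Real.arccos (x / 2) ^ 2) 1 := by
    have : Continuous Real.arccos := Real.continuous_arccos
    fun_prop
  have h3 : ContinuousAt (fun x : ℝ => Gw x 1) 1 := by
    have e0 : Gw 1 1 = 0 := by
      unfold Gw
      exact intervalIntegral.integral_same
    rw [ContinuousAt, e0]
    apply squeeze_zero_norm' (a := fun x : ℝ => 4 * |1 - x|)
    · have hU : Set.Ioo (1 / 2 : ℝ) (3 / 2) ∈ 𝓝 (1 : ℝ) := Ioo_mem_nhds (by norm_num) (by norm_num)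
      filter_upwards [hU] with x hx
      obtain ⟨hx1, hx2⟩ := hx
      apply intervalIntegral.norm_integral_le_of_norm_le_const
      intro t ht
      have ht1 : 1 / 2 < t ∧ t ≤ 3 / 2 := by
        rw [Set.mem_uIoc] at ht
        rcases ht with ⟨h5, h6⟩ | ⟨h5, h6⟩ <;> constructor <;> linarith
      obtain ⟨ht1, ht2⟩ := ht1
      have ht0 : 0 < t := by linarith
      have e1 : |Real.log t| ≤ 2 * |1 - t| := by
        have a1 := Real.log_le_sub_one_of_pos ht0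
        have a2 := Real.one_sub_inv_le_log_of_pos ht0
        rw [abs_le]
        have a3 : t⁻¹ - 1 ≤ 2 * |1 - t| := by
          have b1 : t⁻¹ - 1 = (1 - t) / t := by field_simp
          rw [b1, div_le_iff₀ ht0]
          have b2 := le_abs_self (1 - t)
          have b3 := abs_nonneg (1 - t)
          nlinarith
        have a4 : t - 1 ≤ |1 - t| := by
          have := neg_le_abs (1 - t)
          linarith
        have a5 := abs_nonneg (1 - t)
        constructor <;> linarith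
      rw [Real.norm_eq_abs, abs_div, abs_mul]
      have hQ : (t + (x ^ 3 - 3 * x) / 2) ^ 2 ≤ 1 + (x ^ 3 - 3 * x) * t + t ^ 2 := by
        rw [e1b_Q_eq]
        have : 0 ≤ (4 - x ^ 2) * (x ^ 2 - 1) ^ 2 :=
          mul_nonneg (by nlinarith) (sq_nonneg _)
        linarith
      have hQ2 : (1 - t) ^ 2 ≤ 1 + (x ^ 3 - 3 * x) * t + t ^ 2 := by
        have b1 : 0 ≤ (x - 1) ^ 2 * (x + 2) := mul_nonneg (sq_nonneg _) (by linarith)
        have b2 : 0 ≤ (2 + (x ^ 3 - 3 * x)) * t := mul_nonneg (by nlinarith) ht0.le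
        nlinarith
      have hQ0 : 0 ≤ 1 + (x ^ 3 - 3 * x) * t + t ^ 2 := (sq_nonneg _).trans hQ
      rw [abs_of_nonneg hQ0]
      apply div_le_of_le_mul₀ hQ0 (by norm_num)
      have c1 : |x ^ 3 - 3 * x + 2 * t| = 2 * |t + (x ^ 3 - 3 * x) / 2| := by
        rw [← abs_of_pos (show (0 : ℝ) < 2 by norm_num), ← abs_mul, abs_of_pos (show (0 : ℝ) < 2 by norm_num)]
        congr 1
        ring
      rw [c1]
      have c2 : |1 - t| * |t + (x ^ 3 - 3 * x) / 2| ≤ 1 + (x ^ 3 - 3 * x) * t + t ^ 2 := by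
        have d1 : |1 - t| ^ 2 ≤ 1 + (x ^ 3 - 3 * x) * t + t ^ 2 := by rw [sq_abs]; exact hQ2
        have d2 : |t + (x ^ 3 - 3 * x) / 2| ^ 2 ≤ 1 + (x ^ 3 - 3 * x) * t + t ^ 2 := by
          rw [sq_abs]; exact hQ
        nlinarith [sq_nonneg (|1 - t| - |t + (x ^ 3 - 3 * x) / 2|)]
      have c3 := abs_nonneg (t + (x ^ 3 - 3 * x) / 2)
      calc |Real.log t| * (2 * |t + (x ^ 3 - 3 * x) / 2|)
          ≤ 2 * |1 - t| * (2 * |t + (x ^ 3 - 3 * x) / 2|) :=
            mul_le_mul_of_nonneg_right e1 (by positivity)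
        _ = 4 * (|1 - t| * |t + (x ^ 3 - 3 * x) / 2|) := by ring
        _ ≤ 4 * (1 + (x ^ 3 - 3 * x) * t + t ^ 2) := by linarith
    · have : Continuous fun x : ℝ => 4 * |1 - x| := by fun_prop
      have h5 := this.tendsto 1
      simpa using h5
  exact (h1.add h3).sub h2

theorem dilogW (w : ℝ) (w0 : 0 < w) (w2 : w < 2) (w1 : w ≠ 1) :
    Fw (w ^ 2 - 1) + Gw w 1 = Real.pi ^ 2 / 6 - 3 / 2 * Real.arccos (w / 2) ^ 2 := by
  obtain ⟨H, hH⟩ : ∃ H : ℝ → ℝ, H = fun x => Fw (x ^ 2 - 1) + Gw x 1 -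
      (Real.pi ^ 2 / 6 - 3 / 2 * Real.arccos (x / 2) ^ 2) := ⟨_, rfl⟩
  have hder : ∀ x, 0 < x → x < 2 → x ≠ 1 → HasDerivAt H 0 x := by
    intro x h1 h2 h3
    rw [hH]
    exact e1b_total h1 h2 h3
  have hcont : ∀ x, 0 < x → x < 2 → ContinuousAt H x := by
    intro x h1 h2
    by_cases h3 : x = 1
    · rw [h3, hH]
      exact e1b_cont_one
    · exact (hder x h1 h2 h3).continuousAt
  have h1 : H 1 = 0 := by
    rw [hH]
    have e1 : Gw 1 1 = 0 := by
      unfold Gw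
      exact intervalIntegral.integral_same
    have e2 : Fw ((1 : ℝ) ^ 2 - 1) = 0 := by
      unfold Fw
      rw [show (1 : ℝ) ^ 2 - 1 = 0 by norm_num]
      exact intervalIntegral.integral_same
    have e3 : Real.arccos (1 / 2) = Real.pi / 3 := by
      rw [← Real.cos_pi_div_three]
      apply Real.arccos_cos <;> [positivity; linarith [Real.pi_pos]]
    simp only [e1, e2, e3]
    ring
  have h2 : H w = 0 := by
    rcases lt_or_gt_of_ne w1 with h | h
    · obtain ⟨c, hc, h3⟩ := exists_hasDerivAt_eq_slope H (fun _ => 0) h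
        (fun x hx => (hcont x (by linarith [hx.1]) (by linarith [hx.2])).continuousWithinAt)
        (fun x hx => hder x (by linarith [hx.1]) (by linarith [hx.2]) (by linarith [hx.2]))
      have h4 : H 1 - H w = 0 := by
        have h5 : 1 - w ≠ 0 := by linarith
        rcases div_eq_zero_iff.1 h3.symm with h6 | h6
        · exact h6
        · exact absurd h6 h5
      linarith
    · obtain ⟨c, hc, h3⟩ := exists_hasDerivAt_eq_slope H (fun _ => 0) h
        (fun x hx => (hcont x (by linarith [hx.1]) (by linarith [hx.2])).continuousWithinAt)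
        (fun x hx => hder x (by linarith [hx.1]) (by linarith [hx.2]) (by linarith [hx.1]))
      have h4 : H w - H 1 = 0 := by
        have h5 : w - 1 ≠ 0 := by linarith
        rcases div_eq_zero_iff.1 h3.symm with h6 | h6
        · exact h6
        · exact absurd h6 h5
      linarith
  rw [hH] at h2
  linarith

end H906C
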