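import Pool.Agent.H906R3.CY.Defs2
import Pool.Agent.H906R3.K6.A2a
import Pool.Agent.H906R3.CY.E2a

set_option autoImplicit false

open MeasureTheory Filter Topology

namespace H906C

theorem e2b_tanh_eq (x : ℝ) : Real.tanh x = 1 - 2 / (Real.exp (2 * x) + 1) := by
  have h1 : Real.exp (2 * x) = Real.exp x * Real.exp x := by rw [← Real.exp_add]; ring_nf
  have h2 : Real.exp (-x) = (Real.exp x)⁻¹ := Real.exp_neg x
  have h3 := Real.exp_pos x
  rw [Real.tanh_eq_sinh_div_cosh, Real.sinh_eq, Real.cosh_eq, h1, h2]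
  field_simp
  ring

theorem e2b_tanh_tendsto : Tendsto (fun u : ℝ => Real.tanh (3 * u / 4)) atTop (𝓝 1) := by
  have h1 : Tendsto (fun u : ℝ => Real.exp (2 * (3 * u / 4)) + 1) atTop atTop := by
    apply tendsto_atTop_add_const_right
    apply Real.tendsto_exp_atTop.comp
    have : (fun u : ℝ => 2 * (3 * u / 4)) = fun u : ℝ => (3 / 2) * u := by
      funext u; ring
    rw [this]
    exact tendsto_id.const_mul_atTop (by norm_num)
  have h2 := h1.const_div_atTop 2
  have h3 := h2.const_sub 1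
  rw [sub_zero] at h3
  refine h3.congr fun u => ?_
  rw [e2b_tanh_eq]

theorem e2b_tanh_cont : Continuous (fun u : ℝ => Real.tanh (3 * u / 4)) := by
  have : (fun u : ℝ => Real.tanh (3 * u / 4)) = fun u => 1 - 2 / (Real.exp (2 * (3 * u / 4)) + 1) := by
    funext u; rw [e2b_tanh_eq]
  rw [this]
  refine continuous_const.sub (continuous_const.div (by fun_prop) fun u => ?_)
  positivity

theorem e2b_tanh_pos {u : ℝ} (hu : 0 < u) : 0 < Real.tanh (3 * u / 4) := by
  rw [Real.tanh_eq_sinh_div_cosh]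
  have h1 : 0 < Real.sinh (3 * u / 4) := Real.sinh_pos_iff.2 (by linarith)
  have h2 := Real.cosh_pos (3 * u / 4)
  positivity

theorem e2b_T_nonneg {N : ℕ} (hN : Even N) (u : ℝ) : 0 ≤ Real.tanh (3 * u / 4) ^ N :=
  hN.pow_nonneg _

theorem e2b_T_even {N : ℕ} (hN : Even N) (u : ℝ) :
    Real.tanh (3 * (-u) / 4) ^ N = Real.tanh (3 * u / 4) ^ N := by
  have : 3 * (-u) / 4 = -(3 * u / 4) := by ring
  rw [this, Real.tanh_neg, hN.neg_pow]

theorem e2b_T_deriv (N : ℕ) (hN : 1 ≤ N) (u : ℝ) (hu : 0 < u) :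
    HasDerivAt (fun u : ℝ => Real.tanh (3 * u / 4) ^ N)
      (Real.tanh (3 * u / 4) ^ N * ((3 / 2 * N) / Real.sinh (3 * u / 2))) u := by
  have hc := Real.cosh_pos (3 * u / 4)
  have hs : 0 < Real.sinh (3 * u / 4) := Real.sinh_pos_iff.2 (by linarith)
  have h0 : HasDerivAt (fun u : ℝ => 3 * u / 4) (3 / 4) u := by
    simpa using ((hasDerivAt_id u).const_mul 3).div_const 4
  have h1 : HasDerivAt (fun u : ℝ => Real.sinh (3 * u / 4)) (Real.cosh (3 * u / 4) * (3 / 4)) u :=
    (Real.hasDerivAt_sinh _).comp u h0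
  have h2 : HasDerivAt (fun u : ℝ => Real.cosh (3 * u / 4)) (Real.sinh (3 * u / 4) * (3 / 4)) u :=
    (Real.hasDerivAt_cosh _).comp u h0
  have h3 := (h1.div h2 hc.ne').pow N
  have e1 : (fun u : ℝ => Real.tanh (3 * u / 4) ^ N) =
      (fun u : ℝ => Real.sinh (3 * u / 4) / Real.cosh (3 * u / 4)) ^ N := by
    funext v
    rw [Pi.pow_apply, Real.tanh_eq_sinh_div_cosh]
  rw [e1]
  refine h3.congr_deriv ?_
  have hsh : Real.sinh (3 * u / 2) = 2 * Real.sinh (3 * u / 4) * Real.cosh (3 * u / 4) := by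
    rw [← Real.sinh_two_mul]; ring_nf
  have hsq : Real.cosh (3 * u / 4) ^ 2 - Real.sinh (3 * u / 4) ^ 2 = 1 :=
    Real.cosh_sq_sub_sinh_sq _
  rw [hsh, Real.tanh_eq_sinh_div_cosh]
  obtain ⟨M, rfl⟩ : ∃ M, N = M + 1 := ⟨N - 1, by omega⟩
  simp only [Pi.div_apply, Nat.add_sub_cancel]
  set S := Real.sinh (3 * u / 4) with hS
  set C := Real.cosh (3 * u / 4) with hC
  have hsq' : C * (3 / 4) * C - S * (S * (3 / 4)) = 3 / 4 := by linear_combination (3 / 4) * hsq
  have hc0 : C ≠ 0 := hc.ne'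
  have hs0 : S ≠ 0 := hs.ne'
  rw [hsq', pow_succ (S / C) M]
  have e2 : S / C * (3 / 2 * ((M + 1 : ℕ) : ℝ) / (2 * S * C)) = ((M + 1 : ℕ) : ℝ) * (3 / 4 / C ^ 2) := by
    field_simp
    ring
  rw [mul_assoc ((S / C) ^ M) (S / C), e2]
  ring

/-- the sign -/
theorem e2b_sgn (w : ℝ) : |(if w < 1 then -1 else 1 : ℝ)| = 1 ∧ (if w < 1 then -1 else 1 : ℝ) ≠ 0 := by
  split_ifs <;> norm_num

theorem e2b_abs {N : ℕ} {w : ℝ} {s : ℝ → ℝ} (h : TBAW N w s) (u : ℝ) :
    |YW N w s u| ≤ 3 * Real.tanh (3 * u / 4) ^ N := by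
  obtain ⟨-, hb2, -, -, -, -⟩ := bw_props h
  have hT := e2b_T_nonneg h.evenN u
  have he : Real.exp (bw w s u) ≤ 3 := by
    calc Real.exp (bw w s u) ≤ Real.exp (Real.log 3) := Real.exp_le_exp.2 (hb2 u)
      _ = 3 := Real.exp_log (by norm_num)
  rw [YW, abs_mul, (e2b_sgn w).1, one_mul, abs_of_nonneg (mul_nonneg hT (Real.exp_pos _).le),
    mul_comm]
  exact mul_le_mul_of_nonneg_right he hT

theorem e2b_min {w : ℝ} (w0 : 0 < w) (w2 : w < 2) : 0 < min w (2 - w) ∧ min w (2 - w) ≤ 1 := by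
  refine ⟨lt_min w0 (by linarith), ?_⟩
  rcases le_total w 1 with h | h
  · exact (min_le_left _ _).trans h
  · exact (min_le_right _ _).trans (by linarith)

theorem YW_props {N : ℕ} {w : ℝ} {s : ℝ → ℝ} (h : TBAW N w s) :
    (∀ u, -1 < YW N w s u ∧ |YW N w s u| ≤ 3 * Real.tanh (3 * u / 4) ^ N) ∧
    (∀ u, 0 < u → YW N w s u ≠ 0) ∧ YW N w s 0 = 0 ∧
    (∀ u, YW N w s (-u) = YW N w s u) ∧ Continuous (YW N w s) ∧
    Tendsto (YW N w s) atTop (𝓝 (w ^ 2 - 1)) ∧
    (∀ u, 0 < u → HasDerivAt (YW N w s)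
      (YW N w s u * ((3 / 2 * N) / Real.sinh (3 * u / 2) + deriv (bw w s) u)) u) := by
  obtain ⟨hb1, hb2, hb3, -, hb5, -⟩ := bw_props h
  have hN2 := h.two_le
  have w0 := h.w0
  have hfun : YW N w s = fun u => (if w < 1 then -1 else 1 : ℝ) *
      (Real.tanh (3 * u / 4) ^ N * Real.exp (bw w s u)) := rfl
  refine ⟨fun u => ⟨?_, e2b_abs h u⟩, fun u hu => ?_, ?_, fun u => ?_, ?_, ?_, fun u hu => ?_⟩
  · have h1 := h.low u
    have h2 := (e2b_min h.w0 h.w2).1
    have h3 : 0 < (min w (2 - w)) ^ 2 := by positivity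
    linarith
  · rw [YW]
    exact mul_ne_zero (e2b_sgn w).2 (mul_pos (pow_pos (e2b_tanh_pos hu) _) (Real.exp_pos _)).ne'
  · rw [YW, mul_zero, zero_div, Real.tanh_zero, zero_pow (by omega), zero_mul, mul_zero]
  · rw [YW, YW, e2b_T_even h.evenN, hb3]
  · rw [hfun]
    exact continuous_const.mul
      ((e2b_tanh_cont.pow N).mul (Real.continuous_exp.comp hb1.continuous))
  · rw [hfun]
    have h1 := e2b_tanh_tendsto.pow N
    have h2 := (Real.continuous_exp.tendsto (Real.log |1 - w ^ 2|)).comp hb5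
    have hne : 1 - w ^ 2 ≠ 0 := by
      intro h0
      have h3 : (w - 1) * (w + 1) = 0 := by linear_combination -h0
      rcases mul_eq_zero.1 h3 with h4 | h4
      · exact h.w1 (by linarith)
      · linarith
    rw [Real.exp_log (abs_pos.2 hne)] at h2
    have h3 := (h1.mul h2).const_mul (if w < 1 then -1 else 1 : ℝ)
    have h4 : (if w < 1 then -1 else 1 : ℝ) * (1 ^ N * |1 - w ^ 2|) = w ^ 2 - 1 := by
      rw [one_pow, one_mul]
      split_ifs with h5
      · rw [abs_of_pos (by nlinarith)]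
        ring
      · have h6 : 1 < w := lt_of_le_of_ne (not_lt.1 h5) (Ne.symm h.w1)
        rw [abs_of_neg (by nlinarith)]
        ring
    rw [h4] at h3
    exact h3
  · rw [hfun]
    have h1 := e2b_T_deriv N (by omega) u hu
    have h2 : HasDerivAt (bw w s) (deriv (bw w s) u) u :=
      (hb1.differentiable (by norm_num) u).hasDerivAt
    have h3 := (h1.mul h2.exp).const_mul (if w < 1 then -1 else 1 : ℝ)
    refine h3.congr_deriv ?_
    ring

theorem lw_props {N : ℕ} {w : ℝ} {s : ℝ → ℝ} (h : TBAW N w s) :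
    Continuous (lw N w s) ∧ (∀ u, lw N w s (-u) = lw N w s u) ∧
    (∀ u, |lw N w s u| ≤ 3 / (min w (2 - w)) ^ 2 * Real.tanh (3 * u / 4) ^ N) := by
  obtain ⟨hy1, -, -, hy4, hy5, -, -⟩ := YW_props h
  refine ⟨?_, fun u => ?_, fun u => ?_⟩
  · have : lw N w s = fun u => Real.log (1 + YW N w s u) := rfl
    rw [this]
    refine (continuous_const.add hy5).log fun u hu => ?_
    have e : (1 : ℝ) + YW N w s u = 0 := hu
    have := (hy1 u).1
    linarith
  · rw [lw, lw, hy4]
  · obtain ⟨hm0, hm1⟩ := e2b_min h.w0 h.w2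
    have hm2 : 0 < (min w (2 - w)) ^ 2 := by positivity
    have hm3 : (min w (2 - w)) ^ 2 ≤ 1 := pow_le_one₀ hm0.le hm1
    have hpos : 0 < 1 + YW N w s u := by linarith [(hy1 u).1]
    have hab := (hy1 u).2
    have hlow := h.low u
    have hT := e2b_T_nonneg h.evenN u
    set T := Real.tanh (3 * u / 4) ^ N with hTd
    set m2 := (min w (2 - w)) ^ 2 with hm2d
    have key : |lw N w s u| ≤ |YW N w s u| / m2 := by
      rw [lw]
      rcases le_total 0 (YW N w s u) with h1 | h1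
      · rw [abs_of_nonneg (Real.log_nonneg (by linarith)), abs_of_nonneg h1]
        have h2 := Real.log_le_sub_one_of_pos hpos
        have h3 : YW N w s u ≤ YW N w s u / m2 := by
          rw [le_div_iff₀ hm2]
          nlinarith
        linarith
      · rw [abs_of_nonpos (Real.log_nonpos hpos.le (by linarith)), abs_of_nonpos h1]
        have h2 := Real.log_le_sub_one_of_pos (inv_pos.2 hpos)
        rw [Real.log_inv] at h2
        have h3 : (1 + YW N w s u)⁻¹ - 1 = -YW N w s u / (1 + YW N w s u) := by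
          field_simp
          ring
        have h4 : -YW N w s u / (1 + YW N w s u) ≤ -YW N w s u / m2 :=
          div_le_div_of_nonneg_left (by linarith) hm2 hlow
        linarith
    calc |lw N w s u| ≤ |YW N w s u| / m2 := key
      _ ≤ (3 * T) / m2 := div_le_div_of_nonneg_right hab hm2.le
      _ = 3 / m2 * T := by ring

end H906C
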