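import Pool.Agent.H906R3.CY.Defs2
import Pool.Agent.H906R3.CY.E1
import Pool.Agent.H906R3.CY.E2a
import Pool.Agent.H906R3.CY.E2b

/-!
Task E3 (helper99): the first integral, weight `w`.
-/

namespace H906C

open MeasureTheory Filter Topology

theorem e3_sech (u : ℝ) (hu : 0 < u) (N : ℕ) (hN : 1 ≤ N) :
    0 ≤ Real.tanh (3 * u / 4) ^ N / Real.sinh (3 * u / 2) ∧
    Real.tanh (3 * u / 4) ^ N / Real.sinh (3 * u / 2) ≤ 2 * Real.exp (-(3 * u / 2)) := by
  set x := 3 * u / 4 with hx
  have hx0 : 0 < x := by positivity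
  have e : 3 * u / 2 = 2 * x := by rw [hx]; ring
  rw [e, Real.sinh_two_mul]
  have hs : 0 < Real.sinh x := Real.sinh_pos_iff.2 hx0
  have hc : 0 < Real.cosh x := Real.cosh_pos x
  have ht : Real.tanh x = Real.sinh x / Real.cosh x := Real.tanh_eq_sinh_div_cosh x
  have ht0 : 0 ≤ Real.tanh x := by rw [ht]; positivity
  have ht1 : Real.tanh x ≤ 1 := by
    rw [ht, div_le_one hc]
    exact (Real.sinh_lt_cosh x).le
  refine ⟨by positivity, ?_⟩
  have h1 : Real.tanh x ^ N ≤ Real.tanh x := by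
    calc Real.tanh x ^ N ≤ Real.tanh x ^ 1 := pow_le_pow_of_le_one ht0 ht1 hN
      _ = _ := pow_one _
  have h2 : Real.exp x / 2 ≤ Real.cosh x := by
    rw [Real.cosh_eq]
    have := Real.exp_pos (-x)
    linarith
  calc Real.tanh x ^ N / (2 * Real.sinh x * Real.cosh x)
      ≤ Real.tanh x / (2 * Real.sinh x * Real.cosh x) := by gcongr
    _ = 1 / (2 * Real.cosh x ^ 2) := by
        rw [ht]; field_simp
    _ ≤ 1 / (2 * (Real.exp x / 2) ^ 2) := by gcongr
    _ = 2 * Real.exp (-(2 * x)) := by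
        rw [Real.exp_neg, two_mul x, Real.exp_add]
        field_simp

theorem e3_expint (b C : ℝ) (hb : 0 < b) :
    IntegrableOn (fun u : ℝ => C * Real.exp (-b * u)) (Set.Ioi 0) :=
  (exp_neg_integrableOn_Ioi 0 hb).const_mul C

theorem int_Fw {N : ℕ} {w : ℝ} {s : ℝ → ℝ} (h : TBAW N w s) :
    IntegrableOn (fun u => lw N w s u * ((3 / 2 * N) / Real.sinh (3 * u / 2))) (Set.Ioi 0) ∧
    IntegrableOn (fun u => lw N w s u * deriv (bw w s) u) (Set.Ioi 0) ∧
    ∫ u in Set.Ioi (0 : ℝ), lw N w s u * ((3 / 2 * N) / Real.sinh (3 * u / 2))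
      = Fw (w ^ 2 - 1) - ∫ u in Set.Ioi (0 : ℝ), lw N w s u * deriv (bw w s) u := by
  obtain ⟨hb1, -, -, -, -, K, hK⟩ := bw_props h
  obtain ⟨hy1, hy2, hy3, -, hy5, hy6, hy7⟩ := YW_props h
  obtain ⟨hl1, -, hl4⟩ := lw_props h
  have hN1 : 1 ≤ N := le_trans (by norm_num) h.two_le
  have hb' : Continuous (deriv (bw w s)) := hb1.continuous_deriv le_rfl
  obtain ⟨Q, hQ⟩ : ∃ Q : ℝ, Q = 3 / (min w (2 - w)) ^ 2 := ⟨_, rfl⟩
  rw [← hQ] at hl4
  have hQ0 : 0 ≤ Q := by
    rw [hQ]
    positivity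
  have I1 : IntegrableOn (fun u => lw N w s u * ((3 / 2 * N) / Real.sinh (3 * u / 2)))
      (Set.Ioi 0) := by
    refine Integrable.mono' (e3_expint (3 / 2) (3 * Q * N) (by norm_num)) ?_ ?_
    · apply ContinuousOn.aestronglyMeasurable _ measurableSet_Ioi
      apply hl1.continuousOn.mul
      apply ContinuousOn.div continuousOn_const
      · exact (Real.continuous_sinh.comp (by fun_prop)).continuousOn
      · intro u hu
        have hu' : (0 : ℝ) < u := hu
        exact (Real.sinh_pos_iff.2 (by positivity)).ne'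
    · rw [ae_restrict_iff' measurableSet_Ioi]
      refine Filter.Eventually.of_forall fun u hu => ?_
      have hu' : (0 : ℝ) < u := hu
      obtain ⟨h1, h2⟩ := e3_sech u hu' N hN1
      have h3 := hl4 u
      have hs : 0 < Real.sinh (3 * u / 2) := Real.sinh_pos_iff.2 (by positivity)
      rw [Real.norm_eq_abs, abs_mul, abs_of_nonneg (show (0 : ℝ) ≤
        (3 / 2 * N) / Real.sinh (3 * u / 2) by positivity)]
      calc |lw N w s u| * ((3 / 2 * N) / Real.sinh (3 * u / 2))
          ≤ (Q * Real.tanh (3 * u / 4) ^ N) * ((3 / 2 * N) / Real.sinh (3 * u / 2)) := by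
            gcongr
        _ = 3 / 2 * Q * N * (Real.tanh (3 * u / 4) ^ N / Real.sinh (3 * u / 2)) := by
            field_simp
        _ ≤ 3 / 2 * Q * N * (2 * Real.exp (-(3 * u / 2))) := by
            gcongr
        _ = 3 * Q * N * Real.exp (-(3 / 2) * u) := by
            have : -(3 / 2) * u = -(3 * u / 2) := by ring
            rw [this]; ring
  have hK0 : 0 ≤ K := by
    have := (abs_nonneg _).trans (hK 0)
    simpa using this
  have I2 : IntegrableOn (fun u => lw N w s u * deriv (bw w s) u) (Set.Ioi 0) := by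
    refine Integrable.mono' (e3_expint 1 (Q * K) one_pos) ?_ ?_
    · exact (hl1.mul hb').aestronglyMeasurable
    · rw [ae_restrict_iff' measurableSet_Ioi]
      refine Filter.Eventually.of_forall fun u hu => ?_
      have hu' : (0 : ℝ) < u := hu
      have h3 := hl4 u
      have h4 := hK u
      rw [abs_of_pos hu'] at h4
      have hx0 : (0 : ℝ) < 3 * u / 4 := by positivity
      have ht : Real.tanh (3 * u / 4) = Real.sinh (3 * u / 4) / Real.cosh (3 * u / 4) :=
        Real.tanh_eq_sinh_div_cosh _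
      have hs : 0 < Real.sinh (3 * u / 4) := Real.sinh_pos_iff.2 hx0
      have hc : 0 < Real.cosh (3 * u / 4) := Real.cosh_pos _
      have ht0 : 0 ≤ Real.tanh (3 * u / 4) := by rw [ht]; positivity
      have ht1 : Real.tanh (3 * u / 4) ≤ 1 := by
        rw [ht, div_le_one hc]
        exact (Real.sinh_lt_cosh _).le
      have hT1 : Real.tanh (3 * u / 4) ^ N ≤ 1 := pow_le_one₀ ht0 ht1
      have hT0 : 0 ≤ Real.tanh (3 * u / 4) ^ N := pow_nonneg ht0 N
      rw [Real.norm_eq_abs, abs_mul]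
      calc |lw N w s u| * |deriv (bw w s) u|
          ≤ (Q * Real.tanh (3 * u / 4) ^ N) * (K * Real.exp (-u)) := by gcongr
        _ ≤ (Q * 1) * (K * Real.exp (-u)) := by gcongr
        _ = Q * K * Real.exp (-1 * u) := by
            have : -1 * u = -u := by ring
            rw [this]; ring
  refine ⟨I1, I2, ?_⟩
  have hmem : ∀ u, YW N w s u ∈ Set.Ioi (-1 : ℝ) := fun u => (hy1 u).1
  have hcont : Continuous (fun u => Fw (YW N w s u)) :=
    Fw_cont.comp_continuous hy5 hmem
  have hder : ∀ u ∈ Set.Ioi (0 : ℝ), HasDerivAt (fun u => Fw (YW N w s u))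
      (lw N w s u * ((3 / 2 * N) / Real.sinh (3 * u / 2)) + lw N w s u * deriv (bw w s) u) u := by
    intro u hu
    have h0 := hy2 u hu
    have h1 := (hy1 u).1
    have h2 := (Fw_deriv (YW N w s u) h1 h0).comp u (hy7 u hu)
    refine h2.congr_deriv ?_
    show Real.log (1 + YW N w s u) / YW N w s u *
      (YW N w s u * ((3 / 2 * N) / Real.sinh (3 * u / 2) + deriv (bw w s) u)) = _
    unfold lw
    field_simp
  have hw1 : (-1 : ℝ) < w ^ 2 - 1 := by
    have := h.w0
    nlinarith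
  have hlim : Tendsto (fun u => Fw (YW N w s u)) atTop (𝓝 (Fw (w ^ 2 - 1))) := by
    have h1 : ContinuousAt Fw (w ^ 2 - 1) := Fw_cont.continuousAt (Ioi_mem_nhds hw1)
    exact h1.tendsto.comp hy6
  have key := MeasureTheory.integral_Ioi_of_hasDerivAt_of_tendsto
    (hcont.continuousWithinAt (s := Set.Ici 0) (x := 0)) hder (I1.add I2) hlim
  have h0 : Fw (YW N w s 0) = 0 := by
    rw [hy3]
    unfold Fw
    simp
  rw [h0, sub_zero] at key
  have e : ∫ u in Set.Ioi (0 : ℝ), (lw N w s u * ((3 / 2 * N) / Real.sinh (3 * u / 2)) +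
      lw N w s u * deriv (bw w s) u) =
      (∫ u in Set.Ioi (0 : ℝ), lw N w s u * ((3 / 2 * N) / Real.sinh (3 * u / 2))) +
      ∫ u in Set.Ioi (0 : ℝ), lw N w s u * deriv (bw w s) u := integral_add I1 I2
  rw [e] at key
  linarith

end H906C
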