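import Pool.Agent.H906R3.CY.Defs2
import Pool.Agent.H906R3.K6.A2a
import Pool.Agent.H906R3.CY.E2b

/-! E4: the double integral for a general weight; `dblw_of` takes the facts on `LW`, `bw`, `lw` as
hypotheses (adapted from C4a of helper56). -/

set_option autoImplicit false

namespace H906C

open MeasureTheory Set Filter Topology
open H906K (kk kk_pos kk_even kk_cont kk_le kk_integrable)

/-- splitting at zero -/
theorem e4_split (G : ℝ → ℝ) (h : Integrable G) :
    ∫ v, G v = (∫ v in Ioi (0 : ℝ), G v) + ∫ v in Iio (0 : ℝ), G v := by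
  rw [← integral_add_compl (measurableSet_Ioi (a := (0 : ℝ))) h, compl_Ioi,
    integral_Iic_eq_integral_Iio]

theorem e4_neg (G : ℝ → ℝ) : ∫ v in Iio (0 : ℝ), G v = ∫ v in Ioi (0 : ℝ), G (-v) := by
  rw [integral_comp_neg_Ioi, neg_zero, integral_Iic_eq_integral_Iio]

theorem dblw_of {N : ℕ} {w : ℝ} {s : ℝ → ℝ} (h : TBAW N w s)
    (hgc0 : Continuous (deriv (LW w s))) (hLi : Integrable (deriv (LW w s)))
    (hLodd : ∀ u, deriv (LW w s) (-u) = -deriv (LW w s) u)
    (hbd : ∀ u, deriv (bw w s) u = ∫ v : ℝ, H906K.kk (u - v) * deriv (LW w s) v)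
    (hfc : Continuous (lw N w s)) (hfe : ∀ u, lw N w s (-u) = lw N w s u)
    (C : ℝ) (hfb : ∀ u, |lw N w s u| ≤ C) :
    ∫ u in Set.Ioi (0 : ℝ), lw N w s u * deriv (bw w s) u
      = (∫ u in Set.Ioi (0 : ℝ), Real.log (s u) * deriv (LW w s) u) + DW N w s := by
  obtain ⟨f, hf⟩ : ∃ f : ℝ → ℝ, f = lw N w s := ⟨_, rfl⟩
  obtain ⟨g, hg⟩ : ∃ g : ℝ → ℝ, g = deriv (LW w s) := ⟨_, rfl⟩
  have hgc : Continuous g := by rw [hg]; exact hgc0
  have hgi : Integrable g := by rw [hg]; exact hLi
  have hgo : ∀ v, g (-v) = -g v := by rw [hg]; exact hLodd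
  rw [← hf] at hfc hfe hfb
  have hks : ∀ u v, kk (u - v) = kk (v - u) := fun u v => by
    rw [← kk_even (v - u)]; congr 1; ring
  have hksh : ∀ v, Integrable (fun u : ℝ => kk (v - u)) := fun v =>
    kk_integrable.comp_sub_left v
  have hci : ∀ v, Integrable (fun u : ℝ => kk (v - u) * f u) := fun v => by
    have := Integrable.bdd_mul (c := C) (hksh v) hfc.aestronglyMeasurable
      (Eventually.of_forall fun u => by rw [Real.norm_eq_abs]; exact hfb u)
    refine this.congr (Eventually.of_forall fun u => ?_)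
    simp only
    ring
  have hlog : ∀ v, Real.log (s v) = ∫ u, kk (v - u) * f u := by
    intro v; rw [hf]; exact h.eq v
  -- the integrand
  obtain ⟨F, hF⟩ : ∃ F : ℝ → ℝ → ℝ, ∀ u v, F u v = f u * (kk (u - v) * g v) :=
    ⟨_, fun _ _ => rfl⟩
  have hFv : ∀ u v, F u v = (kk (v - u) * f u) * g v := fun u v => by rw [hF, hks]; ring
  have hint : Integrable (Function.uncurry F) (volume.prod volume) := by
    have hcont : Continuous (Function.uncurry F) := by
      have : Function.uncurry F = fun q : ℝ × ℝ => f q.1 * (kk (q.1 - q.2) * g q.2) := by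
        funext q; exact hF q.1 q.2
      rw [this]
      exact (hfc.comp continuous_fst).mul ((kk_cont.comp (continuous_fst.sub continuous_snd)).mul
        (hgc.comp continuous_snd))
    have hconv : Integrable (fun q : ℝ × ℝ => g q.2 * kk (q.1 - q.2)) (volume.prod volume) := by
      have := Integrable.convolution_integrand (L := ContinuousLinearMap.mul ℝ ℝ) (μ := volume)
        (ν := volume) hgi kk_integrable
      simpa using this
    refine (hconv.norm.const_mul C).mono' hcont.aestronglyMeasurable ?_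
    refine Eventually.of_forall fun q => ?_
    have e : Function.uncurry F q = f q.1 * (g q.2 * kk (q.1 - q.2)) := by
      change F q.1 q.2 = _
      rw [hF]; ring
    rw [e, norm_mul]
    have := hfb q.1
    rw [← Real.norm_eq_abs] at this
    exact mul_le_mul_of_nonneg_right this (norm_nonneg _)
  -- integrability on rectangles
  have hST : ∀ S T : Set ℝ, Integrable (Function.uncurry F)
      ((volume.restrict S).prod (volume.restrict T)) := by
    intro S T
    rw [Measure.prod_restrict]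
    exact hint.restrict
  have hswap : ∀ S T : Set ℝ, ∫ u in S, ∫ v in T, F u v = ∫ v in T, ∫ u in S, F u v :=
    fun S T => integral_integral_swap (hST S T)
  have hli : ∀ S T : Set ℝ, IntegrableOn (fun u => ∫ v in T, F u v) S := fun S T =>
    (hST S T).integral_prod_left
  have hri : ∀ S T : Set ℝ, IntegrableOn (fun v => ∫ u in S, F u v) T := fun S T =>
    (hST S T).integral_prod_right
  obtain ⟨I1, hI1⟩ : ∃ x : ℝ, x = ∫ u in Ioi (0 : ℝ), ∫ v in Ioi (0 : ℝ), F u v := ⟨_, rfl⟩
  obtain ⟨I2, hI2⟩ : ∃ x : ℝ, x = ∫ u in Ioi (0 : ℝ), ∫ v in Iio (0 : ℝ), F u v := ⟨_, rfl⟩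
  -- left side
  have hgk : ∀ u, Integrable (fun v => kk (u - v) * g v) := by
    intro u
    have hk1 : ∀ l, kk l ≤ 3 / (2 * Real.pi) := by
      intro l
      refine (kk_le l).trans ?_
      have h1 : Real.exp (-(3 * |l| / 2)) ≤ 1 := by
        rw [Real.exp_le_one_iff]
        have := abs_nonneg l
        linarith
      have hpi := Real.pi_pos
      calc 3 / (2 * Real.pi) * Real.exp (-(3 * |l| / 2)) ≤ 3 / (2 * Real.pi) * 1 :=
            mul_le_mul_of_nonneg_left h1 (by positivity)
        _ = _ := mul_one _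
    refine Integrable.bdd_mul (c := 3 / (2 * Real.pi)) hgi
      (kk_cont.comp (continuous_const.sub continuous_id)).aestronglyMeasurable ?_
    refine Eventually.of_forall fun v => ?_
    rw [Real.norm_eq_abs, abs_of_pos (kk_pos _)]
    exact hk1 _
  have hA : ∫ u in Ioi (0 : ℝ), lw N w s u * deriv (bw w s) u = I1 + I2 := by
    rw [hI1, hI2, ← integral_add (hli _ _) (hli _ _)]
    refine integral_congr_ae (Eventually.of_forall fun u => ?_)
    simp only
    rw [hbd, ← hg, ← hf, e4_split _ (hgk u), mul_add, ← integral_const_mul, ← integral_const_mul]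
    simp only [hF]
  have hB : ∫ u in Ioi (0 : ℝ), Real.log (s u) * deriv (LW w s) u =
      I1 + ∫ v in Ioi (0 : ℝ), ∫ u in Iio (0 : ℝ), F u v := by
    rw [hI1, hswap, ← integral_add (hri _ _) (hri _ _)]
    refine integral_congr_ae (Eventually.of_forall fun v => ?_)
    simp only
    rw [hlog, ← hg, e4_split _ (hci v), add_mul, ← integral_mul_const, ← integral_mul_const]
    simp only [hFv]
  have hC : ∫ v in Ioi (0 : ℝ), ∫ u in Iio (0 : ℝ), F u v = -I2 := by
    rw [← hswap, hI2, e4_neg, ← integral_neg]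
    refine integral_congr_ae (Eventually.of_forall fun u => ?_)
    simp only
    rw [e4_neg, ← integral_neg]
    refine integral_congr_ae (Eventually.of_forall fun v => ?_)
    simp only
    rw [hF, hF, hfe, hgo]
    have : kk (-u - v) = kk (u - -v) := by
      rw [← kk_even (u - -v)]; congr 1; ring
    rw [this]; ring
  have hD : DW N w s = 2 * I2 := by
    unfold DW
    rw [hI2, ← hf, ← hg]
    congr 1
    refine integral_congr_ae (Eventually.of_forall fun u => ?_)
    simp only
    rw [← integral_const_mul]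
    simp only [hF]
  rw [hA, hB, hC, hD]
  ring

theorem dblw {N : ℕ} {w : ℝ} {s : ℝ → ℝ} (h : TBAW N w s) :
    ∫ u in Set.Ioi (0 : ℝ), lw N w s u * deriv (bw w s) u
      = (∫ u in Set.Ioi (0 : ℝ), Real.log (s u) * deriv (LW w s) u) + DW N w s := by
  obtain ⟨hLc, -, -, -, hLodd, -, hLi, -, -, -⟩ := LW_props h
  obtain ⟨-, -, -, hbd, -, -⟩ := bw_props h
  obtain ⟨hfc, hfe, hfb⟩ := lw_props h
  refine dblw_of h (hLc.continuous_deriv le_rfl) hLi hLodd hbd hfc hfe
    (3 / (min w (2 - w)) ^ 2) (fun u => ?_)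
  refine (hfb u).trans ?_
  have h1 : Real.tanh (3 * u / 4) ^ N ≤ 1 := by
    have h2 : |Real.tanh (3 * u / 4)| ≤ 1 := (Real.abs_tanh_lt_one _).le
    calc Real.tanh (3 * u / 4) ^ N ≤ |Real.tanh (3 * u / 4) ^ N| := le_abs_self _
      _ = |Real.tanh (3 * u / 4)| ^ N := abs_pow _ _
      _ ≤ 1 := pow_le_one₀ (abs_nonneg _) h2
  have h2 : 0 ≤ 3 / (min w (2 - w)) ^ 2 := by positivity
  calc 3 / (min w (2 - w)) ^ 2 * Real.tanh (3 * u / 4) ^ N
      ≤ 3 / (min w (2 - w)) ^ 2 * 1 := mul_le_mul_of_nonneg_left h1 h2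
    _ = 3 / (min w (2 - w)) ^ 2 := mul_one _

end H906C
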