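import Pool.Agent.H906R3.CY.Defs2
import Pool.Agent.H906R3.CY.E1
import Pool.Agent.H906R3.CY.E2a

/-!
# E5: the second integral
-/

namespace H906C
open MeasureTheory Filter Topology

theorem e5_pos {N : ℕ} {w : ℝ} {s : ℝ → ℝ} (h : TBAW N w s) (u : ℝ) :
    0 < s u ∧ |Real.log (s u)| ≤ |Real.log w| := by
  rcases lt_or_gt_of_ne h.w1 with hw | hw
  · obtain ⟨h1, h2⟩ := (h.bet u).1 hw
    have hs : 0 < s u := lt_of_lt_of_le h.w0 h1
    refine ⟨hs, ?_⟩
    have hl1 : Real.log w ≤ Real.log (s u) := Real.log_le_log h.w0 h1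
    have hl2 : Real.log (s u) ≤ 0 := Real.log_nonpos hs.le h2
    rw [abs_of_nonpos hl2, abs_of_nonpos (hl1.trans hl2)]
    linarith
  · obtain ⟨h1, h2⟩ := (h.bet u).2 hw
    have hs : 0 < s u := by linarith
    refine ⟨hs, ?_⟩
    have hl1 : Real.log (s u) ≤ Real.log w := Real.log_le_log hs h2
    have hl2 : 0 ≤ Real.log (s u) := Real.log_nonneg h1
    rw [abs_of_nonneg hl2, abs_of_nonneg (hl2.trans hl1)]
    exact hl1

theorem int_Gw {N : ℕ} {w : ℝ} {s : ℝ → ℝ} (h : TBAW N w s) :
    ∫ u in Set.Ioi (0 : ℝ), Real.log (s u) * deriv (LW w s) u = -Gw w (s 0) := by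
  obtain ⟨-, -, -, -, -, hd, hint, -, -, -⟩ := LW_props h
  have hG : ∀ u, HasDerivAt (fun u => Gw w (s u)) (Real.log (s u) * deriv (LW w s) u) u := by
    intro u
    have h1 := Gw_deriv w (s u) h.w0 h.w2 h.w1 (e5_pos h u).1
    have h2 : HasDerivAt s (deriv s u) u :=
      ((h.diff.differentiable one_ne_zero) u).hasDerivAt
    have h3 := h1.comp u h2
    refine h3.congr_deriv ?_
    rw [hd u]
    ring
  have hcont : Continuous fun u => Real.log (s u) :=
    h.diff.continuous.log fun u => (e5_pos h u).1.ne'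
  have hi : IntegrableOn (fun u => Real.log (s u) * deriv (LW w s) u) (Set.Ioi 0) :=
    (hint.bdd_mul (c := |Real.log w|) hcont.aestronglyMeasurable
      (Filter.Eventually.of_forall fun u => by
        rw [Real.norm_eq_abs]; exact (e5_pos h u).2)).integrableOn
  have hlim : Tendsto (fun u => Gw w (s u)) atTop (𝓝 0) := by
    have h1 : ContinuousAt (Gw w) w := (Gw_deriv w w h.w0 h.w2 h.w1 h.w0).continuousAt
    have h2 : Gw w w = 0 := by
      unfold Gw
      exact intervalIntegral.integral_same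
    have h3 := h1.tendsto.comp h.top
    rw [h2] at h3
    exact h3
  have := integral_Ioi_of_hasDerivAt_of_tendsto (a := 0) (f := fun u => Gw w (s u))
    (f' := fun u => Real.log (s u) * deriv (LW w s) u)
    (hG 0).continuousAt.continuousWithinAt (fun u _ => hG u) hi hlim
  rw [this]
  ring

end H906C
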