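import Pool.Agent.H906R3.CY.E7a
import Pool.Agent.H906R3.CY.E1
import Pool.Agent.H906R3.CY.E1b
import Pool.Agent.H906R3.CY.E2b
import Pool.Agent.H906R3.CY.E3
import Pool.Agent.H906R3.CY.E4
import Pool.Agent.H906R3.CY.E5
import Pool.Agent.H906R3.CY.E6

/-!
# E7: the asymptotics for the weight `w`
-/

namespace H906C
open MeasureTheory Filter Topology

theorem tbaw_asymp (w : ℝ) (s : ℕ → ℝ → ℝ) (h : ∀ k, TBAW (2 * k + 2) w (s k)) :
    Tendsto (fun k : ℕ => (2 * k + 2 : ℝ) * Real.log (s k 0)) atTop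
      (𝓝 (Real.pi / 6 - 3 * Real.arccos (w / 2) ^ 2 / (2 * Real.pi))) :=
  e7_of w s h
    (Gw_deriv w 1 (h 0).w0 (h 0).w2 (h 0).w1 one_pos).continuousAt
    (dilogW w (h 0).w0 (h 0).w2 (h 0).w1)
    lw_props int_Fw dblw int_Gw DW_le s0w

end H906C
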