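import Pool.Agent.H906R3.CY.Defs2
import Pool.Agent.H906R3.CY.C7

/-!
# E7a: the asymptotics for the weight `w`, from the statements of the other modules
-/

namespace H906C
open MeasureTheory Filter Topology

theorem e7_even {f : ℝ → ℝ} (hf : ∀ u, f (-u) = f u) :
    ∫ u : ℝ, f u = 2 * ∫ u in Set.Ioi (0 : ℝ), f u := by
  rw [← integral_comp_abs]
  refine integral_congr_ae (Eventually.of_forall fun u => ?_)
  show f u = f |u|
  rcases abs_choice u with h | h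
  · rw [h]
  · rw [h, hf]

theorem e7_one {N : ℕ} {w : ℝ} {s : ℝ → ℝ} (h : TBAW N w s)
    (hcont : Continuous (lw N w s)) (heven : ∀ u, lw N w s (-u) = lw N w s u)
    (hbd : ∀ u, |lw N w s u| ≤ 3 / (min w (2 - w)) ^ 2 * Real.tanh (3 * u / 4) ^ N)
    (hint : IntegrableOn (fun u => lw N w s u * ((3 / 2 * N) / Real.sinh (3 * u / 2)))
      (Set.Ioi 0)) :
    |Real.pi * (N * Real.log (s 0)) -
        ∫ u in Set.Ioi (0 : ℝ), lw N w s u * ((3 / 2 * N) / Real.sinh (3 * u / 2))| ≤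
      3 / (min w (2 - w)) ^ 2 * ∫ u in Set.Ioi (0 : ℝ),
        (1 + u) * Real.tanh (3 * u / 4) ^ N * ((3 / 2 * N) / Real.sinh (3 * u / 2))
          * (1 - Real.tanh (3 * u / 2)) := by
  have hpi := Real.pi_pos
  have h1 : Real.log (s 0) = 2 * ∫ u in Set.Ioi (0 : ℝ), H906K.kk u * lw N w s u := by
    rw [h.eq 0]
    have e1 : ∀ u : ℝ, H906K.kk (0 - u) * lw N w s u = H906K.kk u * lw N w s u := by
      intro u
      rw [zero_sub, H906K.kk_even]
    simp only [e1]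
    exact e7_even (fun u => by rw [H906K.kk_even, heven])
  have hpt : ∀ u ∈ Set.Ioi (0 : ℝ), Real.pi * N * 2 * (H906K.kk u * lw N w s u) =
      lw N w s u * ((3 / 2 * N) / Real.sinh (3 * u / 2)) * Real.tanh (3 * u / 2) := by
    intro u hu
    have hu' : 0 < u := hu
    have hs : 0 < Real.sinh (3 * u / 2) := Real.sinh_pos_iff.2 (by linarith)
    have hc := Real.cosh_pos (3 * u / 2)
    rw [Real.tanh_eq_sinh_div_cosh]
    unfold H906K.kk
    field_simp
    ring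
  have hintb : IntegrableOn (fun u => lw N w s u * ((3 / 2 * N) / Real.sinh (3 * u / 2)) *
      Real.tanh (3 * u / 2)) (Set.Ioi 0) := by
    refine Integrable.mono hint ?_ ?_
    · exact hint.aestronglyMeasurable.mul
        ((c7_tanh_cont.comp (by fun_prop : Continuous fun u : ℝ => 3 * u / 2)).aestronglyMeasurable)
    · rw [ae_restrict_iff' measurableSet_Ioi]
      refine Eventually.of_forall fun u hu => ?_
      have hu' : 0 < u := hu
      obtain ⟨hr0, hr1⟩ := c7_tanh_range (y := 3 * u / 2) (by linarith)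
      rw [norm_mul, Real.norm_of_nonneg hr0]
      exact mul_le_of_le_one_right (norm_nonneg _) hr1.le
  have h2 : Real.pi * (N * Real.log (s 0)) = ∫ u in Set.Ioi (0 : ℝ),
      lw N w s u * ((3 / 2 * N) / Real.sinh (3 * u / 2)) * Real.tanh (3 * u / 2) := by
    rw [h1, ← setIntegral_congr_fun measurableSet_Ioi hpt, integral_const_mul]
    ring
  have h3 : Real.pi * (N * Real.log (s 0)) -
      ∫ u in Set.Ioi (0 : ℝ), lw N w s u * ((3 / 2 * N) / Real.sinh (3 * u / 2)) =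
      ∫ u in Set.Ioi (0 : ℝ), (lw N w s u * ((3 / 2 * N) / Real.sinh (3 * u / 2)) *
        Real.tanh (3 * u / 2) - lw N w s u * ((3 / 2 * N) / Real.sinh (3 * u / 2))) := by
    rw [h2, integral_sub hintb hint]
  rw [h3, ← integral_const_mul, ← Real.norm_eq_abs]
  refine norm_integral_le_of_norm_le ((err2_int N h.two_le).const_mul _) ?_
  rw [ae_restrict_iff' measurableSet_Ioi]
  refine Eventually.of_forall fun u hu => ?_
  have hu' : 0 < u := hu
  obtain ⟨hr0, hr1⟩ := c7_tanh_range (y := 3 * u / 2) (by linarith)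
  obtain ⟨hq0, hq1⟩ := c7_tanh_range (y := 3 * u / 4) (by linarith)
  have hs : 0 < Real.sinh (3 * u / 2) := Real.sinh_pos_iff.2 (by linarith)
  set T := Real.tanh (3 * u / 2) with hT
  set Q := Real.tanh (3 * u / 4) with hQ
  have e1 : lw N w s u * ((3 / 2 * N) / Real.sinh (3 * u / 2)) * T -
      lw N w s u * ((3 / 2 * N) / Real.sinh (3 * u / 2)) =
      -(lw N w s u * (((3 / 2 * N) / Real.sinh (3 * u / 2)) * (1 - T))) := by ring
  have hnn : 0 ≤ ((3 / 2 * N) / Real.sinh (3 * u / 2)) * (1 - T) := by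
    have : 0 ≤ 1 - T := by linarith
    positivity
  rw [e1, norm_neg, norm_mul, Real.norm_of_nonneg hnn, Real.norm_eq_abs]
  have hb := hbd u
  rw [← hQ] at hb
  have hC : 0 ≤ 3 / (min w (2 - w)) ^ 2 * Q ^ N := by positivity
  calc |lw N w s u| * (((3 / 2 * N) / Real.sinh (3 * u / 2)) * (1 - T))
      ≤ (3 / (min w (2 - w)) ^ 2 * Q ^ N) * (((3 / 2 * N) / Real.sinh (3 * u / 2)) * (1 - T)) :=
        mul_le_mul_of_nonneg_right hb hnn
    _ ≤ (1 + u) * ((3 / (min w (2 - w)) ^ 2 * Q ^ N) *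
          (((3 / 2 * N) / Real.sinh (3 * u / 2)) * (1 - T))) :=
        le_mul_of_one_le_left (mul_nonneg hC hnn) (by linarith)
    _ = 3 / (min w (2 - w)) ^ 2 * ((1 + u) * Q ^ N * ((3 / 2 * N) / Real.sinh (3 * u / 2))
          * (1 - T)) := by ring

theorem e7_of (w : ℝ) (s : ℕ → ℝ → ℝ) (h : ∀ k, TBAW (2 * k + 2) w (s k))
    (hGw : ContinuousAt (Gw w) 1)
    (hdil : Fw (w ^ 2 - 1) + Gw w 1 = Real.pi ^ 2 / 6 - 3 / 2 * Real.arccos (w / 2) ^ 2)
    (hlw : ∀ {N : ℕ} {w : ℝ} {s : ℝ → ℝ}, TBAW N w s →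
      Continuous (lw N w s) ∧ (∀ u, lw N w s (-u) = lw N w s u) ∧
      (∀ u, |lw N w s u| ≤ 3 / (min w (2 - w)) ^ 2 * Real.tanh (3 * u / 4) ^ N))
    (hFw : ∀ {N : ℕ} {w : ℝ} {s : ℝ → ℝ}, TBAW N w s →
      IntegrableOn (fun u => lw N w s u * ((3 / 2 * N) / Real.sinh (3 * u / 2))) (Set.Ioi 0) ∧
      IntegrableOn (fun u => lw N w s u * deriv (bw w s) u) (Set.Ioi 0) ∧
      ∫ u in Set.Ioi (0 : ℝ), lw N w s u * ((3 / 2 * N) / Real.sinh (3 * u / 2))
        = Fw (w ^ 2 - 1) - ∫ u in Set.Ioi (0 : ℝ), lw N w s u * deriv (bw w s) u)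
    (hdbl : ∀ {N : ℕ} {w : ℝ} {s : ℝ → ℝ}, TBAW N w s →
      ∫ u in Set.Ioi (0 : ℝ), lw N w s u * deriv (bw w s) u
        = (∫ u in Set.Ioi (0 : ℝ), Real.log (s u) * deriv (LW w s) u) + DW N w s)
    (hG : ∀ {N : ℕ} {w : ℝ} {s : ℝ → ℝ}, TBAW N w s →
      ∫ u in Set.Ioi (0 : ℝ), Real.log (s u) * deriv (LW w s) u = -Gw w (s 0))
    (hDW : ∀ {N : ℕ} {w : ℝ} {s : ℝ → ℝ}, TBAW N w s →
      |DW N w s| ≤ 2 * (6 / (1 - (w ^ 3 - 3 * w) ^ 2 / 4)) * (3 / (min w (2 - w)) ^ 2) *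
        ∫ u in Set.Ioi (0 : ℝ), H906K.kk u * (6 * (1 + u) * Real.tanh (3 * u / 4) ^ N))
    (hs0 : ∀ {N : ℕ} {w : ℝ} {s : ℝ → ℝ}, TBAW N w s →
      |Real.log (s 0)| ≤ 2 * (3 / (min w (2 - w)) ^ 2) * ∫ u in Set.Ioi (0 : ℝ),
        H906K.kk u * (6 * (1 + u) * Real.tanh (3 * u / 4) ^ N)) :
    Tendsto (fun k : ℕ => (2 * k + 2 : ℝ) * Real.log (s k 0)) atTop
      (𝓝 (Real.pi / 6 - 3 * Real.arccos (w / 2) ^ 2 / (2 * Real.pi))) := by
  have hpi := Real.pi_pos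
  have hN : Tendsto (fun k : ℕ => 2 * k + 2) atTop atTop :=
    tendsto_atTop_mono (fun k => by show k ≤ 2 * k + 2; omega) tendsto_id
  have e1 := err1.comp hN
  have e2 := err2.comp hN
  have hlog : Tendsto (fun k : ℕ => Real.log (s k 0)) atTop (𝓝 0) := by
    have h1 := e1.const_mul (2 * (3 / (min w (2 - w)) ^ 2))
    rw [mul_zero] at h1
    exact squeeze_zero_norm (fun k => hs0 (h k)) h1
  have hpos : ∀ k, 0 < s k 0 := by
    intro k
    have h1 := (h k).bet 0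
    have h2 := (h k).w0
    rcases lt_or_gt_of_ne (h k).w1 with h3 | h3
    · linarith [(h1.1 h3).1]
    · linarith [(h1.2 h3).1]
  have hs1 : Tendsto (fun k : ℕ => s k 0) atTop (𝓝 1) := by
    have h1 := (Real.continuous_exp.tendsto 0).comp hlog
    rw [Real.exp_zero] at h1
    exact h1.congr fun k => Real.exp_log (hpos k)
  have hGt : Tendsto (fun k : ℕ => Gw w (s k 0)) atTop (𝓝 (Gw w 1)) := hGw.tendsto.comp hs1
  have hD : Tendsto (fun k : ℕ => DW (2 * k + 2) w (s k)) atTop (𝓝 0) := by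
    have h1 := e1.const_mul (2 * (6 / (1 - (w ^ 3 - 3 * w) ^ 2 / 4)) *
      (3 / (min w (2 - w)) ^ 2))
    rw [mul_zero] at h1
    exact squeeze_zero_norm (fun k => hDW (h k)) h1
  have hI : Tendsto (fun k : ℕ => ∫ u in Set.Ioi (0 : ℝ), lw (2 * k + 2) w (s k) u *
      ((3 / 2 * ((2 * k + 2 : ℕ) : ℝ)) / Real.sinh (3 * u / 2))) atTop
      (𝓝 (Real.pi ^ 2 / 6 - 3 / 2 * Real.arccos (w / 2) ^ 2)) := by
    have h1 := (hGt.const_add (Fw (w ^ 2 - 1))).sub hD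
    rw [sub_zero, hdil] at h1
    refine h1.congr fun k => ?_
    rw [(hFw (h k)).2.2, hdbl (h k), hG (h k)]
    ring
  have hR : Tendsto (fun k : ℕ => Real.pi * (((2 * k + 2 : ℕ) : ℝ) * Real.log (s k 0)) -
      ∫ u in Set.Ioi (0 : ℝ), lw (2 * k + 2) w (s k) u *
      ((3 / 2 * ((2 * k + 2 : ℕ) : ℝ)) / Real.sinh (3 * u / 2))) atTop (𝓝 0) := by
    have h1 := e2.const_mul (3 / (min w (2 - w)) ^ 2)
    rw [mul_zero] at h1
    refine squeeze_zero_norm (fun k => ?_) h1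
    obtain ⟨a1, a2, a3⟩ := hlw (h k)
    exact e7_one (h k) a1 a2 a3 (hFw (h k)).1
  have hsum := (hR.add hI).div_const Real.pi
  rw [zero_add] at hsum
  have hval : (Real.pi ^ 2 / 6 - 3 / 2 * Real.arccos (w / 2) ^ 2) / Real.pi =
      Real.pi / 6 - 3 * Real.arccos (w / 2) ^ 2 / (2 * Real.pi) := by
    field_simp
  rw [hval] at hsum
  refine hsum.congr fun k => ?_
  rw [sub_add_cancel]
  push_cast
  field_simp

end H906C
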