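import Mathlib

set_option autoImplicit false

/-! Project CY (helper906), task RATE: growth rate of a non-negative matrix. -/

namespace H906C

open Filter Topology

theorem rate_pow_nonneg {ι : Type*} [Fintype ι] [DecidableEq ι] (A : Matrix ι ι ℝ)
    (h0 : ∀ i j, 0 ≤ A i j) (M : ℕ) : ∀ i j, 0 ≤ (A ^ M) i j := by
  induction M with
  | zero =>
    intro i j
    rw [pow_zero, Matrix.one_apply]
    split_ifs <;> norm_num
  | succ n ih =>
    intro i j
    rw [pow_succ, Matrix.mul_apply]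
    exact Finset.sum_nonneg fun k _ => mul_nonneg (ih i k) (h0 k j)

theorem rate_pow_mulVec {ι : Type*} [Fintype ι] [DecidableEq ι] (A : Matrix ι ι ℝ)
    (v : ι → ℝ) (Λ : ℝ) (he : A.mulVec v = Λ • v) (M : ℕ) :
    (A ^ M).mulVec v = Λ ^ M • v := by
  induction M with
  | zero => rw [pow_zero, pow_zero, Matrix.one_mulVec, one_smul]
  | succ n ih =>
    rw [pow_succ, ← Matrix.mulVec_mulVec, he, Matrix.mulVec_smul, ih, smul_smul, pow_succ,
      mul_comm]

theorem rate_upper {ι : Type*} [Fintype ι] [DecidableEq ι] (A : Matrix ι ι ℝ)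
    (h0 : ∀ i j, 0 ≤ A i j) (v : ι → ℝ) (Λ : ℝ) (hv : ∀ i, 0 < v i)
    (he : A.mulVec v = Λ • v) (j : ι) (M : ℕ) :
    ∑ i, (A ^ M) i j ≤ (∑ i, v i) / v j * Λ ^ M := by
  rw [div_mul_eq_mul_div, le_div_iff₀ (hv j), Finset.sum_mul, Finset.sum_mul]
  refine Finset.sum_le_sum fun i _ => ?_
  have h1 : (A ^ M).mulVec v i = Λ ^ M * v i := by
    rw [rate_pow_mulVec A v Λ he M]
    rfl
  rw [mul_comm (v i), ← h1, Matrix.mulVec, dotProduct]
  exact Finset.single_le_sum (f := fun k => (A ^ M) i k * v k)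
    (fun k _ => mul_nonneg (rate_pow_nonneg A h0 M i k) (hv k).le) (Finset.mem_univ j)

theorem rate_step {ι : Type*} [Fintype ι] [DecidableEq ι] (A : Matrix ι ι ℝ)
    (h0 : ∀ i j, 0 ≤ A i j) (j : ι) (M : ℕ) :
    ∑ i, (A ^ (M + 1)) i j ≤ (1 + ∑ k, ∑ i, A i k) * ∑ i, (A ^ M) i j := by
  have h1 : ∑ i, (A ^ (M + 1)) i j = ∑ k, (∑ i, A i k) * (A ^ M) k j := by
    simp only [pow_succ' A M, Matrix.mul_apply, Finset.sum_mul]
    rw [Finset.sum_comm]
  rw [h1, Finset.mul_sum]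
  refine Finset.sum_le_sum fun k _ => ?_
  refine mul_le_mul_of_nonneg_right ?_ (rate_pow_nonneg A h0 M k j)
  have h2 : ∑ i, A i k ≤ ∑ k, ∑ i, A i k :=
    Finset.single_le_sum (f := fun k => ∑ i, A i k)
      (fun k _ => Finset.sum_nonneg fun i _ => h0 i k) (Finset.mem_univ k)
  linarith

theorem rate_lower {ι : Type*} [Fintype ι] [DecidableEq ι] [Nonempty ι] (A : Matrix ι ι ℝ)
    (h0 : ∀ i j, 0 ≤ A i j) (p : ℕ) (h1 : ∀ i j, 0 < (∑ l ∈ Finset.range p, A ^ l) i j)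
    (v : ι → ℝ) (Λ : ℝ) (hv : ∀ i, 0 < v i) (he : A.mulVec v = Λ • v) (_hΛ : 0 < Λ) (j : ι) :
    ∃ c : ℝ, 0 < c ∧ ∀ M : ℕ, c * Λ ^ M ≤ ∑ i, (A ^ M) i j := by
  obtain ⟨i0, hi0⟩ := Finite.exists_min (fun i => (∑ l ∈ Finset.range p, A ^ l) i j / v i)
  set ε : ℝ := (∑ l ∈ Finset.range p, A ^ l) i0 j / v i0 with hε
  have hεpos : 0 < ε := div_pos (h1 i0 j) (hv i0)
  have hQ : ∀ i, ε * v i ≤ (∑ l ∈ Finset.range p, A ^ l) i j := by
    intro i
    exact (le_div_iff₀ (hv i)).1 (hi0 i)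
  set C : ℝ := 1 + ∑ k, ∑ i, A i k with hC
  have hC1 : 1 ≤ C := by
    have : 0 ≤ ∑ k, ∑ i, A i k :=
      Finset.sum_nonneg fun k _ => Finset.sum_nonneg fun i _ => h0 i k
    linarith
  have hV : 0 < ∑ i, v i := Finset.sum_pos (fun i _ => hv i) Finset.univ_nonempty
  have hp : 0 < p := by
    rcases Nat.eq_zero_or_pos p with h | h
    · exfalso
      have := h1 i0 j
      rw [h, Finset.range_zero, Finset.sum_empty] at this
      simp at this
    · exact h
  have hS0 : ∀ M, 0 ≤ ∑ i, (A ^ M) i j := fun M =>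
    Finset.sum_nonneg fun i _ => rate_pow_nonneg A h0 M i j
  have hpow : ∀ M l, ∑ i, (A ^ (M + l)) i j ≤ C ^ l * ∑ i, (A ^ M) i j := by
    intro M l
    induction l with
    | zero => simp
    | succ n ih =>
      calc ∑ i, (A ^ (M + (n + 1))) i j ≤ C * ∑ i, (A ^ (M + n)) i j :=
            rate_step A h0 j (M + n)
        _ ≤ C * (C ^ n * ∑ i, (A ^ M) i j) := by
            refine mul_le_mul_of_nonneg_left ih (by linarith)
        _ = C ^ (n + 1) * ∑ i, (A ^ M) i j := by ring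
  have hlow : ∀ M, ε * Λ ^ M * ∑ i, v i ≤ ∑ l ∈ Finset.range p, ∑ i, (A ^ (M + l)) i j := by
    intro M
    have e1 : ∑ l ∈ Finset.range p, ∑ i, (A ^ (M + l)) i j
        = ∑ i, (A ^ M * ∑ l ∈ Finset.range p, A ^ l) i j := by
      rw [Finset.sum_comm]
      refine Finset.sum_congr rfl fun i _ => ?_
      rw [Finset.mul_sum, Matrix.sum_apply]
      refine Finset.sum_congr rfl fun l _ => ?_
      rw [pow_add]
    rw [e1, Finset.mul_sum]
    refine Finset.sum_le_sum fun i _ => ?_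
    rw [Matrix.mul_apply]
    have e2 : (A ^ M).mulVec v i = Λ ^ M * v i := by
      rw [rate_pow_mulVec A v Λ he M]
      rfl
    rw [mul_assoc, ← e2, Matrix.mulVec, dotProduct, Finset.mul_sum]
    refine Finset.sum_le_sum fun k _ => ?_
    have e3 := mul_le_mul_of_nonneg_left (hQ k) (rate_pow_nonneg A h0 M i k)
    calc ε * ((A ^ M) i k * v k) = (A ^ M) i k * (ε * v k) := by ring
      _ ≤ _ := e3
  refine ⟨ε * (∑ i, v i) / (p * C ^ p), ?_, ?_⟩
  · have : 0 < (p : ℝ) * C ^ p := by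
      have : (0 : ℝ) < p := by exact_mod_cast hp
      have : 0 < C ^ p := pow_pos (by linarith) p
      positivity
    positivity
  · intro M
    have hden : 0 < (p : ℝ) * C ^ p := by
      have h2 : (0 : ℝ) < p := by exact_mod_cast hp
      have h3 : 0 < C ^ p := pow_pos (by linarith) p
      positivity
    rw [div_mul_eq_mul_div, div_le_iff₀ hden]
    calc ε * (∑ i, v i) * Λ ^ M = ε * Λ ^ M * ∑ i, v i := by ring
      _ ≤ ∑ l ∈ Finset.range p, ∑ i, (A ^ (M + l)) i j := hlow M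
      _ ≤ ∑ l ∈ Finset.range p, C ^ p * ∑ i, (A ^ M) i j := by
          refine Finset.sum_le_sum fun l hl => ?_
          refine (hpow M l).trans ?_
          refine mul_le_mul_of_nonneg_right ?_ (hS0 M)
          exact pow_le_pow_right₀ hC1 (Finset.mem_range.1 hl).le
      _ = (∑ i, (A ^ M) i j) * (p * C ^ p) := by
          rw [Finset.sum_const, Finset.card_range, nsmul_eq_mul]
          ring

theorem growth {ι : Type*} [Fintype ι] [DecidableEq ι] [Nonempty ι] (A : Matrix ι ι ℝ)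
    (h0 : ∀ i j, 0 ≤ A i j) (p : ℕ) (h1 : ∀ i j, 0 < (∑ l ∈ Finset.range p, A ^ l) i j)
    (v : ι → ℝ) (Λ : ℝ) (hv : ∀ i, 0 < v i) (hΛ : 0 < Λ) (he : A.mulVec v = Λ • v) (j : ι) (B : ℝ)
    (hB : 0 < B) :
    Tendsto (fun M : ℕ => -(1 / (M : ℝ)) * Real.log ((∑ i, (A ^ M) i j) / B ^ M)) atTop
      (𝓝 (-Real.log (Λ / B))) := by
  obtain ⟨c, hc, hlow⟩ := rate_lower A h0 p h1 v Λ hv he hΛ j
  have hV : 0 < ∑ i, v i := Finset.sum_pos (fun i _ => hv i) Finset.univ_nonempty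
  have hd : 0 < (∑ i, v i) / v j := div_pos hV (hv j)
  have hup := rate_upper A h0 v Λ hv he j
  set d : ℝ := (∑ i, v i) / v j with hdd
  have hinv : Tendsto (fun M : ℕ => 1 / (M : ℝ)) atTop (𝓝 0) := tendsto_one_div_atTop_nhds_zero_nat
  have hlim : ∀ a : ℝ, Tendsto (fun M : ℕ => -(1 / (M : ℝ)) * a + -Real.log (Λ / B)) atTop
      (𝓝 (-Real.log (Λ / B))) := by
    intro a
    have h2 := ((hinv.neg.mul_const a).add_const (-Real.log (Λ / B)))
    simpa using h2
  have hkey : ∀ a : ℝ, 0 < a → ∀ M : ℕ, 1 ≤ M →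
      -(1 / (M : ℝ)) * Real.log (a * Λ ^ M / B ^ M)
        = -(1 / (M : ℝ)) * Real.log a + -Real.log (Λ / B) := by
    intro a ha M hM
    have hM0 : (M : ℝ) ≠ 0 := by
      have : (0 : ℝ) < M := by exact_mod_cast hM
      exact this.ne'
    have hpos : 0 < Λ ^ M / B ^ M := div_pos (pow_pos hΛ M) (pow_pos hB M)
    rw [mul_div_assoc, Real.log_mul ha.ne' hpos.ne', ← div_pow, Real.log_pow]
    field_simp
    ring
  refine tendsto_of_tendsto_of_tendsto_of_le_of_le' (hlim (Real.log d)) (hlim (Real.log c)) ?_ ?_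
  · filter_upwards [eventually_ge_atTop 1] with M hM
    rw [← hkey d hd M hM]
    have hSpos : 0 < ∑ i, (A ^ M) i j := lt_of_lt_of_le (mul_pos hc (pow_pos hΛ M)) (hlow M)
    have hBM : 0 < B ^ M := pow_pos hB M
    have h3 : Real.log ((∑ i, (A ^ M) i j) / B ^ M) ≤ Real.log (d * Λ ^ M / B ^ M) := by
      refine Real.log_le_log (div_pos hSpos hBM) ?_
      exact div_le_div_of_nonneg_right (hup M) hBM.le
    have h4 : 0 ≤ 1 / (M : ℝ) := by positivity
    nlinarith [mul_le_mul_of_nonneg_left h3 h4]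
  · filter_upwards [eventually_ge_atTop 1] with M hM
    rw [← hkey c hc M hM]
    have hBM : 0 < B ^ M := pow_pos hB M
    have h3 : Real.log (c * Λ ^ M / B ^ M) ≤ Real.log ((∑ i, (A ^ M) i j) / B ^ M) := by
      refine Real.log_le_log (div_pos (mul_pos hc (pow_pos hΛ M)) hBM) ?_
      exact div_le_div_of_nonneg_right (hlow M) hBM.le
    have h4 : 0 ≤ 1 / (M : ℝ) := by positivity
    nlinarith [mul_le_mul_of_nonneg_left h3 h4]

end H906C
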