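import Pool.Agent.H906R3.CY.Defs

/-!
# W6: alternating rows
-/

namespace H906C
open Pool.Agent.H863R2.Cyl
open Pool.Agent.H863R2.Cyl.Sem1Aux
open Pool.Agent.H988R2.Perc (Word)

theorem w6_ext (a b : Bool) : ∀ (n : ℕ) (w : Word), w.length = 2 * n →
    (∀ r, r < n → w.getD (2 * r) true = a ∧ w.getD (2 * r + 1) true = b) →
    w = (List.replicate n [a, b]).flatten := by
  intro n
  induction n with
  | zero =>
    intro w hw _
    have : w = [] := List.eq_nil_of_length_eq_zero (by omega)
    rw [this]; rfl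
  | succ n ih =>
    intro w hw h
    match w, hw, h with
    | [], hw, _ => simp at hw
    | [x], hw, _ => simp at hw; omega
    | x :: y :: v, hw, h =>
      have h0 := h 0 (by omega)
      simp at h0
      have hv : v = (List.replicate n [a, b]).flatten := by
        apply ih v (by simp at hw; omega)
        intro r hr
        have h1 := h (r + 1) (by omega)
        have e1 : 2 * (r + 1) = (2 * r) + 1 + 1 := by ring
        rw [e1] at h1
        simpa using h1
      rw [hv, h0.1, h0.2, List.replicate_succ]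
      rfl

theorem w6_get (a b : Bool) : ∀ (n r : ℕ), r < n →
    ((List.replicate n [a, b]).flatten).getD (2 * r) true = a ∧
      ((List.replicate n [a, b]).flatten).getD (2 * r + 1) true = b := by
  intro n
  induction n with
  | zero => intro r hr; omega
  | succ n ih =>
    intro r hr
    rw [List.replicate_succ, List.flatten_cons]
    cases r with
    | zero => simp
    | succ r =>
      have h := ih r (by omega)
      have e1 : 2 * (r + 1) = (2 * r) + 1 + 1 := by ring
      rw [e1]
      simpa using h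

theorem w6_letters {w : Word} {j : ℤ} (h : Rw w j (j + 2)) : sg w j = 1 ∧ sg w (j + 1) = -1 := by
  obtain ⟨H, hH, _⟩ := exists_ht (sg w)
  rw [Rw_iff hH] at h
  have h1 := h.1
  have h2 := h.2 (j + 1) (Or.inl ⟨by omega, by omega⟩)
  have h3 := hH j
  have h4 := hH (j + 1)
  have e : j + 1 + 1 = j + 2 := by ring
  rw [e] at h4
  have h5 : sg w j = 1 ∨ sg w j = -1 := by
    unfold sg
    split_ifs <;> simp
  omega

theorem w6_ep {b : Bool} : (ep b = 1 ↔ b = true) ∧ (ep b = -1 ↔ b = false) := by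
  cases b <;> simp [ep]

theorem w6_cl {k : ℕ} (f : ℕ → Bool) (hf : ∀ j, f (j % 2) = f j)
    (j : ℤ) (r : ℕ) (hr : (j - r) % 2 = 0) :
    cl (m := 2 * k + 1) (fun j => f j.val) j = f r := by
  unfold cl ix
  have h0 : (0 : ℤ) < ((2 * k + 1 : ℕ) : ℤ) + 1 := by omega
  have h1 := Int.emod_nonneg j h0.ne'
  have h2 := Int.emod_lt_of_pos j h0
  have h3 := Int.emod_add_mul_ediv j (((2 * k + 1 : ℕ) : ℤ) + 1)
  show f ((j % (((2 * k + 1 : ℕ) : ℤ) + 1)).toNat % (2 * k + 1 + 1)) = f r
  have h4 : (j % (((2 * k + 1 : ℕ) : ℤ) + 1)).toNat % (2 * k + 1 + 1) =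
      (j % (((2 * k + 1 : ℕ) : ℤ) + 1)).toNat := Nat.mod_eq_of_lt (by omega)
  rw [h4, ← hf, ← hf r]
  congr 1
  set q := j / (((2 * k + 1 : ℕ) : ℤ) + 1) with hq
  set s := j % (((2 * k + 1 : ℕ) : ℤ) + 1) with hs
  have h5 : (((2 * k + 1 : ℕ) : ℤ) + 1) * q = 2 * ((k + 1) * q) := by push_cast; ring
  rw [h5] at h3
  generalize ((k : ℤ) + 1) * q = u at h3
  omega

theorem w6_Tc {k : ℕ} (f : ℕ → Bool) (hf : ∀ j, f (j % 2) = f j) (hne : f 1 = !f 0)
    (σ : Wd (2 * k + 1 + 1)) (j : ℤ) (r : ℕ) (hr : (j - r) % 2 = 0) (hft : f r = true) :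
    sg (Tc (2 * k + 1) (fun j => f j.val) σ).1 j = 1 ∧
      sg (Tc (2 * k + 1) (fun j => f j.val) σ).1 (j + 1) = -1 := by
  apply w6_letters
  rw [Rw_Tc (2 * k + 1) (by omega)]
  have h1 : cl (m := 2 * k + 1) (fun j => f j.val) j = true := by
    rw [w6_cl f hf j r hr]; exact hft
  have h2 : cl (m := 2 * k + 1) (fun j => f j.val) (j + 1) = false := by
    rw [w6_cl f hf (j + 1) (r + 1) (by push_cast; omega)]
    have e1 := hf r
    have e2 := hf (r + 1)
    rcases Nat.mod_two_eq_zero_or_one r with h | h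
    · have h' : (r + 1) % 2 = 1 := by omega
      rw [h] at e1
      rw [h'] at e2
      rw [← e2, hne, e1, hft]
      rfl
    · have h' : (r + 1) % 2 = 0 := by omega
      rw [h] at e1
      rw [h'] at e2
      rw [← e2]
      rw [hft, hne] at e1
      simpa using e1
  have h3 : Relation.EqvGen (Row (2 * k + 1) (fun j => f j.val) σ.1) (j + 1, false) (j, true) :=
    Relation.EqvGen.rel _ _ (Row.link1 j h1)
  have h4 : Relation.EqvGen (Row (2 * k + 1) (fun j => f j.val) σ.1) (j + 1, false) (j + 2, true) := by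
    have := Row.link0 (m := 2 * k + 1) (c := fun j => f j.val) (w := σ.1) (j + 1) h2
    have e : j + 1 + 1 = j + 2 := by ring
    rw [e] at this
    exact Relation.EqvGen.rel _ _ this
  exact (h3.symm).trans _ _ _ h4

theorem Tc_alt1 (k : ℕ) (σ : Wd (2 * k + 1 + 1)) :
    Tc (2 * k + 1) (fun j => decide (j.val % 2 = 1)) σ = sig1 k := by
  apply Subtype.ext
  have hlen := (Tc (2 * k + 1) (fun j => decide (j.val % 2 = 1)) σ).2.1
  refine w6_ext false true (k + 1) _ (by rw [hlen]; ring) ?_
  intro r hr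
  have h1 := (w6_Tc (fun j => decide (j % 2 = 1)) (fun j => by simp) (by simp) σ
    (((2 * r + 1 : ℕ) : ℤ)) 1 (by push_cast; omega) (by simp)).1
  have h2 := (w6_Tc (fun j => decide (j % 2 = 1)) (fun j => by simp) (by simp) σ
    (((2 * r : ℕ) : ℤ) - 1) 1 (by push_cast; omega) (by simp)).2
  rw [sub_add_cancel] at h2
  rw [sg_nat (by rw [hlen]; omega), w6_ep.1] at h1
  rw [sg_nat (by rw [hlen]; omega), w6_ep.2] at h2
  exact ⟨h2, h1⟩

theorem Tc_alt0 (k : ℕ) (σ : Wd (2 * k + 1 + 1)) :
    Tc (2 * k + 1) (fun j => decide (j.val % 2 = 0)) σ = sig0 k := by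
  apply Subtype.ext
  have hlen := (Tc (2 * k + 1) (fun j => decide (j.val % 2 = 0)) σ).2.1
  refine w6_ext true false (k + 1) _ (by rw [hlen]; ring) ?_
  intro r hr
  have h1 := w6_Tc (fun j => decide (j % 2 = 0)) (fun j => by simp) (by simp) σ
    (((2 * r : ℕ) : ℤ)) 0 (by push_cast; omega) (by simp)
  have h2 := h1.2
  have h1 := h1.1
  have e : ((2 * r : ℕ) : ℤ) + 1 = ((2 * r + 1 : ℕ) : ℤ) := by push_cast; ring
  rw [e] at h2
  rw [sg_nat (by rw [hlen]; omega), w6_ep.1] at h1
  rw [sg_nat (by rw [hlen]; omega), w6_ep.2] at h2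
  exact ⟨h1, h2⟩

/-- the letters of an alternating word -/
theorem w6_sg (k : ℕ) (a b : Bool) (j : ℤ) :
    sg ((List.replicate (k + 1) [a, b]).flatten) j = if Even j then ep a else ep b := by
  have hlen : ((List.replicate (k + 1) [a, b]).flatten).length = 2 * (k + 1) := by
    simp; ring
  rw [sg_def, hlen]
  have h0 : (0 : ℤ) < ((2 * (k + 1) : ℕ) : ℤ) := by omega
  have h1 := Int.emod_nonneg j h0.ne'
  have h2 := Int.emod_lt_of_pos j h0
  have h3 := Int.emod_add_mul_ediv j ((2 * (k + 1) : ℕ) : ℤ)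
  set s := j % ((2 * (k + 1) : ℕ) : ℤ) with hs
  set q := j / ((2 * (k + 1) : ℕ) : ℤ) with hq
  have h5 : ((2 * (k + 1) : ℕ) : ℤ) * q = 2 * ((k + 1) * q) := by push_cast; ring
  rw [h5] at h3
  generalize ((k : ℤ) + 1) * q = u at h3
  have h6 := w6_get a b (k + 1) (s.toNat / 2) (by omega)
  split_ifs with he
  · rw [Int.even_iff] at he
    have e : s.toNat = 2 * (s.toNat / 2) := by omega
    rw [e, h6.1]
  · rw [Int.even_iff] at he
    have e : s.toNat = 2 * (s.toNat / 2) + 1 := by omega
    rw [e, h6.2]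

theorem w6_Fc (w : Word) (H : ℤ → ℤ) (hH : Inc (sg w) H) (k : ℕ) (b : ℤ)
    (h01 : ∀ l, H l = 0 ∨ H l = 1) (hn : H (b + (((2 * k + 1 : ℕ) : ℤ) + 1)) = H b)
    (hs : H (b + 1) = 1 - H b) :
    Rw w b (b + (((2 * k + 1 : ℕ) : ℤ) + 1)) ↔ H b = 0 := by
  rw [Rw_iff hH]
  constructor
  · intro h
    have h1 := h.2 (b + 1) (Or.inl ⟨by omega, by push_cast; omega⟩)
    rcases h01 b with h2 | h2 <;> omega
  · intro h
    refine ⟨hn.symm, fun l _ => ?_⟩
    rcases h01 l with h2 | h2 <;> omega

theorem Fc_sig0 (k : ℕ) (b : ℤ) : Fc (sig0 k) b ↔ Even b := by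
  unfold Fc sig0
  have hH : Inc (sg ((List.replicate (k + 1) [true, false]).flatten))
      (fun x => if Even x then 0 else 1) := by
    intro x
    rw [w6_sg]
    by_cases hx : Even x
    · have : ¬ Even (x + 1) := by rw [Int.even_add_one]; simpa using hx
      simp [hx, this, ep]
    · have : Even (x + 1) := by rw [Int.even_add_one]; exact hx
      simp [hx, this, ep]
  rw [w6_Fc _ _ hH k b (fun l => by split_ifs <;> simp)]
  · split_ifs with h <;> simp [h]
  · have e : Even (b + (((2 * k + 1 : ℕ) : ℤ) + 1)) ↔ Even b := by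
      rw [Int.even_iff, Int.even_iff]
      push_cast
      omega
    simp only [e]
  · by_cases hx : Even b
    · have : ¬ Even (b + 1) := by rw [Int.even_add_one]; simpa using hx
      simp [hx, this]
    · have : Even (b + 1) := by rw [Int.even_add_one]; exact hx
      simp [hx, this]

theorem Fc_sig1 (k : ℕ) (b : ℤ) : Fc (sig1 k) b ↔ Odd b := by
  unfold Fc sig1
  have hH : Inc (sg ((List.replicate (k + 1) [false, true]).flatten))
      (fun x => if Even x then 1 else 0) := by
    intro x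
    rw [w6_sg]
    by_cases hx : Even x
    · have : ¬ Even (x + 1) := by rw [Int.even_add_one]; simpa using hx
      simp [hx, this, ep]
    · have : Even (x + 1) := by rw [Int.even_add_one]; exact hx
      simp [hx, this, ep]
  rw [w6_Fc _ _ hH k b (fun l => by split_ifs <;> simp), ← Int.not_even_iff_odd]
  · split_ifs with h <;> simp [h]
  · have e : Even (b + (((2 * k + 1 : ℕ) : ℤ) + 1)) ↔ Even b := by
      rw [Int.even_iff, Int.even_iff]
      push_cast
      omega
    simp only [e]
  · by_cases hx : Even b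
    · have : ¬ Even (b + 1) := by rw [Int.even_add_one]; simpa using hx
      simp [hx, this]
    · have : Even (b + 1) := by rw [Int.even_add_one]; exact hx
      simp [hx, this]

end H906C
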