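import Pool.Agent.H906R3.CY.W1b
import Pool.Agent.H906R3.CY.W6

/-!
# IRR: irreducibility of the killed transfer matrix (helper501)
-/

namespace H906C
open Pool.Agent.H863R2.Cyl
open Pool.Agent.H863R2.Cyl.Sem1Aux (Inc RH Cons)
open Pool.Agent.H988R2.Perc (Word)

/-! ### matrix part -/

theorem irr_nonneg (m : ℕ) (τ σ : Wd (m + 1)) : 0 ≤ AA m τ σ := by
  unfold AA
  exact Finset.sum_nonneg fun c _ => by split_ifs <;> norm_num

theorem irr_pow_nonneg (m l : ℕ) (τ σ : Wd (m + 1)) : 0 ≤ ((AA m) ^ l) τ σ := by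
  induction l generalizing τ σ with
  | zero =>
    rw [pow_zero, Matrix.one_apply]
    split_ifs <;> norm_num
  | succ l ih =>
    rw [pow_succ, Matrix.mul_apply]
    exact Finset.sum_nonneg fun ρ _ => mul_nonneg (ih _ _) (irr_nonneg _ _ _)

/-- `τ` can be reached from `σ` -/
def IrrR (m : ℕ) (σ τ : Wd (m + 1)) : Prop := ∃ l : ℕ, 0 < ((AA m) ^ l) τ σ

theorem irr_refl (m : ℕ) (σ : Wd (m + 1)) : IrrR m σ σ := ⟨0, by
  rw [pow_zero, Matrix.one_apply_eq]
  exact zero_lt_one⟩

theorem irr_trans {m : ℕ} {σ τ ρ : Wd (m + 1)} (h : IrrR m σ τ) (h' : IrrR m τ ρ) :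
    IrrR m σ ρ := by
  obtain ⟨l, hl⟩ := h
  obtain ⟨l', hl'⟩ := h'
  refine ⟨l' + l, ?_⟩
  rw [pow_add, Matrix.mul_apply]
  refine lt_of_lt_of_le (mul_pos hl' hl) ?_
  exact Finset.single_le_sum (f := fun x => ((AA m) ^ l') ρ x * ((AA m) ^ l) x σ)
    (fun x _ => mul_nonneg (irr_pow_nonneg _ _ _ _) (irr_pow_nonneg _ _ _ _)) (Finset.mem_univ τ)

theorem irr_step {m : ℕ} (c : Fin (m + 1) → Bool) (σ : Wd (m + 1)) (h : kT m c σ = 0) :
    IrrR m σ (Tc m c σ) := by
  classical
  refine ⟨1, ?_⟩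
  rw [pow_one]
  unfold AA
  refine lt_of_lt_of_le zero_lt_one ?_
  calc (1 : ℝ) = if Tc m c σ = Tc m c σ ∧ kT m c σ = 0 then (1 : ℝ) else 0 := by
        rw [if_pos ⟨rfl, h⟩]
    _ ≤ _ := Finset.single_le_sum (f := fun c' : Fin (m + 1) → Bool =>
        if Tc m c' σ = Tc m c σ ∧ kT m c' σ = 0 then (1 : ℝ) else 0)
        (fun x _ => by split_ifs <;> norm_num) (Finset.mem_univ c)

/-! ### moves -/

theorem irr_kT {m : ℕ} (c : Fin (m + 1) → Bool) (σ : Wd (m + 1)) (b : ℤ) (hb : Fc σ b)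
    (h : ¬ (cl c (b - 1) = false ∧ cl c b = true)) : kT m c σ = 0 := by
  unfold kT
  rw [if_neg]
  intro h'
  exact h (h' b hb)

theorem irr_word_false {m : ℕ} (c : Fin (m + 1) → Bool) (h : ∀ j, c j = false) (k j : ℕ)
    (σ : Wd (m + 1)) : word m c k j σ = σ := by
  induction j with
  | zero => rfl
  | succ j ih =>
    show (if c (ix m (k + j + 1)) = true then E m (k + j) (word m c k j σ)
      else word m c k j σ) = σ
    rw [h, if_neg (by decide), ih]

theorem irr_rot {m : ℕ} (he : Even (m + 1)) (σ : Wd (m + 1)) : IrrR m σ (rot m σ) := by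
  classical
  obtain ⟨b, hb⟩ := Fc_nonempty he σ
  have h1 := irr_step (fun _ => false) σ (irr_kT _ σ b hb (fun h => by
    have := h.2
    unfold cl at this
    exact Bool.false_ne_true this))
  have h2 : Tc m (fun _ => false) σ = rot m σ := by
    unfold Tc
    rw [dif_pos ⟨0, Nat.succ_pos m, rfl⟩, irr_word_false _ (fun _ => rfl)]
  rw [h2] at h1
  exact h1

theorem irr_rotInv {m : ℕ} (he : Even (m + 1)) (σ : Wd (m + 1)) : IrrR m σ (rotInv m σ) := by
  classical
  obtain ⟨b, hb⟩ := Fc_nonempty he σ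
  have h1 := irr_step (fun _ => true) σ (irr_kT _ σ b hb (fun h => by
    have := h.1
    unfold cl at this
    exact Bool.false_ne_true this.symm))
  have h2 : Tc m (fun _ => true) σ = rotInv m σ := by
    unfold Tc
    rw [dif_neg]
    rintro ⟨k, _, hk⟩
    exact Bool.false_ne_true hk.symm
  rw [h2] at h1
  exact h1

theorem irr_par (k : ℕ) (b : ℤ) :
    (((b % ((2 * k + 1 : ℕ) + 1 : ℤ)).toNat % (2 * k + 1 + 1)) : ℕ) % 2 = (b % 2).toNat := by
  have h0 := Int.emod_nonneg b (show ((2 * k + 1 : ℕ) + 1 : ℤ) ≠ 0 by positivity)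
  have h1 := Int.emod_lt_of_pos b (show (0 : ℤ) < ((2 * k + 1 : ℕ) + 1 : ℤ) by positivity)
  obtain ⟨r, hr⟩ : ∃ r : ℤ, r = b % ((2 * k + 1 : ℕ) + 1 : ℤ) := ⟨_, rfl⟩
  have h2 : b % 2 = r % 2 := by
    rw [hr, Int.emod_emod_of_dvd]
    exact ⟨k + 1, by push_cast; ring⟩
  rw [← hr] at h0 h1 ⊢
  push_cast at h1
  rw [h2, Nat.mod_eq_of_lt (a := r.toNat) (b := 2 * k + 1 + 1) (by omega)]
  omega

theorem irr_to0 (k : ℕ) (σ : Wd (2 * k + 1 + 1)) : IrrR (2 * k + 1) σ (sig0 k) := by
  have he : Even (2 * k + 1 + 1) := ⟨k + 1, by ring⟩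
  have hodd : ∀ (σ : Wd (2 * k + 1 + 1)) (b : ℤ), Fc σ b → b % 2 = 1 →
      IrrR (2 * k + 1) σ (sig0 k) := by
    intro σ b hb hb1
    rw [← Tc_alt0 k σ]
    refine irr_step _ σ (irr_kT _ σ b hb ?_)
    rintro ⟨_, h⟩
    unfold cl ix at h
    have h2 := of_decide_eq_true h
    have h3 := irr_par k b
    simp only at h2
    rw [h3, hb1] at h2
    exact absurd h2 (by decide)
  have heven : ∀ (σ : Wd (2 * k + 1 + 1)) (b : ℤ), Fc σ b → b % 2 = 0 →
      IrrR (2 * k + 1) σ (sig1 k) := by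
    intro σ b hb hb1
    rw [← Tc_alt1 k σ]
    refine irr_step _ σ (irr_kT _ σ b hb ?_)
    rintro ⟨_, h⟩
    unfold cl ix at h
    have h2 := of_decide_eq_true h
    have h3 := irr_par k b
    simp only at h2
    rw [h3, hb1] at h2
    exact absurd h2 (by decide)
  obtain ⟨b, hb⟩ := Fc_nonempty he σ
  rcases Int.emod_two_eq_zero_or_one b with h | h
  · refine irr_trans (heven σ b hb h) (hodd _ 1 ?_ rfl)
    rw [Fc_sig1]
    exact odd_one
  · exact hodd σ b hb h

theorem irr_01 (k : ℕ) : IrrR (2 * k + 1) (sig0 k) (sig1 k) := by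
  rw [← Tc_alt1 k (sig0 k)]
  refine irr_step _ _ (irr_kT _ _ 0 ?_ ?_)
  · rw [Fc_sig0]
    exact ⟨0, rfl⟩
  · rintro ⟨_, h⟩
    unfold cl ix at h
    simp at h

/-! ### one generator -/

theorem irr_E0 {m : ℕ} (hm : 1 ≤ m) (he : Even (m + 1)) (σ : Wd (m + 1)) (b : ℤ) (hb : Fc σ b)
    (hb1 : b % ((m : ℤ) + 1) ≠ 1) : IrrR m σ (E m 0 σ) := by
  classical
  set c : Fin (m + 1) → Bool := fun j => decide (j.val = 1) with hc
  have h1 := irr_step c σ (irr_kT c σ b hb (by
    rintro ⟨_, h⟩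
    unfold cl ix at h
    have h2 := of_decide_eq_true h
    simp only at h2
    have h0 := Int.emod_nonneg b (show ((m : ℤ) + 1) ≠ 0 by positivity)
    have h3 := Int.emod_lt_of_pos b (show (0 : ℤ) < (m : ℤ) + 1 by positivity)
    rw [Nat.mod_eq_of_lt (by omega)] at h2
    apply hb1
    omega))
  have hword : ∀ j : ℕ, j + 1 ≤ m → word m c 0 (j + 1) σ = E m 0 σ := by
    intro j
    induction j with
    | zero =>
      intro _
      show (if c (ix m (0 + 0 + 1)) = true then E m (0 + 0) (word m c 0 0 σ)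
        else word m c 0 0 σ) = _
      rw [if_pos]
      · rfl
      · show decide (((0 + 0 + 1) % (m + 1) : ℕ) = 1) = true
        rw [Nat.mod_eq_of_lt (by omega)]
        rfl
    | succ j ih =>
      intro hj
      show (if c (ix m (0 + (j + 1) + 1)) = true then E m (0 + (j + 1)) (word m c 0 (j + 1) σ)
        else word m c 0 (j + 1) σ) = _
      rw [if_neg]
      · exact ih (by omega)
      · show ¬ decide (((0 + (j + 1) + 1) % (m + 1) : ℕ) = 1) = true
        rw [Nat.mod_eq_of_lt (by omega)]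
        simp
  have h2 : Tc m c σ = rot m (E m 0 σ) := by
    unfold Tc
    have hex : ∃ k : ℕ, k < m + 1 ∧ c (ix m k) = false := ⟨0, Nat.succ_pos m, by
      show decide ((0 % (m + 1) : ℕ) = 1) = false
      rw [Nat.zero_mod]
      rfl⟩
    rw [dif_pos hex]
    have h3 : Nat.find hex = 0 := by
      rw [Nat.find_eq_zero]
      refine ⟨Nat.succ_pos m, ?_⟩
      show decide ((0 % (m + 1) : ℕ) = 1) = false
      rw [Nat.zero_mod]
      rfl
    rw [h3]
    obtain ⟨j, rfl⟩ : ∃ j, m = j + 1 := ⟨m - 1, by omega⟩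
    rw [hword j le_rfl]
  rw [h2] at h1
  have h4 := irr_rotInv he (rot m (E m 0 σ))
  rw [rotInv_rot] at h4
  exact irr_trans h1 h4

/-! ### words and heights -/

theorem irr_sg (w : Word) (j : ℤ) : sg w j = 1 ∨ sg w j = -1 := by
  unfold sg
  split_ifs
  · exact Or.inl rfl
  · exact Or.inr rfl

theorem irr_ext {w w' : Word} (hl : w.length = w'.length)
    (h : ∀ j : ℕ, j < w.length → sg w j = sg w' j) : w = w' := by
  apply List.ext_getElem hl
  intro j h1 h2
  have h3 := h j h1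
  rw [Sem1Aux.sg_nat h1, Sem1Aux.sg_nat h2, List.getD_eq_getElem _ _ h1,
    List.getD_eq_getElem _ _ h2] at h3
  cases hw : w[j] <;> cases hw' : w'[j] <;> simp [hw, hw', Sem1Aux.ep] at h3 ⊢

theorem irr_sg0 (k : ℕ) (j : ℤ) : sg (sig0 k).1 j = if j % 2 = 0 then 1 else -1 := by
  have he : Even (2 * k + 1 + 1) := ⟨k + 1, by ring⟩
  obtain ⟨H, hH, -⟩ := Sem1Aux.exists_ht (sg (sig0 k).1)
  have h1 := hH j
  rcases irr_sg (sig0 k).1 j with h | h
  · rw [h, if_pos]
    by_contra hj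
    have h2 : Fc (sig0 k) (j + 1) := by
      rw [Fc_sig0, Int.even_iff]
      omega
    rw [Fc_iff_min he _ H hH] at h2
    have := h2 j
    omega
  · rw [h, if_neg]
    intro hj
    have h2 : Fc (sig0 k) j := by
      rw [Fc_sig0, Int.even_iff]
      exact hj
    rw [Fc_iff_min he _ H hH] at h2
    have := h2 (j + 1)
    omega

theorem irr_sg1 (k : ℕ) (j : ℤ) : sg (sig1 k).1 j = if j % 2 = 0 then -1 else 1 := by
  have he : Even (2 * k + 1 + 1) := ⟨k + 1, by ring⟩
  obtain ⟨H, hH, -⟩ := Sem1Aux.exists_ht (sg (sig1 k).1)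
  have h1 := hH j
  rcases irr_sg (sig1 k).1 j with h | h
  · rw [h, if_neg]
    intro hj
    have h2 : Fc (sig1 k) (j + 1) := by
      rw [Fc_sig1, Int.odd_iff]
      omega
    rw [Fc_iff_min he _ H hH] at h2
    have := h2 j
    omega
  · rw [h, if_pos]
    by_contra hj
    have h2 : Fc (sig1 k) j := by
      rw [Fc_sig1, Int.odd_iff]
      omega
    rw [Fc_iff_min he _ H hH] at h2
    have := h2 (j + 1)
    omega

/-- heights `0` and `1` only -/
theorem irr_base (k : ℕ) (τ : Wd (2 * k + 1 + 1)) (H : ℤ → ℤ) (hH : Inc (sg τ.1) H)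
    (h0 : ∀ x, 0 ≤ H x) (h1 : ∀ x, H x ≤ 1) : τ = sig0 k ∨ τ = sig1 k := by
  have h2 : ∀ x, H (x + 1) = 1 - H x := by
    intro x
    have a1 := hH x
    have a2 := h0 x
    have a3 := h1 x
    have a4 := h0 (x + 1)
    have a5 := h1 (x + 1)
    rcases irr_sg τ.1 x with h | h
    · omega
    · omega
  have h3 : ∀ j : ℕ, H j = if j % 2 = 0 then H 0 else 1 - H 0 := by
    intro j
    induction j with
    | zero => simp
    | succ j ih =>
      have a1 := h2 j
      push_cast
      rw [a1, ih]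
      split_ifs
      · omega
      · rfl
      · omega
      · omega
  have h4 : ∀ j : ℕ, sg τ.1 j = 1 - 2 * H j := by
    intro j
    have a1 := hH j
    have a2 := h2 j
    omega
  have a2 := h0 0
  have a3 := h1 0
  rcases (show H 0 = 0 ∨ H 0 = 1 by omega) with h | h
  · left
    apply Subtype.ext
    apply irr_ext (by rw [τ.2.1, (sig0 k).2.1])
    intro j _
    rw [h4, h3, h, irr_sg0]
    split_ifs
    · omega
    · omega
    · omega
    · omega
  · right
    apply Subtype.ext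
    apply irr_ext (by rw [τ.2.1, (sig1 k).2.1])
    intro j _
    rw [h4, h3, h, irr_sg1]
    split_ifs
    · omega
    · omega
    · omega
    · omega

theorem irr_iter_val (m i : ℕ) (τ : Wd (m + 1)) : ((rotInv m)^[i] τ).1 = τ.1.rotate i := by
  induction i with
  | zero => simp
  | succ i ih =>
    rw [Function.iterate_succ_apply', rotInv_val, ih]
    unfold rotl
    rw [List.rotate_rotate]

theorem irr_iter {m : ℕ} (he : Even (m + 1)) (i : ℕ) (τ : Wd (m + 1)) :
    IrrR m ((rotInv m)^[i] τ) τ := by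
  induction i with
  | zero => exact irr_refl m τ
  | succ i ih =>
    rw [Function.iterate_succ_apply']
    have h1 := irr_rot he (rotInv m ((rotInv m)^[i] τ))
    rw [rot_rotInv] at h1
    exact irr_trans h1 ih

theorem irr_shift (N : ℕ) (H : ℤ → ℤ) (hp : ∀ x, H (x + N) = H x) (i : ℕ) :
    ∑ y ∈ Finset.range N, H ((y : ℤ) + i) = ∑ y ∈ Finset.range N, H (y : ℤ) := by
  induction i with
  | zero => simp
  | succ i ih =>
    rw [← ih]
    have h1 := Finset.sum_range_succ (fun y : ℕ => H ((y : ℤ) + i)) N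
    have h2 := Finset.sum_range_succ' (fun y : ℕ => H ((y : ℤ) + i)) N
    have h3 : H ((N : ℤ) + i) = H (((0 : ℕ) : ℤ) + i) := by
      have := hp (i : ℤ)
      rw [add_comm, this]
      simp
    have h4 : ∑ y ∈ Finset.range N, H ((y : ℤ) + (i + 1 : ℕ)) =
        ∑ y ∈ Finset.range N, H (((y + 1 : ℕ) : ℤ) + i) := by
      refine Finset.sum_congr rfl fun y _ => ?_
      congr 1
      push_cast
      ring
    rw [h4]
    omega

/-- swapping the first two letters -/
theorem irr_swap {N : ℕ} (v : Word) (hv : (true :: false :: v).length = N) (H : ℤ → ℤ)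
    (hH : Inc (sg (true :: false :: v)) H) :
    Inc (sg (false :: true :: v)) (fun y => H y - if y % (N : ℤ) = 1 then 2 else 0) := by
  have hv' : (false :: true :: v).length = N := by simpa using hv
  have hN : 2 ≤ N := by
    rw [← hv]
    simp
  intro y
  have h1 := hH y
  have h2 := Sem1Aux.emod_succ y N (by omega)
  have h3 := Int.emod_nonneg y (show (N : ℤ) ≠ 0 by omega)
  have h4 := Int.emod_lt_of_pos y (show (0 : ℤ) < N by omega)
  rw [Sem1Aux.sg_def, hv] at h1
  rw [Sem1Aux.sg_def, hv']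
  show H (y + 1) - _ = H y - _ + _
  obtain ⟨r, hr⟩ : ∃ r : ℕ, (r : ℤ) = y % (N : ℤ) := ⟨(y % (N : ℤ)).toNat, by omega⟩
  rw [← hr] at h1 h2 h3 h4 ⊢
  rw [h2, h1, Int.toNat_natCast]
  rcases r with _ | _ | r
  · have e1 : (true :: false :: v).getD 0 true = true := rfl
    have e2 : (false :: true :: v).getD 0 true = false := rfl
    rw [e1, e2]
    have e3 : ¬ (((0 : ℕ) : ℤ) = (N : ℤ) - 1) := by omega
    rw [if_neg e3]
    simp [Sem1Aux.ep]
    ring
  · have e1 : (true :: false :: v).getD (0 + 1) true = false := rfl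
    have e2 : (false :: true :: v).getD (0 + 1) true = true := rfl
    rw [e1, e2]
    have e4 : (((0 + 1 : ℕ) : ℤ) = 1) := by norm_num
    rw [if_pos e4]
    have e5 : ¬ ((if ((0 + 1 : ℕ) : ℤ) = (N : ℤ) - 1 then (0 : ℤ) else ((0 + 1 : ℕ) : ℤ) + 1) = 1) := by
      split_ifs <;> omega
    rw [if_neg e5]
    simp [Sem1Aux.ep]
    ring
  · have e1 : (true :: false :: v).getD (r + 1 + 1) true =
        (false :: true :: v).getD (r + 1 + 1) true := rfl
    rw [e1]
    have e4 : ¬ (((r + 1 + 1 : ℕ) : ℤ) = 1) := by omega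
    rw [if_neg e4]
    have e5 : ¬ ((if ((r + 1 + 1 : ℕ) : ℤ) = (N : ℤ) - 1 then (0 : ℤ)
        else ((r + 1 + 1 : ℕ) : ℤ) + 1) = 1) := by
      split_ifs <;> omega
    rw [if_neg e5]
    ring

theorem irr_act0 (v : Word) : act 0 (false :: true :: v) = true :: false :: v := by
  unfold act
  rw [List.rotate_zero, Nat.zero_mod, Nat.sub_zero]
  have h1 : act0 (false :: true :: v) = true :: false :: v := rfl
  have h2 : (false :: true :: v).length = (true :: false :: v).length := by simp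
  rw [h1, h2, List.rotate_length]

/-- lowering a peak -/
theorem irr_peak (k : ℕ) (τ : Wd (2 * k + 1 + 1)) (H : ℤ → ℤ) (hH : Inc (sg τ.1) H)
    (h0 : ∀ x, 0 ≤ H x) (hb : ∃ b, H b = 0) (hx : ∃ x, 2 ≤ H x) :
    ∃ (σ : Wd (2 * k + 1 + 1)) (H' : ℤ → ℤ), Inc (sg σ.1) H' ∧ (∀ x, 0 ≤ H' x) ∧
      (∃ b, H' b = 0) ∧ ∑ y ∈ Finset.range (2 * k + 1 + 1), H' (y : ℤ) =
        ∑ y ∈ Finset.range (2 * k + 1 + 1), H (y : ℤ) - 2 ∧ IrrR (2 * k + 1) σ τ := by
  have he : Even (2 * k + 1 + 1) := ⟨k + 1, by ring⟩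
  obtain ⟨N, hN⟩ : ∃ N : ℕ, N = 2 * k + 1 + 1 := ⟨_, rfl⟩
  have hper : ∀ x, H (x + N) = H x := by
    intro x
    have := ht_per he τ H hH x
    rw [← this]
    congr 1
    rw [hN]
    push_cast
    ring
  have hperP : Function.Periodic H (N : ℤ) := hper
  have hmod : ∀ x, H x = H (x % (N : ℤ)) := by
    intro x
    have h1 : H (x % (N : ℤ) + (x / (N : ℤ)) * (N : ℤ)) = H (x % (N : ℤ)) := by
      have := hperP.int_mul (x / (N : ℤ)) (x % (N : ℤ))
      simpa using this
    rw [← h1]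
    congr 1
    have := Int.emod_add_mul_ediv x (N : ℤ)
    linarith [mul_comm (N : ℤ) (x / (N : ℤ))]
  obtain ⟨x0, hx0, hmax⟩ := Finset.exists_max_image (Finset.range N) (fun y : ℕ => H (y : ℤ))
    ⟨0, Finset.mem_range.2 (by omega)⟩
  have hmax' : ∀ y : ℤ, H y ≤ H (x0 : ℤ) := by
    intro y
    rw [hmod y]
    have h3 := Int.emod_nonneg y (show (N : ℤ) ≠ 0 by omega)
    have h4 := Int.emod_lt_of_pos y (show (0 : ℤ) < N by omega)
    have h5 := hmax (y % (N : ℤ)).toNat (Finset.mem_range.2 (by omega))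
    rwa [Int.toNat_of_nonneg h3] at h5
  obtain ⟨x, hx2⟩ := hx
  have hx02 : 2 ≤ H (x0 : ℤ) := hx2.trans (hmax' x)
  -- the rotated word
  set i : ℕ := x0 + N - 1 with hi
  set ρ : Wd (2 * k + 1 + 1) := (rotInv (2 * k + 1))^[i] τ with hρ
  have hρv : ρ.1 = τ.1.rotate i := irr_iter_val _ _ _
  set G : ℤ → ℤ := fun y => H (y + i) with hG
  have hGI : Inc (sg ρ.1) G := by
    intro y
    rw [hρv, Sem1Aux.sg_rotate]
    have h1 := hH (y + i)
    show H (y + 1 + i) = H (y + i) + _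
    rw [← h1]
    congr 1
    ring
  have hG1 : G 1 = H (x0 : ℤ) := by
    show H (1 + i) = _
    rw [← hper (x0 : ℤ)]
    congr 1
    omega
  have hGmax : ∀ y, G y ≤ G 1 := fun y => by
    rw [hG1]
    exact hmax' _
  have hs0 : sg ρ.1 0 = 1 := by
    have h1 := hGI 0
    have h2 := hGmax 0
    rw [zero_add] at h1
    rcases irr_sg ρ.1 0 with h | h
    · exact h
    · omega
  have hs1 : sg ρ.1 1 = -1 := by
    have h1 := hGI 1
    have h2 := hGmax (1 + 1)
    rcases irr_sg ρ.1 1 with h | h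
    · omega
    · exact h
  obtain ⟨v, hv⟩ : ∃ v : Word, ρ.1 = true :: false :: v := by
    have hlen : ρ.1.length = N := by rw [hN]; exact ρ.2.1
    have h1 := Sem1Aux.sg_nat (w := ρ.1) (r := 0) (by omega)
    have h2 := Sem1Aux.sg_nat (w := ρ.1) (r := 1) (by omega)
    rw [Nat.cast_zero, hs0] at h1
    rw [Nat.cast_one, hs1] at h2
    rcases hw : ρ.1 with _ | ⟨a, _ | ⟨b, v⟩⟩
    · exfalso
      rw [hw] at hlen
      simp at hlen; omega
    · exfalso
      rw [hw] at hlen
      simp at hlen; omega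
    · rw [hw] at h1 h2
      refine ⟨v, ?_⟩
      cases a <;> cases b <;> simp [Sem1Aux.ep] at h1 h2 ⊢
  have hvl : (true :: false :: v).length = N := by
    rw [← hv, hN]
    exact ρ.2.1
  have hok : Ok (false :: true :: v) := by
    have h1 := ρ.2.2
    rw [hv] at h1
    unfold Ok at h1 ⊢
    simpa using h1
  set σ : Wd (2 * k + 1 + 1) := ⟨false :: true :: v, by rw [← hN]; simpa using hvl, hok⟩ with hσ
  set H' : ℤ → ℤ := fun y => G y - if y % (N : ℤ) = 1 then 2 else 0 with hH'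
  have hI' : Inc (sg σ.1) H' := by
    rw [hv] at hGI
    exact irr_swap v hvl G hGI
  have hGper : Function.Periodic G (N : ℤ) := by
    intro y
    show H (y + N + i) = H (y + i)
    rw [show y + (N : ℤ) + i = (y + i) + N by ring]
    exact hper _
  have hGmod : ∀ y : ℤ, y % (N : ℤ) = 1 → G y = G 1 := by
    intro y hy
    have h1 : G (1 + (y / (N : ℤ)) * (N : ℤ)) = G 1 := by
      have := hGper.int_mul (y / (N : ℤ)) 1
      simpa using this
    rw [← h1]
    congr 1
    have := Int.emod_add_mul_ediv y (N : ℤ)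
    rw [hy] at this
    linarith [mul_comm (N : ℤ) (y / (N : ℤ))]
  have hnn : ∀ y, 0 ≤ H' y := by
    intro y
    show 0 ≤ G y - if y % (N : ℤ) = 1 then 2 else 0
    split_ifs with h
    · rw [hGmod y h, hG1]
      omega
    · rw [sub_zero]
      exact h0 _
  obtain ⟨b, hb⟩ := hb
  have hb' : (b - i) % (N : ℤ) ≠ 1 := by
    intro h
    have h1 := hGmod _ h
    rw [hG1] at h1
    have h2 : G (b - i) = H b := by
      show H (b - i + i) = H b
      congr 1
      ring
    omega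
  have hHb : H' (b - i) = 0 := by
    show G (b - i) - (if (b - i) % (N : ℤ) = 1 then 2 else 0) = 0
    rw [if_neg hb', sub_zero]
    show H (b - i + i) = 0
    rw [← hb]
    congr 1
    ring
  refine ⟨σ, H', hI', hnn, ⟨b - i, hHb⟩, ?_, ?_⟩
  · rw [← hN, ← irr_shift N H hper i, hH', Finset.sum_sub_distrib]
    congr 1
    rw [Finset.sum_eq_single 1]
    · have h1 : (((1 : ℕ) : ℤ) % (N : ℤ)) = 1 := by
        rw [Int.emod_eq_of_lt (by omega) (by omega)]
        norm_num
      rw [if_pos h1]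
    · intro y hy hy1
      rw [Finset.mem_range] at hy
      rw [if_neg]
      rw [Int.emod_eq_of_lt (by omega) (by omega)]
      omega
    · intro h
      exact absurd (Finset.mem_range.2 (by omega)) h
  · have hF : Fc σ (b - i) := by
      rw [Fc_iff_min he σ H' hI']
      intro y
      rw [hHb]
      exact hnn y
    have h1 := irr_E0 (m := 2 * k + 1) (by omega) he σ (b - i) hF (by
      intro h
      apply hb'
      rw [← h, hN]
      push_cast
      rfl)
    have h2 : E (2 * k + 1) 0 σ = ρ := by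
      apply Subtype.ext
      rw [E_val, hv]
      exact irr_act0 v
    rw [h2] at h1
    exact irr_trans h1 (irr_iter he i τ)

theorem irr_from0 (k : ℕ) : ∀ (n : ℕ) (τ : Wd (2 * k + 1 + 1)) (H : ℤ → ℤ), Inc (sg τ.1) H →
    (∀ x, 0 ≤ H x) → (∃ b, H b = 0) →
    ∑ y ∈ Finset.range (2 * k + 1 + 1), H (y : ℤ) ≤ n → IrrR (2 * k + 1) (sig0 k) τ := by
  intro n
  induction n with
  | zero =>
    intro τ H hH h0 hb hs
    by_cases hx : ∃ x, 2 ≤ H x
    · obtain ⟨σ, H', _, h0', _, hs', _⟩ := irr_peak k τ H hH h0 hb hx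
      have h1 : 0 ≤ ∑ y ∈ Finset.range (2 * k + 1 + 1), H' (y : ℤ) :=
        Finset.sum_nonneg fun y _ => h0' _
      push_cast at hs
      omega
    · push Not at hx
      rcases irr_base k τ H hH h0 (fun x => by have := hx x; omega) with h | h
      · rw [h]
        exact irr_refl _ _
      · rw [h]
        exact irr_01 k
  | succ n ih =>
    intro τ H hH h0 hb hs
    by_cases hx : ∃ x, 2 ≤ H x
    · obtain ⟨σ, H', hI', h0', hb', hs', hr⟩ := irr_peak k τ H hH h0 hb hx
      refine irr_trans (ih σ H' hI' h0' hb' ?_) hr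
      push_cast at hs
      omega
    · push Not at hx
      rcases irr_base k τ H hH h0 (fun x => by have := hx x; omega) with h | h
      · rw [h]
        exact irr_refl _ _
      · rw [h]
        exact irr_01 k

theorem irr_all (k : ℕ) (σ τ : Wd (2 * k + 1 + 1)) : IrrR (2 * k + 1) σ τ := by
  have he : Even (2 * k + 1 + 1) := ⟨k + 1, by ring⟩
  refine irr_trans (irr_to0 k σ) ?_
  obtain ⟨H, hH, -⟩ := Sem1Aux.exists_ht (sg τ.1)
  obtain ⟨b, hb⟩ := Fc_nonempty he τ
  rw [Fc_iff_min he τ H hH] at hb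
  have hI : Inc (sg τ.1) (fun x => H x - H b) := by
    intro x
    have := hH x
    show H (x + 1) - H b = H x - H b + _
    omega
  exact irr_from0 k _ τ (fun x => H x - H b) hI (fun x => by have := hb x; omega)
    ⟨b, sub_self _⟩ (Int.self_le_toNat _)

theorem AA_irr (k : ℕ) : ∃ p : ℕ, ∀ τ σ : Wd (2 * k + 1 + 1),
    0 < (∑ l ∈ Finset.range p, (AA (2 * k + 1)) ^ l) τ σ := by
  classical
  choose L hL using fun (p : Wd (2 * k + 1 + 1) × Wd (2 * k + 1 + 1)) => irr_all k p.1 p.2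
  refine ⟨(Finset.univ.sup L) + 1, fun τ σ => ?_⟩
  rw [Matrix.sum_apply]
  refine lt_of_lt_of_le (hL (σ, τ)) ?_
  exact Finset.single_le_sum (f := fun l => ((AA (2 * k + 1)) ^ l) τ σ)
    (fun l _ => irr_pow_nonneg _ _ _ _)
    (Finset.mem_range.2 (Nat.lt_succ_of_le (Finset.le_sup (f := L) (Finset.mem_univ (σ, τ)))))

end H906C
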