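import Pool.Agent.H906R3.CY.Defs

/-! W1: the action of `act i` on height functions -/

namespace H906C
open Pool.Agent.H863R2.Cyl
open Pool.Agent.H863R2.Cyl.Sem1Aux (Inc RH Cons)
open Pool.Agent.H863R2.Cyl.Sem1Aux
open Pool.Agent.H988R2.Perc (Word flipR flipL)

/-- the explicit statement for the strands `0`, `1` -/
def W1Goal (u u' : Word) : Prop :=
  ∀ H, Inc (sg u) H → ∃ H' : ℤ → ℤ, Inc (sg u') H' ∧ (u'.length = u.length) ∧
    ((sg u 0 = 1 ∧ sg u 1 = -1 ∧ ∀ x, H' x = H x) ∨
    (sg u 0 = -1 ∧ sg u 1 = 1 ∧
      ∀ x, ((u.length : ℤ) ∣ x - 1 → H' x = H x + 2) ∧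
        (¬ (u.length : ℤ) ∣ x - 1 → H' x = H x)) ∨
    (sg u 0 = 1 ∧ sg u 1 = 1 ∧ ∃ b : ℤ, Cons H 1 (b + 1) ∧ b + 1 < u.length ∧
      ∀ x, ((∃ k : ℤ, 1 < x - k * u.length ∧ x - k * u.length ≤ b) → H' x = H x - 2) ∧
        ((¬ ∃ k : ℤ, 1 < x - k * u.length ∧ x - k * u.length ≤ b) → H' x = H x)) ∨
    (sg u 0 = -1 ∧ sg u 1 = -1 ∧ ∃ a : ℤ, Cons H a 1 ∧ 1 - (u.length : ℤ) < a ∧
      ∀ x, ((∃ k : ℤ, a < x - k * u.length ∧ x - k * u.length ≤ 0) → H' x = H x - 2) ∧
        ((¬ ∃ k : ℤ, a < x - k * u.length ∧ x - k * u.length ≤ 0) → H' x = H x)))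

theorem w1_sg0 (x y : Bool) (v : Word) : sg (x :: y :: v) 0 = ep x := by
  rw [sg_def, Int.zero_emod]
  rfl

theorem w1_sg1 (x y : Bool) (v : Word) : sg (x :: y :: v) 1 = ep y := by
  rw [sg_def]
  have : (1 : ℤ) % ((x :: y :: v).length : ℤ) = 1 := by
    apply Int.emod_eq_of_lt (by norm_num)
    simp only [List.length_cons]
    push_cast
    omega
  rw [this]
  rfl

theorem w1_TF (v : Word) : W1Goal (true :: false :: v) (true :: false :: v) := by
  intro H hH
  refine ⟨H, hH, rfl, Or.inl ⟨w1_sg0 _ _ _, w1_sg1 _ _ _, fun x => rfl⟩⟩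

theorem w1_FT (v : Word) : W1Goal (false :: true :: v) (true :: false :: v) := by
  intro H hH
  set N : ℤ := ((false :: true :: v).length : ℤ) with hN
  have hN2 : 2 ≤ N := by simp [hN]; omega
  have hN' : ((true :: false :: v).length : ℤ) = N := by simp [hN]
  have hs0 : ∀ x : ℤ, x % N = 0 → sg (false :: true :: v) x = -1 ∧
      sg (true :: false :: v) x = 1 := by
    intro x hx
    rw [sg_def, sg_def, hN', ← hN, hx]
    simp [ep]
  have hs1 : ∀ x : ℤ, x % N = 1 → sg (false :: true :: v) x = 1 ∧
      sg (true :: false :: v) x = -1 := by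
    intro x hx
    rw [sg_def, sg_def, hN', ← hN, hx]
    simp [ep]
  have hs2 : ∀ x : ℤ, x % N ≠ 0 → x % N ≠ 1 → sg (true :: false :: v) x =
      sg (false :: true :: v) x := by
    intro x hx hx'
    have h1 : sg (true :: false :: v) x = sg (false :: false :: v) x := by
      apply sg_ne [] (false :: v) true false
      show x % ((true :: false :: v).length : ℤ) ≠ 0
      rw [hN']
      exact hx
    have h2 : sg (false :: false :: v) x = sg (false :: true :: v) x := by
      apply sg_ne [false] v false true
      show x % ((false :: false :: v).length : ℤ) ≠ 1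
      rw [show ((false :: false :: v).length : ℤ) = N by simp [hN]]
      exact hx'
    rw [h1, h2]
  refine ⟨fun x => if x % N = 1 then H x + 2 else H x, ?_, ?_, Or.inr (Or.inl ?_)⟩
  · intro x
    have h0 := Int.emod_nonneg x (show N ≠ 0 by omega)
    have h1 := Int.emod_lt_of_pos x (show 0 < N by omega)
    have hx := hH x
    have hsucc := emod_succ x N (by omega)
    show (if (x + 1) % N = 1 then H (x + 1) + 2 else H (x + 1)) =
      (if x % N = 1 then H x + 2 else H x) + _
    by_cases c0 : x % N = 0
    · rw [if_neg (show x % N ≠ N - 1 by omega)] at hsucc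
      rw [if_pos (show (x + 1) % N = 1 by omega), if_neg (show ¬ x % N = 1 by omega), hx,
        (hs0 x c0).1, (hs0 x c0).2]
      ring
    · by_cases c1 : x % N = 1
      · rw [if_neg (show ¬ (x + 1) % N = 1 by split_ifs at hsucc <;> omega), if_pos c1, hx,
          (hs1 x c1).1, (hs1 x c1).2]
        ring
      · rw [if_neg (show ¬ (x + 1) % N = 1 by split_ifs at hsucc <;> omega), if_neg c1, hx,
          hs2 x c0 c1]
  · simp
  · refine ⟨w1_sg0 _ _ _, w1_sg1 _ _ _, fun x => ?_⟩
    have h0 := Int.emod_nonneg x (show N ≠ 0 by omega)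
    have h1 := Int.emod_lt_of_pos x (show 0 < N by omega)
    have hiff : N ∣ x - 1 ↔ x % N = 1 := by
      constructor
      · rintro ⟨k, hk⟩
        have : x = 1 + N * k := by linarith
        rw [this, Int.add_mul_emod_self_left, Int.emod_eq_of_lt (by omega) (by omega)]
      · intro h
        have := dvd_sub_emod N x
        rwa [h] at this
    constructor
    · intro h
      show (if x % N = 1 then H x + 2 else H x) = _
      rw [if_pos (hiff.mp h)]
    · intro h
      show (if x % N = 1 then H x + 2 else H x) = _
      rw [if_neg (mt hiff.mpr h)]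

theorem w1_TT (v1 v2 : Word) (h0 : lsum v1 = 0) (h1 : ∀ j ≤ v1.length, 0 ≤ lsum (v1.take j))
    (h2 : 0 < v2.length) :
    W1Goal (true :: true :: (v1 ++ false :: v2)) (true :: false :: (v1 ++ true :: v2)) := by
  intro H hH
  set u : Word := true :: true :: (v1 ++ false :: v2) with hu
  set N : ℤ := (u.length : ℤ) with hN
  set p : ℤ := 2 + v1.length with hp
  have hNp : N = p + 1 + v2.length := by
    simp only [hN, hu, hp, List.length_cons, List.length_append]; push_cast; ring
  have hs1 : ∀ x : ℤ, x % N = 1 → sg u x = 1 ∧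
      sg (true :: false :: (v1 ++ true :: v2)) x = -1 := by
    intro x hx
    have hN' : ((true :: false :: (v1 ++ true :: v2)).length : ℤ) = N := by
      simp only [hN, hu, List.length_cons, List.length_append]
    constructor
    · have := sg_mid [true] (v1 ++ false :: v2) true x
        (by show x % (u.length : ℤ) = _; rw [← hN, hx]; rfl)
      exact this
    · have := sg_mid [true] (v1 ++ true :: v2) false x
        (by show x % ((true :: false :: (v1 ++ true :: v2)).length : ℤ) = _; rw [hN', hx]; rfl)
      exact this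
  have hsp : ∀ x : ℤ, x % N = p → sg u x = -1 ∧
      sg (true :: false :: (v1 ++ true :: v2)) x = 1 := by
    intro x hx
    have hN' : ((true :: false :: (v1 ++ true :: v2)).length : ℤ) = N := by
      simp only [hN, hu, List.length_cons, List.length_append]
    constructor
    · have := sg_mid (true :: true :: v1) v2 false x
        (by show x % (u.length : ℤ) = _; rw [← hN, hx]; simp [hp]; ring)
      exact this
    · have := sg_mid (true :: false :: v1) v2 true x
        (by show x % ((true :: false :: (v1 ++ true :: v2)).length : ℤ) = _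
            rw [hN', hx]; simp [hp]; ring)
      exact this
  have hs2 : ∀ x : ℤ, x % N ≠ 1 → x % N ≠ p →
      sg (true :: false :: (v1 ++ true :: v2)) x = sg u x := by
    intro x hx hx'
    have hN' : ((true :: false :: (v1 ++ true :: v2)).length : ℤ) = N := by
      simp only [hN, hu, List.length_cons, List.length_append]
    have e1 : sg (true :: false :: (v1 ++ true :: v2)) x =
        sg (true :: true :: (v1 ++ true :: v2)) x := by
      apply sg_ne [true] (v1 ++ true :: v2) false true
      show x % ((true :: false :: (v1 ++ true :: v2)).length : ℤ) ≠ _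
      rw [hN']
      exact hx
    have e2 : sg (true :: true :: (v1 ++ true :: v2)) x = sg u x := by
      apply sg_ne (true :: true :: v1) v2 true false
      show x % ((true :: true :: (v1 ++ true :: v2)).length : ℤ) ≠ _
      have : ((true :: true :: (v1 ++ true :: v2)).length : ℤ) = N := by
        simp only [hN, hu, List.length_cons, List.length_append]
      rw [this]
      intro h
      apply hx'
      rw [h, hp]
      simp
      ring
    rw [e1, e2]
  refine ⟨fun x => if 2 ≤ x % N ∧ x % N ≤ p then H x - 2 else H x, ?_, ?_,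
    Or.inr (Or.inr (Or.inl ?_))⟩
  · intro x
    have h0 := Int.emod_nonneg x (show N ≠ 0 by omega)
    have h1 := Int.emod_lt_of_pos x (show 0 < N by omega)
    have hx := hH x
    have hsucc := emod_succ x N (by omega)
    show (if 2 ≤ (x + 1) % N ∧ (x + 1) % N ≤ p then H (x + 1) - 2 else H (x + 1)) =
      (if 2 ≤ x % N ∧ x % N ≤ p then H x - 2 else H x) + _
    by_cases c1 : x % N = 1
    · rw [if_neg (show x % N ≠ N - 1 by omega)] at hsucc
      rw [if_pos (show 2 ≤ (x + 1) % N ∧ (x + 1) % N ≤ p by omega), if_neg (by omega), hx,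
        (hs1 x c1).1, (hs1 x c1).2]
      ring
    · by_cases cp : x % N = p
      · rw [if_neg (show ¬ (2 ≤ (x + 1) % N ∧ (x + 1) % N ≤ p) by
          split_ifs at hsucc <;> omega), if_pos (by omega), hx, (hsp x cp).1, (hsp x cp).2]
        ring
      · rw [hs2 x c1 cp]
        by_cases c2 : 2 ≤ x % N ∧ x % N ≤ p
        · rw [if_pos c2, if_pos (by split_ifs at hsucc <;> omega), hx]
          ring
        · rw [if_neg c2, if_neg (by split_ifs at hsucc <;> omega), hx]
  · simp [hu]
  · have hh : ∀ r : ℕ, (r : ℤ) ≤ N → H r = H 0 + lsum (u.take r) := by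
      intro r hr
      have := ht_take hH 0 r (by omega)
      rwa [zero_mul, zero_add] at this
    have g1 := hh 1 (by push_cast; omega)
    simp [hu, lsum, ep] at g1
    have g3 : ∀ j : ℕ, j ≤ v1.length → H (2 + j) = H 0 + 2 + lsum (v1.take j) := by
      intro j hj
      have := hh (j + 2) (by push_cast; omega)
      have e : ((j + 2 : ℕ) : ℤ) = 2 + j := by push_cast; ring
      rw [e] at this
      rw [this]
      have e2 : u.take (j + 2) = true :: true :: v1.take j := by
        rw [hu, List.take_succ_cons, List.take_succ_cons, List.take_append_of_le_length hj]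
      rw [e2, lsum_cons, lsum_cons]
      simp [ep]
      ring
    have g5 := hh (v1.length + 3) (by push_cast; omega)
    have e5 : u.take (v1.length + 3) = true :: true :: (v1 ++ [false]) := by
      rw [hu, show v1.length + 3 = v1.length + 1 + 1 + 1 by ring, List.take_succ_cons,
        List.take_succ_cons, List.take_append]
      simp
    rw [e5, lsum_cons, lsum_cons, lsum_append, h0, lsum_cons, lsum_nil] at g5
    have e6 : ((v1.length + 3 : ℕ) : ℤ) = p + 1 := by
      rw [hp]; push_cast; ring
    rw [e6] at g5
    simp [ep] at g5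
    refine ⟨w1_sg0 _ _ _, w1_sg1 _ _ _, p, ⟨by omega, by omega, ?_⟩, by omega, fun x => ?_⟩
    · intro l hl hl'
      obtain ⟨j, hj⟩ : ∃ j : ℕ, l = 2 + j := ⟨(l - 2).toNat, by omega⟩
      rw [hj, g3 j (by omega)]
      have := h1 j (by omega)
      omega
    · have b0 := Int.emod_nonneg x (show N ≠ 0 by omega)
      have b1 := Int.emod_lt_of_pos x (show 0 < N by omega)
      have b2 := Int.emod_add_mul_ediv x N
      have hiff : (∃ k : ℤ, 1 < x - k * N ∧ x - k * N ≤ p) ↔ (2 ≤ x % N ∧ x % N ≤ p) := by
        constructor
        · rintro ⟨k, hk1, hk2⟩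
          have : x % N = x - k * N :=
            emod_of_dvd (N := N) (L := k * N) (dvd_mul_left N k) (by omega) (by omega)
          omega
        · rintro ⟨hk1, hk2⟩
          refine ⟨x / N, ?_⟩
          have : x - x / N * N = x % N := by linarith
          rw [this]
          omega
      constructor
      · intro h
        show (if 2 ≤ x % N ∧ x % N ≤ p then H x - 2 else H x) = _
        rw [if_pos (hiff.mp h)]
      · intro h
        show (if 2 ≤ x % N ∧ x % N ≤ p then H x - 2 else H x) = _
        rw [if_neg (mt hiff.mpr h)]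

theorem w1_FF (v2 v1 : Word) (h0 : lsum v1 = 0) (h1 : ∀ j ≤ v1.length, lsum (v1.drop j) ≤ 0) :
    W1Goal (false :: false :: (v2 ++ true :: v1)) (true :: false :: (v2 ++ false :: v1)) := by
  intro H hH
  set u : Word := false :: false :: (v2 ++ true :: v1) with hu
  set N : ℤ := (u.length : ℤ) with hN
  set p : ℤ := 2 + v2.length with hp
  have hNp : N = p + 1 + v1.length := by
    simp only [hN, hu, hp, List.length_cons, List.length_append]; push_cast; ring
  have hN' : ((true :: false :: (v2 ++ false :: v1)).length : ℤ) = N := by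
    simp only [hN, hu, List.length_cons, List.length_append]
  have hs1 : ∀ x : ℤ, x % N = 0 → sg u x = -1 ∧
      sg (true :: false :: (v2 ++ false :: v1)) x = 1 := by
    intro x hx
    constructor
    · have := sg_mid [] (false :: (v2 ++ true :: v1)) false x
        (by show x % (u.length : ℤ) = _; rw [← hN, hx]; rfl)
      exact this
    · have := sg_mid [] (false :: (v2 ++ false :: v1)) true x
        (by show x % ((true :: false :: (v2 ++ false :: v1)).length : ℤ) = _; rw [hN', hx]; rfl)
      exact this
  have hsp : ∀ x : ℤ, x % N = p → sg u x = 1 ∧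
      sg (true :: false :: (v2 ++ false :: v1)) x = -1 := by
    intro x hx
    constructor
    · have := sg_mid (false :: false :: v2) v1 true x
        (by show x % (u.length : ℤ) = _; rw [← hN, hx]; simp [hp]; ring)
      exact this
    · have := sg_mid (true :: false :: v2) v1 false x
        (by show x % ((true :: false :: (v2 ++ false :: v1)).length : ℤ) = _
            rw [hN', hx]; simp [hp]; ring)
      exact this
  have hs2 : ∀ x : ℤ, x % N ≠ 0 → x % N ≠ p →
      sg (true :: false :: (v2 ++ false :: v1)) x = sg u x := by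
    intro x hx hx'
    have e1 : sg (true :: false :: (v2 ++ false :: v1)) x =
        sg (false :: false :: (v2 ++ false :: v1)) x := by
      apply sg_ne [] (false :: (v2 ++ false :: v1)) true false
      show x % ((true :: false :: (v2 ++ false :: v1)).length : ℤ) ≠ _
      rw [hN']
      exact hx
    have e2 : sg (false :: false :: (v2 ++ false :: v1)) x = sg u x := by
      apply sg_ne (false :: false :: v2) v1 false true
      show x % ((false :: false :: (v2 ++ false :: v1)).length : ℤ) ≠ _
      have : ((false :: false :: (v2 ++ false :: v1)).length : ℤ) = N := by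
        simp only [hN, hu, List.length_cons, List.length_append]
      rw [this]
      intro h
      apply hx'
      rw [h, hp]
      simp
      ring
    rw [e1, e2]
  refine ⟨fun x => if x % N = 0 ∨ p + 1 ≤ x % N then H x - 2 else H x, ?_, ?_,
    Or.inr (Or.inr (Or.inr ?_))⟩
  · intro x
    have h0 := Int.emod_nonneg x (show N ≠ 0 by omega)
    have h1 := Int.emod_lt_of_pos x (show 0 < N by omega)
    have hx := hH x
    have hsucc := emod_succ x N (by omega)
    show (if (x + 1) % N = 0 ∨ p + 1 ≤ (x + 1) % N then H (x + 1) - 2 else H (x + 1)) =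
      (if x % N = 0 ∨ p + 1 ≤ x % N then H x - 2 else H x) + _
    by_cases c1 : x % N = 0
    · rw [if_neg (show x % N ≠ N - 1 by omega)] at hsucc
      rw [if_neg (show ¬ ((x + 1) % N = 0 ∨ p + 1 ≤ (x + 1) % N) by omega),
        if_pos (Or.inl c1), hx, (hs1 x c1).1, (hs1 x c1).2]
      ring
    · by_cases cp : x % N = p
      · rw [if_pos (show ((x + 1) % N = 0 ∨ p + 1 ≤ (x + 1) % N) by
          split_ifs at hsucc <;> omega), if_neg (by omega), hx, (hsp x cp).1, (hsp x cp).2]
        ring
      · rw [hs2 x c1 cp]
        by_cases c2 : p + 1 ≤ x % N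
        · rw [if_pos (Or.inr c2), if_pos (by split_ifs at hsucc <;> omega), hx]
          ring
        · rw [if_neg (show ¬ (x % N = 0 ∨ p + 1 ≤ x % N) by omega),
            if_neg (by split_ifs at hsucc <;> omega), hx]
  · simp [hu]
  · have hh' : ∀ r : ℕ, (r : ℤ) ≤ N → H (-N + r) = H (-N) + lsum (u.take r) := by
      intro r hr
      have := ht_take hH (-1) r (by omega)
      have e : (-1) * (u.length : ℤ) = -N := by rw [← hN]; ring
      rwa [e] at this
    have g1 := ht_take hH 0 1 (by omega)
    have g2 := ht_take hH 0 2 (by omega)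
    simp [hu, lsum, ep] at g1 g2
    -- total
    have gN := hh' u.length (by rw [← hN])
    rw [List.take_length, ← hN, neg_add_cancel] at gN
    have lu : lsum u = -1 + (-1) + lsum v2 + 1 := by
      rw [hu, lsum_cons, lsum_cons, lsum_append, lsum_cons, h0]
      simp [ep]
      ring
    have g3 : ∀ j : ℕ, j ≤ v1.length → H (-v1.length + j) = H 0 - lsum (v1.drop j) := by
      intro j hj
      have := hh' (v2.length + 3 + j) (by push_cast; omega)
      have e : -N + ((v2.length + 3 + j : ℕ) : ℤ) = -v1.length + j := by
        rw [hNp, hp]; push_cast; ring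
      rw [e] at this
      rw [this, gN]
      have e2 : u.take (v2.length + 3 + j) = (false :: false :: (v2 ++ [true])) ++ v1.take j := by
        have : u = (false :: false :: (v2 ++ [true])) ++ v1 := by simp [hu]
        rw [this, List.take_append]
        congr 1
        · rw [List.take_of_length_le]
          simp
        · congr 1
          simp
      rw [e2, lu]
      have e3 : lsum (v1.take j) + lsum (v1.drop j) = lsum v1 := by
        rw [← lsum_append, List.take_append_drop]
      rw [lsum_append, lsum_cons, lsum_cons, lsum_append, lsum_cons, lsum_nil]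
      simp only [ep, Bool.false_eq_true, if_false, if_true]
      omega
    have g5 := hh' (v2.length + 2) (by push_cast; omega)
    have e5 : u.take (v2.length + 2) = false :: false :: v2 := by
      rw [hu, show v2.length + 2 = v2.length + 1 + 1 by ring, List.take_succ_cons,
        List.take_succ_cons, List.take_left']
      rfl
    rw [e5, lsum_cons, lsum_cons] at g5
    have e6 : -N + ((v2.length + 2 : ℕ) : ℤ) = -v1.length - 1 := by
      rw [hNp, hp]; push_cast; ring
    rw [e6] at g5
    simp only [ep, Bool.false_eq_true, if_false] at g5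
    refine ⟨w1_sg0 _ _ _, w1_sg1 _ _ _, -v1.length - 1, ⟨by omega, by omega, ?_⟩, by omega,
      fun x => ?_⟩
    · intro l hl hl'
      obtain ⟨j, hj⟩ : ∃ j : ℕ, l = -v1.length + j := ⟨(l - (-v1.length)).toNat, by omega⟩
      rw [hj, g3 j (by omega)]
      have := h1 j (by omega)
      omega
    · have b0 := Int.emod_nonneg x (show N ≠ 0 by omega)
      have b1 := Int.emod_lt_of_pos x (show 0 < N by omega)
      have b2 := Int.emod_add_mul_ediv x N
      have hiff : (∃ k : ℤ, -(v1.length : ℤ) - 1 < x - k * N ∧ x - k * N ≤ 0) ↔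
          (x % N = 0 ∨ p + 1 ≤ x % N) := by
        constructor
        · rintro ⟨k, hk1, hk2⟩
          rcases hk2.eq_or_lt with h5 | h5
          · left
            apply Int.emod_eq_zero_of_dvd
            exact ⟨k, by linarith⟩
          · right
            have e : k * N - N = N * (k - 1) := by ring
            have : x % N = x - (k * N - N) :=
              emod_of_dvd (N := N) (L := k * N - N) ⟨k - 1, e⟩ (by omega) (by omega)
            omega
        · rintro (hk | hk)
          · refine ⟨x / N, ?_⟩
            have : x - x / N * N = x % N := by linarith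
            rw [this]
            omega
          · refine ⟨x / N + 1, ?_⟩
            have : x - (x / N + 1) * N = x % N - N := by linarith
            rw [this]
            omega
      constructor
      · intro h
        show (if x % N = 0 ∨ p + 1 ≤ x % N then H x - 2 else H x) = _
        rw [if_pos (hiff.mp h)]
      · intro h
        show (if x % N = 0 ∨ p + 1 ≤ x % N then H x - 2 else H x) = _
        rw [if_neg (mt hiff.mpr h)]

theorem w1_act0 {u : Word} (hu : Ok u) (h2 : 2 ≤ u.length) (he : Even u.length) :
    W1Goal u (act0 u) := by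
  rcases u with _ | ⟨x, u⟩
  · simp at h2
  rcases u with _ | ⟨y, v⟩
  · simp at h2
  have hl : lsum (x :: y :: v) = 0 := by
    rw [lsum_count]
    unfold Ok at hu
    rw [hu]
    obtain ⟨k, hk⟩ := he
    omega
  rw [lsum_cons, lsum_cons] at hl
  rcases x with _ | _ <;> rcases y with _ | _
  · -- false false
    simp only [ep, Bool.false_eq_true, if_false] at hl
    obtain ⟨v2, v1, g1, g2, g3, g4⟩ := flipLr_spec v (by omega)
    show W1Goal _ (true :: false :: (flipL 0 v.reverse).reverse)
    rw [g2, g1]
    exact w1_FF v2 v1 g3 g4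
  · exact w1_FT v
  · exact w1_TF v
  · simp only [ep, if_true] at hl
    obtain ⟨v1, v2, g1, g2, g3, g4⟩ := flipR_spec v 0 (by push_cast; omega)
    show W1Goal _ (true :: false :: flipR 0 v)
    rw [g2]
    simp only [Nat.cast_zero, add_zero] at g3 g4
    have h5 : 0 < v2.length := by
      rw [g1, lsum_append, lsum_cons, g3] at hl
      simp only [ep, Bool.false_eq_true, if_false] at hl
      by_contra hc
      have : v2 = [] := List.eq_nil_of_length_eq_zero (by omega)
      rw [this, lsum_nil] at hl
      omega
    rw [g1]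
    exact w1_TT v1 v2 g3 g4 h5

theorem act_ht {w : Word} (hw : Ok w) (hl : 2 ≤ w.length) (he : Even w.length) (i : ℕ)
    (H : ℤ → ℤ) (hH : Inc (sg w) H) :
    ∃ H' : ℤ → ℤ, Inc (sg (act i w)) H' ∧
      ((sg w i = 1 ∧ sg w (i + 1) = -1 ∧ ∀ x, H' x = H x) ∨
      (sg w i = -1 ∧ sg w (i + 1) = 1 ∧
        ∀ x, ((w.length : ℤ) ∣ x - (i + 1) → H' x = H x + 2) ∧
          (¬ (w.length : ℤ) ∣ x - (i + 1) → H' x = H x)) ∨
      (sg w i = 1 ∧ sg w (i + 1) = 1 ∧ ∃ b : ℤ, Cons H (i + 1) (b + 1) ∧ b + 1 < i + w.length ∧
        ∀ x, ((∃ k : ℤ, (i : ℤ) + 1 < x - k * w.length ∧ x - k * w.length ≤ b) → H' x = H x - 2) ∧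
          ((¬ ∃ k : ℤ, (i : ℤ) + 1 < x - k * w.length ∧ x - k * w.length ≤ b) → H' x = H x)) ∨
      (sg w i = -1 ∧ sg w (i + 1) = -1 ∧ ∃ a : ℤ, Cons H a (i + 1) ∧ (i : ℤ) + 1 - w.length < a ∧
        ∀ x, ((∃ k : ℤ, a < x - k * w.length ∧ x - k * w.length ≤ i) → H' x = H x - 2) ∧
          ((¬ ∃ k : ℤ, a < x - k * w.length ∧ x - k * w.length ≤ i) → H' x = H x))) := by
  have hok : Ok (w.rotate i) := by
    unfold Ok at hw ⊢
    rw [List.length_rotate, (List.rotate_perm w i).count_eq, hw]
  have hH0 : Inc (sg (w.rotate i)) (fun x => H (x + i)) := by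
    intro x
    have := hH (x + i)
    show H (x + 1 + i) = H (x + i) + sg (w.rotate i) x
    rw [sg_rotate, ← this]
    congr 1
    ring
  obtain ⟨H', hH', hlen, key⟩ := w1_act0 hok (by rwa [List.length_rotate])
    (by rwa [List.length_rotate]) _ hH0
  rw [List.length_rotate] at hlen key
  have hs0 : sg (w.rotate i) 0 = sg w i := by rw [sg_rotate, zero_add]
  have hs1 : sg (w.rotate i) 1 = sg w (i + 1) := by rw [sg_rotate, add_comm]
  rw [hs0, hs1] at key
  refine ⟨fun x => H' (x - i), ?_, ?_⟩
  · intro x
    have h1 := hH' (x - i)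
    have h2 : sg (act i w) x = sg (act0 (w.rotate i)) (x - i) := by
      unfold act
      rw [sg_rotate]
      have hpos : 0 < w.length := by omega
      have hle : i % w.length ≤ w.length := (Nat.mod_lt _ hpos).le
      have e : x + ((w.length - i % w.length : ℕ) : ℤ) =
          (x - i) + ((i / w.length : ℕ) + 1 : ℤ) * (act0 (w.rotate i)).length := by
        rw [hlen, Nat.cast_sub hle]
        have := Nat.mod_add_div i w.length
        have h3 : (i : ℤ) = ((i % w.length : ℕ) : ℤ) + w.length * ((i / w.length : ℕ) : ℤ) := by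
          exact_mod_cast this.symm
        linear_combination h3
      rw [e, sg_per]
    show H' (x + 1 - i) = H' (x - i) + sg (act i w) x
    rw [h2, ← h1]
    congr 1
    ring
  · rcases key with ⟨k1, k2, k3⟩ | ⟨k1, k2, k3⟩ | ⟨k1, k2, b, k3, k4, k5⟩ | ⟨k1, k2, a, k3, k4, k5⟩
    · refine Or.inl ⟨k1, k2, fun x => ?_⟩
      have := k3 (x - i)
      simpa using this
    · refine Or.inr (Or.inl ⟨k1, k2, fun x => ?_⟩)
      have h3 := k3 (x - i)
      have e : x - i - 1 = x - (i + 1) := by ring
      rw [e] at h3
      simpa using h3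
    · refine Or.inr (Or.inr (Or.inl ⟨k1, k2, b + i, ?_, by omega, fun x => ?_⟩))
      · obtain ⟨c1, c2, c3⟩ := k3
        refine ⟨by omega, ?_, ?_⟩
        · have e1 : (1 : ℤ) + i = i + 1 := by ring
          have e2 : b + 1 + i = b + i + 1 := by ring
          simp only [e1, e2] at c2
          exact c2
        · intro l hl1 hl2
          have := c3 (l - i) (by omega) (by omega)
          have e1 : (1 : ℤ) + i = i + 1 := by ring
          simp only [e1, sub_add_cancel] at this
          exact this
      · have h5 := k5 (x - i)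
        have hiff : (∃ k : ℤ, 1 < x - i - k * w.length ∧ x - i - k * w.length ≤ b) ↔
            (∃ k : ℤ, (i : ℤ) + 1 < x - k * w.length ∧ x - k * w.length ≤ b + i) := by
          constructor
          · rintro ⟨k, q1, q2⟩
            exact ⟨k, by omega, by omega⟩
          · rintro ⟨k, q1, q2⟩
            exact ⟨k, by omega, by omega⟩
        rw [hiff] at h5
        simpa using h5
    · refine Or.inr (Or.inr (Or.inr ⟨k1, k2, a + i, ?_, by omega, fun x => ?_⟩))
      · obtain ⟨c1, c2, c3⟩ := k3
        refine ⟨by omega, ?_, ?_⟩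
        · have e1 : (1 : ℤ) + i = i + 1 := by ring
          simp only [e1] at c2
          exact c2
        · intro l hl1 hl2
          have := c3 (l - i) (by omega) (by omega)
          simp only [sub_add_cancel] at this
          exact this
      · have h5 := k5 (x - i)
        have hiff : (∃ k : ℤ, a < x - i - k * w.length ∧ x - i - k * w.length ≤ 0) ↔
            (∃ k : ℤ, a + i < x - k * w.length ∧ x - k * w.length ≤ i) := by
          constructor
          · rintro ⟨k, q1, q2⟩
            exact ⟨k, by omega, by omega⟩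
          · rintro ⟨k, q1, q2⟩
            exact ⟨k, by omega, by omega⟩
        rw [hiff] at h5
        simpa using h5

end H906C
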