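import Pool.Agent.H906R3.CY.Defs
import Pool.Agent.H906R3.CY.W1
import Pool.Agent.H906R3.CY.W1b

/-!
# T1: `ThW` intertwines the Temperley-Lieb generators (helper398)
-/

namespace H906C
open Pool.Agent.H863R2.Cyl
open Pool.Agent.H863R2.Cyl.Sem1Aux (Inc RH Cons)
open Pool.Agent.H988R2.Perc (Word)

/-! ### heights -/

/-- steps are `±1` -/
def t1_St (H : ℤ → ℤ) : Prop := ∀ x, H (x + 1) = H x + 1 ∨ H (x + 1) = H x - 1

theorem t1_uniq {H : ℤ → ℤ} {x z z' : ℤ} (h : Cons H x z) (h' : Cons H x z') : z = z' := by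
  obtain ⟨h1, h2, h3⟩ := h
  obtain ⟨h1', h2', h3'⟩ := h'
  rcases lt_trichotomy z z' with h4 | h4 | h4
  · have := h3' z h1 h4; omega
  · exact h4
  · have := h3 z' h1' h4; omega

theorem t1_uniq' {H : ℤ → ℤ} {a a' z : ℤ} (h : Cons H a z) (h' : Cons H a' z) : a = a' := by
  obtain ⟨h1, h2, h3⟩ := h
  obtain ⟨h1', h2', h3'⟩ := h'
  rcases lt_trichotomy a a' with h4 | h4 | h4
  · have := h3 a' h4 h1'; omega
  · exact h4
  · have := h3' a h4 h1; omega

theorem t1_open {H : ℤ → ℤ} (hs : t1_St H) {x z : ℤ} (h : Cons H x z) :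
    H (x + 1) = H x + 1 ∧ x + 2 ≤ z ∧ H z = H (z - 1) - 1 := by
  obtain ⟨h1, h2, h3⟩ := h
  have hx := hs x
  have hz := hs (z - 1)
  rw [sub_add_cancel] at hz
  have h4 : z ≠ x + 1 := by
    rintro rfl
    omega
  have h5 := h3 (x + 1) (by omega) (by omega)
  have h6 := h3 (z - 1) (by omega) (by omega)
  refine ⟨by omega, by omega, by omega⟩

theorem t1_ex_open {H : ℤ → ℤ} (hs : t1_St H) {x b : ℤ} (hx : H (x + 1) = H x + 1) (hb : x < b)
    (hHb : H b ≤ H x) : ∃ z, Cons H x z ∧ z ≤ b := by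
  classical
  have hex : ∃ n : ℕ, H (x + 1 + n) ≤ H x := ⟨(b - x - 1).toNat, by
    have : x + 1 + ((b - x - 1).toNat : ℤ) = b := by omega
    rw [this]; exact hHb⟩
  obtain ⟨n, hn⟩ : ∃ n, n = Nat.find hex := ⟨_, rfl⟩
  have h1 : H (x + 1 + n) ≤ H x := by rw [hn]; exact Nat.find_spec hex
  have h2 : ∀ k : ℕ, k < n → H x < H (x + 1 + k) := by
    intro k hk
    rw [hn] at hk
    have := Nat.find_min hex hk
    omega
  have h3 : n ≠ 0 := by
    rintro h0
    rw [h0] at h1
    simp only [Nat.cast_zero, add_zero] at h1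
    omega
  have h4 := h2 (n - 1) (by omega)
  have h5 := hs (x + 1 + ((n - 1 : ℕ) : ℤ))
  have e1 : x + 1 + ((n - 1 : ℕ) : ℤ) + 1 = x + 1 + n := by omega
  rw [e1] at h5
  have hnb : n ≤ (b - x - 1).toNat := by
    rw [hn]
    apply Nat.find_min'
    have : x + 1 + ((b - x - 1).toNat : ℤ) = b := by omega
    rw [this]; exact hHb
  refine ⟨x + 1 + n, ⟨by omega, by omega, ?_⟩, by omega⟩
  intro l hl1 hl2
  have h6 := h2 (l - x - 1).toNat (by omega)
  have e2 : x + 1 + ((l - x - 1).toNat : ℤ) = l := by omega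
  rwa [e2] at h6

theorem t1_ex_close {H : ℤ → ℤ} (hs : t1_St H) {z b : ℤ} (hz : H z = H (z - 1) - 1) (hb : b < z)
    (hHb : H b ≤ H z) : ∃ a, Cons H a z ∧ b ≤ a := by
  classical
  have hex : ∃ n : ℕ, H (z - 1 - n) ≤ H z := ⟨(z - 1 - b).toNat, by
    have : z - 1 - ((z - 1 - b).toNat : ℤ) = b := by omega
    rw [this]; exact hHb⟩
  obtain ⟨n, hn⟩ : ∃ n, n = Nat.find hex := ⟨_, rfl⟩
  have h1 : H (z - 1 - n) ≤ H z := by rw [hn]; exact Nat.find_spec hex
  have h2 : ∀ k : ℕ, k < n → H z < H (z - 1 - k) := by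
    intro k hk
    rw [hn] at hk
    have := Nat.find_min hex hk
    omega
  have h3 : n ≠ 0 := by
    rintro h0
    rw [h0] at h1
    simp only [Nat.cast_zero, sub_zero] at h1
    omega
  have h4 := h2 (n - 1) (by omega)
  have h5 := hs (z - 1 - (n : ℤ))
  have e1 : z - 1 - (n : ℤ) + 1 = z - 1 - ((n - 1 : ℕ) : ℤ) := by omega
  rw [e1] at h5
  have hnb : n ≤ (z - 1 - b).toNat := by
    rw [hn]
    apply Nat.find_min'
    have : z - 1 - ((z - 1 - b).toNat : ℤ) = b := by omega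
    rw [this]; exact hHb
  refine ⟨z - 1 - n, ⟨by omega, by omega, ?_⟩, by omega⟩
  intro l hl1 hl2
  have h6 := h2 (z - 1 - l).toNat (by omega)
  have e2 : z - 1 - ((z - 1 - l).toNat : ℤ) = l := by omega
  rw [e2] at h6
  omega

section ring
variable {R : Type*} [CommRing R]

open Classical in
/-- the factor of a strand -/
noncomputable def t1_gf (q : R) (ζ : Rˣ) (H : ℤ → ℤ) (S : ℤ → Bool) (x : ℤ) : R :=
  if h : ∃ z, Cons H x z then aw q ζ (h.choose - 1 - x).toNat (S x) (S (h.choose - 1)) else 1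

theorem t1_gf_open (q : R) (ζ : Rˣ) {H : ℤ → ℤ} (S : ℤ → Bool) {x z : ℤ} (h : Cons H x z) :
    t1_gf q ζ H S x = aw q ζ (z - 1 - x).toNat (S x) (S (z - 1)) := by
  unfold t1_gf
  have hex : ∃ z, Cons H x z := ⟨z, h⟩
  rw [dif_pos hex, t1_uniq hex.choose_spec h]

theorem t1_gf_close (q : R) (ζ : Rˣ) {H : ℤ → ℤ} (S : ℤ → Bool) {x : ℤ}
    (hx : H (x + 1) = H x - 1) : t1_gf q ζ H S x = 1 := by
  unfold t1_gf
  rw [dif_neg]
  rintro ⟨z, h1, h2, h3⟩
  by_cases h4 : z = x + 1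
  · rw [h4] at h2; omega
  · have := h3 (x + 1) (by omega) (by omega)
    omega

theorem t1_gf_congr (q : R) (ζ : Rˣ) {H H' : ℤ → ℤ} {S S' : ℤ → Bool} {x b : ℤ} (hs : t1_St H)
    (hb : x < b) (hHb : H b ≤ H x ∨ H (x + 1) = H x - 1)
    (h1 : ∀ z, Cons H x z → Cons H' x z ∧ S (z - 1) = S' (z - 1))
    (h2 : H (x + 1) = H x - 1 → H' (x + 1) = H' x - 1) (h3 : S x = S' x) :
    t1_gf q ζ H S x = t1_gf q ζ H' S' x := by
  rcases hs x with h4 | h4
  · obtain ⟨z, hz, -⟩ := t1_ex_open hs h4 hb (by omega)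
    obtain ⟨h5, h6⟩ := h1 z hz
    rw [t1_gf_open q ζ S hz, t1_gf_open q ζ S' h5, h3, h6]
  · rw [t1_gf_close q ζ S h4, t1_gf_close q ζ S' (h2 h4)]

/-! ### weights -/

theorem t1_aw (q : R) (ζ : Rˣ) (l : ℕ) (a b : Bool) : aw q ζ l a b =
    if a = b then 0 else if a = true then ((ζ⁻¹ : Rˣ) : R) ^ l else -q ^ 2 * (ζ : R) ^ l := by
  unfold aw
  simp only [Units.val_pow_eq_pow_val]

theorem t1_cup (q : R) (ζ : Rˣ) {a b : Bool} (h : a ≠ b) : H906K.cup q ζ a = aw q ζ 1 a b := by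
  rw [t1_aw, if_neg h]
  unfold H906K.cup
  simp

theorem t1_TF (q : R) (hq : q ^ 2 + q + 1 = 0) (ζ : Rˣ) :
    H906K.cap q ζ true * aw q ζ 1 true (!true) + H906K.cap q ζ false * aw q ζ 1 false (!false)
      = 1 := by
  simp only [t1_aw, H906K.cap]
  have h : (ζ : R) * ((ζ⁻¹ : Rˣ) : R) = 1 := ζ.mul_inv
  simp
  linear_combination (-(1:R)) * hq + (-q ^ 2) * h

theorem t1_FT (q : R) (hq : q ^ 2 + q + 1 = 0) (ζ : Rˣ) (l1 l2 : ℕ) (e f : Bool) :
    H906K.cap q ζ true * (aw q ζ l1 e true * aw q ζ l2 (!true) f) +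
      H906K.cap q ζ false * (aw q ζ l1 e false * aw q ζ l2 (!false) f)
      = aw q ζ (l1 + l2 + 1) e f := by
  simp only [t1_aw, H906K.cap]
  cases e <;> cases f <;> simp
  · linear_combination (q ^ 2 * (q - 1) * (ζ : R) * (ζ : R) ^ l1 * (ζ : R) ^ l2) * hq
  · ring

theorem t1_TT (q : R) (hq : q ^ 2 + q + 1 = 0) (ζ : Rˣ) (l l2 : ℕ) (e1 e2 : Bool) :
    H906K.cap q ζ true * (aw q ζ (l + l2 + 1) true e1 * aw q ζ l2 (!true) e2) +
      H906K.cap q ζ false * (aw q ζ (l + l2 + 1) false e1 * aw q ζ l2 (!false) e2)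
      = aw q ζ l e2 e1 := by
  simp only [t1_aw, H906K.cap]
  have h : (ζ : R) * ((ζ⁻¹ : Rˣ) : R) = 1 := ζ.mul_inv
  have hp : (ζ : R) ^ l2 * ((ζ⁻¹ : Rˣ) : R) ^ l2 = 1 := by rw [← mul_pow, h, one_pow]
  generalize (ζ : R) = u at *
  generalize ((ζ⁻¹ : Rˣ) : R) = v at *
  cases e1 <;> cases e2 <;> simp
  · linear_combination (v ^ l * (q - 1) * u * v * (u ^ l2 * v ^ l2)) * hq +
      (v ^ l * (u ^ l2 * v ^ l2)) * h + v ^ l * hp
  · linear_combination (q ^ 2 * u ^ l * (u ^ l2 * v ^ l2)) * h + (q ^ 2 * u ^ l) * hp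

theorem t1_FF (q : R) (hq : q ^ 2 + q + 1 = 0) (ζ : Rˣ) (l l2 : ℕ) (e1 e2 : Bool) :
    H906K.cap q ζ true * (aw q ζ (l + l2 + 1) e1 (!true) * aw q ζ l2 e2 true) +
      H906K.cap q ζ false * (aw q ζ (l + l2 + 1) e1 (!false) * aw q ζ l2 e2 false)
      = aw q ζ l e1 e2 := by
  simp only [t1_aw, H906K.cap]
  have h : (ζ : R) * ((ζ⁻¹ : Rˣ) : R) = 1 := ζ.mul_inv
  have hp : (ζ : R) ^ l2 * ((ζ⁻¹ : Rˣ) : R) ^ l2 = 1 := by rw [← mul_pow, h, one_pow]
  generalize (ζ : R) = u at *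
  generalize ((ζ⁻¹ : Rˣ) : R) = v at *
  cases e1 <;> cases e2 <;> simp
  · linear_combination (q ^ 2 * u ^ l * (u ^ l2 * v ^ l2)) * h + (q ^ 2 * u ^ l) * hp
  · linear_combination (v ^ l * (q - 1) * u * v * (u ^ l2 * v ^ l2)) * hq +
      (v ^ l * (u ^ l2 * v ^ l2)) * h + v ^ l * hp

theorem t1_SP (q : R) (hq : q ^ 2 + q + 1 = 0) (ζ : Rˣ) (l : ℕ) :
    H906K.cap q ζ true * aw q ζ l (!true) true + H906K.cap q ζ false * aw q ζ l (!false) false
      = ((ζ ^ (l + 1) : Rˣ) : R) + (((ζ⁻¹) ^ (l + 1) : Rˣ) : R) := by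
  simp only [t1_aw, H906K.cap, Units.val_pow_eq_pow_val]
  simp
  linear_combination ((q - 1) * (ζ : R) * (ζ : R) ^ l) * hq

end ring

/-! ### windows -/

/-- a window between minimal faces -/
structure t1_Win (N b0 i : ℤ) (H : ℤ → ℤ) (T : ℤ → Bool) (Sb : Bool → ℤ → Bool) : Prop where
  hs : t1_St H
  hmin : ∀ x, H b0 ≤ H x
  hN : H (b0 + N) = H b0
  hb : b0 ≤ i
  hi : i + 2 ≤ b0 + N
  h1 : ∀ b x, b0 ≤ x → x < b0 + N → x ≠ i → x ≠ i + 1 → Sb b x = T x
  h2 : ∀ b, Sb b i = b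
  h3 : ∀ b, Sb b (i + 1) = !b

theorem t1_Win.le {N b0 i : ℤ} {H : ℤ → ℤ} {T : ℤ → Bool} {Sb : Bool → ℤ → Bool}
    (W : t1_Win N b0 i H T Sb) {x z : ℤ} (hx : x < b0 + N) (h : Cons H x z) : z ≤ b0 + N := by
  by_contra hcon
  have h1 := h.2.2 (b0 + N) hx (by omega)
  have h2 := W.hmin x
  have h3 := W.hN
  omega

section ring
variable {R : Type*} [CommRing R]

theorem t1_gf_open' (q : R) (ζ : Rˣ) {H : ℤ → ℤ} (S : ℤ → Bool) {x y : ℤ} (h : Cons H x (y + 1))
    {l : ℕ} (hl : y - x = l) : t1_gf q ζ H S x = aw q ζ l (S x) (S y) := by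
  rw [t1_gf_open q ζ S h]
  have e1 : y + 1 - 1 = y := by ring
  have e2 : (y - x).toNat = l := by omega
  rw [e1, e2]

theorem t1_rest (q : R) (ζ : Rˣ) {N b0 i : ℤ} {H H' : ℤ → ℤ} {T : ℤ → Bool}
    {Sb : Bool → ℤ → Bool} (W : t1_Win N b0 i H T Sb) (Sp : Finset ℤ) (hSp : i ∈ Sp)
    (hSp1 : i + 1 ∈ Sp)
    (hA : ∀ x z, b0 ≤ x → x < b0 + N → x ∉ Sp → Cons H x z → z ≤ b0 + N →
      Cons H' x z ∧ z - 1 ≠ i ∧ z - 1 ≠ i + 1)
    (hB : ∀ x, b0 ≤ x → x < b0 + N → x ∉ Sp → H (x + 1) = H x - 1 → H' (x + 1) = H' x - 1)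
    (b : Bool) :
    ∏ x ∈ Finset.Ico b0 (b0 + N) \ Sp, t1_gf q ζ H (Sb b) x =
      ∏ x ∈ Finset.Ico b0 (b0 + N) \ Sp, t1_gf q ζ H' T x := by
  apply Finset.prod_congr rfl
  intro x hx
  rw [Finset.mem_sdiff, Finset.mem_Ico] at hx
  obtain ⟨⟨hx1, hx2⟩, hx3⟩ := hx
  have hxi : x ≠ i := fun h => hx3 (h ▸ hSp)
  have hxi1 : x ≠ i + 1 := fun h => hx3 (h ▸ hSp1)
  have h4 := W.hmin x
  have h5 := W.hN
  refine t1_gf_congr q ζ W.hs hx2 (Or.inl (by omega)) ?_ (hB x hx1 hx2 hx3)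
    (W.h1 b x hx1 hx2 hxi hxi1)
  intro z hz
  have hzN := W.le hx2 hz
  obtain ⟨h6, h7, h8⟩ := hA x z hx1 hx2 hx3 hz hzN
  have h9 := hz.1
  exact ⟨h6, W.h1 b (z - 1) (by omega) (by omega) h7 h8⟩

theorem t1_comb (q : R) (ζ : Rˣ) {N b0 i : ℤ} {H H' : ℤ → ℤ} {T : ℤ → Bool}
    {Sb : Bool → ℤ → Bool} (Sp : Finset ℤ) (hsub : Sp ⊆ Finset.Ico b0 (b0 + N))
    (hR : ∀ b, ∏ x ∈ Finset.Ico b0 (b0 + N) \ Sp, t1_gf q ζ H (Sb b) x =
      ∏ x ∈ Finset.Ico b0 (b0 + N) \ Sp, t1_gf q ζ H' T x) (C : Bool → R) (D : R)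
    (hC : ∀ b, ∏ x ∈ Sp, t1_gf q ζ H (Sb b) x = C b)
    (hC' : ∏ x ∈ Sp, t1_gf q ζ H' T x = aw q ζ 1 (T i) (T (i + 1)) * D)
    (hD : H906K.cap q ζ true * C true + H906K.cap q ζ false * C false = D) :
    aw q ζ 1 (T i) (T (i + 1)) *
      (H906K.cap q ζ true * (∏ x ∈ Finset.Ico b0 (b0 + N), t1_gf q ζ H (Sb true) x) +
        H906K.cap q ζ false * (∏ x ∈ Finset.Ico b0 (b0 + N), t1_gf q ζ H (Sb false) x)) =
      ∏ x ∈ Finset.Ico b0 (b0 + N), t1_gf q ζ H' T x := by
  rw [← Finset.prod_sdiff hsub, ← Finset.prod_sdiff hsub, ← Finset.prod_sdiff hsub, hR, hR, hC, hC,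
    hC', ← hD]
  ring

theorem t1_caseTF (q : R) (hq : q ^ 2 + q + 1 = 0) (ζ : Rˣ) {N b0 i : ℤ} {H H' : ℤ → ℤ}
    {T : ℤ → Bool} {Sb : Bool → ℤ → Bool} (W : t1_Win N b0 i H T Sb)
    (g1 : H (i + 1) = H i + 1) (g2 : H (i + 2) = H (i + 1) - 1) (hH' : ∀ x, H' x = H x) :
    aw q ζ 1 (T i) (T (i + 1)) *
      (H906K.cap q ζ true * (∏ x ∈ Finset.Ico b0 (b0 + N), t1_gf q ζ H (Sb true) x) +
        H906K.cap q ζ false * (∏ x ∈ Finset.Ico b0 (b0 + N), t1_gf q ζ H (Sb false) x)) =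
      ∏ x ∈ Finset.Ico b0 (b0 + N), t1_gf q ζ H' T x := by
  obtain rfl : H' = H := funext hH'
  have hb := W.hb
  have hi := W.hi
  have hc : Cons H' i (i + 1 + 1) := by
    have e : i + 1 + 1 = i + 2 := by ring
    rw [e]
    refine ⟨by omega, by omega, ?_⟩
    intro l h1 h2
    have : l = i + 1 := by omega
    rw [this]; omega
  have e2 : i + 1 + 1 = i + 2 := by ring
  have hcl : H' (i + 1 + 1) = H' (i + 1) - 1 := by rw [e2]; exact g2
  refine t1_comb q ζ {i, i + 1} ?_ ?_ (fun b => aw q ζ 1 b (!b)) 1 ?_ ?_ ?_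
  · intro x hx
    simp only [Finset.mem_insert, Finset.mem_singleton] at hx
    rw [Finset.mem_Ico]
    omega
  · apply t1_rest q ζ W _ (by simp) (by simp)
    · intro x z hx1 hx2 hx3 hz _
      simp only [Finset.mem_insert, Finset.mem_singleton, not_or] at hx3
      refine ⟨hz, ?_, ?_⟩
      · intro h
        have h4 := t1_open W.hs hz
        have h5 : z = i + 1 := by omega
        rw [h5] at h4
        have e3 : i + 1 - 1 = i := by ring
        rw [e3] at h4
        omega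
      · intro h
        have h5 : z = i + 1 + 1 := by omega
        rw [h5] at hz
        exact hx3.1 (t1_uniq' hz hc)
    · intro x _ _ _ h
      exact h
  · intro b
    rw [Finset.prod_insert (by simp), Finset.prod_singleton,
      t1_gf_open' q ζ _ hc (l := 1) (by push_cast; ring), t1_gf_close q ζ _ hcl, W.h2, W.h3, mul_one]
  · rw [Finset.prod_insert (by simp), Finset.prod_singleton,
      t1_gf_open' q ζ _ hc (l := 1) (by push_cast; ring), t1_gf_close q ζ _ hcl]
  · exact t1_TF q hq ζ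

theorem t1_caseFT (q : R) (hq : q ^ 2 + q + 1 = 0) (ζ : Rˣ) {N b0 i : ℤ} {H H' : ℤ → ℤ}
    {T : ℤ → Bool} {Sb : Bool → ℤ → Bool} (W : t1_Win N b0 i H T Sb)
    (g1 : H (i + 1) = H i - 1) (g2 : H (i + 2) = H (i + 1) + 1)
    (hH1 : H' (i + 1) = H (i + 1) + 2)
    (hH2 : ∀ x, b0 ≤ x → x ≤ b0 + N → x ≠ i + 1 → H' x = H x) :
    aw q ζ 1 (T i) (T (i + 1)) *
      (H906K.cap q ζ true * (∏ x ∈ Finset.Ico b0 (b0 + N), t1_gf q ζ H (Sb true) x) +
        H906K.cap q ζ false * (∏ x ∈ Finset.Ico b0 (b0 + N), t1_gf q ζ H (Sb false) x)) =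
      ∏ x ∈ Finset.Ico b0 (b0 + N), t1_gf q ζ H' T x := by
  have hb := W.hb
  have hi := W.hi
  have e2 : i + 1 + 1 = i + 2 := by ring
  have e1 : i + 1 - 1 = i := by ring
  obtain ⟨a, ha, hab⟩ := t1_ex_close W.hs (z := i + 1) (b := b0) (by rw [e1]; exact g1) (by omega)
    (W.hmin _)
  have ha' := t1_open W.hs ha
  obtain ⟨z0, hz0, hz0N⟩ := t1_ex_open W.hs (x := i + 1) (b := b0 + N) (by rw [e2]; exact g2)
    (by omega) (by rw [W.hN]; exact W.hmin _)
  have hz0' := t1_open W.hs hz0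
  obtain ⟨B, rfl⟩ : ∃ B, z0 = B + 1 := ⟨z0 - 1, by ring⟩
  have hi0 := hH2 i (by omega) (by omega) (by omega)
  have hi2 := hH2 (i + 2) (by omega) (by omega) (by omega)
  have hcl1 : H (i + 1) = H i - 1 := g1
  have hc' : Cons H' i (i + 1 + 1) := by
    rw [e2]
    refine ⟨by omega, by omega, ?_⟩
    intro l h1 h2
    have : l = i + 1 := by omega
    rw [this]; omega
  have hcl' : H' (i + 1 + 1) = H' (i + 1) - 1 := by rw [e2]; omega
  have hcaB : Cons H' a (B + 1) := by
    have h1 := hH2 a (by omega) (by omega) (by omega)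
    have h2 := hH2 (B + 1) (by omega) (by omega) (by omega)
    obtain ⟨k1, k2, k3⟩ := ha
    obtain ⟨l1, l2, l3⟩ := hz0
    refine ⟨by omega, by omega, ?_⟩
    intro l hl1 hl2
    by_cases hl3 : l = i + 1
    · rw [hl3]; omega
    · have h3 := hH2 l (by omega) (by omega) hl3
      rcases lt_or_ge l (i + 1) with h4 | h4
      · have := k3 l hl1 h4; omega
      · have := l3 l (by omega) hl2; omega
  refine t1_comb q ζ {a, i, i + 1} ?_ ?_
    (fun b => aw q ζ (i - a).toNat (T a) b * aw q ζ (B - (i + 1)).toNat (!b) (T B))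
    (aw q ζ ((i - a).toNat + (B - (i + 1)).toNat + 1) (T a) (T B)) ?_ ?_ ?_
  · intro x hx
    simp only [Finset.mem_insert, Finset.mem_singleton] at hx
    rw [Finset.mem_Ico]
    omega
  · apply t1_rest q ζ W _ (by simp) (by simp)
    · intro x z hx1 hx2 hx3 hz hzN
      simp only [Finset.mem_insert, Finset.mem_singleton, not_or] at hx3
      have hzo := t1_open W.hs hz
      have hz1 : z - 1 ≠ i := by
        intro h
        have h5 : z = i + 1 := by omega
        rw [h5] at hz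
        exact hx3.1 (t1_uniq' hz ha)
      have hz2 : z - 1 ≠ i + 1 := by
        intro h
        have h5 : z = i + 2 := by omega
        rw [h5] at hzo
        have e3 : i + 2 - 1 = i + 1 := by ring
        rw [e3] at hzo
        omega
      refine ⟨?_, hz1, hz2⟩
      obtain ⟨k1, k2, k3⟩ := hz
      have h1 := hH2 x (by omega) (by omega) (by omega)
      have h2 := hH2 z (by omega) (by omega) (by omega)
      refine ⟨k1, by omega, ?_⟩
      intro l hl1 hl2
      have h4 := k3 l hl1 hl2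
      by_cases hl3 : l = i + 1
      · rw [hl3] at h4 ⊢; omega
      · have h3 := hH2 l (by omega) (by omega) hl3
        omega
    · intro x hx1 hx2 hx3 h
      simp only [Finset.mem_insert, Finset.mem_singleton, not_or] at hx3
      have h1 := hH2 x (by omega) (by omega) (by omega)
      have h2 := hH2 (x + 1) (by omega) (by omega) (by omega)
      omega
  · intro b
    rw [Finset.prod_insert (by simp; omega), Finset.prod_insert (by simp), Finset.prod_singleton,
      t1_gf_open' q ζ _ ha (l := (i - a).toNat) (by omega), t1_gf_close q ζ _ hcl1,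
      t1_gf_open' q ζ _ hz0 (l := (B - (i + 1)).toNat) (by omega), W.h2, W.h3,
      W.h1 b a (by omega) (by omega) (by omega) (by omega),
      W.h1 b B (by omega) (by omega) (by omega) (by omega), one_mul]
  · rw [Finset.prod_insert (by simp; omega), Finset.prod_insert (by simp), Finset.prod_singleton,
      t1_gf_open' q ζ _ hcaB (l := (i - a).toNat + (B - (i + 1)).toNat + 1)
        (by push_cast; omega),
      t1_gf_open' q ζ _ hc' (l := 1) (by push_cast; ring), t1_gf_close q ζ _ hcl']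
    ring
  · exact t1_FT q hq ζ _ _ _ _

theorem t1_caseTT (q : R) (hq : q ^ 2 + q + 1 = 0) (ζ : Rˣ) {N b0 i : ℤ} {H H' : ℤ → ℤ}
    {T : ℤ → Bool} {Sb : Bool → ℤ → Bool} (W : t1_Win N b0 i H T Sb)
    (g1 : H (i + 1) = H i + 1) (g2 : H (i + 2) = H (i + 1) + 1) {A : ℤ}
    (hA : Cons H (i + 1) (A + 1))
    (hH1 : ∀ x, b0 ≤ x → x ≤ b0 + N → i + 1 < x → x ≤ A → H' x = H x - 2)
    (hH2 : ∀ x, b0 ≤ x → x ≤ b0 + N → ¬ (i + 1 < x ∧ x ≤ A) → H' x = H x) :
    aw q ζ 1 (T i) (T (i + 1)) *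
      (H906K.cap q ζ true * (∏ x ∈ Finset.Ico b0 (b0 + N), t1_gf q ζ H (Sb true) x) +
        H906K.cap q ζ false * (∏ x ∈ Finset.Ico b0 (b0 + N), t1_gf q ζ H (Sb false) x)) =
      ∏ x ∈ Finset.Ico b0 (b0 + N), t1_gf q ζ H' T x := by
  have hb := W.hb
  have hi := W.hi
  have e2 : i + 1 + 1 = i + 2 := by ring
  have e1 : A + 1 - 1 = A := by ring
  have hAN := W.le (by omega) hA
  have hA' := t1_open W.hs hA
  rw [e1] at hA'
  obtain ⟨z0, hz0, hz0N⟩ := t1_ex_open W.hs (x := i) (b := b0 + N) g1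
    (by omega) (by rw [W.hN]; exact W.hmin _)
  have hz0' := t1_open W.hs hz0
  obtain ⟨B, rfl⟩ : ∃ B, z0 = B + 1 := ⟨z0 - 1, by ring⟩
  have hAB : A + 1 < B + 1 := by
    obtain ⟨k1, k2, k3⟩ := hA
    obtain ⟨l1, l2, l3⟩ := hz0
    by_contra hcon
    rcases (not_lt.1 hcon).eq_or_lt with h | h
    · rw [h] at l2; omega
    · have h3 : i + 1 < B + 1 := by omega
      have := k3 (B + 1) h3 h
      omega
  have hi0 := hH2 i (by omega) (by omega) (by omega)
  have hi1 := hH2 (i + 1) (by omega) (by omega) (by omega)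
  have hi2 := hH1 (i + 2) (by omega) (by omega) (by omega) (by omega)
  have hA0 := hH1 A (by omega) (by omega) (by omega) (by omega)
  have hA1 := hH2 (A + 1) (by omega) (by omega) (by omega)
  have hB1 := hH2 (B + 1) (by omega) (by omega) (by omega)
  have hc' : Cons H' i (i + 1 + 1) := by
    rw [e2]
    refine ⟨by omega, by omega, ?_⟩
    intro l h1 h2
    have : l = i + 1 := by omega
    rw [this]; omega
  have hcl' : H' (i + 1 + 1) = H' (i + 1) - 1 := by rw [e2]; omega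
  have hclA : H (A + 1) = H A - 1 := hA'.2.2
  have hcAB : Cons H' A (B + 1) := by
    obtain ⟨k1, k2, k3⟩ := hA
    obtain ⟨l1, l2, l3⟩ := hz0
    refine ⟨by omega, by omega, ?_⟩
    intro l hl1 hl2
    have h3 := hH2 l (by omega) (by omega) (by omega)
    have := l3 l (by omega) hl2
    omega
  refine t1_comb q ζ {i, i + 1, A} ?_ ?_
    (fun b => aw q ζ ((B - A).toNat + (A - (i + 1)).toNat + 1) b (T B) *
      aw q ζ (A - (i + 1)).toNat (!b) (T A))
    (aw q ζ (B - A).toNat (T A) (T B)) ?_ ?_ ?_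
  · intro x hx
    simp only [Finset.mem_insert, Finset.mem_singleton] at hx
    rw [Finset.mem_Ico]
    omega
  · apply t1_rest q ζ W _ (by simp) (by simp)
    · intro x z hx1 hx2 hx3 hz hzN
      simp only [Finset.mem_insert, Finset.mem_singleton, not_or] at hx3
      have hzo := t1_open W.hs hz
      have hz1 : z - 1 ≠ i := by
        intro h
        have h5 : z = i + 1 := by omega
        rw [h5] at hzo
        have e3 : i + 1 - 1 = i := by ring
        rw [e3] at hzo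
        omega
      have hz2 : z - 1 ≠ i + 1 := by
        intro h
        have h5 : z = i + 2 := by omega
        rw [h5] at hzo
        have e3 : i + 2 - 1 = i + 1 := by ring
        rw [e3] at hzo
        omega
      refine ⟨?_, hz1, hz2⟩
      obtain ⟨k1, k2, k3⟩ := hz
      obtain ⟨a1, a2, a3⟩ := hA
      by_cases hxA : i + 1 < x ∧ x ≤ A
      · -- inside the block
        have hHx := a3 x hxA.1 (by omega)
        have hzA : z ≤ A := by
          by_contra hcon
          rcases (show A + 1 ≤ z by omega).eq_or_lt with h | h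
          · rw [← h] at k2; omega
          · have := k3 (A + 1) (by omega) h
            omega
        have h1 := hH1 x (by omega) (by omega) hxA.1 hxA.2
        have h2 := hH1 z (by omega) (by omega) (by omega) hzA
        refine ⟨k1, by omega, ?_⟩
        intro l hl1 hl2
        have h3 := hH1 l (by omega) (by omega) (by omega) (by omega)
        have := k3 l hl1 hl2
        omega
      · have h1 := hH2 x (by omega) (by omega) hxA
        have hzA : ¬ (i + 1 < z ∧ z ≤ A) := by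
          rintro ⟨h3, h4⟩
          have h5 := a3 z h3 (by omega)
          have h6 := k3 i (by omega) (by omega)
          omega
        have h2 := hH2 z (by omega) (by omega) hzA
        refine ⟨k1, by omega, ?_⟩
        intro l hl1 hl2
        have h4 := k3 l hl1 hl2
        by_cases hlA : i + 1 < l ∧ l ≤ A
        · have h3 := hH1 l (by omega) (by omega) hlA.1 hlA.2
          have h5 := a3 l hlA.1 (by omega)
          have h6 := k3 i (by omega) (by omega)
          omega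
        · have h3 := hH2 l (by omega) (by omega) hlA
          omega
    · intro x hx1 hx2 hx3 h
      simp only [Finset.mem_insert, Finset.mem_singleton, not_or] at hx3
      by_cases hxA : i + 1 < x ∧ x ≤ A
      · have h1 := hH1 x (by omega) (by omega) hxA.1 hxA.2
        have h2 := hH1 (x + 1) (by omega) (by omega) (by omega) (by omega)
        omega
      · have h1 := hH2 x (by omega) (by omega) hxA
        have h2 := hH2 (x + 1) (by omega) (by omega) (by omega)
        omega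
  · intro b
    rw [Finset.prod_insert (by simp; omega), Finset.prod_insert (by simp; omega),
      Finset.prod_singleton,
      t1_gf_open' q ζ _ hz0 (l := (B - A).toNat + (A - (i + 1)).toNat + 1)
        (by push_cast; omega),
      t1_gf_open' q ζ _ hA (l := (A - (i + 1)).toNat) (by omega), t1_gf_close q ζ _ hclA, W.h2,
      W.h3, W.h1 b A (by omega) (by omega) (by omega) (by omega),
      W.h1 b B (by omega) (by omega) (by omega) (by omega), mul_one]
  · rw [Finset.prod_insert (by simp; omega), Finset.prod_insert (by simp; omega),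
      Finset.prod_singleton, t1_gf_open' q ζ _ hcAB (l := (B - A).toNat) (by omega),
      t1_gf_open' q ζ _ hc' (l := 1) (by push_cast; ring), t1_gf_close q ζ _ hcl']
    ring
  · exact t1_TT q hq ζ _ _ _ _

theorem t1_caseFF (q : R) (hq : q ^ 2 + q + 1 = 0) (ζ : Rˣ) {N b0 i : ℤ} {H H' : ℤ → ℤ}
    {T : ℤ → Bool} {Sb : Bool → ℤ → Bool} (W : t1_Win N b0 i H T Sb)
    (g1 : H (i + 1) = H i - 1) (g2 : H (i + 2) = H (i + 1) - 1) {A : ℤ}
    (hA : Cons H A (i + 1)) (hAb : b0 ≤ A)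
    (hH1 : ∀ x, b0 ≤ x → x ≤ b0 + N → A < x → x ≤ i → H' x = H x - 2)
    (hH2 : ∀ x, b0 ≤ x → x ≤ b0 + N → ¬ (A < x ∧ x ≤ i) → H' x = H x) :
    aw q ζ 1 (T i) (T (i + 1)) *
      (H906K.cap q ζ true * (∏ x ∈ Finset.Ico b0 (b0 + N), t1_gf q ζ H (Sb true) x) +
        H906K.cap q ζ false * (∏ x ∈ Finset.Ico b0 (b0 + N), t1_gf q ζ H (Sb false) x)) =
      ∏ x ∈ Finset.Ico b0 (b0 + N), t1_gf q ζ H' T x := by
  have hb := W.hb
  have hi := W.hi
  have e2 : i + 1 + 1 = i + 2 := by ring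
  have e1 : i + 2 - 1 = i + 1 := by ring
  have hA' := t1_open W.hs hA
  obtain ⟨a, ha, hab⟩ := t1_ex_close W.hs (z := i + 2) (b := b0) (by rw [e1]; exact g2) (by omega)
    (W.hmin _)
  have ha' := t1_open W.hs ha
  have haA : a < A := by
    obtain ⟨k1, k2, k3⟩ := hA
    obtain ⟨l1, l2, l3⟩ := ha
    by_contra hcon
    rcases (not_lt.1 hcon).eq_or_lt with h | h
    · rw [← h] at l2; omega
    · by_cases h3 : a < i + 1
      · have := k3 a h h3
        omega
      · have : a = i + 1 := by omega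
        rw [this] at l2
        omega
  rw [← e2] at ha
  have hi0 := hH1 i (by omega) (by omega) (by omega) (by omega)
  have hi1 := hH2 (i + 1) (by omega) (by omega) (by omega)
  have hi2 := hH2 (i + 2) (by omega) (by omega) (by omega)
  have hA0 := hH2 A (by omega) (by omega) (by omega)
  have hA1 := hH1 (A + 1) (by omega) (by omega) (by omega) (by omega)
  have ha0 := hH2 a (by omega) (by omega) (by omega)
  have hc' : Cons H' i (i + 1 + 1) := by
    rw [e2]
    refine ⟨by omega, by omega, ?_⟩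
    intro l h1 h2
    have : l = i + 1 := by omega
    rw [this]; omega
  have hcl' : H' (i + 1 + 1) = H' (i + 1) - 1 := by rw [e2]; omega
  have hcli : H (i + 1) = H i - 1 := g1
  have hcli1 : H (i + 1 + 1) = H (i + 1) - 1 := by rw [e2]; exact g2
  have hclA : H' (A + 1) = H' A - 1 := by omega
  have hcAB : Cons H' a (A + 1) := by
    obtain ⟨k1, k2, k3⟩ := hA
    obtain ⟨l1, l2, l3⟩ := ha
    rw [e2] at l2
    refine ⟨by omega, by omega, ?_⟩
    intro l hl1 hl2
    have h3 := hH2 l (by omega) (by omega) (by omega)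
    have := l3 l (by omega) (by omega)
    omega
  refine t1_comb q ζ {a, A, i, i + 1} ?_ ?_
    (fun b => aw q ζ ((A - a).toNat + (i - A).toNat + 1) (T a) (!b) *
      aw q ζ (i - A).toNat (T A) b)
    (aw q ζ (A - a).toNat (T a) (T A)) ?_ ?_ ?_
  · intro x hx
    simp only [Finset.mem_insert, Finset.mem_singleton] at hx
    rw [Finset.mem_Ico]
    omega
  · apply t1_rest q ζ W _ (by simp) (by simp)
    · intro x z hx1 hx2 hx3 hz hzN
      simp only [Finset.mem_insert, Finset.mem_singleton, not_or] at hx3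
      have hzo := t1_open W.hs hz
      have hz1 : z - 1 ≠ i := by
        intro h
        have h5 : z = i + 1 := by omega
        rw [h5] at hz
        exact hx3.2.1 (t1_uniq' hz hA)
      have hz2 : z - 1 ≠ i + 1 := by
        intro h
        have h5 : z = i + 1 + 1 := by omega
        rw [h5] at hz
        exact hx3.1 (t1_uniq' hz ha)
      refine ⟨?_, hz1, hz2⟩
      obtain ⟨k1, k2, k3⟩ := hz
      obtain ⟨a1, a2, a3⟩ := hA
      by_cases hxA : A < x ∧ x ≤ i
      · -- inside the block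
        have hHx := a3 x hxA.1 (by omega)
        have hzA : z ≤ i := by
          by_contra hcon
          rcases (show i + 1 ≤ z by omega).eq_or_lt with h | h
          · rw [← h] at k2; omega
          · have := k3 (i + 1) (by omega) h
            omega
        have h1 := hH1 x (by omega) (by omega) hxA.1 hxA.2
        have h2 := hH1 z (by omega) (by omega) (by omega) hzA
        refine ⟨k1, by omega, ?_⟩
        intro l hl1 hl2
        have h3 := hH1 l (by omega) (by omega) (by omega) (by omega)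
        have := k3 l hl1 hl2
        omega
      · have h1 := hH2 x (by omega) (by omega) hxA
        have hzA : ¬ (A < z ∧ z ≤ i) := by
          rintro ⟨h3, h4⟩
          have h5 := a3 z h3 (by omega)
          have h6 := k3 A (by omega) (by omega)
          omega
        have h2 := hH2 z (by omega) (by omega) hzA
        refine ⟨k1, by omega, ?_⟩
        intro l hl1 hl2
        have h4 := k3 l hl1 hl2
        by_cases hlA : A < l ∧ l ≤ i
        · have h3 := hH1 l (by omega) (by omega) hlA.1 hlA.2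
          have h5 := a3 l hlA.1 (by omega)
          have h6 := k3 (i + 2) (by omega) (by omega)
          omega
        · have h3 := hH2 l (by omega) (by omega) hlA
          omega
    · intro x hx1 hx2 hx3 h
      simp only [Finset.mem_insert, Finset.mem_singleton, not_or] at hx3
      by_cases hxA : A < x ∧ x ≤ i
      · have h1 := hH1 x (by omega) (by omega) hxA.1 hxA.2
        have h2 := hH1 (x + 1) (by omega) (by omega) (by omega) (by omega)
        omega
      · have h1 := hH2 x (by omega) (by omega) hxA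
        have h2 := hH2 (x + 1) (by omega) (by omega) (by omega)
        omega
  · intro b
    rw [Finset.prod_insert (by simp; omega), Finset.prod_insert (by simp; omega),
      Finset.prod_insert (by simp), Finset.prod_singleton,
      t1_gf_open' q ζ _ ha (l := (A - a).toNat + (i - A).toNat + 1) (by push_cast; omega),
      t1_gf_open' q ζ _ hA (l := (i - A).toNat) (by omega), t1_gf_close q ζ _ hcli,
      t1_gf_close q ζ _ hcli1, W.h2,
      W.h3, W.h1 b A (by omega) (by omega) (by omega) (by omega),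
      W.h1 b a (by omega) (by omega) (by omega) (by omega), mul_one, mul_one]
  · rw [Finset.prod_insert (by simp; omega), Finset.prod_insert (by simp; omega),
      Finset.prod_insert (by simp), Finset.prod_singleton,
      t1_gf_open' q ζ _ hcAB (l := (A - a).toNat) (by omega),
      t1_gf_open' q ζ _ hc' (l := 1) (by push_cast; ring), t1_gf_close q ζ _ hcl',
      t1_gf_close q ζ _ hclA]
    ring
  · exact t1_FF q hq ζ _ _ _ _

/-! ### the closing case -/

theorem t1_special (q : R) (hq : q ^ 2 + q + 1 = 0) (ζ : Rˣ) {n : ℕ} {i : ℤ} {H H' : ℤ → ℤ}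
    {T : ℤ → Bool} {Sb : Bool → ℤ → Bool} (hs : t1_St H) (hn : 1 ≤ n)
    (hst : ∀ x, i + 1 < x → x < i + 1 + (n + 1) → H (i + 1) < H x)
    (hN : H (i + 1 + (n + 1)) = H (i + 1))
    (h0 : H i = H (i + 1) + 1)
    (hSb : ∀ b x, i + 2 ≤ x → x < i + (n + 1) → Sb b x = T x) (h1 : ∀ b, Sb b (i + 1) = !b)
    (h2 : ∀ b, Sb b (i + (n + 1)) = b) (hH1 : H' (i + 1) = H (i + 1) + 2) (hHi : H' i = H i)
    (hH2 : ∀ x, i + 1 < x → x < i + 1 + (n + 1) → H' x = H x) :
    aw q ζ 1 (T i) (T (i + 1)) *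
      (H906K.cap q ζ true * (∏ x ∈ Finset.Ico (i + 1) (i + 1 + (n + 1)), t1_gf q ζ H (Sb true) x) +
        H906K.cap q ζ false *
          (∏ x ∈ Finset.Ico (i + 1) (i + 1 + (n + 1)), t1_gf q ζ H (Sb false) x)) =
      (((ζ ^ (n + 1) : Rˣ) : R) + (((ζ⁻¹) ^ (n + 1) : Rˣ) : R)) *
        ∏ x ∈ Finset.Ico i (i + (n + 1)), t1_gf q ζ H' T x := by
  have e2 : i + 1 + 1 = i + 2 := by ring
  have e3 : i + (n + 1) + 1 = i + 1 + (n + 1) := by ring
  have hs1 := hs (i + 1)
  rw [e2] at hs1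
  have hs2 := hst (i + 2) (by omega) (by omega)
  have hH22 := hH2 (i + 2) (by omega) (by omega)
  have hsN := hs (i + (n + 1))
  rw [e3] at hsN
  have hstN := hst (i + (n + 1)) (by omega) (by omega)
  have hc : Cons H (i + 1) (i + (n + 1) + 1) := by
    rw [e3]
    exact ⟨by omega, hN.symm, hst⟩
  have hcl : H (i + (n + 1) + 1) = H (i + (n + 1)) - 1 := by rw [e3]; omega
  have hc' : Cons H' i (i + 1 + 1) := by
    rw [e2]
    refine ⟨by omega, by omega, ?_⟩
    intro l h1 h2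
    have : l = i + 1 := by omega
    rw [this]; omega
  have hcl' : H' (i + 1 + 1) = H' (i + 1) - 1 := by rw [e2]; omega
  have hsplit1 : Finset.Ico (i + 1) (i + 1 + (n + 1)) =
      insert (i + 1) (insert (i + ((n : ℤ) + 1)) (Finset.Ico (i + 2) (i + (n + 1)))) := by
    ext x
    simp only [Finset.mem_Ico, Finset.mem_insert]
    omega
  have hsplit2 : Finset.Ico i (i + (n + 1)) =
      insert i (insert (i + 1) (Finset.Ico (i + 2) (i + ((n : ℤ) + 1)))) := by
    ext x
    simp only [Finset.mem_Ico, Finset.mem_insert]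
    omega
  have hR : ∀ b, ∏ x ∈ Finset.Ico (i + 2) (i + ((n : ℤ) + 1)), t1_gf q ζ H (Sb b) x =
      ∏ x ∈ Finset.Ico (i + 2) (i + ((n : ℤ) + 1)), t1_gf q ζ H' T x := by
    intro b
    apply Finset.prod_congr rfl
    intro x hx
    rw [Finset.mem_Ico] at hx
    have h4 := hst x (by omega) (by omega)
    refine t1_gf_congr q ζ hs (b := i + 1 + (n + 1)) (by omega) (Or.inl (by omega)) ?_ ?_
      (hSb b x hx.1 hx.2)
    · intro z hz
      obtain ⟨k1, k2, k3⟩ := hz
      have hzl : z ≤ i + (n + 1) := by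
        by_contra hcon
        rcases (show i + 1 + (n + 1) ≤ z by omega).eq_or_lt with h | h
        · rw [← h] at k2; omega
        · have := k3 (i + 1 + (n + 1)) (by omega) h
          omega
      refine ⟨⟨k1, ?_, ?_⟩, hSb b (z - 1) (by omega) (by omega)⟩
      · rw [hH2 x (by omega) (by omega), hH2 z (by omega) (by omega)]; exact k2
      · intro l hl1 hl2
        rw [hH2 x (by omega) (by omega), hH2 l (by omega) (by omega)]
        exact k3 l hl1 hl2
    · intro h
      rw [hH2 x (by omega) (by omega), hH2 (x + 1) (by omega) (by omega)]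
      exact h
  have hC : ∀ b, ∏ x ∈ Finset.Ico (i + 1) (i + 1 + ((n : ℤ) + 1)), t1_gf q ζ H (Sb b) x =
      aw q ζ n (!b) b * ∏ x ∈ Finset.Ico (i + 2) (i + ((n : ℤ) + 1)), t1_gf q ζ H' T x := by
    intro b
    rw [hsplit1, Finset.prod_insert (by simp only [Finset.mem_Ico, Finset.mem_insert]; omega),
      Finset.prod_insert (by simp only [Finset.mem_Ico]; omega), hR,
      t1_gf_open' q ζ _ hc (l := n) (by ring), t1_gf_close q ζ _ hcl, h1, h2, one_mul]
  rw [hC, hC, hsplit2, Finset.prod_insert (by simp only [Finset.mem_Ico, Finset.mem_insert]; omega),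
    Finset.prod_insert (by simp only [Finset.mem_Ico]; omega),
    t1_gf_open' q ζ _ hc' (l := 1) (by push_cast; ring), t1_gf_close q ζ _ hcl', ← t1_SP q hq ζ n]
  ring

/-! ### `ThW` as a product over a window -/

theorem t1_win {f : ℤ → R} {N : ℤ} (hN : 0 < N) (hf : ∀ x, f (x + N) = f x) (b : ℤ) :
    ∏ x ∈ Finset.Ico b (b + N), f x = ∏ x ∈ Finset.Ico 0 (0 + N), f x := by
  have step : ∀ b, ∏ x ∈ Finset.Ico (b + 1) (b + 1 + N), f x =
      ∏ x ∈ Finset.Ico b (b + N), f x := by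
    intro b
    have e : b + 1 + N = b + N + 1 := by ring
    rw [e, Sem1Aux.Ico_succ (b + 1) (b + N) (by omega), Sem1Aux.Ico_pred b (b + N) (by omega),
      Finset.prod_insert (by simp), Finset.prod_insert (by simp), hf]
  induction b using Int.inductionOn' (b := 0) with
  | zero => rfl
  | succ k _ ih => rw [step, ih]
  | pred k _ ih =>
    have := step (k - 1)
    rw [sub_add_cancel] at this
    rw [← this, ih]

theorem t1_range (f : ℤ → R) (n : ℕ) :
    ∏ i ∈ Finset.range n, f (i : ℤ) = ∏ x ∈ Finset.Ico 0 (0 + (n : ℤ)), f x := by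
  induction n with
  | zero => simp
  | succ n ih =>
    have e : 0 + ((n + 1 : ℕ) : ℤ) = 0 + (n : ℤ) + 1 := by push_cast; ring
    rw [Finset.prod_range_succ, ih, e, Sem1Aux.Ico_succ 0 (0 + (n : ℤ)) (by omega),
      Finset.prod_insert (by simp), zero_add]
    ring

theorem t1_Cons_per {H : ℤ → ℤ} {N : ℤ} (hH : ∀ x, H (x + N) = H x) {x z : ℤ}
    (h : Cons H x z) : Cons H (x + N) (z + N) := by
  obtain ⟨h1, h2, h3⟩ := h
  refine ⟨by omega, by rw [hH, hH]; exact h2, ?_⟩
  intro l hl1 hl2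
  have h4 := h3 (l - N) (by omega) (by omega)
  have h5 := hH (l - N)
  rw [sub_add_cancel] at h5
  rw [hH, h5]
  exact h4

theorem t1_Cons_per' {H : ℤ → ℤ} {N : ℤ} (hH : ∀ x, H (x + N) = H x) {x z : ℤ}
    (h : Cons H (x + N) z) : Cons H x (z - N) := by
  have hH' : ∀ x, H (x + -N) = H x := by
    intro x
    have := hH (x + -N)
    rw [neg_add_cancel_right] at this
    exact this.symm
  have := t1_Cons_per hH' h
  rw [add_neg_cancel_right] at this
  exact this

theorem t1_gf_per (q : R) (ζ : Rˣ) {H : ℤ → ℤ} {S : ℤ → Bool} {N : ℤ}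
    (hH : ∀ x, H (x + N) = H x) (hS : ∀ x, S (x + N) = S x) (x : ℤ) :
    t1_gf q ζ H S (x + N) = t1_gf q ζ H S x := by
  by_cases h : ∃ z, Cons H x z
  · obtain ⟨z, hz⟩ := h
    rw [t1_gf_open q ζ S hz, t1_gf_open q ζ S (t1_Cons_per hH hz), hS]
    have e1 : z + N - 1 = z - 1 + N := by ring
    have e2 : z + N - 1 - (x + N) = z - 1 - x := by ring
    rw [e2, e1, hS]
  · have h' : ¬ ∃ z, Cons H (x + N) z := fun ⟨z, hz⟩ => h ⟨z - N, t1_Cons_per' hH hz⟩
    unfold t1_gf
    rw [dif_neg h, dif_neg h']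

theorem t1_cl_nat {m : ℕ} (c : Fin (m + 1) → Bool) (k : ℕ) : cl c (k : ℤ) = c (ix m k) := by
  unfold cl
  congr 1
  unfold ix
  apply Fin.ext
  show (((k : ℤ) % ((m : ℤ) + 1)).toNat) % (m + 1) = k % (m + 1)
  have h : (k : ℤ) % ((m : ℤ) + 1) = ((k % (m + 1) : ℕ) : ℤ) := by push_cast; rfl
  rw [h, Int.toNat_natCast, Nat.mod_mod]

theorem t1_cl_per {m : ℕ} (c : Fin (m + 1) → Bool) (x : ℤ) :
    cl c (x + ((m : ℤ) + 1)) = cl c x := by
  unfold cl
  rw [Int.add_emod_right]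

theorem t1_sg (w : Word) (j : ℤ) : sg w j = 1 ∨ sg w j = -1 := by
  unfold sg
  split_ifs
  · exact Or.inl rfl
  · exact Or.inr rfl

theorem t1_St_of {w : Word} {H : ℤ → ℤ} (hH : Inc (sg w) H) : t1_St H := by
  intro x
  have h1 := hH x
  rcases t1_sg w x with h2 | h2
  · left; omega
  · right; omega

theorem t1_Arc {w : Word} {H : ℤ → ℤ} (hH : Inc (sg w) H) (x : ℤ) (l : ℕ) :
    Arc w x (x + l) ↔ Cons H x (x + l + 1) := by
  constructor
  · rintro ⟨h1, h2, h3⟩
    rw [Sem1Aux.Sh_eq hH x (x + l + 1) (by omega)] at h2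
    refine ⟨by omega, by omega, ?_⟩
    intro y hy1 hy2
    have := h3 y hy1 (by omega)
    rw [Sem1Aux.Sh_eq hH x y (by omega)] at this
    omega
  · intro h
    have h4 := t1_open (t1_St_of hH) h
    obtain ⟨h1, h2, h3⟩ := h
    refine ⟨by omega, ?_, ?_⟩
    · rw [Sem1Aux.Sh_eq hH x (x + l + 1) (by omega)]
      omega
    · intro y hy1 hy2
      rw [Sem1Aux.Sh_eq hH x y (by omega)]
      have := h3 y hy1 (by omega)
      omega

theorem t1_ThW {m : ℕ} (he : Even (m + 1)) (q : R) (ζ : Rˣ) (s : Fin (m + 1) → Bool)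
    (σ : Wd (m + 1)) {H : ℤ → ℤ} (hH : Inc (sg σ.1) H) (b0 : ℤ) :
    ThW m q ζ s σ = ∏ x ∈ Finset.Ico b0 (b0 + ((m : ℤ) + 1)), t1_gf q ζ H (cl s) x := by
  have hper := ht_per he σ H hH
  have hst := t1_St_of hH
  rw [t1_win (by omega) (fun x => t1_gf_per q ζ hper (t1_cl_per s) x) b0]
  have hr := t1_range (t1_gf q ζ H (cl s)) (m + 1)
  push_cast at hr
  rw [← hr]
  unfold ThW
  apply Finset.prod_congr rfl
  intro i _
  by_cases h : ∃ z, Cons H (i : ℤ) z
  · obtain ⟨z, hz⟩ := h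
    have hzo := t1_open hst hz
    have hzN : z ≤ i + ((m : ℤ) + 1) := by
      by_contra hcon
      have h1 := hz.2.2 (i + ((m : ℤ) + 1)) (by omega) (by omega)
      rw [hper] at h1
      omega
    obtain ⟨l0, hl0⟩ : ∃ l0 : ℕ, z = i + l0 + 1 := ⟨(z - 1 - i).toNat, by omega⟩
    subst hl0
    rw [Finset.prod_eq_single l0]
    · rw [if_pos ((t1_Arc hH i l0).2 hz), t1_gf_open' q ζ (cl s) hz (l := l0) (by ring),
        t1_cl_nat]
      have e : (i : ℤ) + (l0 : ℤ) = ((i + l0 : ℕ) : ℤ) := by push_cast; rfl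
      rw [e, t1_cl_nat]
    · intro l _ hl
      rw [if_neg]
      intro h
      have h1 := t1_uniq ((t1_Arc hH i l).1 h) hz
      apply hl
      omega
    · intro h1
      exfalso
      apply h1
      rw [Finset.mem_range]
      omega
  · have h1 : t1_gf q ζ H (cl s) (i : ℤ) = 1 := by
      unfold t1_gf
      rw [dif_neg h]
    rw [h1]
    apply Finset.prod_eq_one
    intro l _
    rw [if_neg]
    intro h2
    exact h ⟨_, (t1_Arc hH i l).1 h2⟩

/-! ### the sum over the spins -/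

/-- the spins `t` with `b`, `!b` at the sites `a`, `a'` -/
def t1_u {m : ℕ} (t : Fin (m + 1) → Bool) (a a' : Fin (m + 1)) (b : Bool) :
    Fin (m + 1) → Bool := fun k => if k = a then b else if k = a' then !b else t k

theorem t1_u_a {m : ℕ} (t : Fin (m + 1) → Bool) (a a' : Fin (m + 1)) (b : Bool) :
    t1_u t a a' b a = b := by simp [t1_u]

theorem t1_u_b {m : ℕ} (t : Fin (m + 1) → Bool) {a a' : Fin (m + 1)} (h : a ≠ a') (b : Bool) :
    t1_u t a a' b a' = !b := by
  unfold t1_u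
  rw [if_neg h.symm, if_pos rfl]

theorem t1_u_c {m : ℕ} (t : Fin (m + 1) → Bool) {a a' k : Fin (m + 1)} (h : k ≠ a) (h' : k ≠ a')
    (b : Bool) : t1_u t a a' b k = t k := by
  unfold t1_u
  rw [if_neg h, if_neg h']

theorem t1_ix_ne {m : ℕ} (hm : 1 ≤ m) (i : ℕ) : ix m i ≠ ix m (i + 1) := by
  intro h
  have h1 : i % (m + 1) = (i + 1) % (m + 1) := congrArg Fin.val h
  have h2 : (i + 1) % (m + 1) = (i + 0) % (m + 1) := by rw [add_zero]; exact h1.symm
  have h3 : 1 % (m + 1) = 0 % (m + 1) := Nat.ModEq.add_left_cancel' i h2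
  rw [Nat.mod_eq_of_lt (by omega), Nat.zero_mod] at h3
  omega

theorem t1_mul {m : ℕ} (hm : 1 ≤ m) {X : Type*} (i : ℕ) (q : R) (ζ : Rˣ)
    (M : Matrix (Fin (m + 1) → Bool) X R) (t : Fin (m + 1) → Bool)
    (σ : X) (ht : t (ix m i) ≠ t (ix m (i + 1))) :
    (H906K.eV m i q ζ * M) t σ = H906K.cup q ζ (t (ix m i)) *
      (H906K.cap q ζ true * M (t1_u t (ix m i) (ix m (i + 1)) true) σ
        + H906K.cap q ζ false * M (t1_u t (ix m i) (ix m (i + 1)) false) σ) := by
  have hab : ix m i ≠ ix m (i + 1) := t1_ix_ne hm i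
  have hev : ∀ s, H906K.eV m i q ζ t s =
      if (∀ k, k ≠ ix m i → k ≠ ix m (i + 1) → t k = s k) ∧ s (ix m i) ≠ s (ix m (i + 1)) ∧
        t (ix m i) ≠ t (ix m (i + 1)) then
          H906K.cup q ζ (t (ix m i)) * H906K.cap q ζ (s (ix m i)) else 0 := fun s => rfl
  set a := ix m i with ha
  set b := ix m (i + 1) with hb
  have hcond : ∀ β, (∀ k, k ≠ a → k ≠ b → t k = t1_u t a b β k) ∧
      t1_u t a b β a ≠ t1_u t a b β b ∧ t a ≠ t b := by
    intro β
    refine ⟨fun k h1 h2 => (t1_u_c t h1 h2 β).symm, ?_, ht⟩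
    rw [t1_u_a, t1_u_b t hab]
    cases β <;> simp
  have hne : t1_u t a b true ≠ t1_u t a b false := by
    intro h
    have := congrFun h a
    rw [t1_u_a, t1_u_a] at this
    exact absurd this (by simp)
  have h0 : ∀ s : Fin (m + 1) → Bool, s ≠ t1_u t a b true ∧ s ≠ t1_u t a b false →
      H906K.eV m i q ζ t s * M s σ = 0 := by
    intro s hs
    have : H906K.eV m i q ζ t s = 0 := by
      rw [hev, if_neg]
      rintro ⟨h1, h2, h3⟩
      have h4 : s = t1_u t a b (s a) := by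
        funext k
        by_cases hk : k = a
        · rw [hk, t1_u_a]
        · by_cases hk2 : k = b
          · rw [hk2, t1_u_b t hab]
            revert h2
            cases s a <;> cases s b <;> simp
          · rw [t1_u_c t hk hk2, h1 k hk hk2]
      rcases h5 : s a
      · rw [h5] at h4
        exact hs.2 h4
      · rw [h5] at h4
        exact hs.1 h4
    rw [this, zero_mul]
  rw [Matrix.mul_apply, Fintype.sum_eq_add _ _ hne h0]
  have he : ∀ β, H906K.eV m i q ζ t (t1_u t a b β) =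
      H906K.cup q ζ (t a) * H906K.cap q ζ β := by
    intro β
    rw [hev, if_pos (hcond β), t1_u_a]
  rw [he, he]
  ring

theorem t1_mul_zero {m : ℕ} {X : Type*} (i : ℕ) (q : R) (ζ : Rˣ)
    (M : Matrix (Fin (m + 1) → Bool) X R) (t : Fin (m + 1) → Bool)
    (σ : X) (ht : t (ix m i) = t (ix m (i + 1))) :
    (H906K.eV m i q ζ * M) t σ = 0 := by
  rw [Matrix.mul_apply]
  refine Finset.sum_eq_zero (fun s _ => ?_)
  have : H906K.eV m i q ζ t s = 0 := by
    unfold H906K.eV
    rw [if_neg]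
    rintro ⟨h1, h2, h3⟩
    exact h3 ht
  rw [this, zero_mul]

theorem t1_kN {N : ℤ} (hN : 0 < N) (k : ℤ) : (k = 0 ∧ k * N = 0) ∨ N ≤ k * N ∨ k * N ≤ -N := by
  rcases lt_trichotomy k 0 with h | h | h
  · right; right
    have : k + 1 ≤ 0 := by omega
    nlinarith
  · left; rw [h]; simp
  · right; left
    have : 0 ≤ k - 1 := by omega
    nlinarith

theorem t1_dvd {N x : ℤ} (hN : 0 < N) (h1 : -N < x) (h2 : x < N) (h : N ∣ x) : x = 0 := by
  obtain ⟨k, rfl⟩ := h
  rw [mul_comm] at h1 h2 ⊢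
  rcases t1_kN hN k with ⟨-, h3⟩ | h3 | h3
  · exact h3
  · omega
  · omega

theorem t1_cl_u {m : ℕ} (hm : 1 ≤ m) (i : ℕ) (t : Fin (m + 1) → Bool) (b : Bool) (x : ℤ)
    (h1 : ¬ ((m : ℤ) + 1) ∣ x - i) (h2 : ¬ ((m : ℤ) + 1) ∣ x - (i + 1)) :
    cl (t1_u t (ix m i) (ix m (i + 1)) b) x = cl t x := by
  have key : ∀ j : ℕ, ix m (x % ((m : ℤ) + 1)).toNat = ix m j → ((m : ℤ) + 1) ∣ x - j := by
    intro j hj
    have h3 : (x % ((m : ℤ) + 1)).toNat % (m + 1) = j % (m + 1) := congrArg Fin.val hj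
    have h4 : 0 ≤ x % ((m : ℤ) + 1) := Int.emod_nonneg _ (by omega)
    have h5 : ((((x % ((m : ℤ) + 1)).toNat % (m + 1) : ℕ)) : ℤ) = x % ((m : ℤ) + 1) := by
      push_cast
      rw [Int.toNat_of_nonneg h4, Int.emod_emod_of_dvd _ (dvd_refl _)]
    rw [h3] at h5
    push_cast at h5
    exact Int.ModEq.dvd h5
  unfold cl
  rw [t1_u_c]
  · intro h
    exact h1 (key i h)
  · intro h
    apply h2
    have := key (i + 1) h
    push_cast at this
    exact this

/-- **`ThW` intertwines the generators** -/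
theorem t1_key {m : ℕ} (he : Even (m + 1)) (i : ℕ) (q : R)
    (hq : q ^ 2 + q + 1 = 0) (ζ : Rˣ) (t : Fin (m + 1) → Bool) (σ : Wd (m + 1)) :
    aw q ζ 1 (t (ix m i)) (t (ix m (i + 1))) *
      (H906K.cap q ζ true * ThW m q ζ (t1_u t (ix m i) (ix m (i + 1)) true) σ
        + H906K.cap q ζ false * ThW m q ζ (t1_u t (ix m i) (ix m (i + 1)) false) σ)
      = (((ζ ^ (m + 1) : Rˣ) : R) + (((ζ⁻¹) ^ (m + 1) : Rˣ) : R)) ^ kE m i σ *
          ThW m q ζ t (E m i σ) := by
  have hm : 1 ≤ m := by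
    obtain ⟨r, hr⟩ := he
    omega
  have hab : ix m i ≠ ix m (i + 1) := t1_ix_ne hm i
  obtain ⟨H, hH, -⟩ := Sem1Aux.exists_ht (sg σ.1)
  have hlen : (σ.1.length : ℤ) = (m : ℤ) + 1 := by rw [σ.2.1]; push_cast; rfl
  obtain ⟨H', hH', hcase⟩ := act_ht σ.2.2 (by rw [σ.2.1]; omega) (by rw [σ.2.1]; exact he) i H hH
  rw [← E_val] at hH'
  rw [hlen] at hcase
  have hst := t1_St_of hH
  have hper := ht_per he σ H hH
  have hT1 : cl t (i : ℤ) = t (ix m i) := t1_cl_nat t i
  have hT2 : cl t ((i : ℤ) + 1) = t (ix m (i + 1)) := by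
    have := t1_cl_nat t (i + 1)
    push_cast at this
    exact this
  have hU1 : ∀ b, cl (t1_u t (ix m i) (ix m (i + 1)) b) (i : ℤ) = b := by
    intro b
    rw [t1_cl_nat, t1_u_a]
  have hU2 : ∀ b, cl (t1_u t (ix m i) (ix m (i + 1)) b) ((i : ℤ) + 1) = !b := by
    intro b
    have := t1_cl_nat (t1_u t (ix m i) (ix m (i + 1)) b) (i + 1)
    push_cast at this
    rw [this, t1_u_b t hab]
  rw [← hT1, ← hT2]
  have hHi := hH (i : ℤ)
  have hHi1 := hH ((i : ℤ) + 1)
  have e2 : (i : ℤ) + 1 + 1 = i + 2 := by ring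
  rw [e2] at hHi1
  by_cases hF : ∀ b : ℤ, Fc σ b ↔ ((m : ℤ) + 1) ∣ b - (i + 1)
  · -- closing case
    have hk : kE m i σ = 1 := by
      unfold kE
      rw [if_pos hF]
    rw [hk, pow_one]
    have hmin : ∀ x, H ((i : ℤ) + 1) ≤ H x := by
      have := (hF ((i : ℤ) + 1)).2 (by simp)
      exact (Fc_iff_min he σ H hH _).1 this
    have hlt : ∀ x, ¬ ((m : ℤ) + 1) ∣ x - (i + 1) → H ((i : ℤ) + 1) < H x := by
      intro x hx
      rw [← hF, Fc_iff_min he σ H hH] at hx
      push Not at hx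
      obtain ⟨y, hy⟩ := hx
      exact lt_of_le_of_lt (hmin y) hy
    have hnd : ∀ x : ℤ, x ≠ 0 → -((m : ℤ) + 1) < x → x < (m : ℤ) + 1 → ¬ ((m : ℤ) + 1) ∣ x :=
      fun x hx h1 h2 h3 => hx (t1_dvd (by omega) h1 h2 h3)
    have g0 := hlt i (hnd _ (by omega) (by omega) (by omega))
    have g2 := hlt (i + 2) (hnd _ (by omega) (by omega) (by omega))
    rcases hcase with ⟨c1, c2, -⟩ | ⟨c1, c2, c3⟩ | ⟨c1, c2, -⟩ | ⟨c1, c2, -⟩
    · omega
    · rw [t1_ThW he q ζ _ σ hH ((i : ℤ) + 1), t1_ThW he q ζ _ σ hH ((i : ℤ) + 1),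
        t1_ThW he q ζ t (E m i σ) hH' (i : ℤ)]
      refine t1_special q hq ζ
        (Sb := fun b => cl (t1_u t (ix m i) (ix m (i + 1)) b)) hst hm ?_ (hper _) (by omega) ?_
        hU2 ?_ ((c3 _).1 (by simp)) ((c3 _).2 (hnd _ (by omega) (by omega) (by omega))) ?_
      · intro x h1 h2
        exact hlt x (hnd _ (by omega) (by omega) (by omega))
      · intro b x h1 h2
        exact t1_cl_u hm i t b x (hnd _ (by omega) (by omega) (by omega))
          (hnd _ (by omega) (by omega) (by omega))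
      · intro b
        show cl (t1_u t (ix m i) (ix m (i + 1)) b) _ = b
        rw [t1_cl_per, hU1]
      · intro x h1 h2
        exact (c3 x).2 (hnd _ (by omega) (by omega) (by omega))
    · omega
    · omega
  · -- the other cases
    have hk : kE m i σ = 0 := by
      unfold kE
      rw [if_neg hF]
    rw [hk, pow_zero, one_mul]
    obtain ⟨b1, hb1, hb2⟩ : ∃ b1, Fc σ b1 ∧ ¬ ((m : ℤ) + 1) ∣ b1 - (i + 1) := by
      by_contra hcon
      push Not at hcon
      apply hF
      intro b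
      refine ⟨hcon b, ?_⟩
      intro hb
      obtain ⟨b', hb'⟩ := Fc_nonempty he σ
      obtain ⟨k', hk'⟩ := hcon b' hb'
      obtain ⟨k, hk⟩ := hb
      have h1 := (Fc_per he σ b' (k - k')).2 hb'
      have e : b' + (k - k') * ((m : ℤ) + 1) = b := by
        have e1 : b' = ((m : ℤ) + 1) * k' + (i + 1) := by omega
        have e2 : b = ((m : ℤ) + 1) * k + (i + 1) := by omega
        rw [e1, e2]; ring
      rw [e] at h1
      exact h1
    obtain ⟨b0, hb0, hb3, hb4⟩ : ∃ b0, Fc σ b0 ∧ b0 ≤ i ∧ i + 2 ≤ b0 + ((m : ℤ) + 1) := by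
      refine ⟨b1 + ((i + 1 - b1) / ((m : ℤ) + 1)) * ((m : ℤ) + 1), (Fc_per he σ _ _).2 hb1, ?_, ?_⟩
      · have h1 := Int.emod_add_mul_ediv (i + 1 - b1) ((m : ℤ) + 1)
        have h2 := Int.emod_nonneg (i + 1 - b1) (show (m : ℤ) + 1 ≠ 0 by omega)
        have h3 : (i + 1 - b1) % ((m : ℤ) + 1) ≠ 0 := by
          intro h3
          apply hb2
          have := Int.dvd_of_emod_eq_zero h3
          have h4 : b1 - (i + 1) = -(i + 1 - b1) := by ring
          rw [h4]
          exact (dvd_neg).2 this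
        rw [mul_comm] at h1
        omega
      · have h1 := Int.emod_add_mul_ediv (i + 1 - b1) ((m : ℤ) + 1)
        have h2 := Int.emod_lt_of_pos (i + 1 - b1) (show 0 < (m : ℤ) + 1 by omega)
        rw [mul_comm] at h1
        omega
    have hmin := (Fc_iff_min he σ H hH b0).1 hb0
    have hnd : ∀ x : ℤ, x ≠ 0 → -((m : ℤ) + 1) < x → x < (m : ℤ) + 1 → ¬ ((m : ℤ) + 1) ∣ x :=
      fun x hx h1 h2 h3 => hx (t1_dvd (by omega) h1 h2 h3)
    have W : t1_Win ((m : ℤ) + 1) b0 i H (cl t)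
        (fun b => cl (t1_u t (ix m i) (ix m (i + 1)) b)) := by
      refine ⟨hst, hmin, hper b0, hb3, hb4, ?_, hU1, hU2⟩
      intro b x h1 h2 h3 h4
      exact t1_cl_u hm i t b x (hnd _ (by omega) (by omega) (by omega))
        (hnd _ (by omega) (by omega) (by omega))
    rw [t1_ThW he q ζ _ σ hH b0, t1_ThW he q ζ _ σ hH b0, t1_ThW he q ζ t (E m i σ) hH' b0]
    rcases hcase with ⟨c1, c2, c3⟩ | ⟨c1, c2, c3⟩ | ⟨c1, c2, A, c3, c4, c5⟩ | ⟨c1, c2, A, c3, c4, c5⟩
    · exact t1_caseTF q hq ζ W (by omega) (by omega) c3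
    · refine t1_caseFT q hq ζ W (by omega) (by omega) ((c3 _).1 (by simp)) ?_
      intro x h1 h2 h3
      exact (c3 x).2 (hnd _ (by omega) (by omega) (by omega))
    · have hAN := W.le (by omega) c3
      refine t1_caseTT q hq ζ W (by omega) (by omega) c3 ?_ ?_
      · intro x h1 h2 h3 h4
        exact (c5 x).1 ⟨0, by omega, by omega⟩
      · intro x h1 h2 h3
        refine (c5 x).2 ?_
        rintro ⟨k, h4, h5⟩
        rcases t1_kN (show 0 < (m : ℤ) + 1 by omega) k with ⟨-, h6⟩ | h6 | h6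
        · exact h3 ⟨by omega, by omega⟩
        · omega
        · omega
    · have hAb : b0 ≤ A := by
        by_contra hcon
        have := c3.2.2 b0 (by omega) (by omega)
        have := hmin A
        omega
      refine t1_caseFF q hq ζ W (by omega) (by omega) c3 hAb ?_ ?_
      · intro x h1 h2 h3 h4
        exact (c5 x).1 ⟨0, by omega, by omega⟩
      · intro x h1 h2 h3
        refine (c5 x).2 ?_
        rintro ⟨k, h4, h5⟩
        rcases t1_kN (show 0 < (m : ℤ) + 1 by omega) k with ⟨-, h6⟩ | h6 | h6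
        · exact h3 ⟨by omega, by omega⟩
        · omega
        · omega

end ring

/-- **`ThW` intertwines the Temperley-Lieb generators** -/
theorem eV_ThW {R : Type*} [CommRing R] {m : ℕ} (he : Even (m + 1)) (i : ℕ) (q : R)
    (hq : q ^ 2 + q + 1 = 0) (ζ : Rˣ) (t : Fin (m + 1) → Bool) (σ : Wd (m + 1)) :
    (H906K.eV m i q ζ * ThW m q ζ) t σ
      = (((ζ ^ (m + 1) : Rˣ) : R) + (((ζ⁻¹) ^ (m + 1) : Rˣ) : R)) ^ kE m i σ *
          ThW m q ζ t (E m i σ) := by
  have hm : 1 ≤ m := by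
    obtain ⟨r, hr⟩ := he
    omega
  have key := t1_key he i q hq ζ t σ
  by_cases ht : t (ix m i) = t (ix m (i + 1))
  · have h0 : (H906K.eV m i q ζ * ThW m q ζ) t σ = 0 := t1_mul_zero i q ζ _ t σ ht
    rw [h0, ← key, t1_aw, if_pos ht, zero_mul]
  · have h1 := t1_mul hm i q ζ (ThW m q ζ) t σ ht
    rw [h1, t1_cup q ζ ht]
    exact key

end H906C
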