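import Pool.Agent.H906R3.CY.Defs
import Pool.Agent.H906R3.CY.W1b

/-!
# T2: rotations and spin
-/

namespace H906C
open Pool.Agent.H863R2.Cyl
open Pool.Agent.H863R2.Cyl.Sem1Aux (Inc RH Cons)
open Pool.Agent.H988R2.Perc (Word)

/-! ### arcs and heights -/

theorem t2_arc {w : Word} {H : ℤ → ℤ} (h : Inc (sg w) H) (x y : ℤ) :
    Arc w x y ↔ (x < y ∧ H (y + 1) = H x ∧ ∀ l, x < l → l ≤ y → H x < H l) := by
  unfold Arc
  constructor
  · rintro ⟨h1, h2, h3⟩
    rw [Sem1Aux.Sh_eq h x (y + 1) (by omega)] at h2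
    refine ⟨h1, by omega, fun l hl hl' => ?_⟩
    have := h3 l hl hl'
    rw [Sem1Aux.Sh_eq h x l hl.le] at this
    omega
  · rintro ⟨h1, h2, h3⟩
    refine ⟨h1, ?_, fun l hl hl' => ?_⟩
    · rw [Sem1Aux.Sh_eq h x (y + 1) (by omega)]
      omega
    · rw [Sem1Aux.Sh_eq h x l hl.le]
      have := h3 l hl hl'
      omega

theorem t2_translate (w w' : Word) (n : ℤ) (h : ∀ j, sg w' (j + n) = sg w j) (x y : ℤ) :
    Arc w' (x + n) (y + n) ↔ Arc w x y := by
  obtain ⟨H, hH, _⟩ := Sem1Aux.exists_ht (sg w')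
  have hH' : Inc (sg w) (fun x => H (x + n)) := by
    intro x
    have := hH (x + n)
    show H (x + 1 + n) = H (x + n) + sg w x
    rw [← h x, ← this]
    congr 1
    ring
  rw [t2_arc hH, t2_arc hH']
  constructor
  · rintro ⟨h1, h2, h3⟩
    refine ⟨by omega, ?_, fun l hl hl' => h3 (l + n) (by omega) (by omega)⟩
    show H (y + 1 + n) = H (x + n)
    rw [← h2]
    congr 1
    ring
  · rintro ⟨h1, h2, h3⟩
    refine ⟨by omega, ?_, fun l hl hl' => ?_⟩
    · rw [← h2]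
      show _ = H (y + 1 + n)
      congr 1
      ring
    · have := h3 (l - n) (by omega) (by omega)
      simpa using this

theorem t2_per {m : ℕ} (σ : Wd (m + 1)) (x y k : ℤ) :
    Arc σ.1 (x + k * (m + 1)) (y + k * (m + 1)) ↔ Arc σ.1 x y := by
  apply t2_translate
  intro j
  have h := Sem1Aux.sg_per σ.1 j k
  rw [σ.2.1] at h
  push_cast at h
  exact h

theorem t2_rotr {m : ℕ} (σ : Wd (m + 1)) (x y : ℤ) :
    Arc (rot m σ).1 (x + 1) (y + 1) ↔ Arc σ.1 x y := by
  rw [rot_val]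
  apply t2_translate
  intro j
  unfold rotr
  rw [Sem1Aux.sg_rotate]
  have hl : 0 < σ.1.length := by rw [σ.2.1]; omega
  have e : j + 1 + ((σ.1.length - 1 : ℕ) : ℤ) = j + 1 * σ.1.length := by
    have : ((σ.1.length - 1 : ℕ) : ℤ) = σ.1.length - 1 := by omega
    rw [this]; ring
  rw [e, Sem1Aux.sg_per]

theorem t2_sg (w : Word) (x : ℤ) : sg w x = 1 ∨ sg w x = -1 := by
  unfold sg
  split_ifs
  · exact Or.inl rfl
  · exact Or.inr rfl

theorem t2_open {w : Word} {x y : ℤ} (h : Arc w x y) : sg w x = 1 := by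
  obtain ⟨H, hH, _⟩ := Sem1Aux.exists_ht (sg w)
  rw [t2_arc hH] at h
  obtain ⟨h1, h2, h3⟩ := h
  have h4 := h3 (x + 1) (by omega) (by omega)
  have h5 := hH x
  rcases t2_sg w x with h6 | h6
  · exact h6
  · omega

theorem t2_close {w : Word} {x y : ℤ} (h : Arc w x y) : sg w y = -1 := by
  obtain ⟨H, hH, _⟩ := Sem1Aux.exists_ht (sg w)
  rw [t2_arc hH] at h
  obtain ⟨h1, h2, h3⟩ := h
  have h4 := h3 y (by omega) (by omega)
  have h5 := hH y
  rcases t2_sg w y with h6 | h6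
  · omega
  · exact h6

theorem t2_uniqR {w : Word} {x y y' : ℤ} (h : Arc w x y) (h' : Arc w x y') : y = y' := by
  obtain ⟨H, hH, _⟩ := Sem1Aux.exists_ht (sg w)
  rw [t2_arc hH] at h h'
  obtain ⟨h1, h2, h3⟩ := h
  obtain ⟨h1', h2', h3'⟩ := h'
  rcases lt_trichotomy y y' with h | h | h
  · have := h3' (y + 1) (by omega) (by omega)
    omega
  · exact h
  · have := h3 (y' + 1) (by omega) (by omega)
    omega

theorem t2_uniqL {w : Word} {x x' y : ℤ} (h : Arc w x y) (h' : Arc w x' y) : x = x' := by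
  obtain ⟨H, hH, _⟩ := Sem1Aux.exists_ht (sg w)
  rw [t2_arc hH] at h h'
  obtain ⟨h1, h2, h3⟩ := h
  obtain ⟨h1', h2', h3'⟩ := h'
  rcases lt_trichotomy x x' with h | h | h
  · have := h3 x' (by omega) (by omega)
    omega
  · exact h
  · have := h3' x (by omega) (by omega)
    omega

/-- the partner of an opening strand -/
theorem t2_exR {m : ℕ} (he : Even (m + 1)) (σ : Wd (m + 1)) (x : ℤ) (h : sg σ.1 x = 1) :
    ∃ l : ℕ, l < m + 1 ∧ Arc σ.1 x (x + l) := by
  classical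
  obtain ⟨H, hH, _⟩ := Sem1Aux.exists_ht (sg σ.1)
  have hper := ht_per he σ H hH x
  have hex : ∃ l : ℕ, 0 < l ∧ H (x + l) = H x := ⟨m + 1, by omega, by push_cast; exact hper⟩
  obtain ⟨hl0, hl1⟩ := Nat.find_spec hex
  have hmin : ∀ l : ℕ, l < Nat.find hex → 0 < l → H (x + l) ≠ H x := fun l hl h0 h1 =>
    Nat.find_min hex hl ⟨h0, h1⟩
  have hle : Nat.find hex ≤ m + 1 := Nat.find_min' hex ⟨by omega, by push_cast; exact hper⟩
  generalize Nat.find hex = L at *
  have hx1 := hH x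
  have hpos : ∀ l : ℕ, 0 < l → l < L → H x < H (x + l) := by
    intro l
    induction l with
    | zero => intro h0; omega
    | succ l ih =>
      intro _ hl
      rcases Nat.eq_zero_or_pos l with h0 | h0
      · subst h0
        push_cast
        omega
      · have h1 := ih h0 (by omega)
        have h2 := hmin (l + 1) hl (by omega)
        have h3 := hH (x + l)
        have h4 := t2_sg σ.1 (x + l)
        have e : x + ((l + 1 : ℕ) : ℤ) = x + l + 1 := by push_cast; ring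
        rw [e] at h2 ⊢
        rcases h4 with h4 | h4 <;> omega
  have hL2 : 2 ≤ L := by
    by_contra hcon
    have : L = 1 := by omega
    subst this
    push_cast at hl1
    omega
  refine ⟨L - 1, by omega, ?_⟩
  rw [t2_arc hH]
  have e : ((L - 1 : ℕ) : ℤ) = (L : ℤ) - 1 := by omega
  rw [e]
  refine ⟨by omega, ?_, fun l hl hl' => ?_⟩
  · rw [← hl1]
    congr 1
    ring
  · have := hpos (l - x).toNat (by omega) (by omega)
    have e2 : x + ((l - x).toNat : ℤ) = l := by omega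
    rwa [e2] at this

/-- the partner of a closing strand -/
theorem t2_exL {m : ℕ} (he : Even (m + 1)) (σ : Wd (m + 1)) (y : ℤ) (h : sg σ.1 y = -1) :
    ∃ l : ℕ, l < m + 1 ∧ Arc σ.1 (y - l) y := by
  classical
  obtain ⟨H, hH, _⟩ := Sem1Aux.exists_ht (sg σ.1)
  have hper := ht_per he σ H hH (y + 1 - (m + 1))
  rw [sub_add_cancel] at hper
  have hex : ∃ l : ℕ, 0 < l ∧ H (y + 1 - l) = H (y + 1) :=
    ⟨m + 1, by omega, by push_cast; exact hper.symm⟩
  obtain ⟨hl0, hl1⟩ := Nat.find_spec hex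
  have hmin : ∀ l : ℕ, l < Nat.find hex → 0 < l → H (y + 1 - l) ≠ H (y + 1) := fun l hl h0 h1 =>
    Nat.find_min hex hl ⟨h0, h1⟩
  have hle : Nat.find hex ≤ m + 1 :=
    Nat.find_min' hex ⟨by omega, by push_cast; exact hper.symm⟩
  generalize Nat.find hex = L at *
  have hy1 := hH y
  have hpos : ∀ l : ℕ, 0 < l → l < L → H (y + 1) < H (y + 1 - l) := by
    intro l
    induction l with
    | zero => intro h0; omega
    | succ l ih =>
      intro _ hl
      rcases Nat.eq_zero_or_pos l with h0 | h0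
      · subst h0
        push_cast
        rw [show y + 1 - 1 = y by ring]
        omega
      · have h1 := ih h0 (by omega)
        have h2 := hmin (l + 1) hl (by omega)
        have h3 := hH (y + 1 - ((l + 1 : ℕ) : ℤ))
        have h4 := t2_sg σ.1 (y + 1 - ((l + 1 : ℕ) : ℤ))
        have e : y + 1 - ((l + 1 : ℕ) : ℤ) + 1 = y + 1 - l := by push_cast; ring
        rw [e] at h3
        rcases h4 with h4 | h4 <;> omega
  have hL2 : 2 ≤ L := by
    by_contra hcon
    have : L = 1 := by omega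
    subst this
    push_cast at hl1
    rw [show y + 1 - 1 = y by ring] at hl1
    omega
  refine ⟨L - 1, by omega, ?_⟩
  rw [t2_arc hH]
  have e : ((L - 1 : ℕ) : ℤ) = (L : ℤ) - 1 := by omega
  have e' : y - ((L : ℤ) - 1) = y + 1 - L := by ring
  rw [e, e']
  refine ⟨by omega, hl1.symm, fun l hl hl' => ?_⟩
  have := hpos (y + 1 - l).toNat (by omega) (by omega)
  have e2 : y + 1 - ((y + 1 - l).toNat : ℤ) = l := by omega
  rw [e2] at this
  omega

/-! ### the matching of the strands modulo `m+1` -/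

/-- the strand `x` opens an arc closed at `y` modulo `m+1` -/
def t2_P {m : ℕ} (σ : Wd (m + 1)) (x y : Fin (m + 1)) : Prop :=
  ∃ l : ℕ, l < m + 1 ∧ Arc σ.1 (x.val : ℤ) ((x.val : ℤ) + l) ∧ y = ix m (x.val + l)

theorem t2_ixv (m i : ℕ) : ∃ k : ℤ, ((ix m i).val : ℤ) = (i : ℤ) + k * (m + 1) := by
  refine ⟨-((i / (m + 1) : ℕ) : ℤ), ?_⟩
  show ((i % (m + 1) : ℕ) : ℤ) = _
  have h := Nat.mod_add_div i (m + 1)
  have h' : ((i % (m + 1) : ℕ) : ℤ) + ((m : ℤ) + 1) * ((i / (m + 1) : ℕ) : ℤ) = i := by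
    exact_mod_cast h
  linear_combination h'

theorem t2_Pint {m : ℕ} {σ : Wd (m + 1)} {x y : Fin (m + 1)} (h : t2_P σ x y) :
    ∃ k : ℤ, Arc σ.1 (x.val : ℤ) ((y.val : ℤ) + k * (m + 1)) := by
  obtain ⟨l, _, h2, h3⟩ := h
  obtain ⟨k, hk⟩ := t2_ixv m (x.val + l)
  refine ⟨-k, ?_⟩
  rw [h3, hk]
  have e : ((x.val + l : ℕ) : ℤ) + k * (m + 1) + -k * (m + 1) = (x.val : ℤ) + l := by
    push_cast; ring
  rw [e]
  exact h2

theorem t2_fin_eq {m : ℕ} {x y : Fin (m + 1)} (k : ℤ)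
    (h : (x.val : ℤ) = (y.val : ℤ) + k * (m + 1)) : x = y := by
  have hx := x.isLt
  have hy := y.isLt
  have hk : k = 0 := by
    by_contra hne
    rcases lt_or_gt_of_ne hne with h1 | h1
    · have : k * ((m : ℤ) + 1) ≤ -1 * (m + 1) := by
        apply mul_le_mul_of_nonneg_right (by omega) (by omega)
      omega
    · have : 1 * ((m : ℤ) + 1) ≤ k * (m + 1) := by
        apply mul_le_mul_of_nonneg_right (by omega) (by omega)
      omega
  rw [hk] at h
  apply Fin.ext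
  omega

theorem t2_P_open {m : ℕ} {σ : Wd (m + 1)} {x y : Fin (m + 1)} (h : t2_P σ x y) :
    sg σ.1 x.val = 1 := by
  obtain ⟨l, _, h2, _⟩ := h
  exact t2_open h2

theorem t2_P_close {m : ℕ} {σ : Wd (m + 1)} {x y : Fin (m + 1)} (h : t2_P σ x y) :
    sg σ.1 y.val = -1 := by
  obtain ⟨k, hk⟩ := t2_Pint h
  have h1 := t2_close hk
  have h2 := Sem1Aux.sg_per σ.1 (y.val : ℤ) k
  rw [σ.2.1] at h2
  push_cast at h2
  rw [h2] at h1
  exact h1

theorem t2_P_R {m : ℕ} {σ : Wd (m + 1)} {x y y' : Fin (m + 1)} (h : t2_P σ x y)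
    (h' : t2_P σ x y') : y = y' := by
  obtain ⟨k, hk⟩ := t2_Pint h
  obtain ⟨k', hk'⟩ := t2_Pint h'
  have h1 := t2_uniqR hk hk'
  exact t2_fin_eq (k' - k) (by linear_combination h1)

theorem t2_P_L {m : ℕ} {σ : Wd (m + 1)} {x x' y : Fin (m + 1)} (h : t2_P σ x y)
    (h' : t2_P σ x' y) : x = x' := by
  obtain ⟨k, hk⟩ := t2_Pint h
  obtain ⟨k', hk'⟩ := t2_Pint h'
  have h2 := (t2_per σ (x.val : ℤ) ((y.val : ℤ) + k * (m + 1)) (k' - k)).2 hk
  have e : (y.val : ℤ) + k * (m + 1) + (k' - k) * (m + 1) = (y.val : ℤ) + k' * (m + 1) := by ring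
  rw [e] at h2
  have h3 := t2_uniqL h2 hk'
  exact t2_fin_eq (-(k' - k)) (by linear_combination h3)

theorem t2_P_exR {m : ℕ} (he : Even (m + 1)) (σ : Wd (m + 1)) (x : Fin (m + 1))
    (h : sg σ.1 x.val = 1) : ∃ y, t2_P σ x y := by
  obtain ⟨l, h1, h2⟩ := t2_exR he σ x.val h
  exact ⟨_, l, h1, h2, rfl⟩

theorem t2_P_exL {m : ℕ} (he : Even (m + 1)) (σ : Wd (m + 1)) (y : Fin (m + 1))
    (h : sg σ.1 y.val = -1) : ∃ x, t2_P σ x y := by
  obtain ⟨l, h1, h2⟩ := t2_exL he σ y.val h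
  have hy := y.isLt
  by_cases hyl : l ≤ y.val
  · refine ⟨⟨y.val - l, by omega⟩, l, h1, ?_, ?_⟩
    · have e : (((⟨y.val - l, by omega⟩ : Fin (m + 1)).val : ℕ) : ℤ) = (y.val : ℤ) - l := by
        show ((y.val - l : ℕ) : ℤ) = _
        omega
      rw [e, sub_add_cancel]
      exact h2
    · apply Fin.ext
      show y.val = (y.val - l + l) % (m + 1)
      rw [Nat.sub_add_cancel hyl, Nat.mod_eq_of_lt hy]
  · refine ⟨⟨y.val + (m + 1) - l, by omega⟩, l, h1, ?_, ?_⟩
    · have e : (((⟨y.val + (m + 1) - l, by omega⟩ : Fin (m + 1)).val : ℕ) : ℤ) =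
          (y.val : ℤ) - l + 1 * (m + 1) := by
        show ((y.val + (m + 1) - l : ℕ) : ℤ) = _
        omega
      have e2 : (y.val : ℤ) - l + 1 * (m + 1) + l = (y.val : ℤ) + 1 * (m + 1) := by ring
      rw [e, e2, t2_per]
      exact h2
    · apply Fin.ext
      show y.val = (y.val + (m + 1) - l + l) % (m + 1)
      rw [Nat.sub_add_cancel (by omega), Nat.add_mod_right, Nat.mod_eq_of_lt hy]

theorem t2_spin0 {m : ℕ} (he : Even (m + 1)) (σ : Wd (m + 1)) (s : Fin (m + 1) → Bool)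
    (h : ∀ x y, t2_P σ x y → s x ≠ s y) : H906K.spin s = 0 := by
  classical
  have hex : ∀ x : Fin (m + 1), ∃ y, t2_P σ x y ∨ t2_P σ y x := by
    intro x
    rcases t2_sg σ.1 (x.val : ℤ) with h1 | h1
    · obtain ⟨y, hy⟩ := t2_P_exR he σ x h1
      exact ⟨y, Or.inl hy⟩
    · obtain ⟨y, hy⟩ := t2_P_exL he σ x h1
      exact ⟨y, Or.inr hy⟩
  choose g hg using hex
  have huniq : ∀ x y y' : Fin (m + 1), (t2_P σ x y ∨ t2_P σ y x) →
      (t2_P σ x y' ∨ t2_P σ y' x) → y = y' := by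
    rintro x y y' (h1 | h1) (h2 | h2)
    · exact t2_P_R h1 h2
    · have h3 := t2_P_open h1
      have h4 := t2_P_close h2
      omega
    · have h3 := t2_P_close h1
      have h4 := t2_P_open h2
      omega
    · exact t2_P_L h1 h2
  have hne : ∀ x, s x ≠ s (g x) := by
    intro x
    rcases hg x with h1 | h1
    · exact h _ _ h1
    · exact (h _ _ h1).symm
  unfold H906K.spin
  refine Finset.sum_involution (fun a _ => g a) ?_ ?_ (fun a _ => Finset.mem_univ _) ?_
  · intro a _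
    have h3 := hne a
    cases ha1 : s a <;> cases ha2 : s (g a) <;> simp_all
  · intro a _ _ hcon
    have h3 := hne a
    rw [hcon] at h3
    exact h3 rfl
  · intro a _
    exact huniq (g a) (g (g a)) a (hg (g a)) (hg a).symm

section ring
variable {R : Type*} [CommRing R]

theorem ThW_spin {R : Type*} [CommRing R] {m : ℕ} (he : Even (m + 1)) (q : R) (ζ : Rˣ)
    (s : Fin (m + 1) → Bool) (σ : Wd (m + 1)) (h : H906K.spin s ≠ 0) : ThW m q ζ s σ = 0 := by
  classical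
  by_contra hne
  apply h
  apply t2_spin0 he σ s
  rintro x y ⟨l, h1, h2, h3⟩ hxy
  apply hne
  unfold ThW
  apply Finset.prod_eq_zero (i := x.val) (Finset.mem_range.2 x.isLt)
  apply Finset.prod_eq_zero (i := l) (Finset.mem_range.2 h1)
  rw [if_pos h2]
  have e : ix m x.val = x := Fin.ext (Nat.mod_eq_of_lt x.isLt)
  unfold aw
  rw [e, ← h3, if_pos hxy]

theorem t2_prod_shift (m : ℕ) (F : ℕ → R) (hF : F (m + 1) = F 0) :
    ∏ i ∈ Finset.range (m + 1), F (i + 1) = ∏ i ∈ Finset.range (m + 1), F i := by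
  rw [Finset.prod_range_succ, Finset.prod_range_succ' F, hF]

theorem t2_ix_rot (m i : ℕ) : finRotate (m + 1) (ix m i) = ix m (i + 1) := by
  rw [finRotate_apply]
  apply Fin.ext
  rw [Fin.val_add]
  show (i % (m + 1) + (1 : Fin (m + 1)).val) % (m + 1) = (i + 1) % (m + 1)
  rw [Fin.val_one', ← Nat.add_mod]

theorem t2_ix_per (m i : ℕ) : ix m (i + (m + 1)) = ix m i := by
  apply Fin.ext
  exact Nat.add_mod_right i (m + 1)

theorem t2_ThW {m : ℕ} (q : R) (ζ : Rˣ) (t : Fin (m + 1) → Bool) (σ : Wd (m + 1)) :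
    ThW m q ζ (fun k => t (finRotate (m + 1) k)) σ = ThW m q ζ t (rot m σ) := by
  classical
  unfold ThW
  rw [← t2_prod_shift m (fun i => ∏ l ∈ Finset.range (m + 1),
    if Arc (rot m σ).1 (i : ℤ) ((i : ℤ) + (l : ℤ)) then
      aw q ζ l (t (ix m i)) (t (ix m (i + l))) else 1)]
  · refine Finset.prod_congr rfl fun i _ => ?_
    refine Finset.prod_congr rfl fun l _ => ?_
    have h1 : Arc (rot m σ).1 ((i + 1 : ℕ) : ℤ) (((i + 1 : ℕ) : ℤ) + (l : ℤ)) ↔
        Arc σ.1 (i : ℤ) ((i : ℤ) + (l : ℤ)) := by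
      rw [← t2_rotr σ (i : ℤ) ((i : ℤ) + (l : ℤ))]
      have e : (((i + 1 : ℕ) : ℤ) + (l : ℤ)) = (i : ℤ) + (l : ℤ) + 1 := by push_cast; ring
      have e' : ((i + 1 : ℕ) : ℤ) = (i : ℤ) + 1 := by push_cast; ring
      rw [e, e']
    have h2 : i + 1 + l = i + l + 1 := by ring
    beta_reduce
    rw [t2_ix_rot, t2_ix_rot, h2]
    by_cases h3 : Arc σ.1 (i : ℤ) ((i : ℤ) + (l : ℤ))
    · rw [if_pos h3, if_pos (h1.2 h3)]
    · rw [if_neg h3, if_neg (fun h => h3 (h1.1 h))]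
  · show (∏ l ∈ Finset.range (m + 1), _) = ∏ l ∈ Finset.range (m + 1), _
    refine Finset.prod_congr rfl fun l _ => ?_
    have h1 : Arc (rot m σ).1 ((m + 1 : ℕ) : ℤ) (((m + 1 : ℕ) : ℤ) + (l : ℤ)) ↔
        Arc (rot m σ).1 ((0 : ℕ) : ℤ) (((0 : ℕ) : ℤ) + (l : ℤ)) := by
      rw [← t2_per (rot m σ) ((0 : ℕ) : ℤ) (((0 : ℕ) : ℤ) + (l : ℤ)) 1]
      have e : ((0 : ℕ) : ℤ) + 1 * ((m : ℤ) + 1) = ((m + 1 : ℕ) : ℤ) := by push_cast; ring
      have e' : ((0 : ℕ) : ℤ) + (l : ℤ) + 1 * ((m : ℤ) + 1) = ((m + 1 : ℕ) : ℤ) + (l : ℤ) := by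
        push_cast; ring
      rw [e, e']
    have h2 : ix m (m + 1) = ix m 0 := by
      have := t2_ix_per m 0
      rwa [zero_add] at this
    have h3 : ix m (m + 1 + l) = ix m (0 + l) := by
      have := t2_ix_per m l
      rw [show m + 1 + l = l + (m + 1) by ring, this, zero_add]
    rw [h2, h3]
    by_cases h4 : Arc (rot m σ).1 ((0 : ℕ) : ℤ) (((0 : ℕ) : ℤ) + (l : ℤ))
    · rw [if_pos h4, if_pos (h1.2 h4)]
    · rw [if_neg h4, if_neg (fun h => h4 (h1.1 h))]

theorem rotM_ThW {R : Type*} [CommRing R] {m : ℕ} (he : Even (m + 1)) (q : R) (ζ : Rˣ)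
    (t : Fin (m + 1) → Bool) (σ : Wd (m + 1)) :
    (H906K.rotM m ζ * ThW m q ζ) t σ = ThW m q ζ t (rot m σ) := by
  rw [Matrix.mul_apply, Finset.sum_eq_single (fun k => t (finRotate (m + 1) k))]
  · have h1 : H906K.rotM m ζ t (fun k => t (finRotate (m + 1) k)) =
        ((ζ ^ H906K.spin (fun k => t (finRotate (m + 1) k)) : Rˣ) : R) := by
      unfold H906K.rotM
      rw [if_pos (fun k => rfl)]
    rw [h1]
    by_cases hs : H906K.spin (fun k => t (finRotate (m + 1) k)) = 0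
    · rw [hs, zpow_zero, Units.val_one, one_mul, t2_ThW]
    · rw [ThW_spin he q ζ _ σ hs, mul_zero, ← t2_ThW, ThW_spin he q ζ _ σ hs]
  · intro s _ hs
    have h1 : H906K.rotM m ζ t s = 0 := by
      unfold H906K.rotM
      rw [if_neg]
      intro h
      exact hs (funext fun k => (h k).symm)
    rw [h1, zero_mul]
  · intro h
    exact absurd (Finset.mem_univ _) h

theorem rotMi_ThW {R : Type*} [CommRing R] {m : ℕ} (he : Even (m + 1)) (q : R) (ζ : Rˣ)
    (t : Fin (m + 1) → Bool) (σ : Wd (m + 1)) :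
    (H906K.rotMi m ζ * ThW m q ζ) t σ = ThW m q ζ t (rotInv m σ) := by
  rw [Matrix.mul_apply, Finset.sum_eq_single (fun k => t ((finRotate (m + 1)).symm k))]
  · have h1 : H906K.rotMi m ζ t (fun k => t ((finRotate (m + 1)).symm k)) =
        ((ζ ^ (-H906K.spin (fun k => t ((finRotate (m + 1)).symm k))) : Rˣ) : R) := by
      unfold H906K.rotMi
      rw [if_pos (fun k => by simp)]
    have h2 : ThW m q ζ t (rotInv m σ) =
        ThW m q ζ (fun k => t ((finRotate (m + 1)).symm k)) σ := by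
      have h3 := t2_ThW q ζ (fun k => t ((finRotate (m + 1)).symm k)) (rotInv m σ)
      rw [rot_rotInv] at h3
      rw [← h3]
      congr 1
      funext k
      simp
    rw [h1, h2]
    by_cases hs : H906K.spin (fun k => t ((finRotate (m + 1)).symm k)) = 0
    · rw [hs, neg_zero, zpow_zero, Units.val_one, one_mul]
    · rw [ThW_spin he q ζ _ σ hs, mul_zero]
  · intro s _ hs
    have h1 : H906K.rotMi m ζ t s = 0 := by
      unfold H906K.rotMi
      rw [if_neg]
      intro h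
      apply hs
      funext k
      rw [h]
      simp
    rw [h1, zero_mul]
  · intro h
    exact absurd (Finset.mem_univ _) h

end ring

end H906C
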