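import Pool.Agent.H906R3.CY.Defs
import Pool.Agent.H906R3.CY.W1
import Pool.Agent.H906R3.CY.W1b
import Pool.Agent.H863R2.Cyl.Rel

/-! # W2: `Fc` and the Temperley-Lieb generators -/

namespace H906C
open Pool.Agent.H863R2.Cyl
open Pool.Agent.H863R2.Cyl.Sem1Aux (Inc RH Cons)
open Pool.Agent.H988R2.Perc (Word)

/-- periodicity along multiples -/
theorem w2_per {m : ℕ} (H : ℤ → ℤ) (h : ∀ x, H (x + (m + 1)) = H x) (x k : ℤ) :
    H (x - k * (m + 1)) = H x := by
  induction k using Int.induction_on with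
  | zero => simp
  | succ n ih =>
    rw [← h, ← ih]
    congr 1
    ring
  | pred n ih =>
    rw [← ih, ← h (x - (-(n : ℤ)) * (m + 1))]
    congr 1
    ring

/-- summary of the action on height functions -/
theorem w2_core {m : ℕ} (he : Even (m + 1)) (i : ℕ) (σ : Wd (m + 1)) :
    ∃ H H' : ℤ → ℤ, Inc (sg σ.1) H ∧ Inc (sg (E m i σ).1) H' ∧
      (H' (i + 1) = H' i + 1 ∧ H' (i + 2) = H' i) ∧
      (∃ f : ℤ, (f = i ∨ f = i + 2) ∧ ∀ x, H' x = H x ∨
        (H' x = H x + 2 ∧ ((m : ℤ) + 1) ∣ x - (i + 1)) ∨ (H' x = H x - 2 ∧ H f + 2 ≤ H x)) ∧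
      ((∀ x, H (i + 1) ≤ H x) → (∀ x, (((m : ℤ) + 1) ∣ x - (i + 1) → H' x = H x + 2) ∧
          (¬ ((m : ℤ) + 1) ∣ x - (i + 1) → H' x = H x)) ∧ H i = H (i + 1) + 1 ∧
          H (i + 2) = H (i + 1) + 1) := by
  obtain ⟨H, hH, -⟩ := Sem1Aux.exists_ht (sg σ.1)
  have hlen : σ.1.length = m + 1 := σ.2.1
  have hm : 1 ≤ m := by
    rcases Nat.eq_zero_or_pos m with h | h
    · subst h; exact absurd he (by decide)
    · exact h
  obtain ⟨H', hH', hc⟩ := act_ht σ.2.2 (by omega) (by rw [hlen]; exact he) i H hH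
  have hper := ht_per he σ H hH
  rw [hlen] at hc
  push_cast at hc
  refine ⟨H, H', hH, by rw [E_val]; exact hH', ?_⟩
  have h1 := hH i
  have h2 := hH (i + 1)
  have e2 : (i : ℤ) + 1 + 1 = i + 2 := by ring
  rw [e2] at h2
  have hP := w2_per H hper
  rcases hc with ⟨s1, s2, hx⟩ | ⟨s1, s2, hx⟩ | ⟨s1, s2, b, hb, hbl, hx⟩ | ⟨s1, s2, a, ha, hal, hx⟩
  · rw [s1] at h1
    rw [s2] at h2
    refine ⟨⟨?_, ?_⟩, ⟨i, Or.inl rfl, fun x => Or.inl (hx x)⟩, ?_⟩
    · rw [hx, hx]; omega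
    · rw [hx, hx]; omega
    · intro h
      have := h i
      omega
  · rw [s1] at h1
    rw [s2] at h2
    have n1 : ¬ ((m : ℤ) + 1) ∣ (i : ℤ) - (i + 1) := by
      intro h
      have : ((m : ℤ) + 1) ∣ 1 := by
        have := h.neg_right
        rwa [show -((i : ℤ) - (i + 1)) = 1 by ring] at this
      have := Int.le_of_dvd one_pos this
      omega
    have n2 : ¬ ((m : ℤ) + 1) ∣ (i : ℤ) + 2 - (i + 1) := by
      intro h
      rw [show (i : ℤ) + 2 - (i + 1) = 1 by ring] at h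
      have := Int.le_of_dvd one_pos h
      omega
    have d1 : ((m : ℤ) + 1) ∣ (i : ℤ) + 1 - (i + 1) := by simp
    refine ⟨⟨?_, ?_⟩, ⟨i, Or.inl rfl, fun x => ?_⟩, ?_⟩
    · rw [(hx _).1 d1, (hx _).2 n1]; omega
    · rw [(hx _).2 n2, (hx _).2 n1]; omega
    · by_cases h : ((m : ℤ) + 1) ∣ x - (i + 1)
      · exact Or.inr (Or.inl ⟨(hx x).1 h, h⟩)
      · exact Or.inl ((hx x).2 h)
    · intro _
      exact ⟨hx, by omega, by omega⟩
  · rw [s1] at h1
    rw [s2] at h2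
    obtain ⟨hb1, hb2, hb3⟩ := hb
    have hbb : (i : ℤ) + 2 ≤ b := by
      by_contra hcon
      have : b + 1 = i + 2 := by omega
      rw [this] at hb2
      omega
    have k0 : ¬ ∃ k : ℤ, (i : ℤ) + 1 < i - k * (m + 1) ∧ (i : ℤ) - k * (m + 1) ≤ b := by
      rintro ⟨k, hk1, hk2⟩
      have : k ≤ -1 := by
        by_contra hcon
        have : 0 ≤ k * ((m : ℤ) + 1) := mul_nonneg (by omega) (by omega)
        omega
      have : (m : ℤ) + 1 ≤ -k * (m + 1) := by nlinarith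
      nlinarith
    have k1 : ¬ ∃ k : ℤ, (i : ℤ) + 1 < i + 1 - k * (m + 1) ∧ (i : ℤ) + 1 - k * (m + 1) ≤ b := by
      rintro ⟨k, hk1, hk2⟩
      have : k ≤ -1 := by
        by_contra hcon
        have : 0 ≤ k * ((m : ℤ) + 1) := mul_nonneg (by omega) (by omega)
        omega
      have : (m : ℤ) + 1 ≤ -k * (m + 1) := by nlinarith
      nlinarith
    have k2 : ∃ k : ℤ, (i : ℤ) + 1 < i + 2 - k * (m + 1) ∧ (i : ℤ) + 2 - k * (m + 1) ≤ b :=
      ⟨0, by omega, by omega⟩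
    refine ⟨⟨?_, ?_⟩, ⟨i, Or.inl rfl, fun x => ?_⟩, ?_⟩
    · rw [(hx _).2 k1, (hx _).2 k0]; omega
    · rw [(hx _).1 k2, (hx _).2 k0]; omega
    · by_cases h : ∃ k : ℤ, (i : ℤ) + 1 < x - k * (m + 1) ∧ x - k * (m + 1) ≤ b
      · refine Or.inr (Or.inr ⟨(hx x).1 h, ?_⟩)
        obtain ⟨k, hk1, hk2⟩ := h
        have := hb3 (x - k * (m + 1)) hk1 (by omega)
        rw [hP] at this
        omega
      · exact Or.inl ((hx x).2 h)
    · intro h
      have := h i
      omega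
  · rw [s1] at h1
    rw [s2] at h2
    obtain ⟨ha1, ha2, ha3⟩ := ha
    have haa : a < i := by
      by_contra hcon
      have : a = i := by omega
      rw [this] at ha2
      omega
    have k2 : ¬ ∃ k : ℤ, a < i + 2 - k * (m + 1) ∧ (i : ℤ) + 2 - k * (m + 1) ≤ i := by
      rintro ⟨k, hk1, hk2⟩
      have : 1 ≤ k := by
        by_contra hcon
        have : 0 ≤ -k * ((m : ℤ) + 1) := mul_nonneg (by omega) (by omega)
        nlinarith
      have : (m : ℤ) + 1 ≤ k * (m + 1) := by nlinarith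
      omega
    have k1 : ¬ ∃ k : ℤ, a < i + 1 - k * (m + 1) ∧ (i : ℤ) + 1 - k * (m + 1) ≤ i := by
      rintro ⟨k, hk1, hk2⟩
      have : 1 ≤ k := by
        by_contra hcon
        have : 0 ≤ -k * ((m : ℤ) + 1) := mul_nonneg (by omega) (by omega)
        nlinarith
      have : (m : ℤ) + 1 ≤ k * (m + 1) := by nlinarith
      omega
    have k0 : ∃ k : ℤ, a < i - k * (m + 1) ∧ (i : ℤ) - k * (m + 1) ≤ i :=
      ⟨0, by omega, by omega⟩
    refine ⟨⟨?_, ?_⟩, ⟨i + 2, Or.inr rfl, fun x => ?_⟩, ?_⟩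
    · rw [(hx _).2 k1, (hx _).1 k0]; omega
    · rw [(hx _).2 k2, (hx _).1 k0]; omega
    · by_cases h : ∃ k : ℤ, a < x - k * (m + 1) ∧ x - k * (m + 1) ≤ i
      · refine Or.inr (Or.inr ⟨(hx x).1 h, ?_⟩)
        obtain ⟨k, hk1, hk2⟩ := h
        have := ha3 (x - k * (m + 1)) hk1 (by omega)
        rw [hP] at this
        omega
      · exact Or.inl ((hx x).2 h)
    · intro h
      have := h (i + 2)
      omega

theorem Fc_E_a {m i : ℕ} (he : Even (m + 1)) (σ : Wd (m + 1)) {b : ℤ} (h : Fc σ b)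
    (hb : ¬ ((m : ℤ) + 1) ∣ b - (i + 1)) : Fc (E m i σ) b := by
  obtain ⟨H, H', hH, hH', -, ⟨f, -, hf⟩, -⟩ := w2_core he i σ
  rw [Fc_iff_min he σ H hH] at h
  rw [Fc_iff_min he _ H' hH']
  have hbb : H' b = H b := by
    rcases hf b with h1 | h1 | h1
    · exact h1
    · exact absurd h1.2 hb
    · have := h f
      omega
  intro x
  rw [hbb]
  have hx := h x
  have hff := h f
  rcases hf x with h1 | h1 | h1 <;> omega

theorem Fc_E_b {m i : ℕ} (he : Even (m + 1)) (σ : Wd (m + 1)) :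
    Fc (E m i σ) i ↔ Fc (E m i σ) (i + 2) := by
  obtain ⟨H, H', hH, hH', h12, -, -⟩ := w2_core he i σ
  rw [Fc_iff_min he _ H' hH', Fc_iff_min he _ H' hH', h12.2]

theorem Fc_E_c {m i : ℕ} (he : Even (m + 1)) (σ : Wd (m + 1)) : ¬ Fc (E m i σ) (i + 1) := by
  obtain ⟨H, H', hH, hH', h12, -, -⟩ := w2_core he i σ
  rw [Fc_iff_min he _ H' hH']
  intro h
  have := h i
  omega

theorem Fc_E_d {m i : ℕ} (he : Even (m + 1)) (σ : Wd (m + 1)) (h1 : ¬ Fc σ i)
    (h2 : ¬ Fc σ (i + 2)) (hk : kE m i σ = 0) (b : ℤ) :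
    Fc (E m i σ) b ↔ (Fc σ b ∧ ¬ ((m : ℤ) + 1) ∣ b - (i + 1)) := by
  classical
  refine ⟨fun h => ?_, fun h => Fc_E_a he σ h.1 h.2⟩
  obtain ⟨H, H', hH, hH', h12, ⟨f, hff, hf⟩, -⟩ := w2_core he i σ
  have hper := ht_per he σ H hH
  have hper' := ht_per he _ H' hH'
  have hdvd : ¬ ((m : ℤ) + 1) ∣ b - (i + 1) := by
    rintro ⟨k, hk⟩
    have e : b - k * (m + 1) = i + 1 := by linarith
    have := w2_per H' hper' b k
    rw [e] at this
    rw [Fc_iff_min he _ H' hH'] at h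
    have := h i
    omega
  refine ⟨?_, hdvd⟩
  -- a minimal face outside the class of `i+1`
  have hex : ∃ b0 : ℤ, Fc σ b0 ∧ ¬ ((m : ℤ) + 1) ∣ b0 - (i + 1) := by
    by_contra hcon
    push Not at hcon
    obtain ⟨b1, hb1⟩ := Fc_nonempty he σ
    have hall : ∀ b : ℤ, Fc σ b ↔ ((m : ℤ) + 1) ∣ b - (i + 1) := by
      intro b'
      refine ⟨fun h' => hcon b' h', ?_⟩
      rintro ⟨k, hk'⟩
      obtain ⟨k1, hk1⟩ := hcon b1 hb1
      rw [Fc_iff_min he σ H hH] at hb1 ⊢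
      have e1 := w2_per H hper b' k
      have e2 := w2_per H hper b1 k1
      rw [show b' - k * ((m : ℤ) + 1) = i + 1 by linarith] at e1
      rw [show b1 - k1 * ((m : ℤ) + 1) = i + 1 by linarith] at e2
      intro x
      have := hb1 x
      omega
    unfold kE at hk
    rw [if_pos hall] at hk
    exact absurd hk (by norm_num)
  obtain ⟨b0, hb0, hb0'⟩ := hex
  have hE := Fc_E_a he σ hb0 hb0'
  rw [Fc_iff_min he _ H' hH'] at h hE
  rw [Fc_iff_min he σ H hH] at hb0 h1 h2 ⊢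
  have g0 : H' b0 = H b0 := by
    rcases hf b0 with g | g | g
    · exact g
    · exact absurd g.2 hb0'
    · have := hb0 f
      omega
  have gf : H b0 + 1 ≤ H f := by
    have hle := hb0 f
    rcases eq_or_lt_of_le hle with g | g
    · exfalso
      rcases hff with e | e
      · exact h1 (fun x => by rw [← e, ← g]; exact hb0 x)
      · exact h2 (fun x => by rw [← e, ← g]; exact hb0 x)
    · omega
  have hle := h b0
  have gb : H b = H b0 := by
    have := hb0 b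
    rcases hf b with g | g | g
    · omega
    · exact absurd g.2 hdvd
    · omega
  intro x
  rw [gb]
  exact hb0 x

theorem Fc_E_e {m i : ℕ} (he : Even (m + 1)) (σ : Wd (m + 1)) (hk : kE m i σ = 1) :
    Fc (E m i σ) i ∧ Fc (E m i σ) (i + 2) := by
  classical
  have hall : ∀ b : ℤ, Fc σ b ↔ ((m : ℤ) + 1) ∣ b - (i + 1) := by
    by_contra hcon
    unfold kE at hk
    rw [if_neg hcon] at hk
    exact absurd hk (by norm_num)
  rw [← Fc_E_b he σ, and_self]
  obtain ⟨H, H', hH, hH', h12, -, hmin⟩ := w2_core he i σ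
  have hi : Fc σ (i + 1) := (hall _).2 (by simp)
  have hi' := (Fc_iff_min he σ H hH _).1 hi
  obtain ⟨hx, g1, g2⟩ := hmin hi'
  have hm : 1 ≤ m := by
    rcases Nat.eq_zero_or_pos m with h | h
    · subst h; exact absurd he (by decide)
    · exact h
  have n1 : ¬ ((m : ℤ) + 1) ∣ (i : ℤ) - (i + 1) := by
    intro h
    have : ((m : ℤ) + 1) ∣ 1 := by
      have := h.neg_right
      rwa [show -((i : ℤ) - (i + 1)) = 1 by ring] at this
    have := Int.le_of_dvd one_pos this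
    omega
  rw [Fc_iff_min he _ H' hH']
  intro x
  rw [(hx i).2 n1]
  by_cases h : ((m : ℤ) + 1) ∣ x - (i + 1)
  · rw [(hx x).1 h]
    have := hi' x
    omega
  · rw [(hx x).2 h]
    have hn : ¬ Fc σ x := fun hF => h ((hall x).1 hF)
    have hle := hi' x
    rcases eq_or_lt_of_le hle with g | g
    · exfalso
      apply hn
      rw [Fc_iff_min he σ H hH]
      intro y
      rw [← g]
      exact hi' y
    · omega

end H906C
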