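import Pool.Agent.H906R3.CY.Defs
import Pool.Agent.H906R3.CY.W1b
import Pool.Agent.H906R3.CY.W2

/-! # W3: closings in a row -/

namespace H906C
open Pool.Agent.H863R2.Cyl
open Pool.Agent.H863R2.Cyl.Sem1Aux (Inc RH Cons)
open Pool.Agent.H988R2.Perc (Word)
open Pool.Agent.H863R2.Cyl.Sem2Aux

theorem w3_dvd {m d e : ℕ} (hd : d ≤ m) (he : e ≤ m) (h : ((m : ℤ) + 1) ∣ (d : ℤ) - e) : d = e := by
  obtain ⟨c, hc⟩ := h
  rcases lt_trichotomy c 0 with h1 | h1 | h1
  · nlinarith
  · subst h1; simp at hc; omega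
  · nlinarith

theorem w3_kE {m i : ℕ} (σ : Wd (m + 1)) : kE m i σ = 0 ∨ kE m i σ = 1 := by
  unfold kE
  split_ifs
  · exact Or.inr rfl
  · exact Or.inl rfl

theorem w3_kE_zero {m i : ℕ} (σ : Wd (m + 1)) {b : ℤ} (h : Fc σ b)
    (hb : ¬ ((m : ℤ) + 1) ∣ b - (i + 1)) : kE m i σ = 0 := by
  unfold kE
  rw [if_neg]
  intro h1
  exact hb ((h1 b).1 h)

theorem w3_red {m : ℕ} (he : Even (m + 1)) (k : ℕ) (σ : Wd (m + 1)) (b : ℤ) :
    Fc σ b ↔ Fc σ ((k : ℤ) + ((dd m k b).toNat : ℕ)) := by
  obtain ⟨l, hl⟩ := dd_spec m k b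
  have h0 := dd_nonneg m k b
  have h1 : b = ((k : ℤ) + ((dd m k b).toNat : ℕ)) + l * (m + 1) := by
    rw [Int.toNat_of_nonneg h0]; exact hl
  conv_lhs => rw [h1]
  exact Fc_per he σ _ _

theorem w3_dd {m k d : ℕ} (hd : d ≤ m) : dd m k ((k : ℤ) + d) = d :=
  dd_unique (l := 0) (by omega) (by omega) (by ring)

theorem w3_cl {m : ℕ} (c : Fin (m + 1) → Bool) (k d : ℕ) (hd : d ≤ m) :
    cl c ((k : ℤ) + d) = c (ix m (k + d)) := cl_of_dd (w3_dd hd)

theorem w3_succ {m : ℕ} (c : Fin (m + 1) → Bool) (k j : ℕ) (σ : Wd (m + 1)) :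
    (c (ix m (k + j + 1)) = true ∧ word m c k (j + 1) σ = E m (k + j) (word m c k j σ) ∧
      kW m c k (j + 1) σ = kW m c k j σ + kE m (k + j) (word m c k j σ)) ∨
    (c (ix m (k + j + 1)) = false ∧ word m c k (j + 1) σ = word m c k j σ ∧
      kW m c k (j + 1) σ = kW m c k j σ) := by
  by_cases h : c (ix m (k + j + 1)) = true
  · left
    refine ⟨h, ?_, ?_⟩
    · rw [word, if_pos h]
    · rw [kW, if_pos h]
  · right
    refine ⟨by simpa using h, ?_, ?_⟩
    · rw [word, if_neg h]
    · rw [kW, if_neg h]; rfl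

/-- a face which is never isolated -/
theorem w3_hold {m : ℕ} (he : Even (m + 1)) (c : Fin (m + 1) → Bool) (k : ℕ) (σ : Wd (m + 1))
    (d0 j0 : ℕ) (hd0 : d0 ≤ m) (hF : Fc (word m c k j0 σ) ((k : ℤ) + d0)) (j : ℕ) (hj : j0 ≤ j)
    (hjm : j ≤ m)
    (hn : ∀ i, j0 ≤ i → i < j → c (ix m (k + i + 1)) = true → i + 1 ≠ d0) :
    Fc (word m c k j σ) ((k : ℤ) + d0) ∧ kW m c k j σ = kW m c k j0 σ := by
  induction j, hj using Nat.le_induction with
  | base => exact ⟨hF, rfl⟩
  | succ j hj ih =>
    obtain ⟨h1, h2⟩ := ih (by omega) (fun i hi hi2 => hn i hi (by omega))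
    rcases w3_succ c k j σ with ⟨hc, hw, hk⟩ | ⟨hc, hw, hk⟩
    · have hne := hn j hj (by omega) hc
      have hnd : ¬ ((m : ℤ) + 1) ∣ ((k : ℤ) + d0) - (((k + j : ℕ) : ℤ) + 1) := by
        intro h
        apply hne
        have h3 : ((m : ℤ) + 1) ∣ ((d0 : ℕ) : ℤ) - ((j + 1 : ℕ) : ℤ) := by
          convert h using 1
          push_cast; ring
        exact (w3_dvd hd0 (by omega) h3).symm
      rw [hw, hk]
      exact ⟨Fc_E_a he _ h1 hnd, by rw [w3_kE_zero _ h1 hnd, h2, add_zero]⟩
    · rw [hw, hk]
      exact ⟨h1, h2⟩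

theorem kT_true {m : ℕ} (he : Even (m + 1)) (c : Fin (m + 1) → Bool) (h : ∀ j, c j = true)
    (σ : Wd (m + 1)) : kT m c σ = 0 := by
  unfold kT
  rw [if_neg]
  intro h1
  obtain ⟨b, hb⟩ := Fc_nonempty he σ
  have h2 := (h1 b hb).1
  unfold cl at h2
  rw [h] at h2
  exact absurd h2 (by simp)

/-- the invariant in the closing case -/
theorem w3_inv {m : ℕ} (he : Even (m + 1)) (c : Fin (m + 1) → Bool) (k : ℕ) (σ : Wd (m + 1))
    (hT : ∀ b : ℤ, Fc σ b → (cl c (b - 1) = false ∧ cl c b = true))
    (hc0 : c (ix m k) = false) (j : ℕ) (hj : j ≤ m) :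
    (kW m c k j σ = 0 ∧ ∀ d : ℕ, d ≤ m →
      (Fc (word m c k j σ) ((k : ℤ) + d) ↔ (Fc σ ((k : ℤ) + d) ∧ j < d))) ∨
    (kW m c k j σ = 1 ∧ ∃ d0 : ℕ, d0 < j ∧ Fc (word m c k j σ) ((k : ℤ) + d0)) := by
  induction j with
  | zero =>
    left
    refine ⟨rfl, ?_⟩
    intro d hd
    show Fc σ _ ↔ _
    constructor
    · intro h
      refine ⟨h, ?_⟩
      rcases Nat.eq_zero_or_pos d with h0 | h0
      · subst h0
        have h1 := (hT _ h).2
        rw [w3_cl c k 0 (by omega), add_zero, hc0] at h1
        exact absurd h1 (by simp)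
      · exact h0
    · exact fun h => h.1
  | succ j ih =>
    have ih := ih (by omega)
    rcases ih with ⟨hK, hI⟩ | ⟨hK, d0, hd0, hI⟩
    · rcases w3_succ c k j σ with ⟨hc, hw, hk⟩ | ⟨hc, hw, hk⟩
      · have hA : ¬ Fc (word m c k j σ) ((k + j : ℕ) : ℤ) := by
          intro h
          rw [Nat.cast_add, hI j (by omega)] at h
          omega
        have hB : ¬ Fc (word m c k j σ) (((k + j : ℕ) : ℤ) + 2) := by
          intro h
          rcases Nat.lt_or_ge (j + 1) m with h1 | h1
          · have e : (((k + j : ℕ) : ℤ) + 2) = (k : ℤ) + ((j + 2 : ℕ) : ℤ) := by push_cast; ring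
            rw [e, hI (j + 2) (by omega)] at h
            have h2 := (hT _ h.1).1
            have e2 : (k : ℤ) + ((j + 2 : ℕ) : ℤ) - 1 = (k : ℤ) + ((j + 1 : ℕ) : ℤ) := by
              push_cast; ring
            rw [e2, w3_cl c k (j + 1) (by omega), ← add_assoc, hc] at h2
            exact absurd h2 (by simp)
          · have e : (((k + j : ℕ) : ℤ) + 2) = ((k : ℤ) + ((0 : ℕ) : ℤ)) + 1 * (m + 1) := by
              have : m = j + 1 := by omega
              subst this
              push_cast; ring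
            rw [e, Fc_per he, hI 0 (by omega)] at h
            omega
        rcases w3_kE (i := k + j) (word m c k j σ) with h0 | h1
        · left
          rw [hk, hw, hK, h0]
          refine ⟨rfl, ?_⟩
          intro d hd
          rw [Fc_E_d he _ hA hB h0, hI d hd]
          constructor
          · rintro ⟨⟨h3, h4⟩, h5⟩
            refine ⟨h3, ?_⟩
            by_contra h6
            apply h5
            have : d = j + 1 := by omega
            subst this
            refine ⟨0, ?_⟩
            push_cast; ring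
          · rintro ⟨h3, h4⟩
            refine ⟨⟨h3, by omega⟩, ?_⟩
            intro h
            have h3 : ((m : ℤ) + 1) ∣ ((d : ℕ) : ℤ) - ((j + 1 : ℕ) : ℤ) := by
              convert h using 1
              push_cast; ring
            have := w3_dvd hd (by omega) h3
            omega
        · right
          rw [hk, hw, hK, h1]
          refine ⟨rfl, j, by omega, ?_⟩
          have := (Fc_E_e he _ h1).1
          rwa [Nat.cast_add] at this
      · left
        rw [hk, hw]
        refine ⟨hK, ?_⟩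
        intro d hd
        rw [hI d hd]
        constructor
        · rintro ⟨h3, h4⟩
          refine ⟨h3, ?_⟩
          by_contra h6
          have : d = j + 1 := by omega
          subst this
          have h1 := (hT _ h3).2
          rw [w3_cl c k (j + 1) hd, ← add_assoc, hc] at h1
          exact absurd h1 (by simp)
        · rintro ⟨h3, h4⟩
          exact ⟨h3, by omega⟩
    · right
      have := w3_hold he c k σ d0 j (by omega) hI (j + 1) (by omega) hj
        (fun i hi hi2 _ => by omega)
      exact ⟨by rw [this.2, hK], d0, by omega, this.1⟩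

theorem kW_eq {m : ℕ} (he : Even (m + 1)) (c : Fin (m + 1) → Bool) (k : ℕ) (hk : k < m + 1)
    (hc : c (ix m k) = false) (σ : Wd (m + 1)) : kW m c k m σ = kT m c σ := by
  classical
  by_cases hT : ∀ b : ℤ, Fc σ b → (cl c (b - 1) = false ∧ cl c b = true)
  · have h1 : kT m c σ = 1 := by
      unfold kT
      rw [if_pos hT]
    rw [h1]
    rcases w3_inv he c k σ hT hc m le_rfl with ⟨-, hI⟩ | ⟨hK, -⟩
    · exfalso
      obtain ⟨b, hb⟩ := Fc_nonempty he (word m c k m σ)
      have h2 := dd_le m k b
      have h3 := dd_nonneg m k b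
      rw [w3_red he k, hI _ (by omega)] at hb
      omega
    · exact hK
  · have h1 : kT m c σ = 0 := by
      unfold kT
      rw [if_neg hT]
    rw [h1]
    push Not at hT
    obtain ⟨b, hb, hcb⟩ := hT
    have h2 := dd_le m k b
    have h3 := dd_nonneg m k b
    obtain ⟨d, hd⟩ : ∃ d : ℕ, dd m k b = d := ⟨(dd m k b).toNat, by omega⟩
    have hb' : Fc σ ((k : ℤ) + d) := by
      have := (w3_red he k σ b).1 hb
      rwa [hd, Int.toNat_natCast] at this
    have hclb : cl c b = c (ix m (k + d)) := cl_of_dd hd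
    have hdm : d ≤ m := by omega
    by_cases h4 : cl c b = true
    · -- case 2
      have h5 : cl c (b - 1) = true := by
        by_contra h6
        exact hcb (by simpa using h6) h4
      have hd0 : d ≠ 0 := by
        intro h
        rw [hclb, h, add_zero, hc] at h4
        exact absurd h4 (by simp)
      have hd1 : dd m k (b - 1) = ((d - 1 : ℕ) : ℤ) := by
        have h7 := dd_le m k (b - 1)
        rcases lt_or_eq_of_le h7 with h8 | h8
        · have h9 := dd_succ_of_lt h8
          rw [sub_add_cancel, hd] at h9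
          omega
        · have h9 := dd_succ_of_eq h8
          rw [sub_add_cancel, hd] at h9
          omega
      have h6 : c (ix m (k + (d - 1))) = true := by
        rw [← cl_of_dd (c := c) hd1]; exact h5
      have hd2 : d - 1 ≠ 0 := by
        intro h
        rw [h, add_zero, hc] at h6
        exact absurd h6 (by simp)
      obtain ⟨e, rfl⟩ : ∃ e, d = e + 2 := ⟨d - 2, by omega⟩
      have h7 := w3_hold he c k σ (e + 2) 0 hdm hb' (e + 1) (by omega) (by omega)
        (fun i hi hi2 _ => by omega)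
      have h8 : c (ix m (k + e + 1)) = true := by
        have : k + (e + 2 - 1) = k + e + 1 := by omega
        rw [this] at h6
        exact h6
      rcases w3_succ c k e σ with ⟨-, hw, -⟩ | ⟨hc', -, -⟩
      · have h9 := h7.1
        rw [hw] at h9
        have h10 : Fc (E m (k + e) (word m c k e σ)) ((k + e : ℕ) : ℤ) := by
          rw [Fc_E_b he]
          convert h9 using 1
          push_cast; ring
        rw [← hw, Nat.cast_add] at h10
        have h11 := w3_hold he c k σ e (e + 1) (by omega) h10 m (by omega) le_rfl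
          (fun i hi hi2 _ => by omega)
        rw [h11.2, h7.2]
        rfl
      · rw [hc'] at h8
        exact absurd h8 (by simp)
    · -- case 1
      have h5 := w3_hold he c k σ d 0 hdm hb' m (by omega) le_rfl (by
        intro i _ _ hi h6
        apply h4
        rw [hclb, ← h6, ← add_assoc]
        exact hi)
      rw [h5.2]
      rfl

end H906C
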