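import Pool.Agent.H906R3.CY.Defs
import Pool.Agent.H906R3.CY.T1
import Pool.Agent.H906R3.CY.T2
import Pool.Agent.H906R3.CY.W3
import Pool.Agent.H906R3.K6.V0
import Pool.Agent.H906R3.K6.L3

/-!
# T3: the intertwining relation
-/

namespace H906C
open Pool.Agent.H863R2.Cyl
open Pool.Agent.H863R2.Cyl.Sem1Aux (Inc RH Cons)
open Pool.Agent.H988R2.Perc (Word)

section ring
variable {R : Type*} [CommRing R]

/-- a scalar multiple of a column -/
theorem t3_mul_col {m : ℕ} {ι : Type*} (A B : Matrix (Fin (m + 1) → Bool) (Fin (m + 1) → Bool) R)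
    (T : Matrix (Fin (m + 1) → Bool) ι R) (σ σ' : ι) (a : R)
    (h : ∀ s, (B * T) s σ = a * T s σ') (t : Fin (m + 1) → Bool) :
    (A * B * T) t σ = a * (A * T) t σ' := by
  rw [Matrix.mul_assoc, Matrix.mul_apply, Matrix.mul_apply, Finset.mul_sum]
  refine Finset.sum_congr rfl fun s _ => ?_
  rw [h s]
  ring

theorem t3_word {m : ℕ} (q : R) (ζ : Rˣ) (w : R) (c : Fin (m + 1) → Bool) (k : ℕ)
    (hE : ∀ (i : ℕ) (t : Fin (m + 1) → Bool) (σ : Wd (m + 1)),
      (H906K.eV m i q ζ * ThW m q ζ) t σ = w ^ kE m i σ * ThW m q ζ t (E m i σ)) :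
    ∀ (j : ℕ) (t : Fin (m + 1) → Bool) (σ : Wd (m + 1)),
      (H906K.wordM m c q ζ k j * ThW m q ζ) t σ =
        w ^ kW m c k j σ * ThW m q ζ t (word m c k j σ) := by
  intro j
  induction j with
  | zero =>
    intro t σ
    show ((1 : Matrix (Fin (m + 1) → Bool) (Fin (m + 1) → Bool) R) * ThW m q ζ) t σ =
      w ^ 0 * ThW m q ζ t σ
    rw [Matrix.one_mul, pow_zero, one_mul]
  | succ j ih =>
    intro t σ
    show ((if c (ix m (k + j + 1)) = true then H906K.eV m (k + j) q ζ else 1) *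
        H906K.wordM m c q ζ k j * ThW m q ζ) t σ = _
    rw [t3_mul_col _ _ _ σ (word m c k j σ) _ (fun s => ih s σ) t]
    by_cases hc : c (ix m (k + j + 1)) = true
    · rw [if_pos hc, hE]
      have e1 : kW m c k (j + 1) σ = kW m c k j σ + kE m (k + j) (word m c k j σ) := by
        show kW m c k j σ +
          (if c (ix m (k + j + 1)) = true then kE m (k + j) (word m c k j σ) else 0) = _
        rw [if_pos hc]
      have e2 : word m c k (j + 1) σ = E m (k + j) (word m c k j σ) := if_pos hc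
      rw [e1, e2, pow_add]
      ring
    · rw [if_neg hc, Matrix.one_mul]
      have e1 : kW m c k (j + 1) σ = kW m c k j σ := by
        show kW m c k j σ +
          (if c (ix m (k + j + 1)) = true then kE m (k + j) (word m c k j σ) else 0) = _
        rw [if_neg hc, add_zero]
      have e2 : word m c k (j + 1) σ = word m c k j σ := if_neg hc
      rw [e1, e2]

theorem t3_TVc {m : ℕ} (q : R) (hq : q ^ 2 + q + 1 = 0) (ζ : Rˣ) (w : R)
    (c : Fin (m + 1) → Bool)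
    (hE : ∀ (i : ℕ) (t : Fin (m + 1) → Bool) (σ : Wd (m + 1)),
      (H906K.eV m i q ζ * ThW m q ζ) t σ = w ^ kE m i σ * ThW m q ζ t (E m i σ))
    (hrot : ∀ (t : Fin (m + 1) → Bool) (σ : Wd (m + 1)),
      (H906K.rotM m ζ * ThW m q ζ) t σ = ThW m q ζ t (rot m σ))
    (hroti : ∀ (t : Fin (m + 1) → Bool) (σ : Wd (m + 1)),
      (H906K.rotMi m ζ * ThW m q ζ) t σ = ThW m q ζ t (rotInv m σ))
    (hkW : ∀ (k : ℕ), k < m + 1 → c (ix m k) = false → ∀ σ : Wd (m + 1),
      kW m c k m σ = kT m c σ)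
    (hkT : (∀ j, c j = true) → ∀ σ : Wd (m + 1), kT m c σ = 0)
    (t : Fin (m + 1) → Bool) (σ : Wd (m + 1)) :
    (H906K.TVc m c q ζ * ThW m q ζ) t σ = w ^ kT m c σ * ThW m q ζ t (Tc m c σ) := by
  classical
  by_cases h : ∃ k : ℕ, k < m + 1 ∧ c (ix m k) = false
  · have e2 : Tc m c σ = rot m (word m c (Nat.find h) m σ) := by
      unfold Tc
      rw [dif_pos h]
    have e3 : H906K.TVc m c q ζ = H906K.rotM m ζ * H906K.wordM m c q ζ (Nat.find h) m :=
      H906K.TVc_word m c (Nat.find h) (Nat.find_spec h).2 q hq ζ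
    rw [e2, e3, t3_mul_col _ _ _ σ _ _ (fun s => t3_word q ζ w c (Nat.find h) hE m s σ) t,
      hrot, hkW _ (Nat.find_spec h).1 (Nat.find_spec h).2]
  · have e2 : Tc m c σ = rotInv m σ := by
      unfold Tc
      rw [dif_neg h]
    have h3 : ∀ k, c k = true := by
      intro k
      by_contra hk
      apply h
      refine ⟨k.val, k.2, ?_⟩
      have e : ix m k.val = k := Fin.ext (Nat.mod_eq_of_lt k.2)
      rw [e]
      exact Bool.eq_false_iff.2 hk
    rw [e2, H906K.TVc_true m c h3 q hq ζ, hroti, hkT h3, pow_zero, one_mul]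

theorem t3_TV {m : ℕ} (q x : R) (hq : q ^ 2 + q + 1 = 0) (ζ : Rˣ) (w : R)
    (hc : ∀ (c : Fin (m + 1) → Bool) (t : Fin (m + 1) → Bool) (σ : Wd (m + 1)),
      (H906K.TVc m c q ζ * ThW m q ζ) t σ = w ^ kT m c σ * ThW m q ζ t (Tc m c σ)) :
    H906K.TV m q x ζ * ThW m q ζ = ThW m q ζ * TW m q x w := by
  classical
  ext t σ
  rw [H906K.TV_expand m q x hq ζ, Matrix.sum_mul, Matrix.sum_apply, Matrix.mul_apply]
  have h1 : ∀ τ, ThW m q ζ t τ * TW m q x w τ σ =
      ∑ c : Fin (m + 1) → Bool, if Tc m c σ = τ then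
        ThW m q ζ t τ * ((∏ j, wt q (c j) x) * w ^ kT m c σ) else 0 := by
    intro τ
    unfold TW
    rw [Finset.mul_sum]
    refine Finset.sum_congr rfl fun c _ => ?_
    by_cases h : Tc m c σ = τ
    · rw [if_pos h, if_pos h]
    · rw [if_neg h, if_neg h, mul_zero]
  rw [Finset.sum_congr rfl fun τ _ => h1 τ, Finset.sum_comm]
  refine Finset.sum_congr rfl fun c _ => ?_
  rw [Finset.sum_eq_single (Tc m c σ)]
  · rw [if_pos rfl, Matrix.smul_mul, Matrix.smul_apply, hc c t σ, smul_eq_mul]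
    show (∏ j, wt q (c j) x) * (w ^ kT m c σ * ThW m q ζ t (Tc m c σ)) = _
    ring
  · intro τ _ hτ
    rw [if_neg (Ne.symm hτ)]
  · intro h
    exact absurd (Finset.mem_univ _) h

end ring

theorem TVc_ThW {R : Type*} [CommRing R] {m : ℕ} (he : Even (m + 1)) (c : Fin (m + 1) → Bool)
    (q : R) (hq : q ^ 2 + q + 1 = 0) (ζ : Rˣ) (t : Fin (m + 1) → Bool) (σ : Wd (m + 1)) :
    (H906K.TVc m c q ζ * ThW m q ζ) t σ
      = (((ζ ^ (m + 1) : Rˣ) : R) + (((ζ⁻¹) ^ (m + 1) : Rˣ) : R)) ^ kT m c σ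
        * ThW m q ζ t (Tc m c σ) :=
  t3_TVc q hq ζ _ c (fun i t σ => eV_ThW he i q hq ζ t σ) (fun t σ => rotM_ThW he q ζ t σ)
    (fun t σ => rotMi_ThW he q ζ t σ) (fun k hk hc σ => kW_eq he c k hk hc σ)
    (fun h σ => kT_true he c h σ) t σ

theorem TV_ThW {R : Type*} [CommRing R] {m : ℕ} (he : Even (m + 1)) (q x : R)
    (hq : q ^ 2 + q + 1 = 0) (ζ : Rˣ) :
    H906K.TV m q x ζ * ThW m q ζ = ThW m q ζ *
      TW m q x (((ζ ^ (m + 1) : Rˣ) : R) + (((ζ⁻¹) ^ (m + 1) : Rˣ) : R)) :=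
  t3_TV q x hq ζ _ (fun c t σ => TVc_ThW he c q hq ζ t σ)

end H906C
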