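import Pool.Agent.H906R3.CY.Defs
import Pool.Agent.H906R3.CY.T3
import Pool.Agent.H906R3.CY.W6

/-!
# NZ: the vector `ThW v` is not zero (helper677)
-/

namespace H906C
open Pool.Agent.H863R2.Cyl
open Pool.Agent.H863R2.Cyl.Sem1Aux (Inc RH Cons)
open Pool.Agent.H988R2.Perc (Word)

/-- the letters of a word as spins -/
def nz_let {m : ℕ} (σ : Wd (m + 1)) : Fin (m + 1) → Bool := fun j => σ.1.getD j.val true

theorem nz_sg {m : ℕ} (σ : Wd (m + 1)) (i : ℕ) :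
    sg σ.1 (i : ℤ) = if nz_let σ (ix m i) = true then 1 else -1 := by
  unfold sg nz_let ix
  rw [σ.2.1, ← Int.natCast_mod, Int.toNat_natCast]

theorem nz_Sh_succ (w : Word) (i j : ℤ) (h : i ≤ j) : Sh w i (j + 1) = Sh w i j + sg w j := by
  unfold Sh
  have : Finset.Ico i (j + 1) = insert j (Finset.Ico i j) := by
    ext x
    simp only [Finset.mem_Ico, Finset.mem_insert]
    omega
  rw [this, Finset.sum_insert (by simp), add_comm]

theorem nz_Sh_self (w : Word) (i : ℤ) : Sh w i i = 0 := by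
  unfold Sh
  simp

theorem nz_arc {m : ℕ} (σ : Wd (m + 1)) (i l : ℕ) (h : Arc σ.1 i (i + l)) :
    nz_let σ (ix m i) = true ∧ nz_let σ (ix m (i + l)) = false := by
  obtain ⟨h1, h2, h3⟩ := h
  have h4 := h3 (i + 1) (by omega) (by omega)
  rw [nz_Sh_succ _ _ _ le_rfl, nz_Sh_self, zero_add, nz_sg] at h4
  have h5 := h3 (i + l) h1 le_rfl
  rw [nz_Sh_succ _ _ _ h1.le] at h2
  have h6 : sg σ.1 ((i : ℤ) + (l : ℤ)) < 0 := by omega
  rw [← Nat.cast_add, nz_sg] at h6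
  constructor
  · by_contra h7
    rw [if_neg h7] at h4
    omega
  · by_contra h7
    rw [if_pos (by simpa using h7)] at h6
    omega

theorem nz_aw {R : Type*} [CommRing R] [IsDomain R] (q : R) (ζ : Rˣ) (l : ℕ) :
    aw q ζ l true false ≠ 0 := by
  unfold aw
  rw [if_neg (by decide), if_pos rfl]
  exact Units.ne_zero _

theorem nz_ThW {m : ℕ} (q : ℂ) (ζ : ℂˣ) (σ : Wd (m + 1)) : ThW m q ζ (nz_let σ) σ ≠ 0 := by
  unfold ThW
  refine Finset.prod_ne_zero_iff.2 fun i _ => Finset.prod_ne_zero_iff.2 fun l _ => ?_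
  split_ifs with h
  · obtain ⟨h1, h2⟩ := nz_arc σ i l h
    rw [h1, h2]
    exact nz_aw q ζ l
  · exact one_ne_zero

theorem nz_kT (k : ℕ) : kT (2 * k + 1) (fun j => decide (j.val % 2 = 1)) (sig0 k) = 0 := by
  unfold kT
  rw [if_neg]
  intro h
  have h1 := (h 0 ((Fc_sig0 k 0).2 (by simp))).2
  unfold cl ix at h1
  simp at h1

theorem ThW_ne (k : ℕ) (q : ℂ) (hq : q ^ 2 + q + 1 = 0) (ζ : ℂˣ)
    (hζ : ((ζ ^ (2 * k + 2) : ℂˣ) : ℂ) + (((ζ⁻¹) ^ (2 * k + 2) : ℂˣ) : ℂ) = 0)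
    (v : Wd (2 * k + 1 + 1) → ℝ) (hv : ∀ σ, 0 < v σ) :
    ∃ s, (ThW (2 * k + 1) q ζ).mulVec (fun σ => (v σ : ℂ)) s ≠ 0 := by
  classical
  by_contra hcon
  push Not at hcon
  have hz : (ThW (2 * k + 1) q ζ).mulVec (fun σ => (v σ : ℂ)) = 0 := funext hcon
  obtain ⟨c, hc⟩ : ∃ c : Fin (2 * k + 1 + 1) → Bool,
      c = fun j : Fin (2 * k + 1 + 1) => decide (j.val % 2 = 1) := ⟨_, rfl⟩
  have hev : Even (2 * k + 1 + 1) := ⟨k + 1, by ring⟩
  have h1 : (H906K.TVc (2 * k + 1) c q ζ * ThW (2 * k + 1) q ζ).mulVec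
      (fun σ => (v σ : ℂ)) (nz_let (sig1 k)) = 0 := by
    rw [← Matrix.mulVec_mulVec, hz, Matrix.mulVec_zero]
    rfl
  have h2 : ∀ σ : Wd (2 * k + 1 + 1), (H906K.TVc (2 * k + 1) c q ζ * ThW (2 * k + 1) q ζ)
      (nz_let (sig1 k)) σ =
      (if kT (2 * k + 1) c σ = 0 then 1 else 0) * ThW (2 * k + 1) q ζ (nz_let (sig1 k)) (sig1 k) := by
    intro σ
    rw [TVc_ThW hev c q hq ζ, hc, Tc_alt1, ← hc]
    congr 1
    have hw : (((ζ ^ (2 * k + 1 + 1) : ℂˣ) : ℂ) + (((ζ⁻¹) ^ (2 * k + 1 + 1) : ℂˣ) : ℂ)) = 0 := hζ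
    rw [hw]
    split_ifs with h
    · rw [h, pow_zero]
    · exact zero_pow h
  have h3 : (∑ σ : Wd (2 * k + 1 + 1), (if kT (2 * k + 1) c σ = 0 then v σ else 0) : ℝ) = 0 := by
    have h4 : ThW (2 * k + 1) q ζ (nz_let (sig1 k)) (sig1 k) *
        ((∑ σ : Wd (2 * k + 1 + 1), (if kT (2 * k + 1) c σ = 0 then v σ else 0) : ℝ) : ℂ) = 0 := by
      rw [← h1]
      simp only [Matrix.mulVec, dotProduct]
      rw [Complex.ofReal_sum, Finset.mul_sum]
      refine Finset.sum_congr rfl fun σ _ => ?_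
      rw [h2 σ]
      split_ifs <;> simp
    rcases mul_eq_zero.1 h4 with h5 | h5
    · exact absurd h5 (nz_ThW q ζ (sig1 k))
    · exact_mod_cast h5
  have h6 : 0 < (∑ σ : Wd (2 * k + 1 + 1), (if kT (2 * k + 1) c σ = 0 then v σ else 0) : ℝ) := by
    refine Finset.sum_pos' (fun σ _ => ?_) ⟨sig0 k, Finset.mem_univ _, ?_⟩
    · split_ifs
      · exact (hv σ).le
      · exact le_rfl
    · rw [if_pos (by rw [hc]; exact nz_kT k)]
      exact hv _
  linarith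

end H906C
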