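import Mathlib
set_option autoImplicit false

/-! Perron-Frobenius for a nonnegative irreducible matrix. -/

namespace H906C
open Polynomial MeasureTheory Filter Topology

theorem pf_pos {ι : Type*} [Fintype ι] (Q : Matrix ι ι ℝ) (hQ : ∀ i j, 0 < Q i j)
    (z : ι → ℝ) (hz : ∀ i, 0 ≤ z i) (hne : z ≠ 0) (i : ι) : 0 < Q.mulVec z i := by
  obtain ⟨j, hj⟩ : ∃ j, z j ≠ 0 := by
    by_contra h
    push Not at h
    exact hne (funext h)
  have hj' : 0 < z j := lt_of_le_of_ne (hz j) (Ne.symm hj)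
  unfold Matrix.mulVec dotProduct
  refine Finset.sum_pos' (fun k _ => mul_nonneg (hQ i k).le (hz k)) ⟨j, Finset.mem_univ j, ?_⟩
  exact mul_pos (hQ i j) hj'

theorem pf_pow {ι : Type*} [Fintype ι] [DecidableEq ι] (A : Matrix ι ι ℝ) (v : ι → ℝ) (L : ℝ)
    (h : A.mulVec v = L • v) (l : ℕ) : (A ^ l).mulVec v = L ^ l • v := by
  induction l with
  | zero => simp
  | succ l ih =>
    rw [pow_succ, ← Matrix.mulVec_mulVec, h, Matrix.mulVec_smul, ih, smul_smul, pow_succ, mul_comm]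

theorem pf_sum {ι : Type*} [Fintype ι] [DecidableEq ι] (A : Matrix ι ι ℝ) (v : ι → ℝ) (L : ℝ)
    (h : A.mulVec v = L • v) (p : ℕ) :
    (∑ l ∈ Finset.range p, A ^ l).mulVec v = (∑ l ∈ Finset.range p, L ^ l) • v := by
  rw [Matrix.sum_mulVec, Finset.sum_smul]
  exact Finset.sum_congr rfl fun l _ => pf_pow A v L h l

theorem pf_le {ι : Type*} [Fintype ι] (A : Matrix ι ι ℝ)
    (h0 : ∀ i j, 0 ≤ A i j) (w : ι → ℝ) (hw : ∀ i, 0 ≤ w i) (hs : 0 < ∑ i, w i) (r : ℝ)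
    (hr : ∀ i, r * w i ≤ A.mulVec w i) : r ≤ ∑ i, ∑ j, A i j := by
  have h1 : r * ∑ i, w i ≤ (∑ i, ∑ j, A i j) * ∑ i, w i := by
    rw [Finset.mul_sum]
    calc ∑ i, r * w i ≤ ∑ i, A.mulVec w i := Finset.sum_le_sum fun i _ => hr i
      _ = ∑ i, ∑ j, A i j * w j := rfl
      _ ≤ ∑ i, ∑ j, A i j * ∑ k, w k := by
          refine Finset.sum_le_sum fun i _ => Finset.sum_le_sum fun j _ => ?_
          exact mul_le_mul_of_nonneg_left
            (Finset.single_le_sum (f := w) (fun k _ => hw k) (Finset.mem_univ j)) (h0 i j)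
      _ = (∑ i, ∑ j, A i j) * ∑ i, w i := by
          rw [Finset.sum_mul]
          exact Finset.sum_congr rfl fun i _ => by rw [Finset.sum_mul]
  exact le_of_mul_le_mul_right h1 hs

/-- Maximal Collatz-Wielandt number. -/
theorem pf_max {ι : Type*} [Fintype ι] [DecidableEq ι] [Nonempty ι] (A : Matrix ι ι ℝ)
    (h0 : ∀ i j, 0 ≤ A i j) :
    ∃ (v : ι → ℝ) (L : ℝ), (∀ i, 0 ≤ v i) ∧ ∑ i, v i = 1 ∧ 0 ≤ L ∧ (∀ i, L * v i ≤ A.mulVec v i) ∧
      ∀ (w : ι → ℝ) (r : ℝ), (∀ i, 0 ≤ w i) → 0 < ∑ i, w i → 0 ≤ r →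
        (∀ i, r * w i ≤ A.mulVec w i) → r ≤ L := by
  set R : ℝ := ∑ i, ∑ j, A i j with hR
  have hR0 : 0 ≤ R := Finset.sum_nonneg fun i _ => Finset.sum_nonneg fun j _ => h0 i j
  set K : Set ((ι → ℝ) × ℝ) := (stdSimplex ℝ ι ×ˢ Set.Icc 0 R) ∩
    {x | ∀ i, x.2 * x.1 i ≤ A.mulVec x.1 i} with hK
  have hmc : ∀ i, Continuous fun x : (ι → ℝ) × ℝ => A.mulVec x.1 i := by
    intro i
    unfold Matrix.mulVec dotProduct
    fun_prop
  have hclosed : IsClosed {x : (ι → ℝ) × ℝ | ∀ i, x.2 * x.1 i ≤ A.mulVec x.1 i} := by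
    have : {x : (ι → ℝ) × ℝ | ∀ i, x.2 * x.1 i ≤ A.mulVec x.1 i} =
        ⋂ i, {x : (ι → ℝ) × ℝ | x.2 * x.1 i ≤ A.mulVec x.1 i} := by
      ext x; simp
    rw [this]
    refine isClosed_iInter fun i => isClosed_le ?_ (hmc i)
    fun_prop
  have hcomp : IsCompact K :=
    ((isCompact_stdSimplex ℝ ι).prod isCompact_Icc).inter_right hclosed
  have hne : K.Nonempty := by
    obtain ⟨i0⟩ := (inferInstance : Nonempty ι)
    refine ⟨(Pi.single i0 1, 0), ⟨⟨single_mem_stdSimplex ℝ i0, ⟨le_refl _, hR0⟩⟩, ?_⟩⟩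
    intro i
    simp only [zero_mul]
    unfold Matrix.mulVec dotProduct
    refine Finset.sum_nonneg fun j _ => mul_nonneg (h0 i j) ?_
    by_cases h : j = i0
    · subst h; simp
    · simp [Pi.single_eq_of_ne h]
  obtain ⟨x, hxK, hxmax⟩ := hcomp.exists_isMaxOn hne (f := fun x => x.2) continuous_snd.continuousOn
  obtain ⟨⟨hx1, hx2⟩, hx3⟩ := hxK
  refine ⟨x.1, x.2, hx1.1, hx1.2, hx2.1, hx3, ?_⟩
  intro w r hw hs hr0 hr
  have hrR : r ≤ R := pf_le A h0 w hw hs r hr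
  have hmem : (((∑ i, w i)⁻¹ • w, r) : (ι → ℝ) × ℝ) ∈ K := by
    refine ⟨⟨⟨fun i => ?_, ?_⟩, ⟨hr0, hrR⟩⟩, ?_⟩
    · exact mul_nonneg (inv_nonneg.mpr hs.le) (hw i)
    · show ∑ i, (∑ i, w i)⁻¹ * w i = 1
      rw [← Finset.mul_sum]
      exact inv_mul_cancel₀ hs.ne'
    · intro i
      show r * ((∑ i, w i)⁻¹ * w i) ≤ A.mulVec ((∑ i, w i)⁻¹ • w) i
      rw [Matrix.mulVec_smul]
      show r * ((∑ i, w i)⁻¹ * w i) ≤ (∑ i, w i)⁻¹ * A.mulVec w i
      have := mul_le_mul_of_nonneg_left (hr i) (inv_nonneg.mpr hs.le)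
      calc r * ((∑ i, w i)⁻¹ * w i) = (∑ i, w i)⁻¹ * (r * w i) := by ring
        _ ≤ _ := this
  exact hxmax hmem

theorem pf_real {ι : Type*} [Fintype ι] [DecidableEq ι] [Nonempty ι] (A : Matrix ι ι ℝ)
    (p : ℕ) (h1 : ∀ i j, 0 < (∑ l ∈ Finset.range p, A ^ l) i j)
    (v : ι → ℝ) (L : ℝ) (hv : ∀ i, 0 < v i) (hAv : A.mulVec v = L • v) (u : ι → ℝ)
    (hu : A.mulVec u = L • u) : ∃ c : ℝ, ∀ i, u i = c * v i := by
  obtain ⟨i0, hi0⟩ := Finite.exists_min (fun i => u i / v i)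
  refine ⟨u i0 / v i0, ?_⟩
  set c : ℝ := u i0 / v i0 with hc
  set x : ι → ℝ := u - c • v with hx
  have hx0 : ∀ i, 0 ≤ x i := by
    intro i
    show 0 ≤ u i - c * v i
    have := hi0 i
    rw [le_div_iff₀ (hv i)] at this
    linarith
  have hxi0 : x i0 = 0 := by
    show u i0 - c * v i0 = 0
    rw [hc, div_mul_cancel₀ _ (hv i0).ne', sub_self]
  have hAx : A.mulVec x = L • x := by
    rw [hx, Matrix.mulVec_sub, Matrix.mulVec_smul, hu, hAv, smul_sub, smul_comm]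
  by_cases hxz : x = 0
  · intro i
    have : x i = 0 := by rw [hxz]; rfl
    have h2 : u i - c * v i = 0 := this
    linarith
  · exfalso
    have h2 := pf_pos _ h1 x hx0 hxz i0
    rw [pf_sum A x L hAx p] at h2
    have h3 : ((∑ l ∈ Finset.range p, L ^ l) • x) i0 = 0 := by
      show (∑ l ∈ Finset.range p, L ^ l) * x i0 = 0
      rw [hxi0, mul_zero]
    rw [h3] at h2
    exact lt_irrefl _ h2

theorem perron {ι : Type*} [Fintype ι] [DecidableEq ι] [Nonempty ι] (A : Matrix ι ι ℝ)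
    (h0 : ∀ i j, 0 ≤ A i j) (p : ℕ) (h1 : ∀ i j, 0 < (∑ l ∈ Finset.range p, A ^ l) i j)
    (h2 : ∃ i j, 0 < A i j) :
    ∃ (v : ι → ℝ) (Λ : ℝ), (∀ i, 0 < v i) ∧ ∑ i, v i = 1 ∧ 0 < Λ ∧ A.mulVec v = Λ • v ∧
      ∀ u : ι → ℂ, (A.map (algebraMap ℝ ℂ)).mulVec u = (Λ : ℂ) • u →
        ∃ c : ℂ, u = fun i => c * (v i : ℂ) := by
  obtain ⟨v, L, hv0, hvs, hL0, hLv, hmax⟩ := pf_max A h0
  set Q : Matrix ι ι ℝ := ∑ l ∈ Finset.range p, A ^ l with hQ
  have hvne : v ≠ 0 := by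
    rintro rfl
    simp at hvs
  have hcomm : A * Q = Q * A := by
    rw [hQ, Finset.mul_sum, Finset.sum_mul]
    exact Finset.sum_congr rfl fun l _ => by rw [← pow_succ, ← pow_succ']
  have hAv : A.mulVec v = L • v := by
    by_contra hne
    set z : ι → ℝ := A.mulVec v - L • v with hz
    have hz0 : ∀ i, 0 ≤ z i := by
      intro i
      show 0 ≤ A.mulVec v i - L * v i
      linarith [hLv i]
    have hzne : z ≠ 0 := fun h => hne (sub_eq_zero.mp h)
    have hQz := pf_pos Q h1 z hz0 hzne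
    have hQv := pf_pos Q h1 v hv0 hvne
    obtain ⟨i0, hi0⟩ := Finite.exists_min (fun i => Q.mulVec z i / Q.mulVec v i)
    set ε : ℝ := Q.mulVec z i0 / Q.mulVec v i0 with hε
    have hε0 : 0 < ε := div_pos (hQz i0) (hQv i0)
    have hkey : A.mulVec (Q.mulVec v) = L • Q.mulVec v + Q.mulVec z := by
      rw [hz, Matrix.mulVec_sub, Matrix.mulVec_smul, Matrix.mulVec_mulVec, Matrix.mulVec_mulVec,
        hcomm]
      abel
    have h3 := hmax (Q.mulVec v) (L + ε) (fun i => (hQv i).le)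
      (Finset.sum_pos (fun i _ => hQv i) Finset.univ_nonempty) (by linarith) (fun i => by
        rw [hkey]
        show (L + ε) * Q.mulVec v i ≤ L * Q.mulVec v i + Q.mulVec z i
        have := hi0 i
        rw [le_div_iff₀ (hQv i)] at this
        linarith)
    linarith
  have hv : ∀ i, 0 < v i := by
    intro i
    have h3 := pf_pos Q h1 v hv0 hvne i
    rw [pf_sum A v L hAv p] at h3
    have h4 : 0 < (∑ l ∈ Finset.range p, L ^ l) * v i := h3
    rcases (hv0 i).lt_or_eq with h5 | h5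
    · exact h5
    · rw [← h5, mul_zero] at h4
      exact absurd h4 (lt_irrefl _)
  obtain ⟨i0, j0, hij⟩ := h2
  have hL : 0 < L := by
    have h3 : A.mulVec v i0 = L * v i0 := by rw [hAv]; rfl
    have h4 : 0 < A.mulVec v i0 := by
      unfold Matrix.mulVec dotProduct
      exact Finset.sum_pos' (fun k _ => mul_nonneg (h0 i0 k) (hv0 k))
        ⟨j0, Finset.mem_univ j0, mul_pos hij (hv j0)⟩
    rw [h3] at h4
    exact (pos_iff_pos_of_mul_pos h4).mpr (hv i0)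
  refine ⟨v, L, hv, hvs, hL, hAv, ?_⟩
  intro u hu
  have hre : A.mulVec (fun i => (u i).re) = L • fun i => (u i).re := by
    funext i
    have h3 := congrArg Complex.re (congrFun hu i)
    simp only [Matrix.mulVec, dotProduct, Matrix.map_apply, Pi.smul_apply, smul_eq_mul] at h3 ⊢
    rw [Complex.re_sum] at h3
    simp only [Complex.coe_algebraMap, Complex.re_ofReal_mul] at h3
    exact h3
  have him : A.mulVec (fun i => (u i).im) = L • fun i => (u i).im := by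
    funext i
    have h3 := congrArg Complex.im (congrFun hu i)
    simp only [Matrix.mulVec, dotProduct, Matrix.map_apply, Pi.smul_apply, smul_eq_mul] at h3 ⊢
    rw [Complex.im_sum] at h3
    simp only [Complex.coe_algebraMap, Complex.im_ofReal_mul] at h3
    exact h3
  obtain ⟨a, ha⟩ := pf_real A p h1 v L hv hAv _ hre
  obtain ⟨b, hb⟩ := pf_real A p h1 v L hv hAv _ him
  refine ⟨⟨a, b⟩, funext fun i => ?_⟩
  apply Complex.ext
  · simp only [Complex.mul_re, Complex.ofReal_re, Complex.ofReal_im, mul_zero, sub_zero]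
    exact ha i
  · simp only [Complex.mul_im, Complex.ofReal_re, Complex.ofReal_im, mul_zero, zero_add]
    exact hb i

end H906C
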