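import Pool.Agent.H906R3.CY.Defs
import Pool.Agent.H906R3.CY.W1b

namespace H906C
open Pool.Agent.H863R2.Cyl
open Pool.Agent.H863R2.Cyl.Sem1Aux (Inc RH Cons exists_ht Sh_eq)
open Pool.Agent.H988R2.Perc (Word)

theorem t4_count : ∀ (w w' : List Bool), w.length = w'.length →
    (∀ i, i < w.length → w.getD i true = true → w'.getD i true = true) →
    w.count true ≤ w'.count true := by
  intro w
  induction w with
  | nil => intro w' _ _; simp
  | cons a w ih =>
    intro w' hl hi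
    cases w' with
    | nil => simp at hl
    | cons b w' =>
      have hl' : w.length = w'.length := by simpa using hl
      have h1 := ih w' hl' (fun i hi' hw => by
        have := hi (i + 1) (by simpa using hi') (by simpa using hw)
        simpa using this)
      have h0 := hi 0 (by simp)
      simp only [List.getD_cons_zero] at h0
      cases a with
      | true =>
        have hb := h0 rfl
        subst hb
        simp only [List.count_cons_self]
        omega
      | false =>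
        rw [List.count_cons_of_ne (by decide)]
        exact h1.trans (List.count_le_count_cons)

theorem t4_list : ∀ (w w' : List Bool), w.length = w'.length → w.count true = w'.count true →
    (∀ i, i < w.length → w.getD i true = true → w'.getD i true = true) → w = w' := by
  intro w
  induction w with
  | nil => intro w' hl _ _; symm; simpa using hl.symm
  | cons a w ih =>
    intro w' hl hc hi
    cases w' with
    | nil => simp at hl
    | cons b w' =>
      have hl' : w.length = w'.length := by simpa using hl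
      have hi' : ∀ i, i < w.length → w.getD i true = true → w'.getD i true = true :=
        (fun i hi' hw => by
          have := hi (i + 1) (by simpa using hi') (by simpa using hw)
          simpa using this)
      have h1 := t4_count w w' hl' hi'
      have h0 := hi 0 (by simp)
      simp only [List.getD_cons_zero] at h0
      cases a with
      | true =>
        have hb := h0 rfl
        subst hb
        simp only [List.count_cons_self] at hc
        rw [ih w' hl' (by omega) hi']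
      | false =>
        cases b with
        | true =>
          rw [List.count_cons_of_ne (by decide), List.count_cons_self] at hc
          omega
        | false =>
          rw [List.count_cons_of_ne (by decide), List.count_cons_of_ne (by decide)] at hc
          rw [ih w' hl' hc hi']

theorem t4_sg (w : Word) (j : ℤ) : sg w j = 1 ∨ sg w j = -1 := by
  unfold sg
  split
  · exact Or.inl rfl
  · exact Or.inr rfl

theorem t4_sg_nat {m : ℕ} (σ : Wd (m + 1)) (i : ℕ) :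
    sg σ.1 (i : ℤ) = if σ.1.getD (ix m i).val true = true then 1 else -1 := by
  unfold sg
  have h1 : ((i : ℤ) % (σ.1.length : ℤ)).toNat = (ix m i).val := by
    rw [σ.2.1]
    simp only [ix]
    rw [← Int.natCast_mod, Int.toNat_natCast]
  rw [h1]

theorem t4_arc {m : ℕ} (he : Even (m + 1)) (σ : Wd (m + 1)) (i : ℕ) (hs : sg σ.1 i = 1) :
    ∃ l : ℕ, l < m + 1 ∧ Arc σ.1 i (i + l) := by
  classical
  obtain ⟨H, hH, _⟩ := exists_ht (sg σ.1)
  have hp := ht_per he σ H hH i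
  have hex : ∃ n : ℕ, H (i + 1 + n) = H i := ⟨m, by rw [← hp]; congr 1; ring⟩
  have hn := Nat.find_spec hex
  have hmin : ∀ j, j < Nat.find hex → H (i + 1 + j) ≠ H i := fun j hj => Nat.find_min hex hj
  have hle : Nat.find hex ≤ m := Nat.find_min' hex (by rw [← hp]; congr 1; ring)
  generalize Nat.find hex = n at hn hmin hle
  have h1 : H (i + 1) = H i + 1 := by rw [hH, hs]
  have hn0 : n ≠ 0 := by
    rintro rfl
    simp at hn
    omega
  have hpos : ∀ j : ℕ, j < n → H i < H (i + 1 + j) := by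
    intro j
    induction j with
    | zero => intro _; simp; omega
    | succ j ih =>
      intro hj
      have h2 := ih (by omega)
      have h3 := hmin (j + 1) hj
      have h4 : H (i + 1 + ((j + 1 : ℕ) : ℤ)) = H (i + 1 + j) + sg σ.1 (i + 1 + j) := by
        rw [← hH]; congr 1
      rcases t4_sg σ.1 (i + 1 + j) with h5 | h5 <;> rw [h5] at h4 <;> omega
  refine ⟨n, by omega, ?_, ?_, ?_⟩
  · omega
  · rw [Sh_eq hH _ _ (by omega)]
    have : ((i : ℤ) + n + 1) = i + 1 + n := by ring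
    rw [this, hn, sub_self]
  · intro l hl hl'
    rw [Sh_eq hH _ _ (by omega)]
    have h2 := hpos (l - i - 1).toNat (by omega)
    have h3 : ((i : ℤ) + 1 + ((l - i - 1).toNat : ℤ)) = l := by omega
    rw [h3] at h2
    omega

theorem t4_arc_open {m : ℕ} (σ : Wd (m + 1)) (i l : ℕ) (h : Arc σ.1 i (i + l)) :
    1 ≤ l ∧ σ.1.getD (ix m i).val true = true ∧ σ.1.getD (ix m (i + l)).val true = false := by
  obtain ⟨H, hH, _⟩ := exists_ht (sg σ.1)
  obtain ⟨h1, h2, h3⟩ := h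
  have hl : 1 ≤ l := by omega
  have h4 := h3 (i + 1) (by omega) (by omega)
  rw [Sh_eq hH _ _ (by omega), hH] at h4
  have h5 := h3 (i + l) (by omega) (by omega)
  rw [Sh_eq hH _ _ (by omega)] at h5
  rw [Sh_eq hH _ _ (by omega), hH] at h2
  refine ⟨hl, ?_, ?_⟩
  · have := t4_sg_nat σ i
    by_contra hc
    rw [if_neg hc] at this
    omega
  · have := t4_sg_nat σ (i + l)
    by_contra hc
    rw [if_pos (by simpa using hc)] at this
    push_cast at this
    omega

/-- the complementary spins -/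
def t4s {m : ℕ} (τ : Wd (m + 1)) : Fin (m + 1) → Bool := fun k => !(τ.1.getD k.val true)

theorem t4_ne {m : ℕ} (he : Even (m + 1)) (σ τ : Wd (m + 1)) (h : τ ≠ σ) :
    ∃ i l : ℕ, i < m + 1 ∧ l < m + 1 ∧ Arc σ.1 i (i + l) ∧ t4s τ (ix m i) = true := by
  by_contra hc
  push Not at hc
  apply h
  symm
  apply Subtype.ext
  apply t4_list
  · rw [σ.2.1, τ.2.1]
  · have h1 := σ.2.2
    have h2 := τ.2.2
    unfold Ok at h1 h2
    rw [h1, h2, σ.2.1, τ.2.1]
  · intro i hi hw
    rw [σ.2.1] at hi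
    have hix : (ix m i).val = i := by simp [ix, Nat.mod_eq_of_lt hi]
    obtain ⟨l, hl, ha⟩ := t4_arc he σ i (by rw [t4_sg_nat, hix, if_pos hw])
    have h3 := hc i l hi hl ha
    unfold t4s at h3
    rw [hix] at h3
    simpa using h3

theorem t4_q {q : ℂ} (hq : q ^ 2 + q + 1 = 0) : ‖q‖ = 1 := by
  have h3 : q ^ 3 = 1 := by linear_combination (q - 1) * hq
  have h4 : ‖q‖ ^ 3 = 1 := by rw [← norm_pow, h3, norm_one]
  exact (pow_eq_one_iff_of_nonneg (norm_nonneg _) (by norm_num)).1 h4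

theorem t4_aw_le {q : ℂ} (hq : ‖q‖ = 1) (ζ : ℂˣ) (hζ : 1 ≤ ‖(ζ : ℂ)‖) (l : ℕ) (a b : Bool) :
    ‖aw q ζ l a b‖ ≤ ‖(ζ : ℂ)‖ ^ l := by
  unfold aw
  split
  · simp
  · split
    · rw [Units.val_pow_eq_pow_val, norm_pow, Units.val_inv_eq_inv_val, norm_inv]
      apply pow_le_pow_left₀ (by positivity)
      exact (inv_le_one_of_one_le₀ hζ).trans hζ
    · rw [norm_mul, norm_neg, norm_pow, hq, one_pow, one_mul, Units.val_pow_eq_pow_val, norm_pow]

theorem t4_aw_lt {q : ℂ} (ζ : ℂˣ) (hζ : 1 ≤ ‖(ζ : ℂ)‖) (l : ℕ) (hl : 1 ≤ l)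
    (b : Bool) :
    ‖aw q ζ l true b‖ ≤ ‖(ζ : ℂ)‖ ^ l * (‖(ζ : ℂ)‖ ^ 2)⁻¹ := by
  unfold aw
  split
  · rw [norm_zero]; positivity
  · rw [if_pos rfl, Units.val_pow_eq_pow_val, norm_pow, Units.val_inv_eq_inv_val, norm_inv, inv_pow]
    have hp : 0 < ‖(ζ : ℂ)‖ := by linarith
    rw [← div_eq_mul_inv, le_div_iff₀ (by positivity), inv_mul_le_iff₀ (by positivity), ← pow_add]
    exact pow_le_pow_right₀ hζ (by omega)

theorem t4_aw_eq {q : ℂ} (hq : ‖q‖ = 1) (ζ : ℂˣ) (l : ℕ) :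
    ‖aw q ζ l false true‖ = ‖(ζ : ℂ)‖ ^ l := by
  unfold aw
  rw [if_neg (by decide), if_neg (by decide), norm_mul, norm_neg, norm_pow, hq, one_pow, one_mul,
    Units.val_pow_eq_pow_val, norm_pow]

open Classical in
/-- the scale of a column -/
noncomputable def t4L {m : ℕ} (σ : Wd (m + 1)) (r : ℝ) : ℝ :=
  ∏ i ∈ Finset.range (m + 1), ∏ l ∈ Finset.range (m + 1),
    if Arc σ.1 i (i + l) then r ^ l else 1

theorem t4L_pos {m : ℕ} (σ : Wd (m + 1)) (r : ℝ) (hr : 0 < r) : 0 < t4L σ r := by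
  unfold t4L
  apply Finset.prod_pos
  intro i _
  apply Finset.prod_pos
  intro l _
  split <;> positivity

theorem t4_prod_le {ι : Type*} [DecidableEq ι] (S : Finset ι) (f g : ι → ℝ) (c : ℝ) (hc : 0 ≤ c)
    (h0 : ∀ i ∈ S, 0 ≤ f i) (h1 : ∀ i ∈ S, f i ≤ g i) (i0 : ι) (hi : i0 ∈ S)
    (h2 : f i0 ≤ g i0 * c) : ∏ i ∈ S, f i ≤ (∏ i ∈ S, g i) * c := by
  rw [← Finset.mul_prod_erase S f hi, ← Finset.mul_prod_erase S g hi]
  have h3 : ∏ i ∈ S.erase i0, f i ≤ ∏ i ∈ S.erase i0, g i :=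
    Finset.prod_le_prod (fun i hi => h0 i (Finset.mem_of_mem_erase hi))
      (fun i hi => h1 i (Finset.mem_of_mem_erase hi))
  have h4 : 0 ≤ ∏ i ∈ S.erase i0, f i :=
    Finset.prod_nonneg (fun i hi => h0 i (Finset.mem_of_mem_erase hi))
  calc f i0 * ∏ i ∈ S.erase i0, f i ≤ (g i0 * c) * ∏ i ∈ S.erase i0, g i :=
        mul_le_mul h2 h3 h4 ((h0 i0 hi).trans h2)
    _ = _ := by ring

theorem t4_diag {m : ℕ} {q : ℂ} (hq : ‖q‖ = 1) (ζ : ℂˣ) (σ : Wd (m + 1)) :
    ‖ThW m q ζ (t4s σ) σ‖ = t4L σ ‖(ζ : ℂ)‖ := by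
  unfold ThW t4L
  rw [norm_prod]
  apply Finset.prod_congr rfl
  intro i _
  rw [norm_prod]
  apply Finset.prod_congr rfl
  intro l _
  by_cases h : Arc σ.1 i (i + l)
  · rw [if_pos h, if_pos h]
    obtain ⟨_, h2, h3⟩ := t4_arc_open σ i l h
    have e1 : t4s σ (ix m i) = false := by unfold t4s; rw [h2]; rfl
    have e2 : t4s σ (ix m (i + l)) = true := by unfold t4s; rw [h3]; rfl
    rw [e1, e2, t4_aw_eq hq]
  · rw [if_neg h, if_neg h, norm_one]

theorem t4_off {m : ℕ} (he : Even (m + 1)) {q : ℂ} (hq : ‖q‖ = 1) (ζ : ℂˣ)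
    (hζ : 1 ≤ ‖(ζ : ℂ)‖) (σ τ : Wd (m + 1)) (h : τ ≠ σ) :
    ‖ThW m q ζ (t4s τ) σ‖ ≤ t4L σ ‖(ζ : ℂ)‖ * (‖(ζ : ℂ)‖ ^ 2)⁻¹ := by
  classical
  obtain ⟨i0, l0, hi0, hl0, ha, ht⟩ := t4_ne he σ τ h
  unfold ThW t4L
  rw [← Finset.prod_product', ← Finset.prod_product', norm_prod]
  apply t4_prod_le _ _ _ _ (by positivity) (fun _ _ => norm_nonneg _) ?_ (i0, l0)
    (by simp [hi0, hl0]) ?_
  · rintro ⟨i, l⟩ _
    simp only
    by_cases h : Arc σ.1 i (i + l)
    · rw [if_pos h, if_pos h]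
      exact t4_aw_le hq ζ hζ _ _ _
    · rw [if_neg h, if_neg h, norm_one]
  · simp only
    rw [if_pos ha, if_pos ha, ht]
    exact t4_aw_lt ζ hζ _ (t4_arc_open σ i0 l0 ha).1 _

theorem ThW_inj {m : ℕ} (he : Even (m + 1)) (q : ℂ) (hq : q ^ 2 + q + 1 = 0) :
    ∃ R0 : ℝ, ∀ ζ : ℂˣ, R0 < ‖(ζ : ℂ)‖ →
      ∀ f : Wd (m + 1) → ℂ, (ThW m q ζ).mulVec f = 0 → f = 0 := by
  classical
  refine ⟨(Fintype.card (Wd (m + 1)) : ℝ) + 1, ?_⟩
  intro ζ hζ f hf
  have hq1 := t4_q hq
  set r := ‖(ζ : ℂ)‖ with hr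
  have hcard : (0 : ℝ) ≤ (Fintype.card (Wd (m + 1)) : ℝ) := Nat.cast_nonneg _
  have hr1 : 1 ≤ r := by linarith
  have hr0 : 0 < r := by linarith
  by_cases hne : Nonempty (Wd (m + 1))
  swap
  · funext σ; exact (hne ⟨σ⟩).elim
  obtain ⟨σ0, hmax⟩ := Finite.exists_max (fun σ => t4L σ r * ‖f σ‖)
  have h1 : ∑ σ, ThW m q ζ (t4s σ0) σ * f σ = 0 := by
    have := congrFun hf (t4s σ0)
    simpa [Matrix.mulVec, dotProduct] using this
  rw [← Finset.add_sum_erase _ _ (Finset.mem_univ σ0)] at h1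
  have h2 : ‖ThW m q ζ (t4s σ0) σ0 * f σ0‖
      = ‖∑ σ ∈ Finset.univ.erase σ0, ThW m q ζ (t4s σ0) σ * f σ‖ := by
    rw [eq_neg_of_add_eq_zero_left h1, norm_neg]
  rw [norm_mul, t4_diag hq1, ← hr] at h2
  set M := t4L σ0 r * ‖f σ0‖ with hM
  have hM0 : 0 ≤ M := mul_nonneg (t4L_pos σ0 r hr0).le (norm_nonneg _)
  have h3 : ‖∑ σ ∈ Finset.univ.erase σ0, ThW m q ζ (t4s σ0) σ * f σ‖
      ≤ (Fintype.card (Wd (m + 1)) : ℝ) * (M * (r ^ 2)⁻¹) := by
    refine (norm_sum_le _ _).trans ?_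
    refine (Finset.sum_le_card_nsmul _ _ (M * (r ^ 2)⁻¹) ?_).trans ?_
    · intro σ hσ
      rw [norm_mul]
      have h4 := t4_off he hq1 ζ hr1 σ σ0 (Finset.ne_of_mem_erase hσ).symm
      have h5 := hmax σ
      calc _ ≤ (t4L σ r * (r ^ 2)⁻¹) * ‖f σ‖ := mul_le_mul_of_nonneg_right h4 (norm_nonneg _)
        _ = (t4L σ r * ‖f σ‖) * (r ^ 2)⁻¹ := by ring
        _ ≤ M * (r ^ 2)⁻¹ := mul_le_mul_of_nonneg_right h5 (by positivity)
    · rw [nsmul_eq_mul]
      apply mul_le_mul_of_nonneg_right _ (by positivity)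
      exact_mod_cast (Finset.card_le_univ _)
  rw [← h2] at h3
  have hMz : M = 0 := by
    by_contra hMn
    have hMp : 0 < M := lt_of_le_of_ne hM0 (Ne.symm hMn)
    have h6 : (Fintype.card (Wd (m + 1)) : ℝ) * (r ^ 2)⁻¹ < 1 := by
      rw [← div_eq_mul_inv, div_lt_one (by positivity)]
      nlinarith
    nlinarith
  funext σ
  have h7 : t4L σ r * ‖f σ‖ ≤ M := hmax σ
  rw [hMz] at h7
  have h8 := t4L_pos σ r hr0
  have h9 : ‖f σ‖ ≤ 0 := by
    by_contra h10
    push Not at h10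
    have := mul_pos h8 h10
    linarith
  simpa using h9

end H906C
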