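import Pool.Agent.H906R3.CY.Defs
import Pool.Agent.H906R3.CY.T3
import Pool.Agent.H906R3.CY.T4
import Pool.Agent.H906R3.K6.V1

/-! T5: the transfer matrices on words commute for every weight. -/

namespace H906C
open Pool.Agent.H863R2.Cyl
open Pool.Agent.H863R2.Cyl.Sem1Aux (Inc RH Cons)
open Pool.Agent.H988R2.Perc (Word)
open Polynomial MeasureTheory Filter Topology



/-- polynomial functions -/
def t5_Pol (f : ℂ → ℂ) : Prop := ∃ P : Polynomial ℂ, ∀ w : ℂ, f w = P.eval w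

theorem t5_const (a : ℂ) : t5_Pol (fun _ => a) := ⟨C a, fun w => by simp⟩

theorem t5_pow (k : ℕ) : t5_Pol (fun w => w ^ k) := ⟨X ^ k, fun w => by simp⟩

theorem t5_add {f g : ℂ → ℂ} (hf : t5_Pol f) (hg : t5_Pol g) : t5_Pol (fun w => f w + g w) := by
  obtain ⟨P, hP⟩ := hf
  obtain ⟨Q, hQ⟩ := hg
  exact ⟨P + Q, fun w => by simp only [hP, hQ, eval_add]⟩

theorem t5_mul {f g : ℂ → ℂ} (hf : t5_Pol f) (hg : t5_Pol g) : t5_Pol (fun w => f w * g w) := by
  obtain ⟨P, hP⟩ := hf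
  obtain ⟨Q, hQ⟩ := hg
  exact ⟨P * Q, fun w => by simp only [hP, hQ, eval_mul]⟩

theorem t5_sum {ι : Type*} (s : Finset ι) (f : ι → ℂ → ℂ) (h : ∀ i ∈ s, t5_Pol (f i)) :
    t5_Pol (fun w => ∑ i ∈ s, f i w) := by
  classical
  induction s using Finset.induction_on with
  | empty => simpa using t5_const 0
  | insert a s ha ih =>
    have h1 := t5_add (h a (Finset.mem_insert_self a s))
      (ih (fun i hi => h i (Finset.mem_insert_of_mem hi)))
    have e : (fun w => ∑ i ∈ insert a s, f i w) = fun w => f a w + ∑ i ∈ s, f i w := by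
      funext w
      rw [Finset.sum_insert ha]
    rw [e]
    exact h1

theorem t5_eq_zero {f : ℂ → ℂ} (hf : t5_Pol f) (R0 : ℝ) (N : ℕ) (hN : N ≠ 0)
    (h0 : ∀ ζ : ℂˣ, R0 < ‖(ζ : ℂ)‖ → f (((ζ ^ N : ℂˣ) : ℂ) + (((ζ⁻¹) ^ N : ℂˣ) : ℂ)) = 0) (w : ℂ) :
    f w = 0 := by
  obtain ⟨P, hP⟩ := hf
  have hP0 : P = 0 := by
    have hpos : ∀ n : ℕ, (1 : ℝ) < (n : ℝ) + (|R0| + 2) := fun n => by
      have h2 := abs_nonneg R0
      have h3 : (0 : ℝ) ≤ n := Nat.cast_nonneg n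
      linarith
    apply Polynomial.eq_zero_of_infinite_isRoot
    refine Set.infinite_of_injective_forall_mem (f := fun n : ℕ =>
      (((((n : ℝ) + (|R0| + 2)) ^ N + (((n : ℝ) + (|R0| + 2)) ^ N)⁻¹ : ℝ)) : ℂ)) ?_ ?_
    · intro a b hab
      simp only [Complex.ofReal_inj] at hab
      have ha : (1 : ℝ) < ((a : ℝ) + (|R0| + 2)) ^ N := one_lt_pow₀ (hpos a) hN
      have hb : (1 : ℝ) < ((b : ℝ) + (|R0| + 2)) ^ N := one_lt_pow₀ (hpos b) hN
      have hab' : ((a : ℝ) + (|R0| + 2)) ^ N = ((b : ℝ) + (|R0| + 2)) ^ N := by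
        generalize ((a : ℝ) + (|R0| + 2)) ^ N = u at hab ha
        generalize ((b : ℝ) + (|R0| + 2)) ^ N = v at hab hb
        have hu : u ≠ 0 := by linarith
        have hv : v ≠ 0 := by linarith
        have h1 : (u - v) * (u * v - 1) = 0 := by
          field_simp at hab
          linear_combination hab
        rcases mul_eq_zero.1 h1 with h2 | h2
        · linarith
        · nlinarith
      have h4 : (a : ℝ) + (|R0| + 2) = (b : ℝ) + (|R0| + 2) :=
        (pow_left_inj₀ (by linarith [hpos a]) (by linarith [hpos b]) hN).1 hab'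
      have h5 : (a : ℝ) = (b : ℝ) := by linarith
      exact_mod_cast h5
    · intro n
      have hne : (((n : ℝ) + (|R0| + 2) : ℝ) : ℂ) ≠ 0 := by
        rw [Ne, Complex.ofReal_eq_zero]
        linarith [hpos n]
      have h1 := h0 (Units.mk0 _ hne) (by
        rw [Units.val_mk0, Complex.norm_real, Real.norm_of_nonneg (by linarith [hpos n])]
        have h2 := le_abs_self R0
        have h3 : (0 : ℝ) ≤ n := Nat.cast_nonneg n
        linarith)
      rw [hP] at h1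
      simp only [Units.val_pow_eq_pow_val, Units.val_inv_eq_inv_val, Units.val_mk0] at h1
      show P.eval _ = 0
      rw [← h1]
      congr 1
      push_cast
      rw [inv_pow]
  rw [hP, hP0, eval_zero]

theorem t5_TW (m : ℕ) (q x : ℂ) (τ σ : Wd (m + 1)) : t5_Pol (fun w => TW m q x w τ σ) := by
  classical
  unfold TW
  apply t5_sum
  intro c _
  by_cases h : Tc m c σ = τ
  · simp only [h, if_true]
    exact t5_mul (t5_const _) (t5_pow _)
  · simp only [h, if_false]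
    exact t5_const 0

theorem t5_mulTW (m : ℕ) (q x y : ℂ) (τ σ : Wd (m + 1)) :
    t5_Pol (fun w => (TW m q x w * TW m q y w) τ σ) := by
  simp only [Matrix.mul_apply]
  apply t5_sum
  intro k _
  exact t5_mul (t5_TW m q x τ k) (t5_TW m q y k σ)

theorem TW_comm {m : ℕ} (he : Even (m + 1)) (q x y w : ℂ) (hq : q ^ 2 + q + 1 = 0) :
    TW m q x w * TW m q y w = TW m q y w * TW m q x w := by
  obtain ⟨R0, hR⟩ := ThW_inj he q hq
  have key : ∀ (ζ : ℂˣ), R0 < ‖(ζ : ℂ)‖ → ∀ τ σ,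
      (TW m q x (((ζ ^ (m + 1) : ℂˣ) : ℂ) + (((ζ⁻¹) ^ (m + 1) : ℂˣ) : ℂ)) *
        TW m q y (((ζ ^ (m + 1) : ℂˣ) : ℂ) + (((ζ⁻¹) ^ (m + 1) : ℂˣ) : ℂ))) τ σ =
      (TW m q y (((ζ ^ (m + 1) : ℂˣ) : ℂ) + (((ζ⁻¹) ^ (m + 1) : ℂˣ) : ℂ)) *
        TW m q x (((ζ ^ (m + 1) : ℂˣ) : ℂ) + (((ζ⁻¹) ^ (m + 1) : ℂˣ) : ℂ))) τ σ := by
    intro ζ hζ τ σ
    have f1 := TV_ThW he q x hq ζ
    have f2 := TV_ThW he q y hq ζ
    generalize (((ζ ^ (m + 1) : ℂˣ) : ℂ) + (((ζ⁻¹) ^ (m + 1) : ℂˣ) : ℂ)) = w0 at f1 f2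
    have e1 : ThW m q ζ * (TW m q x w0 * TW m q y w0) =
        ThW m q ζ * (TW m q y w0 * TW m q x w0) := by
      rw [← Matrix.mul_assoc, ← f1, Matrix.mul_assoc, ← f2,
        ← Matrix.mul_assoc, H906K.TV_comm m q x y hq ζ, Matrix.mul_assoc, f1,
        ← Matrix.mul_assoc, f2, Matrix.mul_assoc]
    have e2 : (ThW m q ζ).mulVec (fun τ => (TW m q x w0 * TW m q y w0) τ σ -
        (TW m q y w0 * TW m q x w0) τ σ) = 0 := by
      funext s
      have e3 := congrFun (congrFun e1 s) σ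
      rw [Matrix.mul_apply, Matrix.mul_apply] at e3
      simp only [Matrix.mulVec, dotProduct, mul_sub, Finset.sum_sub_distrib, Pi.zero_apply]
      rw [e3, sub_self]
    have e4 := congrFun (hR ζ hζ _ e2) τ
    simp only [Pi.zero_apply] at e4
    exact sub_eq_zero.mp e4
  ext τ σ
  have h1 : t5_Pol (fun w => (TW m q x w * TW m q y w) τ σ +
      (-1) * (TW m q y w * TW m q x w) τ σ) :=
    t5_add (t5_mulTW _ q x y τ σ) (t5_mul (t5_const (-1)) (t5_mulTW _ q y x τ σ))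
  have h2 := t5_eq_zero h1 R0 (m + 1) (by omega) (fun ζ hζ => by
    rw [key ζ hζ τ σ]; ring) w
  linear_combination h2

end H906C
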