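import Pool.Agent.H906R3.CY.Defs
import Pool.Agent.H906R3.CY.W1b
import Pool.Agent.H906R3.CY.W3
import Pool.Agent.H906R3.CY.IRR
import Pool.Agent.H906R3.CY.PF
import Pool.Agent.H906R3.CY.COL
import Pool.Agent.H906R3.CY.T3
import Pool.Agent.H906R3.CY.T5
import Pool.Agent.H906R3.CY.NZ
import Pool.Agent.H906R3.K6.E3

/-!
# SPEC: assembly of the algebraic part
-/

set_option linter.unusedSectionVars false

namespace H906C
open Pool.Agent.H863R2.Cyl
open Polynomial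

theorem spec_wt1 (b : Bool) : wt H906K.om b (1 : ℂ) = 1 := by
  have h := H906K.e3_om
  unfold wt
  cases b
  · simp only [Bool.false_eq_true, if_false]; linear_combination -h
  · simp only [if_true]; linear_combination -h

theorem spec_kT_le {m : ℕ} (c : Fin (m + 1) → Bool) (σ : Wd (m + 1)) :
    kT m c σ = 0 ∨ kT m c σ = 1 := by
  unfold kT
  split_ifs
  · exact Or.inr rfl
  · exact Or.inl rfl

theorem spec_TW_one (m : ℕ) : TW m H906K.om (1 : ℂ) 0 = (AA m).map (algebraMap ℝ ℂ) := by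
  classical
  ext τ σ
  rw [Matrix.map_apply]
  unfold TW AA
  rw [map_sum]
  refine Finset.sum_congr rfl fun c _ => ?_
  have h1 : ∏ j, wt H906K.om (c j) (1 : ℂ) = 1 := Finset.prod_eq_one fun j _ => spec_wt1 _
  rw [h1, one_mul]
  rcases spec_kT_le c σ with h | h
  · by_cases hT : Tc m c σ = τ
    · rw [if_pos hT, if_pos ⟨hT, h⟩, h]; simp
    · rw [if_neg hT, if_neg (fun h' => hT h'.1)]; simp
  · by_cases hT : Tc m c σ = τ
    · rw [if_pos hT, if_neg (fun h' => by rw [h] at h'; exact one_ne_zero h'.2), h]; simp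
    · rw [if_neg hT, if_neg (fun h' => hT h'.1)]; simp

theorem spec_AA_nonneg (m : ℕ) (τ σ : Wd (m + 1)) : 0 ≤ AA m τ σ := by
  unfold AA
  refine Finset.sum_nonneg fun c _ => ?_
  split_ifs <;> norm_num

theorem spec_AA_pos {m : ℕ} (he : Even (m + 1)) (σ : Wd (m + 1)) :
    ∃ τ, 0 < AA m τ σ := by
  classical
  refine ⟨Tc m (fun _ => true) σ, ?_⟩
  unfold AA
  refine Finset.sum_pos' (fun c _ => ?_) ⟨fun _ => true, Finset.mem_univ _, ?_⟩
  · split_ifs <;> norm_num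
  · rw [if_pos ⟨rfl, kT_true he _ (fun _ => rfl) σ⟩]
    norm_num

/-- the unit `exp (iπ/(2N))` -/
theorem spec_zeta (N : ℕ) (hN : 1 ≤ N) : ∃ ζ : ℂˣ,
    ((ζ ^ N : ℂˣ) : ℂ) + (((ζ⁻¹) ^ N : ℂˣ) : ℂ) = 0 ∧
    ((ζ ^ (3 * N) : ℂˣ) : ℂ) + (((ζ⁻¹) ^ (3 * N) : ℂˣ) : ℂ) = 0 := by
  have hN0 : (N : ℂ) ≠ 0 := by
    have : N ≠ 0 := by omega
    exact_mod_cast this
  set z : ℂ := Complex.exp (Real.pi * Complex.I / (2 * N)) with hz
  have hz0 : z ≠ 0 := Complex.exp_ne_zero _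
  have hzN : z ^ N = Complex.I := by
    rw [hz, ← Complex.exp_nat_mul]
    have : (N : ℂ) * (Real.pi * Complex.I / (2 * N)) = Real.pi / 2 * Complex.I := by
      field_simp
    rw [this, Complex.exp_pi_div_two_mul_I]
  refine ⟨Units.mk0 z hz0, ?_, ?_⟩
  · rw [Units.val_pow_eq_pow_val, Units.val_pow_eq_pow_val, Units.val_inv_eq_inv_val, inv_pow,
      Units.val_mk0, hzN]
    simp
  · rw [Units.val_pow_eq_pow_val, Units.val_pow_eq_pow_val, Units.val_inv_eq_inv_val, inv_pow,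
      Units.val_mk0, mul_comm 3 N, pow_mul, hzN]
    simp [pow_succ]

/-- masses of the numbers of minimal faces -/
noncomputable def spp {m : ℕ} (v : Wd (m + 1) → ℝ) (j : ℕ) : ℝ :=
  ∑ σ ∈ Finset.univ.filter (fun σ => nF σ = j), v σ

/-- the eigenvalue as a polynomial -/
noncomputable def spt {m : ℕ} (v : Wd (m + 1) → ℝ) : ℂ[X] :=
  (1 + X) ^ (m + 1) - ∑ j ∈ Finset.range (m + 1 + 1), C ((spp v j : ℝ) : ℂ) *
    ((1 - X + X ^ 2) ^ j * (1 + X) ^ (m + 1 - 2 * j))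

theorem spt_eval {m : ℕ} (v : Wd (m + 1) → ℝ) (x : ℂ) : (spt v).eval x = (1 + x) ^ (m + 1)
    - ∑ j ∈ Finset.range (m + 1 + 1), ((spp v j : ℝ) : ℂ) *
      ((1 - x + x ^ 2) ^ j * (1 + x) ^ (m + 1 - 2 * j)) := by
  unfold spt
  simp [eval_finsetSum]

theorem spp_fiber {m : ℕ} (he : Even (m + 1)) (v : Wd (m + 1) → ℝ) (g : ℕ → ℂ) :
    ∑ j ∈ Finset.range (m + 1 + 1), ((spp v j : ℝ) : ℂ) * g j = ∑ σ, (v σ : ℂ) * g (nF σ) := by
  have hmaps : ∀ σ ∈ (Finset.univ : Finset (Wd (m + 1))), nF σ ∈ Finset.range (m + 1 + 1) := by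
    intro σ _
    rw [Finset.mem_range]
    have := (nF_pos he σ).2
    have := (nF_pos he σ).1
    omega
  rw [← Finset.sum_fiberwise_of_maps_to hmaps]
  refine Finset.sum_congr rfl fun j _ => ?_
  unfold spp
  push_cast
  rw [Finset.sum_mul]
  refine Finset.sum_congr rfl fun σ hσ => ?_
  rw [(Finset.mem_filter.1 hσ).2]

theorem spec_main {m : ℕ} (he : Even (m + 1)) (v : Wd (m + 1) → ℝ) (Λ : ℝ)
    (hsum : ∑ σ, v σ = 1)
    (hev : (AA m).mulVec v = Λ • v)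
    (hsimple : ∀ u : Wd (m + 1) → ℂ, ((AA m).map (algebraMap ℝ ℂ)).mulVec u = (Λ : ℂ) • u →
        ∃ c : ℂ, u = fun i => c * (v i : ℂ)) (x : ℂ) :
    (TW m H906K.om x 0).mulVec (fun σ => (v σ : ℂ)) = (spt v).eval x • fun σ => (v σ : ℂ) := by
  set vc : Wd (m + 1) → ℂ := fun σ => (v σ : ℂ) with hvc
  have hone : (TW m H906K.om (1 : ℂ) 0).mulVec vc = (Λ : ℂ) • vc := by
    rw [spec_TW_one]
    funext τ
    have h := congrFun hev τ
    simp only [Matrix.mulVec, dotProduct, Pi.smul_apply, smul_eq_mul] at h ⊢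
    have h' := congrArg (fun r : ℝ => (r : ℂ)) h
    simp only [Complex.ofReal_sum, Complex.ofReal_mul] at h'
    simpa [hvc] using h'
  have hcomm := TW_comm he H906K.om x 1 0 H906K.e3_om
  have hu : ((AA m).map (algebraMap ℝ ℂ)).mulVec ((TW m H906K.om x 0).mulVec vc)
      = (Λ : ℂ) • (TW m H906K.om x 0).mulVec vc := by
    rw [← spec_TW_one, Matrix.mulVec_mulVec, ← hcomm, ← Matrix.mulVec_mulVec, hone,
      Matrix.mulVec_smul]
  obtain ⟨c, hc⟩ := hsimple _ hu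
  have hsumC : ∑ σ, (v σ : ℂ) = 1 := by
    rw [← Complex.ofReal_sum, hsum, Complex.ofReal_one]
  have hcval : c = (spt v).eval x := by
    have h1 : ∑ τ, (TW m H906K.om x 0).mulVec vc τ = c := by
      rw [hc]
      simp only
      rw [← Finset.mul_sum, hsumC, mul_one]
    rw [← h1]
    simp only [Matrix.mulVec, dotProduct]
    rw [Finset.sum_comm]
    simp only [← Finset.sum_mul]
    simp only [TW_col he H906K.om x H906K.e3_om]
    rw [spt_eval, spp_fiber he v (fun j => (1 - x + x ^ 2) ^ j * (1 + x) ^ (m + 1 - 2 * j))]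
    have h2 : (1 + x) ^ (m + 1) = ∑ σ, (v σ : ℂ) * (1 + x) ^ (m + 1) := by
      rw [← Finset.sum_mul, hsumC, one_mul]
    conv_rhs => rw [h2]
    rw [← Finset.sum_sub_distrib]
    refine Finset.sum_congr rfl fun σ _ => ?_
    simp only [hvc]
    ring
  rw [hc, hcval]
  rfl

theorem spec_TVu {m : ℕ} (he : Even (m + 1)) (vc : Wd (m + 1) → ℂ) (ζ : ℂˣ)
    (hζ : ((ζ ^ (m + 1) : ℂˣ) : ℂ) + (((ζ⁻¹) ^ (m + 1) : ℂˣ) : ℂ) = 0) (x T : ℂ)
    (h : (TW m H906K.om x 0).mulVec vc = T • vc) :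
    (H906K.TV m H906K.om x ζ).mulVec ((ThW m H906K.om ζ).mulVec vc)
      = T • (ThW m H906K.om ζ).mulVec vc := by
  rw [Matrix.mulVec_mulVec, TV_ThW he H906K.om x H906K.e3_om ζ, hζ, ← Matrix.mulVec_mulVec, h,
    Matrix.mulVec_smul]

theorem spec_two {m : ℕ} (ζ : ℂˣ) (u : (Fin (m + 1) → Bool) → ℂ) (s0 : Fin (m + 1) → Bool)
    (hs0 : u s0 ≠ 0) (t : ℂ → ℂ)
    (hu : ∀ x, (H906K.TV m H906K.om x ζ).mulVec u = t x • u) :
    ∃ V : ℂ[X], ∀ x : ℂ, t (H906K.om * x) * t (H906K.om ^ 2 * x)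
      = ((1 + H906K.om * x) * (1 + H906K.om ^ 2 * x)) ^ (m + 1) + (1 + x) ^ (m + 1) * V.eval x := by
  classical
  have hq : (C H906K.om : ℂ[X]) ^ 2 + C H906K.om + 1 = 0 := by
    have := congrArg (C : ℂ →+* ℂ[X]) H906K.e3_om
    simpa using this
  set ζX : (ℂ[X])ˣ := Units.map (C : ℂ →+* ℂ[X]).toMonoidHom ζ with hζX
  obtain ⟨T2, hT2⟩ := H906K.fus2 m (C H906K.om : ℂ[X]) X hq ζX
  refine ⟨∑ s', T2 s0 s' * C (u s' / u s0), fun x => ?_⟩
  have hmap : Units.map (evalRingHom x : ℂ[X] →+* ℂ).toMonoidHom ζX = ζ := by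
    apply Units.ext
    show (C (ζ : ℂ) : ℂ[X]).eval x = ζ
    rw [eval_C]
  have hTV : ∀ (a : ℂ) (s s' : Fin (m + 1) → Bool),
      (H906K.TV m (C H906K.om) (C a * X) ζX s s').eval x = H906K.TV m H906K.om (a * x) ζ s s' := by
    intro a s s'
    have h := H906K.e3_TV (evalRingHom x : ℂ[X] →+* ℂ) m (C H906K.om) (C a * X) ζX s s'
    rw [hmap] at h
    simp only [coe_evalRingHom, eval_C, eval_mul, eval_X] at h
    exact h.symm
  have h2 : (C H906K.om : ℂ[X]) ^ 2 = C (H906K.om ^ 2) := by rw [C_pow]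
  -- the equation evaluated at `x`
  have hent : ∀ s s', ∑ r, H906K.TV m H906K.om (H906K.om * x) ζ s r *
      H906K.TV m H906K.om (H906K.om ^ 2 * x) ζ r s'
      = ((1 + H906K.om * x) * (1 + H906K.om ^ 2 * x)) ^ (m + 1) * (if s = s' then 1 else 0)
        + (1 + x) ^ (m + 1) * (T2 s s').eval x := by
    intro s s'
    have h := congrArg (fun M => (M s s').eval x) hT2
    simp only [Matrix.mul_apply, Matrix.add_apply, Matrix.smul_apply, Matrix.one_apply,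
      smul_eq_mul] at h
    rw [h2] at h
    rw [eval_finsetSum] at h
    simp only [eval_mul, eval_add, eval_pow, eval_one, eval_C, eval_X] at h
    simp only [hTV] at h
    rw [h]
    congr 1
    split_ifs <;> simp
  have h3 : t (H906K.om * x) * t (H906K.om ^ 2 * x) * u s0
      = ∑ s', (∑ r, H906K.TV m H906K.om (H906K.om * x) ζ s0 r *
      H906K.TV m H906K.om (H906K.om ^ 2 * x) ζ r s') * u s' := by
    have h4 : (H906K.TV m H906K.om (H906K.om * x) ζ * H906K.TV m H906K.om (H906K.om ^ 2 * x) ζ).mulVec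
        u = (t (H906K.om * x) * t (H906K.om ^ 2 * x)) • u := by
      rw [← Matrix.mulVec_mulVec, hu, Matrix.mulVec_smul, hu, smul_smul, mul_comm]
    have h5 := congrFun h4 s0
    simp only [Matrix.mulVec, dotProduct, Matrix.mul_apply, Pi.smul_apply, smul_eq_mul] at h5
    exact h5.symm
  have h6 : t (H906K.om * x) * t (H906K.om ^ 2 * x) * u s0
      = (((1 + H906K.om * x) * (1 + H906K.om ^ 2 * x)) ^ (m + 1)
        + (1 + x) ^ (m + 1) * (∑ s', T2 s0 s' * C (u s' / u s0)).eval x) * u s0 := by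
    rw [h3]
    simp only [hent]
    rw [eval_finsetSum]
    simp only [eval_mul, eval_C]
    generalize ((1 + H906K.om * x) * (1 + H906K.om ^ 2 * x)) ^ (m + 1) = A
    generalize (1 + x) ^ (m + 1) = B
    have h7 : ∀ s', (A * (if s0 = s' then (1 : ℂ) else 0) + B * (T2 s0 s').eval x) * u s'
        = (if s0 = s' then A * u s0 else 0) + B * ((T2 s0 s').eval x * (u s' / u s0)) * u s0 := by
      intro s'
      have h8 : B * ((T2 s0 s').eval x * (u s' / u s0)) * u s0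
          = B * (T2 s0 s').eval x * u s' := by
        field_simp
      rw [h8]
      split_ifs with h
      · rw [← h]; ring
      · ring
    rw [Finset.sum_congr rfl fun s' _ => h7 s', Finset.sum_add_distrib, Finset.sum_ite_eq,
      if_pos (Finset.mem_univ _), ← Finset.sum_mul, ← Finset.mul_sum]
    ring
  exact mul_right_cancel₀ hs0 h6

theorem spec_three {m : ℕ} (ζ : ℂˣ)
    (hζ3 : ((ζ ^ (3 * (m + 1)) : ℂˣ) : ℂ) + (((ζ⁻¹) ^ (3 * (m + 1)) : ℂˣ) : ℂ) = 0)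
    (u : (Fin (m + 1) → Bool) → ℂ) (s0 : Fin (m + 1) → Bool)
    (hs0 : u s0 ≠ 0) (t : ℂ → ℂ)
    (hu : ∀ x, (H906K.TV m H906K.om x ζ).mulVec u = t x • u) (x : ℂ) :
    t (H906K.om * x) * t (H906K.om ^ 2 * x) * t x
    = ((1 + H906K.om * x) * (1 + H906K.om ^ 2 * x)) ^ (m + 1) * t x
      + ((1 + H906K.om ^ 2 * x) * (1 + x)) ^ (m + 1) * t (H906K.om * x)
      + ((1 + x) * (1 + H906K.om * x)) ^ (m + 1) * t (H906K.om ^ 2 * x) := by
  have h := H906K.fus3 m H906K.om x H906K.e3_om ζ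
  rw [hζ3, mul_zero, zero_smul, add_zero] at h
  have h1 := congrArg (fun M => M.mulVec u) h
  simp only [Matrix.add_mulVec, Matrix.smul_mulVec] at h1
  rw [← Matrix.mulVec_mulVec, ← Matrix.mulVec_mulVec, hu, Matrix.mulVec_smul, hu,
    Matrix.mulVec_smul, Matrix.mulVec_smul, hu] at h1
  have h2 := congrFun h1 s0
  simp only [Pi.add_apply, Pi.smul_apply, smul_eq_mul] at h2
  apply mul_right_cancel₀ hs0
  linear_combination h2

theorem spec_exists (k : ℕ) : ∃ (p : ℕ → ℝ) (t V : ℂ[X]) (v : Wd (2 * k + 1 + 1) → ℝ) (Λ : ℝ),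
    Spec (2 * k + 2) p t V ∧ (∀ σ, 0 < v σ) ∧ 0 < Λ ∧ (AA (2 * k + 1)).mulVec v = Λ • v ∧
    t.eval 1 = (Λ : ℂ) := by
  classical
  have he : Even (2 * k + 1 + 1) := ⟨k + 1, by ring⟩
  obtain ⟨p0, hp0⟩ := AA_irr k
  have : Nonempty (Wd (2 * k + 1 + 1)) := ⟨sig0 k⟩
  obtain ⟨τ0, hτ0⟩ := spec_AA_pos he (sig0 k)
  obtain ⟨v, Λ, hv, hsum, hΛ, hev, hsimple⟩ := perron (AA (2 * k + 1)) (spec_AA_nonneg _) p0 hp0
    ⟨τ0, sig0 k, hτ0⟩
  obtain ⟨ζ, hζ, hζ3⟩ := spec_zeta (2 * k + 1 + 1) (by omega)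
  have hTW := spec_main he v Λ hsum hev hsimple
  obtain ⟨s0, hs0⟩ := ThW_ne k H906K.om H906K.e3_om ζ hζ v hv
  have hu : ∀ x, (H906K.TV (2 * k + 1) H906K.om x ζ).mulVec
      ((ThW (2 * k + 1) H906K.om ζ).mulVec fun σ => (v σ : ℂ))
      = (fun x => (spt v).eval x) x • (ThW (2 * k + 1) H906K.om ζ).mulVec fun σ => (v σ : ℂ) :=
    fun x => spec_TVu he _ ζ hζ x _ (hTW x)
  obtain ⟨V, hV⟩ := spec_two ζ _ s0 hs0 (fun x => (spt v).eval x) hu
  have h3 := spec_three ζ hζ3 _ s0 hs0 (fun x => (spt v).eval x) hu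
  refine ⟨spp v, spt v, V, v, Λ, ?_, hv, hΛ, hev, ?_⟩
  · refine ⟨he, by omega, fun j => ?_, fun j hj => ?_, ?_, fun x => ?_, h3, hV⟩
    · exact Finset.sum_nonneg fun σ _ => (hv σ).le
    · obtain ⟨σ, hσ, -⟩ := Finset.exists_ne_zero_of_sum_ne_zero hj
      rw [Finset.mem_filter] at hσ
      rw [← hσ.2]
      exact nF_pos he σ
    · have h := spp_fiber he v (fun _ => 1)
      simp only [mul_one] at h
      have h2 : ((∑ j ∈ Finset.range (2 * k + 1 + 1 + 1), spp v j : ℝ) : ℂ) = ((∑ σ, v σ : ℝ) : ℂ) := by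
        push_cast
        exact h
      have h4 := Complex.ofReal_injective h2
      rw [hsum] at h4
      exact h4
    · exact spt_eval v x
  · -- the value at 1
    have h1 := hTW 1
    rw [spec_TW_one] at h1
    have h2 := congrFun h1 (sig0 k)
    have h5 := congrFun hev (sig0 k)
    simp only [Matrix.mulVec, dotProduct, Pi.smul_apply, smul_eq_mul] at h2 h5
    have h6 := congrArg (fun r : ℝ => (r : ℂ)) h5
    simp only [Complex.ofReal_sum, Complex.ofReal_mul] at h6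
    have h7 : (v (sig0 k) : ℂ) ≠ 0 := by exact_mod_cast (hv _).ne'
    apply mul_right_cancel₀ h7
    rw [← h2, ← h6]
    rfl

end H906C
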