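import Pool.Agent.H906R3.CY.Defs

/-!
# W4: an open crossing exists iff no row closes a loop around the cylinder (helper320)
-/

namespace H906C
open Pool.Agent.H863R2.Cyl
open Pool.Agent.H863R2.Cyl.Sem1Aux (Inc RH Cons)
open Pool.Agent.H988R2.Perc (Word)
open Relation

/-! ### translation invariance -/

theorem w4_Fc_min {w : Word} {H : ℤ → ℤ} (hH : Inc (sg w) H) (hN : 0 < w.length) (b : ℤ)
    (h : RH H b (b + w.length)) (x : ℤ) : H b ≤ H x := by
  have hper : ∀ y, H (y + w.length) = H y := by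
    intro y
    have h1 : Inc (sg w) (fun x => H (x + w.length)) := by
      intro x
      show H (x + 1 + w.length) = H (x + w.length) + sg w x
      rw [show x + 1 + (w.length : ℤ) = x + w.length + 1 by ring, hH]
      have := Sem1Aux.sg_per w x 1
      rw [one_mul] at this
      rw [this]
    exact Sem1Aux.Inc.unique h1 hH b h.1.symm y
  have hper' : ∀ (q : ℤ) (y : ℤ), H (y + q * w.length) = H y := by
    intro q
    induction q using Int.induction_on with
    | zero => intro y; simp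
    | succ i ih =>
      intro y
      rw [show y + ((i : ℤ) + 1) * (w.length : ℤ) = (y + i * w.length) + w.length by ring, hper, ih]
    | pred i ih =>
      intro y
      have := hper (y + (-(i : ℤ) - 1) * w.length)
      rw [← this, show y + (-(i : ℤ) - 1) * (w.length : ℤ) + w.length = y + (-(i : ℤ)) * w.length by
        ring, ih]
  have hNZ : (0 : ℤ) < w.length := by exact_mod_cast hN
  have e : x = (b + (x - b) % (w.length : ℤ)) + ((x - b) / (w.length : ℤ)) * w.length := by
    have := Int.emod_add_mul_ediv (x - b) (w.length : ℤ)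
    linarith
  rw [e, hper']
  refine h.2 _ (Or.inl ⟨?_, ?_⟩)
  · have := Int.emod_nonneg (x - b) hNZ.ne'
    linarith
  · have := Int.emod_lt_of_pos (x - b) hNZ
    linarith

theorem w4_Fc_Rw {m : ℕ} (σ : Wd (m + 1)) {b b' : ℤ} (h : Fc σ b) (h' : Fc σ b') :
    Rw σ.1 b b' := by
  obtain ⟨H, hH, -⟩ := Sem1Aux.exists_ht (sg σ.1)
  have hl : ((m : ℤ) + 1) = (σ.1.length : ℤ) := by rw [σ.2.1]; push_cast; ring
  unfold Fc at h h'
  rw [hl, Sem1Aux.Rw_iff hH] at h h'
  rw [Sem1Aux.Rw_iff hH]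
  have hpos : 0 < σ.1.length := by rw [σ.2.1]; omega
  have h1 := w4_Fc_min hH hpos b h
  have h2 := w4_Fc_min hH hpos b' h'
  exact ⟨le_antisymm (h1 _) (h2 _), fun l _ => h1 l⟩

theorem w4_cl_per {m : ℕ} (c : Fin (m + 1) → Bool) (j : ℤ) : cl c (j + (m + 1)) = cl c j := by
  unfold cl
  rw [Int.add_emod_right]

theorem w4_L_shift {m M : ℕ} (c : ℕ → Fin (m + 1) → Bool) (w : Word) (hw : w.length = m + 1)
    {p q : ℤ × ℕ} (h : EqvGen (Lk m c M w) p q) :
    EqvGen (Lk m c M w) (p.1 + (m + 1), p.2) (q.1 + (m + 1), q.2) := by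
  refine Sem2Aux.eqv_map (fun p : ℤ × ℕ => (p.1 + ((m : ℤ) + 1), p.2)) ?_ h
  intro a b hab
  apply EqvGen.rel
  cases hab with
  | bot a b h =>
    refine Lk.bot _ _ ?_
    refine (Sem1Aux.Rw_translate w w ((m : ℤ) + 1) ?_ a b).2 h
    intro j
    have := Sem1Aux.sg_per w j 1
    rw [one_mul, hw] at this
    push_cast at this
    exact this
  | link0 j t ht h =>
    have := Lk.link0 (w := w) (M := M) (c := c) (j + (m + 1)) t ht (by rw [w4_cl_per]; exact h)
    rw [show j + (m + 1) + 1 = j + 1 + ((m : ℤ) + 1) by ring] at this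
    exact this
  | link1 j t ht h =>
    have := Lk.link1 (w := w) (M := M) (c := c) (j + (m + 1)) t ht (by rw [w4_cl_per]; exact h)
    rw [show j + (m + 1) + 1 = j + 1 + ((m : ℤ) + 1) by ring] at this
    exact this

/-! ### the bottom word -/

theorem w4_getD (n r : ℕ) (h : r < 2 * n) :
    ((List.replicate n [true, false]).flatten).getD r true = decide (r % 2 = 0) := by
  induction n generalizing r with
  | zero => omega
  | succ n ih =>
    rw [List.replicate_succ, List.flatten_cons]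
    rcases r with _ | _ | r
    · simp
    · simp
    · have := ih r (by omega)
      simp only [List.cons_append, List.nil_append, List.getD_cons_succ]
      rw [this]
      congr 1
      rw [eq_iff_iff]
      omega

theorem w4_len (k : ℕ) : (sig0 k).1.length = 2 * k + 1 + 1 := (sig0 k).2.1

theorem w4_sg (k : ℕ) (x : ℤ) : sg (sig0 k).1 x = if Even x then 1 else -1 := by
  unfold sg
  have hl := w4_len k
  rw [hl]
  have h0 : 0 ≤ x % ((2 * k + 1 + 1 : ℕ) : ℤ) := Int.emod_nonneg _ (by omega)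
  have h1 : x % ((2 * k + 1 + 1 : ℕ) : ℤ) < ((2 * k + 1 + 1 : ℕ) : ℤ) :=
    Int.emod_lt_of_pos _ (by omega)
  obtain ⟨r, hr⟩ := Int.eq_ofNat_of_zero_le h0
  have hr2 : r < 2 * (k + 1) := by omega
  have e : (sig0 k).1 = (List.replicate (k + 1) [true, false]).flatten := rfl
  rw [hr, Int.toNat_natCast, e, w4_getD (k + 1) r hr2]
  have hx : x = r + ((2 * k + 1 + 1 : ℕ) : ℤ) * (x / ((2 * k + 1 + 1 : ℕ) : ℤ)) := by
    have := Int.emod_add_mul_ediv x ((2 * k + 1 + 1 : ℕ) : ℤ)
    rw [hr] at this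
    exact this.symm
  have hpar : Even x ↔ r % 2 = 0 := by
    have h2 : ((2 * k + 1 + 1 : ℕ) : ℤ) * (x / ((2 * k + 1 + 1 : ℕ) : ℤ)) =
        2 * (((k : ℤ) + 1) * (x / ((2 * k + 1 + 1 : ℕ) : ℤ))) := by
      push_cast; ring
    rw [h2] at hx
    rw [Int.even_iff]
    omega
  by_cases hr0 : r % 2 = 0
  · rw [if_pos (hpar.2 hr0)]; simp [hr0]
  · rw [if_neg (fun h => hr0 (hpar.1 h))]; simp [hr0]

theorem w4_inc (k : ℕ) : Inc (sg (sig0 k).1) (fun x => x % 2) := by
  intro x
  show (x + 1) % 2 = x % 2 + sg (sig0 k).1 x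
  rw [w4_sg]
  split_ifs with h
  · rw [Int.even_iff] at h; omega
  · rw [Int.even_iff] at h; omega

theorem w4_Rw_even (k : ℕ) {a b : ℤ} (ha : Even a) (hb : Even b) : Rw (sig0 k).1 a b := by
  rw [Sem1Aux.Rw_iff (w4_inc k)]
  rw [Int.even_iff] at ha hb
  refine ⟨?_, fun l _ => ?_⟩
  · show a % 2 = b % 2
    omega
  · show a % 2 ≤ l % 2
    omega

theorem w4_Rw_cases (k : ℕ) {a b : ℤ} (h : Rw (sig0 k).1 a b) : (Even a ∧ Even b) ∨ a = b := by
  rw [Sem1Aux.Rw_iff (w4_inc k)] at h
  by_cases ha : Even a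
  · left
    refine ⟨ha, ?_⟩
    have h1 : a % 2 = b % 2 := h.1
    rw [Int.even_iff] at ha ⊢
    omega
  · right
    rw [Int.even_iff] at ha
    refine Sem1Aux.peak_isol ?_ ?_ h
    · show (a - 1) % 2 < a % 2
      omega
    · show (a + 1) % 2 < a % 2
      omega

/-! ### one row -/

section row
variable (k : ℕ) (c : ℕ → Fin (2 * k + 1 + 1) → Bool)

/-- the face `p` is joined to the even bottom faces below the level `t` -/
def w4L (t : ℕ) (p : ℤ × ℕ) : Prop := EqvGen (Lk (2 * k + 1) c t (sig0 k).1) p (0, 0)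

def w4Q (t : ℕ) : Prop := ∃ b : ℤ, w4L k c t (b, t)

theorem w4_Fc_of_L {t : ℕ} {b : ℤ} (h : w4L k c t (b, t)) :
    Fc (rows (2 * k + 1) c t (sig0 k)) b := by
  unfold Fc
  rw [Rw_rows _ (by omega)]
  have h1 := w4_L_shift c (sig0 k).1 (w4_len k) h
  simp only at h1
  have h2 : EqvGen (Lk (2 * k + 1) c t (sig0 k).1) (0, 0) (0 + (((2 * k + 1 : ℕ) : ℤ) + 1), 0) := by
    refine EqvGen.rel _ _ (Lk.bot _ _ (w4_Rw_even k ⟨0, by ring⟩ ⟨k + 1, by push_cast; ring⟩))
  exact EqvGen.trans _ _ _ h (EqvGen.trans _ _ _ h2 (EqvGen.symm _ _ h1))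

theorem w4_L_of_Fc {t : ℕ} (hQ : w4Q k c t) {b : ℤ}
    (h : Fc (rows (2 * k + 1) c t (sig0 k)) b) : w4L k c t (b, t) := by
  obtain ⟨b0, hb0⟩ := hQ
  have h1 := w4_Fc_Rw _ h (w4_Fc_of_L k c hb0)
  rw [Rw_rows _ (by omega)] at h1
  exact EqvGen.trans _ _ _ h1 hb0

theorem w4_kT {m : ℕ} (d : Fin (m + 1) → Bool) (σ : Wd (m + 1)) :
    kT m d σ = 0 ↔ ∃ b : ℤ, Fc σ b ∧ ¬ (cl d (b - 1) = false ∧ cl d b = true) := by
  unfold kT
  split_ifs with h
  · simp only [one_ne_zero, false_iff]
    rintro ⟨b, hb, hn⟩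
    exact hn (h b hb)
  · simp only [true_iff]
    push Not at h
    obtain ⟨b, hb, hn⟩ := h
    exact ⟨b, hb, fun hh => hn hh.1 hh.2⟩

theorem w4_step (t : ℕ) : w4Q k c (t + 1) ↔
    w4Q k c t ∧ kT (2 * k + 1) (c t) (rows (2 * k + 1) c t (sig0 k)) = 0 := by
  rw [w4_kT]
  constructor
  · rintro ⟨b, hb⟩
    -- some upward link
    have key : ∃ j : ℤ, w4L k c t (j, t) ∧ ¬ (cl (c t) (j - 1) = false ∧ cl (c t) j = true) := by
      by_contra hcon
      push Not at hcon
      have hinv : ∀ p q : ℤ × ℕ, Lk (2 * k + 1) c (t + 1) (sig0 k).1 p q →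
          (w4L k c t p ↔ w4L k c t q) := by
        have htop : ∀ j : ℤ, ¬ w4L k c t (j, t + 1) := by
          intro j hj
          rcases Sem3Aux.level hj with h | h
          · rw [Prod.mk.injEq] at h; omega
          · have := h.1; simp only at this; omega
        intro p q hpq
        cases hpq with
        | bot a b h =>
          have h1 : EqvGen (Lk (2 * k + 1) c t (sig0 k).1) (a, 0) (b, 0) :=
            EqvGen.rel _ _ (Lk.bot a b h)
          exact ⟨fun h2 => EqvGen.trans _ _ _ (EqvGen.symm _ _ h1) h2,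
            fun h2 => EqvGen.trans _ _ _ h1 h2⟩
        | link0 j s hs hcl =>
          by_cases hst : s < t
          · have h1 : EqvGen (Lk (2 * k + 1) c t (sig0 k).1) (j, s) (j + 1, s + 1) :=
              EqvGen.rel _ _ (Lk.link0 j s hst hcl)
            exact ⟨fun h2 => EqvGen.trans _ _ _ (EqvGen.symm _ _ h1) h2,
              fun h2 => EqvGen.trans _ _ _ h1 h2⟩
          · have : s = t := by omega
            subst this
            constructor
            · intro h2
              have := (hcon j h2).2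
              rw [hcl] at this
              exact absurd this (by decide)
            · intro h2
              exact absurd h2 (htop _)
        | link1 j s hs hcl =>
          by_cases hst : s < t
          · have h1 : EqvGen (Lk (2 * k + 1) c t (sig0 k).1) (j + 1, s) (j, s + 1) :=
              EqvGen.rel _ _ (Lk.link1 j s hst hcl)
            exact ⟨fun h2 => EqvGen.trans _ _ _ (EqvGen.symm _ _ h1) h2,
              fun h2 => EqvGen.trans _ _ _ h1 h2⟩
          · have : s = t := by omega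
            subst this
            constructor
            · intro h2
              have := (hcon (j + 1) h2).1
              rw [show j + 1 - 1 = j by ring, hcl] at this
              exact absurd this (by decide)
            · intro h2
              exact absurd h2 (htop _)
      have hall : ∀ p q : ℤ × ℕ, EqvGen (Lk (2 * k + 1) c (t + 1) (sig0 k).1) p q →
          (w4L k c t p ↔ w4L k c t q) := by
        intro p q hpq
        induction hpq with
        | rel x y h => exact hinv x y h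
        | refl x => exact Iff.rfl
        | symm x y _ ih => exact ih.symm
        | trans x y z _ _ ih1 ih2 => exact ih1.trans ih2
      have h1 := (hall _ _ hb).2 (EqvGen.refl _)
      rcases Sem3Aux.level h1 with h | h
      · rw [Prod.mk.injEq] at h; omega
      · have := h.1; simp only at this; omega
    obtain ⟨j, hj1, hj2⟩ := key
    exact ⟨⟨j, hj1⟩, j, w4_Fc_of_L k c hj1, hj2⟩
  · rintro ⟨hQ, b, hb, hn⟩
    have h1 : w4L k c (t + 1) (b, t) := Sem3Aux.eqv_mono (w4_L_of_Fc k c hQ hb)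
    by_cases hcl : cl (c t) b = false
    · refine ⟨b + 1, ?_⟩
      have h2 : EqvGen (Lk (2 * k + 1) c (t + 1) (sig0 k).1) (b, t) (b + 1, t + 1) :=
        EqvGen.rel _ _ (Lk.link0 b t (by omega) hcl)
      exact EqvGen.trans _ _ _ (EqvGen.symm _ _ h2) h1
    · have hcl2 : cl (c t) b = true := by simpa using hcl
      have hcl3 : cl (c t) (b - 1) = true := by
        by_contra h
        exact hn ⟨by simpa using h, hcl2⟩
      refine ⟨b - 1, ?_⟩
      have h2 : EqvGen (Lk (2 * k + 1) c (t + 1) (sig0 k).1) (b - 1 + 1, t) (b - 1, t + 1) :=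
        EqvGen.rel _ _ (Lk.link1 (b - 1) t (by omega) hcl3)
      rw [show b - 1 + 1 = b by ring] at h2
      exact EqvGen.trans _ _ _ (EqvGen.symm _ _ h2) h1

theorem w4_Q_iff (t : ℕ) : w4Q k c t ↔
    ∀ s < t, kT (2 * k + 1) (c s) (rows (2 * k + 1) c s (sig0 k)) = 0 := by
  induction t with
  | zero =>
    constructor
    · intro _ s hs; omega
    · intro _
      exact ⟨0, EqvGen.refl _⟩
  | succ t ih =>
    rw [w4_step, ih]
    constructor
    · rintro ⟨h1, h2⟩ s hs
      rcases Nat.lt_succ_iff_lt_or_eq.mp hs with h | h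
      · exact h1 s h
      · rw [h]; exact h2
    · intro h
      exact ⟨fun s hs => h s (by omega), h t (by omega)⟩

end row

/-! ### lifting to the universal cover -/

section lift
variable {k M : ℕ} (c : Fin M → Fin (2 * k + 2) → Bool)

/-- the rows as a sequence -/
def w4ext : ℕ → Fin (2 * k + 1 + 1) → Bool :=
  fun t => if h : t < M then c ⟨t, h⟩ else fun _ => false

/-- the face of the cylinder under a lifted face -/
def w4fi (k : ℕ) (j : ℤ) : Fin (2 * k + 2) :=
  ix (2 * k + 1) (j % (((2 * k + 1 : ℕ) : ℤ) + 1)).toNat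

theorem w4_cl (d : Fin (2 * k + 1 + 1) → Bool) (j : ℤ) : cl d j = d (w4fi k j) := rfl

theorem w4fi_val (j : ℤ) : ((w4fi k j).val : ℤ) = j % (2 * k + 2) := by
  have h0 : 0 ≤ j % (((2 * k + 1 : ℕ) : ℤ) + 1) := Int.emod_nonneg _ (by omega)
  have h1 : j % (((2 * k + 1 : ℕ) : ℤ) + 1) < ((2 * k + 1 : ℕ) : ℤ) + 1 :=
    Int.emod_lt_of_pos _ (by omega)
  have e : (w4fi k j).val = (j % (((2 * k + 1 : ℕ) : ℤ) + 1)).toNat := by
    show (j % (((2 * k + 1 : ℕ) : ℤ) + 1)).toNat % (2 * k + 1 + 1) = _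
    apply Nat.mod_eq_of_lt
    omega
  rw [e, Int.toNat_of_nonneg h0]
  congr 1

theorem w4fi_succ (j : ℤ) : w4fi k (j + 1) = w4fi k j + 1 := by
  apply Fin.ext
  have h1 := w4fi_val (k := k) (j + 1)
  have h2 := w4fi_val (k := k) j
  have h3 := Sem1Aux.emod_succ j (2 * (k : ℤ) + 2) (by omega)
  have h4 : (w4fi k j + 1).val = ((w4fi k j).val + 1) % (2 * k + 2) := by
    rw [Fin.val_add]
    rfl
  have h5 := (w4fi k j).isLt
  rw [h4]
  by_cases h6 : (w4fi k j).val = 2 * k + 1
  · rw [h6, Nat.mod_self]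
    rw [if_pos (by rw [← h2, h6]; push_cast; ring)] at h3
    omega
  · rw [Nat.mod_eq_of_lt (by omega)]
    rw [if_neg (by rw [← h2]; omega)] at h3
    omega

theorem w4fi_coe (a : Fin (2 * k + 2)) : w4fi k (a.val : ℤ) = a := by
  apply Fin.ext
  have h1 := w4fi_val (k := k) (a.val : ℤ)
  have := a.isLt
  rw [Int.emod_eq_of_lt (by omega) (by omega)] at h1
  exact_mod_cast h1

def w4pr (k : ℕ) (p : ℤ × ℕ) : Fin (2 * k + 2) × ℕ := (w4fi k p.1, p.2)

theorem w4_lift (x y : Fin (2 * k + 2) × ℕ) (h : EqvGen (Link c) x y) :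
    (∀ X : ℤ × ℕ, w4pr k X = x → ∃ Y, w4pr k Y = y ∧
      EqvGen (Lk (2 * k + 1) (w4ext c) M (sig0 k).1) X Y) ∧
    (∀ Y : ℤ × ℕ, w4pr k Y = y → ∃ X, w4pr k X = x ∧
      EqvGen (Lk (2 * k + 1) (w4ext c) M (sig0 k).1) X Y) := by
  induction h with
  | rel x y h =>
    cases h with
    | up t j hj =>
      have hext : w4ext c t.val = c t := by
        unfold w4ext; rw [dif_pos t.isLt]
      constructor
      · rintro ⟨a, s⟩ hX
        simp only [w4pr, Prod.mk.injEq] at hX
        obtain ⟨ha, rfl⟩ := hX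
        refine ⟨(a + 1, t.val + 1), ?_, EqvGen.rel _ _ (Lk.link0 a t.val t.isLt ?_)⟩
        · simp only [w4pr, w4fi_succ, ha]
        · rw [w4_cl, hext, ha, hj]
      · rintro ⟨b, s⟩ hY
        simp only [w4pr, Prod.mk.injEq] at hY
        obtain ⟨hb, rfl⟩ := hY
        have hb' : w4fi k (b - 1) = j := by
          have := w4fi_succ (k := k) (b - 1)
          rw [show b - 1 + 1 = b by ring, hb] at this
          exact (add_right_cancel this).symm
        refine ⟨(b - 1, t.val), ?_, ?_⟩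
        · simp only [w4pr, hb']
        · have := EqvGen.rel _ _ (Lk.link0 (w := (sig0 k).1) (b - 1) t.val t.isLt
            (c := w4ext c) (by rw [w4_cl, hext, hb', hj]))
          rw [show b - 1 + 1 = b by ring] at this
          exact this
    | down t j hj =>
      have hext : w4ext c t.val = c t := by
        unfold w4ext; rw [dif_pos t.isLt]
      constructor
      · rintro ⟨a, s⟩ hX
        simp only [w4pr, Prod.mk.injEq] at hX
        obtain ⟨ha, rfl⟩ := hX
        have ha' : w4fi k (a - 1) = j := by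
          have := w4fi_succ (k := k) (a - 1)
          rw [show a - 1 + 1 = a by ring, ha] at this
          exact (add_right_cancel this).symm
        refine ⟨(a - 1, t.val + 1), ?_, ?_⟩
        · simp only [w4pr, ha']
        · have := EqvGen.rel _ _ (Lk.link1 (w := (sig0 k).1) (a - 1) t.val t.isLt
            (c := w4ext c) (by rw [w4_cl, hext, ha', hj]))
          rw [show a - 1 + 1 = a by ring] at this
          exact this
      · rintro ⟨b, s⟩ hY
        simp only [w4pr, Prod.mk.injEq] at hY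
        obtain ⟨hb, rfl⟩ := hY
        refine ⟨(b + 1, t.val), ?_, EqvGen.rel _ _ (Lk.link1 b t.val t.isLt ?_)⟩
        · simp only [w4pr, w4fi_succ, hb]
        · rw [w4_cl, hext, hb, hj]
  | refl x => exact ⟨fun X hX => ⟨X, hX, EqvGen.refl _⟩, fun X hX => ⟨X, hX, EqvGen.refl _⟩⟩
  | symm x y _ ih =>
    refine ⟨fun X hX => ?_, fun X hX => ?_⟩
    · obtain ⟨Y, h1, h2⟩ := ih.2 X hX
      exact ⟨Y, h1, EqvGen.symm _ _ h2⟩
    · obtain ⟨Y, h1, h2⟩ := ih.1 X hX
      exact ⟨Y, h1, EqvGen.symm _ _ h2⟩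
  | trans x y z _ _ ih1 ih2 =>
    refine ⟨fun X hX => ?_, fun X hX => ?_⟩
    · obtain ⟨Y, h1, h2⟩ := ih1.1 X hX
      obtain ⟨Z, h3, h4⟩ := ih2.1 Y h1
      exact ⟨Z, h3, EqvGen.trans _ _ _ h2 h4⟩
    · obtain ⟨Y, h1, h2⟩ := ih2.2 X hX
      obtain ⟨Z, h3, h4⟩ := ih1.2 Y h1
      exact ⟨Z, h3, EqvGen.trans _ _ _ h4 h2⟩

theorem w4_crosses_iff_Q : Crosses c ↔ w4Q k (w4ext c) M := by
  constructor
  · rintro ⟨a, b, ha, hab⟩
    obtain ⟨Y, h1, h2⟩ := (w4_lift c _ _ hab).1 ((a.val : ℤ), 0) (by simp [w4pr, w4fi_coe])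
    simp only [w4pr, Prod.mk.injEq] at h1
    refine ⟨Y.1, ?_⟩
    have e : Y = (Y.1, M) := Prod.ext rfl h1.2
    unfold w4L
    rw [← e]
    refine EqvGen.trans _ _ _ (EqvGen.symm _ _ h2) (EqvGen.rel _ _ (Lk.bot _ _ ?_))
    exact w4_Rw_even k (by exact_mod_cast ha) ⟨0, by ring⟩
  · rintro ⟨b, hb⟩
    have heven : ∀ j : ℤ, Even j → Even (w4fi k j).val := by
      intro j hj
      have h1 := w4fi_val (k := k) j
      have h2 := Int.emod_add_mul_ediv j (2 * (k : ℤ) + 2)
      have h3 : (2 * (k : ℤ) + 2) * (j / (2 * (k : ℤ) + 2)) =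
          2 * (((k : ℤ) + 1) * (j / (2 * (k : ℤ) + 2))) := by ring
      rw [h3] at h2
      rw [Int.even_iff] at hj
      rw [Nat.even_iff]
      omega
    have hinv : ∀ p q : ℤ × ℕ, EqvGen (Lk (2 * k + 1) (w4ext c) M (sig0 k).1) p q →
        ((∃ a : Fin (2 * k + 2), Even a.val ∧ EqvGen (Link c) (a, 0) (w4pr k p)) ↔
          ∃ a : Fin (2 * k + 2), Even a.val ∧ EqvGen (Link c) (a, 0) (w4pr k q)) := by
      intro p q hpq
      induction hpq with
      | rel x y h =>
        cases h with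
        | bot a b h =>
          rcases w4_Rw_cases k h with ⟨h1, h2⟩ | h1
          · exact ⟨fun _ => ⟨w4fi k b, heven b h2, EqvGen.refl _⟩,
              fun _ => ⟨w4fi k a, heven a h1, EqvGen.refl _⟩⟩
          · rw [h1]
        | link0 j t ht h =>
          have hext : w4ext c t = c ⟨t, ht⟩ := by
            unfold w4ext; rw [dif_pos ht]
          rw [w4_cl, hext] at h
          have h1 : Link c (w4pr k (j, t)) (w4pr k (j + 1, t + 1)) := by
            have := Link.up (c := c) ⟨t, ht⟩ (w4fi k j) h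
            simp only [w4pr, w4fi_succ]
            exact this
          exact ⟨fun ⟨a, ha, h2⟩ => ⟨a, ha, EqvGen.trans _ _ _ h2 (EqvGen.rel _ _ h1)⟩,
            fun ⟨a, ha, h2⟩ => ⟨a, ha, EqvGen.trans _ _ _ h2 (EqvGen.symm _ _ (EqvGen.rel _ _ h1))⟩⟩
        | link1 j t ht h =>
          have hext : w4ext c t = c ⟨t, ht⟩ := by
            unfold w4ext; rw [dif_pos ht]
          rw [w4_cl, hext] at h
          have h1 : Link c (w4pr k (j + 1, t)) (w4pr k (j, t + 1)) := by
            have := Link.down (c := c) ⟨t, ht⟩ (w4fi k j) h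
            simp only [w4pr, w4fi_succ]
            exact this
          exact ⟨fun ⟨a, ha, h2⟩ => ⟨a, ha, EqvGen.trans _ _ _ h2 (EqvGen.rel _ _ h1)⟩,
            fun ⟨a, ha, h2⟩ => ⟨a, ha, EqvGen.trans _ _ _ h2 (EqvGen.symm _ _ (EqvGen.rel _ _ h1))⟩⟩
      | refl x => exact Iff.rfl
      | symm x y _ ih => exact ih.symm
      | trans x y z _ _ ih1 ih2 => exact ih1.trans ih2
    obtain ⟨a, ha, h2⟩ := (hinv _ _ hb).2 ⟨w4fi k 0, heven 0 ⟨0, by ring⟩, EqvGen.refl _⟩
    exact ⟨a, w4fi k b, ha, h2⟩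

end lift

/-- no closing in the rows = crossing. `run` = patterns after the rows -/
theorem crosses_iff (k M : ℕ) (c : Fin M → Fin (2 * k + 2) → Bool) :
    Crosses c ↔ ∀ t : Fin M, kT (2 * k + 1) (c t)
      (rows (2 * k + 1) (fun t => if h : t < M then c ⟨t, h⟩ else fun _ => false) t.val (sig0 k)) = 0 := by
  rw [w4_crosses_iff_Q, w4_Q_iff]
  constructor
  · intro h t
    have := h t.val t.isLt
    have hext : w4ext c t.val = c t := by
      unfold w4ext; rw [dif_pos t.isLt]
    rw [hext] at this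
    exact this
  · intro h s hs
    have := h ⟨s, hs⟩
    have hext : w4ext c s = c ⟨s, hs⟩ := by
      unfold w4ext; rw [dif_pos hs]
    rw [hext]
    exact this

end H906C
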