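import Pool.Agent.H906R3.CY.Defs
import Pool.Agent.H906R3.CY.W4

set_option autoImplicit false

namespace H906C
open Pool.Agent.H863R2.Cyl
open Pool.Agent.H863R2.Cyl.Sem1Aux (Inc RH Cons)
open Pool.Agent.H988R2.Perc (Word)

theorem w5_rows_congr (m : ℕ) (c1 c2 : ℕ → Fin (m + 1) → Bool) (σ : Wd (m + 1)) (t : ℕ)
    (h : ∀ s < t, c1 s = c2 s) : rows m c1 t σ = rows m c2 t σ := by
  induction t with
  | zero => rfl
  | succ t ih =>
    show Tc m (c1 t) (rows m c1 t σ) = Tc m (c2 t) (rows m c2 t σ)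
    rw [ih (fun s hs => h s (Nat.lt_succ_of_lt hs)), h t (Nat.lt_succ_self t)]

/-- the event -/
def w5_ev (m : ℕ) (σ : Wd (m + 1)) {M : ℕ} (c : Fin M → Fin (m + 1) → Bool) : Prop :=
  ∀ t : Fin M, kT m (c t) (rows m (fun t => if h : t < M then c ⟨t, h⟩ else fun _ => false)
    t.val σ) = 0

theorem w5_snoc (m : ℕ) {M : ℕ} (c : Fin M → Fin (m + 1) → Bool) (x : Fin (m + 1) → Bool)
    (s : ℕ) (hs : s < M) :
    (fun t => if h : t < M + 1 then (Fin.snoc (α := fun _ => Fin (m + 1) → Bool) c x) ⟨t, h⟩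
      else fun _ => false) s =
    (fun t => if h : t < M then c ⟨t, h⟩ else fun _ => false) s := by
  simp only
  rw [dif_pos (Nat.lt_succ_of_lt hs), dif_pos hs]
  have : (⟨s, Nat.lt_succ_of_lt hs⟩ : Fin (M + 1)) = Fin.castSucc ⟨s, hs⟩ := rfl
  rw [this, Fin.snoc_castSucc]

theorem w5_snoc_last (m : ℕ) {M : ℕ} (c : Fin M → Fin (m + 1) → Bool) (x : Fin (m + 1) → Bool) :
    (fun t => if h : t < M + 1 then (Fin.snoc (α := fun _ => Fin (m + 1) → Bool) c x) ⟨t, h⟩
      else fun _ => false) M = x := by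
  simp only
  rw [dif_pos (Nat.lt_succ_self M)]
  have : (⟨M, Nat.lt_succ_self M⟩ : Fin (M + 1)) = Fin.last M := rfl
  rw [this, Fin.snoc_last]

theorem w5_rows (m : ℕ) (σ : Wd (m + 1)) {M : ℕ} (c : Fin M → Fin (m + 1) → Bool)
    (x : Fin (m + 1) → Bool) (t : ℕ) (ht : t ≤ M) :
    rows m (fun t => if h : t < M + 1 then
      (Fin.snoc (α := fun _ => Fin (m + 1) → Bool) c x) ⟨t, h⟩ else fun _ => false) t σ =
    rows m (fun t => if h : t < M then c ⟨t, h⟩ else fun _ => false) t σ :=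
  w5_rows_congr m _ _ σ t (fun s hs => w5_snoc m c x s (lt_of_lt_of_le hs ht))

theorem w5_rows_last (m : ℕ) (σ : Wd (m + 1)) {M : ℕ} (c : Fin M → Fin (m + 1) → Bool)
    (x : Fin (m + 1) → Bool) :
    rows m (fun t => if h : t < M + 1 then
      (Fin.snoc (α := fun _ => Fin (m + 1) → Bool) c x) ⟨t, h⟩ else fun _ => false) (M + 1) σ =
    Tc m x (rows m (fun t => if h : t < M then c ⟨t, h⟩ else fun _ => false) M σ) := by
  show Tc m _ (rows m _ M σ) = _
  rw [w5_rows m σ c x M le_rfl]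
  congr 1
  exact w5_snoc_last m c x

theorem w5_ev_snoc (m : ℕ) (σ : Wd (m + 1)) {M : ℕ} (c : Fin M → Fin (m + 1) → Bool)
    (x : Fin (m + 1) → Bool) :
    w5_ev m σ (Fin.snoc (α := fun _ => Fin (m + 1) → Bool) c x) ↔
      w5_ev m σ c ∧
        kT m x (rows m (fun t => if h : t < M then c ⟨t, h⟩ else fun _ => false) M σ) = 0 := by
  unfold w5_ev
  rw [Fin.forall_fin_succ']
  apply and_congr
  · apply forall_congr'
    intro t
    rw [Fin.snoc_castSucc]
    have h := w5_rows m σ c x t.val t.isLt.le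
    rw [show (Fin.castSucc t).val = t.val from rfl, h]
  · rw [Fin.snoc_last]
    have h := w5_rows m σ c x M le_rfl
    rw [show (Fin.last M).val = M from rfl, h]

open Classical in
theorem w5_pow (m : ℕ) (σ : Wd (m + 1)) (M : ℕ) (τ : Wd (m + 1)) :
    ((AA m) ^ M) τ σ = ∑ c : Fin M → Fin (m + 1) → Bool,
      if w5_ev m σ c ∧ rows m (fun t => if h : t < M then c ⟨t, h⟩ else fun _ => false) M σ = τ
      then (1 : ℝ) else 0 := by
  induction M generalizing τ with
  | zero =>
    rw [pow_zero, Matrix.one_apply]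
    have h0 : ∀ c : Fin 0 → Fin (m + 1) → Bool,
        (if w5_ev m σ c ∧ rows m (fun t => if h : t < 0 then c ⟨t, h⟩ else fun _ => false) 0 σ = τ
        then (1 : ℝ) else 0) = if τ = σ then 1 else 0 := by
      intro c
      have h1 : w5_ev m σ c := fun t => t.elim0
      change (if w5_ev m σ c ∧ σ = τ then (1 : ℝ) else 0) = if τ = σ then 1 else 0
      by_cases h : τ = σ
      · rw [if_pos h, if_pos ⟨h1, h.symm⟩]
      · rw [if_neg h, if_neg (fun h' => h h'.2.symm)]
    rw [Finset.sum_congr rfl (fun c _ => h0 c)]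
    simp
  | succ M ih =>
    rw [pow_succ', Matrix.mul_apply]
    have e : ∀ ρ : Wd (m + 1), AA m τ ρ * ((AA m) ^ M) ρ σ =
        ∑ x : Fin (m + 1) → Bool, ∑ c : Fin M → Fin (m + 1) → Bool,
          (if Tc m x ρ = τ ∧ kT m x ρ = 0 then (1 : ℝ) else 0) *
          (if w5_ev m σ c ∧
            rows m (fun t => if h : t < M then c ⟨t, h⟩ else fun _ => false) M σ = ρ
            then (1 : ℝ) else 0) := by
      intro ρ
      rw [ih ρ]
      unfold AA
      rw [Finset.sum_mul_sum]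
    rw [Finset.sum_congr rfl (fun ρ _ => e ρ), Finset.sum_comm]
    have e2 : ∀ x : Fin (m + 1) → Bool, ∑ ρ : Wd (m + 1), ∑ c : Fin M → Fin (m + 1) → Bool,
          (if Tc m x ρ = τ ∧ kT m x ρ = 0 then (1 : ℝ) else 0) *
          (if w5_ev m σ c ∧
            rows m (fun t => if h : t < M then c ⟨t, h⟩ else fun _ => false) M σ = ρ
            then (1 : ℝ) else 0) =
        ∑ c : Fin M → Fin (m + 1) → Bool,
          if w5_ev m σ (Fin.snoc (α := fun _ => Fin (m + 1) → Bool) c x) ∧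
            rows m (fun t => if h : t < M + 1 then
              (Fin.snoc (α := fun _ => Fin (m + 1) → Bool) c x) ⟨t, h⟩ else fun _ => false)
              (M + 1) σ = τ then (1 : ℝ) else 0 := by
      intro x
      rw [Finset.sum_comm]
      apply Finset.sum_congr rfl
      intro c _
      rw [w5_rows_last, w5_ev_snoc]
      set ρ0 := rows m (fun t => if h : t < M then c ⟨t, h⟩ else fun _ => false) M σ with hρ0
      rw [Finset.sum_eq_single ρ0]
      · by_cases h1 : w5_ev m σ c <;> by_cases h2 : Tc m x ρ0 = τ <;>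
          by_cases h3 : kT m x ρ0 = 0 <;> simp [h1, h2, h3]
      · intro ρ _ hρ
        rw [if_neg (fun h : w5_ev m σ c ∧ ρ0 = ρ => hρ h.2.symm), mul_zero]
      · intro h
        exact absurd (Finset.mem_univ _) h
    rw [Finset.sum_congr rfl (fun x _ => e2 x), ← Fintype.sum_prod_type']
    refine Fintype.sum_equiv (Fin.snocEquiv (fun _ : Fin (M + 1) => Fin (m + 1) → Bool)) _ _ ?_
    intro p
    rfl

open Classical in
theorem w5_count (m : ℕ) (σ : Wd (m + 1)) (M : ℕ) :
    ∑ τ, ((AA m) ^ M) τ σ =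
      ((Finset.univ.filter fun c : Fin M → Fin (m + 1) → Bool => w5_ev m σ c).card : ℝ) := by
  rw [Finset.sum_congr rfl (fun τ _ => w5_pow m σ M τ), Finset.sum_comm, Finset.card_filter]
  push_cast
  apply Finset.sum_congr rfl
  intro c _
  rw [Finset.sum_eq_single
    (rows m (fun t => if h : t < M then c ⟨t, h⟩ else fun _ => false) M σ)]
  · by_cases h : w5_ev m σ c <;> simp [h]
  · intro τ _ hτ
    rw [if_neg (fun h => hτ h.2.symm)]
  · intro h
    exact absurd (Finset.mem_univ _) h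

theorem w5_core (k M : ℕ) (h4 : ∀ c : Fin M → Fin (2 * k + 2) → Bool,
    Crosses c ↔ ∀ t : Fin M, kT (2 * k + 1) (c t)
      (rows (2 * k + 1) (fun t => if h : t < M then c ⟨t, h⟩ else fun _ => false) t.val
        (sig0 k)) = 0) :
    crossProb k M * 2 ^ ((2 * k + 2) * M) = ∑ τ, ((AA (2 * k + 1)) ^ M) τ (sig0 k) := by
  classical
  rw [w5_count]
  unfold crossProb
  rw [div_mul_cancel₀ _ (by positivity)]
  have h5 : (Finset.univ.filter fun c : Fin M → Fin (2 * k + 2) → Bool => Crosses c) =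
      (Finset.univ.filter fun c : Fin M → Fin (2 * k + 1 + 1) → Bool =>
        w5_ev (2 * k + 1) (sig0 k) c) := by
    ext c
    simp only [Finset.mem_filter, Finset.mem_univ, true_and]
    exact h4 c
  norm_cast
  convert congrArg Finset.card h5 using 1

theorem count_eq (k M : ℕ) :
    crossProb k M * 2 ^ ((2 * k + 2) * M) = ∑ τ, ((AA (2 * k + 1)) ^ M) τ (sig0 k) :=
  w5_core k M (fun c => crosses_iff k M c)

end H906C
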