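import Pool.Agent.H906R3.CY.IRR
import Pool.Agent.H906R3.CY.RATE
import Pool.Agent.H906R3.CY.W5
import Pool.Agent.H906R3.CY.B3
import Pool.Agent.H906R3.CY.B9
import Pool.Agent.H906R3.CY.C8
import Pool.Agent.H906R3.CY.SPEC

/-!
# The one-arm rate
-/

namespace H906C
open Pool.Agent.H863R2.Cyl
open Polynomial MeasureTheory Filter Topology

theorem AA_nonneg (m : ℕ) (i j : Wd (m + 1)) : 0 ≤ AA m i j := by
  unfold AA
  exact Finset.sum_nonneg fun c _ => by split_ifs <;> norm_num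

theorem fin_rate (k : ℕ) (p : ℕ → ℝ) (t V : ℂ[X]) (v : Wd (2 * k + 1 + 1) → ℝ) (Λ : ℝ)
    (hs : Spec (2 * k + 2) p t V) (hv : ∀ σ, 0 < v σ) (hΛ : 0 < Λ)
    (he : (AA (2 * k + 1)).mulVec v = Λ • v) (ht : t.eval 1 = (Λ : ℂ)) :
    Tendsto (fun M : ℕ => -(1 / (M : ℝ)) * Real.log (crossProb k M)) atTop
      (𝓝 (-Real.log (sr (2 * k + 2) p 0))) := by
  obtain ⟨pp, hp⟩ := AA_irr k
  have : Nonempty (Wd (2 * k + 1 + 1)) := ⟨sig0 k⟩
  have h1 := growth (AA (2 * k + 1)) (AA_nonneg _) pp hp v Λ hv hΛ he (sig0 k)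
    (2 ^ (2 * k + 2)) (by positivity)
  have h2 : Λ / 2 ^ (2 * k + 2) = sr (2 * k + 2) p 0 := by
    have h3 := sc_eq_t hs 0 (by simpa using Real.pi_pos)
    rw [Complex.exp_zero, ht] at h3
    have h4 := sc_ofReal (N := 2 * k + 2) (p := p) 0
    rw [Complex.ofReal_zero] at h4
    rw [h4] at h3
    have h5 : (Λ : ℂ) = ((2 ^ (2 * k + 2) * sr (2 * k + 2) p 0 : ℝ) : ℂ) := by
      rw [h3]; push_cast; norm_num
    have h6 : Λ = 2 ^ (2 * k + 2) * sr (2 * k + 2) p 0 := by exact_mod_cast h5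
    rw [h6]
    field_simp
  rw [h2] at h1
  refine h1.congr fun M => ?_
  have h7 := count_eq k M
  rw [← h7, ← pow_mul]
  congr 2
  field_simp

theorem resultOne : ∃ r : ℕ → ℝ,
    (∀ k, Tendsto (fun M : ℕ => -(1 / (M : ℝ)) * Real.log (crossProb k M)) atTop (𝓝 (r k))) ∧
    Tendsto (fun k : ℕ => (2 * k + 2 : ℝ) * r k) atTop (𝓝 (5 * Real.pi / 24)) := by
  choose p t V v Λ hs hv hΛ he ht using spec_exists
  refine ⟨fun k => -Real.log (sr (2 * k + 2) (p k) 0), fun k =>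
    fin_rate k (p k) (t k) (V k) (v k) (Λ k) (hs k) (hv k) (hΛ k) (he k) (ht k), ?_⟩
  have h1 := tba_asymp (fun k => sr (2 * k + 2) (p k)) (fun k => tba_of_spec (hs k))
  have h2 := h1.neg
  rw [neg_neg] at h2
  refine h2.congr fun k => ?_
  ring

end H906C
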