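import Pool.Agent.H906R3.CY.Defs2
import Pool.Agent.H906R3.CY.B2

namespace H906C
open Polynomial MeasureTheory Filter Topology

/-! ## G6: the function `s` for the weight `w` -/

theorem scw_an {N : ℕ} {w : ℝ} {p : ℕ → ℝ} (z : ℂ)
    (hz : |z.im| < Real.pi) : DifferentiableAt ℂ (scw N w p) z := by
  have h1 : DifferentiableAt ℂ
      (fun z => (1 : ℂ) - (1 - (w : ℂ)) * ∑ j ∈ Finset.range (N + 1), (p j : ℂ) * Pc z ^ j)
      z := by
    refine (differentiableAt_const _).sub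
      ((DifferentiableAt.fun_sum fun j _ => ?_).const_mul _)
    exact ((Pc_an z hz).pow j).const_mul _
  exact h1

theorem g6_nonneg {N : ℕ} {w : ℝ} {p : ℕ → ℝ} {t V : ℂ[X]} (h : SpecW N w p t V) (z : ℂ) (b : ℝ)
    (hb : ‖Pc z‖ ≤ b) (hb1 : b ≤ 1) :
    ‖∑ j ∈ Finset.range (N + 1), (p j : ℂ) * Pc z ^ j‖ ≤ b := by
  refine (norm_sum_le _ _).trans ?_
  have h1 : ∀ j ∈ Finset.range (N + 1), ‖(p j : ℂ) * Pc z ^ j‖ ≤ p j * b := by
    intro j _
    rw [norm_mul, norm_pow, Complex.norm_real, Real.norm_of_nonneg (h.nonneg j)]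
    by_cases hj : p j = 0
    · rw [hj, zero_mul, zero_mul]
    · have h2 := (h.supp j hj).1
      refine mul_le_mul_of_nonneg_left ?_ (h.nonneg j)
      calc ‖Pc z‖ ^ j ≤ ‖Pc z‖ ^ 1 :=
            pow_le_pow_of_le_one (norm_nonneg _) (hb.trans hb1) h2
        _ ≤ b := by rw [pow_one]; exact hb
  refine (Finset.sum_le_sum h1).trans ?_
  rw [← Finset.sum_mul, h.sum, one_mul]

theorem scw_near {N : ℕ} {w : ℝ} {p : ℕ → ℝ} {t V : ℂ[X]} (h : SpecW N w p t V) (z : ℂ)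
    (hz : |z.im| ≤ Real.pi / 3) :
    ‖scw N w p z - 1‖ < |1 - w| ∧ min w (2 - w) ≤ (scw N w p z).re := by
  have h0 : 0 < Real.exp (-|z.re|) := Real.exp_pos _
  have h1 := g6_nonneg h z (1 - Real.exp (-|z.re|) / 4) (Pc_le z hz) (by linarith)
  have hw : 0 < |1 - w| := abs_pos.2 (sub_ne_zero.2 (Ne.symm h.w1))
  have hn : ‖scw N w p z - 1‖ = |1 - w| *
      ‖∑ j ∈ Finset.range (N + 1), (p j : ℂ) * Pc z ^ j‖ := by
    have e : scw N w p z - 1 = -(((1 - w : ℝ) : ℂ) *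
        ∑ j ∈ Finset.range (N + 1), (p j : ℂ) * Pc z ^ j) := by
      unfold scw
      push_cast
      ring
    rw [e, norm_neg, norm_mul, Complex.norm_real, Real.norm_eq_abs]
  have h3 : ‖scw N w p z - 1‖ < |1 - w| := by
    rw [hn]
    have h4 : |1 - w| * ‖∑ j ∈ Finset.range (N + 1), (p j : ℂ) * Pc z ^ j‖ ≤
        |1 - w| * (1 - Real.exp (-|z.re|) / 4) := mul_le_mul_of_nonneg_left h1 hw.le
    have h5 : 0 < |1 - w| * Real.exp (-|z.re|) := mul_pos hw h0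
    nlinarith
  refine ⟨h3, ?_⟩
  have h6 : |(scw N w p z - 1).re| ≤ ‖scw N w p z - 1‖ := Complex.abs_re_le_norm _
  rw [Complex.sub_re, Complex.one_re] at h6
  have h7 := neg_abs_le ((scw N w p z).re - 1)
  rcases le_total w 1 with hw1 | hw1
  · rw [abs_of_nonneg (by linarith : (0 : ℝ) ≤ 1 - w)] at h3
    exact (min_le_left _ _).trans (by linarith)
  · rw [abs_of_nonpos (by linarith : (1 : ℝ) - w ≤ 0)] at h3
    exact (min_le_right _ _).trans (by linarith)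

theorem g6_pow (P : ℂ) (M : ℝ) (h1 : 1 ≤ M) (hP : ‖P‖ ≤ M) :
    ∀ j : ℕ, ‖P ^ j - 1‖ ≤ j * M ^ j * ‖P - 1‖
  | 0 => by simp
  | j + 1 => by
    have ih := g6_pow P M h1 hP j
    have e : P ^ (j + 1) - 1 = P ^ j * (P - 1) + (P ^ j - 1) := by ring
    have hM : 0 ≤ M := by linarith
    rw [e]
    refine (norm_add_le _ _).trans ?_
    rw [norm_mul, norm_pow]
    have h2 : ‖P‖ ^ j ≤ M ^ j := pow_le_pow_left₀ (norm_nonneg _) hP j
    have h3 : ‖P‖ ^ j * ‖P - 1‖ ≤ M ^ j * ‖P - 1‖ :=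
      mul_le_mul_of_nonneg_right h2 (norm_nonneg _)
    have h4 : M ^ j ≤ M ^ (j + 1) := pow_le_pow_right₀ h1 (Nat.le_succ j)
    have h5 : ((j : ℝ) + 1) * M ^ j * ‖P - 1‖ ≤ ((j : ℝ) + 1) * M ^ (j + 1) * ‖P - 1‖ :=
      mul_le_mul_of_nonneg_right (mul_le_mul_of_nonneg_left h4 (by positivity)) (norm_nonneg _)
    push_cast
    calc ‖P‖ ^ j * ‖P - 1‖ + ‖P ^ j - 1‖ ≤ M ^ j * ‖P - 1‖ + j * M ^ j * ‖P - 1‖ :=
          add_le_add h3 ih
      _ = ((j : ℝ) + 1) * M ^ j * ‖P - 1‖ := by ring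
      _ ≤ _ := h5

theorem scw_lim {N : ℕ} {w : ℝ} {p : ℕ → ℝ} {t V : ℂ[X]} (h : SpecW N w p t V) :
    ∃ K : ℝ, ∀ z : ℂ, |z.im| ≤ 5 * Real.pi / 6 →
      ‖scw N w p z - w‖ ≤ K * Real.exp (-|z.re|) := by
  obtain ⟨K, hK⟩ := Pc_bdd
  have hK0 : 0 ≤ K := by
    have h1 := hK 0 (by rw [Complex.zero_im, abs_zero]; positivity)
    have h2 := (norm_nonneg _).trans h1
    simpa using h2
  refine ⟨|1 - w| * (N * (1 + K) ^ N * K), fun z hz => ?_⟩
  have h1 := hK z hz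
  have hE : Real.exp (-|z.re|) ≤ 1 := Real.exp_le_one_iff.2 (neg_nonpos.2 (abs_nonneg _))
  have hE0 : 0 < Real.exp (-|z.re|) := Real.exp_pos _
  have h2 : ‖Pc z‖ ≤ 1 + K := by
    have h3 : Pc z = 1 + (Pc z - 1) := by ring
    rw [h3]
    refine (norm_add_le _ _).trans ?_
    rw [norm_one]
    have : K * Real.exp (-|z.re|) ≤ K * 1 := mul_le_mul_of_nonneg_left hE hK0
    linarith
  have hM : 1 ≤ 1 + K := by linarith
  have h3 : scw N w p z - w = -(((1 - w : ℝ) : ℂ) *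
      ∑ j ∈ Finset.range (N + 1), (p j : ℂ) * (Pc z ^ j - 1)) := by
    unfold scw
    have h4 : (∑ j ∈ Finset.range (N + 1), (p j : ℂ)) = 1 := by
      rw [← Complex.ofReal_sum, h.sum, Complex.ofReal_one]
    have h5 : ∑ j ∈ Finset.range (N + 1), (p j : ℂ) * (Pc z ^ j - 1) =
        (∑ j ∈ Finset.range (N + 1), (p j : ℂ) * Pc z ^ j) -
          ∑ j ∈ Finset.range (N + 1), (p j : ℂ) := by
      rw [← Finset.sum_sub_distrib]
      exact Finset.sum_congr rfl fun j _ => by ring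
    rw [h5, h4]
    push_cast
    ring
  rw [h3, norm_neg, norm_mul, Complex.norm_real, Real.norm_eq_abs, mul_assoc]
  refine mul_le_mul_of_nonneg_left ?_ (abs_nonneg _)
  refine (norm_sum_le _ _).trans ?_
  have h6 : ∀ j ∈ Finset.range (N + 1), ‖(p j : ℂ) * (Pc z ^ j - 1)‖ ≤
      p j * (N * (1 + K) ^ N * K * Real.exp (-|z.re|)) := by
    intro j hj
    rw [norm_mul, Complex.norm_real, Real.norm_of_nonneg (h.nonneg j)]
    refine mul_le_mul_of_nonneg_left ?_ (h.nonneg j)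
    have hj' : j ≤ N := Nat.lt_succ_iff.1 (Finset.mem_range.1 hj)
    have h7 := g6_pow (Pc z) (1 + K) hM h2 j
    have h8 : (j : ℝ) * (1 + K) ^ j ≤ N * (1 + K) ^ N :=
      mul_le_mul (Nat.cast_le.2 hj') (pow_le_pow_right₀ hM hj') (by positivity) (by positivity)
    calc ‖Pc z ^ j - 1‖ ≤ j * (1 + K) ^ j * ‖Pc z - 1‖ := h7
      _ ≤ (N * (1 + K) ^ N) * (K * Real.exp (-|z.re|)) :=
        mul_le_mul h8 h1 (norm_nonneg _) (by positivity)
      _ = _ := by ring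
  refine (Finset.sum_le_sum h6).trans ?_
  rw [← Finset.sum_mul, h.sum, one_mul]

theorem scw_conj {N : ℕ} {w : ℝ} {p : ℕ → ℝ} (z : ℂ) :
    scw N w p (starRingEnd ℂ z) = starRingEnd ℂ (scw N w p z) := by
  unfold scw
  rw [map_sub, map_one, map_mul, map_sub, map_one, map_sum, Pc_conj, Complex.conj_ofReal]
  congr 2
  refine Finset.sum_congr rfl fun j _ => ?_
  rw [map_mul, map_pow, Complex.conj_ofReal]

theorem scw_ofReal {N : ℕ} {w : ℝ} {p : ℕ → ℝ} (u : ℝ) :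
    scw N w p u = (srw N w p u : ℂ) := by
  unfold scw srw Pc
  push_cast
  rfl

theorem g6_ne {z : ℂ} (hz : |z.im| < Real.pi) : 1 + Complex.exp z ≠ 0 := by
  intro h
  have h1 : Complex.exp z = -1 := by linear_combination h
  have hre := congrArg Complex.re h1
  have him := congrArg Complex.im h1
  rw [Complex.exp_re] at hre
  rw [Complex.exp_im] at him
  simp only [Complex.neg_re, Complex.one_re, Complex.neg_im, Complex.one_im, neg_zero] at hre him
  have h2 : Real.sin z.im = 0 := by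
    rcases mul_eq_zero.1 him with h' | h'
    · exact absurd h' (Real.exp_pos _).ne'
    · exact h'
  rw [abs_lt] at hz
  have h3 := (Real.sin_eq_zero_iff_of_lt_of_lt hz.1 hz.2).1 h2
  rw [h3, Real.cos_zero, mul_one] at hre
  have := Real.exp_pos z.re
  linarith

theorem scw_eq_t {N : ℕ} {w : ℝ} {p : ℕ → ℝ} {t V : ℂ[X]} (h : SpecW N w p t V) (z : ℂ)
    (hz : |z.im| < Real.pi) :
    t.eval (Complex.exp z) = (1 + Complex.exp z) ^ N * scw N w p z := by
  rw [h.t_eq]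
  unfold scw
  rw [mul_sub, mul_one, mul_left_comm]
  congr 1
  congr 1
  rw [Finset.mul_sum]
  refine Finset.sum_congr rfl fun j _ => ?_
  by_cases hj : p j = 0
  · rw [hj]
    simp
  · have h2 := (h.supp j hj).2
    have hne := g6_ne hz
    rw [Pc_exp z hz, div_pow, ← pow_mul]
    have e : (1 + Complex.exp z) ^ N =
        (1 + Complex.exp z) ^ (2 * j) * (1 + Complex.exp z) ^ (N - 2 * j) := by
      rw [← pow_add]
      congr 1
      omega
    rw [e]
    have hne' : (1 + Complex.exp z) ^ (2 * j) ≠ 0 := pow_ne_zero _ hne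
    field_simp

end H906C
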