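import Pool.Agent.H906R3.CY.Defs2
import Pool.Agent.H906R3.CY.G6
import Pool.Agent.H906R3.CY.B4
import Pool.Agent.H906R3.K6.G2

/-! G7: functional relations for the general weight (helper844). -/

namespace H906C
open Polynomial MeasureTheory Filter Topology

/-- `tanh (3z/4)` in terms of `e^{z/2}` -/
theorem g7_tanh (z : ℂ) (h1 : Complex.exp (z / 2) ^ 3 + 1 ≠ 0) : Complex.tanh (3 * z / 4) =
    (Complex.exp (z / 2) ^ 3 - 1) / (Complex.exp (z / 2) ^ 3 + 1) := by
  have hq : Complex.exp (z / 2) ^ 3 = Complex.exp (3 * z / 4) * Complex.exp (3 * z / 4) := by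
    rw [← Complex.exp_nat_mul, ← Complex.exp_add]
    congr 1
    push_cast
    ring
  have hinv : Complex.exp (3 * z / 4) * Complex.exp (-(3 * z / 4)) = 1 := by
    rw [← Complex.exp_add]; simp
  rw [Complex.tanh_eq_sinh_div_cosh, Complex.sinh, Complex.cosh]
  have hc0 : (Complex.exp (3 * z / 4) + Complex.exp (-(3 * z / 4))) / 2 ≠ 0 := by
    intro h0
    apply h1
    rw [hq]
    linear_combination (2 * Complex.exp (3 * z / 4)) * h0 - hinv
  rw [div_eq_div_iff hc0 h1, hq]
  linear_combination (-Complex.exp (3 * z / 4)) * hinv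

theorem rel_hw {N : ℕ} {w : ℝ} {p : ℕ → ℝ} {t V : ℂ[X]} (h : SpecW N w p t V) (z : ℂ)
    (hz : |z.im| < 2 * Real.pi / 3) :
    scw N w p (z + Real.pi / 3 * Complex.I) * scw N w p (z - Real.pi / 3 * Complex.I)
      = 1 + (Complex.tanh (3 * z / 4)) ^ N * hh N V z := by
  obtain ⟨h1, h2, h3, h4⟩ := H906K.g2_ne hz
  have hpi := Real.pi_pos
  have hz2 := abs_lt.1 hz
  have hp : Complex.exp (z / 2) ^ 2 = Complex.exp z := by
    rw [← Complex.exp_nat_mul]
    congr 1
    push_cast
    ring
  have hden : 1 + Complex.exp z + Complex.exp z ^ 2 ≠ 0 := by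
    rw [← H906K.g2_den]
    exact mul_ne_zero h3 h4
  have htp := scw_eq_t h (z + Real.pi / 3 * Complex.I) (by
    rw [H906K.g2_im_add, abs_lt]; constructor <;> linarith)
  have htm := scw_eq_t h (z - Real.pi / 3 * Complex.I) (by
    rw [H906K.g2_im_sub, abs_lt]; constructor <;> linarith)
  rw [H906K.g2_exp_add] at htp
  rw [H906K.g2_exp_sub] at htm
  have htwo := h.two (-Complex.exp z)
  have e1 : H906K.om * (-Complex.exp z) = -H906K.om * Complex.exp z := by ring
  have e2 : H906K.om ^ 2 * (-Complex.exp z) = -H906K.om ^ 2 * Complex.exp z := by ring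
  rw [e1, e2, htp, htm] at htwo
  have e3 : (1 + -H906K.om * Complex.exp z) * (1 + -H906K.om ^ 2 * Complex.exp z) =
      1 + Complex.exp z + Complex.exp z ^ 2 := by
    rw [← H906K.g2_den]
    ring
  rw [e3] at htwo
  have e4 : (1 + -H906K.om * Complex.exp z) ^ N * (1 + -H906K.om ^ 2 * Complex.exp z) ^ N =
      (1 + Complex.exp z + Complex.exp z ^ 2) ^ N := by
    rw [← mul_pow, e3]
  have hden' := pow_ne_zero N hden
  -- the right hand side
  have hY : (Complex.tanh (3 * z / 4)) ^ N * hh N V z * (1 + Complex.exp z + Complex.exp z ^ 2) ^ N =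
      (1 + -Complex.exp z) ^ N * V.eval (-Complex.exp z) := by
    unfold hh
    rw [g7_tanh z h1, pow_mul]
    have e5 : Complex.exp z + Complex.exp (z / 2) + 1 =
        Complex.exp (z / 2) ^ 2 + Complex.exp (z / 2) + 1 := by rw [hp]
    rw [e5]
    have e6 : (Complex.exp (z / 2) ^ 3 - 1) / (Complex.exp (z / 2) ^ 3 + 1) *
        ((Complex.exp (z / 2) + 1) / (Complex.exp (z / 2) ^ 2 + Complex.exp (z / 2) + 1)) ^ 2 *
        (1 + Complex.exp z + Complex.exp z ^ 2) = -(1 + -Complex.exp z) := by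
      rw [← hp]
      generalize Complex.exp (z / 2) = P at h1 h2
      rw [div_pow, div_mul_div_comm, div_mul_eq_mul_div,
        div_eq_iff (mul_ne_zero h1 (pow_ne_zero 2 h2))]
      ring
    calc ((Complex.exp (z / 2) ^ 3 - 1) / (Complex.exp (z / 2) ^ 3 + 1)) ^ N *
          (V.eval (-Complex.exp z) * (((Complex.exp (z / 2) + 1) /
            (Complex.exp (z / 2) ^ 2 + Complex.exp (z / 2) + 1)) ^ 2) ^ N) *
          (1 + Complex.exp z + Complex.exp z ^ 2) ^ N
        = ((Complex.exp (z / 2) ^ 3 - 1) / (Complex.exp (z / 2) ^ 3 + 1) *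
          ((Complex.exp (z / 2) + 1) /
            (Complex.exp (z / 2) ^ 2 + Complex.exp (z / 2) + 1)) ^ 2 *
          (1 + Complex.exp z + Complex.exp z ^ 2)) ^ N * V.eval (-Complex.exp z) := by
          rw [mul_pow, mul_pow]
          ring
      _ = (1 + -Complex.exp z) ^ N * V.eval (-Complex.exp z) := by
          rw [e6, h.even.neg_pow]
  refine mul_right_cancel₀ hden' ?_
  rw [add_mul, hY, one_mul, ← htwo, ← e4]
  ring

theorem g7_tt (z : ℂ) (hz : |z.im| < Real.pi / 3) :
    Complex.tanh (3 * (z + Real.pi / 3 * Complex.I) / 4) *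
      Complex.tanh (3 * (z - Real.pi / 3 * Complex.I) / 4) = 1 := by
  have e1 : 3 * (z + Real.pi / 3 * Complex.I) / 4 = 3 * z / 4 + Real.pi / 4 * Complex.I := by ring
  have e2 : 3 * (z - Real.pi / 3 * Complex.I) / 4 = 3 * z / 4 - Real.pi / 4 * Complex.I := by ring
  rw [e1, e2]
  set w : ℂ := 3 * z / 4 with hw
  have hs : Complex.sin (Real.pi / 4) ^ 2 = 1 / 2 := by
    have : (Real.pi / 4 : ℂ) = ((Real.pi / 4 : ℝ) : ℂ) := by push_cast; ring
    rw [this, ← Complex.ofReal_sin, Real.sin_pi_div_four]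
    rw [← Complex.ofReal_pow, div_pow, Real.sq_sqrt (by norm_num)]
    norm_num
  have hc : Complex.cos (Real.pi / 4) ^ 2 = 1 / 2 := by
    have : (Real.pi / 4 : ℂ) = ((Real.pi / 4 : ℝ) : ℂ) := by push_cast; ring
    rw [this, ← Complex.ofReal_cos, Real.cos_pi_div_four]
    rw [← Complex.ofReal_pow, div_pow, Real.sq_sqrt (by norm_num)]
    norm_num
  have hcosh : Complex.cosh (w + Real.pi / 4 * Complex.I) *
      Complex.cosh (w - Real.pi / 4 * Complex.I) = Complex.sinh w ^ 2 + 1 / 2 := by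
    rw [Complex.cosh_add, Complex.cosh_sub, Complex.cosh_mul_I, Complex.sinh_mul_I]
    have h1 := Complex.cosh_sq w
    have hI : Complex.I ^ 2 = -1 := Complex.I_sq
    linear_combination (Complex.cos (Real.pi / 4) ^ 2) * h1 + (Complex.sinh w ^ 2 + 1) * hc +
      (Complex.sinh w ^ 2) * hs - (Complex.sinh w ^ 2 * Complex.sin (Real.pi / 4) ^ 2) * hI
  have hsinh : Complex.sinh (w + Real.pi / 4 * Complex.I) *
      Complex.sinh (w - Real.pi / 4 * Complex.I) = Complex.sinh w ^ 2 + 1 / 2 := by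
    rw [Complex.sinh_add, Complex.sinh_sub, Complex.cosh_mul_I, Complex.sinh_mul_I]
    have h1 := Complex.cosh_sq w
    have hI : Complex.I ^ 2 = -1 := Complex.I_sq
    linear_combination (Complex.sin (Real.pi / 4) ^ 2) * h1 + (Complex.sinh w ^ 2) * hc +
      (Complex.sinh w ^ 2 + 1) * hs - (Complex.cosh w ^ 2 * Complex.sin (Real.pi / 4) ^ 2) * hI
  have hne : Complex.sinh w ^ 2 + 1 / 2 ≠ 0 := by
    intro h0
    have h1 : Complex.cosh (2 * w) = 0 := by
      rw [Complex.cosh_two_mul]
      have h1 := Complex.cosh_sq w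
      linear_combination h1 + 2 * h0
    apply H906K.g2_strip' hz
    have h2 : Complex.exp (2 * w) + Complex.exp (-(2 * w)) = 0 := by
      rw [Complex.cosh] at h1
      linear_combination 2 * h1
    have h3 : Complex.exp (2 * w) * Complex.exp (-(2 * w)) = 1 := by
      rw [← Complex.exp_add]; simp
    have h4 : Complex.exp (3 * z) = Complex.exp (2 * w) * Complex.exp (2 * w) := by
      rw [← Complex.exp_add, hw]
      congr 1
      ring
    rw [h4]
    linear_combination Complex.exp (2 * w) * h2 - h3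
  rw [Complex.tanh_eq_sinh_div_cosh, Complex.tanh_eq_sinh_div_cosh, div_mul_div_comm, hsinh,
    hcosh, div_self hne]

/-- the three-term relation -/
theorem g7_three {N : ℕ} {w : ℝ} {p : ℕ → ℝ} {t V : ℂ[X]} (h : SpecW N w p t V) (z : ℂ)
    (hz : |z.im| < Real.pi / 3) :
    scw N w p z * scw N w p (z + Real.pi / 3 * Complex.I + Real.pi / 3 * Complex.I) *
        scw N w p (z - Real.pi / 3 * Complex.I - Real.pi / 3 * Complex.I) =
      scw N w p z + scw N w p (z + Real.pi / 3 * Complex.I + Real.pi / 3 * Complex.I) +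
        scw N w p (z - Real.pi / 3 * Complex.I - Real.pi / 3 * Complex.I) +
        ((w : ℂ) ^ 3 - 3 * w) := by
  have hpi := Real.pi_pos
  have hz2 := abs_lt.1 hz
  obtain ⟨h1, h2, h3⟩ := H906K.g2_ne' hz
  have ht0 := scw_eq_t h z (by linarith)
  have htp := scw_eq_t h (z + Real.pi / 3 * Complex.I + Real.pi / 3 * Complex.I) (by
    rw [H906K.g2_im_add, H906K.g2_im_add, abs_lt]; constructor <;> linarith)
  have htm := scw_eq_t h (z - Real.pi / 3 * Complex.I - Real.pi / 3 * Complex.I) (by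
    rw [H906K.g2_im_sub, H906K.g2_im_sub, abs_lt]; constructor <;> linarith)
  have e1 : Complex.exp (z + Real.pi / 3 * Complex.I + Real.pi / 3 * Complex.I) =
      H906K.om * Complex.exp z := by
    rw [H906K.g2_exp_add, H906K.g2_exp_add]
    linear_combination H906K.om * Complex.exp z * H906K.g2_om3
  have e2 : Complex.exp (z - Real.pi / 3 * Complex.I - Real.pi / 3 * Complex.I) =
      H906K.om ^ 2 * Complex.exp z := by
    rw [H906K.g2_exp_sub, H906K.g2_exp_sub]
    ring
  rw [e1] at htp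
  rw [e2] at htm
  have hth := h.three (Complex.exp z)
  rw [ht0, htp, htm, H906K.g2_cube] at hth
  simp only [mul_pow] at hth
  have h1' := pow_ne_zero N h1
  have h2' := pow_ne_zero N h2
  have h3' := pow_ne_zero N h3
  generalize (1 + Complex.exp z) ^ N = A at *
  generalize (1 + H906K.om * Complex.exp z) ^ N = B at *
  generalize (1 + H906K.om ^ 2 * Complex.exp z) ^ N = C' at *
  generalize scw N w p z = s0 at *
  generalize scw N w p (z + Real.pi / 3 * Complex.I + Real.pi / 3 * Complex.I) = sp at *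
  generalize scw N w p (z - Real.pi / 3 * Complex.I - Real.pi / 3 * Complex.I) = sm at *
  have hABC : A * B * C' ≠ 0 := mul_ne_zero (mul_ne_zero h1' h2') h3'
  refine mul_left_cancel₀ hABC ?_
  linear_combination hth

theorem g7_hh {N : ℕ} {w : ℝ} {p : ℕ → ℝ} {t V : ℂ[X]} (h : SpecW N w p t V) (z : ℂ)
    (hz : |z.im| < Real.pi / 3) :
    hh N V (z + Real.pi / 3 * Complex.I) * hh N V (z - Real.pi / 3 * Complex.I)
      = 1 + ((w : ℂ) ^ 3 - 3 * w) * scw N w p z + scw N w p z ^ 2 := by
  have hpi := Real.pi_pos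
  have hz2 := abs_lt.1 hz
  have hp := rel_hw h (z + Real.pi / 3 * Complex.I) (by
    rw [H906K.g2_im_add, abs_lt]; constructor <;> linarith)
  have hm := rel_hw h (z - Real.pi / 3 * Complex.I) (by
    rw [H906K.g2_im_sub, abs_lt]; constructor <;> linarith)
  rw [add_sub_cancel_right] at hp
  rw [sub_add_cancel] at hm
  have he := g7_three h z hz
  have hT : Complex.tanh (3 * (z + Real.pi / 3 * Complex.I) / 4) ^ N *
      Complex.tanh (3 * (z - Real.pi / 3 * Complex.I) / 4) ^ N = 1 := by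
    rw [← mul_pow, g7_tt z hz, one_pow]
  set a := Complex.tanh (3 * (z + Real.pi / 3 * Complex.I) / 4) ^ N
  set b := Complex.tanh (3 * (z - Real.pi / 3 * Complex.I) / 4) ^ N
  have hp' : a * hh N V (z + Real.pi / 3 * Complex.I) =
      scw N w p (z + Real.pi / 3 * Complex.I + Real.pi / 3 * Complex.I) * scw N w p z - 1 := by
    rw [hp]; ring
  have hm' : b * hh N V (z - Real.pi / 3 * Complex.I) =
      scw N w p z * scw N w p (z - Real.pi / 3 * Complex.I - Real.pi / 3 * Complex.I) - 1 := by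
    rw [hm]; ring
  calc hh N V (z + Real.pi / 3 * Complex.I) * hh N V (z - Real.pi / 3 * Complex.I)
      = (a * hh N V (z + Real.pi / 3 * Complex.I)) * (b * hh N V (z - Real.pi / 3 * Complex.I)) := by
        linear_combination (-(hh N V (z + Real.pi / 3 * Complex.I) *
          hh N V (z - Real.pi / 3 * Complex.I))) * hT
    _ = 1 + ((w : ℂ) ^ 3 - 3 * w) * scw N w p z + scw N w p z ^ 2 := by
        rw [hp', hm']
        linear_combination (scw N w p z) * he

theorem rel_hhw {N : ℕ} {w : ℝ} {p : ℕ → ℝ} {t V : ℂ[X]} (h : SpecW N w p t V) (z : ℂ)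
    (hz : |z.im| ≤ Real.pi / 3) :
    hh N V (z + Real.pi / 3 * Complex.I) * hh N V (z - Real.pi / 3 * Complex.I)
      = 1 + ((w : ℂ) ^ 3 - 3 * w) * scw N w p z + scw N w p z ^ 2 := by
  have hpi := Real.pi_pos
  have hz2 := abs_le.1 hz
  set f : ℂ → ℂ := fun z => hh N V (z + Real.pi / 3 * Complex.I) *
    hh N V (z - Real.pi / 3 * Complex.I) with hf
  set g : ℂ → ℂ := fun z => 1 + ((w : ℂ) ^ 3 - 3 * w) * scw N w p z + scw N w p z ^ 2 with hg
  have hfc : ContinuousAt f z := by
    have c1 : ContinuousAt (fun z => hh N V (z + Real.pi / 3 * Complex.I)) z := by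
      have := (hh_an N V (z + Real.pi / 3 * Complex.I) (by
        rw [H906K.g2_im_add, abs_lt]; constructor <;> linarith)).continuousAt
      exact ContinuousAt.comp (f := fun z : ℂ => z + Real.pi / 3 * Complex.I) this (by fun_prop)
    have c2 : ContinuousAt (fun z => hh N V (z - Real.pi / 3 * Complex.I)) z := by
      have := (hh_an N V (z - Real.pi / 3 * Complex.I) (by
        rw [H906K.g2_im_sub, abs_lt]; constructor <;> linarith)).continuousAt
      exact ContinuousAt.comp (f := fun z : ℂ => z - Real.pi / 3 * Complex.I) this (by fun_prop)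
    exact c1.mul c2
  have hgc : ContinuousAt g z := by
    have c1 : ContinuousAt (scw N w p) z := (scw_an z (by linarith)).continuousAt
    exact (continuousAt_const.add (continuousAt_const.mul c1)).add (c1.pow 2)
  -- the path
  set ζ : ℝ → ℂ := fun t => (z.re : ℂ) + ((t * z.im : ℝ) : ℂ) * Complex.I with hζ
  have hζc : Continuous ζ := by
    rw [hζ]
    fun_prop
  have hζ1 : ζ 1 = z := by
    rw [hζ]
    simp only [one_mul]
    exact Complex.re_add_im z
  have hζim : ∀ t, (ζ t).im = t * z.im := by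
    intro t
    rw [hζ]
    simp
  have ht : Tendsto ζ (𝓝[<] 1) (𝓝 z) := by
    have := hζc.tendsto 1
    rw [hζ1] at this
    exact this.mono_left nhdsWithin_le_nhds
  have h1 : Tendsto (fun t => f (ζ t)) (𝓝[<] 1) (𝓝 (f z)) := hfc.tendsto.comp ht
  have h2 : Tendsto (fun t => g (ζ t)) (𝓝[<] 1) (𝓝 (g z)) := hgc.tendsto.comp ht
  have h3 : (fun t => f (ζ t)) =ᶠ[𝓝[<] 1] fun t => g (ζ t) := by
    have h4 : Set.Ioo (0 : ℝ) 1 ∈ 𝓝[<] (1 : ℝ) := Ioo_mem_nhdsLT one_pos
    filter_upwards [h4] with t ht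
    refine g7_hh h (ζ t) ?_
    rw [hζim, abs_mul, abs_of_pos ht.1]
    have h5 : t * |z.im| ≤ t * (Real.pi / 3) := mul_le_mul_of_nonneg_left hz ht.1.le
    nlinarith [ht.2]
  exact tendsto_nhds_unique (h1.congr' h3) h2

end H906C
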