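import Pool.Agent.H906R3.CY.Defs2
import Pool.Agent.H906R3.CY.B4
import Pool.Agent.H906R3.CY.G6
import Pool.Agent.H906R3.CY.G7

/-!
# Zeros, sign and limits of `hh` for the weight `w` (task G8, helper99; adapted from B5)
-/

namespace H906C
open Pool.Agent.H863R2.Cyl
open Polynomial MeasureTheory Filter Topology

theorem g8_cast : (Real.pi / 3 * Complex.I : ℂ) = ((Real.pi / 3 : ℝ) : ℂ) * Complex.I := by
  push_cast; rfl

theorem g8_im_add (z : ℂ) : (z + Real.pi / 3 * Complex.I).im = z.im + Real.pi / 3 := by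
  rw [g8_cast]; simp

theorem g8_im_sub (z : ℂ) : (z - Real.pi / 3 * Complex.I).im = z.im - Real.pi / 3 := by
  rw [g8_cast]; simp

theorem g8_re_add (z : ℂ) : (z + Real.pi / 3 * Complex.I).re = z.re := by
  rw [g8_cast]; simp

theorem g8_re_sub (z : ℂ) : (z - Real.pi / 3 * Complex.I).re = z.re := by
  rw [g8_cast]; simp

theorem g8_sinh (w : ℂ) : ‖Complex.sinh w‖ ^ 2 = Real.sinh w.re ^ 2 + Real.sin w.im ^ 2 := by
  have e : Complex.sinh w = ((Real.sinh w.re * Real.cos w.im : ℝ) : ℂ) +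
      ((Real.cosh w.re * Real.sin w.im : ℝ) : ℂ) * Complex.I := by
    conv_lhs => rw [← Complex.re_add_im w]
    rw [Complex.sinh_add, Complex.cosh_mul_I, Complex.sinh_mul_I]
    push_cast
    ring
  rw [e, Complex.sq_norm, Complex.normSq_add_mul_I]
  have h1 := Real.cosh_sq w.re
  have h2 := Real.sin_sq_add_cos_sq w.im
  have h3 : Real.cos w.im ^ 2 = 1 - Real.sin w.im ^ 2 := by linarith
  rw [mul_pow, mul_pow, h1, h3]
  ring

theorem g8_cosh (w : ℂ) : ‖Complex.cosh w‖ ^ 2 = Real.sinh w.re ^ 2 + Real.cos w.im ^ 2 := by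
  have e : Complex.cosh w = ((Real.cosh w.re * Real.cos w.im : ℝ) : ℂ) +
      ((Real.sinh w.re * Real.sin w.im : ℝ) : ℂ) * Complex.I := by
    conv_lhs => rw [← Complex.re_add_im w]
    rw [Complex.cosh_add, Complex.cosh_mul_I, Complex.sinh_mul_I]
    push_cast
    ring
  rw [e, Complex.sq_norm, Complex.normSq_add_mul_I]
  have h1 := Real.cosh_sq w.re
  have h2 := Real.sin_sq_add_cos_sq w.im
  have h3 : Real.sin w.im ^ 2 = 1 - Real.cos w.im ^ 2 := by linarith
  rw [mul_pow, mul_pow, h1, h3]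
  ring

theorem g8_sinh_lb (a : ℝ) (ha : 3 / 4 ≤ |a|) : Real.exp |a| / 4 ≤ |Real.sinh a| := by
  have h1 : |Real.sinh a| = Real.sinh |a| := by
    rw [Real.abs_sinh]
  rw [h1, Real.sinh_eq]
  have h2 : Real.exp (-|a|) ≤ Real.exp |a| / 2 := by
    have h3 : Real.exp |a| = Real.exp (-|a|) * Real.exp (2 * |a|) := by
      rw [← Real.exp_add]; congr 1; ring
    have h4 : 2 ≤ Real.exp (2 * |a|) := by
      have := Real.add_one_le_exp (2 * |a|)
      linarith
    have h5 := Real.exp_pos (-|a|)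
    rw [h3]
    nlinarith
  linarith

/-- bounds for the square of the hyperbolic tangent -/
theorem g8_tanh (w : ℂ) (hw : 3 / 4 ≤ |w.re|) :
    ‖Complex.tanh w ^ 2 - 1‖ ≤ 16 * Real.exp (-(2 * |w.re|)) ∧ 1 / 100 ≤ ‖Complex.tanh w‖ := by
  have hs := g8_sinh w
  have hc := g8_cosh w
  have hlb := g8_sinh_lb w.re hw
  have hpos : 0 < Real.exp |w.re| / 4 := by positivity
  have hsh : (Real.exp |w.re| / 4) ^ 2 ≤ Real.sinh w.re ^ 2 := by
    rw [← sq_abs (Real.sinh w.re)]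
    exact pow_le_pow_left₀ hpos.le hlb 2
  have hc1 : (Real.exp |w.re| / 4) ^ 2 ≤ ‖Complex.cosh w‖ ^ 2 := by
    rw [hc]; nlinarith [sq_nonneg (Real.cos w.im)]
  have hcpos : 0 < ‖Complex.cosh w‖ ^ 2 := lt_of_lt_of_le (by positivity) hc1
  have hcne : Complex.cosh w ≠ 0 := by
    intro h0
    rw [h0, norm_zero] at hcpos
    norm_num at hcpos
  have hid := Complex.cosh_sq_sub_sinh_sq w
  constructor
  · have e : Complex.tanh w ^ 2 - 1 = -1 / Complex.cosh w ^ 2 := by
      rw [Complex.tanh_eq_sinh_div_cosh, div_pow]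
      field_simp
      linear_combination (-1 : ℂ) * hid
    rw [e, norm_div, norm_neg, norm_one, norm_pow]
    have h1 : 1 / ‖Complex.cosh w‖ ^ 2 ≤ 1 / (Real.exp |w.re| / 4) ^ 2 :=
      one_div_le_one_div_of_le (by positivity) hc1
    refine le_trans h1 (le_of_eq ?_)
    have h2 : Real.exp (-(2 * |w.re|)) = 1 / Real.exp |w.re| ^ 2 := by
      rw [Real.exp_neg, ← Real.exp_nat_mul, one_div]
      norm_num
    rw [h2]
    field_simp
    norm_num
  · rw [Complex.tanh_eq_sinh_div_cosh, norm_div]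
    rw [le_div_iff₀ (norm_pos_iff.mpr hcne)]
    have h3 : ‖Complex.cosh w‖ ^ 2 ≤ (100 * ‖Complex.sinh w‖) ^ 2 := by
      rw [mul_pow, hs, hc]
      have h4 : Real.cos w.im ^ 2 ≤ 1 := Real.cos_sq_le_one _
      have h5 : (1 : ℝ) / 16 ≤ (Real.exp |w.re| / 4) ^ 2 := by
        have h6 : 1 ≤ Real.exp |w.re| := Real.one_le_exp (abs_nonneg _)
        nlinarith
      nlinarith [sq_nonneg (Real.sin w.im)]
    have h7 := abs_le_of_sq_le_sq h3 (by positivity)
    rw [abs_of_nonneg (norm_nonneg _)] at h7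
    linarith


theorem g8_ne (w : ℝ) (w0 : 0 < w) (w2 : w < 2) (w1 : w ≠ 1) (s : ℂ) (hs : ‖s - 1‖ < |1 - w|) :
    1 + ((w : ℂ) ^ 3 - 3 * w) * s + s ^ 2 ≠ 0 := by
  intro h0
  obtain ⟨a, b, rfl⟩ : ∃ a b : ℝ, s = a + b * Complex.I := ⟨s.re, s.im, (Complex.re_add_im s).symm⟩
  obtain ⟨c, hc⟩ : ∃ c : ℝ, c = w ^ 3 - 3 * w := ⟨_, rfl⟩
  have e1 : 1 + ((w : ℂ) ^ 3 - 3 * w) * (a + b * Complex.I) + (a + b * Complex.I) ^ 2 =
      ((1 + c * a + a ^ 2 - b ^ 2 : ℝ) : ℂ) + ((c * b + 2 * a * b : ℝ) : ℂ) * Complex.I := by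
    rw [hc]
    push_cast
    linear_combination (b : ℂ) ^ 2 * Complex.I_sq
  rw [e1] at h0
  have hre := congrArg Complex.re h0
  have him := congrArg Complex.im h0
  simp only [Complex.add_re, Complex.ofReal_re, Complex.mul_re, Complex.I_re, mul_zero,
    Complex.ofReal_im, Complex.I_im, zero_mul, sub_zero, add_zero, Complex.zero_re] at hre
  simp only [Complex.add_im, Complex.ofReal_im, Complex.mul_im, Complex.I_im, mul_one,
    Complex.ofReal_re, Complex.I_re, mul_zero, zero_add, add_zero, Complex.zero_im] at him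
  have hw1 : 0 < (w - 1) ^ 2 := by
    have : w - 1 ≠ 0 := sub_ne_zero.2 w1
    positivity
  have hc1 : 2 + c = (w - 1) ^ 2 * (w + 2) := by rw [hc]; ring
  have hc2 : 2 - c = (2 - w) * (w + 1) ^ 2 := by rw [hc]; ring
  have hc1' : 0 < 2 + c := by rw [hc1]; positivity
  have hc2' : 0 < 2 - c := by
    rw [hc2]
    have : 0 < 2 - w := by linarith
    positivity
  have hfac : b * (c + 2 * a) = 0 := by linarith
  rcases mul_eq_zero.1 hfac with hb | ha
  · rw [hb] at hre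
    nlinarith [sq_nonneg (a + c / 2)]
  · have ha' : a = -c / 2 := by linarith
    have hn : ‖((a : ℂ) + b * Complex.I) - 1‖ ^ 2 < (1 - w) ^ 2 := by
      rw [← sq_abs (1 - w)]
      exact pow_lt_pow_left₀ hs (norm_nonneg _) two_ne_zero
    have e2 : ((a : ℂ) + b * Complex.I) - 1 = ((a - 1 : ℝ) : ℂ) + (b : ℂ) * Complex.I := by
      push_cast
      ring
    rw [e2, Complex.sq_norm, Complex.normSq_add_mul_I] at hn
    have h3 : (a - 1) ^ 2 + b ^ 2 = 2 + c := by
      have : b ^ 2 = 1 + c * a + a ^ 2 := by linarith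
      rw [this, ha']
      ring
    rw [h3, hc1] at hn
    nlinarith

theorem hhw_ne {N : ℕ} {w : ℝ} {p : ℕ → ℝ} {t V : ℂ[X]} (h : SpecW N w p t V) (z : ℂ)
    (hz : |z.im| ≤ 2 * Real.pi / 3) : hh N V z ≠ 0 := by
  have hpi := Real.pi_pos
  have key : ∀ v : ℂ, |v.im| ≤ Real.pi / 3 →
      (1 : ℂ) + ((w : ℂ) ^ 3 - 3 * w) * scw N w p v + scw N w p v ^ 2 ≠ 0 := fun v hv =>
    g8_ne w h.w0 h.w2 h.w1 _ (scw_near h v hv).1
  intro h0
  by_cases hs : 0 ≤ z.im
  · have hw : |(z - Real.pi / 3 * Complex.I).im| ≤ Real.pi / 3 := by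
      rw [g8_im_sub, abs_le]
      rw [abs_of_nonneg hs] at hz
      constructor <;> linarith
    have h1 := rel_hhw h _ hw
    have e : z - Real.pi / 3 * Complex.I + Real.pi / 3 * Complex.I = z := by ring
    rw [e, h0, zero_mul] at h1
    exact key _ hw h1.symm
  · push Not at hs
    have hw : |(z + Real.pi / 3 * Complex.I).im| ≤ Real.pi / 3 := by
      rw [g8_im_add, abs_le]
      rw [abs_of_neg hs] at hz
      constructor <;> linarith
    have h1 := rel_hhw h _ hw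
    have e : z + Real.pi / 3 * Complex.I - Real.pi / 3 * Complex.I = z := by ring
    rw [e, h0, mul_zero] at h1
    exact key _ hw h1.symm

theorem hhw_lim {N : ℕ} {w : ℝ} {p : ℕ → ℝ} {t V : ℂ[X]} (h : SpecW N w p t V) :
    ∃ K : ℝ, ∀ z : ℂ, |z.im| ≤ Real.pi / 2 → 1 ≤ |z.re| →
      ‖hh N V z - ((w : ℂ) ^ 2 - 1)‖ ≤ K * Real.exp (-|z.re|) := by
  have hpi := Real.pi_pos
  obtain ⟨K, hK⟩ := scw_lim h
  have hK0 : 0 ≤ K := by
    have h1 := hK 0 (by simp; positivity)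
    simp only [Complex.zero_re, abs_zero, neg_zero, Real.exp_zero, mul_one] at h1
    exact le_trans (norm_nonneg _) h1
  obtain ⟨n, hn⟩ := h.even
  have hN2 : N = 2 * n := by omega
  set C1 : ℝ := 16 * ∑ i ∈ Finset.range n, (17 : ℝ) ^ i with hC1
  have hC10 : 0 ≤ C1 := by positivity
  set Q : ℝ := ‖(w : ℂ) ^ 2 - 1‖ with hQ
  have hQ0 : 0 ≤ Q := norm_nonneg _
  refine ⟨(K * (4 + K) + Q * C1) * 100 ^ N, ?_⟩
  intro z hz1 hz2
  have hre : (3 * z / 4).re = 3 * z.re / 4 := by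
    have : (3 * z / 4 : ℂ) = ((3 / 4 : ℝ) : ℂ) * z := by push_cast; ring
    rw [this, Complex.re_ofReal_mul]; ring
  have hre34 : 3 / 4 ≤ |(3 * z / 4).re| := by
    rw [hre, abs_div, abs_mul]
    norm_num
    linarith
  obtain ⟨t1, t2⟩ := g8_tanh (3 * z / 4) hre34
  set T := Complex.tanh (3 * z / 4) with hT'
  have hexp : Real.exp (-(2 * |(3 * z / 4).re|)) ≤ Real.exp (-|z.re|) := by
    apply Real.exp_le_exp.mpr
    rw [hre, abs_div, abs_mul]
    norm_num
    linarith [abs_nonneg z.re]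
  have t1' : ‖T ^ 2 - 1‖ ≤ 16 * Real.exp (-|z.re|) := by
    refine le_trans t1 ?_
    exact mul_le_mul_of_nonneg_left hexp (by norm_num)
  have he1 : Real.exp (-|z.re|) ≤ 1 := by
    rw [Real.exp_le_one_iff]; linarith [abs_nonneg z.re]
  have hw2 : ‖T ^ 2‖ ≤ 17 := by
    have e : T ^ 2 = (T ^ 2 - 1) + 1 := by ring
    rw [e]
    refine le_trans (norm_add_le _ _) ?_
    rw [norm_one]
    linarith
  have hT : ‖T ^ N - 1‖ ≤ C1 * Real.exp (-|z.re|) := by
    rw [hN2, pow_mul, ← geom_sum_mul, norm_mul]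
    have h1 : ‖∑ i ∈ Finset.range n, (T ^ 2) ^ i‖ ≤ ∑ i ∈ Finset.range n, (17 : ℝ) ^ i := by
      refine le_trans (norm_sum_le _ _) (Finset.sum_le_sum fun i _ => ?_)
      rw [norm_pow]
      exact pow_le_pow_left₀ (norm_nonneg _) hw2 i
    calc ‖∑ i ∈ Finset.range n, (T ^ 2) ^ i‖ * ‖T ^ 2 - 1‖ ≤
        (∑ i ∈ Finset.range n, (17 : ℝ) ^ i) * (16 * Real.exp (-|z.re|)) :=
          mul_le_mul h1 t1' (norm_nonneg _) (by positivity)
      _ = C1 * Real.exp (-|z.re|) := by rw [hC1]; ring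
  have hwN : (1 / 100 : ℝ) ^ N ≤ ‖T ^ N‖ := by
    rw [norm_pow]
    exact pow_le_pow_left₀ (by norm_num) t2 N
  have hrel := rel_hw h z (lt_of_le_of_lt hz1 (by linarith))
  rw [← hT'] at hrel
  have hz3 := abs_le.mp hz1
  have s1 := hK (z + Real.pi / 3 * Complex.I) (by
    rw [g8_im_add, abs_le]; constructor <;> linarith)
  have s2 := hK (z - Real.pi / 3 * Complex.I) (by
    rw [g8_im_sub, abs_le]; constructor <;> linarith)
  rw [g8_re_add] at s1
  rw [g8_re_sub] at s2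
  have hwn : ‖(w : ℂ)‖ ≤ 2 := by
    rw [Complex.norm_real, Real.norm_of_nonneg h.w0.le]
    exact h.w2.le
  have s2' : ‖scw N w p (z - Real.pi / 3 * Complex.I)‖ ≤ 2 + K := by
    have e : scw N w p (z - Real.pi / 3 * Complex.I) =
      (scw N w p (z - Real.pi / 3 * Complex.I) - w) + w := by ring
    rw [e]
    refine (norm_add_le _ _).trans ?_
    nlinarith
  have hprod : ‖scw N w p (z + Real.pi / 3 * Complex.I) * scw N w p (z - Real.pi / 3 * Complex.I)
      - (w : ℂ) ^ 2‖ ≤ K * (4 + K) * Real.exp (-|z.re|) := by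
    have e : scw N w p (z + Real.pi / 3 * Complex.I) * scw N w p (z - Real.pi / 3 * Complex.I)
      - (w : ℂ) ^ 2 = (scw N w p (z + Real.pi / 3 * Complex.I) - w) *
        scw N w p (z - Real.pi / 3 * Complex.I) +
        w * (scw N w p (z - Real.pi / 3 * Complex.I) - w) := by ring
    rw [e]
    refine (norm_add_le _ _).trans ?_
    rw [norm_mul, norm_mul]
    calc _ ≤ (K * Real.exp (-|z.re|)) * (2 + K) + 2 * (K * Real.exp (-|z.re|)) := by
          apply add_le_add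
          · exact mul_le_mul s1 s2' (norm_nonneg _) (by positivity)
          · exact mul_le_mul hwn s2 (norm_nonneg _) (by norm_num)
      _ = _ := by ring
  have hmain : T ^ N * (hh N V z - ((w : ℂ) ^ 2 - 1)) =
      (scw N w p (z + Real.pi / 3 * Complex.I) * scw N w p (z - Real.pi / 3 * Complex.I)
        - (w : ℂ) ^ 2) - ((w : ℂ) ^ 2 - 1) * (T ^ N - 1) := by
    rw [hrel]; ring
  have hnorm : ‖T ^ N‖ * ‖hh N V z - ((w : ℂ) ^ 2 - 1)‖ ≤
      (K * (4 + K) + Q * C1) * Real.exp (-|z.re|) := by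
    rw [← norm_mul, hmain]
    refine le_trans (norm_sub_le _ _) ?_
    rw [add_mul]
    apply add_le_add hprod
    rw [norm_mul, ← hQ, mul_assoc]
    exact mul_le_mul_of_nonneg_left hT hQ0
  have h100 : (100 : ℝ) ^ N * (1 / 100 : ℝ) ^ N = 1 := by
    rw [← mul_pow]; norm_num
  calc ‖hh N V z - ((w : ℂ) ^ 2 - 1)‖
      = (100 : ℝ) ^ N * ((1 / 100 : ℝ) ^ N * ‖hh N V z - ((w : ℂ) ^ 2 - 1)‖) := by
        rw [← mul_assoc, h100, one_mul]
    _ ≤ (100 : ℝ) ^ N * (‖T ^ N‖ * ‖hh N V z - ((w : ℂ) ^ 2 - 1)‖) := by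
        apply mul_le_mul_of_nonneg_left _ (by positivity)
        exact mul_le_mul_of_nonneg_right hwN (norm_nonneg _)
    _ ≤ (100 : ℝ) ^ N * ((K * (4 + K) + Q * C1) * Real.exp (-|z.re|)) :=
        mul_le_mul_of_nonneg_left hnorm (by positivity)
    _ = _ := by ring

theorem g8_cont (N : ℕ) (V : ℂ[X]) : Continuous (fun u : ℝ => hh N V (u : ℂ)) := by
  rw [continuous_iff_continuousAt]
  intro u
  have h1 : ContinuousAt (hh N V) (u : ℂ) := by
    apply (hh_an N V (u : ℂ) _).continuousAt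
    simp
    positivity
  exact ContinuousAt.comp (f := fun u : ℝ => (u : ℂ)) h1 Complex.continuous_ofReal.continuousAt


theorem g8_im {N : ℕ} {w : ℝ} {p : ℕ → ℝ} {t V : ℂ[X]} (h : SpecW N w p t V) (u : ℝ) :
    (hh N V u).im = 0 := by
  have hpi := Real.pi_pos
  have hne : ∀ u : ℝ, u ≠ 0 → (hh N V u).im = 0 := by
    intro u hu
    have hrel := rel_hw h (u : ℂ) (by simp; positivity)
    have hconj : (u : ℂ) - Real.pi / 3 * Complex.I =
        starRingEnd ℂ ((u : ℂ) + Real.pi / 3 * Complex.I) := by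
      rw [g8_cast]
      simp only [map_add, map_mul, Complex.conj_ofReal, Complex.conj_I]
      ring
    rw [hconj, scw_conj, Complex.mul_conj] at hrel
    have htanh : Complex.tanh (3 * (u : ℂ) / 4) = ((Real.tanh (3 * u / 4) : ℝ) : ℂ) := by
      rw [Complex.ofReal_tanh]; congr 1; push_cast; ring
    rw [htanh] at hrel
    have him := congrArg Complex.im hrel
    rw [Complex.ofReal_im, Complex.add_im, Complex.one_im, zero_add, ← Complex.ofReal_pow,
      Complex.im_ofReal_mul] at him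
    have hT : Real.tanh (3 * u / 4) ^ N ≠ 0 := by
      apply pow_ne_zero
      rw [Real.tanh_eq_sinh_div_cosh]
      apply div_ne_zero _ (Real.cosh_pos _).ne'
      rw [Ne, Real.sinh_eq_zero]
      intro h0
      apply hu
      linarith
    rcases mul_eq_zero.mp him.symm with h1 | h1
    · exact absurd h1 hT
    · exact h1
  have hcont : Continuous (fun u : ℝ => (hh N V (u : ℂ)).im) :=
    Complex.continuous_im.comp (g8_cont N V)
  have := Continuous.ext_on (dense_compl_singleton (0 : ℝ)) hcont continuous_const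
    (fun u hu => hne u (by simpa using hu))
  exact congrFun this u

/-- a point where the real part of `hh` is close to its limit -/
theorem g8_far {N : ℕ} {w : ℝ} {p : ℕ → ℝ} {t V : ℂ[X]} (h : SpecW N w p t V) (ε : ℝ)
    (hε : 0 < ε) : ∃ a : ℝ, |(hh N V (a : ℂ)).re - (w ^ 2 - 1)| < ε := by
  have hpi := Real.pi_pos
  obtain ⟨K, hK⟩ := hhw_lim h
  have htend : Tendsto (fun a : ℝ => K * Real.exp (-a)) atTop (𝓝 (K * 0)) :=
    (Real.tendsto_exp_neg_atTop_nhds_zero).const_mul K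
  rw [mul_zero] at htend
  have hev := (htend.eventually (gt_mem_nhds hε)).and (eventually_ge_atTop (1 : ℝ))
  obtain ⟨a, ha1, ha2⟩ := hev.exists
  refine ⟨a, ?_⟩
  have h1 := hK (a : ℂ) (by simp; positivity) (by
    rw [Complex.ofReal_re]; exact le_trans ha2 (le_abs_self a))
  rw [Complex.ofReal_re, abs_of_pos (lt_of_lt_of_le one_pos ha2)] at h1
  have h2 : |(hh N V (a : ℂ) - ((w : ℂ) ^ 2 - 1)).re| ≤ ‖hh N V (a : ℂ) - ((w : ℂ) ^ 2 - 1)‖ :=
    Complex.abs_re_le_norm _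
  have h3 : (hh N V (a : ℂ) - ((w : ℂ) ^ 2 - 1)).re = (hh N V (a : ℂ)).re - (w ^ 2 - 1) := by
    rw [← Complex.ofReal_pow, ← Complex.ofReal_one, ← Complex.ofReal_sub, Complex.sub_re,
      Complex.ofReal_re]
  rw [h3] at h2
  linarith

theorem hhw_real {N : ℕ} {w : ℝ} {p : ℕ → ℝ} {t V : ℂ[X]} (h : SpecW N w p t V) (u : ℝ) :
    (hh N V u).im = 0 ∧ (w < 1 → (hh N V u).re < 0) ∧ (1 < w → 0 < (hh N V u).re) := by
  have hpi := Real.pi_pos
  refine ⟨g8_im h u, ?_, ?_⟩
  · intro hw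
    have hcont : Continuous (fun u : ℝ => (hh N V (u : ℂ)).re) :=
      Complex.continuous_re.comp (g8_cont N V)
    have hnz : ∀ u : ℝ, (hh N V (u : ℂ)).re ≠ 0 := by
      intro u h0
      apply hhw_ne h (u : ℂ) (by simp; positivity)
      exact Complex.ext h0 (g8_im h u)
    have hw' : 0 < 1 - w ^ 2 := by
      have := h.w0
      nlinarith
    obtain ⟨a, ha⟩ := g8_far h (1 - w ^ 2) hw'
    have hneg : ∃ a : ℝ, (hh N V (a : ℂ)).re ≤ 0 := by
      refine ⟨a, ?_⟩
      have := (abs_lt.1 ha).2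
      linarith
    by_contra hcon
    push Not at hcon
    obtain ⟨b, hb⟩ := mem_range_of_exists_le_of_exists_ge hcont hneg ⟨u, hcon⟩
    exact hnz b hb
  · intro hw
    have hcont : Continuous (fun u : ℝ => (hh N V (u : ℂ)).re) :=
      Complex.continuous_re.comp (g8_cont N V)
    have hnz : ∀ u : ℝ, (hh N V (u : ℂ)).re ≠ 0 := by
      intro u h0
      apply hhw_ne h (u : ℂ) (by simp; positivity)
      exact Complex.ext h0 (g8_im h u)
    have hw' : 0 < w ^ 2 - 1 := by nlinarith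
    obtain ⟨a, ha⟩ := g8_far h (w ^ 2 - 1) hw'
    have hpos : ∃ a : ℝ, 0 ≤ (hh N V (a : ℂ)).re := by
      refine ⟨a, ?_⟩
      have := (abs_lt.1 ha).1
      linarith
    by_contra hcon
    push Not at hcon
    obtain ⟨b, hb⟩ := mem_range_of_exists_le_of_exists_ge hcont ⟨u, hcon⟩ hpos
    exact hnz b hb

end H906C
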