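import Pool.Agent.H906R3.CY.Defs2
import Pool.Agent.H906R3.CY.G8
import Pool.Agent.H906R3.K6.A1
import Pool.Agent.H906R3.K6.A2b

/-! G9: the representation of `h` for the weight `w`. -/

namespace H906C
open MeasureTheory Filter Topology Polynomial
open H906K (kk Nice strip_rep kk_conv_nice kk_conv_top u2_exp_int)


/-- a differentiable function which is real on the real line -/
theorem g9_real {F : ℂ → ℂ} {u : ℝ} (hd : DifferentiableAt ℂ F u) (him : ∀ v : ℝ, (F v).im = 0) :
    HasDerivAt (fun v : ℝ => (F v).re) (deriv F u).re u ∧ deriv F u = ((deriv F u).re : ℂ) := by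
  have h1 : HasDerivAt F (deriv F u) (u : ℂ) := hd.hasDerivAt
  have h2 : HasDerivAt (fun v : ℝ => (F v).re) (deriv F u).re u := h1.real_of_complex
  refine ⟨h2, ?_⟩
  have h3 : HasDerivAt (fun v : ℝ => F v) (deriv F u) u := h1.comp_ofReal
  have h4 : HasDerivAt (fun v : ℝ => (((F v).re : ℝ) : ℂ)) ((deriv F u).re : ℂ) u := h2.ofReal_comp
  have h5 : (fun v : ℝ => (((F v).re : ℝ) : ℂ)) = fun v : ℝ => F v := by
    funext v
    apply Complex.ext
    · simp
    · simp [him v]
  rw [h5] at h4
  exact h3.unique h4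

/-- exponential bound for the logarithmic derivative -/
theorem g9_bound (H : ℂ → ℂ) (K : ℝ)
    (ha : ∀ z : ℂ, |z.im| < 4 * Real.pi / 3 → DifferentiableAt ℂ H z)
    (hne : ∀ z : ℂ, |z.im| ≤ 2 * Real.pi / 3 → H z ≠ 0)
    (hK : ∀ z : ℂ, |z.im| ≤ Real.pi / 2 → 1 ≤ |z.re| → ‖H z - 1‖ ≤ K * Real.exp (-|z.re|)) :
    ∃ C : ℝ, 0 ≤ C ∧ ∀ z : ℂ, |z.im| ≤ Real.pi / 3 → ‖deriv H z / H z‖ ≤ C * Real.exp (-|z.re|) := by
  have hpi := Real.pi_pos
  have hpi3 := Real.pi_gt_three
  have hopen : IsOpen {z : ℂ | |z.im| < 4 * Real.pi / 3} :=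
    isOpen_lt (continuous_abs.comp Complex.continuous_im) continuous_const
  have hHd : DifferentiableOn ℂ H {z : ℂ | |z.im| < 4 * Real.pi / 3} :=
    fun z hz => (ha z hz).differentiableWithinAt
  have hHd' : DifferentiableOn ℂ (deriv H) {z : ℂ | |z.im| < 4 * Real.pi / 3} := hHd.deriv hopen
  have hK0 : 0 ≤ K := by
    have h1 := hK 1 (by simp; positivity) (by simp)
    have h2 := (norm_nonneg _).trans h1
    by_contra hcon
    push Not at hcon
    have := mul_neg_of_neg_of_pos hcon (Real.exp_pos (-|(1 : ℂ).re|))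
    linarith
  -- Cauchy estimate
  have hC : ∀ z : ℂ, |z.im| ≤ Real.pi / 3 → 2 ≤ |z.re| →
      ‖deriv H z‖ ≤ 4 * K * Real.exp (-|z.re|) := by
    intro z hz hz2
    have hsub : ∀ w : ℂ, dist w z ≤ 1 / 2 → |w.im| ≤ Real.pi / 2 ∧ |z.re| - 1 / 2 ≤ |w.re| := by
      intro w hw
      rw [Complex.dist_eq] at hw
      have h1 : |(w - z).im| ≤ 1 / 2 := (Complex.abs_im_le_norm _).trans hw
      have h2 : |(w - z).re| ≤ 1 / 2 := (Complex.abs_re_le_norm _).trans hw
      rw [Complex.sub_im] at h1
      rw [Complex.sub_re] at h2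
      constructor
      · have := abs_sub_abs_le_abs_sub w.im z.im
        linarith
      · have := abs_sub_abs_le_abs_sub z.re w.re
        rw [abs_sub_comm] at this
        linarith
    have hd : DiffContOnCl ℂ (fun w => H w - 1) (Metric.ball z (1 / 2)) := by
      apply DifferentiableOn.diffContOnCl
      rw [closure_ball z (by norm_num)]
      intro w hw
      have h1 := (hsub w (Metric.mem_closedBall.1 hw)).1
      exact ((ha w (by linarith)).sub_const 1).differentiableWithinAt
    have h3 := Complex.norm_deriv_le_of_forall_mem_sphere_norm_le (c := z) (R := 1 / 2)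
      (C := K * Real.exp (-(|z.re| - 1 / 2))) (by norm_num) hd (fun w hw => by
        obtain ⟨h1, h2⟩ := hsub w (Metric.mem_sphere.1 hw).le
        refine (hK w h1 (by linarith)).trans ?_
        gcongr)
    have h4 : deriv (fun w => H w - 1) z = deriv H z := by
      rw [deriv_sub_const]
    rw [h4] at h3
    refine h3.trans ?_
    have h5 : Real.exp (-(|z.re| - 1 / 2)) ≤ 2 * Real.exp (-|z.re|) := by
      have h6 : Real.exp (-(|z.re| - 1 / 2)) = Real.exp (1 / 2) * Real.exp (-|z.re|) := by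
        rw [← Real.exp_add]; congr 1; ring
      rw [h6]
      have h7 : Real.exp (1 / 2) ≤ 2 := by
        have h8 : Real.exp (1 / 2) ^ 2 = Real.exp 1 := by
          rw [← Real.exp_nat_mul]; norm_num
        have h9 := Real.exp_one_lt_d9
        nlinarith [Real.exp_pos (1 / 2 : ℝ)]
      gcongr
    rw [div_le_iff₀ (by norm_num)]
    calc K * Real.exp (-(|z.re| - 1 / 2)) ≤ K * (2 * Real.exp (-|z.re|)) := by gcongr
      _ = _ := by ring
  -- radius
  obtain ⟨R, hR2, hR⟩ : ∃ R : ℝ, 2 ≤ R ∧ K * Real.exp (-R) ≤ 1 / 2 := by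
    refine ⟨max 2 (2 * K), le_max_left _ _, ?_⟩
    have h1 : 2 * K ≤ max 2 (2 * K) := le_max_right _ _
    have h2 : Real.exp (-(max 2 (2 * K))) ≤ (max 2 (2 * K))⁻¹ := by
      rw [Real.exp_neg]
      have : max 2 (2 * K) ≤ Real.exp (max 2 (2 * K)) := by
        have := Real.add_one_le_exp (max 2 (2 * K))
        linarith
      have h0 : (0 : ℝ) < max 2 (2 * K) := lt_of_lt_of_le (by norm_num) (le_max_left _ _)
      gcongr
    have h0 : (0 : ℝ) < max 2 (2 * K) := lt_of_lt_of_le (by norm_num) (le_max_left _ _)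
    calc K * Real.exp (-(max 2 (2 * K))) ≤ K * (max 2 (2 * K))⁻¹ := by gcongr
      _ ≤ 1 / 2 := by
        rw [← div_eq_mul_inv, div_le_iff₀ h0]
        linarith
  have hfar : ∀ z : ℂ, |z.im| ≤ Real.pi / 3 → R ≤ |z.re| →
      ‖deriv H z / H z‖ ≤ 8 * K * Real.exp (-|z.re|) := by
    intro z hz hz2
    have h1 := hC z hz (hR2.trans hz2)
    have h2 := hK z (by linarith) (by linarith)
    have h3 : ‖H z - 1‖ ≤ 1 / 2 := by
      refine h2.trans (le_trans ?_ hR)
      gcongr
    have h4 : 1 / 2 ≤ ‖H z‖ := by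
      have h5 : ‖(1 : ℂ)‖ ≤ ‖H z‖ + ‖H z - 1‖ := by
        calc ‖(1 : ℂ)‖ = ‖H z - (H z - 1)‖ := by congr 1; ring
          _ ≤ _ := norm_sub_le _ _
      rw [norm_one] at h5
      linarith
    rw [norm_div, div_le_iff₀ (by linarith)]
    have h6 : 0 ≤ K * Real.exp (-|z.re|) := by positivity
    nlinarith
  -- compact part
  have hcomp : IsCompact (Set.Icc (-R) R ×ℂ Set.Icc (-(Real.pi / 3)) (Real.pi / 3)) :=
    isCompact_Icc.reProdIm isCompact_Icc
  have hcont : ContinuousOn (fun z => deriv H z / H z)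
      (Set.Icc (-R) R ×ℂ Set.Icc (-(Real.pi / 3)) (Real.pi / 3)) := by
    intro z hz
    rw [Complex.mem_reProdIm] at hz
    have him : |z.im| ≤ Real.pi / 3 := abs_le.2 hz.2
    have h1 : z ∈ {z : ℂ | |z.im| < 4 * Real.pi / 3} := by
      change |z.im| < 4 * Real.pi / 3
      linarith
    exact ((hHd'.differentiableAt (hopen.mem_nhds h1)).continuousAt.div
      (ha z h1).continuousAt (hne z (by linarith))).continuousWithinAt
  obtain ⟨M, hM⟩ := hcomp.exists_bound_of_continuousOn hcont
  refine ⟨|M| * Real.exp R + 8 * K, by positivity, fun z hz => ?_⟩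
  rcases le_total R |z.re| with h | h
  · refine (hfar z hz h).trans ?_
    gcongr
    have : 0 ≤ |M| * Real.exp R := by positivity
    linarith
  · have h1 : z ∈ Set.Icc (-R) R ×ℂ Set.Icc (-(Real.pi / 3)) (Real.pi / 3) :=
      Complex.mem_reProdIm.2 ⟨abs_le.1 h, abs_le.1 hz⟩
    refine (hM z h1).trans ((le_abs_self M).trans ?_)
    have h2 : 1 ≤ Real.exp R * Real.exp (-|z.re|) := by
      rw [← Real.exp_add]
      exact Real.one_le_exp (by linarith)
    have h3 : 0 ≤ 8 * K * Real.exp (-|z.re|) := by positivity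
    have h4 : |M| * 1 ≤ |M| * (Real.exp R * Real.exp (-|z.re|)) := by gcongr
    nlinarith


theorem g9_pos {w : ℝ} (w0 : 0 < w) (w2 : w < 2) (w1 : w ≠ 1) (s : ℝ) :
    0 < 1 - (w ^ 3 - 3 * w) ^ 2 / 4 ∧ 1 - (w ^ 3 - 3 * w) ^ 2 / 4 ≤ 1 + (w ^ 3 - 3 * w) * s + s ^ 2 ∧
    |w ^ 3 - 3 * w| ≤ 2 := by
  have h1 : 0 < 2 + (w ^ 3 - 3 * w) := by
    have e : 2 + (w ^ 3 - 3 * w) = (w - 1) ^ 2 * (w + 2) := by ring
    rw [e]
    have : w - 1 ≠ 0 := sub_ne_zero.2 w1
    positivity
  have h2 : 0 < 2 - (w ^ 3 - 3 * w) := by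
    have e : 2 - (w ^ 3 - 3 * w) = (2 - w) * (w + 1) ^ 2 := by ring
    rw [e]
    have : 0 < 2 - w := by linarith
    positivity
  refine ⟨?_, ?_, ?_⟩
  · nlinarith [mul_pos h1 h2]
  · nlinarith [sq_nonneg (s + (w ^ 3 - 3 * w) / 2)]
  · rw [abs_le]; constructor <;> linarith

theorem hhw_rep {N : ℕ} {w : ℝ} {p : ℕ → ℝ} {t V : ℂ[X]} (h : SpecW N w p t V) (u : ℝ) :
    |(hh N V u).re| = Real.exp (bw w (srw N w p) u) := by
  have hpi := Real.pi_pos
  have w0 := h.w0
  have w2 := h.w2
  have w1 := h.w1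
  set c : ℝ := w ^ 3 - 3 * w with hc
  set a : ℝ := w ^ 2 - 1 with ha0
  have hane : a ≠ 0 := by
    rw [ha0]
    intro h0
    have h1 : (w - 1) * (w + 1) = 0 := by linarith
    rcases mul_eq_zero.1 h1 with h2 | h2
    · exact w1 (by linarith)
    · linarith
  have haC : (a : ℂ) ≠ 0 := Complex.ofReal_ne_zero.2 hane
  have haeq : (a : ℂ) = (w : ℂ) ^ 2 - 1 := by rw [ha0]; push_cast; ring
  have hceq : (c : ℂ) = (w : ℂ) ^ 3 - 3 * w := by rw [hc]; push_cast; ring
  obtain ⟨K', hK0⟩ := hhw_lim h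
  set K : ℝ := K' / |a| with hKdef
  set H : ℂ → ℂ := fun z => hh N V z / (a : ℂ) with hH
  have ha : ∀ z : ℂ, |z.im| < 4 * Real.pi / 3 → DifferentiableAt ℂ H z :=
    fun z hz => (hh_an N V z hz).div_const _
  have hne : ∀ z : ℂ, |z.im| ≤ 2 * Real.pi / 3 → H z ≠ 0 :=
    fun z hz => div_ne_zero (hhw_ne h z hz) haC
  have hK' : ∀ z : ℂ, |z.im| ≤ Real.pi / 2 → 1 ≤ |z.re| →
      ‖H z - 1‖ ≤ K * Real.exp (-|z.re|) := by
    intro z h1 h2
    have h3 : H z - 1 = (hh N V z - ((w : ℂ) ^ 2 - 1)) / (a : ℂ) := by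
      rw [hH, ← haeq]
      field_simp
    rw [h3, norm_div, Complex.norm_real, Real.norm_eq_abs, hKdef, div_mul_eq_mul_div]
    gcongr
    exact hK0 z h1 h2
  have hre : ∀ v : ℝ, (H v).im = 0 ∧ (H v).re = (hh N V v).re / a ∧ 0 < (H v).re := by
    intro v
    obtain ⟨h1, h2, h3⟩ := hhw_real h v
    have e1 : (H v).im = (hh N V v).im / a := by
      simp only [hH, Complex.div_ofReal_im]
    have e2 : (H v).re = (hh N V v).re / a := by
      simp only [hH, Complex.div_ofReal_re]
    refine ⟨by rw [e1, h1, zero_div], e2, ?_⟩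
    rw [e2]
    rcases lt_or_gt_of_ne w1 with h4 | h4
    · exact div_pos_of_neg_of_neg (h2 h4) (by rw [ha0]; nlinarith)
    · exact div_pos (h3 h4) (by rw [ha0]; nlinarith)
  have hrelH : ∀ z : ℂ, |z.im| ≤ Real.pi / 3 →
      H (z + Real.pi / 3 * Complex.I) * H (z - Real.pi / 3 * Complex.I)
        = (1 + (c : ℂ) * scw N w p z + scw N w p z ^ 2) / (a : ℂ) ^ 2 := by
    intro z hz
    rw [hceq, ← rel_hhw h z hz, hH]
    field_simp
  obtain ⟨C, hC0, hC⟩ := g9_bound H K ha hne hK'
  set s : ℝ → ℝ := srw N w p with hs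
  -- the function s
  have hsca : ∀ v : ℝ, DifferentiableAt ℂ (scw N w p) (v : ℂ) :=
    fun v => scw_an v (by simp; positivity)
  have hscim : ∀ v : ℝ, (scw N w p v).im = 0 := fun v => by rw [scw_ofReal]; simp
  have hsder : ∀ v : ℝ, HasDerivAt s (deriv (scw N w p) v).re v := by
    intro v
    have h1 := (g9_real (hsca v) hscim).1
    have h2 : (fun v : ℝ => (scw N w p v).re) = s := by
      funext v
      rw [scw_ofReal, Complex.ofReal_re]
    rwa [h2] at h1
  have hsopen : IsOpen {z : ℂ | |z.im| < Real.pi} :=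
    isOpen_lt (continuous_abs.comp Complex.continuous_im) continuous_const
  have hsd : DifferentiableOn ℂ (deriv (scw N w p)) {z : ℂ | |z.im| < Real.pi} :=
    DifferentiableOn.deriv (fun z hz => (scw_an z hz).differentiableWithinAt) hsopen
  have hs'c : Continuous fun v : ℝ => (deriv (scw N w p) v).re := by
    rw [continuous_iff_continuousAt]
    intro v
    have h1 : (v : ℂ) ∈ {z : ℂ | |z.im| < Real.pi} := by
      change |(v : ℂ).im| < Real.pi
      simp; positivity
    have h2 : ContinuousAt (deriv (scw N w p)) (v : ℂ) :=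
      (hsd.differentiableAt (hsopen.mem_nhds h1)).continuousAt
    have h3 : ContinuousAt (fun v : ℝ => deriv (scw N w p) (v : ℂ)) v :=
      ContinuousAt.comp (f := fun v : ℝ => (v : ℂ)) h2 Complex.continuous_ofReal.continuousAt
    exact Complex.continuous_re.continuousAt.comp h3
  have hsc : Continuous s := by
    rw [continuous_iff_continuousAt]
    exact fun v => (hsder v).continuousAt
  obtain ⟨δpos, -, hcabs⟩ := g9_pos w0 w2 w1 0
  set δ : ℝ := 1 - (w ^ 3 - 3 * w) ^ 2 / 4 with hδ
  have hlow : ∀ v, δ ≤ 1 + c * s v + s v ^ 2 := fun v => (g9_pos w0 w2 w1 (s v)).2.1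
  have hpos : ∀ v, 0 < 1 + c * s v + s v ^ 2 := fun v => lt_of_lt_of_le δpos (hlow v)
  have hLd : ∀ v : ℝ, HasDerivAt (LW w s)
      ((c * (deriv (scw N w p) v).re + 2 * s v * (deriv (scw N w p) v).re) /
        (1 + c * s v + s v ^ 2)) v := by
    intro v
    have e2 : HasDerivAt (fun v => 1 + c * s v + s v ^ 2)
        (c * (deriv (scw N w p) v).re + 2 * s v * (deriv (scw N w p) v).re) v := by
      have e3 := ((hsder v).const_mul c).const_add 1
      have e4 := e3.fun_add ((hsder v).fun_pow 2)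
      simpa using e4
    exact e2.log (hpos v).ne'
  have hLd' : ∀ v, deriv (LW w s) v =
      (c * (deriv (scw N w p) v).re + 2 * s v * (deriv (scw N w p) v).re) /
        (1 + c * s v + s v ^ 2) :=
    fun v => (hLd v).deriv
  -- the functional equation, differentiated
  have hrel : ∀ v : ℝ, deriv H (v + Real.pi / 3 * Complex.I) / H (v + Real.pi / 3 * Complex.I) +
      deriv H (v - Real.pi / 3 * Complex.I) / H (v - Real.pi / 3 * Complex.I) =
      ((deriv (LW w s) v : ℝ) : ℂ) := by
    intro v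
    set p1 : ℂ := v + Real.pi / 3 * Complex.I with hp
    set m : ℂ := v - Real.pi / 3 * Complex.I with hm
    have hpim : p1.im = Real.pi / 3 := by simp [hp]
    have hmim : m.im = -(Real.pi / 3) := by simp [hm]
    have hpa : |p1.im| ≤ 2 * Real.pi / 3 := by
      rw [hpim, abs_of_pos (by positivity)]; linarith
    have hma : |m.im| ≤ 2 * Real.pi / 3 := by
      rw [hmim, abs_neg, abs_of_pos (by positivity)]; linarith
    have d1 : HasDerivAt (fun z : ℂ => H (z + Real.pi / 3 * Complex.I)) (deriv H p1) (v : ℂ) := by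
      have := (ha p1 (by linarith)).hasDerivAt
      have h2 : HasDerivAt (fun z : ℂ => z + Real.pi / 3 * Complex.I) 1 (v : ℂ) :=
        (hasDerivAt_id _).add_const _
      have h3 := HasDerivAt.comp (h₂ := H) (h := fun z : ℂ => z + Real.pi / 3 * Complex.I) (v : ℂ) this h2
      rw [mul_one] at h3
      exact h3
    have d2 : HasDerivAt (fun z : ℂ => H (z - Real.pi / 3 * Complex.I)) (deriv H m) (v : ℂ) := by
      have := (ha m (by linarith)).hasDerivAt
      have h2 : HasDerivAt (fun z : ℂ => z - Real.pi / 3 * Complex.I) 1 (v : ℂ) :=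
        (hasDerivAt_id _).sub_const _
      have h3 := HasDerivAt.comp (h₂ := H) (h := fun z : ℂ => z - Real.pi / 3 * Complex.I) (v : ℂ) this h2
      rw [mul_one] at h3
      exact h3
    have d3 := d1.mul d2
    have d4 : HasDerivAt (fun z : ℂ => (1 + (c : ℂ) * scw N w p z + scw N w p z ^ 2) / (a : ℂ) ^ 2)
        (((c : ℂ) * deriv (scw N w p) v + 2 * scw N w p v * deriv (scw N w p) v) / (a : ℂ) ^ 2)
        (v : ℂ) := by
      have e3 := ((hsca v).hasDerivAt.const_mul (c : ℂ)).const_add 1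
      have e4 := (e3.fun_add ((hsca v).hasDerivAt.fun_pow 2)).div_const ((a : ℂ) ^ 2)
      simpa using e4
    have hev : (fun z : ℂ => H (z + Real.pi / 3 * Complex.I) * H (z - Real.pi / 3 * Complex.I))
        =ᶠ[𝓝 (v : ℂ)] fun z => (1 + (c : ℂ) * scw N w p z + scw N w p z ^ 2) / (a : ℂ) ^ 2 := by
      have hU : {z : ℂ | |z.im| < Real.pi / 3} ∈ 𝓝 (v : ℂ) := by
        apply (isOpen_lt (continuous_abs.comp Complex.continuous_im) continuous_const).mem_nhds
        simp; positivity
      filter_upwards [hU] with z hz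
      exact hrelH z (le_of_lt hz)
    have d5 : HasDerivAt (fun z : ℂ => (1 + (c : ℂ) * scw N w p z + scw N w p z ^ 2) / (a : ℂ) ^ 2)
        (deriv H p1 * H m + H p1 * deriv H m) (v : ℂ) :=
      HasDerivAt.congr_of_eventuallyEq d3 hev.symm
    have d6 := d5.unique d4
    have hval : H p1 * H m = (1 + (c : ℂ) * scw N w p v + scw N w p v ^ 2) / (a : ℂ) ^ 2 :=
      hev.eq_of_nhds
    have r2 := (g9_real (hsca v) hscim).2
    have hp0 := hne p1 hpa
    have hm0 := hne m hma
    have ha2 : (a : ℂ) ^ 2 ≠ 0 := pow_ne_zero 2 haC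
    rw [div_add_div _ _ hp0 hm0, d6, hval, hLd' v, div_div_div_cancel_right₀ ha2, scw_ofReal, r2]
    push_cast
    simp only [Complex.ofReal_re]
    rfl
  -- LW is nice
  have hLc : Continuous (LW w s) := by
    rw [continuous_iff_continuousAt]
    exact fun v => (hLd v).continuousAt
  have hL'c : Continuous (deriv (LW w s)) := by
    have : deriv (LW w s) = fun v : ℝ =>
        (c * (deriv (scw N w p) v).re + 2 * s v * (deriv (scw N w p) v).re) /
        (1 + c * s v + s v ^ 2) := funext hLd'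
    rw [this]
    exact ((continuous_const.mul hs'c).add ((continuous_const.mul hsc).mul hs'c)).div
      ((continuous_const.add (continuous_const.mul hsc)).add (hsc.pow 2))
      (fun v => (hpos v).ne')
  have hL'i : Integrable (deriv (LW w s)) := by
    refine (u2_exp_int.const_mul (2 * C)).mono' hL'c.aestronglyMeasurable
      (Eventually.of_forall fun v => ?_)
    have h1 := hC (v + Real.pi / 3 * Complex.I) (by
      simp; rw [abs_of_pos (by positivity)])
    have h2 := hC (v - Real.pi / 3 * Complex.I) (by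
      simp; rw [abs_of_pos (by positivity)])
    have e1 : ((v : ℂ) + Real.pi / 3 * Complex.I).re = v := by simp
    have e2 : ((v : ℂ) - Real.pi / 3 * Complex.I).re = v := by simp
    rw [e1] at h1
    rw [e2] at h2
    have h3 : ‖deriv (LW w s) v‖ = ‖((deriv (LW w s) v : ℝ) : ℂ)‖ := by
      rw [Complex.norm_real]
    rw [h3, ← hrel v]
    refine (norm_add_le _ _).trans ?_
    linarith
  have nL : Nice (LW w s) := ⟨fun v => (hLd v).differentiableAt, hL'c, hL'i⟩
  have hs2 : ∀ v, |s v| ≤ 2 := by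
    intro v
    have h1 := (scw_near h (v : ℂ) (by simp; positivity)).1
    rw [scw_ofReal, ← Complex.ofReal_one, ← Complex.ofReal_sub, Complex.norm_real,
      Real.norm_eq_abs] at h1
    have h2 : |1 - w| < 1 := by rw [abs_lt]; constructor <;> linarith
    have h3 := abs_sub_abs_le_abs_sub (s v) 1
    rw [abs_one] at h3
    have h4 : |s v - 1| < |1 - w| := h1
    linarith
  have bL : ∀ v, |LW w s v| ≤ Real.log 9 + |Real.log δ| := by
    intro v
    have h4 : 1 + c * s v + s v ^ 2 ≤ 9 := by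
      have h5 : s v ^ 2 ≤ 4 := by
        rw [← sq_abs (s v)]
        have := pow_le_pow_left₀ (abs_nonneg _) (hs2 v) 2
        linarith
      have h6 : c * s v ≤ 4 := by
        refine (le_abs_self _).trans ?_
        rw [abs_mul]
        have := mul_le_mul hcabs (hs2 v) (abs_nonneg _) (by norm_num)
        linarith
      linarith
    have h5 : Real.log δ ≤ LW w s v := Real.log_le_log δpos (hlow v)
    have h6 : LW w s v ≤ Real.log 9 := Real.log_le_log (hpos v) h4
    have h7 : 0 ≤ Real.log 9 := Real.log_nonneg (by norm_num)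
    have h8 := neg_abs_le (Real.log δ)
    have h9 := abs_nonneg (Real.log δ)
    rw [abs_le]
    constructor <;> linarith
  -- the representation
  have hHd : DifferentiableOn ℂ H {z : ℂ | |z.im| < 4 * Real.pi / 3} :=
    fun z hz => (ha z hz).differentiableWithinAt
  have hopen : IsOpen {z : ℂ | |z.im| < 4 * Real.pi / 3} :=
    isOpen_lt (continuous_abs.comp Complex.continuous_im) continuous_const
  have hHd' : DifferentiableOn ℂ (deriv H) {z : ℂ | |z.im| < 4 * Real.pi / 3} := hHd.deriv hopen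
  have hf : ∀ z : ℂ, |z.im| ≤ Real.pi / 3 → DifferentiableAt ℂ (fun z => deriv H z / H z) z := by
    intro z hz
    have hz' : z ∈ {z : ℂ | |z.im| < 4 * Real.pi / 3} := lt_of_le_of_lt hz (by linarith)
    exact (hHd'.differentiableAt (hopen.mem_nhds hz')).div (ha z hz') (hne z (by linarith))
  have hfb : ∀ z : ℂ, |z.im| ≤ Real.pi / 3 → ‖(fun z => deriv H z / H z) z‖ ≤ C := by
    intro z hz
    refine (hC z hz).trans ?_
    have : Real.exp (-|z.re|) ≤ 1 := Real.exp_le_one_iff.2 (by simp)
    nlinarith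
  have hrep : ∀ l : ℝ, deriv H l / H l = ((deriv (bw w s) l : ℝ) : ℂ) := by
    intro l
    have h1 : deriv H l / H l = ∫ v : ℝ, (kk (l - v) : ℂ) * (deriv H (v + Real.pi / 3 * Complex.I) /
        H (v + Real.pi / 3 * Complex.I) + deriv H (v - Real.pi / 3 * Complex.I) /
        H (v - Real.pi / 3 * Complex.I)) :=
      strip_rep (fun z => deriv H z / H z) C hf hfb l
    rw [h1]
    have h2 : ∀ v : ℝ, (kk (l - v) : ℂ) * (deriv H (v + Real.pi / 3 * Complex.I) /
        H (v + Real.pi / 3 * Complex.I) + deriv H (v - Real.pi / 3 * Complex.I) /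
        H (v - Real.pi / 3 * Complex.I)) = ((kk (l - v) * deriv (LW w s) v : ℝ) : ℂ) := by
      intro v
      rw [hrel v]
      push_cast
      rfl
    simp_rw [h2]
    rw [integral_complex_ofReal]
    have h3 := (kk_conv_nice (LW w s) _ nL bL).2 l
    congr 1
    exact h3.symm
  -- the difference of the logarithms is constant
  have hbd : ∀ l : ℝ, DifferentiableAt ℝ (bw w s) l := (kk_conv_nice (LW w s) _ nL bL).1.1
  have hHr : ∀ l : ℝ, HasDerivAt (fun v : ℝ => (H v).re) (deriv H l).re l ∧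
      deriv H l = ((deriv H l).re : ℂ) := by
    intro l
    exact g9_real (ha l (by simp; positivity)) (fun v => (hre v).1)
  have hD : ∀ l : ℝ, HasDerivAt (fun v : ℝ => Real.log (H v).re - bw w s v) 0 l := by
    intro l
    have e1 := (hHr l).1.log (hre l).2.2.ne'
    have e2 := e1.sub (hbd l).hasDerivAt
    have e3 : (deriv H l).re / (H l).re = deriv (bw w s) l := by
      have h4 := hrep l
      have h5 : H l = ((H l).re : ℂ) := by
        apply Complex.ext
        · simp
        · simp [(hre l).1]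
      rw [(hHr l).2, h5] at h4
      exact_mod_cast h4
    rw [e3, sub_self] at e2
    exact e2
  have hconst : ∀ a b : ℝ, Real.log (H a).re - bw w s a = Real.log (H b).re - bw w s b :=
    fun a b => is_const_of_deriv_eq_zero (fun l => (hD l).differentiableAt) (fun l => (hD l).deriv) a b
  -- the limit at infinity
  have hexp0 : ∀ B : ℝ, Tendsto (fun v : ℝ => B * Real.exp (-|v|)) atTop (𝓝 0) := by
    intro B
    have h1 : Tendsto (fun v : ℝ => Real.exp (-|v|)) atTop (𝓝 0) :=
      Real.tendsto_exp_neg_atTop_nhds_zero.comp tendsto_abs_atTop_atTop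
    simpa using h1.const_mul B
  have c4 : Tendsto (fun v : ℝ => (H v).re) atTop (𝓝 1) := by
    have h1 : Tendsto (fun v : ℝ => (H v).re - 1) atTop (𝓝 0) := by
      refine squeeze_zero_norm' ?_ (hexp0 K)
      filter_upwards [eventually_ge_atTop (1 : ℝ)] with v hv
      have h2 := hK' (v : ℂ) (by simp; positivity) (by
        simp
        rw [abs_of_pos (by linarith)]
        exact hv)
      rw [Complex.ofReal_re] at h2
      refine le_trans ?_ h2
      have h3 : (H v).re - 1 = (H v - 1).re := by simp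
      rw [h3, Real.norm_eq_abs]
      exact Complex.abs_re_le_norm _
    simpa using h1.add_const 1
  have l1 : Tendsto (fun v : ℝ => Real.log (H v).re) atTop (𝓝 0) := by
    have := (Real.continuousAt_log one_ne_zero).tendsto.comp c4
    rwa [Real.log_one] at this
  obtain ⟨K2, hK2⟩ := scw_lim h
  have hs0 : Tendsto s atTop (𝓝 w) := by
    have h1 : Tendsto (fun v : ℝ => s v - w) atTop (𝓝 0) := by
      refine squeeze_zero_norm' (Eventually.of_forall fun v => ?_) (hexp0 K2)
      have h2 := hK2 (v : ℂ) (by simp; positivity)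
      rw [scw_ofReal, ← Complex.ofReal_sub, Complex.norm_real, Complex.ofReal_re] at h2
      exact h2
    simpa using h1.add_const w
  have hww : 1 + c * w + w ^ 2 = a ^ 2 := by rw [hc, ha0]; ring
  have l2 : Tendsto (LW w s) atTop (𝓝 (Real.log (a ^ 2))) := by
    have h3 : Tendsto (fun v => 1 + c * s v + s v ^ 2) atTop (𝓝 (1 + c * w + w ^ 2)) :=
      ((hs0.const_mul c).const_add 1).add (hs0.pow 2)
    rw [hww] at h3
    exact (Real.continuousAt_log (pow_ne_zero 2 hane)).tendsto.comp h3
  have l3 : Tendsto (bw w s) atTop (𝓝 (Real.log |a|)) := by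
    have := kk_conv_top (LW w s) _ _ hLc bL l2
    have e : Real.log (a ^ 2) / 2 = Real.log |a| := by
      rw [← sq_abs a, Real.log_pow]
      push_cast
      ring
    rwa [e] at this
  have l5 : Tendsto (fun v : ℝ => Real.log (H v).re - bw w s v) atTop (𝓝 (0 - Real.log |a|)) :=
    l1.sub l3
  have l6 : Real.log (H u).re - bw w s u = 0 - Real.log |a| := by
    have h7 : (fun v : ℝ => Real.log (H v).re - bw w s v) = fun _ => Real.log (H u).re - bw w s u :=
      funext fun v => hconst v u
    rw [h7] at l5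
    exact tendsto_nhds_unique tendsto_const_nhds l5
  have hapos : 0 < |a| := abs_pos.2 hane
  have l7 : bw w s u = Real.log (H u).re + Real.log |a| := by linarith
  have l8 : |(hh N V u).re| = (H u).re * |a| := by
    have h9 : (hh N V u).re = (H u).re * a := by
      rw [(hre u).2.1]
      field_simp
    rw [h9, abs_mul, abs_of_pos (hre u).2.2]
  rw [l7, Real.exp_add, Real.exp_log (hre u).2.2, Real.exp_log hapos, l8]

end H906C
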