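import Pool.Agent.H906R3.CY.Defs2
import Pool.Agent.H906R3.CY.B1
import Pool.Agent.H906R3.CY.G6
import Pool.Agent.H906R3.CY.G7
import Pool.Agent.H906R3.CY.G8
import Pool.Agent.H906R3.CY.G9

/-! Task G10 (general weight `w`): the representation of `s` (adapted from B7). -/

namespace H906C
open Pool.Agent.H863R2.Cyl
open Pool.Agent.H863R2.Cyl.Sem1Aux (Inc RH Cons)
open Pool.Agent.H988R2.Perc (Word)
open Polynomial MeasureTheory Filter Topology

theorem g10_conj (u : ℝ) : starRingEnd ℂ ((u : ℂ) + Real.pi / 3 * Complex.I) =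
    (u : ℂ) - Real.pi / 3 * Complex.I := by
  rw [map_add, map_mul, Complex.conj_I, Complex.conj_ofReal, map_div₀, Complex.conj_ofReal]
  have : (starRingEnd ℂ) (3 : ℂ) = 3 := Complex.conj_ofNat 3
  rw [this]
  ring

theorem g10_im (u : ℝ) : ((u : ℂ) + Real.pi / 3 * Complex.I).im = Real.pi / 3 := by
  have : ((u : ℂ) + Real.pi / 3 * Complex.I) = (u : ℂ) + ((Real.pi / 3 : ℝ) : ℂ) * Complex.I := by
    push_cast
    ring
  rw [this]
  simp

theorem g10_sq {N : ℕ} {w : ℝ} {p : ℕ → ℝ} {t V : ℂ[X]} (h : SpecW N w p t V) (u : ℝ) :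
    ‖scw N w p (u + Real.pi / 3 * Complex.I)‖ ^ 2 = 1 + YW N w (srw N w p) u := by
  have hpi := Real.pi_pos
  have h1 := rel_hw h (u : ℂ) (by
    rw [Complex.ofReal_im, abs_zero]
    positivity)
  rw [← g10_conj, scw_conj, Complex.mul_conj, Complex.normSq_eq_norm_sq] at h1
  have h2 : hh N V u = (((if w < 1 then -1 else 1) * Real.exp (bw w (srw N w p) u) : ℝ) : ℂ) := by
    obtain ⟨h3, h4, h5⟩ := hhw_real h u
    have h6 := hhw_rep h u
    apply Complex.ext
    · rw [Complex.ofReal_re]
      split_ifs with hw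
      · have := h4 hw
        rw [abs_of_neg this] at h6
        linarith
      · have hw' : 1 < w := lt_of_le_of_ne (not_lt.1 hw) (Ne.symm h.w1)
        have := h5 hw'
        rw [abs_of_pos this] at h6
        linarith
    · rw [Complex.ofReal_im]
      exact h3
  have h5 : Complex.tanh (3 * (u : ℂ) / 4) = ((Real.tanh (3 * u / 4) : ℝ) : ℂ) := by
    push_cast
    rfl
  rw [h2, h5] at h1
  have h6 : ((‖scw N w p (u + Real.pi / 3 * Complex.I)‖ ^ 2 : ℝ) : ℂ) =
      ((1 + YW N w (srw N w p) u : ℝ) : ℂ) := by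
    rw [h1]
    unfold YW
    push_cast
    ring
  exact Complex.ofReal_injective h6

theorem sw_rep {N : ℕ} {w : ℝ} {p : ℕ → ℝ} {t V : ℂ[X]} (h : SpecW N w p t V) :
    (∀ u : ℝ, ‖scw N w p (u + Real.pi / 3 * Complex.I)‖ ^ 2 = 1 + YW N w (srw N w p) u) ∧
    ∀ l : ℝ, Real.log (srw N w p l) = ∫ u : ℝ, H906K.kk (l - u) * lw N w (srw N w p) u := by
  refine ⟨g10_sq h, ?_⟩
  intro l
  have hpi := Real.pi_pos
  have hpi4 := Real.pi_lt_four
  have hw0 := h.w0
  have hw2 := h.w2
  set μ : ℝ := min w (2 - w) with hμ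
  have hμ0 : 0 < μ := lt_min hw0 (by linarith)
  have hre : ∀ z : ℂ, |z.im| ≤ Real.pi / 3 → 0 < (scw N w p z).re := fun z hz =>
    lt_of_lt_of_le hμ0 (scw_near h z hz).2
  have hslit : ∀ z : ℂ, |z.im| ≤ Real.pi / 3 → scw N w p z ∈ Complex.slitPlane := fun z hz =>
    Or.inl (hre z hz)
  have key := strip_rep_lin (fun z => Complex.log (scw N w p z)) (|Real.log μ| + 6)
    (fun z hz => (scw_an z (by linarith)).clog (hslit z hz)) (by
      intro z hz
      obtain ⟨h1, h2⟩ := scw_near h z hz
      have h3 : μ ≤ ‖scw N w p z‖ := h2.trans ((le_abs_self _).trans (Complex.abs_re_le_norm _))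
      have hpos : 0 < ‖scw N w p z‖ := lt_of_lt_of_le hμ0 h3
      have h4 : Real.log ‖scw N w p z‖ ≤ 1 := by
        have h41 := Real.log_le_sub_one_of_pos hpos
        have h42 : ‖scw N w p z‖ ≤ ‖scw N w p z - 1‖ + 1 := by
          have := norm_add_le (scw N w p z - 1) 1
          simpa using this
        have h43 : |1 - w| < 1 := by
          rw [abs_lt]
          constructor <;> linarith
        linarith
      have h5 : Real.log μ ≤ Real.log ‖scw N w p z‖ := Real.log_le_log hμ0 h3
      have h8 : ‖Complex.log (scw N w p z)‖ ≤ |(Complex.log (scw N w p z)).re| + |(Complex.log (scw N w p z)).im| :=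
        Complex.norm_le_abs_re_add_abs_im _
      rw [Complex.log_re, Complex.log_im] at h8
      have h9 := Complex.abs_arg_le_pi (scw N w p z)
      have h10 : |Real.log ‖scw N w p z‖| ≤ |Real.log μ| + 1 := by
        rw [abs_le]
        constructor
        · linarith [neg_abs_le (Real.log μ)]
        · linarith [abs_nonneg (Real.log μ)]
      have h11 := abs_nonneg z.re
      have h12 := abs_nonneg (Real.log μ)
      show ‖Complex.log (scw N w p z)‖ ≤ _
      have h13 : (|Real.log μ| + 6) * 1 ≤ (|Real.log μ| + 6) * (1 + |z.re|) :=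
        mul_le_mul_of_nonneg_left (by linarith) (by linarith)
      linarith) l
  have e1 : ∀ u : ℝ, ((H906K.kk (l - u) : ℝ) : ℂ) * (Complex.log (scw N w p (u + Real.pi / 3 * Complex.I))
      + Complex.log (scw N w p (u - Real.pi / 3 * Complex.I))) =
      ((H906K.kk (l - u) * lw N w (srw N w p) u : ℝ) : ℂ) := by
    intro u
    have hz : |((u : ℂ) + Real.pi / 3 * Complex.I).im| ≤ Real.pi / 3 := by
      rw [g10_im, abs_of_pos (by positivity)]
    have hp := hre _ hz
    have hne : scw N w p (u + Real.pi / 3 * Complex.I) ≠ 0 := by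
      intro h0
      rw [h0] at hp
      simp at hp
    have h1 : (scw N w p (u + Real.pi / 3 * Complex.I)).arg ≠ Real.pi := by
      intro h0
      rw [Complex.arg_eq_pi_iff] at h0
      linarith [h0.1]
    rw [← g10_conj, scw_conj, Complex.log_conj _ h1, Complex.add_conj, Complex.log_re]
    unfold lw
    rw [← g10_sq h u, Real.log_pow]
    push_cast
    ring
  have e2 : scw N w p (l : ℂ) = (srw N w p l : ℂ) := scw_ofReal l
  have hsr : 0 < srw N w p l := by
    have := hre (l : ℂ) (by rw [Complex.ofReal_im, abs_zero]; positivity)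
    rw [e2, Complex.ofReal_re] at this
    exact this
  simp only [e1] at key
  rw [integral_complex_ofReal] at key
  rw [e2, ← Complex.ofReal_log hsr.le] at key
  exact Complex.ofReal_injective key

end H906C
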