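import Pool.Agent.H906R3.CY.Defs2
import Pool.Agent.H906R3.CY.G6
import Pool.Agent.H906R3.CY.G10
import Pool.Agent.H906R3.CY.G11

/-!
# G12: the system
-/

namespace H906C

open Polynomial Filter Topology

theorem tbaw_of_spec {N : ℕ} {w : ℝ} {p : ℕ → ℝ} {t V : ℂ[X]} (h : SpecW N w p t V) :
    TBAW N w (srw N w p) := by
  obtain ⟨h1, h2, h3, h4, h5, h6⟩ := srw_props h.w0 h.w2 h.w1 h.nonneg h.supp h.sum
  obtain ⟨h8, h9⟩ := sw_rep h
  refine ⟨h.even, h.two_le, h.w0, h.w2, h.w1, h1, h2, h3, h4, h5, h6, fun u => ?_, h9⟩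
  rw [← h8 u]
  have him : ((u : ℂ) + Real.pi / 3 * Complex.I).im = Real.pi / 3 := by
    have e1 : ((Real.pi : ℂ) / 3) = ((Real.pi / 3 : ℝ) : ℂ) := by push_cast; rfl
    rw [e1]
    simp
  have hpi : |((u : ℂ) + Real.pi / 3 * Complex.I).im| ≤ Real.pi / 3 := by
    rw [him, abs_of_nonneg (by positivity)]
  have h10 := (scw_near h _ hpi).2
  have h11 := Complex.re_le_norm (scw N w p ((u : ℂ) + Real.pi / 3 * Complex.I))
  have h12 : 0 ≤ min w (2 - w) := le_min h.w0.le (by linarith [h.w2])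
  exact pow_le_pow_left₀ h12 (h10.trans h11) 2

end H906C
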