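import Pool.Agent.H906R3.CY.Model2
import Pool.Agent.H906R3.CY.W4

/-!
# G1: loops of the interface around the cylinder and closings of rows (helper275)
-/

namespace H906C
open Pool.Agent.H863R2.Cyl
open Pool.Agent.H988R2.Perc (Word)
open Relation

/-- lift of a relation on faces to equivalence relations -/
theorem g1_eqv {α : Type} {r s : α → α → Prop} (h : ∀ x y, r x y → EqvGen s x y) {x y : α}
    (hxy : EqvGen r x y) : EqvGen s x y := by
  induction hxy with
  | rel x y hr => exact h x y hr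
  | refl x => exact EqvGen.refl x
  | symm x y _ ih => exact EqvGen.symm _ _ ih
  | trans x y z _ _ ih1 ih2 => exact EqvGen.trans _ _ _ ih1 ih2

theorem g1_tile (k : ℕ) (j : ℤ) : tileIx k j = w4fi k j := by
  apply Fin.ext
  have h1 := w4fi_val (k := k) j
  have h2 : (tileIx k j).val = (j % (2 * k + 2 : ℤ)).toNat := rfl
  rw [h2, ← h1, Int.toNat_natCast]

theorem g1_cl (k : ℕ) (d : Fin (2 * k + 1 + 1) → Bool) (j : ℤ) : cl d j = d (tileIx k j) := by
  rw [w4_cl, g1_tile]

theorem g1_ext {k M : ℕ} (c : Fin M → Fin (2 * k + 2) → Bool) {s : ℕ} (hs : s < M) :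
    w4ext c s = c ⟨s, hs⟩ := by
  unfold w4ext
  rw [dif_pos hs]

theorem g1_links {k M : ℕ} (c : Fin M → Fin (2 * k + 2) → Bool) (t : Fin M) (p q : ℤ × ℕ) :
    EqvGen (LinkZ c t.val) p q ↔ EqvGen (Lk (2 * k + 1) (w4ext c) t.val (sig0 k).1) p q := by
  constructor
  · refine g1_eqv ?_
    intro x y hxy
    cases hxy with
    | bot a b ha hb => exact EqvGen.rel _ _ (Lk.bot a b (w4_Rw_even k ha hb))
    | up i j hi hj =>
      refine EqvGen.rel _ _ (Lk.link0 j i.val hi ?_)
      rw [g1_ext c i.isLt, g1_cl]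
      exact hj
    | down i j hi hj =>
      refine EqvGen.rel _ _ (Lk.link1 j i.val hi ?_)
      rw [g1_ext c i.isLt, g1_cl]
      exact hj
  · refine g1_eqv ?_
    intro x y hxy
    cases hxy with
    | bot a b h =>
      rcases w4_Rw_cases k h with ⟨h1, h2⟩ | h1
      · exact EqvGen.rel _ _ (LinkZ.bot a b h1 h2)
      · rw [h1]
        exact EqvGen.refl _
    | link0 j s hs hj =>
      have hsM : s < M := lt_trans hs t.isLt
      rw [g1_ext c hsM, g1_cl] at hj
      exact EqvGen.rel _ _ (LinkZ.up ⟨s, hsM⟩ j hs hj)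
    | link1 j s hs hj =>
      have hsM : s < M := lt_trans hs t.isLt
      rw [g1_ext c hsM, g1_cl] at hj
      exact EqvGen.rel _ _ (LinkZ.down ⟨s, hsM⟩ j hs hj)

theorem g1_around {k M : ℕ} (c : Fin M → Fin (2 * k + 2) → Bool) (t : Fin M) (b : ℤ) :
    Around c t.val b ↔ Fc (rows (2 * k + 1) (w4ext c) t.val (sig0 k)) b := by
  unfold Around Fc
  rw [Rw_rows _ (by omega), g1_links]
  have h : b + (2 * (k : ℤ) + 2) = b + (((2 * k + 1 : ℕ) : ℤ) + 1) := by
    push_cast
    ring
  rw [h]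

theorem cut_iff (k M : ℕ) (c : Fin M → Fin (2 * k + 2) → Bool) (t : Fin M) :
    Cut c t ↔ kT (2 * k + 1) (c t)
      (rows (2 * k + 1) (fun t => if h : t < M then c ⟨t, h⟩ else fun _ => false) t.val (sig0 k)) = 1 := by
  have h1 : kT (2 * k + 1) (c t)
      (rows (2 * k + 1) (fun t => if h : t < M then c ⟨t, h⟩ else fun _ => false) t.val (sig0 k)) = 1 ↔
      ∀ b : ℤ, Fc (rows (2 * k + 1) (w4ext c) t.val (sig0 k)) b →
        (cl (c t) (b - 1) = false ∧ cl (c t) b = true) := by
    unfold kT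
    split_ifs with h
    · exact ⟨fun _ => h, fun _ => rfl⟩
    · constructor
      · intro h2
        exact absurd h2 (by norm_num)
      · intro h2
        exact absurd h2 h
  rw [h1]
  unfold Cut
  refine forall_congr' fun b => ?_
  rw [g1_around, g1_cl, g1_cl]

end H906C
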