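import Pool.Agent.H906R3.CY.Defs2
import Pool.Agent.H906R3.CY.G1

set_option autoImplicit false

namespace H906C
open Pool.Agent.H863R2.Cyl
open Pool.Agent.H863R2.Cyl.Sem1Aux (Inc RH Cons)
open Pool.Agent.H988R2.Perc (Word)

theorem g2_rows_congr (m : ℕ) (c1 c2 : ℕ → Fin (m + 1) → Bool) (σ : Wd (m + 1)) (t : ℕ)
    (h : ∀ s < t, c1 s = c2 s) : rows m c1 t σ = rows m c2 t σ := by
  induction t with
  | zero => rfl
  | succ t ih =>
    show Tc m (c1 t) (rows m c1 t σ) = Tc m (c2 t) (rows m c2 t σ)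
    rw [ih (fun s hs => h s (Nat.lt_succ_of_lt hs)), h t (Nat.lt_succ_self t)]

/-- the number of closings -/
noncomputable def g2_L (m : ℕ) (σ : Wd (m + 1)) {M : ℕ} (c : Fin M → Fin (m + 1) → Bool) : ℕ :=
  ∑ t : Fin M, kT m (c t) (rows m (fun t => if h : t < M then c ⟨t, h⟩ else fun _ => false)
    t.val σ)

theorem g2_snoc (m : ℕ) {M : ℕ} (c : Fin M → Fin (m + 1) → Bool) (x : Fin (m + 1) → Bool)
    (s : ℕ) (hs : s < M) :
    (fun t => if h : t < M + 1 then (Fin.snoc (α := fun _ => Fin (m + 1) → Bool) c x) ⟨t, h⟩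
      else fun _ => false) s =
    (fun t => if h : t < M then c ⟨t, h⟩ else fun _ => false) s := by
  simp only
  rw [dif_pos (Nat.lt_succ_of_lt hs), dif_pos hs]
  have : (⟨s, Nat.lt_succ_of_lt hs⟩ : Fin (M + 1)) = Fin.castSucc ⟨s, hs⟩ := rfl
  rw [this, Fin.snoc_castSucc]

theorem g2_snoc_last (m : ℕ) {M : ℕ} (c : Fin M → Fin (m + 1) → Bool) (x : Fin (m + 1) → Bool) :
    (fun t => if h : t < M + 1 then (Fin.snoc (α := fun _ => Fin (m + 1) → Bool) c x) ⟨t, h⟩
      else fun _ => false) M = x := by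
  simp only
  rw [dif_pos (Nat.lt_succ_self M)]
  have : (⟨M, Nat.lt_succ_self M⟩ : Fin (M + 1)) = Fin.last M := rfl
  rw [this, Fin.snoc_last]

theorem g2_rows (m : ℕ) (σ : Wd (m + 1)) {M : ℕ} (c : Fin M → Fin (m + 1) → Bool)
    (x : Fin (m + 1) → Bool) (t : ℕ) (ht : t ≤ M) :
    rows m (fun t => if h : t < M + 1 then
      (Fin.snoc (α := fun _ => Fin (m + 1) → Bool) c x) ⟨t, h⟩ else fun _ => false) t σ =
    rows m (fun t => if h : t < M then c ⟨t, h⟩ else fun _ => false) t σ :=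
  g2_rows_congr m _ _ σ t (fun s hs => g2_snoc m c x s (lt_of_lt_of_le hs ht))

theorem g2_rows_last (m : ℕ) (σ : Wd (m + 1)) {M : ℕ} (c : Fin M → Fin (m + 1) → Bool)
    (x : Fin (m + 1) → Bool) :
    rows m (fun t => if h : t < M + 1 then
      (Fin.snoc (α := fun _ => Fin (m + 1) → Bool) c x) ⟨t, h⟩ else fun _ => false) (M + 1) σ =
    Tc m x (rows m (fun t => if h : t < M then c ⟨t, h⟩ else fun _ => false) M σ) := by
  show Tc m _ (rows m _ M σ) = _
  rw [g2_rows m σ c x M le_rfl]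
  congr 1
  exact g2_snoc_last m c x

theorem g2_L_snoc (m : ℕ) (σ : Wd (m + 1)) {M : ℕ} (c : Fin M → Fin (m + 1) → Bool)
    (x : Fin (m + 1) → Bool) :
    g2_L m σ (Fin.snoc (α := fun _ => Fin (m + 1) → Bool) c x) =
      g2_L m σ c +
        kT m x (rows m (fun t => if h : t < M then c ⟨t, h⟩ else fun _ => false) M σ) := by
  unfold g2_L
  rw [Fin.sum_univ_castSucc]
  congr 1
  · refine Finset.sum_congr rfl fun t _ => ?_
    rw [Fin.snoc_castSucc]
    have h := g2_rows m σ c x t.val t.isLt.le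
    rw [show (Fin.castSucc t).val = t.val from rfl, h]
  · rw [Fin.snoc_last]
    have h := g2_rows m σ c x M le_rfl
    rw [show (Fin.last M).val = M from rfl, h]

open Classical in
theorem g2_pow (m : ℕ) (w : ℝ) (σ : Wd (m + 1)) (M : ℕ) (τ : Wd (m + 1)) :
    ((AW m w) ^ M) τ σ = ∑ c : Fin M → Fin (m + 1) → Bool,
      if rows m (fun t => if h : t < M then c ⟨t, h⟩ else fun _ => false) M σ = τ
      then w ^ g2_L m σ c else 0 := by
  induction M generalizing τ with
  | zero =>
    rw [pow_zero, Matrix.one_apply]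
    have h0 : ∀ c : Fin 0 → Fin (m + 1) → Bool,
        (if rows m (fun t => if h : t < 0 then c ⟨t, h⟩ else fun _ => false) 0 σ = τ
        then w ^ g2_L m σ c else 0) = if τ = σ then 1 else 0 := by
      intro c
      have h1 : g2_L m σ c = 0 := by
        unfold g2_L
        exact Finset.sum_eq_zero fun t _ => t.elim0
      rw [h1, pow_zero]
      change (if σ = τ then (1 : ℝ) else 0) = if τ = σ then 1 else 0
      by_cases h : τ = σ
      · rw [if_pos h, if_pos h.symm]
      · rw [if_neg h, if_neg (fun h' => h h'.symm)]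
    rw [Finset.sum_congr rfl (fun c _ => h0 c)]
    simp
  | succ M ih =>
    rw [pow_succ', Matrix.mul_apply]
    have e : ∀ ρ : Wd (m + 1), AW m w τ ρ * ((AW m w) ^ M) ρ σ =
        ∑ x : Fin (m + 1) → Bool, ∑ c : Fin M → Fin (m + 1) → Bool,
          (if Tc m x ρ = τ then w ^ kT m x ρ else 0) *
          (if rows m (fun t => if h : t < M then c ⟨t, h⟩ else fun _ => false) M σ = ρ
            then w ^ g2_L m σ c else 0) := by
      intro ρ
      rw [ih ρ]
      unfold AW
      rw [Finset.sum_mul_sum]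
    rw [Finset.sum_congr rfl (fun ρ _ => e ρ), Finset.sum_comm]
    have e2 : ∀ x : Fin (m + 1) → Bool, ∑ ρ : Wd (m + 1), ∑ c : Fin M → Fin (m + 1) → Bool,
          (if Tc m x ρ = τ then w ^ kT m x ρ else 0) *
          (if rows m (fun t => if h : t < M then c ⟨t, h⟩ else fun _ => false) M σ = ρ
            then w ^ g2_L m σ c else 0) =
        ∑ c : Fin M → Fin (m + 1) → Bool,
          if rows m (fun t => if h : t < M + 1 then
              (Fin.snoc (α := fun _ => Fin (m + 1) → Bool) c x) ⟨t, h⟩ else fun _ => false)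
              (M + 1) σ = τ then
            w ^ g2_L m σ (Fin.snoc (α := fun _ => Fin (m + 1) → Bool) c x) else 0 := by
      intro x
      rw [Finset.sum_comm]
      apply Finset.sum_congr rfl
      intro c _
      rw [g2_rows_last, g2_L_snoc]
      set ρ0 := rows m (fun t => if h : t < M then c ⟨t, h⟩ else fun _ => false) M σ with hρ0
      rw [Finset.sum_eq_single ρ0]
      · by_cases h2 : Tc m x ρ0 = τ
        · rw [if_pos h2, if_pos rfl, if_pos h2, pow_add, mul_comm]
        · rw [if_neg h2, if_neg h2, zero_mul]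
      · intro ρ _ hρ
        rw [if_neg (fun h : ρ0 = ρ => hρ h.symm), mul_zero]
      · intro h
        exact absurd (Finset.mem_univ _) h
    rw [Finset.sum_congr rfl (fun x _ => e2 x), ← Fintype.sum_prod_type']
    refine Fintype.sum_equiv (Fin.snocEquiv (fun _ : Fin (M + 1) => Fin (m + 1) → Bool)) _ _ ?_
    intro p
    rfl

open Classical in
theorem g2_count (m : ℕ) (w : ℝ) (σ : Wd (m + 1)) (M : ℕ) :
    ∑ τ, ((AW m w) ^ M) τ σ = ∑ c : Fin M → Fin (m + 1) → Bool, w ^ g2_L m σ c := by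
  rw [Finset.sum_congr rfl (fun τ _ => g2_pow m w σ M τ), Finset.sum_comm]
  apply Finset.sum_congr rfl
  intro c _
  rw [Finset.sum_eq_single
    (rows m (fun t => if h : t < M then c ⟨t, h⟩ else fun _ => false) M σ)]
  · rw [if_pos rfl]
  · intro τ _ hτ
    rw [if_neg (fun h => hτ h.symm)]
  · intro h
    exact absurd (Finset.mem_univ _) h

theorem g2_kT (m : ℕ) (c : Fin (m + 1) → Bool) (σ : Wd (m + 1)) :
    kT m c σ = 0 ∨ kT m c σ = 1 := by
  unfold kT
  split_ifs
  · exact Or.inr rfl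
  · exact Or.inl rfl

theorem g2_loops (k M : ℕ) (c : Fin M → Fin (2 * k + 2) → Bool)
    (h : ∀ t : Fin M, Cut c t ↔ kT (2 * k + 1) (c t)
      (rows (2 * k + 1) (fun t => if h : t < M then c ⟨t, h⟩ else fun _ => false) t.val
        (sig0 k)) = 1) :
    loops c = g2_L (2 * k + 1) (sig0 k) c := by
  classical
  unfold loops g2_L
  rw [Finset.card_filter]
  refine Finset.sum_congr rfl fun t _ => ?_
  rcases g2_kT (2 * k + 1) (c t)
    (rows (2 * k + 1) (fun t => if h : t < M then c ⟨t, h⟩ else fun _ => false) t.val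
      (sig0 k)) with h0 | h1
  · rw [if_neg (fun hc => by rw [(h t).1 hc] at h0; exact one_ne_zero h0), h0]
  · rw [if_pos ((h t).2 h1), h1]

theorem g2_core (k M : ℕ) (w : ℝ)
    (h : ∀ (c : Fin M → Fin (2 * k + 2) → Bool) (t : Fin M), Cut c t ↔ kT (2 * k + 1) (c t)
      (rows (2 * k + 1) (fun t => if h : t < M then c ⟨t, h⟩ else fun _ => false) t.val
        (sig0 k)) = 1) :
    genLoops k M w * 2 ^ ((2 * k + 2) * M) = ∑ τ, ((AW (2 * k + 1) w) ^ M) τ (sig0 k) := by
  rw [g2_count]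
  unfold genLoops
  rw [div_mul_cancel₀ _ (by positivity)]
  refine Finset.sum_congr rfl fun c _ => ?_
  rw [g2_loops k M c (h c)]

theorem gen_eq (k M : ℕ) (w : ℝ) :
    genLoops k M w * 2 ^ ((2 * k + 2) * M) = ∑ τ, ((AW (2 * k + 1) w) ^ M) τ (sig0 k) :=
  g2_core k M w (fun c t => cut_iff k M c t)

end H906C
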