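import Pool.Agent.H906R3.CY.Defs2
import Pool.Agent.H906R3.CY.G1
import Pool.Agent.H906R3.CY.W4

/-!
# G3: no interface loop goes around the cylinder iff there is an open crossing (helper266)
-/

namespace H906C
open Pool.Agent.H863R2.Cyl

theorem g3_kT_le {m : ℕ} (c : Fin (m + 1) → Bool) (σ : Wd (m + 1)) :
    kT m c σ = 0 ∨ kT m c σ = 1 := by
  unfold kT
  split_ifs
  · exact Or.inr rfl
  · exact Or.inl rfl

theorem loops_zero (k M : ℕ) (c : Fin M → Fin (2 * k + 2) → Bool) :
    loops c = 0 ↔ Crosses c := by
  classical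
  rw [crosses_iff, loops, Finset.card_eq_zero, Finset.filter_eq_empty_iff]
  constructor
  · intro h t
    have h1 := h (Finset.mem_univ t)
    rw [cut_iff] at h1
    rcases g3_kT_le (c t) (rows (2 * k + 1) (fun t => if h : t < M then c ⟨t, h⟩ else fun _ => false)
      t.val (sig0 k)) with h0 | h0
    · exact h0
    · exact absurd h0 h1
  · intro h t _ hc
    rw [cut_iff] at hc
    rw [h t] at hc
    exact absurd hc (by decide)

end H906C
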