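import Pool.Agent.H906R3.CY.Defs2
import Pool.Agent.H906R3.CY.IRR
import Pool.Agent.H906R3.CY.COL
import Pool.Agent.H906R3.CY.T3
import Pool.Agent.H906R3.CY.W6
import Pool.Agent.H906R3.CY.NZ

/-!
# G4: irreducibility of `AW`, column sums of `TW` with weight `w`, nonvanishing of `ThW v` (helper63)
-/

namespace H906C
open Pool.Agent.H863R2.Cyl
open Pool.Agent.H863R2.Cyl.Sem1Aux (Inc RH Cons)
open Pool.Agent.H988R2.Perc (Word)

theorem g4_le (m : ℕ) (w : ℝ) (hw : 0 < w) (τ σ : Wd (m + 1)) : AA m τ σ ≤ AW m w τ σ := by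
  classical
  unfold AA AW
  refine Finset.sum_le_sum fun c _ => ?_
  by_cases h : Tc m c σ = τ
  · by_cases h2 : kT m c σ = 0
    · rw [if_pos ⟨h, h2⟩, if_pos h, h2, pow_zero]
    · rw [if_neg (fun h3 => h2 h3.2), if_pos h]
      positivity
  · rw [if_neg (fun h3 => h h3.1), if_neg h]

theorem g4_pow (m l : ℕ) (w : ℝ) (hw : 0 < w) (τ σ : Wd (m + 1)) :
    ((AA m) ^ l) τ σ ≤ ((AW m w) ^ l) τ σ := by
  induction l generalizing τ σ with
  | zero => rw [pow_zero, pow_zero]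
  | succ l ih =>
    rw [pow_succ, pow_succ, Matrix.mul_apply, Matrix.mul_apply]
    refine Finset.sum_le_sum fun ρ _ => ?_
    exact mul_le_mul (ih _ _) (g4_le m w hw _ _) (irr_nonneg _ _ _)
      ((irr_pow_nonneg m l τ ρ).trans (ih _ _))

theorem AW_irr (k : ℕ) (w : ℝ) (hw : 0 < w) : ∃ p : ℕ, ∀ τ σ : Wd (2 * k + 1 + 1),
    0 < (∑ l ∈ Finset.range p, (AW (2 * k + 1) w) ^ l) τ σ := by
  obtain ⟨p, hp⟩ := AA_irr k
  refine ⟨p, fun τ σ => (hp τ σ).trans_le ?_⟩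
  rw [Matrix.sum_apply, Matrix.sum_apply]
  exact Finset.sum_le_sum fun l _ => g4_pow _ _ w hw _ _

theorem TW_colw {R : Type*} [CommRing R] {m : ℕ} (he : Even (m + 1)) (q x w : R)
    (hq : q ^ 2 + q + 1 = 0) (σ : Wd (m + 1)) :
    ∑ τ, TW m q x w τ σ = (1 + x) ^ (m + 1)
      - (1 - w) * ((1 - x + x ^ 2) ^ nF σ * (1 + x) ^ (m + 1 - 2 * nF σ)) := by
  classical
  unfold TW
  rw [Finset.sum_comm]
  have h1 : ∀ c : Fin (m + 1) → Bool, (∑ τ, if Tc m c σ = τ then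
      (∏ j, wt q (c j) x) * w ^ kT m c σ else 0) =
      (∏ j, wt q (c j) x) - (1 - w) * (∏ j : Fin (m + 1), if ((Fc σ (j.val : ℤ) → c j = true) ∧
        (Fc σ ((j.val : ℤ) + 1) → c j = false)) then wt q (c j) x else 0) := by
    intro c
    rw [Finset.sum_ite_eq Finset.univ (Tc m c σ), if_pos (Finset.mem_univ _),
      Finset.prod_ite_zero]
    unfold kT
    by_cases h : ∀ b : ℤ, Fc σ b → (cl c (b - 1) = false ∧ cl c b = true)
    · rw [if_pos h, if_pos (fun j _ => (col_cond he c σ).mp h j)]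
      rw [pow_one]
      ring
    · rw [if_neg h, if_neg (fun h2 => h ((col_cond he c σ).mpr (fun j => h2 j (Finset.mem_univ j))))]
      rw [pow_zero, mul_one, mul_zero, sub_zero]
  rw [Finset.sum_congr rfl (fun c _ => h1 c), Finset.sum_sub_distrib, ← Finset.mul_sum]
  congr 1
  · have := Finset.prod_univ_sum (fun _ : Fin (m + 1) => (Finset.univ : Finset Bool))
      (fun _ v => wt q v x)
    rw [Fintype.piFinset_univ] at this
    rw [← this, Finset.prod_const, Finset.card_univ, Fintype.card_fin, Fintype.sum_bool]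
    congr 1
    unfold wt
    simp only [if_true, Bool.false_eq_true, if_false]
    linear_combination (-(1 + x)) * hq
  · congr 1
    have := Finset.prod_univ_sum (fun _ : Fin (m + 1) => (Finset.univ : Finset Bool))
      (fun j v => if ((Fc σ (j.val : ℤ) → v = true) ∧
        (Fc σ ((j.val : ℤ) + 1) → v = false)) then wt q v x else 0)
    rw [Fintype.piFinset_univ] at this
    rw [← this]
    exact col_prod he q x hq σ

theorem ThW_new (k : ℕ) (q : ℂ) (hq : q ^ 2 + q + 1 = 0) (ζ : ℂˣ) (w : ℝ) (hw : 0 < w)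
    (hζ : ((ζ ^ (2 * k + 2) : ℂˣ) : ℂ) + (((ζ⁻¹) ^ (2 * k + 2) : ℂˣ) : ℂ) = (w : ℂ))
    (v : Wd (2 * k + 1 + 1) → ℝ) (hv : ∀ σ, 0 < v σ) :
    ∃ s, (ThW (2 * k + 1) q ζ).mulVec (fun σ => (v σ : ℂ)) s ≠ 0 := by
  classical
  by_contra hcon
  push Not at hcon
  have hz : (ThW (2 * k + 1) q ζ).mulVec (fun σ => (v σ : ℂ)) = 0 := funext hcon
  obtain ⟨c, hc⟩ : ∃ c : Fin (2 * k + 1 + 1) → Bool,
      c = fun j : Fin (2 * k + 1 + 1) => decide (j.val % 2 = 1) := ⟨_, rfl⟩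
  have hev : Even (2 * k + 1 + 1) := ⟨k + 1, by ring⟩
  have h1 : (H906K.TVc (2 * k + 1) c q ζ * ThW (2 * k + 1) q ζ).mulVec
      (fun σ => (v σ : ℂ)) (nz_let (sig1 k)) = 0 := by
    rw [← Matrix.mulVec_mulVec, hz, Matrix.mulVec_zero]
    rfl
  have h2 : ∀ σ : Wd (2 * k + 1 + 1), (H906K.TVc (2 * k + 1) c q ζ * ThW (2 * k + 1) q ζ)
      (nz_let (sig1 k)) σ =
      ((w ^ kT (2 * k + 1) c σ : ℝ) : ℂ) * ThW (2 * k + 1) q ζ (nz_let (sig1 k)) (sig1 k) := by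
    intro σ
    rw [TVc_ThW hev c q hq ζ, hc, Tc_alt1, ← hc]
    congr 1
    have hw : (((ζ ^ (2 * k + 1 + 1) : ℂˣ) : ℂ) + (((ζ⁻¹) ^ (2 * k + 1 + 1) : ℂˣ) : ℂ)) =
        (w : ℂ) := hζ
    rw [hw]
    push_cast
    rfl
  have h3 : (∑ σ : Wd (2 * k + 1 + 1), w ^ kT (2 * k + 1) c σ * v σ : ℝ) = 0 := by
    have h4 : ThW (2 * k + 1) q ζ (nz_let (sig1 k)) (sig1 k) *
        ((∑ σ : Wd (2 * k + 1 + 1), w ^ kT (2 * k + 1) c σ * v σ : ℝ) : ℂ) = 0 := by
      rw [← h1]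
      simp only [Matrix.mulVec, dotProduct]
      rw [Complex.ofReal_sum, Finset.mul_sum]
      refine Finset.sum_congr rfl fun σ _ => ?_
      rw [h2 σ]
      push_cast
      ring
    rcases mul_eq_zero.1 h4 with h5 | h5
    · exact absurd h5 (nz_ThW q ζ (sig1 k))
    · exact_mod_cast h5
  have h6 : 0 < (∑ σ : Wd (2 * k + 1 + 1), w ^ kT (2 * k + 1) c σ * v σ : ℝ) := by
    refine Finset.sum_pos (fun σ _ => ?_) ⟨sig0 k, Finset.mem_univ _⟩
    exact mul_pos (pow_pos hw _) (hv σ)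
  linarith

end H906C
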