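import Pool.Agent.H906R3.CY.Defs2
import Pool.Agent.H906R3.CY.SPEC
import Pool.Agent.H906R3.CY.G4

/-!
# G5: assembly of the algebraic part for the weight `w`
-/

set_option linter.unusedSectionVars false

namespace H906C
open Pool.Agent.H863R2.Cyl
open Polynomial

theorem g5_TW_one (m : ℕ) (w : ℝ) :
    TW m H906K.om (1 : ℂ) (w : ℂ) = (AW m w).map (algebraMap ℝ ℂ) := by
  classical
  ext τ σ
  rw [Matrix.map_apply]
  unfold TW AW
  rw [map_sum]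
  refine Finset.sum_congr rfl fun c _ => ?_
  have h1 : ∏ j, wt H906K.om (c j) (1 : ℂ) = 1 := Finset.prod_eq_one fun j _ => spec_wt1 _
  rw [h1, one_mul]
  by_cases hT : Tc m c σ = τ
  · rw [if_pos hT, if_pos hT]; simp
  · rw [if_neg hT, if_neg hT]; simp

theorem g5_AW_nonneg (m : ℕ) (w : ℝ) (hw : 0 < w) (τ σ : Wd (m + 1)) : 0 ≤ AW m w τ σ := by
  unfold AW
  refine Finset.sum_nonneg fun c _ => ?_
  split_ifs
  · positivity
  · norm_num

theorem g5_AW_pos {m : ℕ} (w : ℝ) (hw : 0 < w) (σ : Wd (m + 1)) :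
    ∃ τ, 0 < AW m w τ σ := by
  classical
  refine ⟨Tc m (fun _ => true) σ, ?_⟩
  unfold AW
  refine Finset.sum_pos' (fun c _ => ?_) ⟨fun _ => true, Finset.mem_univ _, ?_⟩
  · split_ifs
    · positivity
    · norm_num
  · rw [if_pos rfl]
    positivity

/-- the unit `exp (i arccos (w/2) / N)` -/
theorem g5_zeta (N : ℕ) (hN : 1 ≤ N) (w : ℝ) (w0 : 0 < w) (w2 : w < 2) : ∃ ζ : ℂˣ,
    ((ζ ^ N : ℂˣ) : ℂ) + (((ζ⁻¹) ^ N : ℂˣ) : ℂ) = (w : ℂ) ∧
    ((ζ ^ (3 * N) : ℂˣ) : ℂ) + (((ζ⁻¹) ^ (3 * N) : ℂˣ) : ℂ) = (w : ℂ) ^ 3 - 3 * w := by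
  have hN0 : (N : ℂ) ≠ 0 := by
    have : N ≠ 0 := by omega
    exact_mod_cast this
  set φ : ℝ := Real.arccos (w / 2) with hφ
  have hcos : Real.cos φ = w / 2 := Real.cos_arccos (by linarith) (by linarith)
  set z : ℂ := Complex.exp ((φ : ℂ) * Complex.I / N) with hz
  have hz0 : z ≠ 0 := Complex.exp_ne_zero _
  have hzN : z ^ N = Complex.exp ((φ : ℂ) * Complex.I) := by
    rw [hz, ← Complex.exp_nat_mul]
    congr 1
    field_simp
  have hsum : z ^ N + (z ^ N)⁻¹ = (w : ℂ) := by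
    rw [hzN, ← Complex.exp_neg]
    have h1 := Complex.two_cos (φ : ℂ)
    have h2 : Complex.cos (φ : ℂ) = ((w / 2 : ℝ) : ℂ) := by
      rw [← Complex.ofReal_cos, hcos]
    rw [h2] at h1
    have h3 : -((φ : ℂ) * Complex.I) = -(φ : ℂ) * Complex.I := by ring
    rw [h3, ← h1]
    push_cast
    ring
  have hzN0 : z ^ N ≠ 0 := pow_ne_zero _ hz0
  refine ⟨Units.mk0 z hz0, ?_, ?_⟩
  · rw [Units.val_pow_eq_pow_val, Units.val_pow_eq_pow_val, Units.val_inv_eq_inv_val, inv_pow,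
      Units.val_mk0]
    exact hsum
  · rw [Units.val_pow_eq_pow_val, Units.val_pow_eq_pow_val, Units.val_inv_eq_inv_val, inv_pow,
      Units.val_mk0, mul_comm 3 N, pow_mul, ← hsum]
    field_simp
    ring

/-- the eigenvalue as a polynomial -/
noncomputable def g5t {m : ℕ} (w : ℝ) (v : Wd (m + 1) → ℝ) : ℂ[X] :=
  (1 + X) ^ (m + 1) - C (1 - (w : ℂ)) * ∑ j ∈ Finset.range (m + 1 + 1), C ((spp v j : ℝ) : ℂ) *
    ((1 - X + X ^ 2) ^ j * (1 + X) ^ (m + 1 - 2 * j))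

theorem g5t_eval {m : ℕ} (w : ℝ) (v : Wd (m + 1) → ℝ) (x : ℂ) :
    (g5t w v).eval x = (1 + x) ^ (m + 1)
    - (1 - (w : ℂ)) * ∑ j ∈ Finset.range (m + 1 + 1), ((spp v j : ℝ) : ℂ) *
      ((1 - x + x ^ 2) ^ j * (1 + x) ^ (m + 1 - 2 * j)) := by
  unfold g5t
  simp [eval_finsetSum]

theorem g5_main {m : ℕ} (he : Even (m + 1)) (w : ℝ) (v : Wd (m + 1) → ℝ) (Λ : ℝ)
    (hsum : ∑ σ, v σ = 1)
    (hev : (AW m w).mulVec v = Λ • v)
    (hsimple : ∀ u : Wd (m + 1) → ℂ, ((AW m w).map (algebraMap ℝ ℂ)).mulVec u = (Λ : ℂ) • u →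
        ∃ c : ℂ, u = fun i => c * (v i : ℂ)) (x : ℂ) :
    (TW m H906K.om x (w : ℂ)).mulVec (fun σ => (v σ : ℂ))
      = (g5t w v).eval x • fun σ => (v σ : ℂ) := by
  set vc : Wd (m + 1) → ℂ := fun σ => (v σ : ℂ) with hvc
  have hone : (TW m H906K.om (1 : ℂ) (w : ℂ)).mulVec vc = (Λ : ℂ) • vc := by
    rw [g5_TW_one]
    funext τ
    have h := congrFun hev τ
    simp only [Matrix.mulVec, dotProduct, Pi.smul_apply, smul_eq_mul] at h ⊢
    have h' := congrArg (fun r : ℝ => (r : ℂ)) h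
    simp only [Complex.ofReal_sum, Complex.ofReal_mul] at h'
    simpa [hvc] using h'
  have hcomm := TW_comm he H906K.om x 1 (w : ℂ) H906K.e3_om
  have hu : ((AW m w).map (algebraMap ℝ ℂ)).mulVec ((TW m H906K.om x (w : ℂ)).mulVec vc)
      = (Λ : ℂ) • (TW m H906K.om x (w : ℂ)).mulVec vc := by
    rw [← g5_TW_one, Matrix.mulVec_mulVec, ← hcomm, ← Matrix.mulVec_mulVec, hone,
      Matrix.mulVec_smul]
  obtain ⟨c, hc⟩ := hsimple _ hu
  have hsumC : ∑ σ, (v σ : ℂ) = 1 := by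
    rw [← Complex.ofReal_sum, hsum, Complex.ofReal_one]
  have hcval : c = (g5t w v).eval x := by
    have h1 : ∑ τ, (TW m H906K.om x (w : ℂ)).mulVec vc τ = c := by
      rw [hc]
      simp only
      rw [← Finset.mul_sum, hsumC, mul_one]
    rw [← h1]
    simp only [Matrix.mulVec, dotProduct]
    rw [Finset.sum_comm]
    simp only [← Finset.sum_mul]
    simp only [TW_colw he H906K.om x (w : ℂ) H906K.e3_om]
    rw [g5t_eval, spp_fiber he v (fun j => (1 - x + x ^ 2) ^ j * (1 + x) ^ (m + 1 - 2 * j))]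
    have h2 : (1 + x) ^ (m + 1) = ∑ σ, (v σ : ℂ) * (1 + x) ^ (m + 1) := by
      rw [← Finset.sum_mul, hsumC, one_mul]
    conv_rhs => rw [h2]
    rw [Finset.mul_sum, ← Finset.sum_sub_distrib]
    refine Finset.sum_congr rfl fun σ _ => ?_
    simp only [hvc]
    ring
  rw [hc, hcval]
  rfl

theorem g5_TVu {m : ℕ} (he : Even (m + 1)) (w : ℂ) (vc : Wd (m + 1) → ℂ) (ζ : ℂˣ)
    (hζ : ((ζ ^ (m + 1) : ℂˣ) : ℂ) + (((ζ⁻¹) ^ (m + 1) : ℂˣ) : ℂ) = w) (x T : ℂ)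
    (h : (TW m H906K.om x w).mulVec vc = T • vc) :
    (H906K.TV m H906K.om x ζ).mulVec ((ThW m H906K.om ζ).mulVec vc)
      = T • (ThW m H906K.om ζ).mulVec vc := by
  rw [Matrix.mulVec_mulVec, TV_ThW he H906K.om x H906K.e3_om ζ, hζ, ← Matrix.mulVec_mulVec, h,
    Matrix.mulVec_smul]

theorem g5_three {m : ℕ} (he : Even (m + 1)) (ζ : ℂˣ) (g : ℂ)
    (hζ3 : ((ζ ^ (3 * (m + 1)) : ℂˣ) : ℂ) + (((ζ⁻¹) ^ (3 * (m + 1)) : ℂˣ) : ℂ) = g)
    (u : (Fin (m + 1) → Bool) → ℂ) (s0 : Fin (m + 1) → Bool)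
    (hs0 : u s0 ≠ 0) (t : ℂ → ℂ)
    (hu : ∀ x, (H906K.TV m H906K.om x ζ).mulVec u = t x • u) (x : ℂ) :
    t (H906K.om * x) * t (H906K.om ^ 2 * x) * t x
    = ((1 + H906K.om * x) * (1 + H906K.om ^ 2 * x)) ^ (m + 1) * t x
      + ((1 + H906K.om ^ 2 * x) * (1 + x)) ^ (m + 1) * t (H906K.om * x)
      + ((1 + x) * (1 + H906K.om * x)) ^ (m + 1) * t (H906K.om ^ 2 * x)
      + g * (1 + x ^ 3) ^ (m + 1) := by
  have h := H906K.fus3 m H906K.om x H906K.e3_om ζ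
  rw [hζ3, he.neg_pow] at h
  have h1 := congrArg (fun M => M.mulVec u) h
  simp only [Matrix.add_mulVec, Matrix.smul_mulVec, Matrix.one_mulVec] at h1
  rw [← Matrix.mulVec_mulVec, ← Matrix.mulVec_mulVec, hu, Matrix.mulVec_smul, hu,
    Matrix.mulVec_smul, Matrix.mulVec_smul, hu] at h1
  have h2 := congrFun h1 s0
  simp only [Pi.add_apply, Pi.smul_apply, smul_eq_mul] at h2
  apply mul_right_cancel₀ hs0
  linear_combination h2

theorem specw_exists (k : ℕ) (w : ℝ) (w0 : 0 < w) (w2 : w < 2) (w1 : w ≠ 1) :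
    ∃ (p : ℕ → ℝ) (t V : ℂ[X]) (v : Wd (2 * k + 1 + 1) → ℝ) (Λ : ℝ),
    SpecW (2 * k + 2) w p t V ∧ (∀ σ, 0 < v σ) ∧ 0 < Λ ∧ (AW (2 * k + 1) w).mulVec v = Λ • v ∧
    t.eval 1 = (Λ : ℂ) := by
  classical
  have he : Even (2 * k + 1 + 1) := ⟨k + 1, by ring⟩
  obtain ⟨p0, hp0⟩ := AW_irr k w w0
  have : Nonempty (Wd (2 * k + 1 + 1)) := ⟨sig0 k⟩
  obtain ⟨τ0, hτ0⟩ := g5_AW_pos w w0 (sig0 k)
  obtain ⟨v, Λ, hv, hsum, hΛ, hev, hsimple⟩ := perron (AW (2 * k + 1) w)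
    (g5_AW_nonneg _ w w0) p0 hp0 ⟨τ0, sig0 k, hτ0⟩
  obtain ⟨ζ, hζ, hζ3⟩ := g5_zeta (2 * k + 1 + 1) (by omega) w w0 w2
  have hTW := g5_main he w v Λ hsum hev hsimple
  obtain ⟨s0, hs0⟩ := ThW_new k H906K.om H906K.e3_om ζ w w0 hζ v hv
  have hu : ∀ x, (H906K.TV (2 * k + 1) H906K.om x ζ).mulVec
      ((ThW (2 * k + 1) H906K.om ζ).mulVec fun σ => (v σ : ℂ))
      = (fun x => (g5t w v).eval x) x • (ThW (2 * k + 1) H906K.om ζ).mulVec fun σ => (v σ : ℂ) :=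
    fun x => g5_TVu he (w : ℂ) _ ζ hζ x _ (hTW x)
  obtain ⟨V, hV⟩ := spec_two ζ _ s0 hs0 (fun x => (g5t w v).eval x) hu
  have h3 := g5_three he ζ _ hζ3 _ s0 hs0 (fun x => (g5t w v).eval x) hu
  refine ⟨spp v, g5t w v, V, v, Λ, ?_, hv, hΛ, hev, ?_⟩
  · refine ⟨he, by omega, w0, w2, w1, fun j => ?_, fun j hj => ?_, ?_, fun x => ?_, h3, hV⟩
    · exact Finset.sum_nonneg fun σ _ => (hv σ).le
    · obtain ⟨σ, hσ, -⟩ := Finset.exists_ne_zero_of_sum_ne_zero hj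
      rw [Finset.mem_filter] at hσ
      rw [← hσ.2]
      exact nF_pos he σ
    · have h := spp_fiber he v (fun _ => 1)
      simp only [mul_one] at h
      have h2 : ((∑ j ∈ Finset.range (2 * k + 1 + 1 + 1), spp v j : ℝ) : ℂ) = ((∑ σ, v σ : ℝ) : ℂ) := by
        push_cast
        exact h
      have h4 := Complex.ofReal_injective h2
      rw [hsum] at h4
      exact h4
    · exact g5t_eval w v x
  · -- the value at 1
    have h1 := hTW 1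
    rw [g5_TW_one] at h1
    have h2 := congrFun h1 (sig0 k)
    have h5 := congrFun hev (sig0 k)
    simp only [Matrix.mulVec, dotProduct, Pi.smul_apply, smul_eq_mul] at h2 h5
    have h6 := congrArg (fun r : ℝ => (r : ℂ)) h5
    simp only [Complex.ofReal_sum, Complex.ofReal_mul] at h6
    have h7 : (v (sig0 k) : ℂ) ≠ 0 := by exact_mod_cast (hv _).ne'
    apply mul_right_cancel₀ h7
    rw [← h2, ← h6]
    rfl

end H906C
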