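import Pool.Agent.H906R3.CY.Fin1
import Pool.Agent.H906R3.CY.G2
import Pool.Agent.H906R3.CY.G3
import Pool.Agent.H906R3.CY.G4
import Pool.Agent.H906R3.CY.G5
import Pool.Agent.H906R3.CY.G6
import Pool.Agent.H906R3.CY.G12
import Pool.Agent.H906R3.CY.E7

/-!
# General weight
-/

namespace H906C
open Pool.Agent.H863R2.Cyl
open Polynomial MeasureTheory Filter Topology

theorem AW_nonneg (m : ℕ) (w : ℝ) (hw : 0 ≤ w) (i j : Wd (m + 1)) : 0 ≤ AW m w i j := by
  unfold AW
  exact Finset.sum_nonneg fun c _ => by split_ifs <;> positivity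

theorem finw_rate (k : ℕ) (w : ℝ) (p : ℕ → ℝ) (t V : ℂ[X]) (v : Wd (2 * k + 1 + 1) → ℝ) (Λ : ℝ)
    (hs : SpecW (2 * k + 2) w p t V) (hv : ∀ σ, 0 < v σ) (hΛ : 0 < Λ)
    (he : (AW (2 * k + 1) w).mulVec v = Λ • v) (ht : t.eval 1 = (Λ : ℂ)) :
    Tendsto (fun M : ℕ => 1 / (M : ℝ) * Real.log (genLoops k M w)) atTop
      (𝓝 (Real.log (srw (2 * k + 2) w p 0))) := by
  obtain ⟨pp, hp⟩ := AW_irr k w hs.w0
  have : Nonempty (Wd (2 * k + 1 + 1)) := ⟨sig0 k⟩
  have h1 := growth (AW (2 * k + 1) w) (AW_nonneg _ w hs.w0.le) pp hp v Λ hv hΛ he (sig0 k)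
    (2 ^ (2 * k + 2)) (by positivity)
  have h2 : Λ / 2 ^ (2 * k + 2) = srw (2 * k + 2) w p 0 := by
    have h3 := scw_eq_t hs 0 (by simpa using Real.pi_pos)
    rw [Complex.exp_zero, ht] at h3
    have h4 := scw_ofReal (N := 2 * k + 2) (w := w) (p := p) 0
    rw [Complex.ofReal_zero] at h4
    rw [h4] at h3
    have h5 : (Λ : ℂ) = ((2 ^ (2 * k + 2) * srw (2 * k + 2) w p 0 : ℝ) : ℂ) := by
      rw [h3]; push_cast; norm_num
    have h6 : Λ = 2 ^ (2 * k + 2) * srw (2 * k + 2) w p 0 := by exact_mod_cast h5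
    rw [h6]
    field_simp
  rw [h2] at h1
  have h8 := h1.neg
  rw [neg_neg] at h8
  refine h8.congr fun M => ?_
  have h7 := gen_eq k M w
  rw [← h7, ← pow_mul, neg_mul, neg_neg]
  congr 2
  field_simp

theorem gen_zero (k M : ℕ) : genLoops k M 0 = crossProb k M := by
  classical
  unfold genLoops crossProb
  congr 1
  have h1 : ∀ c : Fin M → Fin (2 * k + 2) → Bool,
      (0 : ℝ) ^ loops c = if Crosses c then 1 else 0 := by
    intro c
    by_cases h : Crosses c
    · rw [if_pos h, (loops_zero k M c).2 h, pow_zero]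
    · rw [if_neg h, zero_pow]
      exact fun h' => h ((loops_zero k M c).1 h')
  rw [Finset.sum_congr rfl fun c _ => h1 c]
  simp

theorem gen_one (k M : ℕ) : genLoops k M 1 = 1 := by
  classical
  unfold genLoops
  simp only [one_pow, Finset.sum_const, Finset.card_univ, nsmul_eq_mul, mul_one]
  rw [Fintype.card_fun, Fintype.card_fun, Fintype.card_fin, Fintype.card_fin, Fintype.card_bool]
  push_cast
  rw [← pow_mul]
  exact div_self (by positivity)

theorem resultW :
    (∀ (k M : ℕ) (c : Fin M → Fin (2 * k + 2) → Bool), loops c = 0 ↔ Crosses c) ∧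
    ∀ w : ℝ, 0 ≤ w → w < 2 → ∃ r : ℕ → ℝ,
      (∀ k, Tendsto (fun M : ℕ => 1 / (M : ℝ) * Real.log (genLoops k M w)) atTop (𝓝 (r k))) ∧
      Tendsto (fun k : ℕ => (2 * k + 2 : ℝ) * r k) atTop
        (𝓝 (Real.pi / 6 - 3 * Real.arccos (w / 2) ^ 2 / (2 * Real.pi))) := by
  refine ⟨loops_zero, fun w hw0 hw2 => ?_⟩
  rcases hw0.eq_or_lt with h0 | h0
  · subst h0
    obtain ⟨r, h1, h2⟩ := resultOne
    refine ⟨fun k => -r k, fun k => ?_, ?_⟩
    · refine (h1 k).neg.congr fun M => ?_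
      rw [gen_zero]
      ring
    · have h3 := h2.neg
      have e : -(5 * Real.pi / 24)
          = Real.pi / 6 - 3 * Real.arccos (0 / 2) ^ 2 / (2 * Real.pi) := by
        rw [zero_div, Real.arccos_zero]
        field_simp
        ring
      rw [e] at h3
      exact h3.congr fun k => by ring
  by_cases h1 : w = 1
  · subst h1
    refine ⟨fun _ => 0, fun k => ?_, ?_⟩
    · simp [gen_one]
    · have e : Real.arccos (1 / 2) = Real.pi / 3 := by
        rw [show (1 / 2 : ℝ) = Real.cos (Real.pi / 3) by rw [Real.cos_pi_div_three]]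
        exact Real.arccos_cos (by positivity) (by linarith [Real.pi_pos])
      have e2 : Real.pi / 6 - 3 * Real.arccos (1 / 2) ^ 2 / (2 * Real.pi) = 0 := by
        rw [e]
        field_simp
        ring
      rw [e2]
      simp
  · choose p t V v Λ hs hv hΛ he ht using fun k => specw_exists k w h0 hw2 h1
    refine ⟨fun k => Real.log (srw (2 * k + 2) w (p k) 0), fun k =>
      finw_rate k w (p k) (t k) (V k) (v k) (Λ k) (hs k) (hv k) (hΛ k) (he k) (ht k), ?_⟩
    exact tbaw_asymp w (fun k => srw (2 * k + 2) w (p k)) (fun k => tbaw_of_spec (hs k))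

end H906C
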