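import Pool.Agent.H906R3.CY.Model2

/-!
# Law of large numbers for the number of loops, from the generating function
-/

namespace H906C
open Filter Topology

/-- the limit function -/
noncomputable def Lam (w : ℝ) : ℝ := Real.pi / 6 - 3 * Real.arccos (w / 2) ^ 2 / (2 * Real.pi)

theorem lln_arccos : Real.arccos (1 / 2) = Real.pi / 3 := by
  rw [show (1 / 2 : ℝ) = Real.cos (Real.pi / 3) by rw [Real.cos_pi_div_three]]
  exact Real.arccos_cos (by positivity) (by linarith [Real.pi_pos])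

theorem lln_Lam_one : Lam 1 = 0 := by
  unfold Lam
  rw [lln_arccos]
  field_simp
  ring

/-- the derivative at `0` of `λ ↦ Lam (e^λ)` -/
theorem lln_deriv : HasDerivAt (fun l : ℝ => Lam (Real.exp l)) (1 / Real.sqrt 3) 0 := by
  have h1 : HasDerivAt (fun l : ℝ => Real.exp l / 2) (1 / 2) 0 := by
    have := (Real.hasDerivAt_exp 0).div_const 2
    simpa using this
  have h2 : HasDerivAt Real.arccos (-(1 / Real.sqrt (1 - (Real.exp 0 / 2) ^ 2)))
      (Real.exp 0 / 2) := by
    apply Real.hasDerivAt_arccos <;> rw [Real.exp_zero] <;> norm_num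
  have h3 := h2.comp (0 : ℝ) h1
  have h4 := (h3.pow 2).const_mul 3
  have h5 := (h4.div_const (2 * Real.pi)).const_sub (Real.pi / 6)
  refine h5.congr_deriv ?_
  have e1 : Real.sqrt (1 - (Real.exp 0 / 2) ^ 2) = Real.sqrt 3 / 2 := by
    rw [Real.exp_zero, show (1 - (1 / 2 : ℝ) ^ 2) = 3 / 4 by norm_num,
      Real.sqrt_div (by norm_num), show (4 : ℝ) = 2 ^ 2 by norm_num,
      Real.sqrt_sq (by norm_num)]
  have e2 : Real.arccos (Real.exp 0 / 2) = Real.pi / 3 := by rw [Real.exp_zero, lln_arccos]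
  simp only [Function.comp_apply, e1, e2]
  have h6 : Real.sqrt 3 ≠ 0 := by positivity
  have h7 := Real.pi_ne_zero
  field_simp
  norm_num
  ring

open Classical in
/-- the probability that the number of loops deviates from `M / (√3 N)`, `N = 2k+2`, by at least
`ε M / N` -/
noncomputable def devProb (k M : ℕ) (ε : ℝ) : ℝ :=
  ((Finset.univ.filter fun c : Fin M → Fin (2 * k + 2) → Bool =>
    ε ≤ |(2 * k + 2 : ℝ) * loops c / M - 1 / Real.sqrt 3|).card : ℝ) / 2 ^ ((2 * k + 2) * M)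

/-- exponential Markov inequality -/
theorem lln_markov (k M : ℕ) (w b : ℝ) (hw : 0 < w) (P : (Fin M → Fin (2 * k + 2) → Bool) → Prop)
    (hP : ∀ c, P c → b ≤ w ^ loops c) (hb : 0 < b) [DecidablePred P] :
    ((Finset.univ.filter P).card : ℝ) / 2 ^ ((2 * k + 2) * M) ≤ genLoops k M w / b := by
  unfold genLoops
  rw [div_right_comm]
  refine div_le_div_of_nonneg_right ?_ (by positivity)
  rw [le_div_iff₀ hb, ← nsmul_eq_mul, ← Finset.sum_const]
  calc ∑ _c ∈ Finset.univ.filter P, b ≤ ∑ c ∈ Finset.univ.filter P, w ^ loops c := by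
        refine Finset.sum_le_sum fun c hc => ?_
        exact hP c (Finset.mem_filter.1 hc).2
    _ ≤ ∑ c, w ^ loops c :=
        Finset.sum_le_sum_of_subset_of_nonneg (Finset.filter_subset _ _)
          (fun c _ _ => by positivity)

/-- one side: the probability that `l * N * loops >= l * a * M` -/
theorem lln_side (hG : ∀ w : ℝ, 0 ≤ w → w < 2 → ∃ r : ℕ → ℝ,
      (∀ k, Tendsto (fun M : ℕ => 1 / (M : ℝ) * Real.log (genLoops k M w)) atTop (𝓝 (r k))) ∧
      Tendsto (fun k : ℕ => (2 * k + 2 : ℝ) * r k) atTop (𝓝 (Lam w)))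
    (l a δ : ℝ) (hl : Real.exp l < 2) (hδ : Lam (Real.exp l) - l * a < -δ) :
    ∃ k0 : ℕ, ∀ k ≥ k0, ∀ᶠ M : ℕ in atTop,
      ∀ P : (Fin M → Fin (2 * k + 2) → Bool) → Prop,
      (∀ c, P c → l * a * (M / (2 * k + 2)) ≤ l * loops c) → ∀ _ : DecidablePred P,
      ((Finset.univ.filter P).card : ℝ) / 2 ^ ((2 * k + 2) * M)
        ≤ Real.exp (-δ * (M / (2 * k + 2))) := by
  obtain ⟨r, hr1, hr2⟩ := hG (Real.exp l) (Real.exp_pos l).le hl
  have h1 : ∀ᶠ k : ℕ in atTop, (2 * k + 2 : ℝ) * r k < l * a - δ := by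
    refine (hr2.eventually_lt_const ?_)
    linarith
  obtain ⟨k0, hk0⟩ := eventually_atTop.1 h1
  refine ⟨k0, fun k hk => ?_⟩
  have h2 := hk0 k hk
  have hN : (0 : ℝ) < 2 * k + 2 := by positivity
  have h3 : r k < (l * a - δ) / (2 * k + 2) := by
    rw [lt_div_iff₀ hN]
    linarith
  have h4 := (hr1 k).eventually_lt_const h3
  filter_upwards [h4, eventually_gt_atTop 0] with M hM hM0 P hP _
  have hM0' : (0 : ℝ) < M := by exact_mod_cast hM0
  have h5 := lln_markov k M (Real.exp l) (Real.exp (l * a * (M / (2 * k + 2)))) (Real.exp_pos l) P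
    (fun c hc => by
      rw [← Real.exp_nat_mul]
      refine Real.exp_le_exp.2 ?_
      rw [mul_comm ((loops c : ℕ) : ℝ) l]
      exact hP c hc) (Real.exp_pos _)
  refine h5.trans ?_
  have h6 : 0 < genLoops k M (Real.exp l) := by
    unfold genLoops
    have : 0 < ∑ c : Fin M → Fin (2 * k + 2) → Bool, Real.exp l ^ loops c :=
      Finset.sum_pos (fun c _ => by positivity) Finset.univ_nonempty
    positivity
  have h7 : Real.log (genLoops k M (Real.exp l)) < M * ((l * a - δ) / (2 * k + 2)) := by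
    rw [one_div, inv_mul_lt_iff₀ hM0'] at hM
    exact hM
  rw [div_le_iff₀ (Real.exp_pos _), ← Real.exp_add]
  rw [← Real.exp_log h6]
  refine Real.exp_le_exp.2 (h7.le.trans (le_of_eq ?_))
  field_simp
  ring

/-- **law of large numbers for the number of loops around long cylinders** -/
theorem lln (hG : ∀ w : ℝ, 0 ≤ w → w < 2 → ∃ r : ℕ → ℝ,
      (∀ k, Tendsto (fun M : ℕ => 1 / (M : ℝ) * Real.log (genLoops k M w)) atTop (𝓝 (r k))) ∧
      Tendsto (fun k : ℕ => (2 * k + 2 : ℝ) * r k) atTop (𝓝 (Lam w))) (ε : ℝ) (hε : 0 < ε) :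
    ∃ δ : ℝ, 0 < δ ∧ ∃ k0 : ℕ, ∀ k ≥ k0, ∀ᶠ M : ℕ in atTop,
      devProb k M ε ≤ Real.exp (-δ * (M / (2 * k + 2))) := by
  classical
  set m : ℝ := 1 / Real.sqrt 3 with hm
  have hd := lln_deriv
  rw [hasDerivAt_iff_isLittleO] at hd
  have h1 := hd.def (show (0 : ℝ) < ε / 2 by positivity)
  obtain ⟨η, hη, hball⟩ := Metric.eventually_nhds_iff.1 h1
  set l : ℝ := min (η / 2) (1 / 2) with hl
  have hl0 : 0 < l := by positivity
  have hlη : l < η := (min_le_left _ _).trans_lt (by linarith)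
  have hl2 : l ≤ 1 / 2 := min_le_right _ _
  have hexp : ∀ x : ℝ, x ≤ 1 / 2 → Real.exp x < 2 := fun x hx => by
    have h2 : Real.exp x ≤ Real.exp (1 / 2) := Real.exp_le_exp.2 hx
    have h3 : Real.exp (1 / 2) < 2 := by
      have h4 := Real.exp_one_lt_d9
      have h5 : Real.exp (1 / 2) ^ 2 = Real.exp 1 := by
        rw [← Real.exp_nat_mul]; norm_num
      nlinarith [Real.exp_pos (1 / 2 : ℝ)]
    linarith
  have hup : Lam (Real.exp l) - l * (m + ε) < -(ε * l / 4) := by
    have h2 := hball (y := l) (by rw [Real.dist_eq, sub_zero, abs_of_pos hl0]; exact hlη)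
    simp only [Real.exp_zero, lln_Lam_one, sub_zero, smul_eq_mul, Real.norm_eq_abs,
      abs_of_pos hl0] at h2
    have h3 := (abs_le.1 h2).2
    nlinarith
  have hdn : Lam (Real.exp (-l)) - (-l) * (m - ε) < -(ε * l / 4) := by
    have h2 := hball (y := -l) (by rw [Real.dist_eq, sub_zero, abs_neg, abs_of_pos hl0]; exact hlη)
    simp only [Real.exp_zero, lln_Lam_one, sub_zero, smul_eq_mul, Real.norm_eq_abs, abs_neg,
      abs_of_pos hl0] at h2
    have h3 := (abs_le.1 h2).2
    nlinarith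
  obtain ⟨k1, hk1⟩ := lln_side hG l (m + ε) (ε * l / 4) (hexp l hl2) hup
  obtain ⟨k2, hk2⟩ := lln_side hG (-l) (m - ε) (ε * l / 4) (hexp (-l) (by linarith)) hdn
  refine ⟨ε * l / 8, by positivity, max k1 k2, fun k hk => ?_⟩
  have hN : (0 : ℝ) < 2 * k + 2 := by positivity
  have h8 : ∀ᶠ M : ℕ in atTop, 2 ≤ Real.exp (ε * l / 8 * (M / (2 * k + 2))) := by
    have : Tendsto (fun M : ℕ => Real.exp (ε * l / 8 * ((M : ℝ) / (2 * k + 2)))) atTop atTop := by
      refine Real.tendsto_exp_atTop.comp (Tendsto.const_mul_atTop (by positivity) ?_)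
      exact Tendsto.atTop_div_const hN tendsto_natCast_atTop_atTop
    exact this.eventually_ge_atTop 2
  filter_upwards [hk1 k (le_trans (le_max_left _ _) hk), hk2 k (le_trans (le_max_right _ _) hk), h8,
    eventually_gt_atTop 0] with M hM1 hM2 hM3 hM0
  have hM0' : (0 : ℝ) < M := by exact_mod_cast hM0
  have h9 := hM1 (fun c => m + ε ≤ (2 * k + 2 : ℝ) * loops c / M) (fun c hc => by
    rw [le_div_iff₀ hM0'] at hc
    rw [mul_assoc]
    refine mul_le_mul_of_nonneg_left ?_ hl0.le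
    rw [mul_div_assoc', div_le_iff₀ hN]
    linarith) (Classical.decPred _)
  have h10 := hM2 (fun c => (2 * k + 2 : ℝ) * loops c / M ≤ m - ε) (fun c hc => by
    rw [div_le_iff₀ hM0'] at hc
    rw [mul_assoc, neg_mul, neg_mul]
    refine neg_le_neg (mul_le_mul_of_nonneg_left ?_ hl0.le)
    rw [mul_div_assoc', le_div_iff₀ hN]
    linarith) (Classical.decPred _)
  unfold devProb
  have h11 : ((Finset.univ.filter fun c : Fin M → Fin (2 * k + 2) → Bool =>
      ε ≤ |(2 * k + 2 : ℝ) * loops c / M - 1 / Real.sqrt 3|).card : ℝ)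
      ≤ (Finset.univ.filter fun c : Fin M → Fin (2 * k + 2) → Bool =>
          m + ε ≤ (2 * k + 2 : ℝ) * loops c / M).card
        + (Finset.univ.filter fun c : Fin M → Fin (2 * k + 2) → Bool =>
          (2 * k + 2 : ℝ) * loops c / M ≤ m - ε).card := by
    rw [← Nat.cast_add]
    refine Nat.cast_le.2 ((Finset.card_le_card ?_).trans (Finset.card_union_le _ _))
    intro c hc
    rw [Finset.mem_filter] at hc
    rw [Finset.mem_union, Finset.mem_filter, Finset.mem_filter]
    rcases le_abs.1 hc.2 with h | h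
    · left
      exact ⟨Finset.mem_univ _, by rw [hm]; linarith⟩
    · right
      exact ⟨Finset.mem_univ _, by rw [hm]; linarith⟩
  have h12 : Real.exp (-(ε * l / 4) * (M / (2 * k + 2)))
      = Real.exp (-(ε * l / 8) * (M / (2 * k + 2))) * Real.exp (-(ε * l / 8) * (M / (2 * k + 2))) := by
    rw [← Real.exp_add]
    congr 1
    ring
  have h13 : Real.exp (-(ε * l / 8) * (M / (2 * k + 2))) * 2 ≤ 1 := by
    calc Real.exp (-(ε * l / 8) * (M / (2 * k + 2))) * 2
        ≤ Real.exp (-(ε * l / 8) * (M / (2 * k + 2))) * Real.exp (ε * l / 8 * (M / (2 * k + 2))) :=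
          mul_le_mul_of_nonneg_left hM3 (Real.exp_pos _).le
      _ = 1 := by
          rw [← Real.exp_add, ← Real.exp_zero]
          congr 1
          ring
  refine (div_le_div_of_nonneg_right h11 (by positivity)).trans ?_
  rw [add_div]
  refine (add_le_add h9 h10).trans ?_
  rw [h12]
  nlinarith [Real.exp_pos (-(ε * l / 8) * ((M : ℝ) / (2 * k + 2)))]

end H906C
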