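import Pool.Agent.H906R3.CY.Defs

/-!
# Blueprint: all module statements (with `sorry`).  DO NOT import this file in final proofs.
Module `K` proves its statements, under the same names, in `Pool/Agent/H906R3/CY/K.lean`,
namespace `H906C`, importing `Defs` and the modules it depends on.
-/

namespace H906C
open Pool.Agent.H863R2.Cyl
open Pool.Agent.H863R2.Cyl.Sem1Aux (Inc RH Cons)
open Pool.Agent.H988R2.Perc (Word)
open Polynomial MeasureTheory Filter Topology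

/-! ## W1 (file W1.lean): the action of `act i` on height functions -/

theorem act_ht {w : Word} (hw : Ok w) (hl : 2 ≤ w.length) (he : Even w.length) (i : ℕ)
    (H : ℤ → ℤ) (hH : Inc (sg w) H) :
    ∃ H' : ℤ → ℤ, Inc (sg (act i w)) H' ∧
      ((sg w i = 1 ∧ sg w (i + 1) = -1 ∧ ∀ x, H' x = H x) ∨
      (sg w i = -1 ∧ sg w (i + 1) = 1 ∧
        ∀ x, ((w.length : ℤ) ∣ x - (i + 1) → H' x = H x + 2) ∧
          (¬ (w.length : ℤ) ∣ x - (i + 1) → H' x = H x)) ∨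
      (sg w i = 1 ∧ sg w (i + 1) = 1 ∧ ∃ b : ℤ, Cons H (i + 1) (b + 1) ∧ b + 1 < i + w.length ∧
        ∀ x, ((∃ k : ℤ, (i : ℤ) + 1 < x - k * w.length ∧ x - k * w.length ≤ b) → H' x = H x - 2) ∧
          ((¬ ∃ k : ℤ, (i : ℤ) + 1 < x - k * w.length ∧ x - k * w.length ≤ b) → H' x = H x)) ∨
      (sg w i = -1 ∧ sg w (i + 1) = -1 ∧ ∃ a : ℤ, Cons H a (i + 1) ∧ (i : ℤ) + 1 - w.length < a ∧
        ∀ x, ((∃ k : ℤ, a < x - k * w.length ∧ x - k * w.length ≤ i) → H' x = H x - 2) ∧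
          ((¬ ∃ k : ℤ, a < x - k * w.length ∧ x - k * w.length ≤ i) → H' x = H x))) := sorry

/-! ## W1b (file W1b.lean): basic facts on `Fc` for words of even length -/

theorem ht_per {m : ℕ} (he : Even (m + 1)) (σ : Wd (m + 1)) (H : ℤ → ℤ) (hH : Inc (sg σ.1) H)
    (x : ℤ) : H (x + (m + 1)) = H x := sorry
theorem Fc_iff_min {m : ℕ} (he : Even (m + 1)) (σ : Wd (m + 1)) (H : ℤ → ℤ)
    (hH : Inc (sg σ.1) H) (b : ℤ) : Fc σ b ↔ ∀ x, H b ≤ H x := sorry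
theorem Fc_nonempty {m : ℕ} (he : Even (m + 1)) (σ : Wd (m + 1)) : ∃ b : ℤ, Fc σ b := sorry
theorem Fc_per {m : ℕ} (he : Even (m + 1)) (σ : Wd (m + 1)) (b k : ℤ) :
    Fc σ (b + k * (m + 1)) ↔ Fc σ b := sorry
theorem Fc_parity {m : ℕ} (he : Even (m + 1)) (σ : Wd (m + 1)) {b b' : ℤ} (h : Fc σ b)
    (h' : Fc σ b') : Even (b - b') := sorry
theorem Fc_Rw {m : ℕ} (he : Even (m + 1)) (σ : Wd (m + 1)) {b b' : ℤ} (h : Fc σ b)
    (h' : Fc σ b') : Rw σ.1 b b' := sorry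
theorem Fc_rot {m : ℕ} (he : Even (m + 1)) (σ : Wd (m + 1)) (b : ℤ) :
    Fc (rot m σ) (b + 1) ↔ Fc σ b := sorry
theorem Fc_rotInv {m : ℕ} (he : Even (m + 1)) (σ : Wd (m + 1)) (b : ℤ) :
    Fc (rotInv m σ) b ↔ Fc σ (b + 1) := sorry
theorem nF_pos {m : ℕ} (he : Even (m + 1)) (σ : Wd (m + 1)) : 1 ≤ nF σ ∧ 2 * nF σ ≤ m + 1 := sorry

/-! ## W2 (file W2.lean, imports W1 W1b): `Fc` and the Temperley-Lieb generators -/

theorem Fc_E_a {m i : ℕ} (he : Even (m + 1)) (σ : Wd (m + 1)) {b : ℤ} (h : Fc σ b)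
    (hb : ¬ ((m : ℤ) + 1) ∣ b - (i + 1)) : Fc (E m i σ) b := sorry
theorem Fc_E_b {m i : ℕ} (he : Even (m + 1)) (σ : Wd (m + 1)) :
    Fc (E m i σ) i ↔ Fc (E m i σ) (i + 2) := sorry
theorem Fc_E_c {m i : ℕ} (he : Even (m + 1)) (σ : Wd (m + 1)) : ¬ Fc (E m i σ) (i + 1) := sorry
theorem Fc_E_d {m i : ℕ} (he : Even (m + 1)) (σ : Wd (m + 1)) (h1 : ¬ Fc σ i)
    (h2 : ¬ Fc σ (i + 2)) (hk : kE m i σ = 0) (b : ℤ) :
    Fc (E m i σ) b ↔ (Fc σ b ∧ ¬ ((m : ℤ) + 1) ∣ b - (i + 1)) := sorry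
theorem Fc_E_e {m i : ℕ} (he : Even (m + 1)) (σ : Wd (m + 1)) (hk : kE m i σ = 1) :
    Fc (E m i σ) i ∧ Fc (E m i σ) (i + 2) := sorry

/-! ## W3 (file W3.lean, imports W2): closings in a row -/

theorem kW_eq {m : ℕ} (he : Even (m + 1)) (c : Fin (m + 1) → Bool) (k : ℕ) (hk : k < m + 1)
    (hc : c (ix m k) = false) (σ : Wd (m + 1)) : kW m c k m σ = kT m c σ := sorry
theorem kT_true {m : ℕ} (he : Even (m + 1)) (c : Fin (m + 1) → Bool) (h : ∀ j, c j = true)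
    (σ : Wd (m + 1)) : kT m c σ = 0 := sorry

/-! ## W4 (file W4.lean, imports W1b): crossings and closings -/

/-- no closing in the rows = crossing. `run` = patterns after the rows -/
theorem crosses_iff (k M : ℕ) (c : Fin M → Fin (2 * k + 2) → Bool) :
    Crosses c ↔ ∀ t : Fin M, kT (2 * k + 1) (c t)
      (rows (2 * k + 1) (fun t => if h : t < M then c ⟨t, h⟩ else fun _ => false) t.val (sig0 k)) = 0 := sorry

/-! ## W5 (file W5.lean, imports W4): counting -/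

theorem count_eq (k M : ℕ) :
    crossProb k M * 2 ^ ((2 * k + 2) * M) = ∑ τ, ((AA (2 * k + 1)) ^ M) τ (sig0 k) := sorry

/-! ## W6 (file W6.lean, imports W1 W1b): alternating rows -/

theorem Tc_alt1 (k : ℕ) (σ : Wd (2 * k + 1 + 1)) :
    Tc (2 * k + 1) (fun j => decide (j.val % 2 = 1)) σ = sig1 k := sorry
theorem Tc_alt0 (k : ℕ) (σ : Wd (2 * k + 1 + 1)) :
    Tc (2 * k + 1) (fun j => decide (j.val % 2 = 0)) σ = sig0 k := sorry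
theorem Fc_sig0 (k : ℕ) (b : ℤ) : Fc (sig0 k) b ↔ Even b := sorry
theorem Fc_sig1 (k : ℕ) (b : ℤ) : Fc (sig1 k) b ↔ Odd b := sorry

/-! ## IRR (file IRR.lean, imports W1 W1b W2 W3 W6): irreducibility -/

theorem AA_irr (k : ℕ) : ∃ p : ℕ, ∀ τ σ : Wd (2 * k + 1 + 1),
    0 < (∑ l ∈ Finset.range p, (AA (2 * k + 1)) ^ l) τ σ := sorry

/-! ## PF (file PF.lean, Mathlib only): Perron-Frobenius -/

theorem perron {ι : Type*} [Fintype ι] [DecidableEq ι] [Nonempty ι] (A : Matrix ι ι ℝ)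
    (h0 : ∀ i j, 0 ≤ A i j) (p : ℕ) (h1 : ∀ i j, 0 < (∑ l ∈ Finset.range p, A ^ l) i j)
    (h2 : ∃ i j, 0 < A i j) :
    ∃ (v : ι → ℝ) (Λ : ℝ), (∀ i, 0 < v i) ∧ ∑ i, v i = 1 ∧ 0 < Λ ∧ A.mulVec v = Λ • v ∧
      ∀ u : ι → ℂ, (A.map (algebraMap ℝ ℂ)).mulVec u = (Λ : ℂ) • u →
        ∃ c : ℂ, u = fun i => c * (v i : ℂ) := sorry

/-! ## RATE (file RATE.lean, Mathlib only): growth rate -/

theorem growth {ι : Type*} [Fintype ι] [DecidableEq ι] [Nonempty ι] (A : Matrix ι ι ℝ)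
    (h0 : ∀ i j, 0 ≤ A i j) (p : ℕ) (h1 : ∀ i j, 0 < (∑ l ∈ Finset.range p, A ^ l) i j)
    (v : ι → ℝ) (Λ : ℝ) (hv : ∀ i, 0 < v i) (hΛ : 0 < Λ) (he : A.mulVec v = Λ • v) (j : ι) (B : ℝ)
    (hB : 0 < B) :
    Tendsto (fun M : ℕ => -(1 / (M : ℝ)) * Real.log ((∑ i, (A ^ M) i j) / B ^ M)) atTop
      (𝓝 (-Real.log (Λ / B))) := sorry

/-! ## COL (file COL.lean, imports W1b): column sums -/

theorem TW_col {R : Type*} [CommRing R] {m : ℕ} (he : Even (m + 1)) (q x : R)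
    (hq : q ^ 2 + q + 1 = 0) (σ : Wd (m + 1)) :
    ∑ τ, TW m q x 0 τ σ = (1 + x) ^ (m + 1)
      - (1 - x + x ^ 2) ^ nF σ * (1 + x) ^ (m + 1 - 2 * nF σ) := sorry

/-! ## T1 (file T1.lean, imports W1 W1b): `ThW` intertwines the Temperley-Lieb generators -/

theorem eV_ThW {R : Type*} [CommRing R] {m : ℕ} (he : Even (m + 1)) (i : ℕ) (q : R)
    (hq : q ^ 2 + q + 1 = 0) (ζ : Rˣ) (t : Fin (m + 1) → Bool) (σ : Wd (m + 1)) :
    (H906K.eV m i q ζ * ThW m q ζ) t σ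
      = (((ζ ^ (m + 1) : Rˣ) : R) + (((ζ⁻¹) ^ (m + 1) : Rˣ) : R)) ^ kE m i σ
        * ThW m q ζ t (E m i σ) := sorry

/-! ## T2 (file T2.lean, imports W1b): rotations and spin -/

theorem ThW_spin {R : Type*} [CommRing R] {m : ℕ} (he : Even (m + 1)) (q : R) (ζ : Rˣ)
    (s : Fin (m + 1) → Bool) (σ : Wd (m + 1)) (h : H906K.spin s ≠ 0) : ThW m q ζ s σ = 0 := sorry
theorem rotM_ThW {R : Type*} [CommRing R] {m : ℕ} (he : Even (m + 1)) (q : R) (ζ : Rˣ)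
    (t : Fin (m + 1) → Bool) (σ : Wd (m + 1)) :
    (H906K.rotM m ζ * ThW m q ζ) t σ = ThW m q ζ t (rot m σ) := sorry
theorem rotMi_ThW {R : Type*} [CommRing R] {m : ℕ} (he : Even (m + 1)) (q : R) (ζ : Rˣ)
    (t : Fin (m + 1) → Bool) (σ : Wd (m + 1)) :
    (H906K.rotMi m ζ * ThW m q ζ) t σ = ThW m q ζ t (rotInv m σ) := sorry

/-! ## T3 (file T3.lean, imports T1 T2 W3, K6.V0, K6.L3): the intertwining relation -/

theorem TVc_ThW {R : Type*} [CommRing R] {m : ℕ} (he : Even (m + 1)) (c : Fin (m + 1) → Bool)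
    (q : R) (hq : q ^ 2 + q + 1 = 0) (ζ : Rˣ) (t : Fin (m + 1) → Bool) (σ : Wd (m + 1)) :
    (H906K.TVc m c q ζ * ThW m q ζ) t σ
      = (((ζ ^ (m + 1) : Rˣ) : R) + (((ζ⁻¹) ^ (m + 1) : Rˣ) : R)) ^ kT m c σ
        * ThW m q ζ t (Tc m c σ) := sorry
theorem TV_ThW {R : Type*} [CommRing R] {m : ℕ} (he : Even (m + 1)) (q x : R)
    (hq : q ^ 2 + q + 1 = 0) (ζ : Rˣ) :
    H906K.TV m q x ζ * ThW m q ζ = ThW m q ζ *
      TW m q x (((ζ ^ (m + 1) : Rˣ) : R) + (((ζ⁻¹) ^ (m + 1) : Rˣ) : R)) := sorry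

/-! ## T4 (file T4.lean, imports W1b): injectivity for a large twist -/

theorem ThW_inj {m : ℕ} (he : Even (m + 1)) (q : ℂ) (hq : q ^ 2 + q + 1 = 0) :
    ∃ R0 : ℝ, ∀ ζ : ℂˣ, R0 < ‖(ζ : ℂ)‖ →
      ∀ f : Wd (m + 1) → ℂ, (ThW m q ζ).mulVec f = 0 → f = 0 := sorry

/-! ## T5 (file T5.lean, imports T3 T4, K6.V1): commutation for every weight -/

theorem TW_comm {m : ℕ} (he : Even (m + 1)) (q x y w : ℂ) (hq : q ^ 2 + q + 1 = 0) :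
    TW m q x w * TW m q y w = TW m q y w * TW m q x w := sorry

/-! ## NZ (file NZ.lean, imports T3 W6) -/

theorem ThW_ne (k : ℕ) (q : ℂ) (hq : q ^ 2 + q + 1 = 0) (ζ : ℂˣ)
    (hζ : ((ζ ^ (2 * k + 2) : ℂˣ) : ℂ) + (((ζ⁻¹) ^ (2 * k + 2) : ℂˣ) : ℂ) = 0)
    (v : Wd (2 * k + 1 + 1) → ℝ) (hv : ∀ σ, 0 < v σ) :
    ∃ s, (ThW (2 * k + 1) q ζ).mulVec (fun σ => (v σ : ℂ)) s ≠ 0 := sorry

/-! ## SPEC (file SPEC.lean, imports IRR PF COL T5 NZ nF_pos, K6.V2 K6.V3) -/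

theorem spec_exists (k : ℕ) : ∃ (p : ℕ → ℝ) (t V : ℂ[X]) (v : Wd (2 * k + 1 + 1) → ℝ) (Λ : ℝ),
    Spec (2 * k + 2) p t V ∧ (∀ σ, 0 < v σ) ∧ 0 < Λ ∧ (AA (2 * k + 1)).mulVec v = Λ • v ∧
    t.eval 1 = (Λ : ℂ) := sorry

/-! ## B1 (file B1.lean, imports K6.A1 K6.A2a): strip representation with linear growth -/

theorem strip_rep_lin (f : ℂ → ℂ) (K : ℝ)
    (hf : ∀ z : ℂ, |z.im| ≤ Real.pi / 3 → DifferentiableAt ℂ f z)
    (hb : ∀ z : ℂ, |z.im| ≤ Real.pi / 3 → ‖f z‖ ≤ K * (1 + |z.re|)) (l : ℝ) :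
    f l = ∫ u : ℝ, (H906K.kk (l - u) : ℂ) * (f (u + Real.pi / 3 * Complex.I)
      + f (u - Real.pi / 3 * Complex.I)) := sorry

/-! ## B2 (file B2.lean): the function `P` -/

theorem Pc_an (z : ℂ) (hz : |z.im| < Real.pi) : DifferentiableAt ℂ Pc z := sorry
theorem Pc_le (z : ℂ) (hz : |z.im| ≤ Real.pi / 3) :
    ‖Pc z‖ ≤ 1 - Real.exp (-|z.re|) / 4 := sorry
theorem Pc_bdd : ∃ K : ℝ, ∀ z : ℂ, |z.im| ≤ 5 * Real.pi / 6 →
    ‖Pc z - 1‖ ≤ K * Real.exp (-|z.re|) := sorry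
theorem Pc_conj (z : ℂ) : Pc (starRingEnd ℂ z) = starRingEnd ℂ (Pc z) := sorry
theorem Pc_exp (z : ℂ) (hz : |z.im| < Real.pi) :
    Pc z = (1 - Complex.exp z + Complex.exp z ^ 2) / (1 + Complex.exp z) ^ 2 := sorry

/-! ## B3 (file B3.lean, imports B2): the function `s` -/

theorem sc_an {N : ℕ} {p : ℕ → ℝ} {t V : ℂ[X]} (h : Spec N p t V) (z : ℂ)
    (hz : |z.im| < Real.pi) : DifferentiableAt ℂ (sc N p) z := sorry
theorem sc_re {N : ℕ} {p : ℕ → ℝ} {t V : ℂ[X]} (h : Spec N p t V) (z : ℂ)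
    (hz : |z.im| ≤ Real.pi / 3) :
    Real.exp (-|z.re|) / 4 ≤ (sc N p z).re ∧ ‖sc N p z‖ ≤ 2 := sorry
theorem sc_lim {N : ℕ} {p : ℕ → ℝ} {t V : ℂ[X]} (h : Spec N p t V) : ∃ K : ℝ, ∀ z : ℂ,
    |z.im| ≤ 5 * Real.pi / 6 → ‖sc N p z‖ ≤ K * Real.exp (-|z.re|) := sorry
theorem sc_conj {N : ℕ} {p : ℕ → ℝ} (z : ℂ) :
    sc N p (starRingEnd ℂ z) = starRingEnd ℂ (sc N p z) := sorry
theorem sc_ofReal {N : ℕ} {p : ℕ → ℝ} (u : ℝ) : sc N p u = (sr N p u : ℂ) := sorry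
theorem sc_eq_t {N : ℕ} {p : ℕ → ℝ} {t V : ℂ[X]} (h : Spec N p t V) (z : ℂ)
    (hz : |z.im| < Real.pi) :
    t.eval (Complex.exp z) = (1 + Complex.exp z) ^ N * sc N p z := sorry

/-! ## B4 (file B4.lean, imports B3): functional relations -/

theorem rel_h {N : ℕ} {p : ℕ → ℝ} {t V : ℂ[X]} (h : Spec N p t V) (z : ℂ)
    (hz : |z.im| < 2 * Real.pi / 3) :
    sc N p (z + Real.pi / 3 * Complex.I) * sc N p (z - Real.pi / 3 * Complex.I)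
      = 1 + (Complex.tanh (3 * z / 4)) ^ N * hh N V z := sorry
theorem hh_an (N : ℕ) (V : ℂ[X]) (z : ℂ) (hz : |z.im| < 4 * Real.pi / 3) :
    DifferentiableAt ℂ (hh N V) z := sorry
theorem rel_hh {N : ℕ} {p : ℕ → ℝ} {t V : ℂ[X]} (h : Spec N p t V) (z : ℂ)
    (hz : |z.im| ≤ Real.pi / 3) :
    hh N V (z + Real.pi / 3 * Complex.I) * hh N V (z - Real.pi / 3 * Complex.I)
      = 1 + sc N p z ^ 2 := sorry

/-! ## B5 (file B5.lean, imports B4): zeros, sign, limits of `h` -/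

theorem hh_ne {N : ℕ} {p : ℕ → ℝ} {t V : ℂ[X]} (h : Spec N p t V) (z : ℂ)
    (hz : |z.im| ≤ 2 * Real.pi / 3) : hh N V z ≠ 0 := sorry
theorem hh_lim {N : ℕ} {p : ℕ → ℝ} {t V : ℂ[X]} (h : Spec N p t V) : ∃ K : ℝ, ∀ z : ℂ,
    |z.im| ≤ Real.pi / 2 → 1 ≤ |z.re| → ‖hh N V z + 1‖ ≤ K * Real.exp (-|z.re|) := sorry
theorem hh_real {N : ℕ} {p : ℕ → ℝ} {t V : ℂ[X]} (h : Spec N p t V) (u : ℝ) :
    (hh N V u).im = 0 ∧ (hh N V u).re < 0 := sorry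

/-! ## B6 (file B6.lean, imports B5, K6.A1, K6.A2a): the representation of `h` -/

theorem hh_rep {N : ℕ} {p : ℕ → ℝ} {t V : ℂ[X]} (h : Spec N p t V) (u : ℝ) :
    -(hh N V u).re = Real.exp (bb (sr N p) u) := sorry

/-! ## B7 (file B7.lean, imports B3 B6 B1): the representation of `s` -/

theorem s_rep {N : ℕ} {p : ℕ → ℝ} {t V : ℂ[X]} (h : Spec N p t V) :
    (∀ u : ℝ, ‖sc N p (u + Real.pi / 3 * Complex.I)‖ ^ 2 = 1 - yy N (sr N p) u) ∧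
    ∀ l : ℝ, Real.log (sr N p l) = ∫ u : ℝ, H906K.kk (l - u) * l1 N (sr N p) u := sorry

/-! ## B8 (file B8.lean, imports B3 B7): qualitative properties -/

theorem sr_props {N : ℕ} {p : ℕ → ℝ} (hN : 2 ≤ N) (nonneg : ∀ j, 0 ≤ p j)
    (supp : ∀ j, p j ≠ 0 → 1 ≤ j ∧ 2 * j ≤ N) (sum : ∑ j ∈ Finset.range (N + 1), p j = 1) :
    (∀ u, sr N p (-u) = sr N p u) ∧ (∀ u, 0 < sr N p u) ∧ (∀ u, sr N p u ≤ 1) ∧
    ContDiff ℝ 1 (sr N p) ∧ AntitoneOn (sr N p) (Set.Ici 0) ∧ Tendsto (sr N p) atTop (𝓝 0) ∧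
    ∃ K, ∀ u, sr N p u ≤ K * Real.exp (-|u|) ∧ |deriv (sr N p) u| ≤ K * Real.exp (-|u|) := sorry

/-! ## B9 (file B9.lean, imports B3 B7 B8): the system -/

theorem tba_of_spec {N : ℕ} {p : ℕ → ℝ} {t V : ℂ[X]} (h : Spec N p t V) :
    TBA N (sr N p) := sorry

/-! ## C1 (file C1.lean): the dilogarithm constants -/

theorem Fd_one : Fd 1 = -(Real.pi ^ 2 / 6) := sorry
theorem Gd_one : Gd 1 = -(Real.pi ^ 2 / 24) := sorry
theorem Fd_cont : ContinuousOn Fd (Set.Icc 0 1) := sorry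
theorem Gd_cont : ContinuousOn Gd (Set.Icc 0 1) := sorry
theorem Fd_deriv (r : ℝ) (h0 : 0 < r) (h1 : r < 1) :
    HasDerivAt Fd (Real.log (1 - r) / r) r := sorry
theorem Gd_deriv (r : ℝ) (h0 : 0 < r) :
    HasDerivAt Gd (2 * r * Real.log r / (1 + r ^ 2)) r := sorry

/-! ## C2a (file C2a.lean, imports K6.A2a K6.A2b): bounds for `LL`, `bb` -/

theorem LL_props {N : ℕ} {s : ℝ → ℝ} (h : TBA N s) :
    ContDiff ℝ 1 (LL s) ∧ (∀ u, 0 ≤ LL s u ∧ LL s u ≤ Real.log 2) ∧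
    (∀ u, deriv (LL s) (-u) = -deriv (LL s) u) ∧
    (∀ u, deriv (LL s) u = 2 * s u * deriv s u / (1 + s u ^ 2)) ∧
    (∀ u, 0 < u → deriv s u ≤ 0) ∧
    IntegrableOn (deriv s) (Set.Ioi 0) ∧ IntegrableOn (deriv (LL s)) (Set.Ioi 0) ∧
    Integrable (deriv (LL s)) ∧
    ∫ u in Set.Ioi (0 : ℝ), |deriv (LL s) u| ≤ 1 ∧
    ∃ K, ∀ u, |deriv (LL s) u| ≤ K * Real.exp (-(2 * |u|)) := sorry
theorem bb_props {N : ℕ} {s : ℝ → ℝ} (h : TBA N s) :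
    ContDiff ℝ 1 (bb s) ∧ (∀ u, 0 ≤ bb s u ∧ bb s u ≤ Real.log 2 / 2) ∧
    (∀ u, bb s (-u) = bb s u) ∧
    (∀ u, deriv (bb s) u = ∫ v : ℝ, H906K.kk (u - v) * deriv (LL s) v) ∧
    Tendsto (bb s) atTop (𝓝 0) ∧ (∃ K, ∀ u, |deriv (bb s) u| ≤ K * Real.exp (-|u|)) := sorry

/-! ## C2b (file C2b.lean, imports C2a): bounds for `yy`, `l1` -/

theorem yy_props {N : ℕ} {s : ℝ → ℝ} (h : TBA N s) :
    (∀ u, 0 ≤ yy N s u ∧ yy N s u < 1) ∧ (∀ u, 0 < u → 0 < yy N s u) ∧ yy N s 0 = 0 ∧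
    (∀ u, yy N s (-u) = yy N s u) ∧ Continuous (yy N s) ∧ Tendsto (yy N s) atTop (𝓝 1) ∧
    (∀ u, 0 < u → HasDerivAt (yy N s)
      (yy N s u * ((3 / 2 * N) / Real.sinh (3 * u / 2) + deriv (bb s) u)) u) := sorry
theorem l1_props {N : ℕ} {s : ℝ → ℝ} (h : TBA N s) :
    Continuous (l1 N s) ∧ (∀ u, l1 N s (-u) = l1 N s u) ∧
    (∀ u, l1 N s u ≤ 0) ∧ (∀ u, |l1 N s u| ≤ 6 * (1 + |u|) * Real.tanh (3 * u / 4) ^ N) := sorry

/-! ## C3 (file C3.lean, imports C1 C2b): the first integral -/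

theorem int_F {N : ℕ} {s : ℝ → ℝ} (h : TBA N s) :
    IntegrableOn (fun u => l1 N s u * ((3 / 2 * N) / Real.sinh (3 * u / 2))) (Set.Ioi 0) ∧
    IntegrableOn (fun u => l1 N s u * deriv (bb s) u) (Set.Ioi 0) ∧
    ∫ u in Set.Ioi (0 : ℝ), l1 N s u * ((3 / 2 * N) / Real.sinh (3 * u / 2))
      = -(Real.pi ^ 2 / 6) - ∫ u in Set.Ioi (0 : ℝ), l1 N s u * deriv (bb s) u := sorry

/-! ## C4 (file C4.lean, imports C2b): the double integral -/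

theorem dbl {N : ℕ} {s : ℝ → ℝ} (h : TBA N s) :
    ∫ u in Set.Ioi (0 : ℝ), l1 N s u * deriv (bb s) u
      = (∫ u in Set.Ioi (0 : ℝ), Real.log (s u) * deriv (LL s) u) + Dl1 N s := sorry

/-! ## C5 (file C5.lean, imports C1 C2b): the second integral -/

theorem int_G {N : ℕ} {s : ℝ → ℝ} (h : TBA N s) :
    ∫ u in Set.Ioi (0 : ℝ), Real.log (s u) * deriv (LL s) u = -Gd (s 0) := sorry

/-! ## C6 (file C6.lean, imports C2b): bound for the cross term -/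

theorem Dl1_le {N : ℕ} {s : ℝ → ℝ} (h : TBA N s) :
    |Dl1 N s| ≤ 2 * ∫ u in Set.Ioi (0 : ℝ),
      H906K.kk u * (6 * (1 + u) * Real.tanh (3 * u / 4) ^ N) := sorry
theorem s0_ge {N : ℕ} {s : ℝ → ℝ} (h : TBA N s) :
    |Real.log (s 0)| ≤ 2 * ∫ u in Set.Ioi (0 : ℝ),
      H906K.kk u * (6 * (1 + u) * Real.tanh (3 * u / 4) ^ N) := sorry

/-! ## C7 (file C7.lean): limits of the error integrals -/

theorem err1 : Tendsto (fun N : ℕ => ∫ u in Set.Ioi (0 : ℝ),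
    H906K.kk u * (6 * (1 + u) * Real.tanh (3 * u / 4) ^ N)) atTop (𝓝 0) := sorry
theorem err2 : Tendsto (fun N : ℕ => ∫ u in Set.Ioi (0 : ℝ),
    (1 + u) * Real.tanh (3 * u / 4) ^ N * ((3 / 2 * N) / Real.sinh (3 * u / 2))
      * (1 - Real.tanh (3 * u / 2))) atTop (𝓝 0) := sorry
theorem err2_int (N : ℕ) (hN : 2 ≤ N) : IntegrableOn (fun u : ℝ =>
    (1 + u) * Real.tanh (3 * u / 4) ^ N * ((3 / 2 * N) / Real.sinh (3 * u / 2))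
      * (1 - Real.tanh (3 * u / 2))) (Set.Ioi 0) := sorry

/-! ## C8 (file C8.lean, imports C1-C7): the asymptotics -/

theorem tba_asymp (s : ℕ → ℝ → ℝ) (h : ∀ k, TBA (2 * k + 2) (s k)) :
    Tendsto (fun k : ℕ => (2 * k + 2 : ℝ) * Real.log (s k 0)) atTop
      (𝓝 (-(5 * Real.pi / 24))) := sorry

/-! ## FIN (file Final.lean): the theorem -/

theorem result_stub : ∃ r : ℕ → ℝ,
    (∀ k, Tendsto (fun M : ℕ => -(1 / (M : ℝ)) * Real.log (crossProb k M)) atTop (𝓝 (r k))) ∧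
    Tendsto (fun k : ℕ => (2 * k + 2 : ℝ) * r k) atTop (𝓝 (5 * Real.pi / 24)) := sorry

end H906C
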