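import Pool.Agent.H906R3.CY.Defs2
import Pool.Agent.H906R3.CY.Stubs

/-!
# Blueprint, part 2 (general weight `w`): module statements (with `sorry`). DO NOT import this file
in final proofs. Module `G` proves its statements, under the same names, in
`Pool/Agent/H906R3/CY/G.lean`, namespace `H906C`, importing `Defs2` and the modules it depends on.
-/

namespace H906C
open Pool.Agent.H863R2.Cyl
open Pool.Agent.H863R2.Cyl.Sem1Aux (Inc RH Cons)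
open Pool.Agent.H988R2.Perc (Word)
open Polynomial MeasureTheory Filter Topology

/-! ## G1 (file G1.lean, imports W1b): loops and closings -/

theorem cut_iff (k M : ℕ) (c : Fin M → Fin (2 * k + 2) → Bool) (t : Fin M) :
    Cut c t ↔ kT (2 * k + 1) (c t)
      (rows (2 * k + 1) (fun t => if h : t < M then c ⟨t, h⟩ else fun _ => false) t.val (sig0 k)) = 1 := sorry

/-! ## G2 (file G2.lean, imports G1): counting -/

theorem gen_eq (k M : ℕ) (w : ℝ) :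
    genLoops k M w * 2 ^ ((2 * k + 2) * M) = ∑ τ, ((AW (2 * k + 1) w) ^ M) τ (sig0 k) := sorry

/-! ## G3 (file G3.lean, imports G1, W4) -/

theorem loops_zero (k M : ℕ) (c : Fin M → Fin (2 * k + 2) → Bool) : loops c = 0 ↔ Crosses c := sorry

/-! ## G4 (file G4.lean, imports IRR COL T3 W6) -/

theorem AW_irr (k : ℕ) (w : ℝ) (hw : 0 < w) : ∃ p : ℕ, ∀ τ σ : Wd (2 * k + 1 + 1),
    0 < (∑ l ∈ Finset.range p, (AW (2 * k + 1) w) ^ l) τ σ := sorry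
theorem TW_colw {R : Type*} [CommRing R] {m : ℕ} (he : Even (m + 1)) (q x w : R)
    (hq : q ^ 2 + q + 1 = 0) (σ : Wd (m + 1)) :
    ∑ τ, TW m q x w τ σ = (1 + x) ^ (m + 1)
      - (1 - w) * ((1 - x + x ^ 2) ^ nF σ * (1 + x) ^ (m + 1 - 2 * nF σ)) := sorry
theorem ThW_new (k : ℕ) (q : ℂ) (hq : q ^ 2 + q + 1 = 0) (ζ : ℂˣ) (w : ℝ) (hw : 0 < w)
    (hζ : ((ζ ^ (2 * k + 2) : ℂˣ) : ℂ) + (((ζ⁻¹) ^ (2 * k + 2) : ℂˣ) : ℂ) = (w : ℂ))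
    (v : Wd (2 * k + 1 + 1) → ℝ) (hv : ∀ σ, 0 < v σ) :
    ∃ s, (ThW (2 * k + 1) q ζ).mulVec (fun σ => (v σ : ℂ)) s ≠ 0 := sorry

/-! ## G5 (file G5.lean, imports G4 PF T5 W1b K6.V2 K6.V3) -/

theorem specw_exists (k : ℕ) (w : ℝ) (w0 : 0 < w) (w2 : w < 2) (w1 : w ≠ 1) :
    ∃ (p : ℕ → ℝ) (t V : ℂ[X]) (v : Wd (2 * k + 1 + 1) → ℝ) (Λ : ℝ),
    SpecW (2 * k + 2) w p t V ∧ (∀ σ, 0 < v σ) ∧ 0 < Λ ∧ (AW (2 * k + 1) w).mulVec v = Λ • v ∧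
    t.eval 1 = (Λ : ℂ) := sorry

/-! ## G6 (file G6.lean, imports B2): the function `s` -/

theorem scw_an {N : ℕ} {w : ℝ} {p : ℕ → ℝ} (z : ℂ)
    (hz : |z.im| < Real.pi) : DifferentiableAt ℂ (scw N w p) z := sorry
theorem scw_near {N : ℕ} {w : ℝ} {p : ℕ → ℝ} {t V : ℂ[X]} (h : SpecW N w p t V) (z : ℂ)
    (hz : |z.im| ≤ Real.pi / 3) :
    ‖scw N w p z - 1‖ < |1 - w| ∧ min w (2 - w) ≤ (scw N w p z).re := sorry
theorem scw_lim {N : ℕ} {w : ℝ} {p : ℕ → ℝ} {t V : ℂ[X]} (h : SpecW N w p t V) :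
    ∃ K : ℝ, ∀ z : ℂ, |z.im| ≤ 5 * Real.pi / 6 →
      ‖scw N w p z - w‖ ≤ K * Real.exp (-|z.re|) := sorry
theorem scw_conj {N : ℕ} {w : ℝ} {p : ℕ → ℝ} (z : ℂ) :
    scw N w p (starRingEnd ℂ z) = starRingEnd ℂ (scw N w p z) := sorry
theorem scw_ofReal {N : ℕ} {w : ℝ} {p : ℕ → ℝ} (u : ℝ) :
    scw N w p u = (srw N w p u : ℂ) := sorry
theorem scw_eq_t {N : ℕ} {w : ℝ} {p : ℕ → ℝ} {t V : ℂ[X]} (h : SpecW N w p t V) (z : ℂ)
    (hz : |z.im| < Real.pi) :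
    t.eval (Complex.exp z) = (1 + Complex.exp z) ^ N * scw N w p z := sorry

/-! ## G7 (file G7.lean, imports G6 B4): functional relations -/

theorem rel_hw {N : ℕ} {w : ℝ} {p : ℕ → ℝ} {t V : ℂ[X]} (h : SpecW N w p t V) (z : ℂ)
    (hz : |z.im| < 2 * Real.pi / 3) :
    scw N w p (z + Real.pi / 3 * Complex.I) * scw N w p (z - Real.pi / 3 * Complex.I)
      = 1 + (Complex.tanh (3 * z / 4)) ^ N * hh N V z := sorry
theorem rel_hhw {N : ℕ} {w : ℝ} {p : ℕ → ℝ} {t V : ℂ[X]} (h : SpecW N w p t V) (z : ℂ)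
    (hz : |z.im| ≤ Real.pi / 3) :
    hh N V (z + Real.pi / 3 * Complex.I) * hh N V (z - Real.pi / 3 * Complex.I)
      = 1 + ((w : ℂ) ^ 3 - 3 * w) * scw N w p z + scw N w p z ^ 2 := sorry

/-! ## G8 (file G8.lean, imports G7): zeros, sign, limits of `h` -/

theorem hhw_ne {N : ℕ} {w : ℝ} {p : ℕ → ℝ} {t V : ℂ[X]} (h : SpecW N w p t V) (z : ℂ)
    (hz : |z.im| ≤ 2 * Real.pi / 3) : hh N V z ≠ 0 := sorry
theorem hhw_lim {N : ℕ} {w : ℝ} {p : ℕ → ℝ} {t V : ℂ[X]} (h : SpecW N w p t V) :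
    ∃ K : ℝ, ∀ z : ℂ, |z.im| ≤ Real.pi / 2 → 1 ≤ |z.re| →
      ‖hh N V z - ((w : ℂ) ^ 2 - 1)‖ ≤ K * Real.exp (-|z.re|) := sorry
theorem hhw_real {N : ℕ} {w : ℝ} {p : ℕ → ℝ} {t V : ℂ[X]} (h : SpecW N w p t V) (u : ℝ) :
    (hh N V u).im = 0 ∧ (w < 1 → (hh N V u).re < 0) ∧ (1 < w → 0 < (hh N V u).re) := sorry

/-! ## G9 (file G9.lean, imports G8, B1, K6.A2a): the representation of `h` -/

theorem hhw_rep {N : ℕ} {w : ℝ} {p : ℕ → ℝ} {t V : ℂ[X]} (h : SpecW N w p t V) (u : ℝ) :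
    |(hh N V u).re| = Real.exp (bw w (srw N w p) u) := sorry

/-! ## G10 (file G10.lean, imports G6 G7 G8 G9 B1): the representation of `s` -/

theorem sw_rep {N : ℕ} {w : ℝ} {p : ℕ → ℝ} {t V : ℂ[X]} (h : SpecW N w p t V) :
    (∀ u : ℝ, ‖scw N w p (u + Real.pi / 3 * Complex.I)‖ ^ 2 = 1 + YW N w (srw N w p) u) ∧
    ∀ l : ℝ, Real.log (srw N w p l) = ∫ u : ℝ, H906K.kk (l - u) * lw N w (srw N w p) u := sorry

/-! ## G11 (file G11.lean): qualitative properties -/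

theorem srw_props {N : ℕ} {w : ℝ} {p : ℕ → ℝ} (w0 : 0 < w) (w2 : w < 2) (w1 : w ≠ 1)
    (nonneg : ∀ j, 0 ≤ p j)
    (supp : ∀ j, p j ≠ 0 → 1 ≤ j ∧ 2 * j ≤ N) (sum : ∑ j ∈ Finset.range (N + 1), p j = 1) :
    (∀ u, srw N w p (-u) = srw N w p u) ∧
    (∀ u, (w < 1 → w ≤ srw N w p u ∧ srw N w p u ≤ 1) ∧
      (1 < w → 1 ≤ srw N w p u ∧ srw N w p u ≤ w)) ∧
    ContDiff ℝ 1 (srw N w p) ∧
    ((w < 1 → AntitoneOn (srw N w p) (Set.Ici 0)) ∧ (1 < w → MonotoneOn (srw N w p) (Set.Ici 0))) ∧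
    Tendsto (srw N w p) atTop (𝓝 w) ∧
    ∃ K, ∀ u, |srw N w p u - w| ≤ K * Real.exp (-|u|) ∧
      |deriv (srw N w p) u| ≤ K * Real.exp (-|u|) := sorry

/-! ## G12 (file G12.lean, imports G6 G10 G11): the system -/

theorem tbaw_of_spec {N : ℕ} {w : ℝ} {p : ℕ → ℝ} {t V : ℂ[X]} (h : SpecW N w p t V) :
    TBAW N w (srw N w p) := sorry

/-! ## E1 (file E1.lean): derivatives and continuity of the dilogarithm functions -/

theorem Fw_deriv (r : ℝ) (h0 : -1 < r) (h1 : r ≠ 0) :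
    HasDerivAt Fw (Real.log (1 + r) / r) r := sorry
theorem Fw_cont : ContinuousOn Fw (Set.Ioi (-1)) := sorry
theorem Gw_deriv (w r : ℝ) (w0 : 0 < w) (w2 : w < 2) (w1 : w ≠ 1) (hr : 0 < r) :
    HasDerivAt (Gw w) (Real.log r * ((w ^ 3 - 3 * w) + 2 * r)
      / (1 + (w ^ 3 - 3 * w) * r + r ^ 2)) r := sorry

/-! ## E1b (file E1b.lean, imports E1): the dilogarithm identity -/

theorem dilogW (w : ℝ) (w0 : 0 < w) (w2 : w < 2) (w1 : w ≠ 1) :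
    Fw (w ^ 2 - 1) + Gw w 1 = Real.pi ^ 2 / 6 - 3 / 2 * Real.arccos (w / 2) ^ 2 := sorry

/-! ## E2a (file E2a.lean, imports K6.A2a K6.A2b): bounds for `LW`, `bw` -/

theorem LW_props {N : ℕ} {w : ℝ} {s : ℝ → ℝ} (h : TBAW N w s) :
    ContDiff ℝ 1 (LW w s) ∧ (∀ u, LW w s u ≤ Real.log 9) ∧ (∃ K, ∀ u, |LW w s u| ≤ K) ∧
    (∀ u, LW w s (-u) = LW w s u) ∧
    (∀ u, deriv (LW w s) (-u) = -deriv (LW w s) u) ∧
    (∀ u, deriv (LW w s) u = ((w ^ 3 - 3 * w) + 2 * s u) * deriv s u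
      / (1 + (w ^ 3 - 3 * w) * s u + s u ^ 2)) ∧
    Integrable (deriv (LW w s)) ∧
    ∫ u in Set.Ioi (0 : ℝ), |deriv (LW w s) u| ≤ 6 / (1 - (w ^ 3 - 3 * w) ^ 2 / 4) ∧
    Tendsto (LW w s) atTop (𝓝 (2 * Real.log |1 - w ^ 2|)) ∧
    ∃ K, ∀ u, |deriv (LW w s) u| ≤ K * Real.exp (-|u|) := sorry
theorem bw_props {N : ℕ} {w : ℝ} {s : ℝ → ℝ} (h : TBAW N w s) :
    ContDiff ℝ 1 (bw w s) ∧ (∀ u, bw w s u ≤ Real.log 3) ∧
    (∀ u, bw w s (-u) = bw w s u) ∧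
    (∀ u, deriv (bw w s) u = ∫ v : ℝ, H906K.kk (u - v) * deriv (LW w s) v) ∧
    Tendsto (bw w s) atTop (𝓝 (Real.log |1 - w ^ 2|)) ∧
    (∃ K, ∀ u, |deriv (bw w s) u| ≤ K * Real.exp (-|u|)) := sorry

/-! ## E2b (file E2b.lean, imports E2a): bounds for `YW`, `lw` -/

theorem YW_props {N : ℕ} {w : ℝ} {s : ℝ → ℝ} (h : TBAW N w s) :
    (∀ u, -1 < YW N w s u ∧ |YW N w s u| ≤ 3 * Real.tanh (3 * u / 4) ^ N) ∧
    (∀ u, 0 < u → YW N w s u ≠ 0) ∧ YW N w s 0 = 0 ∧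
    (∀ u, YW N w s (-u) = YW N w s u) ∧ Continuous (YW N w s) ∧
    Tendsto (YW N w s) atTop (𝓝 (w ^ 2 - 1)) ∧
    (∀ u, 0 < u → HasDerivAt (YW N w s)
      (YW N w s u * ((3 / 2 * N) / Real.sinh (3 * u / 2) + deriv (bw w s) u)) u) := sorry
theorem lw_props {N : ℕ} {w : ℝ} {s : ℝ → ℝ} (h : TBAW N w s) :
    Continuous (lw N w s) ∧ (∀ u, lw N w s (-u) = lw N w s u) ∧
    (∀ u, |lw N w s u| ≤ 3 / (min w (2 - w)) ^ 2 * Real.tanh (3 * u / 4) ^ N) := sorry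

/-! ## E3 (file E3.lean, imports E1 E2b): the first integral -/

theorem int_Fw {N : ℕ} {w : ℝ} {s : ℝ → ℝ} (h : TBAW N w s) :
    IntegrableOn (fun u => lw N w s u * ((3 / 2 * N) / Real.sinh (3 * u / 2))) (Set.Ioi 0) ∧
    IntegrableOn (fun u => lw N w s u * deriv (bw w s) u) (Set.Ioi 0) ∧
    ∫ u in Set.Ioi (0 : ℝ), lw N w s u * ((3 / 2 * N) / Real.sinh (3 * u / 2))
      = Fw (w ^ 2 - 1) - ∫ u in Set.Ioi (0 : ℝ), lw N w s u * deriv (bw w s) u := sorry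

/-! ## E4 (file E4.lean, imports E2b): the double integral -/

theorem dblw {N : ℕ} {w : ℝ} {s : ℝ → ℝ} (h : TBAW N w s) :
    ∫ u in Set.Ioi (0 : ℝ), lw N w s u * deriv (bw w s) u
      = (∫ u in Set.Ioi (0 : ℝ), Real.log (s u) * deriv (LW w s) u) + DW N w s := sorry

/-! ## E5 (file E5.lean, imports E1 E2a): the second integral -/

theorem int_Gw {N : ℕ} {w : ℝ} {s : ℝ → ℝ} (h : TBAW N w s) :
    ∫ u in Set.Ioi (0 : ℝ), Real.log (s u) * deriv (LW w s) u = -Gw w (s 0) := sorry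

/-! ## E6 (file E6.lean, imports E2b): bounds -/

theorem DW_le {N : ℕ} {w : ℝ} {s : ℝ → ℝ} (h : TBAW N w s) :
    |DW N w s| ≤ 2 * (6 / (1 - (w ^ 3 - 3 * w) ^ 2 / 4)) * (3 / (min w (2 - w)) ^ 2) *
      ∫ u in Set.Ioi (0 : ℝ), H906K.kk u * (6 * (1 + u) * Real.tanh (3 * u / 4) ^ N) := sorry
theorem s0w {N : ℕ} {w : ℝ} {s : ℝ → ℝ} (h : TBAW N w s) :
    |Real.log (s 0)| ≤ 2 * (3 / (min w (2 - w)) ^ 2) * ∫ u in Set.Ioi (0 : ℝ),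
      H906K.kk u * (6 * (1 + u) * Real.tanh (3 * u / 4) ^ N) := sorry

/-! ## E7 (file E7.lean, imports E1 E1b E3 E4 E5 E6 C7): the asymptotics -/

theorem tbaw_asymp (w : ℝ) (s : ℕ → ℝ → ℝ) (h : ∀ k, TBAW (2 * k + 2) w (s k)) :
    Tendsto (fun k : ℕ => (2 * k + 2 : ℝ) * Real.log (s k 0)) atTop
      (𝓝 (Real.pi / 6 - 3 * Real.arccos (w / 2) ^ 2 / (2 * Real.pi))) := sorry

/-! ## FINW: the theorem -/

theorem resultW_stub :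
    (∀ (k M : ℕ) (c : Fin M → Fin (2 * k + 2) → Bool), loops c = 0 ↔ Crosses c) ∧
    ∀ w : ℝ, 0 ≤ w → w < 2 → ∃ r : ℕ → ℝ,
      (∀ k, Tendsto (fun M : ℕ => 1 / (M : ℝ) * Real.log (genLoops k M w)) atTop (𝓝 (r k))) ∧
      Tendsto (fun k : ℕ => (2 * k + 2 : ℝ) * r k) atTop
        (𝓝 (Real.pi / 6 - 3 * Real.arccos (w / 2) ^ 2 / (2 * Real.pi))) := sorry

end H906C
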